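import Pool.Agent.Lib.MP_5b31c3_gt.Defs
import Mathlib

-- part Pool.Agent.Lib.MP_5b31c3_gt.Typing
section

/-
Typing and skeletons of words.
-/

namespace Pool.Agent.Lib.MP_5b31c3_gt

@[simp] theorem shift_nil (k : ℕ) : shift k [] = [] := rfl

@[simp] theorem shift_cons (k : ℕ) (x : Kind) (i : ℕ) (w : Word) :
    shift k ((x, i) :: w) = (x, i + k) :: shift k w := rfl

@[simp] theorem shift_append (k : ℕ) (u w : Word) :
    shift k (u ++ w) = shift k u ++ shift k w := List.map_append

@[simp] theorem shift_zero (w : Word) : shift 0 w = w := by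
  induction w with
  | nil => rfl
  | cons x w ih => obtain ⟨x, i⟩ := x; simp [ih]

theorem shift_shift (k l : ℕ) (w : Word) : shift k (shift l w) = shift (l + k) w := by
  induction w with
  | nil => rfl
  | cons x w ih => obtain ⟨x, i⟩ := x; simp [ih, Nat.add_assoc]

@[simp] theorem run_nil (c : Config) : run c [] = some c := rfl

theorem run_cons (c : Config) (x : Kind) (i : ℕ) (w : Word) :
    run c ((x, i) :: w) = (step x i c).bind fun c' => run c' w := rfl

theorem run_append (c : Config) (u w : Word) :
    run c (u ++ w) = (run c u).bind fun c' => run c' w := by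
  induction u generalizing c with
  | nil => simp
  | cons x u ih =>
    obtain ⟨x, i⟩ := x
    simp only [List.cons_append, run_cons]
    cases step x i c with
    | none => rfl
    | some c' => simp [ih]

theorem run_append_of {c c' : Config} {u : Word} (h : run c u = some c') (w : Word) :
    run c (u ++ w) = run c' w := by simp [run_append, h]

theorem run_append_some {c c'' : Config} {u w : Word} (h : run c (u ++ w) = some c'') :
    ∃ c', run c u = some c' ∧ run c' w = some c'' := by
  rw [run_append] at h
  exact Option.bind_eq_some_iff.mp h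

theorem run_cons_some {c c'' : Config} {x : Kind} {i : ℕ} {w : Word}
    (h : run c ((x, i) :: w) = some c'') :
    ∃ c', step x i c = some c' ∧ run c' w = some c'' := by
  rw [run_cons] at h
  exact Option.bind_eq_some_iff.mp h

theorem run_cons_of {c c' : Config} {x : Kind} {i : ℕ} (h : step x i c = some c') (w : Word) :
    run c ((x, i) :: w) = run c' w := by simp [run_cons, h]

theorem run_single (c : Config) (x : Kind) (i : ℕ) : run c [(x, i)] = step x i c := by
  simp [run_cons]

theorem act_append {x : Kind} {c c' : Config} (h : x.act c = some c') (cr : Config) :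
    x.act (c ++ cr) = some (c' ++ cr) := by
  cases x with
  | cup k => simp only [Kind.act, Option.some.injEq] at h ⊢; subst h; rfl
  | cap =>
    match c, h with
    | a :: b :: c, h =>
      simp only [Kind.act, List.cons_append] at h ⊢
      split_ifs at h ⊢ with hab
      simp only [Option.some.injEq] at h; subst h; rfl
  | cr b =>
    match c, h with
    | a :: b :: c, h =>
      simp only [Kind.act, List.cons_append, Option.some.injEq] at h ⊢; subst h; rfl

theorem step_left (x : Kind) (i : ℕ) (cl c : Config) :
    step x (i + cl.length) (cl ++ c) = (step x i c).map (cl ++ ·) := by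
  induction cl with
  | nil => simp
  | cons a cl ih =>
    simp only [List.length_cons, ← Nat.add_assoc, List.cons_append, step, ih, Option.map_map]
    rfl

theorem step_right {x : Kind} {i : ℕ} {c c' : Config} (h : step x i c = some c') (cr : Config) :
    step x i (c ++ cr) = some (c' ++ cr) := by
  induction i generalizing c c' with
  | zero => exact act_append h cr
  | succ i ih =>
    match c, h with
    | a :: c, h =>
      simp only [step, Option.map_eq_some_iff] at h
      obtain ⟨d, hd, rfl⟩ := h
      simp [step, ih hd]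

theorem step_whisk {x : Kind} {i : ℕ} {c c' : Config} (h : step x i c = some c')
    (cl cr : Config) : step x (i + cl.length) (cl ++ c ++ cr) = some (cl ++ c' ++ cr) := by
  rw [List.append_assoc, step_left, step_right h]; simp

theorem run_whisk {w : Word} {c c' : Config} (h : run c w = some c') (cl cr : Config) :
    run (cl ++ c ++ cr) (shift cl.length w) = some (cl ++ c' ++ cr) := by
  induction w generalizing c with
  | nil => simp only [run_nil, Option.some.injEq] at h; subst h; rfl
  | cons x w ih =>
    obtain ⟨x, i⟩ := x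
    obtain ⟨d, hd, hw⟩ := run_cons_some h
    rw [shift_cons, run_cons_of (step_whisk hd cl cr)]
    exact ih hw

theorem run_right {w : Word} {c c' : Config} (h : run c w = some c') (cr : Config) :
    run (c ++ cr) w = some (c' ++ cr) := by
  simpa using run_whisk h [] cr

theorem run_left {w : Word} {c c' : Config} (h : run c w = some c') (cl : Config) :
    run (cl ++ c) (shift cl.length w) = some (cl ++ c') := by
  simpa using run_whisk h cl []

theorem run_one {w : Word} {c c' : Config} (h : run c w = some c') (a : Option ℕ) :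
    run (a :: c) (shift 1 w) = some (a :: c') := run_left h [a]

/-- Every slice acts on a core of the exact width. -/
theorem step_decomp {x : Kind} {i : ℕ} {c c' : Config} (h : step x i c = some c') :
    ∃ cl c0 c0' cr, c = cl ++ c0 ++ cr ∧ c' = cl ++ c0' ++ cr ∧ cl.length = i ∧
      c0.length = x.inp ∧ c0'.length = x.out ∧ x.act c0 = some c0' := by
  induction i generalizing c c' with
  | zero =>
    cases x with
    | cup k =>
      simp only [step, Kind.act, Option.some.injEq] at h
      exact ⟨[], [], [k.map Prod.fst, k.map Prod.fst], c, rfl, h.symm, rfl, rfl, rfl, rfl⟩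
    | cap =>
      match c, h with
      | a :: b :: c, h =>
        simp only [step, Kind.act] at h
        split_ifs at h with hab
        simp only [Option.some.injEq] at h
        exact ⟨[], [a, b], [], c, rfl, h.symm, rfl, rfl, rfl, by simp [Kind.act, hab]⟩
    | cr t =>
      match c, h with
      | a :: b :: c, h =>
        simp only [step, Kind.act, Option.some.injEq] at h
        exact ⟨[], [a, b], [b, a], c, rfl, h.symm, rfl, rfl, rfl, rfl⟩
  | succ i ih =>
    match c, h with
    | a :: c, h =>
      simp only [step, Option.map_eq_some_iff] at h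
      obtain ⟨d, hd, rfl⟩ := h
      obtain ⟨cl, c0, c0', cr, rfl, rfl, h1, h2⟩ := ih hd
      exact ⟨a :: cl, c0, c0', cr, rfl, rfl, by simp [h1], h2⟩

/-- The number of surgery strands. -/
def np (c : Config) : ℕ := c.countP Option.isSome

@[simp] theorem np_nil : np [] = 0 := rfl
@[simp] theorem np_none (c : Config) : np (none :: c) = np c := by simp [np]
@[simp] theorem np_some (n : ℕ) (c : Config) : np (some n :: c) = np c + 1 := by simp [np]
@[simp] theorem np_append (c d : Config) : np (c ++ d) = np c + np d := by simp [np]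

@[simp] theorem skel_nil (c : Config) : skel c [] = [] := rfl

/-- The skeleton of one slice. -/
def skl (c : Config) (x : Kind) (i : ℕ) : Word :=
  if x.surg (c.drop i) then [(x, np (c.take i))] else []

theorem skel_cons_of {c c' : Config} {x : Kind} {i : ℕ} (h : step x i c = some c') (w : Word) :
    skel c ((x, i) :: w) = skl c x i ++ skel c' w := by
  simp [skel, skl, np, h]

theorem skel_append_of {c c' : Config} {u : Word} (h : run c u = some c') (w : Word) :
    skel c (u ++ w) = skel c u ++ skel c' w := by
  induction u generalizing c with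
  | nil => simp only [run_nil, Option.some.injEq] at h; subst h; rfl
  | cons x u ih =>
    obtain ⟨x, i⟩ := x
    obtain ⟨d, hd, hu⟩ := run_cons_some h
    rw [List.cons_append, skel_cons_of hd, skel_cons_of hd, ih hu, List.append_assoc]

theorem surg_append {x : Kind} {c c' : Config} (h : x.act c = some c') (cr : Config) :
    x.surg (c ++ cr) = x.surg c := by
  cases x with
  | cup k => rfl
  | cap =>
    match c, h with
    | a :: b :: c, _ => rfl
  | cr b =>
    match c, h with
    | a :: b :: c, _ => rfl

theorem skl_core {x : Kind} {c0 c0' : Config} (h : x.act c0 = some c0') (cl cr : Config) :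
    skl (cl ++ c0 ++ cr) x cl.length = if x.surg c0 then [(x, np cl)] else [] := by
  simp [skl, List.append_assoc, surg_append h]

theorem skl_whisk {x : Kind} {i : ℕ} {c c' : Config} (h : step x i c = some c')
    (cl cr : Config) :
    skl (cl ++ c ++ cr) x (i + cl.length) = shift (np cl) (skl c x i) := by
  obtain ⟨dl, c0, c0', dr, rfl, rfl, rfl, -, -, h0⟩ := step_decomp h
  have := skl_core h0 (cl ++ dl) (dr ++ cr)
  simp only [List.append_assoc, List.length_append] at this ⊢
  rw [Nat.add_comm, this]
  have := skl_core h0 dl dr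
  simp only [List.append_assoc] at this
  rw [this]
  split_ifs <;> simp [Nat.add_comm]

theorem skel_whisk {w : Word} {c c' : Config} (h : run c w = some c') (cl cr : Config) :
    skel (cl ++ c ++ cr) (shift cl.length w) = shift (np cl) (skel c w) := by
  induction w generalizing c with
  | nil => rfl
  | cons x w ih =>
    obtain ⟨x, i⟩ := x
    obtain ⟨d, hd, hw⟩ := run_cons_some h
    rw [shift_cons, skel_cons_of (step_whisk hd cl cr), skel_cons_of hd, ih hw, skl_whisk hd,
      shift_append]

theorem skel_right {w : Word} {c c' : Config} (h : run c w = some c') (cr : Config) :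
    skel (c ++ cr) w = skel c w := by
  simpa using skel_whisk h [] cr

theorem skel_left {w : Word} {c c' : Config} (h : run c w = some c') (cl : Config) :
    skel (cl ++ c) (shift cl.length w) = shift (np cl) (skel c w) := by
  simpa using skel_whisk h cl []

/-- Two words with the same boundary and the same skeleton. -/
structure Same (c : Config) (l r : Word) : Prop where
  ok : (run c l).isSome
  run_eq : run c l = run c r
  skel_eq : skel c l = skel c r

theorem Same.refl {c c' : Config} {l : Word} (h : run c l = some c') : Same c l l :=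
  ⟨by simp [h], rfl, rfl⟩

theorem Same.symm {c : Config} {l r : Word} (h : Same c l r) : Same c r l :=
  ⟨h.run_eq ▸ h.ok, h.run_eq.symm, h.skel_eq.symm⟩

theorem Same.trans {c : Config} {l r s : Word} (h : Same c l r) (h' : Same c r s) : Same c l s :=
  ⟨h.ok, h.run_eq.trans h'.run_eq, h.skel_eq.trans h'.skel_eq⟩

theorem Same.ex {c : Config} {l r : Word} (h : Same c l r) :
    ∃ c', run c l = some c' ∧ run c r = some c' := by
  obtain ⟨c', hc⟩ := Option.isSome_iff_exists.mp h.ok
  exact ⟨c', hc, h.run_eq ▸ hc⟩

theorem Same.whisk {c : Config} {l r : Word} (h : Same c l r) (cl cr : Config) :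
    Same (cl ++ c ++ cr) (shift cl.length l) (shift cl.length r) := by
  obtain ⟨c', h1, h2⟩ := h.ex
  refine ⟨by rw [run_whisk h1]; rfl, by rw [run_whisk h1, run_whisk h2], ?_⟩
  rw [skel_whisk h1, skel_whisk h2, h.skel_eq]

theorem Same.pre {c c' : Config} {l r p : Word} (h : Same c' l r) (hp : run c p = some c') :
    Same c (p ++ l) (p ++ r) :=
  ⟨by rw [run_append_of hp]; exact h.ok, by rw [run_append_of hp, run_append_of hp, h.run_eq],
    by rw [skel_append_of hp, skel_append_of hp, h.skel_eq]⟩

theorem Same.run_app {c : Config} {l r : Word} (h : Same c l r) (s : Word) :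
    run c (l ++ s) = run c (r ++ s) := by rw [run_append, run_append, h.run_eq]

theorem Same.skel_app {c : Config} {l r : Word} (h : Same c l r) (s : Word) :
    skel c (l ++ s) = skel c (r ++ s) := by
  obtain ⟨c', h1, h2⟩ := h.ex
  rw [skel_append_of h1, skel_append_of h2, h.skel_eq]

theorem Same.app {c c' : Config} {l r s : Word} (h : Same c l r) (hs : run c (l ++ s) = some c') :
    Same c (l ++ s) (r ++ s) :=
  ⟨by simp [hs], h.run_app s, h.skel_app s⟩

instance (c : Config) (l r : Word) : Decidable (Same c l r) :=
  decidable_of_iff ((run c l).isSome ∧ run c l = run c r ∧ skel c l = skel c r)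
    ⟨fun h => ⟨h.1, h.2.1, h.2.2⟩, fun h => ⟨h.1, h.2, h.3⟩⟩

/-! Recolouring -/

/-- Rename the surgery components and their framing labels. -/
def Kind.recol (ρ : ℕ → ℕ) (φ : ℕ → ℤ → ℤ) : Kind → Kind
  | .cup k => .cup (k.map fun p => (ρ p.1, φ p.1 p.2))
  | x => x

/-- Rename the surgery components in a word. -/
def recol (ρ : ℕ → ℕ) (φ : ℕ → ℤ → ℤ) (w : Word) : Word := w.map fun x => (x.1.recol ρ φ, x.2)

/-- Rename the surgery components in a configuration. -/
def rec' (ρ : ℕ → ℕ) (c : Config) : Config := c.map (Option.map ρ)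

variable {ρ : ℕ → ℕ} {φ : ℕ → ℤ → ℤ}

@[simp] theorem recol_nil : recol ρ φ [] = [] := rfl
@[simp] theorem recol_cons (x : Kind) (i : ℕ) (w : Word) :
    recol ρ φ ((x, i) :: w) = (x.recol ρ φ, i) :: recol ρ φ w := rfl
@[simp] theorem recol_append (u w : Word) :
    recol ρ φ (u ++ w) = recol ρ φ u ++ recol ρ φ w := List.map_append
theorem recol_shift (k : ℕ) (w : Word) : recol ρ φ (shift k w) = shift k (recol ρ φ w) := by
  simp [recol, shift, List.map_map, Function.comp_def]
@[simp] theorem rec'_nil : rec' ρ [] = [] := rfl
@[simp] theorem rec'_cons (a : Option ℕ) (c : Config) :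
    rec' ρ (a :: c) = a.map ρ :: rec' ρ c := rfl
@[simp] theorem rec'_append (c d : Config) : rec' ρ (c ++ d) = rec' ρ c ++ rec' ρ d :=
  List.map_append
@[simp] theorem rec'_length (c : Config) : (rec' ρ c).length = c.length := List.length_map _

theorem act_recol {x : Kind} {c c' : Config} (h : x.act c = some c') :
    (x.recol ρ φ).act (rec' ρ c) = some (rec' ρ c') := by
  cases x with
  | cup k =>
    simp only [Kind.act, Option.some.injEq] at h; subst h
    cases k <;> rfl
  | cap =>
    match c, h with
    | a :: b :: c, h =>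
      simp only [Kind.act] at h
      split_ifs at h with hab
      simp only [Option.some.injEq] at h; subst h; subst hab
      simp [Kind.recol, Kind.act]
  | cr b =>
    match c, h with
    | a :: b :: c, h =>
      simp only [Kind.act, Option.some.injEq] at h; subst h; rfl

theorem step_recol {x : Kind} {i : ℕ} {c c' : Config} (h : step x i c = some c') :
    step (x.recol ρ φ) i (rec' ρ c) = some (rec' ρ c') := by
  obtain ⟨cl, c0, c0', cr, rfl, rfl, rfl, -, -, h0⟩ := step_decomp h
  have := step_whisk (x := x.recol ρ φ) (i := 0) (act_recol h0) (rec' ρ cl) (rec' ρ cr)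
  simpa using this

theorem run_recol {w : Word} {c c' : Config} (h : run c w = some c') :
    run (rec' ρ c) (recol ρ φ w) = some (rec' ρ c') := by
  induction w generalizing c with
  | nil => simp only [run_nil, Option.some.injEq] at h; subst h; rfl
  | cons x w ih =>
    obtain ⟨x, i⟩ := x
    obtain ⟨d, hd, hw⟩ := run_cons_some h
    rw [recol_cons, run_cons_of (step_recol hd)]
    exact ih hw

@[simp] theorem np_rec' (c : Config) : np (rec' ρ c) = np c := by
  induction c with
  | nil => rfl
  | cons a c ih => cases a <;> simp [ih]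

theorem surg_recol (x : Kind) (c : Config) : (x.recol ρ φ).surg (rec' ρ c) = x.surg c := by
  cases x with
  | cup k => cases k <;> rfl
  | cap => cases c with
    | nil => rfl
    | cons a c => cases a <;> rfl
  | cr b =>
    match c with
    | [] => rfl
    | [a] => rfl
    | a :: b :: c => cases a <;> cases b <;> rfl

theorem skel_recol {w : Word} {c c' : Config} (h : run c w = some c') :
    skel (rec' ρ c) (recol ρ φ w) = recol ρ φ (skel c w) := by
  induction w generalizing c with
  | nil => rfl
  | cons x w ih =>
    obtain ⟨x, i⟩ := x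
    obtain ⟨d, hd, hw⟩ := run_cons_some h
    rw [recol_cons, skel_cons_of (step_recol hd), skel_cons_of hd, ih hw, recol_append]
    congr 1
    obtain ⟨cl, c0, c0', cr, rfl, rfl, rfl, -, -, h0⟩ := step_decomp hd
    have := skl_core (act_recol (ρ := ρ) (φ := φ) h0) (rec' ρ cl) (rec' ρ cr)
    simp only [rec'_length] at this
    rw [rec'_append, rec'_append, this, skl_core h0, surg_recol]
    split_ifs <;> simp

theorem Same.recol {c : Config} {l r : Word} (h : Same c l r) (ρ : ℕ → ℕ) (φ : ℕ → ℤ → ℤ) :
    Same (rec' ρ c) (recol ρ φ l) (recol ρ φ r) := by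
  obtain ⟨c', h1, h2⟩ := h.ex
  refine ⟨by simp [run_recol h1], by rw [run_recol h1, run_recol h2], ?_⟩
  rw [skel_recol h1, skel_recol h2, h.skel_eq]

end Pool.Agent.Lib.MP_5b31c3_gt
end

-- part Pool.Agent.Lib.MP_5b31c3_gt.AlgDefs
section

/-
The abstract algebraic system behind the levels of an alternating two-bridge diagram.
-/

namespace Pool.Agent.Lib.MP_5b31c3_gt

variable {R : Type*} [CommRing R] {W : Type*} [AddCommGroup W] [Module R W]

/-- The scalar `A ^ k`. -/
def sc (A : Rˣ) (k : ℤ) : R := ((A ^ k : Rˣ) : R)

/-- The operator `m ^ k` where `m = M` for `e = true` and `m = M⁻¹` for `e = false`. -/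
def mp (M : (Module.End R W)ˣ) (e : Bool) (k : ℤ) : Module.End R W :=
  ((M ^ (if e then k else -k) : (Module.End R W)ˣ) : Module.End R W)

/-- The square of the meridian. -/
def tau (M : (Module.End R W)ˣ) : Module.End R W := (mp M true 1 + mp M true (-1)) ^ 2

/-- The value of the trivial circle. -/
def dl (A : Rˣ) : R := -sc A 2 - sc A (-2)

/-- The loop operators and the arc operators of one level. -/
structure Lvl (R : Type*) [CommRing R] (W : Type*) [AddCommGroup W] [Module R W] where
  a : Module.End R W
  b : Module.End R W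
  c : Module.End R W
  p : Module.End R W
  al : Bool → Module.End R W
  be : Bool → Module.End R W
  G : Bool → Module.End R W
  P : Bool → Module.End R W

/-- `X` is semilinear: it moves past `M` at the cost of `A ^ 2` or `A ^ (-2)`. -/
def Semi (A : Rˣ) (M : (Module.End R W)ˣ) (X : Bool → Module.End R W) : Prop :=
  ∀ e, X e * mp M e 1 = sc A 2 • (mp M e 1 * X e)

/-- The relations between the operators of one level. -/
structure Rel (A : Rˣ) (M : (Module.End R W)ˣ) (L : Lvl R W) : Prop where
  ca : L.a * M = M * L.a
  cb : L.b * M = M * L.b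
  cc : L.c * M = M * L.c
  cp : L.p * M = M * L.p
  sal : Semi A M L.al
  sbe : Semi A M L.be
  sG : Semi A M L.G
  sP : Semi A M L.P
  L1 : L.a * L.b = sc A 2 • L.c + sc A (-2) • L.p + (2 : R) • tau M
  L2 : L.b * L.a = sc A (-2) • L.c + sc A 2 • L.p + (2 : R) • tau M
  L3 : L.p * L.a = sc A 4 • (L.a * L.p) + (sc A (-2) - sc A 6) • L.b +
    (2 * (1 - sc A 4)) • tau M
  L4 : L.p * L.b = sc A (-4) • (L.b * L.p) + (sc A 2 - sc A (-6)) • L.a +
    (2 * (1 - sc A (-4))) • tau M
  cub : L.c * L.p = sc A (-4) • (L.a * L.a) + sc A 4 • (L.b * L.b) +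
    (2 * sc A (-2)) • (tau M * L.a) + (2 * sc A 2) • (tau M * L.b) +
    (tau M * tau M + (4 : R) • tau M - (dl A ^ 2) • 1)
  K1 : ∀ e, L.be e * L.a = sc A (-3) • (mp M e (-1) * L.G e) + sc A 3 • (mp M e 1 * L.P e) +
    (2 : R) • L.al e
  K1L : ∀ e, L.a * L.be e = sc A 1 • (mp M e (-1) * L.G e) + sc A (-1) • (mp M e 1 * L.P e) +
    (2 : R) • L.al e
  K2 : ∀ e, L.al e * L.b = sc A 3 • (mp M e 1 * L.G e) + sc A (-3) • (mp M e (-1) * L.P e) +
    (2 : R) • L.be e
  K2L : ∀ e, L.b * L.al e = sc A (-1) • (mp M e 1 * L.G e) + sc A 1 • (mp M e (-1) * L.P e) +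
    (2 : R) • L.be e
  K3a : ∀ e, L.P e * L.a = sc A 4 • (L.a * L.P e) +
    (sc A (-3) - sc A 5) • (mp M e (-1) * L.be e) +
    (2 * (sc A (-1) - sc A 3)) • (mp M e (-1) * L.al e)
  K3b : ∀ e, L.P e * L.b = sc A (-4) • (L.b * L.P e) +
    (sc A 3 - sc A (-5)) • (mp M e 1 * L.al e) +
    (2 * (sc A 1 - sc A (-3))) • (mp M e 1 * L.be e)
  K4a : ∀ e, L.a * L.P e = sc A (-3) • (mp M e 1 * L.p * L.al e) +
    sc A 1 • (mp M e (-1) * L.be e) - sc A (-3) • (mp M e 3 * L.be e) +
    (2 * sc A (-1)) • (mp M e (-1) * L.al e) - (2 * sc A (-2)) • (mp M e 2 * L.P e)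
  K4b : ∀ e, L.b * L.P e = sc A 3 • (mp M e (-1) * L.p * L.be e) +
    sc A (-1) • (mp M e 1 * L.al e) - sc A 3 • (mp M e (-3) * L.al e) +
    (2 * sc A 1) • (mp M e 1 * L.be e) - (2 * sc A 2) • (mp M e (-2) * L.P e)
  K5a : ∀ e, L.al e * L.a = L.a * L.al e
  K5b : ∀ e, L.be e * L.b = L.b * L.be e

/-- The passage from one level to the next one through a crossing. -/
def Step (A : Rˣ) (M : (Module.End R W)ˣ) : Bool → Lvl R W → Lvl R W → Prop
  | true, L, L' => L'.a = L.c ∧ L'.b = L.b ∧ L'.p = L.a ∧
      ∀ e, L'.al e = L.G e ∧ L'.be e = sc A (-1) • (mp M e (-1) * L.be e) ∧ L'.P e = L.al e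
  | false, L, L' => L'.a = L.a ∧ L'.b = L.c ∧ L'.p = L.b ∧
      ∀ e, L'.al e = sc A 1 • (mp M e 1 * L.al e) ∧ L'.be e = L.G e ∧ L'.P e = L.be e

/-- A sequence of levels along a word, all satisfying the relations. -/
inductive Levels (A : Rˣ) (M : (Module.End R W)ˣ) : Lvl R W → List Bool → Lvl R W → Prop
  | nil {L : Lvl R W} (h : Rel A M L) : Levels A M L [] L
  | cons {L L' L'' : Lvl R W} {x : Bool} {w : List Bool} (h : Rel A M L)
      (hs : Step A M x L L') (hw : Levels A M L' w L'') : Levels A M L (x :: w) L''

/-- The values of the operators of the first level on the generating vector `v`. -/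
structure Top (A : Rˣ) (M : (Module.End R W)ˣ) (L : Lvl R W) (v : W) : Prop where
  a : L.a v = dl A • v
  p : L.p v = -(sc A (-4) • L.b v) - sc A (-2) • tau M v
  al : ∀ e, L.al e v = sc A 6 • mp M e 2 v - (2 * sc A 2) • v + sc A (-2) • mp M e (-2) v
  be : ∀ e, L.be e v = -(sc A 2 • L.b v) - sc A 4 • mp M e 2 v - mp M e (-2) v
  P : ∀ e, L.P e v = -(sc A 1 • mp M e (-1) (L.p v)) - sc A 3 • mp M e 1 v -
    sc A (-1) • mp M e (-3) v
  span : Submodule.span R {x | ∃ (i : ℤ) (k : ℕ), x = mp M true i ((L.b ^ k) v)} = ⊤

/-- The exceptional degrees: the first argument says whether the edge path is at the vertex `a`,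
the second one whether it has just arrived there. -/
def bad : Bool → Bool → ℤ → List Bool → Finset ℤ
  | true, _, D, [] => {D}
  | false, f, D, [] => if f then ∅ else {D}
  | true, _, D, false :: w => bad true false (D + 1) w
  | false, _, D, true :: w => bad false false (D - 1) w
  | true, f, D, true :: w => bad true true (D + 1) w ∪ if f then ∅ else bad false true (D - 1) w
  | false, f, D, false :: w => bad false true (D - 1) w ∪ if f then ∅ else bad true true (D + 1) w

/-- Weighted shifts of sequences. -/
@[ext] structure Sh (R : Type*) [CommRing R] where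
  d : ℤ
  u : ℤ → Rˣ

instance : Group (Sh R) where
  mul X Y := ⟨X.d + Y.d, fun n => X.u n * Y.u (n + X.d)⟩
  one := ⟨0, fun _ => 1⟩
  inv X := ⟨-X.d, fun n => (X.u (n - X.d))⁻¹⟩
  mul_assoc X Y Z := by
    refine Sh.ext (add_assoc _ _ _) (funext fun n => ?_)
    change X.u n * Y.u (n + X.d) * Z.u (n + (X.d + Y.d)) =
      X.u n * (Y.u (n + X.d) * Z.u (n + X.d + Y.d))
    rw [mul_assoc, add_assoc]
  one_mul X := by
    refine Sh.ext (zero_add _) (funext fun n => ?_)
    change 1 * X.u (n + 0) = X.u n
    simp
  mul_one X := by
    refine Sh.ext (add_zero _) (funext fun n => ?_)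
    change X.u n * 1 = X.u n
    simp
  inv_mul_cancel X := by
    refine Sh.ext (neg_add_cancel _) (funext fun n => ?_)
    change (X.u (n - X.d))⁻¹ * X.u (n + -X.d) = 1
    rw [← sub_eq_add_neg, inv_mul_cancel]

@[simp] theorem Sh.mul_d (X Y : Sh R) : (X * Y).d = X.d + Y.d := rfl
@[simp] theorem Sh.mul_u (X Y : Sh R) (n : ℤ) : (X * Y).u n = X.u n * Y.u (n + X.d) := rfl
@[simp] theorem Sh.one_d : (1 : Sh R).d = 0 := rfl
@[simp] theorem Sh.one_u (n : ℤ) : (1 : Sh R).u n = 1 := rfl
@[simp] theorem Sh.inv_d (X : Sh R) : X⁻¹.d = -X.d := rfl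
@[simp] theorem Sh.inv_u (X : Sh R) (n : ℤ) : X⁻¹.u n = (X.u (n - X.d))⁻¹ := rfl

/-- Multiplication by a unit as a weighted shift. -/
def Sh.scal (a : Rˣ) : Sh R := ⟨0, fun _ => a⟩

/-- The action of a weighted shift on sequences. -/
def Sh.op (X : Sh R) (Q : Type*) [AddCommGroup Q] [Module R Q] : Module.End R (ℤ → Q) where
  toFun q n := (X.u n : R) • q (n + X.d)
  map_add' q q' := by funext n; simp
  map_smul' r q := by funext n; simp [smul_comm r]

@[simp] theorem Sh.op_apply (X : Sh R) (Q : Type*) [AddCommGroup Q] [Module R Q] (q : ℤ → Q)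
    (n : ℤ) : X.op Q q n = (X.u n : R) • q (n + X.d) := rfl

theorem Sh.op_mul (X Y : Sh R) (Q : Type*) [AddCommGroup Q] [Module R Q] :
    (X * Y).op Q = X.op Q * Y.op Q := by
  ext q n
  simp [mul_smul, add_assoc]

theorem Sh.op_one (Q : Type*) [AddCommGroup Q] [Module R Q] : (1 : Sh R).op Q = 1 := by
  ext q n
  simp

/-- A meridian and a longitude in the quantum torus. -/
def TorusPair (A : Rˣ) (X Y : Sh R) : Prop := Y * X = Sh.scal (A ^ 2) * X * Y

/-- The operator of the curve `k` meridians plus one longitude. -/
def lam (A : Rˣ) (X Y : Sh R) (k : ℤ) (Q : Type*) [AddCommGroup Q] [Module R Q] :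
    Module.End R (ℤ → Q) :=
  sc A k • ((X ^ k * Y).op Q + (X ^ (-k) * Y⁻¹).op Q)

/-- The operator of the meridian. -/
def mer (X : Sh R) (Q : Type*) [AddCommGroup Q] [Module R Q] : Module.End R (ℤ → Q) :=
  X.op Q + X⁻¹.op Q

/-- The operator that corresponds to the closing arcs. -/
def arcE (A : Rˣ) (X Y : Sh R) (e : Bool) (Q : Type*) [AddCommGroup Q] [Module R Q] :
    Module.End R (ℤ → Q) :=
  sc A 2 • ((X.op Q - X⁻¹.op Q) ^ 2 * (if e then Y else Y⁻¹).op Q)

/-- The torus pair of the first component of a chain with framings `a :: l`. -/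
def chainPair (A : Rˣ) : ℤ → List ℤ → Sh R × Sh R
  | a, [] =>
      (⟨1, fun _ => 1⟩,
        Sh.scal (A ^ (-a)) * (⟨1, fun _ => 1⟩ : Sh R) ^ (-a) * ⟨0, fun n => -A ^ (-2 * n - 2)⟩)
  | a, a' :: l =>
      ((chainPair A a' l).2,
        Sh.scal (A ^ (-a)) * (chainPair A a' l).2 ^ (-a) * (chainPair A a' l).1⁻¹)

end Pool.Agent.Lib.MP_5b31c3_gt
end

-- part Pool.Agent.Lib.MP_5b31c3_gt.Core
section

/-
Modules of tangles starting at a given configuration, modulo local skein relations.
-/

namespace Pool.Agent.Lib.MP_5b31c3_gt

open Kind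

variable {R : Type*} [CommRing R]

/-- Isotopy moves on cores. -/
inductive BMove : Config → Word → Word → Prop
  | far (x y : Kind) (c1 c1' cm c2 c2' : Config) (h1 : c1.length = x.inp)
      (h2 : c2.length = y.inp) (hx : x.act c1 = some c1') (hy : y.act c2 = some c2')
      (h : x.surg c1 = false ∨ y.surg c2 = false) :
      BMove (c1 ++ cm ++ c2) [(x, 0), (y, x.out + cm.length)] [(y, x.inp + cm.length), (x, 0)]
  | zig : BMove [none] [(cup none, 1), (cap, 0)] []
  | zag : BMove [none] [(cup none, 0), (cap, 1)] []
  | cupSlide (k : Option (ℕ × ℤ)) (b : Bool) (a : Option ℕ) (h : a = none ∨ k = none) :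
      BMove [a] [(cup k, 1), (cr b, 0)] [(cup k, 0), (cr !b, 1)]
  | capSlide (b : Bool) (a x : Option ℕ) (h : a = none ∨ x = none) :
      BMove [a, x, a] [(cr b, 0), (cap, 1)] [(cr !b, 1), (cap, 0)]
  | two (b : Bool) (x y : Option ℕ) (h : x = none ∨ y = none) :
      BMove [x, y] [(cr b, 0), (cr !b, 0)] []
  | three (x y z : Bool) (h : y = x ∨ y = z) (a b c : Option ℕ)
      (h' : a = none ∨ b = none ∨ c = none) :
      BMove [a, b, c] [(cr x, 0), (cr y, 1), (cr z, 0)] [(cr z, 1), (cr y, 0), (cr x, 1)]

/-- The sign attached to a crossing type. -/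
def sg (b : Bool) : ℤ := if b then 1 else -1

/-- Local relations on cores. -/
inductive Base (A : Rˣ) : Config → (Word →₀ R) → Prop
  | move {c : Config} {l r : Word} (h : BMove c l r) :
      Base A c (Finsupp.single l 1 - Finsupp.single r 1)
  | bracket (b : Bool) :
      Base A [none, none] (Finsupp.single [(cr b, 0)] 1 - Finsupp.single [] (sc A (sg b)) -
        Finsupp.single [(cap, 0), (cup none, 0)] (sc A (-sg b)))
  | circle : Base A [] (Finsupp.single [(cup none, 0), (cap, 0)] 1 - Finsupp.single [] (dl A))

/-- A linear map induced by a map of words. -/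
noncomputable def wmap (f : Word → Word) : (Word →₀ R) →ₗ[R] (Word →₀ R) :=
  Finsupp.lmapDomain R R f

@[simp] theorem wmap_single (f : Word → Word) (w : Word) (r : R) :
    wmap f (Finsupp.single w r) = Finsupp.single (f w) r := by
  simp [wmap, Finsupp.mapDomain_single]

theorem wmap_wmap (f g : Word → Word) (x : Word →₀ R) :
    wmap f (wmap g x) = wmap (fun w => f (g w)) x := by
  simp only [wmap, Finsupp.lmapDomain_apply]
  rw [← Finsupp.mapDomain_comp]; rfl

/-- The relations among words that start at the configuration `c`. -/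
noncomputable def rels (A : Rˣ) (c : Config) : Submodule R (Word →₀ R) :=
  Submodule.span R {z | ∃ (p s : Word) (cl c0 cr : Config) (x : Word →₀ R),
    run c p = some (cl ++ c0 ++ cr) ∧ Base A c0 x ∧
      z = wmap (fun w => p ++ shift cl.length w ++ s) x}

/-- The module of tangles that start at the configuration `c`. -/
def Tan (A : Rˣ) (c : Config) : Type _ := (Word →₀ R) ⧸ rels A c

noncomputable instance (A : Rˣ) (c : Config) : AddCommGroup (Tan A c) :=
  inferInstanceAs (AddCommGroup ((Word →₀ R) ⧸ rels A c))

noncomputable instance (A : Rˣ) (c : Config) : Module R (Tan A c) :=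
  inferInstanceAs (Module R ((Word →₀ R) ⧸ rels A c))

/-- The quotient map. -/
noncomputable def mkT (A : Rˣ) (c : Config) : (Word →₀ R) →ₗ[R] Tan A c := (rels A c).mkQ

/-- The class of a word. -/
noncomputable def cls (A : Rˣ) (c : Config) (w : Word) : Tan A c := mkT A c (Finsupp.single w 1)

variable {A : Rˣ}

theorem mkT_single (c : Config) (w : Word) (r : R) :
    mkT A c (Finsupp.single w r) = r • cls A c w := by
  rw [cls, ← map_smul]; simp

/-- Maps out of the module of tangles. -/
noncomputable def Tan.lift {V : Type*} [AddCommGroup V] [Module R V] (c : Config) (f : Word → V)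
    (hf : ∀ (p s : Word) (cl c0 cr : Config) (x : Word →₀ R), run c p = some (cl ++ c0 ++ cr) →
      Base A c0 x → Finsupp.linearCombination R (fun w => f (p ++ shift cl.length w ++ s)) x = 0) :
    Tan A c →ₗ[R] V :=
  (rels A c).liftQ (Finsupp.linearCombination R f) (by
    rw [rels, Submodule.span_le]
    rintro z ⟨p, s, cl, c0, cr, x, hp, hx, rfl⟩
    have := hf p s cl c0 cr x hp hx
    simp only [SetLike.mem_coe, LinearMap.mem_ker, wmap, Finsupp.lmapDomain_apply]
    rw [Finsupp.linearCombination_mapDomain]
    exact this)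

@[simp] theorem Tan.lift_cls {V : Type*} [AddCommGroup V] [Module R V] (c : Config)
    (f : Word → V) (hf) (w : Word) : Tan.lift (A := A) c f hf (cls A c w) = f w := by
  change (rels A c).liftQ _ _ ((rels A c).mkQ _) = _
  simp

theorem Tan.span_cls (c : Config) : Submodule.span R (Set.range (cls A c)) = ⊤ := by
  rw [eq_top_iff]
  rintro v -
  obtain ⟨x, rfl⟩ := (rels A c).mkQ_surjective v
  change mkT A c x ∈ _
  induction x using Finsupp.induction_linear with
  | zero => simp
  | add f g hf hg => rw [map_add]; exact add_mem hf hg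
  | single w r =>
    rw [mkT_single]
    exact Submodule.smul_mem _ _ (Submodule.subset_span ⟨w, rfl⟩)

theorem Tan.ext {V : Type*} [AddCommGroup V] [Module R V] {c : Config} {f g : Tan A c →ₗ[R] V}
    (h : ∀ w, f (cls A c w) = g (cls A c w)) : f = g := by
  apply LinearMap.ext_on (Tan.span_cls (A := A) c)
  rintro _ ⟨w, rfl⟩
  exact h w

theorem comb_cls (c : Config) (f : Word → Word) (x : Word →₀ R) :
    Finsupp.linearCombination R (fun w => cls A c (f w)) x = mkT A c (wmap f x) := by
  induction x using Finsupp.induction_linear with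
  | zero => simp
  | add f g hf hg => simp [hf, hg]
  | single w r => simp [mkT_single]

theorem base_zero {c cl c0 cr : Config} {p : Word} (s : Word) {x : Word →₀ R}
    (hp : run c p = some (cl ++ c0 ++ cr)) (hx : Base A c0 x) :
    mkT A c (wmap (fun w => p ++ shift cl.length w ++ s) x) = 0 :=
  (Submodule.Quotient.mk_eq_zero _).mpr
    (Submodule.subset_span ⟨p, s, cl, c0, cr, x, hp, hx, rfl⟩)

/-- Place a tangle in a context: a typed word before it, strands on both sides, a word after. -/
noncomputable def emb (A : Rˣ) {c : Config} (p : Word) (cl c0 cr : Config) (s : Word)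
    (hp : run c p = some (cl ++ c0 ++ cr)) : Tan A c0 →ₗ[R] Tan A c :=
  Tan.lift c0 (fun w => cls A c (p ++ shift cl.length w ++ s)) (by
    intro p' s' dl d0 dr x hp' hx
    have h1 : run c (p ++ shift cl.length p') = some ((cl ++ dl) ++ d0 ++ (dr ++ cr)) := by
      rw [run_append_of hp, run_whisk hp']; simp
    have := base_zero (A := A) (shift cl.length s' ++ s) h1 hx
    rw [comb_cls, ← this]
    congr 3
    funext w
    simp [shift_shift, Nat.add_comm])

@[simp] theorem emb_cls {c : Config} (p : Word) (cl c0 cr : Config) (s : Word)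
    (hp : run c p = some (cl ++ c0 ++ cr)) (w : Word) :
    emb A p cl c0 cr s hp (cls A c0 w) = cls A c (p ++ shift cl.length w ++ s) :=
  Tan.lift_cls _ _ _ _

/-- Append a word. -/
noncomputable def app (A : Rˣ) (c : Config) (s : Word) : Tan A c →ₗ[R] Tan A c :=
  emb A [] [] c [] s (by simp)

@[simp] theorem app_cls (c : Config) (s w : Word) : app A c s (cls A c w) = cls A c (w ++ s) :=
  (emb_cls (c := c) [] [] c [] s (by simp) w).trans (by simp)

/-- Prepend a typed word. -/
noncomputable def pre (A : Rˣ) {c c' : Config} (p : Word) (hp : run c p = some c') :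
    Tan A c' →ₗ[R] Tan A c :=
  emb A p [] c' [] [] (by simpa using hp)

@[simp] theorem pre_cls {c c' : Config} (p : Word) (hp : run c p = some c') (w : Word) :
    pre A p hp (cls A c' w) = cls A c (p ++ w) :=
  (emb_cls p [] c' [] [] (by simpa using hp) w).trans (by simp)

/-- Add strands on both sides. -/
noncomputable def whk (A : Rˣ) (cl c cr : Config) : Tan A c →ₗ[R] Tan A (cl ++ c ++ cr) :=
  emb A [] cl c cr [] (run_nil _)

@[simp] theorem whk_cls (cl c cr : Config) (w : Word) :
    whk A cl c cr (cls A c w) = cls A _ (shift cl.length w) :=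
  (emb_cls (c := cl ++ c ++ cr) [] cl c cr [] (run_nil _) w).trans (by simp)

theorem BMove.recol {c : Config} {l r : Word} (h : BMove c l r) (ρ : ℕ → ℕ) (φ : ℕ → ℤ → ℤ) :
    BMove (rec' ρ c) (recol ρ φ l) (recol ρ φ r) := by
  cases h with
  | far x y c1 c1' cm c2 c2' h1 h2 hx hy h =>
    have e1 : (x.recol ρ φ).out = x.out := by cases x <;> rfl
    have e2 : (x.recol ρ φ).inp = x.inp := by cases x <;> rfl
    have e3 : (y.recol ρ φ).inp = y.inp := by cases y <;> rfl
    have := BMove.far (x.recol ρ φ) (y.recol ρ φ) (rec' ρ c1) (rec' ρ c1') (rec' ρ cm)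
      (rec' ρ c2) (rec' ρ c2') (by simpa [e2] using h1) (by simpa [e3] using h2)
      (act_recol hx) (act_recol hy) (by rwa [surg_recol, surg_recol])
    simpa [e1, e2] using this
  | zig => exact BMove.zig
  | zag => exact BMove.zag
  | cupSlide k b a h =>
    exact BMove.cupSlide (k.map fun p => (ρ p.1, φ p.1 p.2)) b (a.map ρ)
      (by rcases h with rfl | rfl <;> simp)
  | capSlide b a x h =>
    exact BMove.capSlide b (a.map ρ) (x.map ρ) (by rcases h with rfl | rfl <;> simp)
  | two b x y h => exact BMove.two b (x.map ρ) (y.map ρ) (by rcases h with rfl | rfl <;> simp)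
  | three x y z h a b c h' =>
    exact BMove.three x y z h (a.map ρ) (b.map ρ) (c.map ρ)
      (by rcases h' with rfl | rfl | rfl <;> simp)

theorem Base.recol {c : Config} {x : Word →₀ R} (h : Base A c x) (ρ : ℕ → ℕ) (φ : ℕ → ℤ → ℤ) :
    Base A (rec' ρ c) (wmap (recol ρ φ) x) := by
  cases h with
  | move h => simpa using Base.move (A := A) (h.recol ρ φ)
  | bracket b => simpa [Kind.recol] using Base.bracket (A := A) b
  | circle => simpa [Kind.recol] using Base.circle (A := A)

/-- Recolouring of tangles. -/
noncomputable def recT (A : Rˣ) (ρ : ℕ → ℕ) (φ : ℕ → ℤ → ℤ) (c : Config) :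
    Tan A c →ₗ[R] Tan A (rec' ρ c) :=
  Tan.lift c (fun w => cls A _ (recol ρ φ w)) (by
    intro p s cl c0 cr x hp hx
    have h1 := run_recol (ρ := ρ) (φ := φ) hp
    rw [rec'_append, rec'_append] at h1
    have := base_zero (A := A) (recol ρ φ s) h1 (hx.recol ρ φ)
    rw [comb_cls, ← this, wmap_wmap]
    congr 3
    funext w
    simp [recol_shift])

@[simp] theorem recT_cls (ρ : ℕ → ℕ) (φ : ℕ → ℤ → ℤ) (c : Config) (w : Word) :
    recT A ρ φ c (cls A c w) = cls A _ (recol ρ φ w) := Tan.lift_cls _ _ _ _

theorem act_length {x : Kind} {c c' : Config} (h : x.act c = some c') (h1 : c.length = x.inp) :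
    c'.length = x.out := by
  cases x with
  | cup k =>
    simp only [Kind.act, Option.some.injEq] at h; subst h
    simpa [Kind.inp, Kind.out] using h1
  | cap =>
    match c, h with
    | a :: b :: c, h =>
      simp only [Kind.act] at h
      split_ifs at h with hab
      simp only [Option.some.injEq] at h; subst h
      simpa [Kind.inp, Kind.out] using h1
  | cr t =>
    match c, h with
    | a :: b :: c, h =>
      simp only [Kind.act, Option.some.injEq] at h; subst h
      simpa [Kind.inp, Kind.out] using h1

theorem np_act {x : Kind} {c c' : Config} (h : x.act c = some c') (hs : x.surg c = false) :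
    np c' = np c := by
  cases x with
  | cup k =>
    simp only [Kind.act, Option.some.injEq] at h; subst h
    cases k with
    | none => simp
    | some k => simp [Kind.surg] at hs
  | cap =>
    match c, h with
    | a :: b :: c, h =>
      simp only [Kind.act] at h
      split_ifs at h with hab
      simp only [Option.some.injEq] at h; subst h; subst hab
      cases a with
      | none => simp
      | some a => simp [Kind.surg] at hs
  | cr t =>
    match c, h with
    | a :: b :: c, h =>
      simp only [Kind.act, Option.some.injEq] at h; subst h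
      cases a <;> cases b <;> simp

theorem BMove.same {c : Config} {l r : Word} (h : BMove c l r) : Same c l r := by
  cases h with
  | far x y c1 c1' cm c2 c2' h1 h2 hx hy h =>
    have h1' := act_length hx h1
    have a1 : step x 0 (c1 ++ cm ++ c2) = some (c1' ++ cm ++ c2) := by
      simpa using step_right (x := x) (i := 0) hx (cm ++ c2)
    have a2 : step y (x.out + cm.length) (c1' ++ cm ++ c2) = some (c1' ++ cm ++ c2') := by
      simpa [h1'] using step_whisk (x := y) (i := 0) hy (c1' ++ cm) []
    have a3 : step y (x.inp + cm.length) (c1 ++ cm ++ c2) = some (c1 ++ cm ++ c2') := by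
      simpa [h1] using step_whisk (x := y) (i := 0) hy (c1 ++ cm) []
    have a4 : step x 0 (c1 ++ cm ++ c2') = some (c1' ++ cm ++ c2') := by
      simpa using step_right (x := x) (i := 0) hx (cm ++ c2')
    refine ⟨by rw [run_cons_of a1, run_cons_of a2]; rfl,
      by rw [run_cons_of a1, run_cons_of a2, run_cons_of a3, run_cons_of a4], ?_⟩
    rw [skel_cons_of a1, skel_cons_of a2, skel_cons_of a3, skel_cons_of a4]
    have b1 := skl_core hx [] (cm ++ c2)
    have b2 := skl_core hy (c1' ++ cm) []
    have b3 := skl_core hy (c1 ++ cm) []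
    have b4 := skl_core hx [] (cm ++ c2')
    simp only [List.nil_append, List.length_nil, List.append_nil, List.length_append, h1, h1',
      List.append_assoc] at b1 b2 b3 b4
    simp only [List.append_assoc, b1, b2, b3, b4]
    rcases h with h | h
    · simp [h, np_act hx h]
    · simp [h]
  | zig => decide
  | zag => decide
  | cupSlide k b a h =>
    rcases h with rfl | rfl
    · cases k <;> exact ⟨rfl, rfl, rfl⟩
    · cases a <;> exact ⟨rfl, rfl, rfl⟩
  | capSlide b a x h =>
    rcases h with rfl | rfl
    · cases x <;> exact ⟨rfl, rfl, rfl⟩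
    · cases a <;> refine ⟨?_, ?_, ?_⟩ <;> simp [run, step, Kind.act, skel, Kind.surg]
  | two b x y h =>
    rcases h with rfl | rfl
    · cases y <;> exact ⟨rfl, rfl, rfl⟩
    · cases x <;> exact ⟨rfl, rfl, rfl⟩
  | three x y z h a b c h' =>
    rcases h' with rfl | rfl | rfl
    · cases b <;> cases c <;> exact ⟨rfl, rfl, rfl⟩
    · cases a <;> cases c <;> exact ⟨rfl, rfl, rfl⟩
    · cases a <;> cases b <;> exact ⟨rfl, rfl, rfl⟩

/-- Isotopic words with the same boundary and skeleton. -/
structure Iso (A : Rˣ) (c : Config) (l r : Word) : Prop where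
  same : Same c l r
  eq : cls A c l = cls A c r

theorem Iso.refl {c c' : Config} {l : Word} (h : run c l = some c') : Iso A c l l :=
  ⟨Same.refl h, rfl⟩

theorem Iso.symm {c : Config} {l r : Word} (h : Iso A c l r) : Iso A c r l :=
  ⟨h.same.symm, h.eq.symm⟩

theorem Iso.trans {c : Config} {l r s : Word} (h : Iso A c l r) (h' : Iso A c r s) :
    Iso A c l s := ⟨h.same.trans h'.same, h.eq.trans h'.eq⟩

instance (c : Config) : Trans (Iso A c) (Iso A c) (Iso A c) := ⟨Iso.trans⟩

instance (c : Config) : Trans (Iso A c) Eq (Iso A c) := ⟨fun h e => e ▸ h⟩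

instance (c : Config) : Trans Eq (Iso A c) (Iso A c) := ⟨fun e h => e ▸ h⟩

theorem Iso.whisk {c : Config} {l r : Word} (h : Iso A c l r) (cl cr : Config) :
    Iso A (cl ++ c ++ cr) (shift cl.length l) (shift cl.length r) :=
  ⟨h.same.whisk cl cr, by
    simpa only [whk_cls] using congrArg (whk A cl c cr) h.eq⟩

theorem Iso.right {c : Config} {l r : Word} (h : Iso A c l r) (cr : Config) :
    Iso A (c ++ cr) l r := by simpa using h.whisk [] cr

theorem Iso.left {c : Config} {l r : Word} (h : Iso A c l r) (cl : Config) :
    Iso A (cl ++ c) (shift cl.length l) (shift cl.length r) := by simpa using h.whisk cl []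

theorem Iso.one {c : Config} {l r : Word} (h : Iso A c l r) (a : Option ℕ) :
    Iso A (a :: c) (shift 1 l) (shift 1 r) := h.left [a]

theorem Iso.pre {c c' : Config} {l r p : Word} (h : Iso A c' l r) (hp : run c p = some c') :
    Iso A c (p ++ l) (p ++ r) :=
  ⟨h.same.pre hp, by simpa using congrArg (Pool.Agent.Lib.MP_5b31c3_gt.pre A p hp) h.eq⟩

theorem Iso.cls_app {c : Config} {l r : Word} (h : Iso A c l r) (s : Word) :
    cls A c (l ++ s) = cls A c (r ++ s) := by simpa using congrArg (app A c s) h.eq

theorem Iso.app {c c' : Config} {l r s : Word} (h : Iso A c l r)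
    (hs : run c (l ++ s) = some c') : Iso A c (l ++ s) (r ++ s) :=
  ⟨h.same.app hs, h.cls_app s⟩

theorem Iso.run_eq {c : Config} {l r : Word} (h : Iso A c l r) : run c l = run c r :=
  h.same.run_eq

/-- Horizontal composition in time. -/
theorem Iso.comp {c c' : Config} {l r l' r' : Word} (h : Iso A c l r) (hl : run c l = some c')
    (h' : Iso A c' l' r') : Iso A c (l ++ l') (r ++ r') := by
  obtain ⟨d, hd, -⟩ := h'.same.ex
  exact (h.app (s := l') (by rw [run_append_of hl]; exact hd)).trans
    (h'.pre (h.run_eq ▸ hl))

/-- Rewrite in the middle of a typed word. -/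
theorem Iso.mid {c c' d : Config} {l r p : Word} (h : Iso A c' l r) (hp : run c p = some c')
    {s : Word} (hs : run c (p ++ l ++ s) = some d) : Iso A c (p ++ l ++ s) (p ++ r ++ s) :=
  (h.pre hp).app hs

theorem Iso.recol {c : Config} {l r : Word} (h : Iso A c l r) (ρ : ℕ → ℕ) (φ : ℕ → ℤ → ℤ) :
    Iso A (rec' ρ c) (recol ρ φ l) (recol ρ φ r) :=
  ⟨h.same.recol ρ φ, by simpa using congrArg (recT A ρ φ c) h.eq⟩

theorem BMove.iso {c : Config} {l r : Word} (h : BMove c l r) : Iso A c l r :=
  ⟨h.same, by
    have := base_zero (A := A) (c := c) (cl := []) (cr := []) (p := []) [] (by simp) (Base.move h)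
    simpa [mkT_single, sub_eq_zero] using this⟩

theorem cls_bracket (b : Bool) :
    cls A [none, none] [(cr b, 0)] = sc A (sg b) • cls A [none, none] [] +
      sc A (-sg b) • cls A [none, none] [(cap, 0), (cup none, 0)] := by
  have := base_zero (A := A) (c := [none, none]) (cl := []) (cr := []) (p := []) [] (by simp)
    (Base.bracket b)
  simp only [map_sub, wmap_single, mkT_single, List.nil_append, List.append_nil, List.length_nil,
    shift_zero, one_smul] at this
  rw [sub_sub, sub_eq_zero] at this
  exact this

theorem cls_circle : cls A [] [(cup none, 0), (cap, 0)] = dl A • cls A [] [] := by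
  have := base_zero (A := A) (c := []) (cl := []) (cr := []) (p := []) [] (by simp) Base.circle
  simpa [mkT_single, sub_eq_zero] using this

end Pool.Agent.Lib.MP_5b31c3_gt
end

-- part Pool.Agent.Lib.MP_5b31c3_gt.Nat
section

/-
Commutation of distant blocks and naturality of passing strands.
-/

namespace Pool.Agent.Lib.MP_5b31c3_gt

open Kind

variable {R : Type*} [CommRing R] {A : Rˣ}

theorem skl_eq_nil {x : Kind} {c0 c0' : Config} (h : x.act c0 = some c0') {cl cr : Config}
    (hs : skl (cl ++ c0 ++ cr) x cl.length = []) : x.surg c0 = false := by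
  rw [skl_core h] at hs
  cases hx : x.surg c0 with
  | false => rfl
  | true => simp [hx] at hs

theorem far_letter {x y : Kind} {i j : ℕ} {c1 c1' c2 c2' : Config} (hx : step x i c1 = some c1')
    (hy : step y j c2 = some c2') (h : skl c1 x i = [] ∨ skl c2 y j = []) :
    Iso A (c1 ++ c2) [(x, i), (y, j + c1'.length)] [(y, j + c1.length), (x, i)] := by
  obtain ⟨cl, a, a', cr, rfl, rfl, rfl, h1, h1', h0⟩ := step_decomp hx
  obtain ⟨dl, b, b', dr, rfl, rfl, rfl, h2, -, g0⟩ := step_decomp hy
  have := ((BMove.far x y a a' (cr ++ dl) b b' h1 h2 h0 g0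
    (h.imp (skl_eq_nil h0) (skl_eq_nil g0))).iso (A := A)).whisk cl dr
  simp only [shift_cons, shift_nil, List.length_append, List.append_assoc, Nat.zero_add] at this ⊢
  rw [h1, h1']
  have q1 : dl.length + (cl.length + (x.out + cr.length)) =
      x.out + (cr.length + dl.length) + cl.length := by omega
  have q2 : dl.length + (cl.length + (x.inp + cr.length)) =
      x.inp + (cr.length + dl.length) + cl.length := by omega
  rw [q1, q2]
  exact this

theorem skel_cons_nil {c c' : Config} {x : Kind} {i : ℕ} {w : Word} (h : step x i c = some c')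
    (hs : skel c ((x, i) :: w) = []) : skl c x i = [] ∧ skel c' w = [] := by
  rw [skel_cons_of h] at hs
  exact List.append_eq_nil_iff.mp hs

theorem far_letter_block {x : Kind} {i : ℕ} {y : Word} {c1 c1' c2 c2' : Config}
    (hx : step x i c1 = some c1') (hy : run c2 y = some c2')
    (h : skl c1 x i = [] ∨ skel c2 y = []) :
    Iso A (c1 ++ c2) ((x, i) :: shift c1'.length y) (shift c1.length y ++ [(x, i)]) := by
  induction y generalizing c2 with
  | nil => exact Iso.refl (c' := c1' ++ c2) (by simp [run_single, step_right hx])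
  | cons y w ih =>
    obtain ⟨y, j⟩ := y
    obtain ⟨d, hd, hw⟩ := run_cons_some hy
    have h1 := far_letter (A := A) hx hd (h.imp id fun h => (skel_cons_nil hd h).1)
    have h2 := ih hw (h.imp id fun h => (skel_cons_nil hd h).2)
    have e1 : step y (j + c1.length) (c1 ++ c2) = some (c1 ++ d) := by simp [step_left, hd]
    have e2 : run (c1 ++ c2) ([(x, i), (y, j + c1'.length)] ++ shift c1'.length w) =
        some (c1' ++ c2') := by
      have := run_left hy c1'
      rw [shift_cons] at this
      simpa [run_cons_of (step_right hx c2)] using this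
    exact (h1.app e2).trans (h2.pre (p := [(y, j + c1.length)]) (by rw [run_single, e1]))

theorem far_block {x y : Word} {c1 c1' c2 c2' : Config} (hx : run c1 x = some c1')
    (hy : run c2 y = some c2') (h : skel c1 x = [] ∨ skel c2 y = []) :
    Iso A (c1 ++ c2) (x ++ shift c1'.length y) (shift c1.length y ++ x) := by
  induction x generalizing c1 with
  | nil =>
    simp only [run_nil, Option.some.injEq] at hx; subst hx
    simpa using Iso.refl (run_left hy c1)
  | cons x w ih =>
    obtain ⟨x, i⟩ := x
    obtain ⟨d, hd, hw⟩ := run_cons_some hx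
    have h1 := far_letter_block (A := A) hd hy (h.imp (fun h => (skel_cons_nil hd h).1) id)
    have h2 := ih hw (h.imp (fun h => (skel_cons_nil hd h).2) id)
    have e1 : run (c1 ++ c2) [(x, i)] = some (d ++ c2) := by rw [run_single, step_right hd]
    have e2 : run (c1 ++ c2) (((x, i) :: shift d.length y) ++ w) = some (c1' ++ c2') := by
      rw [List.cons_append, run_cons_of (step_right hd c2), run_append_of (run_left hy d)]
      exact run_right hw c2'
    have := (h2.pre e1).trans (h1.app e2)
    simpa using this

/-- The strand at the far left moves to the right across `n` strands, over them if `b`. -/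
def pass (b : Bool) : ℕ → Word
  | 0 => []
  | n + 1 => (cr b, 0) :: shift 1 (pass b n)

/-- The strand at position `n` moves to the far left, over the other strands if `b`. -/
def back (b : Bool) : ℕ → Word
  | 0 => []
  | n + 1 => shift 1 (back b n) ++ [(cr !b, 0)]

theorem pass_add (b : Bool) (m n : ℕ) : pass b (m + n) = pass b m ++ shift m (pass b n) := by
  induction m with
  | zero => simp [pass]
  | succ m ih =>
    rw [Nat.add_right_comm, pass, ih, pass]
    simp [shift_shift]

theorem back_add (b : Bool) (m n : ℕ) : back b (m + n) = shift m (back b n) ++ back b m := by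
  induction m with
  | zero => simp [back]
  | succ m ih =>
    rw [Nat.add_right_comm, back, ih, back]
    simp [shift_shift]

theorem run_pass (b : Bool) (a : Option ℕ) (c : Config) :
    run (a :: c) (pass b c.length) = some (c ++ [a]) := by
  induction c with
  | nil => rfl
  | cons d c ih =>
    rw [List.length_cons, pass, run_cons_of (c' := d :: a :: c) rfl]
    exact run_one ih d

theorem run_back (b : Bool) (a : Option ℕ) (c : Config) :
    run (c ++ [a]) (back b c.length) = some (a :: c) := by
  induction c with
  | nil => rfl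
  | cons d c ih =>
    rw [List.length_cons, back, List.cons_append, run_append_of (run_one ih d)]
    rfl

theorem run_pass' (b : Bool) (a : Option ℕ) (c cr : Config) :
    run (a :: (c ++ cr)) (pass b c.length) = some (c ++ a :: cr) := by
  simpa using run_right (run_pass b a c) cr

theorem run_back' (b : Bool) (a : Option ℕ) (c cr : Config) :
    run (c ++ a :: cr) (back b c.length) = some (a :: (c ++ cr)) := by
  simpa using run_right (run_back b a c) cr

theorem skel_one {w : Word} {c c' : Config} (h : run c w = some c') (a : Option ℕ) :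
    skel (a :: c) (shift 1 w) = shift (np [a]) (skel c w) := skel_left h [a]

theorem skel_pass (b : Bool) (c : Config) : skel (none :: c) (pass b c.length) = [] := by
  induction c with
  | nil => rfl
  | cons d c ih =>
    rw [List.length_cons, pass, skel_cons_of (c' := d :: none :: c) rfl,
      skel_one (run_pass b none c), ih]
    rfl

theorem skel_back (b : Bool) (c : Config) : skel (c ++ [none]) (back b c.length) = [] := by
  induction c with
  | nil => rfl
  | cons d c ih =>
    rw [List.length_cons, back, List.cons_append, skel_append_of (run_one (run_back b none c) d),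
      skel_one (run_back b none c), ih]
    cases d <;> rfl

theorem pass_back (b : Bool) (c : Config) :
    Iso A (none :: c) (pass b c.length ++ back b c.length) [] := by
  induction c with
  | nil => exact Iso.refl rfl
  | cons d c ih =>
    have h1 := (ih.one d).mid (c := none :: d :: c) (p := [(cr b, 0)]) (s := [(cr !b, 0)])
      (d := none :: d :: c) rfl (by
        rw [List.append_assoc, run_append_of (c' := d :: none :: c) rfl,
          run_append_of (run_one ih.run_eq d)]; rfl)
    have h2 := ((BMove.two b none d (Or.inl rfl)).iso (A := A)).right c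
    have := h1.trans h2
    simpa [pass, back] using this

theorem back_pass (b : Bool) (c : Config) :
    Iso A (c ++ [none]) (back b c.length ++ pass b c.length) [] := by
  induction c with
  | nil => exact Iso.refl rfl
  | cons d c ih =>
    have h2 := ((BMove.two (!b) d none (Or.inr rfl)).iso (A := A)).right c
    have h1 := h2.mid (c := d :: (c ++ [none])) (p := shift 1 (back b c.length))
      (s := shift 1 (pass b c.length)) (d := d :: (c ++ [none])) (run_one (run_back b none c) d) (by
        rw [List.append_assoc, run_append_of (run_one (run_back b none c) d),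
          run_append_of (c' := d :: none :: c) rfl]
        exact run_one (run_pass b none c) d)
    have h3 := ih.one d
    rw [shift_append] at h3
    have := h1.trans (by simpa using h3)
    simpa [pass, back] using this

theorem nat_core (b : Bool) (a : Option ℕ) {x : Kind} {c0 c0' : Config} (h : x.act c0 = some c0')
    (h1 : c0.length = x.inp) (ha : a = none ∨ x.surg c0 = false) :
    Iso A (a :: c0) (pass b c0.length ++ [(x, 0)]) ((x, 1) :: pass b c0'.length) := by
  cases x with
  | cup k =>
    obtain rfl : c0 = [] := List.length_eq_zero_iff.mp h1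
    simp only [Kind.act, Option.some.injEq] at h; subst h
    have hk : a = none ∨ k = none := ha.imp id fun h => by simpa [Kind.surg] using h
    have e1 := ((BMove.cupSlide k b a hk).iso (A := A)).app (s := [(cr b, 1)])
      (c' := [k.map Prod.fst, k.map Prod.fst, a]) rfl
    have e2 := (((BMove.two (!b) (k.map Prod.fst) a
      (by rcases hk with rfl | rfl <;> simp)).iso (A := A)).one (k.map Prod.fst)).pre
      (c := [a]) (p := [(cup k, 0)]) rfl
    simp only [Bool.not_not] at e2
    exact (e1.trans e2).symm
  | cap =>
    match c0, h1, h with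
    | [u, v], _, h =>
      simp only [Kind.act] at h
      split_ifs at h with huv
      simp only [Option.some.injEq] at h; subst h; subst huv
      have hk : u = none ∨ a = none := by
        rcases ha with h | h
        · exact Or.inr h
        · left; simpa [Kind.surg] using h
      have e1 := ((BMove.capSlide (!b) u a hk).iso (A := A)).pre (c := [a, u, u])
        (p := [(cr b, 0)]) rfl
      have e2 := (((BMove.two b a u hk.symm).iso (A := A)).right [u]).app (s := [(cap, 1)])
        (c' := [a]) (by simp [run, step, Kind.act])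
      simp only [Bool.not_not] at e1
      exact e1.symm.trans e2
  | cr t =>
    match c0, h1, h with
    | [u, v], _, h =>
      simp only [Kind.act, Option.some.injEq] at h; subst h
      refine (BMove.three b b t (Or.inl rfl) a u v ?_).iso
      rcases ha with h | h
      · exact Or.inl h
      · right
        cases u <;> cases v <;> simp [Kind.surg] at h ⊢

theorem skl_zero {x : Kind} {c0 : Config} (h : x.surg c0 = false) : skl c0 x 0 = [] := by
  simp [skl, h]

theorem nat_letter (b : Bool) (a : Option ℕ) {x : Kind} {i : ℕ} {c c' : Config}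
    (h : step x i c = some c') (ha : a = none ∨ skl c x i = []) :
    Iso A (a :: c) (pass b c.length ++ [(x, i)]) ((x, i + 1) :: pass b c'.length) := by
  obtain ⟨cl, c0, c0', cr, rfl, rfl, rfl, h1, h1', h0⟩ := step_decomp h
  have ha' : a = none ∨ x.surg c0 = false := ha.imp id (skl_eq_nil h0)
  -- commute past the right part
  have e1 : Iso A (c0 ++ a :: cr) (shift c0.length (pass b cr.length) ++ [(x, 0)])
      ((x, 0) :: shift c0'.length (pass b cr.length)) :=
    (far_letter_block (x := x) (i := 0) h0 (run_pass b a cr)
      (ha'.elim (fun h => Or.inr (h ▸ skel_pass b cr)) fun h => Or.inl (skl_zero h))).symm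
  have e2 := (nat_core (A := A) b a h0 h1 ha').right cr
  have r1 : run (a :: (c0 ++ cr)) (pass b c0.length) = some (c0 ++ a :: cr) := run_pass' _ _ _ _
  have r2 : run (a :: (c0 ++ cr)) (pass b c0.length ++ [(x, 0)] ++
      shift c0'.length (pass b cr.length)) = some (c0' ++ (cr ++ [a])) := by
    rw [List.append_assoc, run_append_of r1, List.singleton_append,
      run_cons_of (step_right (x := x) (i := 0) h0 _)]
    exact run_left (run_pass b a cr) c0'
  have e3 : Iso A (a :: (c0 ++ cr)) (pass b (c0 ++ cr).length ++ [(x, 0)])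
      ((x, 1) :: pass b (c0' ++ cr).length) := by
    have := (e1.pre r1).trans (by simpa using e2.app r2)
    simpa [pass_add] using this
  -- commute past the left part
  have s0 : step x 0 (c0 ++ cr) = some (c0' ++ cr) := step_right (x := x) (i := 0) h0 _
  have e4 : Iso A ((a :: cl) ++ (c0 ++ cr)) (pass b cl.length ++
      shift (cl ++ [a]).length [(x, 0)]) (shift (a :: cl).length [(x, 0)] ++ pass b cl.length) :=
    far_block (run_pass b a cl) (by rw [run_single, s0])
      (ha'.elim (fun h => Or.inl (h ▸ skel_pass b cl)) fun h => Or.inr (by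
        rw [skel_cons_of s0]
        simp [skl, surg_append h0, h]))
  have r3 : run (a :: (cl ++ (c0 ++ cr))) (pass b cl.length) = some (cl ++ a :: (c0 ++ cr)) :=
    run_pass' _ _ _ _
  have e5 := (e3.left cl).pre r3
  have r4 : run (a :: cl ++ (c0 ++ cr)) (pass b cl.length ++ shift (cl ++ [a]).length [(x, 0)] ++
      shift cl.length (pass b (c0' ++ cr).length)) = some (cl ++ (c0' ++ cr ++ [a])) := by
    rw [List.append_assoc, List.cons_append, run_append_of r3]
    have := run_left (run_one (w := [(x, 0)]) (by rw [run_single, s0]) a) cl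
    rw [shift_shift, Nat.add_comm] at this
    rw [List.length_append, List.length_singleton, run_append_of this]
    exact run_left (run_pass b a _) cl
  have e6 := e4.app r4
  have := e5.trans (by simpa [Nat.add_comm] using e6)
  simpa [pass_add, Nat.add_comm, shift_shift] using this

theorem nat_pass (b : Bool) (a : Option ℕ) {w : Word} {c c' : Config} (h : run c w = some c')
    (ha : a = none ∨ skel c w = []) :
    Iso A (a :: c) (pass b c.length ++ w) (shift 1 w ++ pass b c'.length) := by
  induction w generalizing c with
  | nil =>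
    simp only [run_nil, Option.some.injEq] at h; subst h
    simpa using Iso.refl (run_pass b a c)
  | cons x w ih =>
    obtain ⟨x, i⟩ := x
    obtain ⟨d, hd, hw⟩ := run_cons_some h
    have h1 := nat_letter (A := A) b a hd (ha.imp id fun h => (skel_cons_nil hd h).1)
    have h2 := ih hw (ha.imp id fun h => (skel_cons_nil hd h).2)
    have r1 : run (a :: c) (pass b c.length ++ [(x, i)] ++ w) = some (c' ++ [a]) := by
      rw [List.append_assoc, run_append_of (run_pass b a c)]
      exact run_right h [a]
    have r2 : run (a :: c) [(x, i + 1)] = some (a :: d) := by simp [run_single, step, hd]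
    have := (h1.app r1).trans (h2.pre r2)
    simpa using this

theorem nat_back (b : Bool) {w : Word} {c c' : Config} (h : run c w = some c') :
    Iso A (c ++ [none]) (w ++ back b c'.length) (back b c.length ++ shift 1 w) := by
  have r0 := run_back b none c
  have r1 := run_right h [none]
  have r2 := run_one h none
  have h1 := ((nat_pass (A := A) b none h (Or.inl rfl)).pre r0).app (s := back b c'.length)
    (c' := none :: c') (by
      rw [run_append_of (c' := c' ++ [none])]
      · exact run_back b none c'
      · rw [run_append_of r0, run_append_of (run_pass b none c)]; exact r1)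
  have h2 := (back_pass (A := A) b c).app (s := w ++ back b c'.length) (c' := none :: c') (by
    rw [run_append_of (back_pass (A := A) b c).run_eq, run_append_of r1]
    exact run_back b none c')
  have h3 := (pass_back (A := A) b c').pre (p := back b c.length ++ shift 1 w)
    (c := c ++ [none]) (by rw [run_append_of r0]; exact r2)
  have := h2.symm.trans ((by simpa using h1 : Iso A _ _ _).trans h3)
  simpa using this

/-- A big arc may pass in front of or behind everything. -/
theorem swing (u : Word) (c : Config) (hu : run [] u = some c) (b : Bool) :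
    Iso A [] (u ++ (cup none, 0) :: shift 1 (pass b c.length)) ((cup none, 0) :: shift 1 u) := by
  have h1 := far_letter_block (A := A) (x := cup none) (i := 0) (c1 := []) (c1' := [none, none])
    rfl hu (Or.inl rfl)
  have h2 := ((nat_pass (A := A) b none hu (Or.inl rfl)).one none).pre (c := [])
    (p := [(cup none, 0)]) rfl
  have h3 := h1.symm.app (s := shift 1 (pass b c.length)) (c' := none :: (c ++ [none])) (by
    simp only [List.length_nil, shift_zero, List.nil_append, List.append_assoc]
    rw [run_append_of hu, List.singleton_append, run_cons_of (c' := none :: none :: c) rfl]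
    exact run_one (run_pass b none c) none)
  have := h3.trans (by simpa [shift_shift, pass] using h2.symm)
  simpa using this

end Pool.Agent.Lib.MP_5b31c3_gt
end

-- part Pool.Agent.Lib.MP_5b31c3_gt.AlgInv
section

/-
Lattices and invariants used in the induction along Farey edge paths.
-/

namespace Pool.Agent.Lib.MP_5b31c3_gt

variable {R : Type*} [CommRing R] {W : Type*} [AddCommGroup W] [Module R W]

/-- The operator `M ^ (-k)`. -/
def vp (M : (Module.End R W)ˣ) (k : ℤ) : Module.End R W := mp M true (-k)

/-- `T` preserves `Λ`. -/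
def Pres (T : Module.End R W) (Λ : Submodule R W) : Prop := ∀ x ∈ Λ, T x ∈ Λ

/-- A lattice: stable under `M⁻¹` and spanning after multiplication by powers of `M`. -/
structure Lat (M : (Module.End R W)ˣ) (Λ : Submodule R W) : Prop where
  stab : Pres (vp M 1) Λ
  full : ∀ x : W, ∃ n : ℕ, vp M n x ∈ Λ

/-- The arc operators `X` have degree `2 + D` for `e = true` and `2 - D` for `e = false`. -/
def Deg (M : (Module.End R W)ˣ) (X : Bool → Module.End R W) (D : ℤ) (Λ : Submodule R W) : Prop :=
  ∀ e, Pres (vp M 2 * mp M e (-D) * X e) Λ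

/-- The lattice sits at the vertex `a`. -/
structure InvA (M : (Module.End R W)ˣ) (L : Lvl R W) (Λ : Submodule R W) (D : ℤ) : Prop where
  a : Pres L.a Λ
  b : Pres (vp M 2 * L.b) Λ
  p : Pres (vp M 2 * L.p) Λ
  al : Deg M L.al D Λ
  be : Deg M L.be D Λ
  P : Deg M L.P (D - 1) Λ

/-- The lattice sits at the vertex `b`. -/
structure InvB (M : (Module.End R W)ˣ) (L : Lvl R W) (Λ : Submodule R W) (D : ℤ) : Prop where
  a : Pres (vp M 2 * L.a) Λ
  b : Pres L.b Λ
  p : Pres (vp M 2 * L.p) Λ
  al : Deg M L.al D Λ
  be : Deg M L.be D Λ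
  P : Deg M L.P (D + 1) Λ

/-- The lattice sits at the vertex `p`. -/
structure InvP (M : (Module.End R W)ˣ) (L : Lvl R W) (Λ : Submodule R W) (D : ℤ) : Prop where
  a : Pres (vp M 2 * L.a) Λ
  b : Pres (vp M 2 * L.b) Λ
  p : Pres L.p Λ
  al : Deg M L.al (D + 1) Λ
  be : Deg M L.be (D - 1) Λ
  P : Deg M L.P D Λ

/-- The normalized operator `M⁻² T` is onto modulo `M⁻²`. -/
def Onto (M : (Module.End R W)ˣ) (T : Module.End R W) (Λ : Submodule R W) : Prop :=
  ∀ x ∈ Λ, ∃ y ∈ Λ, ∃ z ∈ Λ, x = vp M 2 (T y) + vp M 2 z

variable {Q : Type*} [AddCommGroup Q] [Module R Q]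

/-- The functionals considered in the induction. -/
structure Fn (A : Rˣ) (M : (Module.End R W)ˣ) (LH : Lvl R W) (X Y : Sh R)
    (ψ : W →ₗ[R] (ℤ → Q)) : Prop where
  mer : ∀ x, ψ ((M : Module.End R W) x) = X.op Q (ψ x)
  loop : ∀ x, ψ (LH.a x) = dl A • ψ x
  arc : ∀ e x, ψ (LH.al e x) = arcE A X Y e Q (ψ x)

/-- The supports of the values of `ψ` on `Λ` are uniformly bounded below. -/
def Bdd (ψ : W →ₗ[R] (ℤ → Q)) (Λ : Submodule R W) : Prop :=
  ∃ n : ℤ, ∀ x ∈ Λ, ∀ i < n, ψ x i = 0

/-- `T` moves the family `K` by `j`. -/
def Mp {ι : Type*} [AddCommGroup ι] (K : ι → Submodule R W) (T : Module.End R W) (j : ι) : Prop :=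
  ∀ i, ∀ x ∈ K i, T x ∈ K (i + j)

/-- The level with the roles of `a` and `b` exchanged. -/
def Lvl.swap (L : Lvl R W) : Lvl R W where
  a := L.b
  b := L.a
  c := L.c
  p := L.p
  al e := L.be (!e)
  be e := L.al (!e)
  G e := L.G (!e)
  P e := L.P (!e)

end Pool.Agent.Lib.MP_5b31c3_gt
end
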