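import Pool.Agent.Lib.MP_5b31c3_gt.AlgSplit

-- part Pool.Agent.Lib.MP_5b31c3_gt.AlgFilt
section

/-
The filtration of a lattice at the vertex `p` that belongs to the vertex `a`.
-/

namespace Pool.Agent.Lib.MP_5b31c3_gt

variable {R : Type*} [CommRing R] {W : Type*} [AddCommGroup W] [Module R W]
variable {A : Rˣ} {M : (Module.End R W)ˣ}

/-- The filtration generated by the normalized operator `M⁻² a` and by `M⁻²`. -/
def Fl (M : (Module.End R W)ˣ) (a : Module.End R W) (Λ : Submodule R W) : ℕ → Submodule R W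
  | 0 => Λ
  | n + 1 => (Fl M a Λ n).map (vp M 2 * a) ⊔ (Fl M a Λ n).map (vp M 2)

theorem mem_Fl_succ {a : Module.End R W} {Λ : Submodule R W} {n : ℕ} {x : W} :
    x ∈ Fl M a Λ (n + 1) ↔
      ∃ y ∈ Fl M a Λ n, ∃ z ∈ Fl M a Λ n, x = vp M 2 (a y) + vp M 2 z := by
  rw [Fl, Submodule.mem_sup]
  constructor
  · rintro ⟨_, ⟨y, hy, rfl⟩, _, ⟨z, hz, rfl⟩, rfl⟩
    exact ⟨y, hy, z, hz, rfl⟩
  · rintro ⟨y, hy, z, hz, rfl⟩
    exact ⟨_, ⟨y, hy, rfl⟩, _, ⟨z, hz, rfl⟩, rfl⟩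

theorem Fl.up_a {a : Module.End R W} {Λ : Submodule R W} {n : ℕ} {y : W} (hy : y ∈ Fl M a Λ n) :
    vp M 2 (a y) ∈ Fl M a Λ (n + 1) :=
  mem_Fl_succ.2 ⟨y, hy, 0, Submodule.zero_mem _, by simp⟩

theorem Fl.up_w {a : Module.End R W} {Λ : Submodule R W} {n : ℕ} {y : W} (hy : y ∈ Fl M a Λ n) :
    vp M 2 y ∈ Fl M a Λ (n + 1) :=
  mem_Fl_succ.2 ⟨0, Submodule.zero_mem _, y, hy, by simp⟩

theorem cvp {T : Module.End R W} (h : T * M = M * T) (k : ℤ) (x : W) :
    T (vp M k x) = vp M k (T x) := LinearMap.congr_fun (commute_vp h k).eq x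

theorem cmp {T : Module.End R W} (h : T * M = M * T) (e : Bool) (k : ℤ) (x : W) :
    T (mp M e k x) = mp M e k (T x) := LinearMap.congr_fun (commute_mp h e k).eq x

theorem mul_comm_M {S T : Module.End R W} (hS : S * M = M * S) (hT : T * M = M * T) :
    S * T * M = M * (S * T) := by
  rw [mul_assoc, hT, ← mul_assoc, hS, mul_assoc]

theorem pow_comm_M {S : Module.End R W} (hS : S * M = M * S) (n : ℕ) :
    S ^ n * M = M * S ^ n := (Commute.pow_left hS n).eq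

theorem Fl.pres {a T : Module.End R W} {Λ : Submodule R W} (hM : T * M = M * T)
    (ha : T * a = a * T) (hT : Pres T Λ) (n : ℕ) : Pres T (Fl M a Λ n) := by
  induction n with
  | zero => exact hT
  | succ n ih =>
    intro x hx
    obtain ⟨y, hy, z, hz, rfl⟩ := mem_Fl_succ.1 hx
    refine mem_Fl_succ.2 ⟨T y, ih y hy, T z, ih z hz, ?_⟩
    have h1 : T (a y) = a (T y) := LinearMap.congr_fun ha y
    rw [map_add, cvp hM, cvp hM, h1]

/-- The standing hypotheses. -/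
structure Ctx (A : Rˣ) (M : (Module.End R W)ˣ) (L : Lvl R W) (Λ : Submodule R W) (D : ℤ) :
    Prop where
  rel : Rel A M L
  lat : Lat M Λ
  inv : InvP M L Λ D

namespace Ctx
variable {L : Lvl R W} {Λ : Submodule R W} {D : ℤ}

theorem pw (h : Ctx A M L Λ D) {k : ℤ} (hk : 0 ≤ k) (n : ℕ) : Pres (vp M k) (Fl M L.a Λ n) :=
  Fl.pres (vp_comm_M M k) (commute_vp h.rel.ca k).symm.eq (h.lat.vp hk) n

theorem abar (h : Ctx A M L Λ D) (n : ℕ) :
    Pres (vp M 2 * L.a) (Fl M L.a Λ n) := by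
  refine Fl.pres (mul_comm_M (vp_comm_M M 2) h.rel.ca) ?_ h.inv.a n
  rw [← mul_assoc, (commute_vp h.rel.ca 2).eq]

theorem tbar (h : Ctx A M L Λ D) (n : ℕ) :
    Pres (vp M 2 * tau M) (Fl M L.a Λ n) := (h.pw (by norm_num) n).tbar

theorem anti (h : Ctx A M L Λ D) : Antitone (Fl M L.a Λ) := by
  refine antitone_nat_of_succ_le fun n x hx => ?_
  obtain ⟨y, hy, z, hz, rfl⟩ := mem_Fl_succ.1 hx
  exact Submodule.add_mem _ (h.abar n y hy) (h.pw (by norm_num) n z hz)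

theorem le (h : Ctx A M L Λ D) (n : ℕ) : Fl M L.a Λ n ≤ Λ := h.anti (Nat.zero_le n)

theorem up_vp {a : Module.End R W} {n : ℕ} (j : ℕ) {x : W} (hx : x ∈ Fl M a Λ n) :
    vp M (2 * j) x ∈ Fl M a Λ (n + j) := by
  induction j with
  | zero => simpa using hx
  | succ j ih =>
    have := Fl.up_w ih
    rwa [vp_vp, show (2 : ℤ) + 2 * j = 2 * ((j + 1 : ℕ) : ℤ) by push_cast; ring] at this

theorem up_pow {a : Module.End R W} {n : ℕ} (j : ℕ) {x : W} (hx : x ∈ Fl M a Λ n) :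
    ((vp M 2 * a) ^ j) x ∈ Fl M a Λ (n + j) := by
  induction j with
  | zero => simpa using hx
  | succ j ih =>
    rw [pow_succ']
    exact Fl.up_a ih

theorem bp (h : Ctx A M L Λ D) (n : ℕ) :
    (∀ x ∈ Fl M L.a Λ n, vp M 2 (L.b x) ∈ Fl M L.a Λ n) ∧
      ∀ x ∈ Fl M L.a Λ n, L.p x ∈ Fl M L.a Λ (n - 1) := by
  induction n with
  | zero => exact ⟨h.inv.b, h.inv.p⟩
  | succ n ih =>
    have hn : n ≤ n - 1 + 1 := by omega
    constructor
    · intro x hx
      obtain ⟨y, hy, z, hz, rfl⟩ := mem_Fl_succ.1 hx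
      have e := LinearMap.congr_fun h.rel.ba y
      simp only [Module.End.mul_apply, LinearMap.add_apply, LinearMap.smul_apply] at e
      rw [map_add, map_add, cvp h.rel.cb, cvp h.rel.cb, e]
      simp only [map_add, map_smul]
      refine Submodule.add_mem _ (Submodule.add_mem _ (Submodule.add_mem _
        (Submodule.smul_mem _ _ ?_) (Submodule.smul_mem _ _ ?_)) (Submodule.smul_mem _ _ ?_)) ?_
      · rw [← cvp h.rel.ca 2 (L.b y)]; exact Fl.up_a (ih.1 y hy)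
      · exact Fl.up_w (h.anti hn (Fl.up_w (ih.2 y hy)))
      · exact Fl.up_w (h.tbar n y hy)
      · exact Fl.up_w (ih.1 z hz)
    · intro x hx
      obtain ⟨y, hy, z, hz, rfl⟩ := mem_Fl_succ.1 hx
      have e := LinearMap.congr_fun h.rel.L3 y
      simp only [Module.End.mul_apply, LinearMap.add_apply, LinearMap.smul_apply] at e
      rw [map_add, cvp h.rel.cp, cvp h.rel.cp, e, Nat.add_sub_cancel]
      simp only [map_add, map_smul]
      refine Submodule.add_mem _ (Submodule.add_mem _ (Submodule.add_mem _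
        (Submodule.smul_mem _ _ ?_) (Submodule.smul_mem _ _ ?_)) (Submodule.smul_mem _ _ ?_)) ?_
      · exact h.anti hn (Fl.up_a (ih.2 y hy))
      · exact ih.1 y hy
      · exact h.tbar n y hy
      · exact h.anti hn (Fl.up_w (ih.2 z hz))

theorem bbar (h : Ctx A M L Λ D) (n : ℕ) :
    Pres (vp M 2 * L.b) (Fl M L.a Λ n) := (h.bp n).1

theorem pbar (h : Ctx A M L Λ D) (n : ℕ) :
    Pres (vp M 2 * L.p) (Fl M L.a Λ n) := fun x hx =>
  h.anti (by omega : n ≤ n - 1 + 1) (Fl.up_w ((h.bp n).2 x hx))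

theorem abar_p (h : Ctx A M L Λ D) (n : ℕ) :
    Pres (vp M 2 * (L.a * L.p)) (Fl M L.a Λ n) := fun x hx =>
  h.anti (by omega : n ≤ n - 1 + 1) (Fl.up_a ((h.bp n).2 x hx))

/-- Leading terms. -/
theorem lead_term (h : Ctx A M L Λ D) (k t : ℕ) :
    ∀ x ∈ Fl M L.a Λ (k + t), ∃ z ∈ Fl M L.a Λ k, ∃ r ∈ Fl M L.a Λ (k + t - 1),
      x = ((vp M 2 * L.a) ^ t) z + vp M 2 r := by
  induction t with
  | zero => exact fun x hx => ⟨x, hx, 0, Submodule.zero_mem _, by simp⟩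
  | succ t ih =>
    intro x hx
    obtain ⟨y, hy, z, hz, rfl⟩ := mem_Fl_succ.1 hx
    obtain ⟨z', hz', r, hr, rfl⟩ := ih y hy
    refine ⟨z', hz', vp M 2 (L.a r) + z, Submodule.add_mem _
      (h.anti (by omega) (Fl.up_a hr)) hz, ?_⟩
    rw [pow_succ']
    simp only [map_add, Module.End.mul_apply, cvp h.rel.ca, add_assoc]

theorem two_terms (h : Ctx A M L Λ D) (n : ℕ) :
    ∀ s j : ℕ, s + j ≤ n + 1 → ∀ x ∈ Fl M L.a Λ n, ∃ U ∈ Λ, ∃ V ∈ Λ,
      x = ((vp M 2 * L.a) ^ s) U + vp M (2 * j) V := by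
  have h0 : ∀ s j : ℕ, s = 0 ∨ j = 0 → ∀ x ∈ Λ, ∃ U ∈ Λ, ∃ V ∈ Λ,
      x = ((vp M 2 * L.a) ^ s) U + vp M (2 * j) V := by
    rintro s j (rfl | rfl) x hx
    · exact ⟨x, hx, 0, Λ.zero_mem, by simp⟩
    · exact ⟨0, Λ.zero_mem, x, hx, by simp⟩
  induction n with
  | zero => exact fun s j hsj x hx => h0 s j (by omega) x hx
  | succ n ih =>
    intro s j hsj x hx
    rcases s with _ | s
    · exact h0 _ _ (Or.inl rfl) x (h.le _ hx)
    rcases j with _ | j
    · exact h0 _ _ (Or.inr rfl) x (h.le _ hx)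
    obtain ⟨y, hy, z, hz, rfl⟩ := mem_Fl_succ.1 hx
    obtain ⟨U, hU, V, hV, rfl⟩ := ih s (j + 1) (by omega) y hy
    obtain ⟨U', hU', V', hV', rfl⟩ := ih (s + 1) j (by omega) z hz
    refine ⟨U + vp M 2 U', Λ.add_mem hU (h.lat.vp (by norm_num) _ hU'),
      vp M 2 (L.a V) + V', Λ.add_mem (h.inv.a V hV) hV', ?_⟩
    have e1 := cvp (pow_comm_M (mul_comm_M (vp_comm_M M 2) h.rel.ca) (s + 1)) 2 U'
    have e2 : ((vp M 2 * L.a) ^ (s + 1)) U =
        vp M 2 (L.a (((vp M 2 * L.a) ^ s) U)) := by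
      rw [pow_succ']; rfl
    simp only [map_add, e1, e2, cvp h.rel.ca, vp_vp]
    rw [show (2 : ℤ) + 2 * ((j + 1 : ℕ) : ℤ) = 2 * ((j + 1 : ℕ) : ℤ) + 2 by ring,
      show (2 : ℤ) + 2 * (j : ℤ) = 2 * ((j + 1 : ℕ) : ℤ) by push_cast; ring]
    abel

/-- Operators of the form `1 + S + T` with `S` and `T` nilpotent on the quotients. -/
theorem unip (h : Ctx A M L Λ D) {U S T : Module.End R W}
    (hU : U = 1 + S + vp M 2 * T)
    (hS : ∀ n, ∀ x ∈ Fl M L.a Λ n, S x ∈ Fl M L.a Λ (n + 1))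
    (hT : ∀ n, Pres (vp M 2 * T) (Fl M L.a Λ n)) (hT0 : Pres T Λ)
    (hTM : T * M = M * T) (n : ℕ) :
    (∀ x ∈ Λ, ∃ y ∈ Λ, x - U y ∈ Fl M L.a Λ n) ∧
      ∀ u ∈ Λ, U u ∈ Fl M L.a Λ n → u ∈ Fl M L.a Λ n := by
  have hTw : ∀ (j : ℕ) (y : W), (vp M 2 * T) (vp M (2 * j) y) =
      vp M (2 * (j + 1 : ℕ)) (T y) := by
    intro j y
    rw [Module.End.mul_apply, cvp hTM, vp_vp]
    congr 2
    push_cast; ring
  have hUx : ∀ x, U x = x + S x + (vp M 2 * T) x := fun x => by rw [hU]; rfl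
  constructor
  · have key : ∀ k j : ℕ, ∀ x ∈ Fl M L.a Λ k, ∃ y ∈ Λ, ∃ v ∈ Λ,
        vp M (2 * j) v ∈ Fl M L.a Λ k ∧
        x - U y - vp M (2 * j) v ∈ Fl M L.a Λ (k + 1) := by
      intro k j x hx
      induction j with
      | zero => exact ⟨0, Λ.zero_mem, x, h.le _ hx, by simpa using hx, by simp⟩
      | succ j ih =>
        obtain ⟨y, hy, v, hv, h1, h2⟩ := ih
        refine ⟨y + vp M (2 * j) v, Λ.add_mem hy (h.le _ h1), -T v,
          Λ.neg_mem (hT0 v hv), ?_, ?_⟩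
        · rw [map_neg, ← hTw]; exact Submodule.neg_mem _ (hT k _ h1)
        · have := Submodule.sub_mem _ h2 (hS k _ h1)
          convert this using 1
          rw [map_add, hUx (vp M (2 * j) v), hTw, map_neg]
          abel
    induction n with
    | zero => exact fun x hx => ⟨0, Λ.zero_mem, by rw [map_zero, sub_zero]; exact hx⟩
    | succ n ih =>
      intro x hx
      obtain ⟨y, hy, h1⟩ := ih x hx
      obtain ⟨y', hy', v, hv, -, h2⟩ := key n (n + 1) _ h1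
      refine ⟨y + y', Λ.add_mem hy hy', ?_⟩
      have h3 := up_vp (a := L.a) (M := M) (n := 0) (n + 1) hv
      rw [zero_add] at h3
      have := Submodule.add_mem _ h2 h3
      convert this using 1
      rw [map_add]
      abel
  · intro u hu
    induction n with
    | zero => exact fun _ => hu
    | succ n ih =>
      intro h1
      have h2 := ih (h.anti (Nat.le_succ n) h1)
      have h3 : u + (vp M 2 * T) u ∈ Fl M L.a Λ (n + 1) := by
        have := Submodule.sub_mem _ h1 (hS n u h2)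
        convert this using 1
        rw [hUx]
        abel
      have key : ∀ j : ℕ, ∃ v ∈ Λ, u - vp M (2 * j) v ∈ Fl M L.a Λ (n + 1) := by
        intro j
        induction j with
        | zero => exact ⟨u, hu, by simp⟩
        | succ j ih =>
          obtain ⟨v, hv, h4⟩ := ih
          refine ⟨-T v, Λ.neg_mem (hT0 v hv), ?_⟩
          have := Submodule.sub_mem _ h3 (hT _ _ h4)
          convert this using 1
          rw [map_sub, hTw, map_neg]
          abel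
      obtain ⟨v, hv, h4⟩ := key (n + 1)
      have h5 := up_vp (a := L.a) (M := M) (n := 0) (n + 1) hv
      rw [zero_add] at h5
      simpa using Submodule.add_mem _ h4 h5

end Ctx

/-- The dual loop of `b` in the triangle spanned by `a` and `p`. -/
def bstar (A : Rˣ) (M : (Module.End R W)ˣ) (L : Lvl R W) : Module.End R W :=
  sc A 2 • (L.a * L.p) - sc A 4 • L.b - (2 * sc A 2) • tau M

theorem Rel.b_bstar {L : Lvl R W} (h : Rel A M L) :
    L.b * bstar A M L = sc A (-4) • (L.a * L.a) + sc A 4 • (L.p * L.p) +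
      (2 * sc A (-2)) • (tau M * L.a) + (2 * sc A 2) • (tau M * L.p) +
      (tau M * tau M + (4 : R) • tau M - (dl A ^ 2) • 1) := by
  have e1 : sc A 2 * sc A (-2) = 1 := sc_mul_neg A 2
  have e2 : sc A 2 * sc A 2 = sc A 4 := by rw [sc_mul_sc]; norm_num
  have e3 : L.b * tau M = tau M * L.b := (commute_tau h.cb).eq
  rw [bstar, mul_sub, mul_sub, mul_smul_comm, mul_smul_comm, mul_smul_comm, ← mul_assoc, h.L2, e3,
    add_mul, add_mul, smul_mul_assoc, smul_mul_assoc, smul_mul_assoc, smul_add, smul_add,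
    smul_smul, smul_smul, smul_smul, e1, e2, one_smul, h.cub]
  module

theorem Rel.bstar_b {L : Lvl R W} (h : Rel A M L) :
    bstar A M L * L.b = sc A 4 • (L.a * L.a) + sc A (-4) • (L.p * L.p) +
      (2 * sc A 2) • (tau M * L.a) + (2 * sc A (-2)) • (tau M * L.p) +
      (tau M * tau M + (4 : R) • tau M - (dl A ^ 2) • 1) := by
  have e1 : sc A (-2) * sc A 2 = 1 := sc_neg_mul A 2
  have e2 : sc A (-2) * sc A (-2) = sc A (-4) := by rw [sc_mul_sc]; norm_num
  have e3 : sc A 2 * sc A (-4) = sc A (-2) := by rw [sc_mul_sc]; norm_num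
  have e4 : sc A 2 * (sc A 2 - sc A (-6)) = sc A 4 - sc A (-4) := by
    rw [mul_sub, sc_mul_sc, sc_mul_sc]; norm_num
  have e5 : sc A 2 * (2 * (1 - sc A (-4))) = 2 * sc A 2 - 2 * sc A (-2) := by
    rw [← e3]; ring
  have e6 : L.a * tau M = tau M * L.a := (commute_tau h.ca).eq
  rw [bstar, sub_mul, sub_mul, smul_mul_assoc, smul_mul_assoc, smul_mul_assoc, mul_assoc, h.L4,
    mul_add, mul_add, mul_smul_comm, mul_smul_comm, mul_smul_comm, ← mul_assoc, h.L1, e6,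
    add_mul, add_mul, smul_mul_assoc, smul_mul_assoc, smul_mul_assoc, smul_add, smul_add,
    smul_smul, smul_smul, smul_smul, e3, e4, e5, smul_add, smul_add, smul_smul, smul_smul,
    smul_smul, e1, e2, one_smul, h.cub]
  module

theorem norm_quad {a p : Module.End R W} (ha : a * M = M * a) (hp : p * M = M * p)
    (r1 r2 r3 r4 r5 : R) :
    vp M 2 * vp M 2 * (r1 • (a * a) + r2 • (p * p) + r3 • (tau M * a) + r4 • (tau M * p) +
      (tau M * tau M + (4 : R) • tau M - r5 • 1)) =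
    1 + (r1 • (vp M 2 * a * (vp M 2 * a)) + r3 • (vp M 2 * a * (vp M 2 * tau M))) +
      vp M 2 * (r2 • (p * (vp M 2 * p)) + r4 • (vp M 2 * tau M * p) +
        ((2 : R) • 1 + vp M 2) * (1 + vp M 2 * tau M) + (4 : R) • (vp M 2 * tau M) -
        r5 • vp M 2) := by
  have c1 : a * vp M 2 = vp M 2 * a := (commute_vp ha 2).eq
  have c2 : p * vp M 2 = vp M 2 * p := (commute_vp hp 2).eq
  have c3 : tau M * vp M 2 = vp M 2 * tau M := (tau_commute_vp M 2).eq
  have c4 : a * tau M = tau M * a := (commute_tau ha).eq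
  have t1 : vp M 2 * a * (vp M 2 * a) = vp M 2 * vp M 2 * (a * a) := by
    rw [mul_assoc, ← mul_assoc a, c1]; simp only [mul_assoc]
  have t2 : vp M 2 * a * (vp M 2 * tau M) = vp M 2 * vp M 2 * (tau M * a) := by
    rw [mul_assoc, ← mul_assoc a, c1, ← c4]; simp only [mul_assoc]
  have t3 : vp M 2 * (p * (vp M 2 * p)) = vp M 2 * vp M 2 * (p * p) := by
    rw [← mul_assoc p, c2]; simp only [mul_assoc]
  have t4 : vp M 2 * ((2 : R) • 1 + vp M 2) = vp M 2 * tau M - 1 := by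
    rw [vp_two_mul_tau, mul_add, vp_mul_vp, mul_smul_comm, mul_one]
    norm_num
    abel
  have t5 : vp M 2 * (((2 : R) • 1 + vp M 2) * (1 + vp M 2 * tau M)) =
      vp M 2 * vp M 2 * (tau M * tau M) - 1 := by
    rw [← mul_assoc, t4, mul_add, mul_one, sub_mul, one_mul, mul_assoc, ← mul_assoc (tau M), c3]
    simp only [mul_assoc]
    abel
  rw [t1, t2, mul_sub (vp M 2), mul_add (vp M 2), mul_add (vp M 2), mul_add (vp M 2), t5,
    mul_smul_comm r2 (vp M 2), t3]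
  simp only [mul_add, mul_sub, mul_smul_comm, mul_assoc, mul_one]
  abel

namespace Ctx
variable {L : Lvl R W} {Λ : Submodule R W} {D : ℤ}

theorem quad (h : Ctx A M L Λ D) {U : Module.End R W} {r1 r2 r3 r4 r5 : R}
    (hU : U = vp M 2 * vp M 2 * (r1 • (L.a * L.a) + r2 • (L.p * L.p) + r3 • (tau M * L.a) +
      r4 • (tau M * L.p) + (tau M * tau M + (4 : R) • tau M - r5 • 1))) (n : ℕ) :
    (∀ x ∈ Λ, ∃ y ∈ Λ, x - U y ∈ Fl M L.a Λ n) ∧
      ∀ u ∈ Λ, U u ∈ Fl M L.a Λ n → u ∈ Fl M L.a Λ n := by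
  rw [norm_quad h.rel.ca h.rel.cp] at hU
  have w2 : ∀ n, Pres (vp M 2) (Fl M L.a Λ n) := fun n => h.pw (by norm_num) n
  have cw := vp_comm_M M 2
  have ct := mul_comm_M cw (tau_comm_M M)
  refine h.unip hU ?_ ?_ ?_ ?_ n
  · intro k x hx
    exact Submodule.add_mem _ (Submodule.smul_mem _ _ (Fl.up_a (h.abar k x hx)))
      (Submodule.smul_mem _ _ (Fl.up_a (h.tbar k x hx)))
  · intro k
    have c2 : vp M 2 * (vp M 2 * tau M * L.p) = vp M 2 * tau M * (vp M 2 * L.p) := by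
      rw [← mul_assoc, ← (commute_vp ct 2).eq, mul_assoc]
    rw [mul_sub, mul_add, mul_add, mul_add, mul_smul_comm, mul_smul_comm, ← mul_assoc _ L.p, c2]
    refine ((((((h.pbar k).mul (h.pbar k)).smul _).add
      (((h.tbar k).mul (h.pbar k)).smul _)).add ((w2 k).mul ?_)).add
      ((w2 k).mul ((h.tbar k).smul _))).sub ((w2 k).mul ((w2 k).smul _))
    exact ((Pres.one.smul _).add (w2 k)).mul (Pres.one.add (h.tbar k))
  · exact (((((h.inv.p.mul (h.pbar 0)).smul _).add (((h.tbar 0).mul h.inv.p).smul _)).add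
      (((Pres.one.smul _).add (w2 0)).mul (Pres.one.add (h.tbar 0)))).add
      ((h.tbar 0).smul _)).sub ((w2 0).smul _)
  · have cp : Commute L.p M := h.rel.cp
    have cw' : Commute (vp M 2) M := cw
    have ct' : Commute (vp M 2 * tau M) M := ct
    have c1 : Commute (1 : Module.End R W) M := Commute.one_left _
    exact ((((((cp.mul_left (cw'.mul_left cp)).smul_left _).add_left
      ((ct'.mul_left cp).smul_left _)).add_left (((c1.smul_left _).add_left cw').mul_left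
      (c1.add_left ct'))).add_left (ct'.smul_left _)).sub_left (cw'.smul_left _)).eq

theorem bstar_pres (h : Ctx A M L Λ D) (n : ℕ) :
    Pres (vp M 2 * bstar A M L) (Fl M L.a Λ n) := by
  rw [bstar, mul_sub, mul_sub, mul_smul_comm, mul_smul_comm, mul_smul_comm]
  exact (((h.abar_p n).smul _).sub ((h.bbar n).smul _)).sub ((h.tbar n).smul _)

theorem bstar_comm (h : Ctx A M L Λ D) : bstar A M L * M = M * bstar A M L := by
  have ca : Commute L.a M := h.rel.ca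
  have cb : Commute L.b M := h.rel.cb
  have cp : Commute L.p M := h.rel.cp
  have ct : Commute (tau M) M := tau_comm_M M
  exact ((((ca.mul_left cp).smul_left _).sub_left (cb.smul_left _)).sub_left (ct.smul_left _)).eq

theorem b_onto (h : Ctx A M L Λ D) (n : ℕ) :
    ∀ x ∈ Λ, ∃ y ∈ Λ, x - (vp M 2 * L.b) y ∈ Fl M L.a Λ n := by
  intro x hx
  have e : vp M 2 * L.b * (vp M 2 * bstar A M L) = vp M 2 * vp M 2 * (L.b * bstar A M L) := by
    rw [mul_assoc, ← mul_assoc L.b, (commute_vp h.rel.cb 2).eq]; simp only [mul_assoc]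
  rw [h.rel.b_bstar] at e
  obtain ⟨y, hy, h1⟩ := (h.quad e n).1 x hx
  exact ⟨_, h.bstar_pres 0 y hy, h1⟩

theorem b_inj (h : Ctx A M L Λ D) (n : ℕ) :
    ∀ u ∈ Λ, (vp M 2 * L.b) u ∈ Fl M L.a Λ n → u ∈ Fl M L.a Λ n := by
  intro u hu h1
  have e : vp M 2 * bstar A M L * (vp M 2 * L.b) = vp M 2 * vp M 2 * (bstar A M L * L.b) := by
    rw [mul_assoc, ← mul_assoc (bstar A M L), (commute_vp h.bstar_comm 2).eq]
    simp only [mul_assoc]
  rw [h.rel.bstar_b] at e
  exact (h.quad e n).2 u hu (h.bstar_pres n _ h1)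

theorem bpow_onto (h : Ctx A M L Λ D) (n k : ℕ) :
    ∀ x ∈ Λ, ∃ y ∈ Λ, x - ((vp M 2 * L.b) ^ k) y ∈ Fl M L.a Λ n := by
  induction k with
  | zero => exact fun x hx => ⟨x, hx, by simp⟩
  | succ k ih =>
    intro x hx
    obtain ⟨y, hy, h1⟩ := ih x hx
    obtain ⟨z, hz, h2⟩ := h.b_onto n y hy
    refine ⟨z, hz, ?_⟩
    have := Submodule.add_mem _ h1 ((h.bbar n).pow k _ h2)
    convert this using 1
    rw [map_sub, pow_succ, Module.End.mul_apply]
    abel

theorem bpow_inj (h : Ctx A M L Λ D) (n k : ℕ) :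
    ∀ u ∈ Λ, ((vp M 2 * L.b) ^ k) u ∈ Fl M L.a Λ n → u ∈ Fl M L.a Λ n := by
  induction k with
  | zero => exact fun x _ hx => by simpa using hx
  | succ k ih =>
    intro u hu h1
    rw [pow_succ, Module.End.mul_apply] at h1
    exact h.b_inj n u hu (ih _ (h.inv.b u hu) h1)

theorem bpow_onto' (h : Ctx A M L Λ D) (n k : ℕ) :
    ∀ x ∈ Fl M L.a Λ n, ∃ y ∈ Fl M L.a Λ n,
      x - ((vp M 2 * L.b) ^ k) y ∈ Fl M L.a Λ (n + 1) := by
  intro x hx
  obtain ⟨y, hy, h1⟩ := h.bpow_onto (n + 1) k x (h.le n hx)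
  refine ⟨y, h.bpow_inj n k y hy ?_, h1⟩
  simpa using Submodule.sub_mem _ hx (h.anti (Nat.le_succ n) h1)

end Ctx

end Pool.Agent.Lib.MP_5b31c3_gt
end

-- part Pool.Agent.Lib.MP_5b31c3_gt.AlgUp
section

/-
The lattice at the vertex `a` generated by a lattice at the vertex `p`.
-/

namespace Pool.Agent.Lib.MP_5b31c3_gt

variable {R : Type*} [CommRing R] {W : Type*} [AddCommGroup W] [Module R W]
variable {A : Rˣ} {M : (Module.End R W)ˣ}

theorem Fl.up_vp_vp {a : Module.End R W} {Λ : Submodule R W} {n : ℕ} (j : ℕ) {x : W}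
    (hx : vp M (2 * n) x ∈ Fl M a Λ n) : vp M (2 * (n + j : ℕ)) x ∈ Fl M a Λ (n + j) := by
  have := Ctx.up_vp j hx
  rwa [vp_vp, show 2 * (j : ℤ) + 2 * n = 2 * ((n + j : ℕ) : ℤ) by push_cast; ring] at this

/-- The union of the submodules `M ^ (2 n) (Fl n)`. -/
def Up (M : (Module.End R W)ˣ) (a : Module.End R W) (Λ : Submodule R W) : Submodule R W where
  carrier := {x | ∃ n : ℕ, vp M (2 * n) x ∈ Fl M a Λ n}
  add_mem' := by
    rintro x y ⟨n, hn⟩ ⟨m, hm⟩
    refine ⟨n + m, ?_⟩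
    rw [map_add]
    refine Submodule.add_mem _ (Fl.up_vp_vp m hn) ?_
    rw [add_comm n m]
    exact Fl.up_vp_vp n hm
  zero_mem' := ⟨0, by simp⟩
  smul_mem' := by
    rintro c x ⟨n, hn⟩
    exact ⟨n, by rw [map_smul]; exact Submodule.smul_mem _ c hn⟩

theorem mem_Up {a : Module.End R W} {Λ : Submodule R W} {x : W} :
    x ∈ Up M a Λ ↔ ∃ n : ℕ, vp M (2 * n) x ∈ Fl M a Λ n := Iff.rfl

theorem back_mem_Up {a : Module.End R W} {Λ : Submodule R W} {x : W} {n : ℕ}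
    (hx : x ∈ Fl M a Λ n) : vp M (-(2 * n)) x ∈ Up M a Λ :=
  ⟨n, by simpa [vp_vp] using hx⟩

/-- `T` moves past the powers of `M` at the cost of a unit. -/
def SC (M : (Module.End R W)ˣ) (T : Module.End R W) : Prop :=
  ∀ k : ℤ, ∃ u : Rˣ, T * vp M k = (u : R) • (vp M k * T)

theorem SC.of_comm {T : Module.End R W} (h : T * M = M * T) : SC M T :=
  fun k => ⟨1, by simpa using (commute_vp h k).eq⟩

theorem SC.mul {S T : Module.End R W} (hS : SC M S) (hT : SC M T) : SC M (S * T) := by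
  intro k
  obtain ⟨u, hu⟩ := hS k
  obtain ⟨v, hv⟩ := hT k
  refine ⟨v * u, ?_⟩
  rw [mul_assoc, hv, mul_smul_comm, ← mul_assoc, hu, smul_mul_assoc, smul_smul, mul_assoc,
    Units.val_mul]

theorem Semi.nrm {X : Bool → Module.End R W} (h : Semi A M X) (e : Bool) (k : ℤ) :
    SC M (MP_5b31c3_gt.vp M 2 * MP_5b31c3_gt.mp M e k * X e) :=
  ((SC.of_comm (vp_comm_M M 2)).mul (SC.of_comm (mp_comm_M M e k))).mul (h.exists_vp e)

theorem pres_Up {a T : Module.End R W} {Λ : Submodule R W} (hc : SC M T)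
    (h : ∀ n, ∀ x ∈ Fl M a Λ n, vp M 2 (T x) ∈ Fl M a Λ (n + 1)) : Pres T (Up M a Λ) := by
  rintro x ⟨n, hn⟩
  refine ⟨n + 1, ?_⟩
  obtain ⟨u, hu⟩ := hc (2 * n)
  have h1 := h n _ hn
  have h2 : T (vp M (2 * n) x) = (u : R) • vp M (2 * n) (T x) := LinearMap.congr_fun hu x
  rw [h2, map_smul, vp_vp] at h1
  have h3 := Submodule.smul_mem _ ((u⁻¹ : Rˣ) : R) h1
  rwa [smul_smul, Units.inv_mul, one_smul,
    show (2 : ℤ) + 2 * n = 2 * ((n + 1 : ℕ) : ℤ) by push_cast; ring] at h3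

theorem cont_arc {F : ℕ → Submodule R W} (hF : ∀ l, Pres (vp M 1) (F l)) (aF : Antitone F)
    {X : Bool → Module.End R W} (h : Semi A M X) (e : Bool) (k : ℤ)
    (hX : ∀ n, ∀ x ∈ F n, vp M 2 ((vp M 2 * mp M e k * X e) x) ∈ F (n + 1)) :
    Cont M F (X e) := by
  have h1 : Cont M F (vp M 2 * mp M e k * X e) :=
    Cont.of_pres (h.nrm e k) 2 fun l x hx => aF (Nat.le_succ l) (hX l x hx)
  have h2 := (Cont.mp hF e (-k)).mul ((Cont.vp hF (-2)).mul h1)
  rwa [← mul_assoc (vp M (-2)), ← mul_assoc (vp M (-2)), vp_mul_vp, neg_add_cancel, vp_zero,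
    one_mul, ← mul_assoc, mp_mul_mp, neg_add_cancel, mp_zero, one_mul] at h2

namespace Ctx
variable {L : Lvl R W} {Λ : Submodule R W} {D : ℤ}

theorem arc_be_zero (h : Ctx A M L Λ D) (e : Bool) {x : W} (hx : x ∈ Λ) :
    vp M 2 ((vp M 2 * mp M e (-(D + 1)) * L.be e) x) ∈ Fl M L.a Λ 1 := by
  have hal := h.inv.al e x hx
  have hbe := h.inv.be e x hx
  have hP := h.inv.P e x hx
  have w2 := h.lat.vp (k := 2) (by norm_num)
  have mv : ∀ (i j : ℤ) (y : W), mp M e i (vp M j y) = vp M j (mp M e i y) :=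
    fun i j y => cvp (mp_comm_M M e i) j y
  simp only [Module.End.mul_apply] at hal hbe hP ⊢
  cases e
  · have w2' : ∀ y ∈ Λ, mp M false 2 y ∈ Λ := fun y hy => by rw [mp_false]; exact w2 y hy
    have e := LinearMap.congr_fun (h.rel.K4a false) x
    simp only [Module.End.mul_apply, LinearMap.add_apply, LinearMap.smul_apply,
      LinearMap.sub_apply] at e
    have e2 := congrArg (fun y => vp M 2 (vp M 2 (mp M false (-D) y))) e
    simp only [map_add, map_sub, map_smul, mp_mp] at e2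
    have h1 : vp M 2 (vp M 2 (mp M false (-D) (L.a (L.P false x)))) ∈ Fl M L.a Λ 1 := by
      have := Fl.up_a (M := M) (a := L.a) (n := 0) hP
      rwa [cvp h.rel.ca, cmp h.rel.ca] at this
    have h2 : vp M 2 (vp M 2 (mp M false (-D + 1) (L.p (L.al false x)))) ∈ Fl M L.a Λ 1 := by
      have := Fl.up_w (M := M) (a := L.a) (n := 0) (w2' _ (h.inv.p _ hal))
      rwa [cvp h.rel.cp, cmp h.rel.cp, mv, mp_mp, show 2 + -(D + 1) = -D + 1 by ring] at this
    have h3 : vp M 2 (vp M 2 (mp M false (-D + 3) (L.be false x))) ∈ Fl M L.a Λ 1 := by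
      have := Fl.up_w (M := M) (a := L.a) (n := 0) (w2' _ hbe)
      rwa [mv, mp_mp, show 2 + -(D - 1) = -D + 3 by ring] at this
    have h4 : vp M 2 (vp M 2 (mp M false (-D + -1) (L.al false x))) ∈ Fl M L.a Λ 1 := by
      have := Fl.up_w (M := M) (a := L.a) (n := 0) hal
      rwa [show -(D + 1) = -D + -1 by ring] at this
    have h5 : vp M 2 (vp M 2 (mp M false (-D + 2) (L.P false x))) ∈ Fl M L.a Λ 1 := by
      have := Fl.up_w (M := M) (a := L.a) (n := 0) (w2' _ hP)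
      rwa [mv, mp_mp, add_comm 2 (-D)] at this
    have h6 : sc A 1 • vp M 2 (vp M 2 (mp M false (-D + -1) (L.be false x))) ∈ Fl M L.a Λ 1 := by
      have := Submodule.add_mem _ (Submodule.sub_mem _ (Submodule.add_mem _ (Submodule.sub_mem _ h1
        (Submodule.smul_mem _ (sc A (-3)) h2)) (Submodule.smul_mem _ (sc A (-3)) h3))
        (Submodule.smul_mem _ (2 * sc A (-1)) h4)) (Submodule.smul_mem _ (2 * sc A (-2)) h5)
      convert this using 1
      rw [e2]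
      abel
    have h7 := Submodule.smul_mem _ (sc A (-1)) h6
    rwa [smul_smul, sc_neg_mul, one_smul, show -D + -1 = -(D + 1) by ring] at h7
  · have := Fl.up_w (M := M) (a := L.a) (n := 0) (w2 _ hbe)
    have e : vp M 2 (mp M true (-(D - 1)) (L.be true x)) = mp M true (-(D + 1)) (L.be true x) := by
      rw [mp_true, mp_true, vp_vp]
      congr 2
      ring
    rwa [e] at this

theorem arcs (h : Ctx A M L Λ D) (e : Bool) (n : ℕ) : ∀ x ∈ Fl M L.a Λ n,
    vp M 2 ((vp M 2 * mp M e (-(D + 1)) * L.al e) x) ∈ Fl M L.a Λ (n + 1) ∧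
    vp M 2 ((vp M 2 * mp M e (-(D + 1)) * L.be e) x) ∈ Fl M L.a Λ (n + 1) ∧
    vp M 2 ((vp M 2 * mp M e (-D) * L.P e) x) ∈ Fl M L.a Λ (n + 1) := by
  induction n with
  | zero =>
    exact fun x hx => ⟨Fl.up_w (h.inv.al e x hx), h.arc_be_zero e hx, Fl.up_w (h.inv.P e x hx)⟩
  | succ n ih =>
    intro x hx
    obtain ⟨y, hy, z, hz, rfl⟩ := mem_Fl_succ.1 hx
    have key : ∀ T : Module.End R W, SC M T → vp M 2 (T z) ∈ Fl M L.a Λ (n + 1) →
        vp M 2 (vp M 2 (T (L.a y))) ∈ Fl M L.a Λ (n + 1 + 1) →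
        vp M 2 (T (vp M 2 (L.a y) + vp M 2 z)) ∈ Fl M L.a Λ (n + 1 + 1) := by
      intro T hT h1 h2
      obtain ⟨u, hu⟩ := hT 2
      have hu' : ∀ v, T (vp M 2 v) = (u : R) • vp M 2 (T v) := fun v => LinearMap.congr_fun hu v
      rw [map_add, hu', hu', ← smul_add, map_smul, map_add]
      exact Submodule.smul_mem _ _ (Submodule.add_mem _ h2 (Fl.up_w h1))
    obtain ⟨y1, y2, y3⟩ := ih y hy
    obtain ⟨z1, z2, z3⟩ := ih z hz
    have a1 := Fl.up_a y1
    have a2 := Fl.up_a y2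
    have a3 := Fl.up_a y3
    have b1 := Fl.up_w y1
    have b2 := Fl.up_w y2
    have b3 := Fl.up_w y3
    simp only [Module.End.mul_apply, cvp h.rel.ca, cmp h.rel.ca] at a1 a2 a3 b1 b2 b3
    refine ⟨key _ (h.rel.sal.nrm e _) z1 ?_, key _ (h.rel.sbe.nrm e _) z2 ?_,
      key _ (h.rel.sP.nrm e _) z3 ?_⟩
    · have e1 : L.al e (L.a y) = L.a (L.al e y) := LinearMap.congr_fun (h.rel.K5a e) y
      simp only [Module.End.mul_apply]
      rwa [e1]
    · have e1 := LinearMap.congr_fun (h.rel.bea e) y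
      simp only [Module.End.mul_apply, LinearMap.add_apply, LinearMap.smul_apply] at e1 ⊢
      rw [e1]
      simp only [map_add, map_smul, mp_mp]
      rw [show -(D + 1) + 1 = -D by ring]
      exact Submodule.add_mem _ (Submodule.add_mem _ (Submodule.smul_mem _ _ a2)
        (Submodule.smul_mem _ _ b3)) (Submodule.smul_mem _ _ b1)
    · have e1 := LinearMap.congr_fun (h.rel.K3a e) y
      simp only [Module.End.mul_apply, LinearMap.add_apply, LinearMap.smul_apply] at e1 ⊢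
      rw [e1]
      simp only [map_add, map_smul, mp_mp]
      rw [show -D + -1 = -(D + 1) by ring]
      exact Submodule.add_mem _ (Submodule.add_mem _ (Submodule.smul_mem _ _ a3)
        (Submodule.smul_mem _ _ b2)) (Submodule.smul_mem _ _ b1)

theorem allCont (h : Ctx A M L Λ D) : AllCont M (Fl M L.a Λ) L := by
  have hF : ∀ l, Pres (vp M 1) (Fl M L.a Λ l) := fun l => h.pw (by norm_num) l
  exact ⟨Cont.of_pres (SC.of_comm h.rel.ca) 2 h.abar, Cont.of_pres (SC.of_comm h.rel.cb) 2 h.bbar,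
    Cont.of_pres (SC.of_comm h.rel.cp) 2 h.pbar,
    fun e => cont_arc hF h.anti h.rel.sal e _ fun n x hx => (h.arcs e n x hx).1,
    fun e => cont_arc hF h.anti h.rel.sbe e _ fun n x hx => (h.arcs e n x hx).2.1,
    fun e => cont_arc hF h.anti h.rel.sP e _ fun n x hx => (h.arcs e n x hx).2.2⟩

theorem lat_Up (h : Ctx A M L Λ D) : Lat M (Up M L.a Λ) := by
  refine ⟨pres_Up (SC.of_comm (vp_comm_M M 1)) fun n x hx =>
    Fl.up_w (h.pw (by norm_num) n x hx), fun x => ?_⟩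
  obtain ⟨n, hn⟩ := h.lat.full x
  exact ⟨n, 0, by simpa [Fl] using hn⟩

theorem invA_Up (h : Ctx A M L Λ D) : InvA M L (Up M L.a Λ) (D + 1) := by
  refine ⟨pres_Up (SC.of_comm h.rel.ca) fun n x hx => Fl.up_a hx,
    pres_Up (SC.of_comm (mul_comm_M (vp_comm_M M 2) h.rel.cb)) fun n x hx =>
      Fl.up_w (h.bbar n x hx),
    pres_Up (SC.of_comm (mul_comm_M (vp_comm_M M 2) h.rel.cp)) fun n x hx =>
      Fl.up_w (h.pbar n x hx),
    fun e => pres_Up (h.rel.sal.nrm e _) fun n x hx => (h.arcs e n x hx).1,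
    fun e => pres_Up (h.rel.sbe.nrm e _) fun n x hx => (h.arcs e n x hx).2.1, fun e => ?_⟩
  rw [add_sub_cancel_right]
  exact pres_Up (h.rel.sP.nrm e _) fun n x hx => (h.arcs e n x hx).2.2

theorem onto_Up (h : Ctx A M L Λ D) : Onto M L.b (Up M L.a Λ) := by
  rintro x ⟨n, hn⟩
  obtain ⟨y, hy, h1⟩ := h.bpow_onto' n 1 _ hn
  refine ⟨_, back_mem_Up hy, _, back_mem_Up h1, ?_⟩
  rw [pow_one, Module.End.mul_apply, map_sub, map_sub, cvp h.rel.cb]
  simp only [vp_vp]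
  rw [show (2 : ℤ) + (-(2 * ((n + 1 : ℕ) : ℤ)) + 2 * n) = 0 by push_cast; ring,
    show (2 : ℤ) + (-(2 * ((n + 1 : ℕ) : ℤ)) + 2) = 2 + -(2 * n) by push_cast; ring]
  simp

theorem onto_zero_Up (hO : Onto M L.a Λ) : Onto M 0 (Up M L.a Λ) := by
  have key : ∀ n, Fl M L.a Λ n ≤ Fl M L.a Λ (n + 1) := by
    intro n
    induction n with
    | zero => exact fun x hx => mem_Fl_succ.2 (hO x hx)
    | succ n ih =>
      intro x hx
      obtain ⟨y, hy, z, hz, rfl⟩ := mem_Fl_succ.1 hx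
      exact mem_Fl_succ.2 ⟨y, ih hy, z, ih hz, rfl⟩
  rintro x ⟨n, hn⟩
  refine ⟨0, Submodule.zero_mem _, _, back_mem_Up (key n hn), ?_⟩
  simp only [vp_vp]
  rw [show (2 : ℤ) + (-(2 * ((n + 1 : ℕ) : ℤ)) + 2 * n) = 0 by push_cast; ring]
  simp

variable {Q : Type*} [AddCommGroup Q] [Module R Q]

/-- Boundedness on the new lattice. -/
theorem bdd_Up (h : Ctx A M L Λ D) {T E : Module.End R W} (hT : T * M = M * T) {s t : ℕ}
    (hst : 1 ≤ s + t) {u : Rˣ} {r : R}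
    (hE : ∀ n, ∀ z ∈ Fl M L.a Λ n, E z ∈ Fl M L.a Λ (n + s - 1))
    (hl : vp M (2 * (s + t : ℕ)) * T =
      (u : R) • ((vp M 2 * L.a) ^ s * (vp M 2 * L.b) ^ t) + vp M 2 * E)
    {X : Sh R} {φ : W →ₗ[R] (ℤ → Q)} (hφ : ∀ x, φ ((M : Module.End R W) x) = X.op Q (φ x))
    (hφT : ∀ x, φ (T x) = r • φ x) (hX : 0 < X.d)
    (hc : ∀ C : ℤ, ∃ l, ∀ x ∈ Fl M L.a Λ l, φ x ∈ van R Q C) (hb : Bdd φ Λ) :
    Bdd φ (Up M L.a Λ) := by
  have rule : ∀ (m : ℕ) (C : ℤ), s ≤ m + 1 → (∀ x ∈ Fl M L.a Λ m, φ x ∈ van R Q (C - 2 * X.d)) →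
      (∀ x ∈ Fl M L.a Λ (m + 2), φ x ∈ van R Q C) →
      ∀ x ∈ Fl M L.a Λ (m + 1), φ x ∈ van R Q C := by
    intro m C hm h1 h2 x hx
    have h1' : ∀ x ∈ Fl M L.a Λ m, φ (vp M 2 x) ∈ van R Q C := fun x hx =>
      van_mono (by omega) (van_vp hφ 2 (h1 x hx))
    obtain ⟨k, hk⟩ : ∃ k, m + 1 = k + s := ⟨m + 1 - s, by omega⟩
    rw [hk] at hx
    obtain ⟨z, hz, v, hv, rfl⟩ := h.lead_term k s x hx
    obtain ⟨y, hy, h3⟩ := h.bpow_onto' k t z hz
    rw [map_add]
    refine Submodule.add_mem _ ?_ (h1' v (h.anti (by omega) hv))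
    have h4 := h2 _ (h.anti (by omega) (up_pow s h3))
    rw [map_sub, map_sub] at h4
    have h5 : φ (((vp M 2 * L.a) ^ s) (((vp M 2 * L.b) ^ t) y)) ∈ van R Q C := by
      have e := LinearMap.congr_fun hl y
      simp only [Module.End.mul_apply, LinearMap.add_apply, LinearMap.smul_apply] at e
      obtain ⟨j, hj⟩ : ∃ j, s + t = j + 1 := ⟨s + t - 1, by omega⟩
      have h6 : φ (vp M (2 * (s + t : ℕ)) (T y)) ∈ van R Q C := by
        rw [← cvp hT, hφT, hj, show 2 * ((j + 1 : ℕ) : ℤ) = 2 + 2 * j by push_cast; ring, ← vp_vp]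
        exact Submodule.smul_mem _ _ (h1' _ (h.anti (by omega) (up_vp j hy)))
      have h7 := Submodule.smul_mem _ ((u⁻¹ : Rˣ) : R)
        (Submodule.sub_mem _ h6 (h1' _ (h.anti (by omega) (hE k y hy))))
      rwa [e, map_add, add_sub_cancel_right, map_smul, smul_smul, Units.inv_mul, one_smul] at h7
    simpa using Submodule.add_mem _ h4 h5
  obtain ⟨C0, hC0⟩ := hb
  have main : ∀ m : ℕ, ∀ x ∈ Fl M L.a Λ m, φ x ∈ van R Q (C0 - 2 * X.d * s + 2 * X.d * m) := by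
    intro m
    induction m with
    | zero =>
      exact fun x hx => van_mono (by push_cast; nlinarith [Int.natCast_nonneg s]) (hC0 x hx)
    | succ m ih =>
      by_cases hm : s ≤ m + 1
      · obtain ⟨l, hl⟩ := hc (C0 - 2 * X.d * s + 2 * X.d * (m + 1 : ℕ))
        have down : ∀ i j : ℕ, m + 1 ≤ j → l ≤ j + i → ∀ x ∈ Fl M L.a Λ j,
            φ x ∈ van R Q (C0 - 2 * X.d * s + 2 * X.d * (m + 1 : ℕ)) := by
          intro i
          induction i with
          | zero => exact fun j _ h2 x hx => hl x (h.anti h2 hx)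
          | succ i ih2 =>
            intro j h1 h2
            obtain ⟨j, rfl⟩ : ∃ j', j = j' + 1 := ⟨j - 1, by omega⟩
            refine rule j _ (by omega) (fun x hx => ?_) (ih2 (j + 2) (by omega) (by omega))
            exact van_mono (le_of_eq (by push_cast; ring)) (ih x (h.anti (by omega) hx))
        exact down l (m + 1) le_rfl (by omega)
      · intro x hx
        have h1 : ((m + 1 : ℕ) : ℤ) ≤ s := by omega
        exact van_mono (by nlinarith) (hC0 x (h.le _ hx))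
  refine ⟨C0 - 2 * X.d * s, ?_⟩
  rintro x ⟨n, hn⟩
  have := van_vp hφ (-(2 * n)) (main n _ hn)
  rw [vp_vp, neg_add_cancel, vp_zero] at this
  exact van_mono (le_of_eq (by ring)) this

end Ctx

end Pool.Agent.Lib.MP_5b31c3_gt
end

-- part Pool.Agent.Lib.MP_5b31c3_gt.AlgLead
section

/-
The symmetry of the relations and the leading term of the last loop operator.
-/

namespace Pool.Agent.Lib.MP_5b31c3_gt

variable {R : Type*} [CommRing R] {W : Type*} [AddCommGroup W] [Module R W]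
variable {A : Rˣ} {M : (Module.End R W)ˣ}

theorem Rel.swap {L : Lvl R W} (h : Rel A M L) : Rel A⁻¹ M L.swap where
  ca := h.cb
  cb := h.ca
  cc := h.cc
  cp := h.cp
  sal := h.sbe.swap
  sbe := h.sal.swap
  sG := h.sG.swap
  sP := h.sP.swap
  L1 := by simpa only [Lvl.swap, sc_inv, neg_neg] using h.L2
  L2 := by simpa only [Lvl.swap, sc_inv, neg_neg] using h.L1
  L3 := by simpa only [Lvl.swap, sc_inv, neg_neg] using h.L4
  L4 := by simpa only [Lvl.swap, sc_inv, neg_neg] using h.L3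
  cub := by
    simp only [Lvl.swap, sc_inv, neg_neg, dl_inv]
    rw [h.cub]
    abel
  K1 e := by simpa only [Lvl.swap, sc_inv, neg_neg, mp_not] using h.K2 (!e)
  K1L e := by simpa only [Lvl.swap, sc_inv, neg_neg, mp_not] using h.K2L (!e)
  K2 e := by simpa only [Lvl.swap, sc_inv, neg_neg, mp_not] using h.K1 (!e)
  K2L e := by simpa only [Lvl.swap, sc_inv, neg_neg, mp_not] using h.K1L (!e)
  K3a e := by simpa only [Lvl.swap, sc_inv, neg_neg, mp_not] using h.K3b (!e)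
  K3b e := by simpa only [Lvl.swap, sc_inv, neg_neg, mp_not] using h.K3a (!e)
  K4a e := by simpa only [Lvl.swap, sc_inv, neg_neg, mp_not] using h.K4b (!e)
  K4b e := by simpa only [Lvl.swap, sc_inv, neg_neg, mp_not] using h.K4a (!e)
  K5a e := h.K5b (!e)
  K5b e := h.K5a (!e)

namespace Lead

variable {ι : Type*} [AddCommGroup ι] {K : ι → Submodule R W} {w0 : ι} {q : Module.End R W}

/-- Operators of lower order. -/
def Sm (K : ι → Submodule R W) (q : Module.End R W) (w0 j : ι) (S : Module.End R W) : Prop :=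
  ∃ E, Mp K E (j - w0) ∧ S = q * E

/-- Equality up to a unit and up to lower order. -/
def Eqv (K : ι → Submodule R W) (q : Module.End R W) (w0 j : ι) (S T : Module.End R W) : Prop :=
  ∃ (u : Rˣ) (E : Module.End R W), Mp K E (j - w0) ∧ S = (u : R) • T + q * E

variable {i j : ι} {S S' T T' U : Module.End R W}

theorem Sm.add (h : Sm K q w0 j S) (h' : Sm K q w0 j S') : Sm K q w0 j (S + S') := by
  obtain ⟨E, hE, rfl⟩ := h
  obtain ⟨E', hE', rfl⟩ := h'
  exact ⟨E + E', hE.add hE', (mul_add _ _ _).symm⟩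

theorem Sm.smul (r : R) (h : Sm K q w0 j S) : Sm K q w0 j (r • S) := by
  obtain ⟨E, hE, rfl⟩ := h
  exact ⟨r • E, hE.smul r, (mul_smul_comm _ _ _).symm⟩

theorem Eqv.refl (T : Module.End R W) : Eqv K q w0 j T T := ⟨1, 0, Mp.zero, by simp⟩

theorem Eqv.cast (h : Eqv K q w0 i S T) (e : i = j) : Eqv K q w0 j S T := e ▸ h

theorem Eqv.trans (h : Eqv K q w0 j S T) (h' : Eqv K q w0 j T U) : Eqv K q w0 j S U := by
  obtain ⟨u, E, hE, rfl⟩ := h
  obtain ⟨u', E', hE', rfl⟩ := h'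
  refine ⟨u * u', (u : R) • E' + E, (hE'.smul _).add hE, ?_⟩
  rw [smul_add, smul_smul, mul_add, mul_smul_comm, Units.val_mul, add_assoc]

theorem Eqv.symm (h : Eqv K q w0 j S T) : Eqv K q w0 j T S := by
  obtain ⟨u, E, hE, rfl⟩ := h
  refine ⟨u⁻¹, -(((u⁻¹ : Rˣ) : R) • E), (hE.smul _).neg, ?_⟩
  rw [smul_add, smul_smul, Units.inv_mul, one_smul, mul_neg, mul_smul_comm, add_neg_cancel_right]

theorem Eqv.unit_smul (u : Rˣ) (h : Eqv K q w0 j S T) : Eqv K q w0 j ((u : R) • S) T := by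
  obtain ⟨u', E, hE, rfl⟩ := h
  refine ⟨u * u', (u : R) • E, hE.smul _, ?_⟩
  rw [smul_add, smul_smul, mul_smul_comm, Units.val_mul]

theorem Eqv.add_sm (h : Eqv K q w0 j S T) (h' : Sm K q w0 j S') : Eqv K q w0 j (S + S') T := by
  obtain ⟨u, E, hE, rfl⟩ := h
  obtain ⟨E', hE', rfl⟩ := h'
  exact ⟨u, E + E', hE.add hE', by rw [mul_add, add_assoc]⟩

theorem Eqv.mul_right (h : Eqv K q w0 i S T) (hU : Mp K U j) :
    Eqv K q w0 (i + j) (S * U) (T * U) := by
  obtain ⟨u, E, hE, rfl⟩ := h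
  refine ⟨u, E * U, (hE.mul hU).cast (by abel), ?_⟩
  rw [add_mul, smul_mul_assoc, mul_assoc]

theorem Eqv.mul_left (h : Eqv K q w0 j S T) (hU : Mp K U i) (hc : Commute U q) :
    Eqv K q w0 (i + j) (U * S) (U * T) := by
  obtain ⟨u, E, hE, rfl⟩ := h
  refine ⟨u, U * E, (hU.mul hE).cast (by abel), ?_⟩
  rw [mul_add, mul_smul_comm, ← mul_assoc, hc.eq, mul_assoc]

theorem Eqv.mp (hw : Mp K q w0) (h : Eqv K q w0 j S T) (hT : Mp K T j) : Mp K S j := by
  obtain ⟨u, E, hE, rfl⟩ := h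
  exact (hT.smul _).add ((hw.mul hE).cast (by abel))

section Reorder
variable {a b : Module.End R W} {wa wb : ι}

theorem reorder_one (ha : Mp K a wa) (hca : Commute a q)
    (h : Eqv K q w0 (wa + wb) (b * a) (a * b)) (x : ℕ) :
    Eqv K q w0 (x • wa + wb) (b * a ^ x) (a ^ x * b) := by
  induction x with
  | zero => simpa using Eqv.refl b
  | succ x ih =>
    have h1 := h.mul_right (ha.pow x)
    have h2 := ih.mul_left ha hca
    rw [pow_succ', ← mul_assoc, mul_assoc a]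
    rw [mul_assoc a] at h1
    exact (h1.cast (by rw [succ_nsmul]; abel)).trans (h2.cast (by rw [succ_nsmul]; abel))

theorem reorder (ha : Mp K a wa) (hb : Mp K b wb) (hca : Commute a q) (hcb : Commute b q)
    (h : Eqv K q w0 (wa + wb) (b * a) (a * b)) (x y : ℕ) :
    Eqv K q w0 (x • wa + y • wb) (b ^ y * a ^ x) (a ^ x * b ^ y) := by
  induction y with
  | zero => simpa using Eqv.refl (a ^ x)
  | succ y ih =>
    have h1 := ih.mul_left hb hcb
    have h2 := (reorder_one ha hca h x).mul_right (hb.pow y)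
    rw [pow_succ', mul_assoc, ← mul_assoc (a ^ x)]
    rw [mul_assoc b] at h2
    exact (h1.cast (by rw [succ_nsmul]; abel)).trans (h2.cast (by rw [succ_nsmul]; abel))

theorem prod (hw : Mp K q w0) (ha : Mp K a wa) (hb : Mp K b wb) (hca : Commute a q)
    (hcb : Commute b q) (h : Eqv K q w0 (wa + wb) (b * a) (a * b)) {x y x' y' : ℕ}
    (hS : Eqv K q w0 (x • wa + y • wb) S (a ^ x * b ^ y))
    (hT : Eqv K q w0 (x' • wa + y' • wb) T (a ^ x' * b ^ y')) :
    Eqv K q w0 ((x + x') • wa + (y + y') • wb) (S * T) (a ^ (x + x') * b ^ (y + y')) := by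
  have h1 := hS.mul_right (hT.mp hw ((ha.pow x').mul (hb.pow y')))
  have h2 := hT.mul_left ((ha.pow x).mul (hb.pow y)) ((hca.pow_left x).mul_left (hcb.pow_left y))
  have h3 := ((reorder ha hb hca hcb h x' y).mul_right (hb.pow y')).mul_left (ha.pow x)
    (hca.pow_left x)
  have e1 : a ^ x * b ^ y * (a ^ x' * b ^ y') = a ^ x * (b ^ y * a ^ x' * b ^ y') := by
    simp only [mul_assoc]
  have e2 : a ^ (x + x') * b ^ (y + y') = a ^ x * (a ^ x' * b ^ y * b ^ y') := by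
    simp only [pow_add, mul_assoc]
  rw [e1] at h2
  rw [e2, add_nsmul, add_nsmul]
  rw [← e1] at h2 h3
  exact ((h1.cast (by abel)).trans (h2.cast (by abel))).trans (h3.cast (by abel))

end Reorder

theorem main {a b : Module.End R W} {wa wb : ι} (ha : Mp K a wa) (hb : Mp K b wb)
    (hca : Commute a (vp M 2)) (hcb : Commute b (vp M 2))
    (hab : Eqv K (vp M 2) w0 (wa + wb) (b * a) (a * b))
    (h0 : Mp K (vp M 2) 0) (hw : Mp K (vp M 2) w0)
    (hS : ∀ x y n : ℕ, x ≤ n + 1 → y ≤ n + 1 → 1 ≤ x + y →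
      Mp K (vp M 2 ^ n) (x • wa + y • wb - w0))
    {L LH : Lvl R W} {w : List Bool} (hl : Levels A M L w LH) :
    ∀ x y x' y' : ℕ, 1 ≤ x → 1 ≤ y' →
      Eqv K (vp M 2) w0 (x • wa + y • wb) (vp M 2 ^ (x + y) * L.a) (a ^ x * b ^ y) →
      Eqv K (vp M 2) w0 (x' • wa + y' • wb) (vp M 2 ^ (x' + y') * L.b) (a ^ x' * b ^ y') →
      Sm K (vp M 2) w0 ((x + x') • wa + (y + y') • wb) (vp M 2 ^ (x + x' + (y + y')) * L.p) →
      ∀ X Y : ℕ, X = (frac w).1 * x + (frac w).2 * x' → Y = (frac w).1 * y + (frac w).2 * y' →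
      Eqv K (vp M 2) w0 (X • wa + Y • wb) (vp M 2 ^ (X + Y) * LH.a) (a ^ X * b ^ Y) := by
  induction hl with
  | nil h =>
    intro x y x' y' _ _ h1 _ _ X Y hX hY
    simp only [frac, one_mul, zero_mul, add_zero] at hX hY
    rw [hX, hY]
    exact h1
  | @cons L L' L'' l w h hs _ ih =>
    intro x y x' y' hx hy' h1 h2 h3 X Y hX hY
    have hc : Eqv K (vp M 2) w0 ((x + x') • wa + (y + y') • wb)
        (vp M 2 ^ (x + x' + (y + y')) * L.c) (a ^ (x + x') * b ^ (y + y')) := by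
      have h4 := prod hw ha hb hca hcb hab h1 h2
      obtain ⟨n, hn⟩ : ∃ n, x + x' + (y + y') = n + 2 := ⟨x + x' + (y + y') - 2, by omega⟩
      have h5 : Sm K (vp M 2) w0 ((x + x') • wa + (y + y') • wb)
          (vp M 2 ^ (x + x' + (y + y')) * tau M) := by
        refine ⟨vp M 2 ^ n * (vp M 2 * tau M), ?_, ?_⟩
        · exact ((hS (x + x') (y + y') n (by omega) (by omega) (by omega)).mul h0.tbar).cast
            (add_zero _)
        · rw [hn, pow_succ, pow_succ']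
          simp only [mul_assoc]
      have e : vp M 2 ^ (x + x' + (y + y')) * L.c =
          ((A ^ (-2 : ℤ) : Rˣ) : R) • (vp M 2 ^ (x + y) * L.a * (vp M 2 ^ (x' + y') * L.b)) +
            ((-sc A (-4)) • (vp M 2 ^ (x + x' + (y + y')) * L.p) +
            (-(2 * sc A (-2))) • (vp M 2 ^ (x + x' + (y + y')) * tau M)) := by
        have e1 : vp M 2 ^ (x + y) * L.a * (vp M 2 ^ (x' + y') * L.b) =
            vp M 2 ^ (x + x' + (y + y')) * (L.a * L.b) := by
          rw [mul_assoc, ← mul_assoc L.a, ((commute_vp h.ca 2).pow_right _).eq, mul_assoc,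
            ← mul_assoc, ← pow_add, show x + y + (x' + y') = x + x' + (y + y') by ring]
        rw [e1, h.c_eq, mul_sub, mul_sub, mul_smul_comm, mul_smul_comm, mul_smul_comm, neg_smul,
          neg_smul, sub_eq_add_neg, sub_eq_add_neg, add_assoc]
        rfl
      rw [e]
      exact (h4.unit_smul _).add_sm ((h3.smul _).add (h5.smul _))
    cases l with
    | true =>
      obtain ⟨ea, eb, ep, -⟩ := hs
      refine ih (x + x') (y + y') x' y' (by omega) hy' (ea ▸ hc) (eb ▸ h2) ?_ X Y ?_ ?_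
      · obtain ⟨n, hn⟩ : ∃ n, 2 * (x' + y') = n + 1 := ⟨2 * (x' + y') - 1, by omega⟩
        refine ⟨vp M 2 ^ n * (vp M 2 ^ (x + y) * L.a), ?_, ?_⟩
        · refine ((hS (2 * x') (2 * y') n (by omega) (by omega) (by omega)).mul
            (h1.mp hw ((ha.pow x).mul (hb.pow y)))).cast ?_
          simp only [two_mul, add_nsmul]
          abel
        · rw [ep, ← mul_assoc, ← mul_assoc, ← pow_succ', ← pow_add]
          congr 2
          omega
      · rw [hX]; simp only [frac]; ring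
      · rw [hY]; simp only [frac]; ring
    | false =>
      obtain ⟨ea, eb, ep, -⟩ := hs
      refine ih x y (x + x') (y + y') hx (by omega) (ea ▸ h1) (eb ▸ hc) ?_ X Y ?_ ?_
      · obtain ⟨n, hn⟩ : ∃ n, 2 * (x + y) = n + 1 := ⟨2 * (x + y) - 1, by omega⟩
        refine ⟨vp M 2 ^ n * (vp M 2 ^ (x' + y') * L.b), ?_, ?_⟩
        · refine ((hS (2 * x) (2 * y) n (by omega) (by omega) (by omega)).mul
            (h2.mp hw ((ha.pow x').mul (hb.pow y')))).cast ?_
          simp only [two_mul, add_nsmul]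
          abel
        · rw [ep, ← mul_assoc, ← mul_assoc, ← pow_succ', ← pow_add]
          congr 2
          omega
      · rw [hX]; simp only [frac]; ring
      · rw [hY]; simp only [frac]; ring

end Lead

theorem one_le_frac (w : List Bool) : 1 ≤ (frac w).1 := by
  induction w with
  | nil => exact le_rfl
  | cons l w ih =>
    cases l
    · exact ih.trans (Nat.le_add_right _ _)
    · exact ih

theorem bar_mul_bar {S : Module.End R W} (h : S * M = M * S) (T : Module.End R W) :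
    vp M 2 * S * (vp M 2 * T) = vp M 2 * (vp M 2 * (S * T)) := by
  rw [mul_assoc, ← mul_assoc S, (commute_vp h 2).eq, mul_assoc]

theorem bar_commute {S : Module.End R W} (h : S * M = M * S) (k : ℤ) :
    Commute (vp M 2 * S) (vp M k) :=
  (vp_commute_vp M 2 k).mul_left (commute_vp h k)

theorem lead {L LH : Lvl R W} {w : List Bool} (hl : Levels A M L w LH)
    {ι : Type*} [AddCommGroup ι] (K : ι → Submodule R W) (wa wb w0 : ι)
    (ha : Mp K (vp M 2 * L.a) wa) (hb : Mp K (vp M 2 * L.b) wb)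
    (hp : Mp K (vp M 2 * L.p) (wa + wb - w0))
    (h0 : Mp K (vp M 2) 0) (hw : Mp K (vp M 2) w0)
    (hS : ∀ x y n : ℕ, x ≤ n + 1 → y ≤ n + 1 → 1 ≤ x + y →
      Mp K (vp M (2 * n)) (x • wa + y • wb - w0)) :
    1 ≤ (frac w).1 ∧
    (∃ (u : Rˣ) (E : Module.End R W), Mp K E ((frac w).1 • wa + (frac w).2 • wb - w0) ∧
      vp M (2 * ((frac w).1 + (frac w).2 : ℕ)) * LH.a =
        (u : R) • ((vp M 2 * L.a) ^ (frac w).1 * (vp M 2 * L.b) ^ (frac w).2) + vp M 2 * E) ∧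
    (∃ (u : Rˣ) (E : Module.End R W), Mp K E ((frac w).1 • wa + (frac w).2 • wb - w0) ∧
      vp M (2 * ((frac w).1 + (frac w).2 : ℕ)) * LH.a =
        (u : R) • ((vp M 2 * L.b) ^ (frac w).2 * (vp M 2 * L.a) ^ (frac w).1) + vp M 2 * E) := by
  have h := hl.rel_first
  have hca := bar_commute h.ca 2
  have hcb := bar_commute h.cb 2
  have hab : Lead.Eqv K (vp M 2) w0 (wa + wb) (vp M 2 * L.b * (vp M 2 * L.a))
      (vp M 2 * L.a * (vp M 2 * L.b)) := by
    have h1 : Mp K (1 : Module.End R W) (wa + wb - w0) := by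
      simpa using hS 1 1 0 le_rfl le_rfl (by norm_num)
    refine ⟨A ^ (-4 : ℤ), (sc A 2 - sc A (-6)) • (vp M 2 * L.p) +
      (2 * (1 - sc A (-4))) • (vp M 2 * tau M),
      (hp.smul _).add (((h0.tbar.shift h1).cast (zero_add _)).smul _), ?_⟩
    rw [bar_mul_bar h.cb, bar_mul_bar h.ca, h.ba]
    simp only [mul_add, mul_smul_comm, add_assoc]
    rfl
  have hm := Lead.main ha hb hca hcb hab h0 hw
    (fun x y n h1 h2 h3 => by rw [vp_pow]; exact hS x y n h1 h2 h3) hl 1 0 0 1 le_rfl le_rfl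
    (by simpa using Lead.Eqv.refl _) (by simpa using Lead.Eqv.refl _)
    ⟨vp M 2 * L.p, by simpa using hp, by rw [← mul_assoc, ← sq]⟩
    (frac w).1 (frac w).2 (by simp) (by simp)
  rw [vp_pow] at hm
  exact ⟨one_le_frac w, hm, hm.trans (Lead.reorder ha hb hca hcb hab _ _).symm⟩

end Pool.Agent.Lib.MP_5b31c3_gt
end

-- part Pool.Agent.Lib.MP_5b31c3_gt.AlgMove
section

/-
Moving from the vertex `p` to the vertices `a` and `b`.
-/

namespace Pool.Agent.Lib.MP_5b31c3_gt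

variable {R : Type*} [CommRing R] {W : Type*} [AddCommGroup W] [Module R W]
variable {A : Rˣ} {M : (Module.End R W)ˣ}

theorem Deg.swap {X : Bool → Module.End R W} {D D' : ℤ} {Λ : Submodule R W} (h : Deg M X D Λ)
    (hD : D' = -D) : Deg M (fun e => X (!e)) D' Λ := by
  intro e
  have := h (!e)
  rwa [mp_not, ← hD] at this

theorem Deg.unswap {X : Bool → Module.End R W} {D D' : ℤ} {Λ : Submodule R W}
    (h : Deg M (fun e => X (!e)) D Λ) (hD : D' = -D) : Deg M X D' Λ := by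
  have := h.swap hD
  simpa only [Bool.not_not] using this

theorem Ctx.swap {L : Lvl R W} {Λ : Submodule R W} {D : ℤ} (h : Ctx A M L Λ D) :
    Ctx A⁻¹ M L.swap Λ (-D) :=
  ⟨h.rel.swap, h.lat, h.inv.b, h.inv.a, h.inv.p, h.inv.be.swap (by ring), h.inv.al.swap (by ring),
    h.inv.P.swap rfl⟩

theorem InvA.unswap {L : Lvl R W} {Λ : Submodule R W} {D : ℤ} (h : InvA M L.swap Λ (-D + 1)) :
    InvB M L Λ (D - 1) :=
  ⟨h.b, h.a, h.p, Deg.unswap h.be (by ring), Deg.unswap h.al (by ring), Deg.unswap h.P (by ring)⟩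

theorem AllCont.unswap {L : Lvl R W} {F : ℕ → Submodule R W} (h : AllCont M F L.swap) :
    AllCont M F L :=
  ⟨h.b, h.a, h.p, fun e => by simpa only [Lvl.swap, Bool.not_not] using h.be (!e),
    fun e => by simpa only [Lvl.swap, Bool.not_not] using h.al (!e),
    fun e => by simpa only [Lvl.swap, Bool.not_not] using h.P (!e)⟩

/-- The intersections of two filtrations. -/
def KK (F G : ℕ → Submodule R W) (i : ℤ × ℤ) : Submodule R W := F i.1.toNat ⊓ G i.2.toNat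

theorem mp_KK {F G : ℕ → Submodule R W} (aF : Antitone F) (aG : Antitone G) {T : Module.End R W}
    (i j : ℕ) {k : ℤ × ℤ} (h1 : k.1 ≤ i) (h2 : k.2 ≤ j) (hF : ∀ n, ∀ x ∈ F n, T x ∈ F (n + i))
    (hG : ∀ n, ∀ x ∈ G n, T x ∈ G (n + j)) : Mp (KK F G) T k := by
  rintro ⟨m, n⟩ x ⟨hx, hx'⟩
  refine ⟨aF ?_ (hF _ x hx), aG ?_ (hG _ x hx')⟩
  · simp only [Prod.fst_add]; omega
  · simp only [Prod.snd_add]; omega

theorem of_mp_KK {F G : ℕ → Submodule R W} (aF : Antitone F) (aG : Antitone G)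
    {T : Module.End R W} {k : ℤ × ℤ} (h : Mp (KK F G) T k) {m n : ℤ} {m' n' : ℕ}
    (h1 : m' ≤ (m + k.1).toNat) (h2 : n' ≤ (n + k.2).toNat) {x : W} (hx : x ∈ F m.toNat)
    (hx' : x ∈ G n.toNat) : T x ∈ F m' ∧ T x ∈ G n' :=
  ⟨aF h1 (h (m, n) x ⟨hx, hx'⟩).1, aG h2 (h (m, n) x ⟨hx, hx'⟩).2⟩

theorem move {L LH : Lvl R W} {w : List Bool} (hl : Levels A M L w LH) {Λ : Submodule R W}
    {D : ℤ} (hΛ : Lat M Λ) (hI : InvP M L Λ D)
    {Q : Type*} [AddCommGroup Q] [Module R Q] {X Y : Sh R} (hX : 0 < X.d)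
    {ψ : W →ₗ[R] (ℤ → Q)} (hψ : Fn A M LH X Y ψ) (hb : Bdd ψ Λ) :
    ∃ (Λa Λb : Submodule R W) (ψa ψb : W →ₗ[R] (ℤ → Q)), ψ = ψa + ψb ∧
      Fn A M LH X Y ψa ∧ Fn A M LH X Y ψb ∧ Lat M Λa ∧ Lat M Λb ∧
      InvA M L Λa (D + 1) ∧ InvB M L Λb (D - 1) ∧ Onto M L.b Λa ∧ Onto M L.a Λb ∧
      Bdd ψa Λa ∧ Bdd ψb Λb ∧ (Onto M L.a Λ → Onto M 0 Λa) ∧ (Onto M L.b Λ → Onto M 0 Λb) := by
  have h : Ctx A M L Λ D := ⟨hl.rel_first, hΛ, hI⟩
  have h' := h.swap
  have aI : Antitone (Fl M L.a Λ) := h.anti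
  have aJ : Antitone (Fl M L.b Λ) := h'.anti
  have wI : ∀ l, Pres (vp M 1) (Fl M L.a Λ l) := fun l => h.pw (by norm_num) l
  have wJ : ∀ l, Pres (vp M 1) (Fl M L.b Λ l) := fun l => h'.pw (by norm_num) l
  have hT := hl.rel_last.ca
  have ma : Mp (KK (Fl M L.a Λ) (Fl M L.b Λ)) (vp M 2 * L.a) (1, 0) :=
    mp_KK aI aJ 1 0 le_rfl le_rfl (fun n x hx => Fl.up_a hx) h'.bbar
  have mb : Mp (KK (Fl M L.a Λ) (Fl M L.b Λ)) (vp M 2 * L.b) (0, 1) :=
    mp_KK aI aJ 0 1 le_rfl le_rfl h.bbar (fun n x hx => Fl.up_a hx)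
  have mpp : Mp (KK (Fl M L.a Λ) (Fl M L.b Λ)) (vp M 2 * L.p) ((1, 0) + (0, 1) - (1, 1)) :=
    mp_KK aI aJ 0 0 (by simp) (by simp) h.pbar h'.pbar
  have mt : Mp (KK (Fl M L.a Λ) (Fl M L.b Λ)) (vp M 2 * tau M) ((1, 0) + (0, 1) - (1, 1)) :=
    mp_KK aI aJ 0 0 (by simp) (by simp) h.tbar h'.tbar
  obtain ⟨hs, ⟨u1, E1, hE1, e1⟩, ⟨u2, E2, hE2, e2⟩⟩ :=
    lead hl (KK (Fl M L.a Λ) (Fl M L.b Λ)) (1, 0) (0, 1) (1, 1) ma mb mpp
      (mp_KK aI aJ 1 1 (by simp) (by simp) (fun n x hx => Fl.up_w hx) fun n x hx => Fl.up_w hx)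
      (mp_KK aI aJ 1 1 (by simp) (by simp) (fun n x hx => Fl.up_w hx) fun n x hx => Fl.up_w hx)
      fun x y n hx hy _ => mp_KK aI aJ n n (by simp; omega) (by simp; omega)
        (fun _ _ hz => Ctx.up_vp n hz) fun _ _ hz => Ctx.up_vp n hz
  generalize (frac w).1 = s at hs hE1 e1 hE2 e2
  generalize (frac w).2 = t at hE1 e1 hE2 e2
  have hab : Lead.Eqv (KK (Fl M L.a Λ) (Fl M L.b Λ)) (vp M 2) (1, 1) ((1, 0) + (0, 1))
      (vp M 2 * L.b * (vp M 2 * L.a)) (vp M 2 * L.a * (vp M 2 * L.b)) := by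
    refine ⟨A ^ (-4 : ℤ), (sc A 2 - sc A (-6)) • (vp M 2 * L.p) +
      (2 * (1 - sc A (-4))) • (vp M 2 * tau M), (mpp.smul _).add (mt.smul _), ?_⟩
    rw [bar_mul_bar h.rel.cb, bar_mul_bar h.rel.ca, h.rel.ba]
    simp only [mul_add, mul_smul_comm, add_assoc]
    rfl
  have step : ∀ (n : ℕ) (C : ℤ), s ≤ n → t ≤ n →
      (∀ x ∈ Fl M L.a Λ n, x ∈ Fl M L.b Λ n → ψ x ∈ van R Q C) →
      ∀ x ∈ Fl M L.a Λ (2 * n + 1), x ∈ Fl M L.b Λ (2 * n + 1) → ψ x ∈ van R Q (C + 1) := by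
    intro n C hsn htn hC x hx hx'
    have hC' : ∀ x, x ∈ Fl M L.a Λ n ∧ x ∈ Fl M L.b Λ n → ψ (vp M 2 x) ∈ van R Q (C + 1) :=
      fun x hx => van_mono (by omega) (van_vp hψ.mer 2 (hC x hx.1 hx.2))
    obtain ⟨U, hU, V, hV, e⟩ := h'.two_terms (2 * n + 1) (n + 1) (n + 1) (by omega) x hx'
    change x = ((vp M 2 * L.b) ^ (n + 1)) U + _ at e
    have hVa : ∀ (a : Module.End R W) (j : ℕ), vp M (2 * j) V ∈ Fl M a Λ j := fun a j => by
      have := Ctx.up_vp (M := M) (a := a) (n := 0) j hV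
      rwa [zero_add] at this
    have hU' : U ∈ Fl M L.a Λ (n + 1) := by
      refine h.bpow_inj _ (n + 1) U hU ?_
      rw [eq_sub_of_add_eq e.symm]
      exact Submodule.sub_mem _ (aI (by omega) hx) (hVa _ _)
    obtain ⟨k, hk⟩ : ∃ k, n + 1 = k + s := ⟨n + 1 - s, by omega⟩
    obtain ⟨j, hj⟩ : ∃ j, n + 1 = t + j := ⟨n + 1 - t, by omega⟩
    obtain ⟨z, hz, r, hr, e'⟩ := h.lead_term k s U (hk ▸ hU')
    obtain ⟨u3, E3, hE3, e3⟩ := Lead.reorder ma mb (bar_commute h.rel.ca 2)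
      (bar_commute h.rel.cb 2) hab s j
    have cb : ∀ (i : ℕ) (y : W), ((vp M 2 * L.b) ^ i) (vp M 2 y) =
        vp M 2 (((vp M 2 * L.b) ^ i) y) :=
      fun i y => cvp (pow_comm_M (mul_comm_M (vp_comm_M M 2) h.rel.cb) i) 2 y
    have z0 : z ∈ Fl M L.b Λ (0 : ℤ).toNat := h.le _ hz
    have zk : z ∈ Fl M L.a Λ (k : ℤ).toNat := hz
    have hbz := of_mp_KK aI aJ (mb.pow j) (m' := k) (n' := j) (by simp) (by simp) zk z0
    have t1 : ψ (((vp M 2 * L.b) ^ t * (vp M 2 * L.a) ^ s) (((vp M 2 * L.b) ^ j) z)) ∈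
        van R Q (C + 1) := by
      have e4 := LinearMap.congr_fun e2 (((vp M 2 * L.b) ^ j) z)
      rw [LinearMap.add_apply, LinearMap.smul_apply] at e4
      obtain ⟨i, hi⟩ : ∃ i, s + t = i + 1 := ⟨s + t - 1, by omega⟩
      have h6 : ψ ((vp M (2 * (s + t : ℕ)) * LH.a) (((vp M 2 * L.b) ^ j) z)) ∈
          van R Q (C + 1) := by
        rw [Module.End.mul_apply, ← cvp hT, hψ.loop, hi,
          show 2 * ((i + 1 : ℕ) : ℤ) = 2 + 2 * i by push_cast; ring, ← vp_vp]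
        exact Submodule.smul_mem _ _ (hC' _ ⟨aI (by omega) (Ctx.up_vp i hbz.1),
          aJ (by omega) (Ctx.up_vp i hbz.2)⟩)
      have h7 := hC' _ (of_mp_KK aI aJ hE2 (m := k) (n := j) (m' := n) (n' := n)
        (by simp; omega) (by simp; omega) hbz.1 hbz.2)
      have h8 := Submodule.smul_mem _ ((u2⁻¹ : Rˣ) : R) (Submodule.sub_mem _ h6 h7)
      rwa [e4, map_add, Module.End.mul_apply (vp M 2), add_sub_cancel_right, map_smul, smul_smul,
        Units.inv_mul, one_smul] at h8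
    have hE3z := of_mp_KK aI aJ hE3 (m' := n) (n' := j - 1) (by simp; omega) (by simp) zk z0
    have t2 := hC' _ (of_mp_KK aI aJ (mb.pow t) (m := n) (n := (j - 1 : ℕ)) (m' := n) (n' := n)
      (by simp) (by simp; omega) hE3z.1 hE3z.2)
    have t3 := hC' _ (of_mp_KK aI aJ (mb.pow (n + 1)) (m := n) (n := 0) (m' := n) (n' := n)
      (by simp) (by simp) (x := r) (aI (by simp; omega) hr) (h.le _ hr))
    have t4 := hC' _ ⟨hVa L.a n, hVa L.b n⟩
    have e5 : ((vp M 2 * L.b) ^ (n + 1)) (((vp M 2 * L.a) ^ s) z) =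
        (u3 : R) • ((vp M 2 * L.b) ^ t * (vp M 2 * L.a) ^ s) (((vp M 2 * L.b) ^ j) z) +
          vp M 2 (((vp M 2 * L.b) ^ t) (E3 z)) := by
      have e6 := LinearMap.congr_fun e3 z
      rw [hj, pow_add, Module.End.mul_apply, ← Module.End.mul_apply (_ ^ j), e6,
        LinearMap.add_apply, LinearMap.smul_apply, map_add, map_smul, ← cb]
      rfl
    rw [vp_vp, show (2 : ℤ) + 2 * n = 2 * ((n + 1 : ℕ) : ℤ) by push_cast; ring] at t4
    rw [e, e', map_add, map_add, map_add, e5, map_add, map_smul, cb]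
    exact Submodule.add_mem _ (Submodule.add_mem _ (Submodule.add_mem _
      (Submodule.smul_mem _ _ t1) t2) t3) t4
  have hmeet : ∀ C : ℤ, ∃ l, ∀ x ∈ Fl M L.a Λ l, x ∈ Fl M L.b Λ l → ψ x ∈ van R Q C := by
    obtain ⟨C0, hC0⟩ := hb
    have key : ∀ i : ℕ, ∃ l, s + t ≤ l ∧
        ∀ x ∈ Fl M L.a Λ l, x ∈ Fl M L.b Λ l → ψ x ∈ van R Q (C0 + i) := by
      intro i
      induction i with
      | zero => exact ⟨s + t, le_rfl, fun x hx _ => van_mono (by simp) (hC0 x (h.le _ hx))⟩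
      | succ i ih =>
        obtain ⟨l, h1, h2⟩ := ih
        refine ⟨2 * l + 1, by omega, fun x hx hx' => ?_⟩
        exact van_mono (by push_cast; omega) (step l _ (by omega) (by omega) h2 x hx hx')
    intro C
    obtain ⟨l, -, h2⟩ := key (C - C0).toNat
    exact ⟨l, fun x hx hx' => van_mono (by omega) (h2 x hx hx')⟩
  have hsum : ∀ l, ∀ x ∈ Λ, ∃ i ∈ Fl M L.a Λ l, ∃ j ∈ Fl M L.b Λ l, x = i + j := by
    intro l x hx
    obtain ⟨y, hy, h1⟩ := h.bpow_onto l l x hx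
    have h2 := Ctx.up_pow (M := M) (a := L.b) (n := 0) l hy
    rw [zero_add] at h2
    exact ⟨_, h1, _, h2, (sub_add_cancel _ _).symm⟩
  obtain ⟨φ, hφ, c1, c2, hφb⟩ := split_functional hΛ wI wJ aI aJ rfl rfl hsum hψ.mer hmeet hb
  have cI := h.allCont.levels wI hl
  have cJ := (AllCont.unswap (F := Fl M L.b Λ) h'.allCont).levels wJ hl
  have fb : Fn A M LH X Y φ := by
    refine ⟨hφ _ _ ?_ ?_ (BS.op X) hψ.mer, hφ _ (dl A • 1) cI.a cJ.a (BS.one.smul _) hψ.loop,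
      fun e => hφ _ _ (cI.al e) (cJ.al e) (BS.arcE A X Y e) (hψ.arc e)⟩
    · rw [← vp_neg_one]; exact Cont.vp wI _
    · rw [← vp_neg_one]; exact Cont.vp wJ _
  have fa : Fn A M LH X Y (ψ - φ) := by
    refine ⟨fun x => ?_, fun x => ?_, fun e x => ?_⟩
    · rw [LinearMap.sub_apply, LinearMap.sub_apply, hψ.mer, fb.mer, map_sub]
    · rw [LinearMap.sub_apply, LinearMap.sub_apply, hψ.loop, fb.loop, smul_sub]
    · rw [LinearMap.sub_apply, LinearMap.sub_apply, hψ.arc, fb.arc, map_sub]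
  have hab' : Bdd (ψ - φ) Λ := by
    obtain ⟨C, hC⟩ := hb
    obtain ⟨C', hC'⟩ := hφb
    exact ⟨min C C', fun x hx => Submodule.sub_mem (van R Q (min C C'))
      (van_mono (min_le_left _ _) (hC x hx)) (van_mono (min_le_right _ _) (hC' x hx))⟩
  refine ⟨Up M L.a Λ, Up M L.b Λ, ψ - φ, φ, (sub_add_cancel _ _).symm, fa, fb, h.lat_Up,
    h'.lat_Up, h.invA_Up, h'.invA_Up.unswap, h.onto_Up, h'.onto_Up, ?_, ?_,
    Ctx.onto_zero_Up, Ctx.onto_zero_Up (L := L.swap)⟩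
  · refine h.bdd_Up hT (by omega) (fun n z hz => ?_) e1 fa.mer fa.loop hX c2 hab'
    exact (of_mp_KK aI aJ hE1 (m := n) (n := -t) (n' := 0) (by simp; omega) (Nat.zero_le _) hz
      (by simpa [Fl] using h.le _ hz)).1
  · rw [add_comm s t] at e2
    refine h'.bdd_Up hT (by omega) (fun n z hz => ?_) e2 fb.mer fb.loop hX c1 hφb
    exact (of_mp_KK aI aJ hE2 (m := -s) (n := n) (m' := 0) (Nat.zero_le _) (by simp; omega)
      (by simpa [Fl] using h'.le _ hz) hz).2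

end Pool.Agent.Lib.MP_5b31c3_gt
end
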