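import Pool.Agent.Lib.MP_5b31c3_gt.AlgInv

-- part Pool.Agent.Lib.MP_5b31c3_gt.AlgBasic
section

/-
Elementary facts about the scalars, the powers of the meridian and the closure properties of the
invariants.
-/

namespace Pool.Agent.Lib.MP_5b31c3_gt

variable {R : Type*} [CommRing R] {W : Type*} [AddCommGroup W] [Module R W]
variable {A : Rˣ} {M : (Module.End R W)ˣ}

/-! ### Scalars -/

theorem sc_add (A : Rˣ) (i j : ℤ) : sc A (i + j) = sc A i * sc A j := by
  simp only [sc, zpow_add, Units.val_mul]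

theorem sc_mul_sc (A : Rˣ) (i j : ℤ) : sc A i * sc A j = sc A (i + j) := (sc_add A i j).symm

@[simp] theorem sc_zero (A : Rˣ) : sc A 0 = 1 := by simp [sc]

theorem sc_one (A : Rˣ) : sc A 1 = A := by simp [sc]

theorem sc_isUnit (A : Rˣ) (k : ℤ) : IsUnit (sc A k) := Units.isUnit _

theorem sc_inv (A : Rˣ) (k : ℤ) : sc A⁻¹ k = sc A (-k) := by simp [sc]

theorem sc_mul_neg (A : Rˣ) (k : ℤ) : sc A k * sc A (-k) = 1 := by
  rw [sc_mul_sc, add_neg_cancel, sc_zero]

theorem sc_neg_mul (A : Rˣ) (k : ℤ) : sc A (-k) * sc A k = 1 := by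
  rw [sc_mul_sc, neg_add_cancel, sc_zero]

theorem sc_nat (A : Rˣ) (n : ℕ) : sc A n = sc A 1 ^ n := by simp [sc]

theorem sc_neg_nat (A : Rˣ) (n : ℕ) : sc A (-n) = sc A (-1) ^ n := by simp [sc]

theorem dl_inv (A : Rˣ) : dl A⁻¹ = dl A := by
  simp only [dl, sc_inv, neg_neg]; ring

/-! ### Powers of the meridian -/

theorem mp_add (M : (Module.End R W)ˣ) (e : Bool) (i j : ℤ) :
    mp M e (i + j) = mp M e i * mp M e j := by
  cases e
  · simp only [mp, Bool.false_eq_true, if_false, ← Units.val_mul, ← zpow_add, neg_add]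
  · simp only [mp, if_true, ← Units.val_mul, ← zpow_add]

theorem mp_mul_mp (M : (Module.End R W)ˣ) (e : Bool) (i j : ℤ) :
    mp M e i * mp M e j = mp M e (i + j) := (mp_add M e i j).symm

@[simp] theorem mp_zero (M : (Module.End R W)ˣ) (e : Bool) : mp M e 0 = 1 := by
  cases e <;> simp [mp]

theorem mp_not (M : (Module.End R W)ˣ) (e : Bool) (k : ℤ) : mp M (!e) k = mp M e (-k) := by
  cases e <;> simp [mp]

theorem mp_true_one (M : (Module.End R W)ˣ) : mp M true 1 = M := by simp [mp]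

theorem mp_true (M : (Module.End R W)ˣ) (k : ℤ) : mp M true k = vp M (-k) := by simp [vp]

theorem mp_false (M : (Module.End R W)ˣ) (k : ℤ) : mp M false k = vp M k := by simp [vp, mp]

theorem mp_eq_vp (M : (Module.End R W)ˣ) (e : Bool) (k : ℤ) :
    mp M e k = vp M (if e then -k else k) := by
  cases e
  · simp [mp_false]
  · simp [mp_true]

theorem vp_eq_mp (M : (Module.End R W)ˣ) (e : Bool) (k : ℤ) :
    vp M k = mp M e (if e then -k else k) := by
  cases e
  · simp [mp_false]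
  · simp [mp_true]

theorem vp_add (M : (Module.End R W)ˣ) (i j : ℤ) : vp M (i + j) = vp M i * vp M j := by
  simp only [vp, neg_add, mp_add]

theorem vp_mul_vp (M : (Module.End R W)ˣ) (i j : ℤ) : vp M i * vp M j = vp M (i + j) :=
  (vp_add M i j).symm

theorem vp_vp (M : (Module.End R W)ˣ) (i j : ℤ) (x : W) :
    vp M i (vp M j x) = vp M (i + j) x := by rw [vp_add]; rfl

theorem mp_mp (M : (Module.End R W)ˣ) (e : Bool) (i j : ℤ) (x : W) :
    mp M e i (mp M e j x) = mp M e (i + j) x := by rw [mp_add]; rfl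

@[simp] theorem vp_zero (M : (Module.End R W)ˣ) : vp M 0 = 1 := by simp [vp]

theorem vp_neg_one (M : (Module.End R W)ˣ) : vp M (-1) = M := by simp [vp, mp]

theorem vp_pow (M : (Module.End R W)ˣ) (k : ℤ) (n : ℕ) : vp M k ^ n = vp M (k * n) := by
  induction n with
  | zero => simp
  | succ n ih => rw [pow_succ, ih, vp_mul_vp]; congr 1; push_cast; ring

theorem mp_pow (M : (Module.End R W)ˣ) (e : Bool) (k : ℤ) (n : ℕ) :
    mp M e k ^ n = mp M e (k * n) := by
  induction n with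
  | zero => simp
  | succ n ih => rw [pow_succ, ih, mp_mul_mp]; congr 1; push_cast; ring

theorem isUnit_mp (M : (Module.End R W)ˣ) (e : Bool) (k : ℤ) : IsUnit (mp M e k) :=
  Units.isUnit _

theorem isUnit_vp (M : (Module.End R W)ˣ) (k : ℤ) : IsUnit (vp M k) := Units.isUnit _

theorem commute_mp {T : Module.End R W} (h : T * M = M * T) (e : Bool) (k : ℤ) :
    Commute T (mp M e k) :=
  Commute.units_zpow_right h _

theorem commute_vp {T : Module.End R W} (h : T * M = M * T) (k : ℤ) : Commute T (vp M k) :=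
  commute_mp h _ _

theorem commute_tau {T : Module.End R W} (h : T * M = M * T) : Commute T (tau M) :=
  ((commute_mp h _ _).add_right (commute_mp h _ _)).pow_right 2

theorem mp_comm_M (M : (Module.End R W)ˣ) (e : Bool) (k : ℤ) : mp M e k * M = M * mp M e k :=
  (commute_mp (T := (M : Module.End R W)) rfl e k).symm

theorem vp_comm_M (M : (Module.End R W)ˣ) (k : ℤ) : vp M k * M = M * vp M k := mp_comm_M M _ _

theorem tau_comm_M (M : (Module.End R W)ˣ) : tau M * M = M * tau M :=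
  (commute_tau (T := (M : Module.End R W)) rfl).symm

theorem mp_commute_mp (M : (Module.End R W)ˣ) (e e' : Bool) (i j : ℤ) :
    Commute (mp M e i) (mp M e' j) := commute_mp (mp_comm_M M e i) e' j

theorem vp_commute_mp (M : (Module.End R W)ˣ) (e : Bool) (i j : ℤ) :
    Commute (vp M i) (mp M e j) := mp_commute_mp M _ _ _ _

theorem vp_commute_vp (M : (Module.End R W)ˣ) (i j : ℤ) : Commute (vp M i) (vp M j) :=
  mp_commute_mp M _ _ _ _

theorem tau_commute_mp (M : (Module.End R W)ˣ) (e : Bool) (k : ℤ) : Commute (tau M) (mp M e k) :=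
  commute_mp (tau_comm_M M) e k

theorem tau_commute_vp (M : (Module.End R W)ˣ) (k : ℤ) : Commute (tau M) (vp M k) :=
  commute_vp (tau_comm_M M) k

theorem tau_eq (M : (Module.End R W)ˣ) : tau M = vp M (-2) + (2 : R) • 1 + vp M 2 := by
  rw [tau, sq, add_mul, mul_add, mul_add, mp_mul_mp, mp_mul_mp, mp_mul_mp, mp_mul_mp, two_smul]
  simp only [mp_true, add_neg_cancel, neg_add_cancel, neg_zero, vp_zero]
  rw [show -((1 : ℤ) + 1) = -2 by norm_num, show -((-1 : ℤ) + -1) = 2 by norm_num]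
  abel

theorem tau_eq_mp (M : (Module.End R W)ˣ) (e : Bool) :
    tau M = mp M e 2 + (2 : R) • 1 + mp M e (-2) := by
  rw [tau_eq]
  cases e
  · rw [mp_false, mp_false]; abel
  · rw [mp_true, mp_true, neg_neg]

theorem vp_two_mul_tau (M : (Module.End R W)ˣ) :
    vp M 2 * tau M = 1 + (2 : R) • vp M 2 + vp M 4 := by
  rw [tau_eq, mul_add, mul_add, vp_mul_vp, vp_mul_vp, mul_smul_comm, mul_one]
  norm_num

theorem vp_two_mul_mp_two (M : (Module.End R W)ˣ) (e : Bool) :
    vp M 2 * mp M e 2 = vp M (if e then 0 else 4) := by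
  rw [mp_eq_vp, vp_mul_vp]; cases e <;> simp

theorem vp_two_mul_mp_neg_two (M : (Module.End R W)ˣ) (e : Bool) :
    vp M 2 * mp M e (-2) = vp M (if e then 4 else 0) := by
  rw [mp_eq_vp, vp_mul_vp]; cases e <;> simp

/-! ### Semilinear operators -/

theorem Semi.mp {X : Bool → Module.End R W} (h : Semi A M X) (e : Bool) (k : ℤ) :
    X e * mp M e k = sc A (2 * k) • (mp M e k * X e) := by
  have hneg : X e * MP_5b31c3_gt.mp M e (-1) = sc A (-2) • (MP_5b31c3_gt.mp M e (-1) * X e) := by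
    have h1 : MP_5b31c3_gt.mp M e (-1) * (X e * MP_5b31c3_gt.mp M e 1) *
        MP_5b31c3_gt.mp M e (-1) = MP_5b31c3_gt.mp M e (-1) * X e := by
      rw [mul_assoc, mul_assoc, mp_mul_mp]; simp
    rw [← h1, h e, mul_smul_comm, smul_mul_assoc, smul_smul, sc_neg_mul, one_smul, ← mul_assoc,
      mp_mul_mp]
    simp
  induction k using Int.induction_on with
  | zero => simp
  | succ k ih =>
    rw [mp_add, ← mul_assoc, ih, smul_mul_assoc, mul_assoc, h e, mul_smul_comm, smul_smul,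
      sc_mul_sc, mul_assoc, mul_add, mul_one]
  | pred k ih =>
    rw [sub_eq_add_neg, mp_add, ← mul_assoc, ih, smul_mul_assoc, mul_assoc, hneg, mul_smul_comm,
      smul_smul, sc_mul_sc, mul_assoc, mul_add, mul_neg 2 1, mul_one]

theorem Semi.vp {X : Bool → Module.End R W} (h : Semi A M X) (e : Bool) (k : ℤ) :
    X e * vp M k = sc A (2 * if e then -k else k) • (vp M k * X e) := by
  rw [vp_eq_mp M e k, h.mp]

theorem Semi.mp' {X : Bool → Module.End R W} (h : Semi A M X) (e : Bool) (k : ℤ) :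
    MP_5b31c3_gt.mp M e k * X e = sc A (-(2 * k)) • (X e * MP_5b31c3_gt.mp M e k) := by
  rw [h.mp, smul_smul, sc_neg_mul, one_smul]

theorem Semi.exists_vp {X : Bool → Module.End R W} (h : Semi A M X) (e : Bool) (k : ℤ) :
    ∃ u : Rˣ, X e * MP_5b31c3_gt.vp M k = (u : R) • (MP_5b31c3_gt.vp M k * X e) :=
  ⟨A ^ (2 * if e then -k else k), h.vp e k⟩

theorem Semi.exists_mp {X : Bool → Module.End R W} (h : Semi A M X) (e e' : Bool) (k : ℤ) :
    ∃ u : Rˣ, X e * MP_5b31c3_gt.mp M e' k = (u : R) • (MP_5b31c3_gt.mp M e' k * X e) := by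
  rw [mp_eq_vp]; exact h.exists_vp e _

theorem Semi.swap {X : Bool → Module.End R W} (h : Semi A M X) : Semi A⁻¹ M fun e => X (!e) := by
  intro e
  have := h.mp (!e) (-1)
  rw [mp_not, neg_neg] at this
  rw [this, sc_inv]
  norm_num

/-! ### Levels -/

theorem Levels.rel_first {L LH : Lvl R W} {w : List Bool} (h : Levels A M L w LH) : Rel A M L := by
  cases h with
  | nil h => exact h
  | cons h _ _ => exact h

theorem Levels.rel_last {L LH : Lvl R W} {w : List Bool} (h : Levels A M L w LH) :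
    Rel A M LH := by
  induction h with
  | nil h => exact h
  | cons _ _ _ ih => exact ih

/-! ### Commutation rules -/

namespace Rel
variable {L : Lvl R W}

theorem c_eq (h : Rel A M L) :
    L.c = sc A (-2) • (L.a * L.b) - sc A (-4) • L.p - (2 * sc A (-2)) • tau M := by
  rw [h.L1, smul_add, smul_add, smul_smul, smul_smul, smul_smul, sc_neg_mul, sc_mul_sc, one_smul,
    mul_comm (sc A (-2)) 2]
  norm_num
  abel

theorem ab (h : Rel A M L) : L.a * L.b = sc A 4 • (L.b * L.a) + (sc A (-2) - sc A 6) • L.p +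
    (2 * (1 - sc A 4)) • tau M := by
  have e1 : sc A 4 * sc A (-2) = sc A 2 := by rw [sc_mul_sc]; norm_num
  have e2 : sc A 4 * sc A 2 = sc A 6 := by rw [sc_mul_sc]; norm_num
  rw [h.L1, h.L2, smul_add, smul_add, smul_smul, smul_smul, smul_smul, e1, e2]
  module

theorem ba (h : Rel A M L) : L.b * L.a = sc A (-4) • (L.a * L.b) + (sc A 2 - sc A (-6)) • L.p +
    (2 * (1 - sc A (-4))) • tau M := by
  have e1 : sc A (-4) * sc A 2 = sc A (-2) := by rw [sc_mul_sc]; norm_num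
  have e2 : sc A (-4) * sc A (-2) = sc A (-6) := by rw [sc_mul_sc]; norm_num
  rw [h.L1, h.L2, smul_add, smul_add, smul_smul, smul_smul, smul_smul, e1, e2]
  module

theorem alb (h : Rel A M L) (e : Bool) : L.al e * L.b = sc A 4 • (L.b * L.al e) +
    (sc A (-3) - sc A 5) • (mp M e (-1) * L.P e) + (2 * (1 - sc A 4)) • L.be e := by
  have e1 : sc A 4 * sc A (-1) = sc A 3 := by rw [sc_mul_sc]; norm_num
  have e2 : sc A 4 * sc A 1 = sc A 5 := by rw [sc_mul_sc]; norm_num
  rw [h.K2, h.K2L, smul_add, smul_add, smul_smul, smul_smul, smul_smul, e1, e2]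
  module

theorem bea (h : Rel A M L) (e : Bool) : L.be e * L.a = sc A (-4) • (L.a * L.be e) +
    (sc A 3 - sc A (-5)) • (mp M e 1 * L.P e) + (2 * (1 - sc A (-4))) • L.al e := by
  have e1 : sc A (-4) * sc A 1 = sc A (-3) := by rw [sc_mul_sc]; norm_num
  have e2 : sc A (-4) * sc A (-1) = sc A (-5) := by rw [sc_mul_sc]; norm_num
  rw [h.K1, h.K1L, smul_add, smul_add, smul_smul, smul_smul, smul_smul, e1, e2]
  module

end Rel

/-! ### Closure properties of `Pres` -/

namespace Pres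
variable {S T : Module.End R W} {Λ : Submodule R W}

theorem zero : Pres (0 : Module.End R W) Λ := fun _ _ => Λ.zero_mem

theorem one : Pres (1 : Module.End R W) Λ := fun _ hx => hx

theorem add (hS : Pres S Λ) (hT : Pres T Λ) : Pres (S + T) Λ :=
  fun x hx => Λ.add_mem (hS x hx) (hT x hx)

theorem sub (hS : Pres S Λ) (hT : Pres T Λ) : Pres (S - T) Λ :=
  fun x hx => Λ.sub_mem (hS x hx) (hT x hx)

theorem neg (hS : Pres S Λ) : Pres (-S) Λ := fun x hx => Λ.neg_mem (hS x hx)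

theorem smul (r : R) (hS : Pres S Λ) : Pres (r • S) Λ := fun x hx => Λ.smul_mem r (hS x hx)

theorem mul (hS : Pres S Λ) (hT : Pres T Λ) : Pres (S * T) Λ := fun x hx => hS _ (hT x hx)

theorem pow (hS : Pres S Λ) (n : ℕ) : Pres (S ^ n) Λ := by
  induction n with
  | zero => rw [pow_zero]; exact one
  | succ n ih => rw [pow_succ]; exact ih.mul hS

theorem vp_of_one (h : Pres (vp M 1) Λ) {k : ℤ} (hk : 0 ≤ k) : Pres (vp M k) Λ := by
  have := h.pow k.toNat
  rwa [vp_pow, one_mul, Int.toNat_of_nonneg hk] at this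

theorem tbar (h : Pres (vp M 2) Λ) : Pres (vp M 2 * tau M) Λ := by
  rw [vp_two_mul_tau, show (4 : ℤ) = 2 + 2 by norm_num, vp_add]
  exact (one.add (h.smul _)).add (h.mul h)

end Pres

theorem Lat.vp {Λ : Submodule R W} (h : Lat M Λ) {k : ℤ} (hk : 0 ≤ k) : Pres (vp M k) Λ :=
  h.stab.vp_of_one hk

theorem Lat.tbar {Λ : Submodule R W} (h : Lat M Λ) : Pres (MP_5b31c3_gt.vp M 2 * tau M) Λ :=
  (h.vp (by norm_num)).tbar

theorem Lat.vp_mp_two {Λ : Submodule R W} (h : Lat M Λ) (e : Bool) :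
    Pres (MP_5b31c3_gt.vp M 2 * mp M e 2) Λ := by
  rw [vp_two_mul_mp_two]; exact h.vp (by cases e <;> simp)

theorem Lat.vp_mp_neg_two {Λ : Submodule R W} (h : Lat M Λ) (e : Bool) :
    Pres (MP_5b31c3_gt.vp M 2 * mp M e (-2)) Λ := by
  rw [vp_two_mul_mp_neg_two]; exact h.vp (by cases e <;> simp)

/-! ### Closure properties of `Mp` -/

namespace Mp
variable {ι : Type*} [AddCommGroup ι] {K : ι → Submodule R W} {S T : Module.End R W} {i j : ι}

theorem zero : Mp K (0 : Module.End R W) j := fun _ _ _ => Submodule.zero_mem _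

theorem one : Mp K (1 : Module.End R W) 0 := fun _ _ hx => by rwa [add_zero]

theorem cast (hS : Mp K S i) (h : i = j) : Mp K S j := h ▸ hS

theorem add (hS : Mp K S j) (hT : Mp K T j) : Mp K (S + T) j :=
  fun i x hx => Submodule.add_mem _ (hS i x hx) (hT i x hx)

theorem sub (hS : Mp K S j) (hT : Mp K T j) : Mp K (S - T) j :=
  fun i x hx => Submodule.sub_mem _ (hS i x hx) (hT i x hx)

theorem neg (hS : Mp K S j) : Mp K (-S) j := fun i x hx => Submodule.neg_mem _ (hS i x hx)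

theorem smul (r : R) (hS : Mp K S j) : Mp K (r • S) j :=
  fun i x hx => Submodule.smul_mem _ r (hS i x hx)

theorem mul (hS : Mp K S i) (hT : Mp K T j) : Mp K (S * T) (i + j) := fun k x hx => by
  have := hS _ _ (hT k x hx)
  rwa [add_assoc, add_comm j i] at this

theorem pow (hS : Mp K S i) (n : ℕ) : Mp K (S ^ n) (n • i) := by
  induction n with
  | zero => rw [pow_zero, zero_smul]; exact one
  | succ n ih => rw [pow_succ, succ_nsmul]; exact ih.mul hS

theorem shift (hS : Mp K S i) (h1 : Mp K (1 : Module.End R W) j) : Mp K S (i + j) := by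
  have := hS.mul h1
  rwa [mul_one] at this

theorem tbar (h : Mp K (vp M 2) 0) : Mp K (vp M 2 * tau M) 0 := by
  rw [vp_two_mul_tau, show (4 : ℤ) = 2 + 2 by norm_num, vp_add]
  exact (one.add (h.smul _)).add ((h.mul h).cast (add_zero _))

end Mp

end Pool.Agent.Lib.MP_5b31c3_gt
end

-- part Pool.Agent.Lib.MP_5b31c3_gt.Torus
section

/-
The quantum torus of weighted shifts and the Chebyshev transform.
-/

namespace Pool.Agent.Lib.MP_5b31c3_gt

variable {R : Type*} [CommRing R] {A : Rˣ}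

theorem tor_ind {P : ℤ → Prop} (a : ℤ) (h0 : P a) (h1 : P (a + 1))
    (up : ∀ i, P (i - 1) → P i → P (i + 1)) (down : ∀ i, P (i + 1) → P i → P (i - 1)) (i : ℤ) :
    P i := by
  have key : ∀ j : ℤ, P (a + j) ∧ P (a + j + 1) := by
    intro j
    induction j using Int.induction_on with
    | zero => simpa using ⟨h0, h1⟩
    | succ n ih =>
      have e : a + (n + 1) = a + n + 1 := by ring
      rw [e]
      exact ⟨ih.2, up _ (by simpa using ih.1) ih.2⟩
    | pred n ih =>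
      have e : a + (-n - 1) = a + -n - 1 := by ring
      rw [e]
      exact ⟨down _ ih.2 ih.1, by simpa using ih.1⟩
  simpa using (key (i - a)).1

theorem tor_sc_add (A : Rˣ) (j k : ℤ) : sc A (j + k) = sc A j * sc A k := by
  simp only [sc, zpow_add, Units.val_mul]

theorem tor_sc_zero (A : Rˣ) : sc A 0 = 1 := by simp [sc]

theorem tor_sc_smul {V : Type*} [AddCommMonoid V] [Module R V] (j k : ℤ) (x : V) :
    sc A j • sc A k • x = sc A (j + k) • x := by rw [tor_sc_add, mul_smul]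

theorem tor_sc_cancel {V : Type*} [AddCommGroup V] [Module R V] (k : ℤ) {x : V}
    (h : sc A k • x = 0) : x = 0 := by
  have h1 := congrArg (fun y => sc A (-k) • y) h
  simpa only [tor_sc_smul, neg_add_cancel, tor_sc_zero, one_smul, smul_zero] using h1

/-- Scalars as a homomorphism. -/
def torScal (R : Type*) [CommRing R] : Rˣ →* Sh R where
  toFun := Sh.scal
  map_one' := rfl
  map_mul' _ _ := Sh.ext (add_zero _).symm rfl

theorem tor_scal_comm (a : Rˣ) (X : Sh R) : Commute (Sh.scal a) X := by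
  refine Sh.ext ?_ (funext fun n => ?_)
  · simp [Sh.scal]
  · simp [Sh.scal, mul_comm]

theorem tor_scal_zpow (a : Rˣ) (k : ℤ) : Sh.scal a ^ k = Sh.scal (a ^ k) :=
  (map_zpow (torScal R) a k).symm

theorem tor_scal_inv (a : Rˣ) : (Sh.scal a)⁻¹ = Sh.scal a⁻¹ := (map_inv (torScal R) a).symm

/-- The degree as a homomorphism. -/
def torDeg (R : Type*) [CommRing R] : Sh R →* Multiplicative ℤ where
  toFun X := Multiplicative.ofAdd X.d
  map_one' := rfl
  map_mul' _ _ := rfl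

theorem tor_zpow_d (X : Sh R) (k : ℤ) : (X ^ k).d = k * X.d := by
  have h := congrArg Multiplicative.toAdd (map_zpow (torDeg R) X k)
  simpa [torDeg] using h

theorem TorusPair.zpow {X Y : Sh R} (h : TorusPair A X Y) (k : ℤ) :
    Y * X ^ k = Sh.scal (A ^ (2 * k)) * X ^ k * Y := by
  have h1 : Y * X * Y⁻¹ = Sh.scal (A ^ 2) * X := by
    rw [show Y * X = _ from h, mul_inv_cancel_right]
  have h2 : Y * X ^ k * Y⁻¹ = (Sh.scal (A ^ 2) * X) ^ k := by rw [← h1, conj_zpow]
  rw [(tor_scal_comm _ X).mul_zpow, tor_scal_zpow, ← zpow_natCast, ← zpow_mul] at h2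
  rw [← mul_inv_eq_iff_eq_mul, h2]
  rfl

theorem TorusPair.twist {X Z : Sh R} (h : TorusPair A X Z) (c : Rˣ) (k : ℤ) :
    TorusPair A X (Sh.scal c * X ^ k * Z) := by
  unfold TorusPair at *
  calc Sh.scal c * X ^ k * Z * X = Sh.scal c * X ^ k * (Sh.scal (A ^ 2) * X * Z) := by
        rw [mul_assoc _ Z, h]
    _ = (Sh.scal c * X ^ k * Sh.scal (A ^ 2)) * X * Z := by simp only [mul_assoc]
    _ = Sh.scal (A ^ 2) * (Sh.scal c * (X ^ k * X)) * Z := by
        rw [← (tor_scal_comm (A ^ 2) _).eq]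
        simp only [mul_assoc]
    _ = Sh.scal (A ^ 2) * (X * Sh.scal c * X ^ k) * Z := by
        rw [← (tor_scal_comm c X).eq, ← zpow_add_one, add_comm, zpow_one_add]
        simp only [mul_assoc]
    _ = _ := by simp only [mul_assoc]

theorem TorusPair.rot {X Y : Sh R} (h : TorusPair A X Y) : TorusPair A Y X⁻¹ := by
  unfold TorusPair at *
  calc X⁻¹ * Y = X⁻¹ * (Y * X) * X⁻¹ := by group
    _ = (X⁻¹ * Sh.scal (A ^ 2)) * X * Y * X⁻¹ := by rw [h]; simp only [mul_assoc]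
    _ = _ := by rw [← (tor_scal_comm (A ^ 2) _).eq]; group

theorem TorusPair.inv {X Y : Sh R} (h : TorusPair A X Y) : TorusPair A X⁻¹ Y⁻¹ := h.rot.rot

theorem tor_base (A : Rˣ) :
    TorusPair A (⟨1, fun _ => 1⟩ : Sh R) ⟨0, fun n => -A ^ (-2 * n - 2)⟩ := by
  refine Sh.ext (by simp [Sh.scal]) (funext fun n => ?_)
  simp only [Sh.mul_u, Sh.mul_d, Sh.scal, mul_one, mul_neg, neg_inj]
  rw [← zpow_natCast, ← zpow_add]
  congr 1
  push_cast
  ring

theorem chainPair_torus (A : Rˣ) (a : ℤ) (l : List ℤ) :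
    TorusPair A (chainPair A a l).1 (chainPair A a l).2 := by
  induction l generalizing a with
  | nil => exact (tor_base A).twist _ _
  | cons a' l ih => exact (ih a').rot.twist _ _

theorem chainPair_d (A : Rˣ) (a : ℤ) (l : List ℤ) :
    ∃ s : ℤ, (s = 1 ∨ s = -1) ∧ (chainPair A a l).1.d = s * (coeff (a :: l)).2 ∧
      (chainPair A a l).2.d = -s * (coeff (a :: l)).1 := by
  induction l generalizing a with
  | nil =>
    refine ⟨1, Or.inl rfl, by simp [chainPair, coeff], ?_⟩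
    simp [chainPair, coeff, tor_zpow_d, Sh.scal]
  | cons a' l ih =>
    obtain ⟨s, hs, h1, h2⟩ := ih a'
    refine ⟨-s, by omega, h2, ?_⟩
    change (Sh.scal (A ^ (-a)) * (chainPair A a' l).2 ^ (-a) * (chainPair A a' l).1⁻¹).d =
      - -s * (a * (coeff (a' :: l)).1 - (coeff (a' :: l)).2)
    rw [Sh.mul_d, Sh.mul_d, Sh.inv_d, tor_zpow_d, h1, h2]
    simp only [Sh.scal]
    ring

section
variable {Q : Type*} [AddCommGroup Q] [Module R Q]

theorem tor_op_scal (k : ℤ) (X : Sh R) :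
    (Sh.scal (A ^ k) * X).op Q = sc A k • X.op Q := by
  ext q n
  simp [Sh.scal, sc, mul_smul]

theorem lam_inv (X Y : Sh R) (k : ℤ) : lam A X⁻¹ Y⁻¹ k Q = lam A X Y k Q := by
  simp only [lam, inv_zpow', neg_neg, inv_inv, add_comm]

theorem mer_inv (X : Sh R) : mer X⁻¹ Q = mer X Q := by
  simp only [mer, inv_inv, add_comm]

theorem tor_arc (X Y : Sh R) :
    sc A 2 • ((X.op Q - X⁻¹.op Q) ^ 2 * Y.op Q) = lam A X Y 2 Q -
      (2 * sc A 1) • (X⁻¹.op Q * lam A X Y 1 Q) + sc A 2 • ((X⁻¹.op Q) ^ 2 * lam A X Y 0 Q) := by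
  have e2 : sc A 2 = sc A 1 * sc A 1 := tor_sc_add A 1 1
  simp only [lam, pow_two, mul_sub, sub_mul, mul_add, mul_smul_comm, ← Sh.op_mul, tor_sc_zero,
    one_smul]
  have a1 : X ^ (2 : ℤ) * Y = X * X * Y := by rw [zpow_two]
  have a2 : X ^ (-2 : ℤ) * Y⁻¹ = X⁻¹ * X⁻¹ * Y⁻¹ := by group
  have a3 : X⁻¹ * (X ^ (1 : ℤ) * Y) = Y := by group
  have a4 : X⁻¹ * (X ^ (-1 : ℤ) * Y⁻¹) = X⁻¹ * X⁻¹ * Y⁻¹ := by group
  have a5 : X⁻¹ * X⁻¹ * (X ^ (0 : ℤ) * Y) = X⁻¹ * X⁻¹ * Y := by group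
  have a6 : X⁻¹ * X⁻¹ * (X ^ (-0 : ℤ) * Y⁻¹) = X⁻¹ * X⁻¹ * Y⁻¹ := by group
  have a7 : X⁻¹ * X * Y = Y := by group
  have a8 : X * X⁻¹ * Y = Y := by group
  rw [a1, a2, a3, a4, a5, a6, a7, a8, e2]
  module

theorem tor_sq (x y : Module.End R (ℤ → Q)) : (x - y) ^ 2 = (y - x) ^ 2 := by
  simp only [pow_two, mul_sub, sub_mul]
  abel

theorem arcE_eq (X Y : Sh R) (e : Bool) :
    arcE A X Y e Q = lam A X Y 2 Q -
      (2 * sc A 1) • ((if e then X⁻¹ else X).op Q * lam A X Y 1 Q) +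
      sc A 2 • (((if e then X⁻¹ else X).op Q) ^ 2 * lam A X Y 0 Q) := by
  cases e
  · have h := tor_arc (A := A) (Q := Q) X⁻¹ Y⁻¹
    simp only [lam_inv, inv_inv] at h
    simp only [arcE, Bool.false_eq_true, if_false]
    rw [← h, tor_sq]
  · exact tor_arc X Y

theorem tor_semi {X Y : Sh R} (h : TorusPair A X Y) :
    sc A 2 • ((X.op Q - X⁻¹.op Q) ^ 2 * Y.op Q) * X.op Q =
      sc A 2 • (X.op Q * sc A 2 • ((X.op Q - X⁻¹.op Q) ^ 2 * Y.op Q)) := by
  have h1 : Y.op Q * X.op Q = sc A 2 • (X.op Q * Y.op Q) := by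
    rw [← Sh.op_mul, ← Sh.op_mul, ← tor_op_scal, ← mul_assoc, show Y * X = _ from h]
    rfl
  have h2 : Commute (X.op Q) (X⁻¹.op Q) := by
    change _ * _ = _ * _
    rw [← Sh.op_mul, ← Sh.op_mul, mul_inv_cancel, inv_mul_cancel]
  have h3 := (((Commute.refl (X.op Q)).sub_right h2).pow_right 2).eq
  rw [smul_mul_assoc, mul_assoc, h1, mul_smul_comm, mul_smul_comm, ← mul_assoc, ← mul_assoc, h3]

theorem arcE_semi {X Y : Sh R} (h : TorusPair A X Y) (e : Bool) :
    arcE A X Y e Q * (if e then X else X⁻¹).op Q =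
      sc A 2 • ((if e then X else X⁻¹).op Q * arcE A X Y e Q) := by
  cases e
  · have h1 := tor_semi (Q := Q) h.inv
    simp only [inv_inv] at h1
    simp only [arcE, Bool.false_eq_true, if_false]
    rw [tor_sq]
    exact h1
  · exact tor_semi h

/-- Twisting the longitude shifts the index. -/
theorem tor_lam_twist {X Z : Sh R} (h : TorusPair A X Z) (a j : ℤ) :
    lam A X (Sh.scal (A ^ (-a)) * X ^ (-a) * Z) (a + j) Q = lam A X Z j Q := by
  have h1 : X ^ (a + j) * (Sh.scal (A ^ (-a)) * X ^ (-a) * Z) =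
      Sh.scal (A ^ (-a)) * (X ^ j * Z) := by
    rw [← mul_assoc, ← mul_assoc, ← (tor_scal_comm _ _).eq]
    group
  have h2 : X ^ (-(a + j)) * (Sh.scal (A ^ (-a)) * X ^ (-a) * Z)⁻¹ =
      Sh.scal (A ^ a) * (Sh.scal (A ^ (2 * -a)) * (X ^ (-j) * Z⁻¹)) := by
    have h3 := h.inv.zpow (-a)
    rw [inv_zpow', neg_neg] at h3
    rw [mul_inv_rev, mul_inv_rev, tor_scal_inv, ← zpow_neg, ← zpow_neg, neg_neg, ← mul_assoc Z⁻¹,
      h3, ← (tor_scal_comm (A ^ a) _).eq, ← mul_assoc, ← (tor_scal_comm (A ^ a) _).eq, mul_assoc,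
      ← mul_assoc (X ^ (-(a + j))), ← mul_assoc (X ^ (-(a + j))), ← (tor_scal_comm _ _).eq]
    group
  unfold lam
  rw [h1, h2, tor_op_scal, tor_op_scal, tor_op_scal, smul_add, smul_add, tor_sc_smul, tor_sc_smul,
    tor_sc_smul]
  congr 3 <;> ring

theorem chain_mer (a a' : ℤ) (l : List ℤ) :
    mer (chainPair A a (a' :: l)).1 Q = lam A (chainPair A a' l).1 (chainPair A a' l).2 0 Q := by
  simp [chainPair, mer, lam, tor_sc_zero]

theorem tor_chain (a a' j : ℤ) (l : List ℤ) :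
    lam A (chainPair A a (a' :: l)).1 (chainPair A a (a' :: l)).2 (a + j) Q =
      lam A (chainPair A a' l).2 (chainPair A a' l).1⁻¹ j Q :=
  tor_lam_twist (chainPair_torus A a' l).rot a j

theorem chain_lam (a a' : ℤ) (l : List ℤ) :
    lam A (chainPair A a (a' :: l)).1 (chainPair A a (a' :: l)).2 a Q =
      mer (chainPair A a' l).1 Q := by
  have h := tor_chain (A := A) (Q := Q) a a' 0 l
  rw [add_zero] at h
  rw [h]
  simp [mer, lam, tor_sc_zero, add_comm]

theorem tor_op_pair {X Y : Sh R} (h : TorusPair A X Y) :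
    (Y * X).op Q = sc A 2 • (X * Y).op Q := by
  rw [← tor_op_scal, ← mul_assoc, show Y * X = _ from h]
  rfl

theorem chain_lam_succ (a a' : ℤ) (l : List ℤ) :
    lam A (chainPair A a (a' :: l)).1 (chainPair A a (a' :: l)).2 (a + 1) Q =
      lam A (chainPair A a' l).1 (chainPair A a' l).2 (-1) Q := by
  have h := chainPair_torus A a' l
  have h1 := tor_op_pair (Q := Q) h.rot
  have h2 := tor_op_pair (Q := Q) h.rot.inv
  rw [tor_chain]
  simp only [lam, zpow_neg, zpow_one, inv_inv, neg_neg] at h1 h2 ⊢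
  rw [h1, h2, ← smul_add, tor_sc_smul]
  rfl

theorem chain_lam_pred (a a' : ℤ) (l : List ℤ) :
    lam A (chainPair A a (a' :: l)).1 (chainPair A a (a' :: l)).2 (a - 1) Q =
      lam A (chainPair A a' l).1 (chainPair A a' l).2 1 Q := by
  have h := chainPair_torus A a' l
  have h1 := tor_op_pair (Q := Q) h
  have h2 := tor_op_pair (Q := Q) h.inv
  rw [sub_eq_add_neg, tor_chain]
  simp only [lam, zpow_neg, zpow_one, inv_inv, neg_neg] at h1 h2 ⊢
  rw [h1, h2, ← smul_add, tor_sc_smul, add_comm ((_ : Sh R).op Q)]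
  rfl

theorem tor_mer_lam (X Y : Sh R) (k : ℤ) :
    mer X Q * lam A X Y k Q = sc A (-1) • lam A X Y (k + 1) Q + sc A 1 • lam A X Y (k - 1) Q := by
  simp only [mer, lam, mul_smul_comm, add_mul, mul_add, ← Sh.op_mul, tor_sc_smul]
  have a1 : X * (X ^ k * Y) = X ^ (k + 1) * Y := by group
  have a2 : X⁻¹ * (X ^ k * Y) = X ^ (k - 1) * Y := by group
  have a3 : X * (X ^ (-k) * Y⁻¹) = X ^ (-(k - 1)) * Y⁻¹ := by group
  have a4 : X⁻¹ * (X ^ (-k) * Y⁻¹) = X ^ (-(k + 1)) * Y⁻¹ := by group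
  have a5 : -1 + (k + 1) = k := by ring
  have a6 : 1 + (k - 1) = k := by ring
  rw [a1, a2, a3, a4, a5, a6]
  module

/-- Two consecutive values and the inner recursion determine all twisted longitudes. -/
theorem lam_rec (X Y : Sh R) (q : ℤ → Q) (g : ℤ → ℤ → Q) (a : ℤ)
    (h0 : g a = lam A X Y a Q q) (h1 : g (a + 1) = lam A X Y (a + 1) Q q)
    (hrec : ∀ k, mer X Q (g k) = sc A (-1) • g (k + 1) + sc A 1 • g (k - 1)) (k : ℤ) :
    g k = lam A X Y k Q q := by
  have hl : ∀ k, mer X Q (lam A X Y k Q q) =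
      sc A (-1) • lam A X Y (k + 1) Q q + sc A 1 • lam A X Y (k - 1) Q q := fun k =>
    LinearMap.congr_fun (tor_mer_lam X Y k) q
  refine tor_ind (P := fun k => g k = lam A X Y k Q q) a h0 h1 (fun i a1 a2 => ?_)
    (fun i a1 a2 => ?_) k
  · have h := hrec i
    rw [a1, a2, hl, add_left_inj, ← sub_eq_zero, ← smul_sub] at h
    exact (sub_eq_zero.1 (tor_sc_cancel _ h)).symm
  · have h := hrec i
    rw [a1, a2, hl, add_right_inj, ← sub_eq_zero, ← smul_sub] at h
    exact (sub_eq_zero.1 (tor_sc_cancel _ h)).symm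

/-- The shift of sequences. -/
def torShift (R : Type*) [CommRing R] (Q : Type*) [AddCommGroup Q] [Module R Q] :
    Module.End R (ℕ → Q) := LinearMap.funLeft R Q Nat.succ

/-- The Chebyshev transform of a sequence. -/
noncomputable def cheb (R : Type*) [CommRing R] {Q : Type*} [AddCommGroup Q] [Module R Q] :
    (ℕ → Q) →ₗ[R] (ℤ → Q) :=
  LinearMap.pi fun i => (LinearMap.proj 0).comp
    (Polynomial.aeval (torShift R Q) (Polynomial.Chebyshev.S R i))

theorem tor_cheb (T : ℕ → Q) (i : ℤ) :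
    cheb R T i = Polynomial.aeval (torShift R Q) (Polynomial.Chebyshev.S R i) T 0 := rfl

theorem cheb_zero (T : ℕ → Q) : cheb R T 0 = T 0 := by
  simp [tor_cheb]

theorem cheb_anti (T : ℕ → Q) (i : ℤ) : cheb R T (-i - 2) = -cheb R T i := by
  rw [tor_cheb, tor_cheb, Polynomial.Chebyshev.S_neg_sub_two, map_neg]
  rfl

theorem tor_cheb_neg_one (T : ℕ → Q) : cheb R T (-1) = 0 := by
  simp [tor_cheb]

theorem tor_cheb_succ (T : ℕ → Q) (i : ℤ) :
    cheb R T (i + 1) = cheb R (fun m => T (m + 1)) i - cheb R T (i - 1) := by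
  rw [tor_cheb, tor_cheb, tor_cheb, Polynomial.Chebyshev.S_add_one, mul_comm, map_sub, map_mul,
    Polynomial.aeval_X]
  rfl

theorem tor_cheb_one (T : ℕ → Q) : cheb R T 1 = T 1 := by
  have h := tor_cheb_succ (R := R) T 0
  rw [zero_add, zero_sub, tor_cheb_neg_one, sub_zero, cheb_zero] at h
  exact h

theorem tor_cheb_mem (N : Submodule R Q) (n : ℕ) :
    ∀ T : ℕ → Q, (∀ m ≤ n, T m ∈ N) → cheb R T n ∈ N := by
  induction n using Nat.twoStepInduction with
  | zero => exact fun T h => by simpa [cheb_zero] using h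
  | one => exact fun T h => by simpa [tor_cheb_one] using h 1 le_rfl
  | more n ih1 ih2 =>
    intro T h
    have e : ((n + 2 : ℕ) : ℤ) = ((n + 1 : ℕ) : ℤ) + 1 := by push_cast; ring
    have e' : ((n + 1 : ℕ) : ℤ) - 1 = n := by push_cast; ring
    rw [e, tor_cheb_succ, e']
    exact N.sub_mem (ih2 _ fun m hm => h _ (by omega)) (ih1 _ fun m hm => h _ (by omega))

theorem cheb_mem (T : ℕ → Q) (N : Submodule R Q) (k : ℕ) (h : ∀ m ≤ k, T m ∈ N) (i : ℤ)
    (hi : |i| ≤ k) : cheb R T i ∈ N := by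
  rw [abs_le] at hi
  rcases lt_trichotomy i (-1) with h1 | rfl | h1
  · obtain ⟨n, hn⟩ := Int.eq_ofNat_of_zero_le (show 0 ≤ -i - 2 by omega)
    have e : i = -(n : ℤ) - 2 := by omega
    rw [e, cheb_anti]
    exact N.neg_mem (tor_cheb_mem N n T fun m hm => h m (by omega))
  · rw [tor_cheb_neg_one]
    exact N.zero_mem
  · obtain ⟨n, rfl⟩ := Int.eq_ofNat_of_zero_le (show 0 ≤ i by omega)
    exact tor_cheb_mem N n T fun m hm => h m (by omega)

theorem cheb_map {Q' : Type*} [AddCommGroup Q'] [Module R Q'] (f : Q →ₗ[R] Q') (T : ℕ → Q)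
    (i : ℤ) : cheb R (fun m => f (T m)) i = f (cheb R T i) := by
  refine tor_ind (P := fun i => ∀ T : ℕ → Q, cheb R (fun m => f (T m)) i = f (cheb R T i)) (-1)
    (fun T => ?_) (fun T => ?_) (fun i a1 a2 T => ?_) (fun i a1 a2 T => ?_) i T
  · rw [tor_cheb_neg_one, tor_cheb_neg_one, map_zero]
  · rw [neg_add_cancel, cheb_zero, cheb_zero]
  · rw [tor_cheb_succ, tor_cheb_succ, map_sub, a1, a2 fun m => T (m + 1)]
  · have h := a1 T
    rw [tor_cheb_succ, tor_cheb_succ, map_sub, a2 fun m => T (m + 1), sub_right_inj] at h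
    exact h

theorem tor_shift_zpow (j : ℤ) : (⟨1, fun _ => 1⟩ : Sh R) ^ j = ⟨j, fun _ => 1⟩ := by
  induction j using Int.induction_on with
  | zero => rfl
  | succ n ih =>
    rw [zpow_add_one, ih]
    exact Sh.ext rfl (funext fun _ => mul_one _)
  | pred n ih =>
    rw [zpow_sub_one, ih]
    exact Sh.ext rfl (funext fun _ => by simp)

theorem tor_lam_base (a j : ℤ) (q : ℤ → Q) (i : ℤ) :
    lam A (chainPair A a []).1 (chainPair A a []).2 (a + j) Q q i =
      -(sc A (-2 * i - 2 - j) • q (i + j)) - sc A (2 * i + 2 - j) • q (i - j) := by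
  have h := tor_lam_twist (Q := Q) (tor_base A) a j
  change lam A (chainPair A a []).1 (chainPair A a []).2 (a + j) Q = _ at h
  rw [h]
  have e1 : sc A (-2 * i - 2 - j) = sc A j * sc A (-2 * (i + j) - 2) := by
    rw [← tor_sc_add]
    congr 1
    ring
  have e2 : sc A (2 * i + 2 - j) = sc A j * sc A (-(-2 * (i + -j) - 2)) := by
    rw [← tor_sc_add]
    congr 1
    ring
  rw [e1, e2]
  simp only [lam, tor_shift_zpow, LinearMap.smul_apply, LinearMap.add_apply, Pi.smul_apply,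
    Pi.add_apply, Sh.op_apply, Sh.mul_u, Sh.mul_d, Sh.inv_u, Sh.inv_d, one_mul, add_zero, neg_zero,
    sub_zero, inv_neg, Units.val_neg, ← zpow_neg, sc, sub_eq_add_neg i j]
  module

/-- The last component of the chain: the filling solid torus. -/
theorem base_stage {C : Type*} (T : C → ℕ → Q) (t : C → C) (D : ℤ → C → C) (a : ℤ)
    (ht : ∀ ξ m, T (t ξ) m = T ξ (m + 1))
    (hin : ∀ k ξ m, T (D k ξ) (m + 1) =
      sc A (-1) • T (D (k + 1) ξ) m + sc A 1 • T (D (k - 1) ξ) m)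
    (hout : ∀ k ξ, T (D k (t ξ)) 0 =
      sc A 1 • T (D (k + 1) ξ) 0 + sc A (-1) • T (D (k - 1) ξ) 0)
    (h0 : ∀ ξ, T (D a ξ) 0 = dl A • T ξ 0)
    (h1 : ∀ ξ, T (D (a + 1) ξ) 0 = -(sc A (-3) • T ξ 1)) (ξ : C) :
    cheb R (T (t ξ)) = mer (chainPair A a []).1 Q (cheb R (T ξ)) ∧
    ∀ k, cheb R (T (D k ξ)) =
      lam A (chainPair A a []).1 (chainPair A a []).2 k Q (cheb R (T ξ)) := by
  have hmer : ∀ (q : ℤ → Q) (i : ℤ), mer (chainPair A a []).1 Q q i = q (i + 1) + q (i - 1) := by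
    intro q i
    simp [mer, chainPair, sub_eq_add_neg]
  have hc : ∀ ξ i, cheb R (T (t ξ)) i = cheb R (T ξ) (i + 1) + cheb R (T ξ) (i - 1) := by
    intro ξ i
    rw [tor_cheb_succ, sub_add_cancel, show T (t ξ) = fun m => T ξ (m + 1) from funext (ht ξ)]
  refine ⟨funext fun i => by rw [hc, hmer], fun k => funext fun i => ?_⟩
  set F : ℤ → (ℤ → Q) → ℤ → Q := fun k q =>
    lam A (chainPair A a []).1 (chainPair A a []).2 k Q q with hF
  have hFj : ∀ k q i, F k q i = -(sc A (-2 * i - 2 - (k - a)) • q (i + (k - a))) -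
      sc A (2 * i + 2 - (k - a)) • q (i - (k - a)) := by
    intro k q i
    rw [← tor_lam_base a (k - a) q i, add_sub_cancel]
  have hFout : ∀ k ξ, F k (cheb R (T (t ξ))) 0 =
      sc A 1 • F (k + 1) (cheb R (T ξ)) 0 + sc A (-1) • F (k - 1) (cheb R (T ξ)) 0 := by
    intro k ξ
    simp only [hFj, hc, smul_sub, smul_neg, smul_add, tor_sc_smul]
    generalize cheb R (T ξ) = q
    obtain ⟨j, rfl⟩ : ∃ j, k = a + j := ⟨k - a, by ring⟩
    ring_nf
    module
  have hz : ∀ k ξ, T (D k ξ) 0 = F k (cheb R (T ξ)) 0 := by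
    intro k
    refine tor_ind (P := fun k => ∀ ξ, T (D k ξ) 0 = F k (cheb R (T ξ)) 0) a (fun ξ => ?_)
      (fun ξ => ?_) (fun k a1 a2 ξ => ?_) (fun k a1 a2 ξ => ?_) k
    · rw [h0, hFj, dl]
      simp only [sub_self, mul_zero, add_zero, sub_zero, zero_add, zero_sub, cheb_zero]
      module
    · rw [h1, hFj]
      simp only [add_sub_cancel_left, mul_zero, zero_add, zero_sub, tor_cheb_one,
        tor_cheb_neg_one, smul_zero, sub_zero]
      rfl
    · have h := hout k ξ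
      rw [a1, a2, hFout, add_left_inj, ← sub_eq_zero, ← smul_sub] at h
      exact (sub_eq_zero.1 (tor_sc_cancel _ h)).symm
    · have h := hout k ξ
      rw [a1, a2, hFout, add_right_inj, ← sub_eq_zero, ← smul_sub] at h
      exact (sub_eq_zero.1 (tor_sc_cancel _ h)).symm
  have hFin : ∀ k q i, F k q (i + 1) + F k q (i - 1) =
      sc A (-1) • F (k + 1) q i + sc A 1 • F (k - 1) q i := by
    intro k q i
    rw [← hmer]
    exact congrFun (LinearMap.congr_fun (tor_mer_lam _ _ k) q) i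
  have hTin : ∀ k i, cheb R (T (D k ξ)) (i + 1) + cheb R (T (D k ξ)) (i - 1) =
      sc A (-1) • cheb R (T (D (k + 1) ξ)) i + sc A 1 • cheb R (T (D (k - 1) ξ)) i := by
    intro k i
    rw [tor_cheb_succ, sub_add_cancel, show (fun m => T (D k ξ) (m + 1)) =
      sc A (-1) • T (D (k + 1) ξ) + sc A 1 • T (D (k - 1) ξ) from funext (hin k ξ), map_add,
      map_smul, map_smul]
    rfl
  refine tor_ind (P := fun i => ∀ k, cheb R (T (D k ξ)) i = F k (cheb R (T ξ)) i) (-1)
    (fun k => ?_) (fun k => ?_) (fun i a1 a2 k => ?_) (fun i a1 a2 k => ?_) i k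
  · have e1 : -1 - (k - a) = -(-1 + (k - a)) - 2 := by ring
    have e2 : -2 * -1 - 2 - (k - a) = 2 * -1 + 2 - (k - a) := by ring
    rw [tor_cheb_neg_one, hFj, e1, cheb_anti, e2, smul_neg, sub_self]
  · rw [neg_add_cancel, cheb_zero, hz]
  · have h := hTin k i
    rw [a1, a2, a2, ← hFin, add_left_inj] at h
    exact h
  · have h := hTin k i
    rw [a1, a2, a2, ← hFin, add_right_inj] at h
    exact h
end

end Pool.Agent.Lib.MP_5b31c3_gt
end

-- part Pool.Agent.Lib.MP_5b31c3_gt.AlgSplit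
section

/-
Splitting a functional along two complementary filtrations of a lattice.
-/

namespace Pool.Agent.Lib.MP_5b31c3_gt

variable {R : Type*} [CommRing R] {W : Type*} [AddCommGroup W] [Module R W]
variable {A : Rˣ} {M : (Module.End R W)ˣ}
variable {Q : Type*} [AddCommGroup Q] [Module R Q]

/-- Sequences that vanish below `C`. -/
def van (R : Type*) [CommRing R] (Q : Type*) [AddCommGroup Q] [Module R Q] (C : ℤ) :
    Submodule R (ℤ → Q) where
  carrier := {q | ∀ i < C, q i = 0}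
  add_mem' := fun {a b} ha hb i hi => by
    change a i + b i = 0
    rw [ha i hi, hb i hi, add_zero]
  zero_mem' := fun _ _ => rfl
  smul_mem' := fun c q hq i hi => by
    change c • q i = 0
    rw [hq i hi, smul_zero]

theorem mem_van {C : ℤ} {q : ℤ → Q} : q ∈ van R Q C ↔ ∀ i < C, q i = 0 := Iff.rfl

theorem van_mono {C C' : ℤ} (h : C' ≤ C) {q : ℤ → Q} (hq : q ∈ van R Q C) : q ∈ van R Q C' :=
  fun i hi => hq i (lt_of_lt_of_le hi h)

theorem op_van (X : Sh R) {C : ℤ} {q : ℤ → Q} (hq : q ∈ van R Q C) :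
    X.op Q q ∈ van R Q (C - X.d) := fun i hi => by
  rw [Sh.op_apply, hq _ (by omega), smul_zero]

/-- Operators on sequences that move supports down by a bounded amount. -/
def BS (T : Module.End R (ℤ → Q)) : Prop :=
  ∃ s : ℕ, ∀ C : ℤ, ∀ q ∈ van R Q C, T q ∈ van R Q (C - s)

namespace BS
variable {S T : Module.End R (ℤ → Q)}

theorem op (X : Sh R) : BS (X.op Q) :=
  ⟨X.d.toNat, fun _ _ hq => van_mono (by omega) (op_van X hq)⟩

theorem one : BS (1 : Module.End R (ℤ → Q)) := ⟨0, fun _ _ hq => van_mono (by omega) hq⟩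

theorem sub (hS : BS S) (hT : BS T) : BS (S - T) := by
  obtain ⟨s, hs⟩ := hS
  obtain ⟨t, ht⟩ := hT
  exact ⟨s + t, fun C q hq => Submodule.sub_mem _ (van_mono (by push_cast; omega) (hs C q hq))
    (van_mono (by push_cast; omega) (ht C q hq))⟩

theorem mul (hS : BS S) (hT : BS T) : BS (S * T) := by
  obtain ⟨s, hs⟩ := hS
  obtain ⟨t, ht⟩ := hT
  exact ⟨s + t, fun C q hq => van_mono (by push_cast; omega) (hs _ _ (ht C q hq))⟩

theorem smul (r : R) (hS : BS S) : BS (r • S) := by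
  obtain ⟨s, hs⟩ := hS
  exact ⟨s, fun C q hq => Submodule.smul_mem _ r (hs C q hq)⟩

theorem arcE (A : Rˣ) (X Y : Sh R) (e : Bool) : BS (arcE A X Y e Q) := by
  unfold MP_5b31c3_gt.arcE
  rw [sq]
  exact smul _ ((((op X).sub (op _)).mul ((op X).sub (op _))).mul (op _))

end BS

theorem van_vp {X : Sh R} {ψ : W →ₗ[R] (ℤ → Q)}
    (hψ : ∀ x, ψ ((M : Module.End R W) x) = X.op Q (ψ x)) (k : ℤ) {C : ℤ} {x : W}
    (hx : ψ x ∈ van R Q C) : ψ (vp M k x) ∈ van R Q (C + k * X.d) := by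
  have hM : ∀ y, vp M (-1) y = (M : Module.End R W) y := fun y => by rw [vp_neg_one]
  have h1 : ∀ y, ψ (vp M 1 y) = X⁻¹.op Q (ψ y) := by
    intro y
    have h2 : ψ y = X.op Q (ψ (vp M 1 y)) := by
      rw [← hψ, ← hM, vp_vp]
      simp
    rw [h2, ← Module.End.mul_apply, ← Sh.op_mul, inv_mul_cancel, Sh.op_one]
    rfl
  induction k using Int.induction_on with
  | zero => simpa using hx
  | succ k ih =>
    rw [add_comm (k : ℤ) 1, ← vp_vp, h1]
    refine van_mono (le_of_eq ?_) (op_van _ ih)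
    rw [Sh.inv_d]; ring
  | pred k ih =>
    rw [show -(k : ℤ) - 1 = -1 + -k by ring, ← vp_vp, hM, hψ]
    refine van_mono (le_of_eq ?_) (op_van _ ih)
    ring

/-- Operators that are continuous for the filtration `F`. -/
def Cont (M : (Module.End R W)ˣ) (F : ℕ → Submodule R W) (T : Module.End R W) : Prop :=
  ∃ N0 : ℕ, ∀ (l : ℕ) (N : ℤ) (x : W), vp M N x ∈ F l → vp M (N + N0) (T x) ∈ F l

theorem vp_up {F : Submodule R W} (hF : Pres (vp M 1) F) {N N' : ℤ} (h : N ≤ N') {x : W}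
    (hx : vp M N x ∈ F) : vp M N' x ∈ F := by
  have := hF.vp_of_one (k := N' - N) (by omega) _ hx
  rwa [vp_vp, sub_add_cancel] at this

namespace Cont
variable {F : ℕ → Submodule R W} {S T : Module.End R W}

theorem add (hF : ∀ l, Pres (vp M 1) (F l)) (hS : Cont M F S) (hT : Cont M F T) :
    Cont M F (S + T) := by
  obtain ⟨s, hs⟩ := hS
  obtain ⟨t, ht⟩ := hT
  refine ⟨s + t, fun l N x hx => ?_⟩
  rw [LinearMap.add_apply, map_add]
  exact Submodule.add_mem _ (vp_up (hF l) (by push_cast; omega) (hs l N x hx))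
    (vp_up (hF l) (by push_cast; omega) (ht l N x hx))

theorem smul (r : R) (hS : Cont M F S) : Cont M F (r • S) := by
  obtain ⟨s, hs⟩ := hS
  refine ⟨s, fun l N x hx => ?_⟩
  rw [LinearMap.smul_apply, map_smul]
  exact Submodule.smul_mem _ r (hs l N x hx)

theorem sub (hF : ∀ l, Pres (vp M 1) (F l)) (hS : Cont M F S) (hT : Cont M F T) :
    Cont M F (S - T) := by
  have := hS.add hF (hT.smul (-1))
  rwa [neg_one_smul, ← sub_eq_add_neg] at this

theorem mul (hS : Cont M F S) (hT : Cont M F T) : Cont M F (S * T) := by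
  obtain ⟨s, hs⟩ := hS
  obtain ⟨t, ht⟩ := hT
  refine ⟨t + s, fun l N x hx => ?_⟩
  have := hs l _ _ (ht l N x hx)
  rwa [add_assoc, ← Nat.cast_add] at this

theorem vp (hF : ∀ l, Pres (vp M 1) (F l)) (k : ℤ) : Cont M F (vp M k) := by
  refine ⟨(-k).toNat, fun l N x hx => ?_⟩
  rw [vp_vp]
  exact vp_up (hF l) (by omega) hx

theorem mp (hF : ∀ l, Pres (MP_5b31c3_gt.vp M 1) (F l)) (e : Bool) (k : ℤ) :
    Cont M F (mp M e k) := by
  rw [mp_eq_vp]; exact vp hF _

theorem tau (hF : ∀ l, Pres (MP_5b31c3_gt.vp M 1) (F l)) : Cont M F (tau M) := by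
  unfold MP_5b31c3_gt.tau
  rw [sq]
  exact ((mp hF _ _).add hF (mp hF _ _)).mul ((mp hF _ _).add hF (mp hF _ _))

theorem of_pres (hc : ∀ k : ℤ, ∃ u : Rˣ,
      T * MP_5b31c3_gt.vp M k = (u : R) • (MP_5b31c3_gt.vp M k * T))
    (N0 : ℕ) (h : ∀ l, Pres (MP_5b31c3_gt.vp M N0 * T) (F l)) : Cont M F T := by
  refine ⟨N0, fun l N x hx => ?_⟩
  obtain ⟨u, hu⟩ := hc N
  have h1 := h l _ hx
  have h2 : T (MP_5b31c3_gt.vp M N x) = (u : R) • MP_5b31c3_gt.vp M N (T x) :=
    LinearMap.congr_fun hu x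
  rw [Module.End.mul_apply, h2, map_smul, vp_vp] at h1
  have h3 := Submodule.smul_mem _ ((u⁻¹ : Rˣ) : R) h1
  rwa [smul_smul, Units.inv_mul, one_smul, add_comm] at h3

end Cont

/-- All operators of a level are continuous. -/
structure AllCont (M : (Module.End R W)ˣ) (F : ℕ → Submodule R W) (L : Lvl R W) : Prop where
  a : Cont M F L.a
  b : Cont M F L.b
  p : Cont M F L.p
  al : ∀ e, Cont M F (L.al e)
  be : ∀ e, Cont M F (L.be e)
  P : ∀ e, Cont M F (L.P e)

theorem Rel.G_eq {L : Lvl R W} (h : Rel A M L) (e : Bool) :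
    L.G e = sc A 3 • (mp M e 1 * (L.be e * L.a - sc A 3 • (mp M e 1 * L.P e) -
      (2 : R) • L.al e)) := by
  have h1 : L.be e * L.a - sc A 3 • (mp M e 1 * L.P e) - (2 : R) • L.al e =
      sc A (-3) • (mp M e (-1) * L.G e) := by
    rw [h.K1]; abel
  rw [h1, mul_smul_comm, smul_smul, sc_mul_neg, one_smul, ← mul_assoc, mp_mul_mp]
  simp

theorem AllCont.levels {F : ℕ → Submodule R W} (hF : ∀ l, Pres (vp M 1) (F l))
    {L LH : Lvl R W} {w : List Bool} (hl : Levels A M L w LH) (h : AllCont M F L) :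
    AllCont M F LH := by
  induction hl with
  | nil _ => exact h
  | @cons L L' L'' x w hr hs _ ih =>
    apply ih
    have hc : Cont M F L.c := by
      rw [hr.c_eq]
      exact (((h.a.mul h.b).smul _).sub hF (h.p.smul _)).sub hF ((Cont.tau hF).smul _)
    have hG : ∀ e, Cont M F (L.G e) := fun e => by
      rw [hr.G_eq]
      exact ((Cont.mp hF _ _).mul ((((h.be e).mul h.a).sub hF
        (((Cont.mp hF _ _).mul (h.P e)).smul _)).sub hF ((h.al e).smul _))).smul _
    cases x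
    · obtain ⟨h1, h2, h3, h4⟩ := hs
      refine ⟨h1 ▸ h.a, h2 ▸ hc, h3 ▸ h.b, fun e => ?_, fun e => ?_, fun e => ?_⟩
      · rw [(h4 e).1]; exact ((Cont.mp hF _ _).mul (h.al e)).smul _
      · rw [(h4 e).2.1]; exact hG e
      · rw [(h4 e).2.2]; exact h.be e
    · obtain ⟨h1, h2, h3, h4⟩ := hs
      refine ⟨h1 ▸ hc, h2 ▸ h.b, h3 ▸ h.a, fun e => ?_, fun e => ?_, fun e => ?_⟩
      · rw [(h4 e).1]; exact hG e
      · rw [(h4 e).2.1]; exact ((Cont.mp hF _ _).mul (h.be e)).smul _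
      · rw [(h4 e).2.2]; exact h.al e

/-- The graph of the part of `ψ` that is small on the second filtration, at height `N`. -/
def Gr (M : (Module.End R W)ˣ) (F G : ℕ → Submodule R W) (ψ : W →ₗ[R] (ℤ → Q)) (N : ℤ)
    (v : W) (q : ℤ → Q) : Prop :=
  ∀ l : ℕ, ∃ i j : W, vp M N i ∈ F l ∧ vp M N j ∈ G l ∧ v = i + j ∧ ψ i - q ∈ van R Q l

theorem split_functional {F G : ℕ → Submodule R W} {Λ : Submodule R W} (hΛ : Lat M Λ)
    (hF : ∀ l, Pres (vp M 1) (F l)) (hG : ∀ l, Pres (vp M 1) (G l))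
    (aF : Antitone F) (aG : Antitone G) (F0 : F 0 = Λ) (G0 : G 0 = Λ)
    (hsum : ∀ l, ∀ x ∈ Λ, ∃ i ∈ F l, ∃ j ∈ G l, x = i + j)
    {X : Sh R} {ψ : W →ₗ[R] (ℤ → Q)} (hψ : ∀ x, ψ ((M : Module.End R W) x) = X.op Q (ψ x))
    (hmeet : ∀ C : ℤ, ∃ l, ∀ x ∈ F l, x ∈ G l → ψ x ∈ van R Q C) (hb : Bdd ψ Λ) :
    ∃ φ : W →ₗ[R] (ℤ → Q),
      (∀ (T : Module.End R W) (TQ : Module.End R (ℤ → Q)), Cont M F T → Cont M G T → BS TQ →
        (∀ x, ψ (T x) = TQ (ψ x)) → ∀ x, φ (T x) = TQ (φ x)) ∧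
      (∀ C : ℤ, ∃ l, ∀ x ∈ G l, φ x ∈ van R Q C) ∧
      (∀ C : ℤ, ∃ l, ∀ x ∈ F l, (ψ - φ) x ∈ van R Q C) ∧ Bdd φ Λ := by
  have meetN : ∀ N C : ℤ, ∃ l, ∀ x, vp M N x ∈ F l → vp M N x ∈ G l → ψ x ∈ van R Q C := by
    intro N C
    obtain ⟨l, hl⟩ := hmeet (C + N * X.d)
    refine ⟨l, fun x h1 h2 => ?_⟩
    have := van_vp hψ (-N) (hl _ h1 h2)
    rw [vp_vp, neg_add_cancel, vp_zero] at this
    exact van_mono (le_of_eq (by ring)) this
  have up : ∀ {N N' : ℤ} {v q}, N ≤ N' → Gr M F G ψ N v q → Gr M F G ψ N' v q := by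
    intro N N' v q h hv l
    obtain ⟨i, j, h1, h2, h3, h4⟩ := hv l
    exact ⟨i, j, vp_up (hF l) h h1, vp_up (hG l) h h2, h3, h4⟩
  have uniq : ∀ {N N' : ℤ} {v q q'}, Gr M F G ψ N v q → Gr M F G ψ N' v q' → q = q' := by
    intro N N' v q q' hv hv'
    funext k
    obtain ⟨l0, hl0⟩ := meetN (max N N') (k + 1)
    obtain ⟨i, j, h1, h2, h3, h4⟩ := up (le_max_left N N') hv (max l0 (k + 1).toNat)
    obtain ⟨i', j', h1', h2', h3', h4'⟩ := up (le_max_right N N') hv' (max l0 (k + 1).toNat)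
    have e : i - i' = j' - j := by
      rw [sub_eq_sub_iff_add_eq_add, ← h3, h3', add_comm]
    have h5 := hl0 (i - i')
      (by rw [map_sub]; exact aF (le_max_left _ _) (Submodule.sub_mem _ h1 h1'))
      (by rw [e, map_sub]; exact aG (le_max_left _ _) (Submodule.sub_mem _ h2' h2)) k (by omega)
    have h6 := h4 k (by push_cast; omega)
    have h7 := h4' k (by push_cast; omega)
    rw [map_sub] at h5
    rw [Pi.sub_apply, sub_eq_zero] at h5 h6 h7
    rw [← h6, ← h7, h5]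
  have ex : ∀ (N : ℤ) (v : W), vp M N v ∈ Λ → ∃ q, Gr M F G ψ N v q := by
    intro N v hv
    have h0 : ∀ l, ∃ i j : W, vp M N i ∈ F l ∧ vp M N j ∈ G l ∧ v = i + j := by
      intro l
      obtain ⟨i, hi, j, hj, e⟩ := hsum l _ hv
      refine ⟨vp M (-N) i, vp M (-N) j, by simpa [vp_vp] using hi, by simpa [vp_vp] using hj, ?_⟩
      rw [← map_add, ← e, vp_vp]
      simp
    choose i j hi hj hij using h0
    choose lev hlev using meetN N
    have cmp : ∀ (l l' : ℕ) (C : ℤ), lev C ≤ l → lev C ≤ l' → ψ (i l) - ψ (i l') ∈ van R Q C := by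
      intro l l' C h1 h2
      have e : i l - i l' = j l' - j l := by
        rw [sub_eq_sub_iff_add_eq_add, ← hij l, add_comm, ← hij l']
      rw [← map_sub]
      refine hlev C _ ?_ ?_
      · rw [map_sub]; exact Submodule.sub_mem _ (aF h1 (hi l)) (aF h2 (hi l'))
      · rw [e, map_sub]; exact Submodule.sub_mem _ (aG h2 (hj l')) (aG h1 (hj l))
    refine ⟨fun k => ψ (i (lev (k + 1))) k, fun l => ?_⟩
    refine ⟨i (max l (lev l)), j (max l (lev l)), aF (le_max_left _ _) (hi _),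
      aG (le_max_left _ _) (hj _), hij _, fun k hk => ?_⟩
    rcases le_total (lev (k + 1)) (max l (lev l)) with h | h
    · exact cmp _ _ (k + 1) h le_rfl k (by omega)
    · exact cmp _ _ l (le_max_right _ _) ((le_max_right _ _).trans h) k hk
  have ex' : ∀ v : W, ∃ q, ∃ N : ℤ, Gr M F G ψ N v q := by
    intro v
    obtain ⟨n, hn⟩ := hΛ.full v
    obtain ⟨q, hq⟩ := ex n v hn
    exact ⟨q, n, hq⟩
  choose f Nf hf using ex'
  have gadd : ∀ v v', f (v + v') = f v + f v' := by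
    intro v v'
    refine uniq (hf _) (N' := max (Nf v) (Nf v')) fun l => ?_
    obtain ⟨i, j, h1, h2, h3, h4⟩ := up (le_max_left (Nf v) (Nf v')) (hf v) l
    obtain ⟨i', j', h1', h2', h3', h4'⟩ := up (le_max_right (Nf v) (Nf v')) (hf v') l
    refine ⟨i + i', j + j', by rw [map_add]; exact Submodule.add_mem _ h1 h1',
      by rw [map_add]; exact Submodule.add_mem _ h2 h2', by rw [h3, h3']; abel, ?_⟩
    have := Submodule.add_mem _ h4 h4'
    rwa [map_add, add_sub_add_comm]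
  have gsmul : ∀ (r : R) v, f (r • v) = r • f v := by
    intro r v
    refine uniq (hf _) (N' := Nf v) fun l => ?_
    obtain ⟨i, j, h1, h2, h3, h4⟩ := hf v l
    refine ⟨r • i, r • j, by rw [map_smul]; exact Submodule.smul_mem _ r h1,
      by rw [map_smul]; exact Submodule.smul_mem _ r h2, by rw [h3, smul_add], ?_⟩
    have := Submodule.smul_mem _ r h4
    rwa [map_smul, ← smul_sub]
  have g0 : ∀ v ∈ Λ, ∀ l : ℕ, ∃ i j : W, i ∈ F l ∧ j ∈ G l ∧ v = i + j ∧
      ψ i - f v ∈ van R Q l := by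
    intro v hv l
    obtain ⟨q, hq⟩ := ex 0 v (by simpa using hv)
    rw [uniq (hf v) hq]
    simpa using hq l
  refine ⟨⟨⟨f, gadd⟩, gsmul⟩, ?_, ?_, ?_, ?_⟩
  · rintro T TQ ⟨s, hs⟩ ⟨t, ht⟩ ⟨r, hr⟩ hT x
    change f (T x) = TQ (f x)
    refine uniq (hf _) (N' := Nf x + (s + t : ℕ)) fun l => ?_
    obtain ⟨i, j, h1, h2, h3, h4⟩ := hf x (l + r)
    refine ⟨T i, T j, aF (Nat.le_add_right l r) (vp_up (hF _) (by push_cast; omega) (hs _ _ _ h1)),
      aG (Nat.le_add_right l r) (vp_up (hG _) (by push_cast; omega) (ht _ _ _ h2)),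
      by rw [h3, map_add], ?_⟩
    have := hr _ _ h4
    rw [map_sub, ← hT] at this
    exact van_mono (by push_cast; omega) this
  · intro C
    obtain ⟨l, hl⟩ := hmeet C
    refine ⟨l, fun x hx => ?_⟩
    obtain ⟨i, j, h1, h2, h3, h4⟩ := g0 x (G0 ▸ aG (Nat.zero_le l) hx) (max l C.toNat)
    have h5 : ψ i ∈ van R Q C := by
      refine hl i (aF (le_max_left _ _) h1) ?_
      rw [eq_sub_of_add_eq h3.symm]
      exact Submodule.sub_mem _ hx (aG (le_max_left _ _) h2)
    have h6 := Submodule.sub_mem _ h5 (van_mono (C' := C) (by push_cast; omega) h4)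
    rwa [sub_sub_cancel] at h6
  · intro C
    obtain ⟨l, hl⟩ := hmeet C
    refine ⟨l, fun x hx => ?_⟩
    obtain ⟨i, j, h1, h2, h3, h4⟩ := g0 x (F0 ▸ aF (Nat.zero_le l) hx) (max l C.toNat)
    have h5 : ψ j ∈ van R Q C := by
      refine hl j ?_ (aG (le_max_left _ _) h2)
      rw [eq_sub_of_add_eq' h3.symm]
      exact Submodule.sub_mem _ hx (aF (le_max_left _ _) h1)
    have h6 := Submodule.add_mem _ h5 (van_mono (C' := C) (by push_cast; omega) h4)
    change ψ x - f x ∈ _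
    rwa [← add_sub_assoc, ← map_add, add_comm j i, ← h3] at h6
  · obtain ⟨n, hn⟩ := hb
    refine ⟨n, fun x hx k hk => ?_⟩
    obtain ⟨i, j, h1, h2, h3, h4⟩ := g0 x hx (k + 1).toNat
    have h5 := hn i (F0 ▸ aF (Nat.zero_le _) h1) k hk
    have h6 := h4 k (by omega)
    rw [Pi.sub_apply, h5, zero_sub, neg_eq_zero] at h6
    exact h6

end Pool.Agent.Lib.MP_5b31c3_gt
end
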