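import Pool.Agent.Lib.MP_5b31c3_gt.AlgInv

-- part Pool.Agent.Lib.MP_5b31c3_gt.AlgStep
section

/-
The passage of the invariants through one crossing, and the final steps of the induction.
-/

namespace Pool.Agent.Lib.MP_5b31c3_gt

variable {R : Type*} [CommRing R] {W : Type*} [AddCommGroup W] [Module R W]
variable {A : Rˣ} {M : (Module.End R W)ˣ} {Λ : Submodule R W}

theorem tc_sc_mul (A : Rˣ) (i j : ℤ) : sc A i * sc A j = sc A (i + j) := by
  rw [sc, sc, sc, zpow_add, Units.val_mul]

theorem tc_sc_zero (A : Rˣ) : sc A 0 = 1 := by simp [sc]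

theorem tc_mp_mul (M : (Module.End R W)ˣ) (e : Bool) (i j : ℤ) :
    mp M e i * mp M e j = mp M e (i + j) := by
  rw [mp, mp, mp, ← Units.val_mul, ← zpow_add]
  cases e <;> simp [add_comm]

theorem tc_mp_zero (M : (Module.End R W)ˣ) (e : Bool) : mp M e 0 = 1 := by
  cases e <;> simp [mp]

theorem tc_mp_app (M : (Module.End R W)ˣ) (e : Bool) (i j : ℤ) (x : W) :
    mp M e i (mp M e j x) = mp M e (i + j) x := by
  rw [← tc_mp_mul]; rfl

theorem tc_vp_app (M : (Module.End R W)ˣ) (i j : ℤ) (x : W) :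
    vp M i (vp M j x) = vp M (i + j) x := by
  rw [vp, vp, vp, tc_mp_app, neg_add]

theorem tc_vp_tau (M : (Module.End R W)ˣ) (x : W) :
    vp M 2 (tau M x) = x + (2 : R) • vp M 2 x + vp M 4 x := by
  simp only [tau, vp, sq, Module.End.mul_apply, LinearMap.add_apply, map_add, tc_mp_app, two_smul]
  norm_num [tc_mp_zero]
  abel

/-- An intertwiner of two units intertwines all their powers. -/
theorem tc_zpow {V V' : Type*} [AddCommGroup V] [Module R V] [AddCommGroup V'] [Module R V']
    {m : (Module.End R V)ˣ} {m' : (Module.End R V')ˣ} {f : V →ₗ[R] V'}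
    (h : ∀ x, f ((m : Module.End R V) x) = (m' : Module.End R V') (f x)) (k : ℤ) (x : V) :
    f (((m ^ k : (Module.End R V)ˣ) : Module.End R V) x) =
      ((m' ^ k : (Module.End R V')ˣ) : Module.End R V') (f x) := by
  induction k using Int.induction_on generalizing x with
  | zero => simp
  | succ k ih => rw [zpow_add_one, zpow_add_one, Units.val_mul, Units.val_mul, Module.End.mul_apply,
      Module.End.mul_apply, ih, h]
  | pred k ih =>
    have e : (m' : Module.End R V') (f (((m⁻¹ : (Module.End R V)ˣ) : Module.End R V) x)) = f x := by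
      rw [← h, ← Module.End.mul_apply, Units.mul_inv]; rfl
    rw [zpow_sub_one, zpow_sub_one, Units.val_mul, Units.val_mul, Module.End.mul_apply,
      Module.End.mul_apply, ih, ← e, ← Module.End.mul_apply (m'⁻¹ : (Module.End R V')ˣ).1,
      Units.inv_mul]
    rfl

theorem tc_comm {T : Module.End R W} (h : T * M = M * T) (k : ℤ) (x : W) :
    T (vp M k x) = vp M k (T x) :=
  tc_zpow (f := T) (fun y => LinearMap.congr_fun h y) _ x

theorem Lat.tc_vp2 (h : Lat M Λ) {x : W} (hx : x ∈ Λ) : vp M 2 x ∈ Λ := by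
  have := h.stab _ (h.stab _ hx)
  rwa [tc_vp_app] at this

theorem Lat.tc_tau (h : Lat M Λ) {x : W} (hx : x ∈ Λ) : vp M 2 (tau M x) ∈ Λ := by
  have := h.tc_vp2 (h.tc_vp2 hx)
  rw [tc_vp_app] at this
  rw [tc_vp_tau]
  exact add_mem (add_mem hx (Λ.smul_mem _ (h.tc_vp2 hx))) this

theorem tc_unit {k : ℤ} {x : W} (h : sc A k • x ∈ Λ) : x ∈ Λ := by
  have := Λ.smul_mem (sc A (-k)) h
  rwa [smul_smul, tc_sc_mul, neg_add_cancel, tc_sc_zero, one_smul] at this

variable {L L' : Lvl R W} {D : ℤ}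

theorem tc_c (hR : Rel A M L) (hΛ : Lat M Λ) (hab : Pres (vp M 2 * (L.a * L.b)) Λ)
    (hp : Pres (vp M 2 * L.p) Λ) : Pres (vp M 2 * L.c) Λ := fun x hx => by
  refine tc_unit (A := A) (k := 2) ?_
  have e : sc A 2 • (vp M 2 * L.c) x = (vp M 2 * (L.a * L.b)) x - sc A (-2) • (vp M 2 * L.p) x -
      (2 : R) • vp M 2 (tau M x) := by
    rw [hR.L1]
    simp only [Module.End.mul_apply, LinearMap.add_apply, LinearMap.smul_apply, map_add, map_smul]
    abel
  rw [e]
  exact sub_mem (sub_mem (hab x hx) (Λ.smul_mem _ (hp x hx))) (Λ.smul_mem _ (hΛ.tc_tau hx))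

theorem InvA.tc_c (h : InvA M L Λ D) (hR : Rel A M L) (hΛ : Lat M Λ) : Pres (vp M 2 * L.c) Λ :=
  MP_5b31c3_gt.tc_c hR hΛ (fun x hx => by
    have := h.a _ (h.b x hx)
    rwa [Module.End.mul_apply, tc_comm hR.ca] at this) h.p

theorem InvB.tc_c (h : InvB M L Λ D) (hR : Rel A M L) (hΛ : Lat M Λ) : Pres (vp M 2 * L.c) Λ :=
  MP_5b31c3_gt.tc_c hR hΛ (fun x hx => h.a _ (h.b x hx)) h.p

theorem InvA.tc_G (h : InvA M L Λ D) (hR : Rel A M L) : Deg M L.G (D + 1) Λ := fun e x hx => by
  refine tc_unit (A := A) (k := -3) ?_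
  have e1 : sc A (-3) • (vp M 2 * mp M e (-(D + 1)) * L.G e) x =
      (vp M 2 * mp M e (-D) * L.be e) (L.a x) - sc A 3 • (vp M 2 * mp M e (-(D - 1)) * L.P e) x -
        (2 : R) • (vp M 2 * mp M e (-D) * L.al e) x := by
    have := LinearMap.congr_fun (hR.K1 e) x
    simp only [Module.End.mul_apply, LinearMap.add_apply, LinearMap.smul_apply] at this ⊢
    rw [this]
    simp only [map_add, map_smul, tc_mp_app, neg_add, sub_eq_add_neg]
    abel_nf
  rw [e1]
  exact sub_mem (sub_mem (h.be e _ (h.a x hx)) (Λ.smul_mem _ (h.P e x hx)))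
    (Λ.smul_mem _ (h.al e x hx))

theorem InvB.tc_G (h : InvB M L Λ D) (hR : Rel A M L) : Deg M L.G (D - 1) Λ := fun e x hx => by
  refine tc_unit (A := A) (k := 3) ?_
  have e1 : sc A 3 • (vp M 2 * mp M e (-(D - 1)) * L.G e) x =
      (vp M 2 * mp M e (-D) * L.al e) (L.b x) - sc A (-3) • (vp M 2 * mp M e (-(D + 1)) * L.P e) x -
        (2 : R) • (vp M 2 * mp M e (-D) * L.be e) x := by
    have := LinearMap.congr_fun (hR.K2 e) x
    simp only [Module.End.mul_apply, LinearMap.add_apply, LinearMap.smul_apply] at this ⊢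
    rw [this]
    simp only [map_add, map_smul, tc_mp_app, neg_add, sub_eq_add_neg]
    abel
  rw [e1]
  exact sub_mem (sub_mem (h.al e _ (h.b x hx)) (Λ.smul_mem _ (h.P e x hx)))
    (Λ.smul_mem _ (h.be e x hx))

theorem Deg.tc_shift {X X' : Bool → Module.End R W} (h : Deg M X D Λ) (c : R) (j : ℤ)
    (hX : ∀ e, X' e = c • (mp M e j * X e)) : Deg M X' (D + j) Λ := fun e x hx => by
  have := Λ.smul_mem c (h e x hx)
  simp only [hX, Module.End.mul_apply, LinearMap.smul_apply, map_smul, tc_mp_app] at this ⊢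
  rwa [show -(D + j) + j = -D by ring]

theorem Deg.tc_congr {X X' : Bool → Module.End R W} {D' : ℤ} (h : Deg M X D Λ)
    (hX : ∀ e, X' e = X e) (hD : D' = D) : Deg M X' D' Λ := by
  rwa [funext hX, hD]

theorem InvA.step_false (h : InvA M L Λ D) (hR : Rel A M L) (hΛ : Lat M Λ)
    (hs : Step A M false L L') : InvA M L' Λ (D + 1) :=
  ⟨hs.1 ▸ h.a, hs.2.1 ▸ h.tc_c hR hΛ, hs.2.2.1 ▸ h.b, h.al.tc_shift _ _ fun e => (hs.2.2.2 e).1,
    (h.tc_G hR).tc_congr (fun e => (hs.2.2.2 e).2.1) rfl,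
    h.be.tc_congr (fun e => (hs.2.2.2 e).2.2) (by ring)⟩

theorem InvB.step_true (h : InvB M L Λ D) (hR : Rel A M L) (hΛ : Lat M Λ)
    (hs : Step A M true L L') : InvB M L' Λ (D - 1) :=
  ⟨hs.1 ▸ h.tc_c hR hΛ, hs.2.1 ▸ h.b, hs.2.2.1 ▸ h.a,
    (h.tc_G hR).tc_congr (fun e => (hs.2.2.2 e).1) rfl,
    h.be.tc_shift _ _ fun e => (hs.2.2.2 e).2.1,
    h.al.tc_congr (fun e => (hs.2.2.2 e).2.2) (by ring)⟩

theorem InvA.step_true (h : InvA M L Λ D) (hR : Rel A M L) (hΛ : Lat M Λ)
    (hs : Step A M true L L') : InvP M L' Λ D :=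
  ⟨hs.1 ▸ h.tc_c hR hΛ, hs.2.1 ▸ h.b, hs.2.2.1 ▸ h.a,
    (h.tc_G hR).tc_congr (fun e => (hs.2.2.2 e).1) rfl,
    h.be.tc_shift _ _ fun e => (hs.2.2.2 e).2.1,
    h.al.tc_congr (fun e => (hs.2.2.2 e).2.2) rfl⟩

theorem InvB.step_false (h : InvB M L Λ D) (hR : Rel A M L) (hΛ : Lat M Λ)
    (hs : Step A M false L L') : InvP M L' Λ D :=
  ⟨hs.1 ▸ h.a, hs.2.1 ▸ h.tc_c hR hΛ, hs.2.2.1 ▸ h.b, h.al.tc_shift _ _ fun e => (hs.2.2.2 e).1,
    (h.tc_G hR).tc_congr (fun e => (hs.2.2.2 e).2.1) rfl,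
    h.be.tc_congr (fun e => (hs.2.2.2 e).2.2) rfl⟩

section Seq
variable {Q : Type*} [AddCommGroup Q] [Module R Q] {X Y : Sh R} {LH : Lvl R W}
  {ψ : W →ₗ[R] (ℤ → Q)}

/-- The action of weighted shifts by invertible operators. -/
def opU (Q : Type*) [AddCommGroup Q] [Module R Q] : Sh R →* (Module.End R (ℤ → Q))ˣ :=
  MonoidHom.toHomUnits
    { toFun := fun X => X.op Q
      map_one' := Sh.op_one Q
      map_mul' := fun X Y => Sh.op_mul X Y Q }

theorem opU_val (X : Sh R) : (opU Q X : Module.End R (ℤ → Q)) = X.op Q := rfl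

theorem Sh.tc_zpow_d (X : Sh R) (k : ℤ) : (X ^ k).d = k * X.d := by
  induction k using Int.induction_on with
  | zero => simp
  | succ k ih => rw [zpow_add_one, Sh.mul_d, ih]; ring
  | pred k ih => rw [zpow_sub_one, Sh.mul_d, ih, Sh.inv_d]; ring

theorem tc_mp (h : ∀ x, ψ ((M : Module.End R W) x) = X.op Q (ψ x)) (e : Bool) (k : ℤ) (x : W) :
    ψ (mp M e k x) = (X ^ (if e then k else -k)).op Q (ψ x) := by
  rw [mp, tc_zpow (m' := opU Q X) h, ← map_zpow, opU_val]

theorem tc_mp_zero_iff (h : ∀ x, ψ ((M : Module.End R W) x) = X.op Q (ψ x)) (e : Bool) (k : ℤ)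
    (x : W) (i : ℤ) : ψ (mp M e k x) i = 0 ↔ ψ x (i + (if e then k else -k) * X.d) = 0 := by
  rw [tc_mp h, Sh.op_apply, Sh.tc_zpow_d, ← Units.smul_def, smul_eq_zero_iff_eq]

theorem arcE_exp (A : Rˣ) (X Y : Sh R) (e : Bool) :
    arcE A X Y e Q = sc A 2 • ((X * X * (if e then Y else Y⁻¹)).op Q -
      (2 : R) • (if e then Y else Y⁻¹).op Q + (X⁻¹ * X⁻¹ * (if e then Y else Y⁻¹)).op Q) := by
  rw [arcE, sq]
  simp only [mul_sub, sub_mul, ← Sh.op_mul, mul_inv_cancel, inv_mul_cancel, one_mul, two_smul]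
  congr 1
  abel

theorem tc_improve (hΛ : Lat M Λ) (h : ∀ x, ψ ((M : Module.End R W) x) = X.op Q (ψ x))
    (hb : Bdd ψ Λ) (step : ∀ C : ℤ, (∀ x ∈ Λ, ∀ i < C, ψ x i = 0) → ∀ x ∈ Λ, ψ x C = 0) :
    ψ = 0 := by
  obtain ⟨n, hn⟩ := hb
  have h1 : ∀ C, n ≤ C → ∀ x ∈ Λ, ∀ i < C, ψ x i = 0 := fun C hC => by
    induction C, hC using Int.leInduction with
    | base => exact hn
    | succ C _ ih =>
      intro x hx i hi
      rcases (Int.lt_add_one_iff.1 hi).eq_or_lt with rfl | h'
      exacts [step _ ih x hx, ih x hx i h']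
  ext x i
  obtain ⟨k, hk⟩ := hΛ.full x
  have := (tc_mp_zero_iff h true (-k) x (i + k * X.d)).1
    (h1 (max n (i + k * X.d + 1)) (le_max_left _ _) _ hk _ (by omega))
  simpa using this

theorem tc_onto (hΛ : Lat M Λ) (hX : 0 < X.d) (hψ : Fn A M LH X Y ψ) (hb : Bdd ψ Λ)
    {T : Module.End R W} {c : R} (hT : ∀ x, ψ (T x) = c • ψ x) (ho : Onto M T Λ) : ψ = 0 :=
  tc_improve hΛ hψ.mer hb fun C hC x hx => by
    obtain ⟨y, hy, z, hz, rfl⟩ := ho x hx
    rw [← map_add, vp, tc_mp_zero_iff hψ.mer, map_add, hT, Pi.add_apply, Pi.smul_apply,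
      hC y hy _ (by simp [hX]), hC z hz _ (by simp [hX]), smul_zero, add_zero]

theorem tc_final (hΛ : Lat M Λ) (hX : 0 < X.d) (hψ : Fn A M LH X Y ψ) (hb : Bdd ψ Λ)
    (hD : Deg M LH.al D Λ) (hY : Y.d ≠ D * X.d) : ψ = 0 :=
  tc_improve hΛ hψ.mer hb fun C hC x hx => by
    obtain ⟨e, he⟩ : ∃ e : Bool, (if e then D else -D) * X.d < (if e then Y else Y⁻¹).d := by
      rcases lt_or_gt_of_ne hY with h | h
      · exact ⟨false, by simpa using h⟩
      · exact ⟨true, h⟩
    obtain ⟨Z, hZ⟩ : ∃ Z, Z = if e then Y else Y⁻¹ := ⟨_, rfl⟩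
    obtain ⟨s, hs⟩ : ∃ s, s = if e then D else -D := ⟨_, rfl⟩
    have hs' : (if e then -D else - -D) = -s := by rw [hs]; cases e <;> rfl
    rw [← hZ, ← hs] at he
    have h1 := hC _ (hD e x hx) (C - Z.d + s * X.d) (by omega)
    rw [Module.End.mul_apply, Module.End.mul_apply, vp, tc_mp_zero_iff hψ.mer,
      tc_mp_zero_iff hψ.mer, hψ.arc, arcE_exp, ← hZ, hs'] at h1
    simp only [LinearMap.smul_apply, LinearMap.add_apply, LinearMap.sub_apply, Pi.smul_apply,
      Pi.add_apply, Pi.sub_apply, Sh.op_apply, Sh.mul_d, Sh.inv_d, if_true] at h1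
    rw [hC x hx (_ + Z.d) (by linarith), hC x hx (_ + (-X.d + -X.d + Z.d)) (by linarith),
      smul_zero, smul_zero, smul_zero, sub_zero, add_zero, sc, ← Units.smul_def, ← Units.smul_def,
      smul_eq_zero_iff_eq, smul_eq_zero_iff_eq] at h1
    rwa [show C = C - Z.d + s * X.d + -2 * X.d + -s * X.d + (X.d + X.d + Z.d) by ring]

end Seq

end Pool.Agent.Lib.MP_5b31c3_gt
end

-- part Pool.Agent.Lib.MP_5b31c3_gt.HT
section

/-
Edge paths and continued fractions: the exceptional degrees come from boundary slopes.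
-/

namespace Pool.Agent.Lib.MP_5b31c3_gt

/-- The number of letters `false` minus the number of letters `true`. -/
def htCnt : List Bool → ℤ
  | [] => 0
  | true :: w => htCnt w - 1
  | false :: w => htCnt w + 1

/-- The sum of the signs of the terms. -/
def htSg (l : List ℤ) : ℤ := (l.map Int.sign).sum

theorem ht_frac_pos (w : List Bool) : 1 ≤ (frac w).1 := by
  induction w with
  | nil => exact le_rfl
  | cons b w ih => cases b <;> simp only [frac] <;> omega

theorem htSg_pos (k : ℕ) (hk : 1 ≤ k) (l : List ℤ) : htSg ((k : ℤ) :: l) = 1 + htSg l := by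
  simp only [htSg, List.map_cons, List.sum_cons]
  rw [Int.sign_eq_one_of_pos (by omega)]

theorem htSg_neg (k : ℕ) (hk : 1 ≤ k) (l : List ℤ) : htSg (-(k : ℤ) :: l) = -1 + htSg l := by
  simp only [htSg, List.map_cons, List.sum_cons]
  rw [Int.sign_eq_neg_one_of_neg (by omega)]

/-- The value of the expansion seen from the vertex `a`. -/
def htA (w : List Bool) (k : ℕ) : ℚ := -((frac w).2 : ℚ) / ((frac w).1 + k * (frac w).2)

/-- The value of the expansion seen from the vertex `b`. -/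
def htB (w : List Bool) (k : ℕ) : ℚ := ((frac w).1 : ℚ) / ((frac w).2 + k * (frac w).1)

theorem htA_nil (k : ℕ) : htA [] k = cf [] := by simp [htA, frac, cf]

theorem htB_nil (k : ℕ) : htB [] k = cf [(k : ℤ)] := by simp [htB, frac, cf]

theorem htA_false (w : List Bool) (k : ℕ) : htA (false :: w) k = htA w (k + 1) := by
  simp only [htA, frac]
  push_cast
  congr 1
  ring

theorem htB_true (w : List Bool) (k : ℕ) : htB (true :: w) k = htB w (k + 1) := by
  simp only [htB, frac]
  push_cast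
  congr 1
  ring

theorem htA_true_a (w : List Bool) (k : ℕ) {l : List ℤ} (h : cf l = htA w 1) :
    cf (-((k + 1 : ℕ) : ℤ) :: l) = htA (true :: w) k := by
  have hx : (1 : ℚ) ≤ (frac w).1 := by exact_mod_cast ht_frac_pos w
  have hy : (0 : ℚ) ≤ (frac w).2 := by positivity
  have hk : (0 : ℚ) ≤ k := by positivity
  simp only [cf, h, htA, frac]
  push_cast
  generalize ((frac w).1 : ℚ) = x at *
  generalize ((frac w).2 : ℚ) = y at *
  have h1 : 0 < x + 1 * y := by linarith
  have h2 : 0 < x + k * (x + y) := by positivity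
  have e : -((k : ℚ) + 1) - -y / (x + 1 * y) = -(x + k * (x + y)) / (x + 1 * y) := by
    field_simp
    ring
  rw [e, one_div_div, div_neg, neg_div, one_mul]

theorem htA_true_b (w : List Bool) (k : ℕ) {l : List ℤ} (h : cf l = htB w 1) :
    cf (-(k : ℤ) :: l) = htA (true :: w) k := by
  have hx : (1 : ℚ) ≤ (frac w).1 := by exact_mod_cast ht_frac_pos w
  have hy : (0 : ℚ) ≤ (frac w).2 := by positivity
  have hk : (0 : ℚ) ≤ k := by positivity
  simp only [cf, h, htA, htB, frac]
  push_cast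
  generalize ((frac w).1 : ℚ) = x at *
  generalize ((frac w).2 : ℚ) = y at *
  have h1 : 0 < y + 1 * x := by linarith
  have e : -(k : ℚ) - x / (y + 1 * x) = -(x + k * (x + y)) / (x + y) := by
    rw [one_mul, add_comm y x] at *
    field_simp
    ring
  rw [e, one_div_div, div_neg, neg_div]

theorem htB_false_b (w : List Bool) (k : ℕ) {l : List ℤ} (h : cf l = htB w 1) :
    cf (((k + 1 : ℕ) : ℤ) :: l) = htB (false :: w) k := by
  have hx : (1 : ℚ) ≤ (frac w).1 := by exact_mod_cast ht_frac_pos w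
  have hy : (0 : ℚ) ≤ (frac w).2 := by positivity
  simp only [cf, h, htB, frac]
  push_cast
  generalize ((frac w).1 : ℚ) = x at *
  generalize ((frac w).2 : ℚ) = y at *
  have h1 : 0 < y + 1 * x := by linarith
  have e : ((k : ℚ) + 1) - x / (y + 1 * x) = (y + k * (x + y)) / (x + y) := by
    rw [one_mul, add_comm y x] at *
    field_simp
    ring
  rw [e, one_div_div]

theorem htB_false_a (w : List Bool) (k : ℕ) {l : List ℤ} (h : cf l = htA w 1) :
    cf ((k : ℤ) :: l) = htB (false :: w) k := by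
  have hx : (1 : ℚ) ≤ (frac w).1 := by exact_mod_cast ht_frac_pos w
  have hy : (0 : ℚ) ≤ (frac w).2 := by positivity
  simp only [cf, h, htA, htB, frac]
  push_cast
  generalize ((frac w).1 : ℚ) = x at *
  generalize ((frac w).2 : ℚ) = y at *
  have h1 : 0 < x + 1 * y := by linarith
  have e : (k : ℚ) - -y / (x + 1 * y) = (y + k * (x + y)) / (x + y) := by
    rw [one_mul] at *
    field_simp
    ring
  rw [e, one_div_div]

theorem ht_abs_pos {k : ℕ} (hk : 2 ≤ k) : (2 : ℤ) ≤ |(k : ℤ)| := by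
  rw [abs_of_nonneg (by omega)]
  omega

theorem ht_abs_neg {k : ℕ} (hk : 2 ≤ k) : (2 : ℤ) ≤ |-(k : ℤ)| := by
  rw [abs_neg]
  exact ht_abs_pos hk

/-- Every exceptional degree comes from an expansion with terms of size at least two. -/
theorem ht_path (w : List Bool) : ∀ (k : ℕ) (f : Bool) (D D' : ℤ), 1 ≤ k → (f = false → 2 ≤ k) →
    (D' ∈ bad true f D w → ∃ l : List ℤ, (∀ b ∈ l, 2 ≤ |b|) ∧ cf l = htA w k ∧
      D' = D + htCnt w - 2 * htSg l) ∧
    (D' ∈ bad false f D w → ∃ l : List ℤ, (∀ b ∈ l, 2 ≤ |b|) ∧ cf l = htB w k ∧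
      D' = D + 2 + htCnt w - 2 * htSg l) := by
  induction w with
  | nil =>
    intro k f D D' hk hf
    constructor
    · intro h
      simp only [bad, Finset.mem_singleton] at h
      exact ⟨[], by simp, (htA_nil k).symm, by simp [h, htCnt, htSg]⟩
    · intro h
      cases f
      · simp only [bad, Bool.false_eq_true, if_false, Finset.mem_singleton] at h
        refine ⟨[(k : ℤ)], by simpa using ht_abs_pos (hf rfl), (htB_nil k).symm, ?_⟩
        rw [htSg_pos k hk, h]
        simp [htCnt, htSg]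
      · simp [bad] at h
  | cons c w ih =>
    intro k f D D' hk hf
    cases c
    · constructor
      · intro h
        simp only [bad] at h
        obtain ⟨l, h1, h2, h3⟩ := (ih (k + 1) false (D + 1) D' (by omega) (by omega)).1 h
        exact ⟨l, h1, by rw [h2, htA_false], by simp only [htCnt]; omega⟩
      · intro h
        simp only [bad, Finset.mem_union] at h
        rcases h with h | h
        · obtain ⟨l, h1, h2, h3⟩ := (ih 1 true (D - 1) D' le_rfl (by simp)).2 h
          refine ⟨((k + 1 : ℕ) : ℤ) :: l, ?_, htB_false_b w k h2, ?_⟩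
          · exact List.forall_mem_cons.2 ⟨ht_abs_pos (by omega), h1⟩
          · rw [htSg_pos _ (by omega)]
            simp only [htCnt]
            omega
        · cases f
          · simp only [Bool.false_eq_true, if_false] at h
            obtain ⟨l, h1, h2, h3⟩ := (ih 1 true (D + 1) D' le_rfl (by simp)).1 h
            refine ⟨(k : ℤ) :: l, ?_, htB_false_a w k h2, ?_⟩
            · exact List.forall_mem_cons.2 ⟨ht_abs_pos (hf rfl), h1⟩
            · rw [htSg_pos _ hk]
              simp only [htCnt]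
              omega
          · simp at h
    · constructor
      · intro h
        simp only [bad, Finset.mem_union] at h
        rcases h with h | h
        · obtain ⟨l, h1, h2, h3⟩ := (ih 1 true (D + 1) D' le_rfl (by simp)).1 h
          refine ⟨-((k + 1 : ℕ) : ℤ) :: l, ?_, htA_true_a w k h2, ?_⟩
          · exact List.forall_mem_cons.2 ⟨ht_abs_neg (by omega), h1⟩
          · rw [htSg_neg _ (by omega)]
            simp only [htCnt]
            omega
        · cases f
          · simp only [Bool.false_eq_true, if_false] at h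
            obtain ⟨l, h1, h2, h3⟩ := (ih 1 true (D - 1) D' le_rfl (by simp)).2 h
            refine ⟨-(k : ℤ) :: l, ?_, htA_true_b w k h2, ?_⟩
            · exact List.forall_mem_cons.2 ⟨ht_abs_neg (hf rfl), h1⟩
            · rw [htSg_neg _ hk]
              simp only [htCnt]
              omega
          · simp at h
      · intro h
        simp only [bad] at h
        obtain ⟨l, h1, h2, h3⟩ := (ih (k + 1) false (D - 1) D' (by omega) (by omega)).2 h
        exact ⟨l, h1, by rw [h2, htB_true], by simp only [htCnt]; omega⟩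

/-- The expansion with even terms computes the writhe. -/
theorem ht_seifert (w : List Bool) : ∀ (k : ℕ) (x y z : Bool), 1 ≤ k →
    (perm w (x, y, z)).1 ≠ (perm w (x, y, z)).2.1 →
    (x ≠ y → (Even k ↔ y ≠ z) → ∃ l : List ℤ, (∀ b ∈ l, 2 ≤ |b| ∧ Even b) ∧ cf l = htA w k ∧
      writhe w (x, y, z) = htCnt w - 2 * htSg l) ∧
    (y ≠ z → (Even k ↔ x ≠ y) → ∃ l : List ℤ, (∀ b ∈ l, 2 ≤ |b| ∧ Even b) ∧ cf l = htB w k ∧
      writhe w (x, y, z) = 2 + htCnt w - 2 * htSg l) := by
  have ev2 : ∀ k : ℕ, 1 ≤ k → Even k → 2 ≤ k := by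
    rintro k hk ⟨j, rfl⟩
    omega
  induction w with
  | nil =>
    intro k x y z hk ho
    constructor
    · intro _ _
      exact ⟨[], by simp, (htA_nil k).symm, by simp [writhe, htCnt, htSg]⟩
    · intro _ h
      have he : Even k := h.2 ho
      refine ⟨[(k : ℤ)], ?_, (htB_nil k).symm, ?_⟩
      · exact List.forall_mem_singleton.2 ⟨ht_abs_pos (ev2 k hk he), he.natCast⟩
      · rw [htSg_pos k hk]
        simp [writhe, htCnt, htSg]
  | cons c w ih =>
    intro k x y z hk ho
    cases c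
    · simp only [perm] at ho
      constructor
      · intro h1 h2
        obtain ⟨l, a1, a2, a3⟩ := (ih (k + 1) y x z (by omega) ho).1 h1.symm
          (by rw [Nat.even_add_one, h2]; revert h1; cases x <;> cases y <;> cases z <;> simp)
        refine ⟨l, a1, by rw [a2, htA_false], ?_⟩
        simp only [writhe, htCnt, if_neg h1]
        omega
      · intro h1 h2
        by_cases he : Even k
        · have h3 := h2.1 he
          obtain ⟨l, a1, a2, a3⟩ := (ih 1 y x z le_rfl ho).1 h3.symm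
            (by revert h1 h3; cases x <;> cases y <;> cases z <;> simp)
          refine ⟨(k : ℤ) :: l, ?_, htB_false_a w k a2, ?_⟩
          · exact List.forall_mem_cons.2 ⟨⟨ht_abs_pos (ev2 k hk he), he.natCast⟩, a1⟩
          · rw [htSg_pos _ hk]
            simp only [writhe, htCnt, if_neg h3]
            omega
        · have h3 : x = y := by
            by_contra h
            exact he (h2.2 h)
          subst h3
          obtain ⟨l, a1, a2, a3⟩ := (ih 1 x x z le_rfl ho).2 h1 (by simp)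
          refine ⟨((k + 1 : ℕ) : ℤ) :: l, ?_, htB_false_b w k a2, ?_⟩
          · exact List.forall_mem_cons.2
              ⟨⟨ht_abs_pos (by omega), (Nat.even_add_one.2 he).natCast⟩, a1⟩
          · rw [htSg_pos _ (by omega)]
            simp only [writhe, htCnt, if_true]
            omega
    · simp only [perm] at ho
      constructor
      · intro h1 h2
        by_cases he : Even k
        · have h3 := h2.1 he
          obtain ⟨l, a1, a2, a3⟩ := (ih 1 x z y le_rfl ho).2 h3.symm
            (by revert h1 h3; cases x <;> cases y <;> cases z <;> simp)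
          refine ⟨-(k : ℤ) :: l, ?_, htA_true_b w k a2, ?_⟩
          · exact List.forall_mem_cons.2 ⟨⟨ht_abs_neg (ev2 k hk he), he.natCast.neg⟩, a1⟩
          · rw [htSg_neg _ hk]
            simp only [writhe, htCnt, if_neg h3]
            omega
        · have h3 : y = z := by
            by_contra h
            exact he (h2.2 h)
          subst h3
          obtain ⟨l, a1, a2, a3⟩ := (ih 1 x y y le_rfl ho).1 h1 (by simp)
          refine ⟨-((k + 1 : ℕ) : ℤ) :: l, ?_, htA_true_a w k a2, ?_⟩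
          · exact List.forall_mem_cons.2
              ⟨⟨ht_abs_neg (by omega), (Nat.even_add_one.2 he).natCast.neg⟩, a1⟩
          · rw [htSg_neg _ (by omega)]
            simp only [writhe, htCnt, if_true]
            omega
      · intro h1 h2
        obtain ⟨l, a1, a2, a3⟩ := (ih (k + 1) x z y (by omega) ho).2 h1.symm
          (by rw [Nat.even_add_one, h2]; revert h1; cases x <;> cases y <;> cases z <;> simp)
        refine ⟨l, a1, by rw [a2, htB_true], ?_⟩
        simp only [writhe, htCnt, if_neg h1]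
        omega

theorem ht_top_a (w : List Bool) :
    ((frac (true :: w)).1 : ℚ) / (frac (true :: w)).2 = (1 : ℤ) + htA w 1 := by
  have hx : (1 : ℚ) ≤ (frac w).1 := by exact_mod_cast ht_frac_pos w
  have hy : (0 : ℚ) ≤ (frac w).2 := by positivity
  simp only [frac, htA]
  push_cast
  have h1 : (0 : ℚ) < (frac w).1 + (frac w).2 := by linarith
  rw [one_mul]
  field_simp
  ring

theorem ht_top_b (w : List Bool) :
    ((frac (true :: w)).1 : ℚ) / (frac (true :: w)).2 = (0 : ℤ) + htB w 1 := by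
  simp only [frac, htB]
  push_cast
  rw [one_mul, zero_add, add_comm]

theorem bad_slope (w : List Bool) (x : Bool) (hx : Oriented (true :: w) x) {D : ℤ}
    (hD : D ∈ bad true false 0 (true :: w)) :
    BoundarySlope (((frac (true :: w)).1 : ℚ) / (frac (true :: w)).2)
      ((writhe (true :: w) (x, !x, true) - D : ℤ) : ℚ) := by
  have h1 : ∃ (r : ℤ) (l : List ℤ), (∀ b ∈ l, 2 ≤ |b|) ∧
      ((frac (true :: w)).1 : ℚ) / (frac (true :: w)).2 = r + cf l ∧
      D = 1 + htCnt w - 2 * htSg l := by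
    simp only [bad, Finset.mem_union, Bool.false_eq_true, if_false] at hD
    rcases hD with h | h
    · obtain ⟨l, a1, a2, a3⟩ := (ht_path w 1 true _ D le_rfl (by simp)).1 h
      exact ⟨1, l, a1, by rw [a2, ht_top_a], by omega⟩
    · obtain ⟨l, a1, a2, a3⟩ := (ht_path w 1 true _ D le_rfl (by simp)).2 h
      exact ⟨0, l, a1, by rw [a2, ht_top_b], by omega⟩
  have h2 : ∃ (r : ℤ) (l : List ℤ), (∀ b ∈ l, 2 ≤ |b| ∧ Even b) ∧
      ((frac (true :: w)).1 : ℚ) / (frac (true :: w)).2 = r + cf l ∧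
      writhe (true :: w) (x, !x, true) = 1 + htCnt w - 2 * htSg l := by
    simp only [Oriented, perm] at hx
    cases x
    · obtain ⟨l, a1, a2, a3⟩ := (ht_seifert w 1 _ _ _ le_rfl hx).1 (by simp) (by simp)
      refine ⟨1, l, a1, by rw [a2, ht_top_a], ?_⟩
      simp only [writhe, a3]
      simp
      omega
    · obtain ⟨l, a1, a2, a3⟩ := (ht_seifert w 1 _ _ _ le_rfl hx).2 (by simp) (by simp)
      refine ⟨0, l, a1, by rw [a2, ht_top_b], ?_⟩
      simp only [writhe, a3]
      simp
      omega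
  obtain ⟨r, l, a1, a2, a3⟩ := h1
  obtain ⟨r₀, l₀, b1, b2, b3⟩ := h2
  refine ⟨r, r₀, l, l₀, a1, b1, a2, b2, ?_⟩
  rw [a3, b3]
  simp only [htSg]
  push_cast
  ring

end Pool.Agent.Lib.MP_5b31c3_gt
end
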