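import Pool.Agent.Lib.MP_5b31c3_gt.AlgMove
import Pool.Agent.Lib.MP_5b31c3_gt.HT
import Pool.Agent.Lib.MP_5b31c3_gt.AlgSplit
import Pool.Agent.Lib.MP_5b31c3_gt.AlgInv

-- part Pool.Agent.Lib.MP_5b31c3_gt.AlgTop
section

/-
The lattice of the first level and finite generation modulo the closing relation.
-/

namespace Pool.Agent.Lib.MP_5b31c3_gt

variable {R : Type*} [CommRing R] {W : Type*} [AddCommGroup W] [Module R W]
variable {A : Rˣ} {M : (Module.End R W)ˣ}

namespace TopL

/-- The filtration by the degree in `b`. -/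
def G (M : (Module.End R W)ˣ) (L : Lvl R W) (v : W) (d : ℤ) : Submodule R W :=
  Submodule.span R {x | ∃ i k : ℕ, (k : ℤ) ≤ d ∧ x = vp M i (((vp M 2 * L.b) ^ k) v)}

/-- The union of the filtration. -/
def Lam (M : (Module.End R W)ˣ) (L : Lvl R W) (v : W) : Submodule R W :=
  Submodule.span R {x | ∃ i k : ℕ, x = vp M i (((vp M 2 * L.b) ^ k) v)}

variable {L : Lvl R W} {v : W}

theorem G_mono {d d' : ℤ} (h : d ≤ d') : G M L v d ≤ G M L v d' :=
  Submodule.span_mono fun _ ⟨i, k, hk, e⟩ => ⟨i, k, hk.trans h, e⟩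

theorem G_le_Lam (d : ℤ) : G M L v d ≤ Lam M L v :=
  Submodule.span_mono fun _ ⟨i, k, _, e⟩ => ⟨i, k, e⟩

theorem gen_mem {k : ℕ} {d : ℤ} (h : (k : ℤ) ≤ d) : ((vp M 2 * L.b) ^ k) v ∈ G M L v d :=
  Submodule.subset_span ⟨0, k, h, by simp⟩

theorem gen_mem_Lam (k : ℕ) : ((vp M 2 * L.b) ^ k) v ∈ Lam M L v := G_le_Lam k (gen_mem le_rfl)

theorem G_vp_one (d : ℤ) : Pres (vp M 1) (G M L v d) := by
  intro x hx
  refine (Submodule.span_le (p := (G M L v d).comap (vp M 1))).2 ?_ hx
  rintro _ ⟨i, k, hk, rfl⟩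
  refine Submodule.subset_span ⟨i + 1, k, hk, ?_⟩
  rw [vp_vp]; congr 2; push_cast; ring

theorem Lam_vp_one : Pres (vp M 1) (Lam M L v) := by
  intro x hx
  refine (Submodule.span_le (p := (Lam M L v).comap (vp M 1))).2 ?_ hx
  rintro _ ⟨i, k, rfl⟩
  refine Submodule.subset_span ⟨i + 1, k, ?_⟩
  rw [vp_vp]; congr 2; push_cast; ring

theorem G_vp (d : ℤ) {k : ℤ} (hk : 0 ≤ k) : Pres (vp M k) (G M L v d) := (G_vp_one d).vp_of_one hk

theorem G_two (d : ℤ) : Pres (vp M 2) (G M L v d) := G_vp d (by norm_num)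

theorem mp_of_gen {T : Module.End R W} {j : ℤ} (hc : ∀ k, Commute T (vp M k))
    (h : ∀ k : ℕ, T (((vp M 2 * L.b) ^ k) v) ∈ G M L v (k + j)) : Mp (G M L v) T j := by
  intro d x hx
  refine (Submodule.span_le (p := (G M L v (d + j)).comap T)).2 ?_ hx
  rintro _ ⟨i, k, hk, rfl⟩
  change T (vp M i _) ∈ G M L v (d + j)
  rw [← Module.End.mul_apply, (hc i).eq, Module.End.mul_apply]
  exact G_vp _ (Int.natCast_nonneg i) _ (G_mono (by omega) (h k))

theorem pres_of_gen {T : Module.End R W}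
    (hc : ∀ k, ∃ u : R, T * vp M k = u • (vp M k * T))
    (h : ∀ k : ℕ, T (((vp M 2 * L.b) ^ k) v) ∈ Lam M L v) : Pres T (Lam M L v) := by
  intro x hx
  refine (Submodule.span_le (p := (Lam M L v).comap T)).2 ?_ hx
  rintro _ ⟨i, k, rfl⟩
  change T (vp M i _) ∈ Lam M L v
  obtain ⟨u, hu⟩ := hc i
  rw [← Module.End.mul_apply, hu, LinearMap.smul_apply, Module.End.mul_apply]
  exact Submodule.smul_mem _ _ (Lam_vp_one.vp_of_one (Int.natCast_nonneg i) _ (h k))

theorem pres_of_mp {T : Module.End R W} {j : ℤ} (h : Mp (G M L v) T j) : Pres T (Lam M L v) := by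
  intro x hx
  refine (Submodule.span_le (p := (Lam M L v).comap T)).2 ?_ hx
  rintro _ ⟨i, k, rfl⟩
  exact G_le_Lam _ (h k _ (Submodule.subset_span ⟨i, k, le_rfl, rfl⟩))

theorem mp_vp {k j : ℤ} (hk : 0 ≤ k) (hj : 0 ≤ j) : Mp (G M L v) (vp M k) j :=
  fun d x hx => G_mono (by omega) (G_vp d hk x hx)

theorem succ_apply (k : ℕ) :
    ((vp M 2 * L.b) ^ (k + 1)) v = (vp M 2 * L.b) (((vp M 2 * L.b) ^ k) v) := by
  rw [pow_succ']; rfl

theorem mp_b (h : Rel A M L) : Mp (G M L v) (vp M 2 * L.b) 1 :=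
  mp_of_gen (bar_commute h.cb) fun k => by
    rw [← succ_apply]; exact gen_mem (by push_cast; rfl)

theorem v_mem {d : ℤ} (hd : 0 ≤ d) : v ∈ G M L v d := by
  simpa using gen_mem (M := M) (L := L) (v := v) (k := 0) (d := d) (by simpa using hd)

theorem ap_gen (h : Rel A M L) (ht : Top A M L v) (k : ℕ) :
    L.a (((vp M 2 * L.b) ^ k) v) ∈ G M L v k ∧
      (vp M 2 * L.p) (((vp M 2 * L.b) ^ k) v) ∈ G M L v (k + 1) := by
  induction k with
  | zero =>
    simp only [pow_zero, Module.End.one_apply, Nat.cast_zero, zero_add]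
    refine ⟨?_, ?_⟩
    · rw [ht.a]; exact Submodule.smul_mem _ _ (v_mem le_rfl)
    · rw [Module.End.mul_apply, ht.p, map_sub, map_neg, map_smul, map_smul]
      refine Submodule.sub_mem _ (Submodule.neg_mem _ (Submodule.smul_mem _ _ ?_))
        (Submodule.smul_mem _ _ ?_)
      · simpa using mp_b h 0 v (v_mem le_rfl)
      · exact (G_two 1).tbar v (v_mem zero_le_one)
  | succ k ih =>
    have hz : ((vp M 2 * L.b) ^ k) v ∈ G M L v k := gen_mem le_rfl
    rw [succ_apply]
    generalize ((vp M 2 * L.b) ^ k) v = z at ih hz ⊢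
    have e1 : L.a * (vp M 2 * L.b) = sc A 4 • (vp M 2 * L.b * L.a) +
        (sc A (-2) - sc A 6) • (vp M 2 * L.p) + (2 * (1 - sc A 4)) • (vp M 2 * tau M) := by
      rw [← mul_assoc, (commute_vp h.ca 2).eq, mul_assoc, h.ab]
      simp only [mul_add, mul_smul_comm, mul_assoc]
    have e2 : vp M 2 * L.p * (vp M 2 * L.b) = sc A (-4) • (vp M 2 * L.b * (vp M 2 * L.p)) +
        (sc A 2 - sc A (-6)) • (vp M 2 * (vp M 2 * L.a)) +
        (2 * (1 - sc A (-4))) • (vp M 2 * (vp M 2 * tau M)) := by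
      rw [bar_mul_bar h.cp, bar_mul_bar h.cb, h.L4]
      simp only [mul_add, mul_smul_comm]
    push_cast
    refine ⟨?_, ?_⟩
    · rw [← Module.End.mul_apply, e1]
      exact Submodule.add_mem _ (Submodule.add_mem _ (Submodule.smul_mem _ _ (mp_b h _ _ ih.1))
        (Submodule.smul_mem _ _ ih.2))
        (Submodule.smul_mem _ _ (G_mono (by omega) ((G_two k).tbar z hz)))
    · rw [← Module.End.mul_apply, e2]
      exact Submodule.add_mem _ (Submodule.add_mem _ (Submodule.smul_mem _ _ (mp_b h _ _ ih.2))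
        (Submodule.smul_mem _ _ (G_mono (by omega) (G_two k _ (G_two k _ ih.1)))))
        (Submodule.smul_mem _ _ (G_mono (by omega) (G_two k _ ((G_two k).tbar z hz))))

theorem mp_a (h : Rel A M L) (ht : Top A M L v) : Mp (G M L v) L.a 0 :=
  mp_of_gen (commute_vp h.ca) fun k => by rw [add_zero]; exact (ap_gen h ht k).1

theorem mp_p (h : Rel A M L) (ht : Top A M L v) : Mp (G M L v) (vp M 2 * L.p) 1 :=
  mp_of_gen (bar_commute h.cp) fun k => (ap_gen h ht k).2

theorem lat (h : Rel A M L) (ht : Top A M L v) : Lat M (Lam M L v) := by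
  refine ⟨Lam_vp_one, fun x => ?_⟩
  have hx : x ∈ Submodule.span R {x | ∃ (i : ℤ) (k : ℕ), x = mp M true i ((L.b ^ k) v)} := by
    rw [ht.span]; trivial
  have up : ∀ (y : W) (n m : ℕ), n ≤ m → vp M n y ∈ Lam M L v → vp M m y ∈ Lam M L v := by
    intro y n m hnm hy
    have := Lam_vp_one.vp_of_one (k := (m : ℤ) - n) (by omega) _ hy
    rwa [vp_vp, sub_add_cancel] at this
  induction hx using Submodule.span_induction with
  | mem x hx =>
    obtain ⟨i, k, rfl⟩ := hx
    refine ⟨2 * k + i.toNat, ?_⟩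
    have h1 := Lam_vp_one.vp_of_one (k := (i.toNat : ℤ) - i) (by omega) _
      (gen_mem_Lam (M := M) (L := L) (v := v) k)
    rw [(commute_vp h.cb 2).symm.mul_pow, vp_pow, Module.End.mul_apply, vp_vp] at h1
    rw [mp_true, vp_vp]
    convert h1 using 3
    push_cast; ring
  | zero => exact ⟨0, by simp⟩
  | add x y _ _ hx hy =>
    obtain ⟨n, hn⟩ := hx
    obtain ⟨m, hm⟩ := hy
    exact ⟨max n m, by
      rw [map_add]
      exact Submodule.add_mem _ (up _ _ _ (le_max_left _ _) hn) (up _ _ _ (le_max_right _ _) hm)⟩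
  | smul r x _ hx =>
    obtain ⟨n, hn⟩ := hx
    exact ⟨n, by rw [map_smul]; exact Submodule.smul_mem _ _ hn⟩

theorem semi_bar {X : Bool → Module.End R W} (hX : Semi A M X) (e : Bool) (j k : ℤ) :
    ∃ u : R, vp M 2 * mp M e j * X e * vp M k = u • (vp M k * (vp M 2 * mp M e j * X e)) := by
  obtain ⟨u, hu⟩ := hX.exists_vp e k
  refine ⟨u, ?_⟩
  rw [mul_assoc, hu, mul_smul_comm, ← mul_assoc,
    ((vp_commute_vp M 2 k).mul_left (vp_commute_mp M e k j).symm).eq]
  simp only [mul_assoc]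

theorem arc_gen (h : Rel A M L) (ht : Top A M L v) (e : Bool) (k : ℕ) :
    (vp M 2 * L.al e) (((vp M 2 * L.b) ^ k) v) ∈ Lam M L v ∧
      (vp M 2 * L.be e) (((vp M 2 * L.b) ^ k) v) ∈ Lam M L v ∧
      (vp M 2 * mp M e 1 * L.P e) (((vp M 2 * L.b) ^ k) v) ∈ Lam M L v := by
  have hΛ := lat h ht
  have hb : Pres (vp M 2 * L.b) (Lam M L v) := pres_of_mp (mp_b h)
  have hp : Pres (vp M 2 * L.p) (Lam M L v) := pres_of_mp (mp_p h ht)
  have h2 : Pres (vp M 2) (Lam M L v) := hΛ.vp (by norm_num)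
  have hm := hΛ.vp_mp_two e
  have hm' := hΛ.vp_mp_neg_two e
  induction k with
  | zero =>
    have hv : v ∈ Lam M L v := G_le_Lam 0 (v_mem le_rfl)
    simp only [pow_zero, Module.End.one_apply]
    refine ⟨?_, ?_, ?_⟩
    · rw [Module.End.mul_apply, ht.al, map_add, map_sub, map_smul, map_smul, map_smul]
      exact Submodule.add_mem _ (Submodule.sub_mem _ (Submodule.smul_mem _ _ (hm v hv))
        (Submodule.smul_mem _ _ (h2 v hv))) (Submodule.smul_mem _ _ (hm' v hv))
    · rw [Module.End.mul_apply, ht.be, map_sub, map_sub, map_neg, map_smul, map_smul]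
      exact Submodule.sub_mem _ (Submodule.sub_mem _
        (Submodule.neg_mem _ (Submodule.smul_mem _ _ (hb v hv)))
        (Submodule.smul_mem _ _ (hm v hv))) (hm' v hv)
    · rw [Module.End.mul_apply, Module.End.mul_apply, ht.P]
      simp only [map_sub, map_neg, map_smul, mp_mp]
      rw [add_neg_cancel, mp_zero, show (1 : ℤ) + 1 = 2 by norm_num,
        show (1 : ℤ) + -3 = -2 by norm_num]
      exact Submodule.sub_mem _ (Submodule.sub_mem _
        (Submodule.neg_mem _ (Submodule.smul_mem _ _ (hp v hv)))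
        (Submodule.smul_mem _ _ (hm v hv))) (Submodule.smul_mem _ _ (hm' v hv))
  | succ k ih =>
    rw [succ_apply]
    generalize ((vp M 2 * L.b) ^ k) v = z at ih ⊢
    obtain ⟨i1, i2, i3⟩ := ih
    have cb2 := (commute_vp h.cb 2).eq
    have cbm := (commute_mp h.cb e 1).eq
    refine ⟨?_, ?_, ?_⟩
    · obtain ⟨u, hu⟩ := h.sal.exists_vp e 2
      have e1 : vp M 2 * L.al e * (vp M 2 * L.b) = (u : R) •
          (sc A 4 • (vp M 2 * L.b * (vp M 2 * L.al e)) +
          (sc A (-3) - sc A 5) • (vp M 2 * mp M e (-2) * (vp M 2 * mp M e 1 * L.P e)) +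
          (2 * (1 - sc A 4)) • (vp M 2 * (vp M 2 * L.be e))) := by
        have e2 : vp M 2 * mp M e (-2) * (vp M 2 * mp M e 1 * L.P e) =
            vp M 2 * (vp M 2 * (mp M e (-1) * L.P e)) := by
          rw [mul_assoc, ← mul_assoc (mp M e (-2)), ← mul_assoc (mp M e (-2)),
            ← (vp_commute_mp M e 2 (-2)).eq, mul_assoc (vp M 2), mp_mul_mp, mul_assoc]
          norm_num
        rw [bar_mul_bar h.cb, e2, mul_assoc, ← mul_assoc (L.al e), hu, smul_mul_assoc,
          mul_smul_comm, mul_assoc, h.alb]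
        simp only [mul_add, mul_smul_comm]
      rw [← Module.End.mul_apply, e1]
      exact Submodule.smul_mem _ _ (Submodule.add_mem _ (Submodule.add_mem _
        (Submodule.smul_mem _ _ (hb _ i1)) (Submodule.smul_mem _ _ (hm' _ i3)))
        (Submodule.smul_mem _ _ (h2 _ i2)))
    · obtain ⟨u, hu⟩ := h.sbe.exists_vp e 2
      have e1 : vp M 2 * L.be e * (vp M 2 * L.b) = (u : R) •
          (vp M 2 * L.b * (vp M 2 * L.be e)) := by
        rw [bar_mul_bar h.cb, mul_assoc, ← mul_assoc (L.be e), hu, smul_mul_assoc,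
          mul_smul_comm, mul_assoc, h.K5b]
      rw [← Module.End.mul_apply, e1]
      exact Submodule.smul_mem _ _ (hb _ i2)
    · obtain ⟨u, hu⟩ := h.sP.exists_vp e 2
      have e1 : vp M 2 * mp M e 1 * L.P e * (vp M 2 * L.b) = (u : R) •
          (sc A (-4) • (vp M 2 * L.b * (vp M 2 * mp M e 1 * L.P e)) +
          (sc A 3 - sc A (-5)) • (vp M 2 * mp M e 2 * (vp M 2 * L.al e)) +
          (2 * (sc A 1 - sc A (-3))) • (vp M 2 * mp M e 2 * (vp M 2 * L.be e))) := by
        have e2 : ∀ T : Module.End R W, vp M 2 * mp M e 2 * (vp M 2 * T) =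
            vp M 2 * mp M e 1 * (vp M 2 * (mp M e 1 * T)) := by
          intro T
          rw [← mul_assoc (vp M 2) (mp M e 1) T, (vp_commute_mp M e 2 1).eq, mul_assoc,
            mul_assoc (mp M e 1) (vp M 2) T, ← (vp_commute_mp M e 2 1).eq, mul_assoc,
            ← mul_assoc (mp M e 1) (mp M e 1), mp_mul_mp]
          norm_num
        have e3 : vp M 2 * L.b * (vp M 2 * mp M e 1 * L.P e) =
            vp M 2 * mp M e 1 * (vp M 2 * (L.b * L.P e)) := by
          rw [← mul_assoc, ((bar_commute h.cb 2).mul_right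
            ((vp_commute_mp M e 2 1).mul_left (commute_mp h.cb e 1))).eq]
          simp only [mul_assoc]
        rw [e2, e2, e3, mul_assoc, ← mul_assoc (L.P e), hu, smul_mul_assoc,
          mul_smul_comm, mul_assoc (vp M 2) (L.P e), h.K3b]
        simp only [mul_add, mul_smul_comm]
      rw [← Module.End.mul_apply, e1]
      exact Submodule.smul_mem _ _ (Submodule.add_mem _ (Submodule.add_mem _
        (Submodule.smul_mem _ _ (hb _ i3)) (Submodule.smul_mem _ _ (hm _ i1)))
        (Submodule.smul_mem _ _ (hm _ i2)))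

theorem invA (h : Rel A M L) (ht : Top A M L v) : InvA M L (Lam M L v) 0 where
  a := pres_of_mp (mp_a h ht)
  b := pres_of_mp (mp_b h)
  p := pres_of_mp (mp_p h ht)
  al e := pres_of_gen (semi_bar h.sal e _) fun k => by
    rw [neg_zero, mp_zero, mul_one]; exact (arc_gen h ht e k).1
  be e := pres_of_gen (semi_bar h.sbe e _) fun k => by
    rw [neg_zero, mp_zero, mul_one]; exact (arc_gen h ht e k).2.1
  P e := pres_of_gen (semi_bar h.sP e _) fun k => by
    rw [show -((0 : ℤ) - 1) = 1 by norm_num]; exact (arc_gen h ht e k).2.2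

theorem c_v (h : Rel A M L) (ht : Top A M L v) :
    L.c v = -(sc A 4 • L.b v) - sc A 2 • tau M v := by
  have h1 := LinearMap.congr_fun h.L2 v
  simp only [Module.End.mul_apply, LinearMap.add_apply, LinearMap.smul_apply] at h1
  rw [ht.a, ht.p, map_smul, smul_sub, smul_neg, smul_smul, smul_smul, sc_mul_sc, sc_mul_neg,
    show (2 : ℤ) + -4 = -2 by norm_num, dl] at h1
  have h2 : sc A (-2) • L.c v = -(sc A 2 • L.b v) - tau M v := by
    linear_combination (norm := module) -h1
  calc L.c v = sc A 2 • (sc A (-2) • L.c v) := by rw [smul_smul, sc_mul_neg, one_smul]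
    _ = _ := by
      rw [h2, smul_sub, smul_neg, smul_smul, sc_mul_sc, show (2 : ℤ) + 2 = 4 by norm_num]

theorem c_gen (h : Rel A M L) (ht : Top A M L v)
    (hcb : L.c * L.b = sc A 4 • (L.b * L.c) + (sc A (-2) - sc A 6) • L.a +
      (2 * (1 - sc A 4)) • tau M) (k : ℕ) :
    ∃ (u : Rˣ) (g : W), g ∈ G M L v k ∧ (vp M 2 * L.c) (((vp M 2 * L.b) ^ k) v) =
      (u : R) • ((vp M 2 * L.b) ^ (k + 1)) v + g := by
  induction k with
  | zero =>
    refine ⟨-A ^ (4 : ℤ), -(sc A 2 • (vp M 2 * tau M) v),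
      Submodule.neg_mem _ (Submodule.smul_mem _ _ ((G_two _).tbar v (v_mem (by simp)))), ?_⟩
    rw [pow_zero, Module.End.one_apply, zero_add, pow_one, Module.End.mul_apply, c_v h ht, map_sub,
      map_neg, map_smul, map_smul, Units.val_neg, neg_smul, sub_eq_add_neg]
    rfl
  | succ k ih =>
    obtain ⟨u, g, hg, e⟩ := ih
    have hz : ((vp M 2 * L.b) ^ k) v ∈ G M L v k := gen_mem le_rfl
    have ha := (ap_gen h ht k).1
    have e2 : vp M 2 * L.c * (vp M 2 * L.b) = sc A 4 • (vp M 2 * L.b * (vp M 2 * L.c)) +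
        (sc A (-2) - sc A 6) • (vp M 2 * (vp M 2 * L.a)) +
        (2 * (1 - sc A 4)) • (vp M 2 * (vp M 2 * tau M)) := by
      rw [bar_mul_bar h.cc, bar_mul_bar h.cb, hcb]
      simp only [mul_add, mul_smul_comm]
    refine ⟨A ^ (4 : ℤ) * u, sc A 4 • (vp M 2 * L.b) g +
      ((sc A (-2) - sc A 6) • vp M 2 (vp M 2 (L.a (((vp M 2 * L.b) ^ k) v))) +
      (2 * (1 - sc A 4)) • vp M 2 ((vp M 2 * tau M) (((vp M 2 * L.b) ^ k) v))), ?_, ?_⟩
    · push_cast
      exact Submodule.add_mem _ (Submodule.smul_mem _ _ (mp_b h _ _ hg)) (G_mono (by omega)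
        (Submodule.add_mem _ (Submodule.smul_mem _ _ (G_two k _ (G_two k _ ha)))
          (Submodule.smul_mem _ _ (G_two k _ ((G_two k).tbar _ hz)))))
    · rw [succ_apply k, ← Module.End.mul_apply, e2, succ_apply (k + 1), LinearMap.add_apply,
        LinearMap.add_apply, LinearMap.smul_apply, Module.End.mul_apply (vp M 2 * L.b), e, map_add,
        map_smul, smul_add, smul_smul, Units.val_mul, add_assoc, add_assoc]
      rfl

/-- `T` is onto the graded pieces. -/
def Sur (K : ℤ → Submodule R W) (T : Module.End R W) (j : ℤ) : Prop :=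
  ∀ d, 0 ≤ d → ∀ z ∈ K (d + j), ∃ y ∈ K d, z - T y ∈ K (d + j - 1)

theorem Sur.mul {K : ℤ → Submodule R W} {S T : Module.End R W} {i j : ℤ} (hS : Sur K S i)
    (hT : Sur K T j) (hm : Mp K S i) (hj : 0 ≤ j) : Sur K (S * T) (i + j) := by
  intro d hd z hz
  obtain ⟨y, hy, h1⟩ := hS (d + j) (by omega) z (by rwa [add_assoc, add_comm j i])
  obtain ⟨y', hy', h2⟩ := hT d hd y hy
  refine ⟨y', hy', ?_⟩
  have h3 := hm _ _ h2
  rw [show d + j - 1 + i = d + (i + j) - 1 by ring, map_sub] at h3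
  rw [show d + j + i - 1 = d + (i + j) - 1 by ring] at h1
  have := Submodule.add_mem _ h1 h3
  rwa [sub_add_sub_cancel] at this

theorem Sur.pow {K : ℤ → Submodule R W} {S : Module.End R W} (hS : Sur K S 1) (hm : Mp K S 1)
    (n : ℕ) : Sur K (S ^ n) n := by
  induction n with
  | zero => exact fun d _ z hz => ⟨z, by simpa using hz, by simp⟩
  | succ n ih =>
    rw [pow_succ', Nat.cast_succ, add_comm]
    exact hS.mul ih hm (Int.natCast_nonneg n)

theorem sur_of_gen {T : Module.End R W} (hc : ∀ k, Commute T (vp M k))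
    (h : ∀ k : ℕ, ∃ (u : Rˣ) (g : W), g ∈ G M L v k ∧ T (((vp M 2 * L.b) ^ k) v) =
      (u : R) • ((vp M 2 * L.b) ^ (k + 1)) v + g) : Sur (G M L v) T 1 := by
  intro d hd z hz
  rw [add_sub_cancel_right]
  induction hz using Submodule.span_induction with
  | mem x hx =>
    obtain ⟨i, k, hk, rfl⟩ := hx
    by_cases hk' : (k : ℤ) ≤ d
    · refine ⟨0, Submodule.zero_mem _, ?_⟩
      rw [map_zero, sub_zero]
      exact Submodule.subset_span ⟨i, k, hk', rfl⟩
    · obtain ⟨k, rfl⟩ : ∃ k', k = k' + 1 := ⟨k - 1, by omega⟩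
      obtain ⟨u, g, hg, e⟩ := h k
      have hkd : (k : ℤ) ≤ d := by push_cast at hk; omega
      refine ⟨((u⁻¹ : Rˣ) : R) • vp M i (((vp M 2 * L.b) ^ k) v),
        Submodule.smul_mem _ _ (Submodule.subset_span ⟨i, k, hkd, rfl⟩), ?_⟩
      rw [map_smul, ← Module.End.mul_apply T, (hc i).eq, Module.End.mul_apply (vp M i) T, e,
        map_add, map_smul, smul_add, smul_smul, Units.inv_mul, one_smul, sub_add_cancel_left]
      exact Submodule.neg_mem _ (Submodule.smul_mem _ _
        (G_vp d (Int.natCast_nonneg i) _ (G_mono hkd hg)))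
  | zero => exact ⟨0, Submodule.zero_mem _, by simp⟩
  | add x y _ _ hx hy =>
    obtain ⟨x', hx', h1⟩ := hx
    obtain ⟨y', hy', h2⟩ := hy
    refine ⟨x' + y', Submodule.add_mem _ hx' hy', ?_⟩
    rw [map_add, add_sub_add_comm]
    exact Submodule.add_mem _ h1 h2
  | smul r x _ hx =>
    obtain ⟨x', hx', h1⟩ := hx
    refine ⟨r • x', Submodule.smul_mem _ _ hx', ?_⟩
    rw [map_smul, ← smul_sub]
    exact Submodule.smul_mem _ _ h1

theorem lam_le {LH : Lvl R W} {w : List Bool} (hl : Levels A M L (true :: w) LH)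
    (ht : Top A M L v) :
    ∃ n : ℕ, Lam M L v ≤ G M L v (n - 1) ⊔ LinearMap.range (LH.a - dl A • 1) := by
  have hH := hl.rel_last
  cases hl with
  | @cons _ L1 _ _ _ h hs hw =>
  obtain ⟨ea, eb, ep, -⟩ := hs
  have h1 := hw.rel_first
  have hcb := h1.ab
  rw [ea, eb, ep] at hcb
  have hcg := c_gen h ht hcb
  have hc : Mp (G M L v) (vp M 2 * L.c) 1 := mp_of_gen (bar_commute h.cc) fun k => by
    obtain ⟨u, g, hg, e⟩ := hcg k
    rw [e]
    exact Submodule.add_mem _ (Submodule.smul_mem _ _ (gen_mem (by push_cast; rfl)))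
      (G_mono (by omega) hg)
  have sc' : Sur (G M L v) (vp M 2 * L.c) 1 := sur_of_gen (bar_commute h.cc) hcg
  have sb : Sur (G M L v) (vp M 2 * L.b) 1 := sur_of_gen (bar_commute h.cb) fun k =>
    ⟨1, 0, Submodule.zero_mem _, by rw [succ_apply]; simp⟩
  obtain ⟨hx, ⟨u, E, hE, e⟩, -⟩ := lead hw (G M L v) 1 1 1 (ea ▸ hc) (eb ▸ mp_b h)
    (by
      rw [ep]
      exact ((mp_vp (j := 1) (by norm_num) zero_le_one).mul (mp_a h ht)).cast (by norm_num))
    (mp_vp (by norm_num) le_rfl) (mp_vp (by norm_num) zero_le_one)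
    (fun x y n _ _ hxy => mp_vp (by omega) (by simp only [nsmul_eq_mul, mul_one]; omega))
  rw [ea, eb] at e
  generalize (frac w).1 = x at hx hE e
  generalize (frac w).2 = y at hE e
  simp only [nsmul_eq_mul, mul_one] at hE
  have hs := (sc'.pow hc x).mul (sb.pow (mp_b h) y) (by simpa using hc.pow x)
    (Int.natCast_nonneg y)
  have step : ∀ d : ℤ, 0 ≤ d → G M L v (d + (x + y)) ≤
      G M L v (d + (x + y) - 1) ⊔ LinearMap.range (LH.a - dl A • 1) := by
    intro d hd z hz
    obtain ⟨t, ht', hzt⟩ := hs d hd z hz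
    have e1 := LinearMap.congr_fun e t
    rw [← (commute_vp hH.ca _).eq] at e1
    have e2 : z = (z - ((vp M 2 * L.c) ^ x * (vp M 2 * L.b) ^ y) t +
        ((u⁻¹ : Rˣ) : R) • (dl A • vp M (2 * ((x + y : ℕ) : ℤ)) t - vp M 2 (E t))) +
        (LH.a - dl A • 1) (((u⁻¹ : Rˣ) : R) • vp M (2 * ((x + y : ℕ) : ℤ)) t) := by
      rw [map_smul, LinearMap.sub_apply, LinearMap.smul_apply, Module.End.one_apply,
        ← Module.End.mul_apply LH.a, e1, LinearMap.add_apply, LinearMap.smul_apply, add_assoc,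
        ← smul_add, Module.End.mul_apply (vp M 2) E, sub_add_sub_cancel', add_sub_cancel_right,
        smul_smul, Units.inv_mul, one_smul, sub_add_cancel]
    rw [e2]
    refine Submodule.add_mem_sup (Submodule.add_mem _ hzt (Submodule.smul_mem _ _
      (Submodule.sub_mem _ (Submodule.smul_mem _ _ ?_) (G_two _ _ ?_)))) (LinearMap.mem_range_self _ _)
    · exact G_mono (by omega) (G_vp d (by omega) _ ht')
    · exact G_mono (by omega) (hE d t ht')
  have all : ∀ m : ℕ, G M L v (m + (x + y) - 1) ≤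
      G M L v (((x + y : ℕ) : ℤ) - 1) ⊔ LinearMap.range (LH.a - dl A • 1) := by
    intro m
    induction m with
    | zero => exact le_trans (G_mono (by push_cast; omega)) le_sup_left
    | succ m ih =>
      refine le_trans (G_mono (by push_cast; omega)) ((step m (Int.natCast_nonneg m)).trans ?_)
      exact sup_le ih le_sup_right
  refine ⟨x + y, Submodule.span_le.2 ?_⟩
  rintro _ ⟨i, k, rfl⟩
  exact all k (Submodule.subset_span ⟨i, k, by omega, rfl⟩)

end TopL

theorem fin_gen {L LH : Lvl R W} {w : List Bool} (hl : Levels A M L (true :: w) LH) {v : W}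
    (ht : Top A M L v) :
    ∃ n : ℕ, Submodule.span R {x | ∃ (i : ℤ) (k : ℕ), k < n ∧ x = mp M true i ((L.b ^ k) v)} ⊔
      LinearMap.range (LH.a - dl A • 1) = ⊤ := by
  have h := hl.rel_first
  have hH := hl.rel_last
  obtain ⟨n, hn⟩ := TopL.lam_le hl ht
  refine ⟨n, ?_⟩
  set S := Submodule.span R {x | ∃ (i : ℤ) (k : ℕ), k < n ∧ x = mp M true i ((L.b ^ k) v)}
    with hS
  have h1 : TopL.G M L v (n - 1) ≤ S := by
    refine Submodule.span_le.2 ?_
    rintro _ ⟨i, k, hk, rfl⟩
    refine Submodule.subset_span ⟨-(i + 2 * k), k, by omega, ?_⟩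
    rw [(commute_vp h.cb 2).symm.mul_pow, vp_pow, Module.End.mul_apply, vp_vp, mp_true, neg_neg]
  have h2 : ∀ j, Pres (vp M j) S := by
    intro j x hx
    refine (Submodule.span_le (p := S.comap (vp M j))).2 ?_ hx
    rintro _ ⟨i, k, hk, rfl⟩
    refine Submodule.subset_span ⟨i - j, k, hk, ?_⟩
    rw [mp_true, mp_true, vp_vp]
    congr 2
    ring
  have h3 : ∀ j, Pres (vp M j) (S ⊔ LinearMap.range (LH.a - dl A • 1)) := by
    intro j x hx
    obtain ⟨y, hy, _, ⟨z, rfl⟩, rfl⟩ := Submodule.mem_sup.1 hx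
    rw [map_add]
    refine Submodule.add_mem_sup (h2 j y hy) ⟨vp M j z, ?_⟩
    rw [← Module.End.mul_apply, ← Module.End.mul_apply,
      ((commute_vp hH.ca j).sub_left ((Commute.one_left _).smul_left _)).eq]
  rw [eq_top_iff]
  intro x _
  obtain ⟨m, hm⟩ := (TopL.lat h ht).full x
  have := h3 (-m) _ (sup_le_sup_right h1 _ (hn hm))
  rwa [vp_vp, neg_add_cancel, vp_zero, Module.End.one_apply] at this

theorem Fn.vp_one_vanish {LH : Lvl R W} {Q : Type*} [AddCommGroup Q] [Module R Q] {X Y : Sh R}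
    {ψ : W →ₗ[R] (ℤ → Q)} (hψ : Fn A M LH X Y ψ) {x : W} {n : ℤ} (h : ∀ i < n, ψ x i = 0) :
    ∀ i < n + X.d, ψ (vp M 1 x) i = 0 := by
  intro i hi
  have h1 := congrFun (hψ.mer (vp M 1 x)) (i - X.d)
  rw [← vp_neg_one, vp_vp, neg_add_cancel, vp_zero, Module.End.one_apply, h _ (by omega),
    Sh.op_apply, sub_add_cancel] at h1
  exact (Units.isUnit _).smul_eq_zero.1 h1.symm

theorem top_lattice {L LH : Lvl R W} {w : List Bool} (hl : Levels A M L (true :: w) LH) {v : W}
    (ht : Top A M L v) {Q : Type*} [AddCommGroup Q] [Module R Q] {X Y : Sh R} (hX : 0 < X.d)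
    {ψ : W →ₗ[R] (ℤ → Q)} (hψ : Fn A M LH X Y ψ) (hb : ∀ x, ∃ n : ℤ, ∀ i < n, ψ x i = 0) :
    ∃ Λ : Submodule R W, Lat M Λ ∧ InvA M L Λ 0 ∧ Bdd ψ Λ := by
  have h := hl.rel_first
  refine ⟨TopL.Lam M L v, TopL.lat h ht, TopL.invA h ht, ?_⟩
  obtain ⟨n, hn⟩ := TopL.lam_le hl ht
  have h1 : ∀ m : ℕ, ∃ N : ℤ, ∀ k < m, ∀ i < N, ψ (((vp M 2 * L.b) ^ k) v) i = 0 := by
    intro m
    induction m with
    | zero => exact ⟨0, fun k hk => absurd hk (Nat.not_lt_zero k)⟩
    | succ m ih =>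
      obtain ⟨N, hN⟩ := ih
      obtain ⟨N', hN'⟩ := hb (((vp M 2 * L.b) ^ m) v)
      refine ⟨min N N', fun k hk i hi => ?_⟩
      rcases Nat.lt_succ_iff_lt_or_eq.1 hk with hk | rfl
      · exact hN k hk i (hi.trans_le (min_le_left _ _))
      · exact hN' i (hi.trans_le (min_le_right _ _))
  obtain ⟨N, hN⟩ := h1 n
  have h2 : ∀ (x : W), (∀ i < N, ψ x i = 0) → ∀ j : ℕ, ∀ i < N, ψ (vp M j x) i = 0 := by
    intro x hx j
    induction j with
    | zero => simpa using hx
    | succ j ih =>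
      intro i hi
      rw [Nat.cast_succ, add_comm, ← vp_vp]
      exact hψ.vp_one_vanish ih i (by omega)
  refine ⟨N, fun x hx i hi => ?_⟩
  have h3 : TopL.G M L v (n - 1) ⊔ LinearMap.range (LH.a - dl A • 1) ≤
      LinearMap.ker (LinearMap.proj i ∘ₗ ψ) := by
    refine sup_le (Submodule.span_le.2 ?_) ?_
    · rintro _ ⟨j, k, hk, rfl⟩
      exact h2 _ (hN k (by omega)) j i hi
    · rintro _ ⟨z, rfl⟩
      change ψ ((LH.a - dl A • 1) z) i = 0
      rw [LinearMap.sub_apply, map_sub, hψ.loop, LinearMap.smul_apply, Module.End.one_apply,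
        map_smul, sub_self]
      rfl
  exact h3 (hn hx)

end Pool.Agent.Lib.MP_5b31c3_gt
end

-- part Pool.Agent.Lib.MP_5b31c3_gt.AlgMain
section

/-
The induction along edge paths: functionals with supports bounded below vanish.
-/

namespace Pool.Agent.Lib.MP_5b31c3_gt

variable {R : Type*} [CommRing R] {W : Type*} [AddCommGroup W] [Module R W]
variable {A : Rˣ} {M : (Module.End R W)ˣ}

theorem tc_main {L LH : Lvl R W} {w : List Bool} (hl : Levels A M L w LH)
    {Q : Type*} [AddCommGroup Q] [Module R Q] {X Y : Sh R} (hX : 0 < X.d) :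
    ∀ (Λ : Submodule R W) (ψ : W →ₗ[R] (ℤ → Q)) (D : ℤ) (f : Bool), Lat M Λ → Fn A M LH X Y ψ →
      Bdd ψ Λ →
      (InvA M L Λ D → (f = true → Onto M L.b Λ) → (∀ D' ∈ bad true f D w, Y.d ≠ D' * X.d) → ψ = 0) ∧
      (InvB M L Λ D → (f = true → Onto M L.a Λ) → (∀ D' ∈ bad false f D w, Y.d ≠ D' * X.d) →
        ψ = 0) := by
  induction hl with
  | nil h =>
    intro Λ ψ D f hΛ hψ hb
    refine ⟨fun hI _ hY => tc_final hΛ hX hψ hb hI.al (hY D (by simp [bad])), fun hI ho hY => ?_⟩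
    cases f
    · exact tc_final hΛ hX hψ hb hI.al (hY D (by simp [bad]))
    · exact tc_onto hΛ hX hψ hb hψ.loop (ho rfl)
  | @cons L L' LH x w h hs hw ih =>
    intro Λ ψ D f hΛ hψ hb
    have z : ∀ {φ : W →ₗ[R] (ℤ → Q)} (y : W), φ ((0 : Module.End R W) y) = (0 : R) • φ y :=
      fun y => by simp
    cases x
    · refine ⟨fun hI _ hY => (ih Λ ψ (D + 1) false hΛ hψ hb).1 (hI.step_false h hΛ hs)
        (fun c => by cases c) (by simpa only [bad] using hY), fun hI ho hY => ?_⟩
      obtain ⟨Λa, Λb, ψa, ψb, rfl, fa, fb, la, lb, ia, ib, oa, ob, ba, bb, za, -⟩ :=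
        move hw hΛ (hI.step_false h hΛ hs) hX hψ hb
      have e2 : ψb = 0 := (ih Λb ψb _ true lb fb bb).2 ib (fun _ => ob)
        fun D' hD' => hY D' (by simp only [bad]; exact Finset.mem_union_left _ hD')
      have e1 : ψa = 0 := by
        cases f
        · exact (ih Λa ψa _ true la fa ba).1 ia (fun _ => oa)
            fun D' hD' => hY D' (by simp only [bad]; exact Finset.mem_union_right _ hD')
        · exact tc_onto la hX fa ba z (za (hs.1 ▸ ho rfl))
      rw [e1, e2, add_zero]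
    · refine ⟨fun hI ho hY => ?_, fun hI _ hY => (ih Λ ψ (D - 1) false hΛ hψ hb).2
        (hI.step_true h hΛ hs) (fun c => by cases c) (by simpa only [bad] using hY)⟩
      obtain ⟨Λa, Λb, ψa, ψb, rfl, fa, fb, la, lb, ia, ib, oa, ob, ba, bb, -, zb⟩ :=
        move hw hΛ (hI.step_true h hΛ hs) hX hψ hb
      have e1 : ψa = 0 := (ih Λa ψa _ true la fa ba).1 ia (fun _ => oa)
        fun D' hD' => hY D' (by simp only [bad]; exact Finset.mem_union_left _ hD')
      have e2 : ψb = 0 := by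
        cases f
        · exact (ih Λb ψb _ true lb fb bb).2 ib (fun _ => ob)
            fun D' hD' => hY D' (by simp only [bad]; exact Finset.mem_union_right _ hD')
        · exact tc_onto lb hX fb bb z (zb (hs.2.1 ▸ ho rfl))
      rw [e1, e2, add_zero]

theorem vanish {L LH : Lvl R W} {w : List Bool} (hl : Levels A M L (true :: w) LH) {v : W}
    (ht : Top A M L v) {Q : Type*} [AddCommGroup Q] [Module R Q] {X Y : Sh R} (hX : 0 < X.d)
    (hY : ∀ D ∈ bad true false 0 (true :: w), Y.d ≠ D * X.d)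
    {ψ : W →ₗ[R] (ℤ → Q)} (hψ : Fn A M LH X Y ψ) (hb : ∀ x, ∃ n : ℤ, ∀ i < n, ψ x i = 0) :
    ψ = 0 := by
  obtain ⟨Λ, hΛ, hI, hB⟩ := top_lattice hl ht hX hψ hb
  exact (tc_main hl hX Λ ψ 0 false hΛ hψ hB).1 hI (fun c => by cases c) hY

end Pool.Agent.Lib.MP_5b31c3_gt
end

-- part Pool.Agent.Lib.MP_5b31c3_gt.AlgNoeth
section

/-
Truncation: finitely many values decide whether an antisymmetric functional vanishes.
-/

namespace Pool.Agent.Lib.MP_5b31c3_gt

open Filter

universe v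

variable {R : Type*} [CommRing R] {W : Type*} [AddCommGroup W] [Module R W]
variable {A : Rˣ} {M : (Module.End R W)ˣ}

section Ev
variable {V V' : Type*} [AddCommGroup V] [Module R V] [AddCommGroup V'] [Module R V']

/-- Evaluation of a Laurent polynomial at an invertible operator. -/
noncomputable def evU (m : (Module.End R V)ˣ) : AddMonoidAlgebra R ℤ →ₐ[R] Module.End R V :=
  AddMonoidAlgebra.lift R _ ℤ ((Units.coeHom _).comp (zpowersHom _ m))

theorem evU_single (m : (Module.End R V)ˣ) (i : ℤ) (c : R) :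
    evU m (AddMonoidAlgebra.single i c) = c • ((m ^ i : (Module.End R V)ˣ) : Module.End R V) := by
  rw [evU, AddMonoidAlgebra.lift_single]; rfl

theorem evU_comm {m : (Module.End R V)ˣ} {m' : (Module.End R V')ˣ} {f : V →ₗ[R] V'}
    (h : ∀ x, f ((m : Module.End R V) x) = (m' : Module.End R V') (f x))
    (s : AddMonoidAlgebra R ℤ) (x : V) : f (evU m s x) = evU m' s (f x) := by
  induction s using AddMonoidAlgebra.induction_linear with
  | zero => simp
  | add s t hs ht => simp [hs, ht]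
  | single i c => simp only [evU_single, LinearMap.smul_apply, map_smul, tc_zpow h]

/-- Combinations of given vectors with Laurent polynomial coefficients. -/
noncomputable def cmb (m : (Module.End R V)ˣ) {n : ℕ} (g : Fin n → V) :
    (Fin n → AddMonoidAlgebra R ℤ) →ₗ[R] V where
  toFun μ := ∑ j, evU m (μ j) (g j)
  map_add' μ ν := by simp [Finset.sum_add_distrib]
  map_smul' c μ := by simp [Finset.smul_sum]

theorem cmb_apply (m : (Module.End R V)ˣ) {n : ℕ} (g : Fin n → V)
    (μ : Fin n → AddMonoidAlgebra R ℤ) : cmb m g μ = ∑ j, evU m (μ j) (g j) := rfl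

theorem cmb_smul (m : (Module.End R V)ˣ) {n : ℕ} (g : Fin n → V) (s : AddMonoidAlgebra R ℤ)
    (μ : Fin n → AddMonoidAlgebra R ℤ) : cmb m g (s • μ) = evU m s (cmb m g μ) := by
  simp [cmb_apply, map_sum]

theorem cmb_single (m : (Module.End R V)ˣ) {n : ℕ} (g : Fin n → V) (j : Fin n)
    (s : AddMonoidAlgebra R ℤ) : cmb m g (Pi.single j s) = evU m s (g j) := by
  rw [cmb_apply, Finset.sum_eq_single j (fun i _ hi => by simp [hi]) (by simp), Pi.single_eq_same]

theorem cmb_comm {m : (Module.End R V)ˣ} {m' : (Module.End R V')ˣ} {f : V →ₗ[R] V'}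
    (h : ∀ x, f ((m : Module.End R V) x) = (m' : Module.End R V') (f x)) {n : ℕ} (g : Fin n → V)
    (μ : Fin n → AddMonoidAlgebra R ℤ) : f (cmb m g μ) = cmb m' (fun j => f (g j)) μ := by
  simp only [cmb_apply, map_sum, evU_comm h]

theorem tc_lift {U : Type*} [AddCommGroup U] [Module R U] {π : U →ₗ[R] V} {σ : U →ₗ[R] V'}
    (hs : Function.Surjective π) (hk : LinearMap.ker π ≤ LinearMap.ker σ) :
    ∃ ψ : V →ₗ[R] V', ∀ u, ψ (π u) = σ u :=
  ⟨(LinearMap.ker π).liftQ σ hk ∘ₗ (π.quotKerEquivOfSurjective hs).symm.toLinearMap, fun u => by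
    have : (π.quotKerEquivOfSurjective hs).symm (π u) = Submodule.Quotient.mk u :=
      (LinearEquiv.symm_apply_eq _).2 rfl
    simp [this]⟩

end Ev

section Loc
variable {Q : Type*} [AddCommGroup Q] [Module R Q]

/-- Restriction of a sequence to the nonnegative indices. -/
def trc (R : Type*) [CommRing R] (Q : Type*) [AddCommGroup Q] [Module R Q] :
    Module.End R (ℤ → Q) where
  toFun q i := if 0 ≤ i then q i else 0
  map_add' q q' := by funext i; by_cases h : 0 ≤ i <;> simp [h]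
  map_smul' c q := by funext i; by_cases h : 0 ≤ i <;> simp [h]

theorem trc_apply (q : ℤ → Q) (i : ℤ) : trc R Q q i = if 0 ≤ i then q i else 0 := rfl

/-- `T` commutes with the restriction on sequences that vanish near the origin. -/
def Loc (k : ℕ) (T : Module.End R (ℤ → Q)) : Prop :=
  ∀ q : ℤ → Q, (∀ i : ℤ, |i| ≤ k → q i = 0) → T (trc R Q q) = trc R Q (T q)

theorem Loc.add {k : ℕ} {T T' : Module.End R (ℤ → Q)} (h : Loc k T) (h' : Loc k T') :
    Loc k (T + T') := fun q hq => by simp [h q hq, h' q hq]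

theorem Loc.sub {k : ℕ} {T T' : Module.End R (ℤ → Q)} (h : Loc k T) (h' : Loc k T') :
    Loc k (T - T') := fun q hq => by simp [h q hq, h' q hq]

theorem Loc.smul {k : ℕ} {T : Module.End R (ℤ → Q)} (h : Loc k T) (c : R) :
    Loc k (c • T) := fun q hq => by simp [h q hq]

theorem loc_op {k : ℕ} {Z : Sh R} (h : |Z.d| ≤ k) : Loc k (Z.op Q) := fun q hq => by
  funext i
  have h1 := abs_le.1 h
  rw [trc_apply, Sh.op_apply, Sh.op_apply, trc_apply]
  split_ifs with a b b
  · rfl
  · rw [hq _ (abs_le.2 ⟨by omega, by omega⟩), smul_zero]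
  · rw [hq _ (abs_le.2 ⟨by omega, by omega⟩)]
  · rw [smul_zero]

theorem evU_bdd (X : Sh R) (s : AddMonoidAlgebra R ℤ) (q : ℤ → Q) :
    ∀ᶠ i in atBot, evU (opU Q X) s (trc R Q q) i = 0 := by
  induction s using AddMonoidAlgebra.induction_linear with
  | zero => simp
  | add s t hs ht => filter_upwards [hs, ht] with i a b using by simp [a, b]
  | single j c =>
    filter_upwards [eventually_lt_atBot (-(X ^ j).d)] with i hi
    rw [evU_single, ← map_zpow, opU_val, LinearMap.smul_apply, Pi.smul_apply, Sh.op_apply, trc_apply,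
      if_neg (by omega), smul_zero, smul_zero]

end Loc

theorem ev_abs (d : ℤ) : ∀ᶠ k : ℕ in atTop, |d| ≤ k := by
  filter_upwards [eventually_ge_atTop d.natAbs] with k hk
  rw [Int.abs_eq_natAbs]; exact_mod_cast hk

theorem loc_evU (X : Sh R) (s : AddMonoidAlgebra R ℤ) : ∀ᶠ k : ℕ in atTop,
    ∀ (Q : Type v) [AddCommGroup Q] [Module R Q], Loc k (evU (opU Q X) s) := by
  induction s using AddMonoidAlgebra.induction_linear with
  | zero => exact .of_forall fun k Q _ _ q _ => by simp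
  | add s t hs ht =>
    filter_upwards [hs, ht] with k a b Q _ _
    rw [map_add]; exact (a Q).add (b Q)
  | single j c =>
    filter_upwards [ev_abs (X ^ j).d] with k hk Q _ _
    rw [evU_single, ← map_zpow, opU_val]; exact (loc_op hk).smul c

theorem loc_cmb (X : Sh R) {n : ℕ} (μ : Fin n → AddMonoidAlgebra R ℤ) : ∀ᶠ k : ℕ in atTop,
    ∀ (Q : Type v) [AddCommGroup Q] [Module R Q] (t : Fin n → ℤ → Q),
      (∀ j, ∀ i : ℤ, |i| ≤ k → t j i = 0) →
      cmb (opU Q X) (fun j => trc R Q (t j)) μ = trc R Q (cmb (opU Q X) t μ) := by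
  filter_upwards [eventually_all.2 fun j => loc_evU.{v} X (μ j)] with k hk Q _ _ t ht
  rw [cmb_apply, cmb_apply, map_sum]
  exact Finset.sum_congr rfl fun j _ => hk j Q _ (ht j)

theorem loc_arcE (A : Rˣ) (X Y : Sh R) (e : Bool) : ∀ᶠ k : ℕ in atTop,
    ∀ (Q : Type v) [AddCommGroup Q] [Module R Q], Loc k (arcE A X Y e Q) := by
  filter_upwards [ev_abs (X * X * (if e then Y else Y⁻¹)).d, ev_abs (if e then Y else Y⁻¹).d,
    ev_abs (X⁻¹ * X⁻¹ * (if e then Y else Y⁻¹)).d] with k a b c Q _ _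
  rw [arcE_exp]
  exact (((loc_op a).sub ((loc_op b).smul _)).add (loc_op c)).smul _

theorem Levels.tc_rel {L LH : Lvl R W} {w : List Bool} (hl : Levels A M L w LH) : Rel A M LH := by
  induction hl with
  | nil h => exact h
  | cons _ _ _ ih => exact ih

theorem truncate [IsNoetherianRing R] {L LH : Lvl R W} {w : List Bool}
    (hl : Levels A M L (true :: w) LH) {v : W} (ht : Top A M L v) {X Y : Sh R} (hX : 0 < X.d)
    (hXY : TorusPair A X Y) (hY : ∀ D ∈ bad true false 0 (true :: w), Y.d ≠ D * X.d) :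
    ∃ n k : ℕ, ∀ (Q : Type v) [AddCommGroup Q] [Module R Q] (Φ : W →ₗ[R] (ℤ → Q)),
      Fn A M LH X Y Φ → (∀ j < n, ∀ i : ℤ, |i| ≤ k → Φ ((L.b ^ j) v) i = 0) →
      (∀ j < n, ∀ i : ℤ, Φ ((L.b ^ j) v) (-i - 2) = -Φ ((L.b ^ j) v) i) → Φ = 0 := by
  obtain ⟨n, hn⟩ := fin_gen hl ht
  have hR := hl.tc_rel
  obtain ⟨F, hF⟩ : ∃ F : Module.End R W, F = LH.a - dl A • 1 := ⟨_, rfl⟩
  obtain ⟨g, hg⟩ : ∃ g : Fin n → W, g = fun j : Fin n => (L.b ^ (j : ℕ)) v := ⟨_, rfl⟩
  have Fa : ∀ x, F x = LH.a x - dl A • x := fun x => by rw [hF]; rfl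
  have FM : ∀ x, F ((M : Module.End R W) x) = (M : Module.End R W) (F x) := fun x => by
    rw [Fa, Fa, map_sub, map_smul]
    exact congrArg (· - _) (LinearMap.congr_fun hR.ca x)
  have gen : ∀ N : Submodule R W, (∀ (i : ℤ) (j : Fin n), mp M true i (g j) ∈ N) →
      (∀ y, F y ∈ N) → ∀ x, x ∈ N := fun N h1 h2 x => by
    have : ⊤ ≤ N := by
      rw [← hn, ← hF, sup_le_iff, Submodule.span_le]
      refine ⟨?_, by rintro _ ⟨y, rfl⟩; exact h2 y⟩
      rintro _ ⟨i, j, hj, rfl⟩
      simpa only [hg, SetLike.mem_coe] using h1 i ⟨j, hj⟩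
    exact this Submodule.mem_top
  have sj : ∀ x, ∃ μ y, cmb M g μ + F y = x := fun x => by
    have hx : x ∈ LinearMap.range (cmb M g) ⊔ LinearMap.range F :=
      gen _ (fun i j => Submodule.mem_sup_left (LinearMap.mem_range.2
        ⟨Pi.single j (AddMonoidAlgebra.single i 1), by rw [cmb_single, evU_single, one_smul]; rfl⟩))
        (fun y => Submodule.mem_sup_right (LinearMap.mem_range_self _ y)) x
    obtain ⟨_, ⟨μ, rfl⟩, _, ⟨y, rfl⟩, e⟩ := Submodule.mem_sup.1 hx
    exact ⟨μ, y, e⟩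
  have : IsNoetherianRing (AddMonoidAlgebra R ℤ) := Algebra.FiniteType.isNoetherianRing R _
  let KK : Submodule (AddMonoidAlgebra R ℤ) (Fin n → AddMonoidAlgebra R ℤ) :=
    { carrier := {μ | cmb M g μ ∈ LinearMap.range F}
      add_mem' := fun a b => by simpa only [Set.mem_ofPred_eq, map_add] using add_mem a b
      zero_mem' := ⟨0, by simp⟩
      smul_mem' := fun s μ ⟨y, hy⟩ => ⟨evU M s y, by rw [cmb_smul, ← hy, evU_comm FM]⟩ }
  obtain ⟨B, hB⟩ := IsNoetherian.noetherian KK
  choose ν ρ hν using fun (e : Bool) (j : Fin n) => sj (LH.al e (g j))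
  obtain ⟨k, k1, k2, k3, k4⟩ := ((eventually_ge_atTop 1).and
    (((eventually_all_finset B).2 fun μ _ => loc_cmb.{v} X μ).and
    ((eventually_all.2 fun e => eventually_all.2 fun j => loc_cmb.{v} X (ν e j)).and
    (eventually_all.2 fun e => loc_arcE.{v} A X Y e)))).exists
  refine ⟨n, k, fun Q _ _ Φ hΦ h0 ha => ?_⟩
  have h0' : ∀ j, ∀ i : ℤ, |i| ≤ k → Φ (g j) i = 0 := fun j => hg ▸ h0 j j.2
  have ΦF : ∀ y, Φ (F y) = 0 := fun y => by rw [Fa, map_sub, map_smul, hΦ.loop, sub_self]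
  have Φc := cmb_comm (m' := opU Q X) hΦ.mer g
  obtain ⟨σ, hσ⟩ : ∃ σ, σ = cmb (opU Q X) fun j => trc R Q (Φ (g j)) := ⟨_, rfl⟩
  have kσ : ∀ μ ∈ KK, σ μ = 0 := fun μ hμ => by
    rw [← hB] at hμ
    induction hμ using Submodule.span_induction with
    | mem μ hμ =>
      obtain ⟨y, hy⟩ : μ ∈ KK := hB ▸ Submodule.subset_span hμ
      rw [hσ, k2 μ hμ Q _ h0', ← Φc, ← hy, ΦF, map_zero]
    | zero => exact map_zero _
    | add _ _ _ _ a b => rw [map_add, a, b, add_zero]
    | smul s μ _ a => rw [hσ] at a ⊢; rw [cmb_smul, a, map_zero]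
  obtain ⟨ψ, hψ'⟩ := tc_lift (π := (cmb M g).coprod F) (σ := σ.coprod 0)
    (fun x => by obtain ⟨μ, y, e⟩ := sj x; exact ⟨(μ, y), e⟩)
    (fun u hu => by
      have : cmb M g u.1 + F u.2 = 0 := hu
      have h2 := kσ u.1 ⟨-u.2, by rw [map_neg, neg_eq_iff_add_eq_zero, add_comm, this]⟩
      simpa using h2)
  have hψ : ∀ μ y, ψ (cmb M g μ + F y) = σ μ := fun μ y => by simpa using hψ' (μ, y)
  have ψc : ∀ μ, ψ (cmb M g μ) = σ μ := fun μ => by simpa using hψ μ 0
  have ψF : ∀ y, ψ (F y) = 0 := fun y => by simpa using hψ 0 y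
  have ψg : ∀ j, ψ (g j) = trc R Q (Φ (g j)) := fun j => by
    have := ψc (Pi.single j 1)
    rwa [hσ, cmb_single, cmb_single, map_one, map_one] at this
  have ψM : ∀ x, ψ ((M : Module.End R W) x) = X.op Q (ψ x) := fun x => by
    obtain ⟨μ, y, rfl⟩ := sj x
    have e := cmb_smul M g (AddMonoidAlgebra.single 1 1) μ
    have e' := cmb_smul (opU Q X) (fun j => trc R Q (Φ (g j))) (AddMonoidAlgebra.single 1 1) μ
    rw [evU_single, one_smul, zpow_one] at e e'
    rw [map_add, ← FM, ← e, hψ, hψ, hσ, e', opU_val]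
  have ψal : ∀ e x, ψ (LH.al e x) = arcE A X Y e Q (ψ x) := fun e x => by
    have m1 : ∀ x, ψ (mp M e 1 x) = (if e then X else X⁻¹).op Q (ψ x) := fun x => by
      rw [tc_mp ψM]; cases e <;> simp
    have s1 : ∀ x, ψ (LH.al e x) = arcE A X Y e Q (ψ x) →
        ψ (LH.al e (mp M e 1 x)) = arcE A X Y e Q (ψ (mp M e 1 x)) := fun x hx => by
      have a := LinearMap.congr_fun (hR.sal e) x
      have b := LinearMap.congr_fun (arcE_semi (Q := Q) hXY e) (ψ x)
      simp only [Module.End.mul_apply, LinearMap.smul_apply] at a b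
      rw [a, map_smul, m1, m1, hx, b]
    have s2 : ∀ x, ψ (LH.al e (mp M e 1 x)) = arcE A X Y e Q (ψ (mp M e 1 x)) →
        ψ (LH.al e x) = arcE A X Y e Q (ψ x) := fun x hx => by
      have a := LinearMap.congr_fun (hR.sal e) x
      have b := LinearMap.congr_fun (arcE_semi (Q := Q) hXY e) (ψ x)
      simp only [Module.End.mul_apply, LinearMap.smul_apply] at a b
      rw [a, map_smul, m1, m1, b, sc, ← Units.smul_def, ← Units.smul_def, smul_left_cancel_iff,
        ← opU_val] at hx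
      exact ((Module.End.isUnit_iff _).1 (Units.isUnit _)).1 hx
    have s3 : ∀ j (i : ℤ), ψ (LH.al e (mp M e i (g j))) = arcE A X Y e Q (ψ (mp M e i (g j))) :=
      fun j i => by
      induction i using Int.induction_on with
      | zero =>
        rw [tc_mp_zero, Module.End.one_apply, ← hν, hψ, hσ, k3 e j Q _ h0', ← Φc, ψg,
          k4 e Q _ (h0' j), ← hΦ.arc, ← hν, map_add, ΦF, add_zero]
      | succ i ih => rw [add_comm, ← tc_mp_app]; exact s1 _ ih
      | pred i ih => refine s2 _ ?_; rw [tc_mp_app]; rwa [add_sub_cancel]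
    refine gen (LinearMap.eqLocus (ψ ∘ₗ LH.al e) (arcE A X Y e Q ∘ₗ ψ)) (fun i j => ?_) (fun y => ?_) x
    · have := s3 j (if e then i else -i)
      cases e
      · simpa [mp] using this
      · exact this
    · have a : LH.al e (F y) = F (LH.al e y) := by
        rw [Fa, Fa, map_sub, map_smul]
        exact congrArg (· - _) (LinearMap.congr_fun (hR.K5a e) y)
      change ψ (LH.al e (F y)) = arcE A X Y e Q (ψ (F y))
      rw [a, ψF, ψF, map_zero]
  have z : ψ = 0 := vanish hl ht hX hY ⟨ψM, fun x => by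
      have := ψF x
      rwa [Fa, map_sub, map_smul, sub_eq_zero] at this, ψal⟩ fun x => by
    obtain ⟨μ, y, rfl⟩ := sj x
    obtain ⟨N, hN⟩ := eventually_atBot.1 (eventually_all.2 fun j => evU_bdd X (μ j) (Φ (g j)))
    refine ⟨N, fun i hi => ?_⟩
    rw [hψ, hσ, cmb_apply, Finset.sum_apply]
    exact Finset.sum_eq_zero fun j _ => hN i hi.le j
  have z1 : ∀ j i, 0 ≤ i → Φ (g j) i = 0 := fun j i hi => by
    have := congrFun (ψg j) i
    rw [z, trc_apply, if_pos hi] at this
    exact this.symm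
  have z2 : ∀ j, Φ (g j) = 0 := fun j => funext fun i => by
    rcases le_or_gt 0 i with h | h
    · exact z1 j i h
    rcases (Int.le_sub_one_of_lt h).eq_or_lt with rfl | h'
    · exact h0' j _ (by simpa using k1)
    · have := ha j j.2 (-i - 2)
      have e := z1 j (-i - 2) (by omega)
      rw [hg] at e ⊢
      rwa [show -(-i - 2) - 2 = i by ring, e, neg_zero] at this
  ext1 x
  obtain ⟨μ, y, rfl⟩ := sj x
  rw [map_add, ΦF, Φc]
  simp [cmb_apply, z2]

end Pool.Agent.Lib.MP_5b31c3_gt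
end

-- part Pool.Agent.Lib.MP_5b31c3_gt.Hat
section

/-
Adjoining an invertible meridian operator to a module.
-/

namespace Pool.Agent.Lib.MP_5b31c3_gt

variable {R : Type*} [CommRing R] {A : Rˣ}

section Gen
variable {Z : Type*} [AddCommGroup Z] [Module R Z] {M : (Module.End R Z)ˣ}

theorem hat_semi {f : Module.End R Z} {k : ℤ} (h : f * M = sc A k • (M * f)) (i : ℤ) :
    f * mp M true i = sc A (k * i) • (mp M true i * f) := by
  rw [← mp_true_one] at h
  have hneg : f * mp M true (-1) = sc A (-k) • (mp M true (-1) * f) := by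
    have h1 : mp M true (-1) * (f * mp M true 1) * mp M true (-1) = mp M true (-1) * f := by
      rw [mul_assoc, mul_assoc, mp_mul_mp]; simp
    rw [← h1, h, mul_smul_comm, smul_mul_assoc, smul_smul, sc_neg_mul, one_smul, ← mul_assoc,
      mp_mul_mp]
    simp
  induction i using Int.induction_on with
  | zero => simp
  | succ i ih =>
    rw [mp_add, ← mul_assoc, ih, smul_mul_assoc, mul_assoc, h, mul_smul_comm, smul_smul,
      sc_mul_sc, mul_assoc, mul_add, mul_one]
  | pred i ih =>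
    rw [sub_eq_add_neg, mp_add, ← mul_assoc, ih, smul_mul_assoc, mul_assoc, hneg, mul_smul_comm,
      smul_smul, sc_mul_sc, mul_assoc, mul_add, mul_neg k 1, mul_one]

theorem mp_sg (M : (Module.End R Z)ˣ) (e : Bool) (i : ℤ) : mp M e i = mp M true (sg e * i) := by
  cases e <;> simp [mp, sg]

theorem hat_rec {e : Bool} {f : ℤ → Z}
    (h : ∀ i, (mp M e 1 + mp M e (-1)) (f i) = sc A (-1) • f (i + 1) + sc A 1 • f (i - 1))
    (i : ℤ) : f (i + 1 + 1) - sc A 1 • mp M e (-1) (f (i + 1)) =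
      sc A 1 • mp M e 1 (f (i + 1) - sc A 1 • mp M e (-1) (f i)) := by
  have h1 := congrArg (sc A 1 • ·) (h (i + 1))
  simp only [LinearMap.add_apply, smul_add, smul_smul, sc_mul_neg, one_smul,
    add_sub_cancel_right] at h1
  rw [map_sub, map_smul, mp_mp, add_neg_cancel, mp_zero, Module.End.one_apply, smul_sub, smul_smul,
    sub_eq_sub_iff_add_eq_add, h1]

theorem hat_geo {e : Bool} {g : ℤ → Z} (h : ∀ i, g (i + 1) = sc A 1 • mp M e 1 (g i)) (i : ℤ) :
    g i = sc A i • mp M e i (g 0) := by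
  induction i using Int.induction_on with
  | zero => simp
  | succ i ih => rw [h, ih, map_smul, smul_smul, sc_mul_sc, mp_mp, add_comm]
  | pred i ih =>
    have h1 := congrArg (fun z => sc A (-1) • mp M e (-1) z) ((h (-i - 1)).symm.trans
      ((congrArg g (sub_add_cancel _ _)).trans ih))
    simp only [map_smul, smul_smul, sc_mul_sc, mp_mp, neg_add_cancel, sc_zero, mp_zero, one_smul,
      Module.End.one_apply] at h1
    rw [h1, show (-1 : ℤ) + -i = -i - 1 by ring]

/-- The projection of a double sequence. -/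
def hatP (A : Rˣ) (M : (Module.End R Z)ˣ) (e : Bool) (f : ℤ → ℤ → Z) (i j : ℤ) : Z :=
  f (i + 1) (j + 1) - sc A 1 • mp M e (-1) (f (i + 1) j) - sc A 1 • mp M e (-1) (f i (j + 1)) +
    sc A 2 • mp M e (-2) (f i j)

theorem hatP_swap (e : Bool) (f : ℤ → ℤ → Z) (i j : ℤ) :
    hatP A M e (fun i j => f j i) i j = hatP A M e f j i := by
  simp only [hatP, sub_right_comm]

theorem hatP_step {e : Bool} {f : ℤ → ℤ → Z}
    (h : ∀ i j, (mp M e 1 + mp M e (-1)) (f i j) =
      sc A (-1) • f (i + 1) j + sc A 1 • f (i - 1) j) (i j : ℤ) :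
    hatP A M e f (i + 1) j = sc A 1 • mp M e 1 (hatP A M e f i j) := by
  have e1 : ∀ i, hatP A M e f i j = (f (i + 1) (j + 1) - sc A 1 • mp M e (-1) (f i (j + 1))) -
      sc A 1 • mp M e (-1) (f (i + 1) j - sc A 1 • mp M e (-1) (f i j)) := fun i => by
    rw [hatP, map_sub, map_smul, mp_mp, smul_sub, smul_smul, sc_mul_sc]
    norm_num
    abel
  rw [e1, e1, hat_rec (fun i => h i (j + 1)), hat_rec fun i => h i j]
  generalize f (i + 1) (j + 1) - sc A 1 • mp M e (-1) (f i (j + 1)) = x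
  generalize f (i + 1) j - sc A 1 • mp M e (-1) (f i j) = y
  simp only [map_sub, map_smul, mp_mp, smul_sub, add_comm (1 : ℤ)]

end Gen

section Hat
variable {V : Type*} [AddCommGroup V] [Module R V]

/-- The module obtained by adjoining an invertible operator `M` with `T s = M + M⁻¹`. -/
def Hat (T : Bool → Module.End R V) : Type _ :=
  (ℤ →₀ V) ⧸ Submodule.span R {z : ℤ →₀ V | ∃ (s : Bool) (i : ℤ) (x : V),
    z = Finsupp.single i (T s x) - Finsupp.single (i + 1) x - Finsupp.single (i - 1) x}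

noncomputable instance (T : Bool → Module.End R V) : AddCommGroup (Hat T) :=
  inferInstanceAs (AddCommGroup (_ ⧸ _))
noncomputable instance (T : Bool → Module.End R V) : Module R (Hat T) :=
  inferInstanceAs (Module R (_ ⧸ _))

variable {T : Bool → Module.End R V}

/-- The copy of `V` in degree `i`. -/
noncomputable def hatS (T : Bool → Module.End R V) (i : ℤ) : V →ₗ[R] Hat T :=
  (Submodule.mkQ _).comp (Finsupp.lsingle i)

theorem hatS_T (s : Bool) (i : ℤ) (x : V) :
    hatS T i (T s x) = hatS T (i + 1) x + hatS T (i - 1) x := by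
  rw [← sub_eq_zero, ← sub_sub]
  exact (Submodule.Quotient.mk_eq_zero _).2 (Submodule.subset_span ⟨s, i, x, rfl⟩)

section Lift
variable {Z : Type*} [AddCommGroup Z] [Module R Z]

/-- Maps out of `Hat T`. -/
noncomputable def hatL (f : ℤ → V →ₗ[R] Z)
    (hf : ∀ s i x, f i (T s x) = f (i + 1) x + f (i - 1) x) : Hat T →ₗ[R] Z :=
  Submodule.liftQ _ (Finsupp.lsum ℕ f) (Submodule.span_le.2 (by
    rintro _ ⟨s, i, x, rfl⟩
    simp only [SetLike.mem_coe, LinearMap.mem_ker, map_sub, Finsupp.lsum_single, hf s]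
    abel))

theorem hatL_S (f : ℤ → V →ₗ[R] Z) (hf : ∀ s i x, f i (T s x) = f (i + 1) x + f (i - 1) x)
    (i : ℤ) (x : V) : hatL f hf (hatS T i x) = f i x :=
  Finsupp.lsum_single ℕ f i x

theorem hat_ext {f g : Hat T →ₗ[R] Z} (h : ∀ i x, f (hatS T i x) = g (hatS T i x)) : f = g :=
  Submodule.linearMap_qext _ (Finsupp.lhom_ext h)

end Lift

/-- The shift of the degree. -/
noncomputable def hatSh (T : Bool → Module.End R V) (k : ℤ) : Module.End R (Hat T) :=
  hatL (fun i => hatS T (i + k)) fun s i x => by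
    rw [hatS_T s, add_right_comm, add_sub_right_comm]

theorem hatSh_S (k i : ℤ) (x : V) : hatSh T k (hatS T i x) = hatS T (i + k) x := hatL_S _ _ i x

noncomputable def hM (T : Bool → Module.End R V) : (Module.End R (Hat T))ˣ :=
  ⟨hatSh T 1, hatSh T (-1), hat_ext fun i x => by simp [hatSh_S],
    hat_ext fun i x => by simp [hatSh_S]⟩

noncomputable def hι (T : Bool → Module.End R V) : V →ₗ[R] Hat T := hatS T 0

theorem hM_S (i : ℤ) (x : V) : (hM T : Module.End R (Hat T)) (hatS T i x) = hatS T (i + 1) x :=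
  hatSh_S 1 i x

theorem mp_S (k i : ℤ) (x : V) : mp (hM T) true k (hatS T i x) = hatS T (i + k) x := by
  induction k using Int.induction_on with
  | zero => simp
  | succ k ih => rw [add_comm, ← mp_mp, ih, mp_true_one, hM_S, add_assoc, add_comm 1]
  | pred k ih =>
    rw [sub_eq_neg_add, ← mp_mp, ih, add_comm (-1 : ℤ), ← add_assoc]
    exact hatSh_S (-1) _ x

theorem mp_ι (i : ℤ) (x : V) : mp (hM T) true i (hι T x) = hatS T i x := by
  rw [hι, mp_S, zero_add]

theorem hι_T (s : Bool) (x : V) :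
    hι T (T s x) = (mp (hM T) true 1 + mp (hM T) true (-1)) (hι T x) := by
  rw [LinearMap.add_apply, mp_ι, mp_ι, hι, hatS_T, zero_add, zero_sub]

theorem hι_T' (e s : Bool) (x : V) :
    (mp (hM T) e 1 + mp (hM T) e (-1)) (hι T x) = hι T (T s x) := by
  rw [hι_T]
  cases e
  · rw [← Bool.not_true, mp_not, mp_not, neg_neg, add_comm]
  · rfl

theorem Hat.ext {Z : Type*} [AddCommGroup Z] [Module R Z] {f g : Hat T →ₗ[R] Z}
    (h : ∀ i x, f (mp (hM T) true i (hι T x)) = g (mp (hM T) true i (hι T x))) : f = g :=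
  hat_ext fun i x => by simpa only [mp_ι] using h i x

/-- Two operators that move past `M` in the same way and agree on `V` are equal. -/
theorem Hat.ext_semi {f g : Module.End R (Hat T)} (k : ℤ)
    (hf : f * hM T = sc A k • (hM T * f)) (hg : g * hM T = sc A k • (hM T * g))
    (h : ∀ x, f (hι T x) = g (hι T x)) : f = g :=
  Hat.ext fun i x => by
    have h1 := LinearMap.congr_fun (hat_semi hf i) (hι T x)
    have h2 := LinearMap.congr_fun (hat_semi hg i) (hι T x)
    simp only [Module.End.mul_apply, LinearMap.smul_apply] at h1 h2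
    rw [h1, h2, h]

noncomputable def hext (X : Module.End R V) (h : ∀ s, X * T s = T s * X) :
    Module.End R (Hat T) :=
  hatL (fun i => (hatS T i).comp X) fun s i x => by
    have := LinearMap.congr_fun (h s) x
    simp only [Module.End.mul_apply] at this
    simp only [LinearMap.comp_apply, this, hatS_T]

theorem hext_S (X : Module.End R V) (h : ∀ s, X * T s = T s * X) (i : ℤ) (x : V) :
    hext X h (hatS T i x) = hatS T i (X x) := hatL_S _ _ i x

theorem hext_ι (X : Module.End R V) (h : ∀ s, X * T s = T s * X) (x : V) :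
    hext X h (hι T x) = hι T (X x) := hext_S X h 0 x

theorem hext_M (X : Module.End R V) (h : ∀ s, X * T s = T s * X) :
    hext X h * hM T = hM T * hext X h :=
  hat_ext fun i x => by simp only [Module.End.mul_apply, hM_S, hext_S]

/-- A family of operators indexed by the numbers of turns at two places. -/
structure Fam (A : Rˣ) (T : Bool → Module.End R V) (E : ℤ → ℤ → Module.End R V) : Prop where
  in0 : ∀ i j, T false * E i j = sc A (-1) • E (i + 1) j + sc A 1 • E (i - 1) j
  in1 : ∀ i j, T true * E i j = sc A (-1) • E i (j + 1) + sc A 1 • E i (j - 1)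
  out0 : ∀ i j, E i j * T false = sc A 1 • E (i + 1) j + sc A (-1) • E (i - 1) j
  out1 : ∀ i j, E i j * T true = sc A 1 • E i (j + 1) + sc A (-1) • E i (j - 1)

/-- The projection of a family to an eigenspace of the turns. -/
noncomputable def piE (A : Rˣ) (T : Bool → Module.End R V) (e : Bool)
    (E : ℤ → ℤ → Module.End R V) (i j : ℤ) (x : V) : Hat T :=
  hι T (E (i + 1) (j + 1) x) - sc A 1 • mp (hM T) e (-1) (hι T (E (i + 1) j x)) -
    sc A 1 • mp (hM T) e (-1) (hι T (E i (j + 1) x)) + sc A 2 • mp (hM T) e (-2) (hι T (E i j x))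

theorem piE_eq {E : ℤ → ℤ → Module.End R V} (h : Fam A T E) (e : Bool) (i j : ℤ) (x : V) :
    piE A T e E i j x = sc A (i + j) • mp (hM T) e (i + j) (piE A T e E 0 0 x) := by
  have h0 : ∀ i j, piE A T e E (i + 1) j x = sc A 1 • mp (hM T) e 1 (piE A T e E i j x) :=
    hatP_step (f := fun i j => hι T (E i j x)) fun i j => by
      rw [hι_T' e false, ← Module.End.mul_apply, h.in0]
      simp
  have h1 : ∀ i j, piE A T e E i (j + 1) x = sc A 1 • mp (hM T) e 1 (piE A T e E i j x) :=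
    fun i j => by
      have := hatP_step (A := A) (M := hM T) (e := e) (f := fun j i => hι T (E i j x))
        (fun j i => by
          rw [hι_T' e true, ← Module.End.mul_apply, h.in1]
          simp) j i
      rwa [hatP_swap e fun i j => hι T (E i j x), hatP_swap e fun i j => hι T (E i j x)] at this
  rw [hat_geo (g := fun i => piE A T e E i j x) (fun i => h0 i j) i,
    hat_geo (g := fun j => piE A T e E 0 j x) (h1 0) j, map_smul, smul_smul, sc_mul_sc, mp_mp]

/-- The projection as a linear map. -/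
noncomputable def piL (A : Rˣ) (T : Bool → Module.End R V) (e : Bool)
    (E : ℤ → ℤ → Module.End R V) : V →ₗ[R] Hat T :=
  (hι T).comp (E (0 + 1) (0 + 1)) - sc A 1 • (mp (hM T) e (-1)).comp ((hι T).comp (E (0 + 1) 0)) -
    sc A 1 • (mp (hM T) e (-1)).comp ((hι T).comp (E 0 (0 + 1))) +
    sc A 2 • (mp (hM T) e (-2)).comp ((hι T).comp (E 0 0))

theorem piL_apply (e : Bool) (E : ℤ → ℤ → Module.End R V) (x : V) :
    piL A T e E x = piE A T e E 0 0 x := rfl

theorem piE_T {E : ℤ → ℤ → Module.End R V} (h : Fam A T E) (e s : Bool) (x : V) :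
    piE A T e E 0 0 (T s x) = sc A 2 • mp (hM T) e 1 (piE A T e E 0 0 x) +
      sc A (-2) • mp (hM T) e (-1) (piE A T e E 0 0 x) := by
  have e1 : sc A 2 = sc A 1 * sc A 1 := by rw [sc_mul_sc]; norm_num
  have e2 : sc A (-2) = sc A (-1) * sc A (-1) := by rw [sc_mul_sc]; norm_num
  cases s
  · have h1 := piE_eq h e 1 0 x
    have h2 := piE_eq h e (-1) 0 x
    rw [add_zero] at h1 h2
    rw [e1, e2, mul_smul, mul_smul, ← h1, ← h2]
    have k : ∀ i j, E i j (T false x) = sc A 1 • E (i + 1) j x + sc A (-1) • E (i - 1) j x :=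
      fun i j => LinearMap.congr_fun (h.out0 i j) x
    simp only [piE, k, map_add, map_smul, zero_add, zero_sub, sub_self, neg_add_cancel]
    module
  · have h1 := piE_eq h e 0 1 x
    have h2 := piE_eq h e 0 (-1) x
    rw [zero_add] at h1 h2
    rw [e1, e2, mul_smul, mul_smul, ← h1, ← h2]
    have k : ∀ i j, E i j (T true x) = sc A 1 • E i (j + 1) x + sc A (-1) • E i (j - 1) x :=
      fun i j => LinearMap.congr_fun (h.out1 i j) x
    simp only [piE, k, map_add, map_smul, zero_add, zero_sub, sub_self, neg_add_cancel]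
    module

noncomputable def harc (e : Bool) (E : ℤ → ℤ → Module.End R V) (h : Fam A T E) :
    Module.End R (Hat T) :=
  hatL (fun i => sc A (2 * sg e * i) • (mp (hM T) true i).comp (piL A T e E)) fun s i x => by
    simp only [LinearMap.smul_apply, LinearMap.comp_apply, piL_apply, piE_T h e s, map_add,
      map_smul, smul_add, smul_smul, sc_mul_sc, mp_sg _ e 1, mp_sg _ e (-1), mp_mp]
    cases e
    · rw [add_comm]
      congr 3 <;> simp [sg] <;> ring
    · congr 3 <;> simp [sg] <;> ring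

theorem harc_S (e : Bool) (E : ℤ → ℤ → Module.End R V) (h : Fam A T E) (i : ℤ) (x : V) :
    harc e E h (hatS T i x) = sc A (2 * sg e * i) • mp (hM T) true i (piE A T e E 0 0 x) :=
  hatL_S _ _ i x

theorem harc_ι (e : Bool) (E : ℤ → ℤ → Module.End R V) (h : Fam A T E) (x : V) :
    harc e E h (hι T x) = piE A T e E 0 0 x := by
  rw [hι, harc_S]
  simp

theorem harc_M (e : Bool) (E : ℤ → ℤ → Module.End R V) (h : Fam A T E) :
    harc e E h * hM T = sc A (2 * sg e) • (hM T * harc e E h) :=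
  hat_ext fun i x => by
    simp only [Module.End.mul_apply, LinearMap.smul_apply, hM_S, harc_S, map_smul, smul_smul,
      sc_mul_sc]
    rw [← mp_true_one, mp_mp, add_comm 1 i, mul_add, mul_one, add_comm (2 * sg e)]

theorem harc_semi (E : ℤ → ℤ → Module.End R V) (h : Fam A T E) :
    Semi A (hM T) fun e => harc e E h := fun e => by
  rw [mp_sg, hat_semi (harc_M e E h)]
  cases e <;> simp [sg]

variable {Q : Type*} [AddCommGroup Q] [Module R Q]

noncomputable def hlift (Φ : V →ₗ[R] (ℤ → Q)) (X : Sh R)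
    (h : ∀ s x, Φ (T s x) = mer X Q (Φ x)) : Hat T →ₗ[R] (ℤ → Q) :=
  hatL (fun i => ((X ^ i).op Q).comp Φ) fun s i x => by
    simp only [LinearMap.comp_apply, h, mer, LinearMap.add_apply, map_add, zpow_add_one,
      zpow_sub_one, Sh.op_mul, Module.End.mul_apply]

theorem hlift_S (Φ : V →ₗ[R] (ℤ → Q)) (X : Sh R) (h : ∀ s x, Φ (T s x) = mer X Q (Φ x)) (i : ℤ)
    (x : V) : hlift Φ X h (hatS T i x) = (X ^ i).op Q (Φ x) := hatL_S _ _ i x

theorem hlift_ι (Φ : V →ₗ[R] (ℤ → Q)) (X : Sh R) (h : ∀ s x, Φ (T s x) = mer X Q (Φ x)) (x : V) :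
    hlift Φ X h (hι T x) = Φ x := by
  rw [hι, hlift_S, zpow_zero, Sh.op_one, Module.End.one_apply]

theorem hlift_M (Φ : V →ₗ[R] (ℤ → Q)) (X : Sh R) (h : ∀ s x, Φ (T s x) = mer X Q (Φ x))
    (z : Hat T) : hlift Φ X h ((hM T : Module.End R (Hat T)) z) = X.op Q (hlift Φ X h z) :=
  LinearMap.congr_fun (hat_ext (f := (hlift Φ X h).comp (hM T : Module.End R (Hat T)))
    (g := (X.op Q).comp (hlift Φ X h)) fun i x => by
      simp only [LinearMap.comp_apply, hM_S, hlift_S]
      rw [add_comm, zpow_one_add, Sh.op_mul, Module.End.mul_apply]) z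

theorem hlift_fn (Φ : V →ₗ[R] (ℤ → Q)) {X Y : Sh R} (hXY : TorusPair A X Y)
    (h : ∀ s x, Φ (T s x) = mer X Q (Φ x)) {L : Lvl R (Hat T)}
    {a : Module.End R V} {ha : ∀ s, a * T s = T s * a} (hLa : L.a = hext a ha)
    {E : ℤ → ℤ → Module.End R V} {hE : Fam A T E} (hLal : ∀ e, L.al e = harc e E hE)
    (h1 : ∀ x, Φ (a x) = dl A • Φ x) (h2 : ∀ i j x, Φ (E i j x) = lam A X Y (i + j) Q (Φ x)) :
    Fn A (hM T) L X Y (hlift Φ X h) := by
  refine ⟨hlift_M Φ X h, fun z => ?_, fun e z => ?_⟩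
  · exact LinearMap.congr_fun (hat_ext (f := (hlift Φ X h).comp L.a) (g := dl A • hlift Φ X h)
      fun i x => by
        simp only [LinearMap.comp_apply, LinearMap.smul_apply, hLa, hext_S, hlift_S, h1,
          map_smul]) z
  · refine LinearMap.congr_fun (hat_ext (f := (hlift Φ X h).comp (L.al e))
      (g := (arcE A X Y e Q).comp (hlift Φ X h)) fun i x => ?_) z
    have hs : Semi A (opU Q X) fun e => arcE A X Y e Q := fun e => by
      have := arcE_semi (Q := Q) hXY e
      cases e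
      · simpa [mp, ← map_inv, opU_val] using this
      · simpa [mp, opU_val] using this
    have k1 := LinearMap.congr_fun (hs.mp e (sg e * i)) (Φ x)
    have k2 : mp (opU Q X) e (sg e * i) = (X ^ i).op Q := by
      rw [← opU_val, map_zpow]
      cases e <;> simp [mp, sg]
    have k3 : hlift Φ X h (piE A T e E 0 0 x) = arcE A X Y e Q (Φ x) := by
      rw [arcE_eq, piE]
      simp only [map_add, map_sub, map_smul, tc_mp (hlift_M Φ X h), hlift_ι, h2,
        LinearMap.add_apply, LinearMap.sub_apply, LinearMap.smul_apply, Module.End.mul_apply, sq,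
        ← Sh.op_mul]
      cases e
      · simp only [Bool.false_eq_true, if_false, neg_neg, zpow_one, zero_add, add_zero,
          one_add_one_eq_two, zpow_two]
        module
      · simp only [if_true, zpow_neg, zpow_one, zero_add, add_zero, one_add_one_eq_two, zpow_two,
          mul_inv_rev]
        module
    rw [k2, Module.End.mul_apply, LinearMap.smul_apply, Module.End.mul_apply] at k1
    simp only [LinearMap.comp_apply, hLal, harc_S, hlift_S, map_smul, tc_mp (hlift_M Φ X h), k1,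
      k3, if_true, mul_assoc]

end Hat

end Pool.Agent.Lib.MP_5b31c3_gt
end
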