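import Pool.Agent.Lib.MP_5b31c3_gt.Gath
import Pool.Agent.Lib.MP_5b31c3_gt.Hat

-- part Pool.Agent.Lib.MP_5b31c3_gt.Dbl
section

/-
Insertion of blocks and doubling as linear maps on modules of tangles.
-/

namespace Pool.Agent.Lib.MP_5b31c3_gt

open Kind

variable {R : Type*} [CommRing R] {A : Rˣ}

/-- An isotopy together with the target of both words. -/
structure IT (A : Rˣ) (c c' : Config) (l r : Word) : Prop where
  iso : Iso A c l r
  tgt : run c l = some c'

namespace IT

variable {c c' c'' d d' : Config} {l r s l' r' : Word}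

theorem refl (h : run c l = some c') : IT A c c' l l :=
  ⟨Iso.refl h, h⟩

theorem tgt' (h : IT A c c' l r) : run c r = some c' :=
  h.iso.run_eq ▸ h.tgt

theorem symm (h : IT A c c' l r) : IT A c c' r l := ⟨h.iso.symm, h.tgt'⟩

theorem trans (h : IT A c c' l r) (h' : IT A c c'' r s) : IT A c c' l s :=
  ⟨h.iso.trans h'.iso, h.tgt⟩

theorem comp (h : IT A c c' l r) (h' : IT A c' c'' l' r') : IT A c c'' (l ++ l') (r ++ r') :=
  ⟨h.iso.comp h.tgt h'.iso, by rw [run_append_of h.tgt]; exact h'.tgt⟩

theorem pre (hp : run c s = some c') (h : IT A c' c'' l r) :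
    IT A c c'' (s ++ l) (s ++ r) := (refl hp).comp h

theorem app (h : IT A c c' l r) (hs : run c' s = some c'') :
    IT A c c'' (l ++ s) (r ++ s) := h.comp (refl hs)

theorem whisk (h : IT A c c' l r) (cl cr : Config) :
    IT A (cl ++ c ++ cr) (cl ++ c' ++ cr) (shift cl.length l) (shift cl.length r) :=
  ⟨h.iso.whisk cl cr, run_whisk h.tgt cl cr⟩

theorem left (h : IT A c c' l r) (cl : Config) :
    IT A (cl ++ c) (cl ++ c') (shift cl.length l) (shift cl.length r) :=
  ⟨h.iso.left cl, run_left h.tgt cl⟩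

theorem right (h : IT A c c' l r) (cr : Config) : IT A (c ++ cr) (c' ++ cr) l r :=
  ⟨h.iso.right cr, run_right h.tgt cr⟩

theorem one (h : IT A c c' l r) (a : Option ℕ) :
    IT A (a :: c) (a :: c') (shift 1 l) (shift 1 r) := h.left [a]

theorem cast (h : IT A c c' l r) (h1 : l = l') (h2 : r = r') : IT A c c' l' r' := h1 ▸ h2 ▸ h

theorem cfg (h : IT A c c' l r) (h1 : c = d) (h2 : c' = d') : IT A d d' l r := h1 ▸ h2 ▸ h

theorem far {x y : Word} {c1 c1' c2 c2' : Config}
    (hx : run c1 x = some c1')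
    (hy : run c2 y = some c2') (h : skel c1 x = [] ∨ skel c2 y = []) :
    IT A (c1 ++ c2) (c1' ++ c2') (x ++ shift c1'.length y) (shift c1.length y ++ x) :=
  ⟨far_block hx hy h, by rw [run_append_of (run_right hx c2)]; exact run_left hy c1'⟩

theorem npass (b : Bool) (a : Option ℕ) {w : Word}
    (h : run c w = some c') (ha : a = none ∨ skel c w = []) :
    IT A (a :: c) (c' ++ [a]) (pass b c.length ++ w) (shift 1 w ++ pass b c'.length) :=
  ⟨nat_pass b a h ha, by rw [run_append_of (run_pass b a c)]; exact run_right h [a]⟩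

end IT

/-! Naturality of `back` for surgery strands -/

section Back

variable {b : Bool} {a : Option ℕ} {c c' : Config} {w : Word}

/-- The strand `a` goes back across the block `w`. -/
def NB (A : Rˣ) (b : Bool) (a : Option ℕ) (c c' : Config) (w : Word) : Prop :=
  IT A (c ++ [a]) (a :: c') (w ++ back b c'.length) (back b c.length ++ shift 1 w)

theorem nb_core {x : Kind} (h : x.act c = some c') (h1 : c.length = x.inp)
    (hs : x.surg c = false) : NB A b a c c' [(x, 0)] := by
  cases x with
  | cup k =>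
    obtain rfl : c = [] := List.length_eq_zero_iff.mp h1
    obtain rfl : k = none := by simpa [Kind.surg] using hs
    cases h
    have e1 : IT A [a] [none, a, none] _ _ := ⟨(BMove.cupSlide none b a (Or.inr rfl)).iso, rfl⟩
    have e2 : IT A [a, none] [a, none] _ _ := ⟨(BMove.two b a none (Or.inr rfl)).iso, rfl⟩
    exact (e1.symm.app (s := [(cr !b, 0)]) (c'' := [a, none, none]) rfl).trans
      (IT.pre (s := [(cup none, 1)]) rfl (e2.right [none]))
  | cap =>
    match c, h1, h, hs with
    | [u, v], _, h, hs =>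
      obtain rfl : u = none := by simpa [Kind.surg] using hs
      simp only [Kind.act] at h
      split_ifs at h with huv
      cases h
      subst huv
      have e1 : IT A [none, a, none] [a] _ _ :=
        ⟨(BMove.capSlide (!b) none a (Or.inl rfl)).iso, rfl⟩
      have e2 : IT A [none, a] [none, a] _ _ := ⟨(BMove.two (!b) none a (Or.inl rfl)).iso, rfl⟩
      exact ((IT.pre (c := [none, none, a]) (s := [(cr !b, 1)]) rfl e1).trans
        ((e2.one none).app (s := [(cap, 0)]) (c'' := [a]) rfl)).symm
  | cr t =>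
    match c, h1, h, hs with
    | [u, v], _, h, hs =>
      cases h
      refine ⟨(BMove.three t (!b) (!b) (Or.inr rfl) u v a ?_).iso, rfl⟩
      cases u <;> cases v <;> simp [Kind.surg] at hs ⊢

theorem NB.left (h : NB A b a c c' w) (hw : run c w = some c') (hs : skel c w = [])
    (cl : Config) : NB A b a (cl ++ c) (cl ++ c') (shift cl.length w) := by
  induction cl with
  | nil => simpa using h
  | cons d cl ih =>
    have e1 := (IT.one ih d).app (s := [(cr !b, 0)]) (c'' := a :: d :: (cl ++ c')) rfl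
    have e2 := IT.pre (run_one (run_back b a (cl ++ c)) d)
      (IT.far (A := A) (c1 := [d, a]) (x := [(cr !b, 0)]) rfl (run_left hw cl)
        (Or.inr (by rw [skel_left hw, hs]; rfl))).symm
    refine ((e1.cast ?_ ?_).trans e2).cast rfl ?_ <;> simp [back, shift_shift]

theorem NB.right (h : NB A b a c c' w) (hw : run c w = some c') (hs : skel c w = [])
    (cr : Config) : NB A b a (c ++ cr) (c' ++ cr) w := by
  have e1 := (IT.far (A := A) hw (run_back b a cr) (Or.inl hs)).app (run_back' b a c' cr)
  have e2 := IT.pre (run_left (run_back b a cr) c) ((IT.right h cr).cfg (by simp) rfl)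
  refine (((e1.cast ?_ ?_).trans e2).cast rfl ?_).cfg (by simp) rfl <;> simp [back_add]

theorem nb_word (h : run c w = some c') (hs : skel c w = []) : NB A b a c c' w := by
  induction w generalizing c with
  | nil =>
    cases h
    simpa [NB] using IT.refl (run_back b a c')
  | cons x w ih =>
    obtain ⟨x, i⟩ := x
    obtain ⟨d, hd, hw⟩ := run_cons_some h
    obtain ⟨s1, s2⟩ := skel_cons_nil hd hs
    have e1 : NB A b a c d [(x, i)] := by
      obtain ⟨cl, c0, c0', cr, rfl, rfl, rfl, h1, -, h0⟩ := step_decomp hd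
      have s0 := skl_eq_nil h0 s1
      have r0 : run c0 [(x, 0)] = some c0' := by rw [run_single]; exact h0
      have k0 : skel c0 [(x, 0)] = [] := by
        rw [skel_cons_of (x := x) (i := 0) h0, skl_zero s0]; rfl
      have := ((nb_core (A := A) (b := b) (a := a) h0 h1 s0).left r0 k0 cl).right (run_left r0 cl)
        (by rw [skel_left r0, k0]; rfl) cr
      simpa using this
    have e2 := IT.pre (c := c ++ [a]) (s := [(x, i)])
      (by rw [run_single]; exact step_right hd [a]) (ih hw s2)
    have e3 := IT.app e1 (run_one hw a)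
    refine ((e2.cast ?_ ?_).trans e3).cast rfl ?_ <;> simp

theorem IT.nback (b : Bool) (a : Option ℕ) (h : run c w = some c')
    (ha : a = none ∨ skel c w = []) :
    IT A (c ++ [a]) (a :: c') (w ++ back b c'.length) (back b c.length ++ shift 1 w) := by
  rcases ha with rfl | ha
  · exact ⟨nat_back b h, by rw [run_append_of (run_right h _)]; exact run_back b none c'⟩
  · exact nb_word h ha

end Back

/-! Cables -/

/-- A cable of `m` strands crosses `k` strands. -/
def mpass (b : Bool) : ℕ → ℕ → Word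
  | 0, _ => []
  | m + 1, k => shift 1 (mpass b m k) ++ pass b k

section Cable

variable {b : Bool} {n : ℕ} {c c' : Config} {w : Word}

theorem mpass_zero (b : Bool) (m : ℕ) : mpass b m 0 = [] := by
  induction m with
  | zero => rfl
  | succ m ih => simp [mpass, ih, pass]

theorem mpass_one (b : Bool) (k : ℕ) : mpass b 1 k = pass b k := rfl

theorem mpass_one' (b : Bool) (m : ℕ) : mpass b m 1 = back (!b) m := by
  induction m with
  | zero => rfl
  | succ m ih => simp [mpass, ih, pass, back]

theorem mpass_add (b : Bool) (m m' k : ℕ) :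
    mpass b (m + m') k = shift m (mpass b m' k) ++ mpass b m k := by
  induction m with
  | zero => simp [mpass]
  | succ m ih =>
    rw [Nat.add_right_comm, mpass, ih, mpass]
    simp [shift_shift]

theorem run_mpass (b : Bool) (ca c : Config) :
    run (ca ++ c) (mpass b ca.length c.length) = some (c ++ ca) := by
  induction ca with
  | nil => simp [mpass]
  | cons a ca ih =>
    rw [List.length_cons, mpass, List.cons_append, run_append_of (run_one ih a)]
    exact run_pass' b a c ca

theorem cable_cases (n : ℕ) (a : Option ℕ) :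
    dcfg n [a] = [a] ∨ (a = some n ∧ dcfg n [a] = [none, a]) := by
  by_cases h : a = some n <;> simp [dcfg, h]

theorem cable_none (n : ℕ) : dcfg n [none] = [none] := rfl

theorem cable_pass (b : Bool) (n : ℕ) (a : Option ℕ) (h : run c w = some c')
    (ha : a = none ∨ skel c w = []) :
    IT A (dcfg n [a] ++ c) (c' ++ dcfg n [a]) (mpass b (dcfg n [a]).length c.length ++ w)
      (shift (dcfg n [a]).length w ++ mpass b (dcfg n [a]).length c'.length) := by
  rcases cable_cases n a with e | ⟨-, e⟩ <;> rw [e]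
  · exact IT.npass b a h ha
  · have e1 := IT.pre (run_one (run_pass b a c) none)
      ((IT.npass (A := A) b none h (Or.inl rfl)).right [a])
    have e2 := ((IT.npass (A := A) b a h ha).one none).app (run_pass' b none c' [a])
    refine (((e1.cast ?_ ?_).trans e2).cast rfl ?_).cfg rfl (by simp) <;>
      simp [mpass, shift_shift]

theorem cable_add (b : Bool) (n : ℕ) (a : Option ℕ) (c d : Config) :
    IT A (dcfg n [a] ++ (c ++ d)) (c ++ d ++ dcfg n [a])
      (mpass b (dcfg n [a]).length (c ++ d).length)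
      (mpass b (dcfg n [a]).length c.length ++
        shift c.length (mpass b (dcfg n [a]).length d.length)) := by
  rcases cable_cases n a with e | ⟨-, e⟩ <;> rw [e]
  · exact (IT.refl (run_mpass b [a] (c ++ d))).cast rfl (by simp [mpass, pass_add])
  · have r1 : run (none :: a :: (c ++ d)) (shift 1 (pass b c.length)) =
        some ((none :: c) ++ a :: d) := run_one (run_pass' b a c d) none
    have r2 : run (c ++ [none] ++ (d ++ [a])) (shift c.length (pass b d.length)) =
        some (c ++ d ++ [none, a]) := by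
      simpa using run_left (run_pass' b none d [a]) c
    have e1 := (IT.pre r1 (IT.far (A := A) (run_pass b none c) (run_pass b a d)
      (Or.inl (skel_pass b c))).symm).app r2
    refine e1.cast ?_ ?_ <;> simp [mpass, pass_add, shift_shift, Nat.add_comm]

theorem mpass_two (b : Bool) (a : Option ℕ) (c : Config) :
    IT A (c ++ [none, a]) (none :: a :: c) (mpass b c.length 2)
      (back (!b) c.length ++ shift 1 (back (!b) c.length)) := by
  induction c with
  | nil => exact IT.refl rfl
  | cons u c ih =>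
    have e1 := (ih.one u).app (s := pass b 2) (c'' := none :: a :: u :: c) rfl
    have r1 : run (u :: (c ++ [none, a])) (shift 1 (back (!b) c.length)) =
        some ([u, none] ++ (c ++ [a])) := run_one (run_back' (!b) none c [a]) u
    have e2 := (IT.pre r1 (IT.far (A := A) (c1 := [u, none]) (x := [(cr b, 0)]) rfl
      (run_back (!b) a c) (Or.inl (by cases u <;> rfl))).symm).app (s := [(cr b, 1)])
      (c'' := none :: a :: u :: c) rfl
    refine ((e1.cast ?_ ?_).trans e2).cast rfl ?_ <;> simp [mpass, back, pass, shift_shift]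

theorem cable_ride (b : Bool) (n : ℕ) (a : Option ℕ) (h : run c w = some c')
    (ha : a = none ∨ skel c w = []) :
    IT A (c ++ dcfg n [a]) (dcfg n [a] ++ c') (w ++ mpass b c'.length (dcfg n [a]).length)
      (mpass b c.length (dcfg n [a]).length ++ shift (dcfg n [a]).length w) := by
  rcases cable_cases n a with e | ⟨-, e⟩ <;> rw [e]
  · simpa [mpass_one'] using IT.nback (A := A) (!b) a h ha
  · have e1 := IT.pre (run_right h [none, a]) (mpass_two (A := A) b a c')
    have e2 := (((IT.nback (A := A) (!b) none h (Or.inl rfl)).right [a]).app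
      (run_one (run_back (!b) a c') none)).cfg (List.append_assoc c [none] [a]) rfl
    have e3 := IT.pre (run_back' (!b) none c [a]) ((IT.nback (A := A) (!b) a h ha).one none)
    have e4 := (mpass_two (A := A) b a c).symm.app (run_left h [none, a])
    refine ((e1.cast rfl ?_).trans ((e2.cast rfl ?_).trans ((e3.cast rfl ?_).trans e4))) <;>
      simp [shift_shift]

theorem cable_two (b : Bool) (n : ℕ) {x y : Option ℕ} (h : x = none ∨ y = none) :
    IT A (dcfg n [x] ++ dcfg n [y]) (dcfg n [x] ++ dcfg n [y])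
      (mpass b (dcfg n [x]).length (dcfg n [y]).length ++
        mpass (!b) (dcfg n [y]).length (dcfg n [x]).length) [] := by
  refine IT.symm ⟨Iso.symm ?_, rfl⟩
  rcases h with rfl | rfl
  · simpa [cable_none, mpass_one, mpass_one'] using pass_back (A := A) b (dcfg n [y])
  · simpa [cable_none, mpass_one, mpass_one'] using back_pass (A := A) (!b) (dcfg n [x])

theorem dblG_cr (n : ℕ) (tw : ℤ → ℤ) (b : Bool) (x y : Option ℕ) (c : Config) :
    (cr b).dblG n tw (x :: y :: c) = mpass b (dcfg n [x]).length (dcfg n [y]).length := by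
  by_cases hx : x = some n <;> by_cases hy : y = some n <;>
    simp [Kind.dblG, dcfg, hx, hy, mpass, pass]

theorem dcfg_cons (n : ℕ) (a : Option ℕ) (c : Config) :
    dcfg n (a :: c) = dcfg n [a] ++ dcfg n c := dcfg_append n [a] c

theorem dcfg_nil (n : ℕ) : dcfg n [] = [] := rfl

end Cable

/-! Maps of words that respect composition and whiskering -/

/-- A map of words that is compatible with the structure of tangles. -/
structure WFun (G : Config → Config) (F : Config → Word → Word) : Prop where
  app : ∀ c d, G (c ++ d) = G c ++ G d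
  tgt : ∀ {c c' w}, run c w = some c' → run (G c) (F c w) = some (G c')
  append : ∀ {c c' u}, run c u = some c' → ∀ w, F c (u ++ w) = F c u ++ F c' w
  whisk : ∀ {c c' w}, run c w = some c' → ∀ cl cr,
    F (cl ++ c ++ cr) (shift cl.length w) = shift (G cl).length (F c w)
  skl : ∀ {c c' w}, run c w = some c' → skel c w = [] → skel (G c) (F c w) = []
  nones : G [none, none] = [none, none] ∧ G [] = []
  plain : (∀ b, F [none, none] [(cr b, 0)] = [(cr b, 0)]) ∧ F [none, none] [] = [] ∧
    F [none, none] [(cap, 0), (cup none, 0)] = [(cap, 0), (cup none, 0)] ∧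
    F [] [(cup none, 0), (cap, 0)] = [(cup none, 0), (cap, 0)] ∧ F [] [] = []

namespace WFun

variable {G : Config → Config} {F : Config → Word → Word}

theorem right (h : WFun G F) {c c' : Config} {w : Word} (hw : run c w = some c') (cr : Config) :
    F (c ++ cr) w = F c w := by
  simpa [h.nones.2] using h.whisk hw [] cr

theorem left (h : WFun G F) {c c' : Config} {w : Word} (hw : run c w = some c') (cl : Config) :
    F (cl ++ c) (shift cl.length w) = shift (G cl).length (F c w) := by
  simpa using h.whisk hw cl []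

theorem far (h : WFun G F) {x y : Word} {c1 c1' c2 c2' : Config} (hx : run c1 x = some c1')
    (hy : run c2 y = some c2') (hs : skel c1 x = [] ∨ skel c2 y = []) :
    Iso A (G (c1 ++ c2)) (F (c1 ++ c2) (x ++ shift c1'.length y))
      (F (c1 ++ c2) (shift c1.length y ++ x)) := by
  rw [h.append (run_right hx c2), h.append (run_left hy c1), h.right hx, h.right hx, h.left hy,
    h.left hy, h.app]
  exact far_block (h.tgt hx) (h.tgt hy) (hs.imp (h.skl hx) (h.skl hy))

theorem far_move (h : WFun G F) (x y : Kind) (c1 c1' cm c2 c2' : Config) (h1 : c1.length = x.inp)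
    (hx : x.act c1 = some c1') (hy : y.act c2 = some c2')
    (hs : x.surg c1 = false ∨ y.surg c2 = false) :
    Iso A (G (c1 ++ cm ++ c2)) (F (c1 ++ cm ++ c2) [(x, 0), (y, x.out + cm.length)])
      (F (c1 ++ cm ++ c2) [(y, x.inp + cm.length), (x, 0)]) := by
  have r1 : run c1 [(x, 0)] = some c1' := by rw [run_single]; exact hx
  have r2 : run c2 [(y, 0)] = some c2' := by rw [run_single]; exact hy
  have := h.far (A := A) (run_right r1 cm) r2 (hs.imp
    (fun e => by rw [skel_right r1, skel_cons_of (x := x) (i := 0) hx, skl_zero e]; rfl)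
    fun e => by rw [skel_cons_of (x := y) (i := 0) hy, skl_zero e]; rfl)
  simpa [h1, act_length hx h1] using this

theorem ctx (h : WFun G F) {c cl c0 cr c0' : Config} {p : Word}
    (hp : run c p = some (cl ++ c0 ++ cr)) (s : Word) :
    ∃ E : Tan A (G c0) →ₗ[R] Tan A (G c), ∀ l, run c0 l = some c0' →
      cls A (G c) (F c (p ++ shift cl.length l ++ s)) = E (cls A (G c0) (F c0 l)) := by
  refine ⟨emb A (F c p) (G cl) (G c0) (G cr) (F (cl ++ c0' ++ cr) s)
    (by rw [h.tgt hp, h.app, h.app]), fun l hl => ?_⟩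
  rw [emb_cls, List.append_assoc, h.append hp, h.append (run_whisk hl cl cr), h.whisk hl,
    ← List.append_assoc]

/-- The linear map induced on tangles. -/
noncomputable def lift (h : WFun G F)
    (hm : ∀ c l r, BMove c l r → Iso A (G c) (F c l) (F c r)) (c : Config) :
    Tan A c →ₗ[R] Tan A (G c) :=
  Tan.lift c (fun w => cls A (G c) (F c w)) (by
    intro p s cl c0 cr x hp hx
    obtain ⟨e1, e2, e3, e4, e5⟩ := h.plain
    cases hx with
    | @move _ l r hb =>
      obtain ⟨c0', h1, h2⟩ := hb.same.ex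
      obtain ⟨E, hE⟩ := h.ctx (A := A) (c0' := c0') hp s
      simp only [map_sub, Finsupp.linearCombination_single, one_smul]
      rw [hE l h1, hE r h2, (hm _ _ _ hb).eq, sub_self]
    | bracket b =>
      obtain ⟨E, hE⟩ := h.ctx (A := A) (c0' := [none, none]) hp s
      simp only [map_sub, Finsupp.linearCombination_single, one_smul]
      rw [hE _ rfl, hE _ rfl, hE _ rfl, e1, e2, e3]
      have := cls_bracket (A := A) b
      rw [← h.nones.1] at this
      rw [this, map_add, map_smul, map_smul]
      abel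
    | circle =>
      obtain ⟨E, hE⟩ := h.ctx (A := A) (c0' := []) hp s
      simp only [map_sub, Finsupp.linearCombination_single, one_smul]
      rw [hE _ rfl, hE _ rfl, e4, e5]
      have := cls_circle (A := A)
      rw [← h.nones.2] at this
      rw [this, map_smul, sub_self])

theorem lift_cls (h : WFun G F) (hm) (c : Config) (w : Word) :
    h.lift (A := A) hm c (cls A c w) = cls A (G c) (F c w) := by
  unfold lift
  rw [Tan.lift_cls]

end WFun

/-! Insertion -/

theorem wfun_ins {κ : ℕ × ℤ} {B : Word} (hB : run [some κ.1] B = some [some κ.1]) :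
    WFun id fun _ => ins κ B where
  app _ _ := rfl
  tgt h := run_ins hB h
  append _ w := ins_append _ _ _ w
  whisk _ _ _ := ins_shift _ _ _ _
  skl h hs := (skel_ins hB h).trans (by rw [hs]; rfl)
  nones := ⟨rfl, rfl⟩
  plain := by simp [ins]

theorem ins_move {κ : ℕ × ℤ} {B : Word} (hB : run [some κ.1] B = some [some κ.1]) (c : Config)
    (l r : Word) (h : BMove c l r) : Iso A c (ins κ B l) (ins κ B r) := by
  cases h with
  | far x y c1 c1' cm c2 c2' h1 h2 hx hy h =>
    exact (wfun_ins hB).far_move x y c1 c1' cm c2 c2' h1 hx hy h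
  | zig => simpa [ins] using BMove.zig.iso
  | zag => simpa [ins] using BMove.zag.iso
  | cupSlide k b a h =>
    by_cases hk : k = some κ
    · subst hk
      obtain rfl : a = none := by simpa using h
      have e1 := IT.pre (c := [none]) (s := [(cup (some κ), 1)]) rfl
        ((IT.npass (A := A) b none hB (Or.inl rfl)).symm.right [some κ.1])
      have e2 : IT A [none] [some κ.1, none, some κ.1] _ _ :=
        ⟨(BMove.cupSlide (some κ) b none (Or.inl rfl)).iso, rfl⟩
      have e3 := IT.pre (c := [none]) (s := [(cup (some κ), 0)]) rfl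
        (IT.far (A := A) hB (c2 := [some κ.1, none]) (y := [(cr !b, 0)]) rfl (Or.inr rfl)).symm
      have := (e1.trans (e2.app (run_right hB _))).trans e3
      simpa [ins, pass] using this.iso
    · simpa [ins, hk] using (BMove.cupSlide k b a h).iso
  | capSlide b a x h => simpa [ins] using (BMove.capSlide b a x h).iso
  | two b x y h => simpa [ins] using (BMove.two b x y h).iso
  | three x y z h a b c h' => simpa [ins] using (BMove.three x y z h a b c h').iso

/-! Doubling -/

theorem wfun_dbl (n : ℕ) (tw : ℤ → ℤ) : WFun (dcfg n) (dblG n tw) where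
  app := dcfg_append n
  tgt h := run_dblG h n tw
  append h := dblG_append h n tw
  whisk h := dblG_whisk h n tw
  skl h hs := by rw [skel_dblG h, hs]
  nones := ⟨rfl, rfl⟩
  plain := ⟨fun _ => rfl, rfl, rfl, rfl, rfl⟩

theorem dblG_nil (n : ℕ) (tw : ℤ → ℤ) (c : Config) : dblG n tw c [] = [] := by
  cases c <;> rfl

theorem dblG_letter {x : Kind} {c d : Config} (h : x.act c = some d) (n : ℕ) (tw : ℤ → ℤ) :
    dblG n tw c [(x, 0)] = x.dblG n tw c := by
  simpa [dblG_nil, dcfg_nil] using dblG_cons (x := x) (i := 0) h n tw []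

theorem dbl_move (n : ℕ) (tw : ℤ → ℤ) (c : Config) (l r : Word) (h : BMove c l r) :
    Iso A (dcfg n c) (dblG n tw c l) (dblG n tw c r) := by
  cases h with
  | far x y c1 c1' cm c2 c2' h1 h2 hx hy h =>
    exact (wfun_dbl n tw).far_move x y c1 c1' cm c2 c2' h1 hx hy h
  | zig => exact BMove.zig.iso
  | zag => exact BMove.zag.iso
  | cupSlide k b a h =>
    set κ := k.map Prod.fst with hκ
    have r0 : run [] [(cup k, 0)] = some [κ, κ] := rfl
    have r1 := run_dblG r0 n tw
    have s1 := skel_dblG r0 n tw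
    rw [dblG_letter (x := cup k) rfl, dcfg_nil] at r1 s1
    rw [dcfg_cons n κ [κ]] at r1
    have h1 : a = none ∨ skel [] ((cup k).dblG n tw []) = [] :=
      h.imp id fun e => by rw [s1, e]; rfl
    have h2 : a = none ∨ κ = none := h.imp id fun e => by rw [hκ, e]; rfl
    have ec : ∀ c, (cup k).dblG n tw c = (cup k).dblG n tw [] := fun c => by
      cases k <;> rfl
    have e1 := ((cable_pass (A := A) b n a r1 h1).cfg rfl (List.append_assoc _ _ _)).app
      (run_left (run_mpass (!b) (dcfg n [κ]) (dcfg n [a])) (dcfg n [κ]))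
    have r2 := run_left r1 (dcfg n [a])
    have e2 := ((IT.pre r2 (cable_add (A := A) b n a _ _)).cfg rfl (List.append_assoc _ _ _)).app
      (run_left (run_mpass (!b) (dcfg n [κ]) (dcfg n [a])) (dcfg n [κ]))
    have r3 := run_right (run_mpass b (dcfg n [a]) (dcfg n [κ])) (dcfg n [κ])
    rw [List.append_assoc, List.append_assoc] at r3
    have e3 := IT.pre r2 (IT.pre r3 ((cable_two (A := A) b n h2).left (dcfg n [κ])))
    have := (e1.trans (e2.trans (e3.cast (by simp) rfl))).iso.symm
    rw [dblG_cons (x := cup k) (i := 1) (d := [a, κ, κ]) rfl,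
      dblG_cons (x := cr b) (i := 0) (d := [κ, a, κ]) rfl,
      dblG_cons (x := cup k) (i := 0) (d := [κ, κ, a]) rfl,
      dblG_cons (x := cr !b) (i := 1) (d := [κ, a, κ]) rfl]
    simpa [dblG_cr, dblG_nil, dcfg_nil, mpass_zero, ec [a]] using this
  | capSlide b a x h =>
    have r0 : run [a, a] [(cap, 0)] = some [] := by simp [run, step, Kind.act]
    have r1 := run_dblG r0 n tw
    have s1 := skel_dblG r0 n tw
    rw [dblG_letter (x := cap) (d := []) (by simp [Kind.act]), dcfg_cons n a [a]] at r1 s1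
    rw [dcfg_nil] at r1
    have h1 : x = none ∨ skel (dcfg n [a] ++ dcfg n [a]) (cap.dblG n tw [a, a]) = [] :=
      h.symm.imp id fun e => by rw [s1, e]; rfl
    have r2 := run_right (run_mpass b (dcfg n [a]) (dcfg n [x])) (dcfg n [a])
    rw [List.append_assoc, List.append_assoc] at r2
    have e1 := IT.pre r2 (cable_pass (A := A) (!b) n x r1 h1).symm
    have e2 := IT.pre r2 ((cable_add (A := A) (!b) n x _ _).app (run_right r1 _))
    have r3 := run_left (run_mpass (!b) (dcfg n [x]) (dcfg n [a])) (dcfg n [a])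
    have r4 := run_right r1 (dcfg n [x])
    rw [List.append_assoc] at r4
    have e3 := ((((cable_two (A := A) b n h).right (dcfg n [a])).cfg (List.append_assoc _ _ _)
      (List.append_assoc _ _ _)).app r3).app r4
    have := (e1.trans (e2.trans (e3.cast (by simp) rfl))).iso
    rw [dblG_cons (x := cr b) (i := 0) (d := [x, a, a]) rfl,
      dblG_cons (x := cap) (i := 1) (d := [x]) (by simp [step, Kind.act]),
      dblG_cons (x := cr !b) (i := 1) (d := [a, a, x]) rfl,
      dblG_cons (x := cap) (i := 0) (d := [x]) (by simp [step, Kind.act]), dcfg_cons n a [x, a],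
      dcfg_cons n x [a]]
    have ec : cap.dblG n tw [a, a, x] = cap.dblG n tw [a, a] := rfl
    simpa [dblG_cr, dblG_nil, dcfg_nil, mpass_zero, ec] using this
  | two b x y h =>
    rw [dblG_cons (x := cr b) (i := 0) (d := [y, x]) rfl,
      dblG_cons (x := cr !b) (i := 0) (d := [x, y]) rfl, dcfg_cons n x [y]]
    simpa [dblG_cr, dblG_nil, dcfg_nil] using (cable_two (A := A) b n h).iso
  | three x y z h a b c h' =>
    have sk : ∀ (t : Bool) (u v : Option ℕ), u = none ∨ v = none →
        skel (dcfg n [u] ++ dcfg n [v]) (mpass t (dcfg n [u]).length (dcfg n [v]).length) = [] := by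
      intro t u v huv
      have := skel_dblG (c := [u, v]) (w := [(cr t, 0)]) rfl n tw
      rw [dblG_letter (x := cr t) rfl, dblG_cr, dcfg_cons n u [v]] at this
      rw [this]
      rcases huv with rfl | rfl
      · rfl
      · cases u <;> rfl
    rw [dblG_cons (x := cr x) (i := 0) (d := [b, a, c]) rfl,
      dblG_cons (x := cr y) (i := 1) (d := [b, c, a]) rfl,
      dblG_cons (x := cr z) (i := 0) (d := [c, b, a]) rfl,
      dblG_cons (x := cr z) (i := 1) (d := [a, c, b]) rfl,
      dblG_cons (x := cr y) (i := 0) (d := [c, a, b]) rfl,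
      dblG_cons (x := cr x) (i := 1) (d := [c, b, a]) rfl, dcfg_cons n a [b, c], dcfg_cons n b [c]]
    rcases h with rfl | rfl
    · have r1 := run_mpass z (dcfg n [b]) (dcfg n [c])
      have e1 := (cable_add (A := A) y n a (dcfg n [b]) (dcfg n [c])).symm.app (run_right r1 _)
      have e2 := cable_pass (A := A) y n a r1 (h'.imp id (sk z b c))
      have e3 := IT.pre (run_left r1 _) (cable_add (A := A) y n a (dcfg n [c]) (dcfg n [b]))
      simpa [dblG_cr, dblG_nil, dcfg_nil] using (e1.trans (e2.trans e3)).iso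
    · have e1 := cable_ride (A := A) y n c (run_mpass x (dcfg n [a]) (dcfg n [b]))
        ((or_assoc.2 h').symm.imp id (sk x a b))
      simpa [dblG_cr, dblG_nil, dcfg_nil, mpass_add] using e1.iso

section Dbl
variable {c c' : Config} {n t t' : ℕ} {y z B : Word} {tw : ℤ → ℤ}

/-- Insertion of a block as a linear map. -/
noncomputable def insT (A : Rˣ) (κ : ℕ × ℤ) (B : Word)
    (hB : run [some κ.1] B = some [some κ.1]) (c : Config) : Tan A c →ₗ[R] Tan A c :=
  (wfun_ins hB).lift (ins_move hB) c

theorem insT_cls (κ : ℕ × ℤ) (B : Word) (hB) (c : Config) (w : Word) :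
    insT A κ B hB c (cls A c w) = cls A c (ins κ B w) := (wfun_ins hB).lift_cls _ c w

/-- Doubling as a linear map. -/
noncomputable def dblT (A : Rˣ) (n : ℕ) (tw : ℤ → ℤ) (c : Config) :
    Tan A c →ₗ[R] Tan A (dcfg n c) := (wfun_dbl n tw).lift (dbl_move n tw) c

theorem dblT_cls (n : ℕ) (tw : ℤ → ℤ) (c : Config) (w : Word) :
    dblT A n tw c (cls A c w) = cls A (dcfg n c) (dblG n tw c w) :=
  (wfun_dbl n tw).lift_cls _ c w

theorem Iso.ins {κ : ℕ × ℤ} {l r : Word} (h : Iso A c l r)
    (hB : run [some κ.1] B = some [some κ.1]) : Iso A c (ins κ B l) (ins κ B r) := by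
  obtain ⟨d, h1, h2⟩ := h.same.ex
  refine ⟨⟨by rw [run_ins hB h1]; rfl, by rw [run_ins hB h1, run_ins hB h2], ?_⟩, ?_⟩
  · rw [skel_ins hB h1, skel_ins hB h2, h.same.skel_eq]
  · rw [← insT_cls κ B hB, ← insT_cls κ B hB, h.eq]

theorem Iso.dblG {l r : Word} (h : Iso A c l r) (n : ℕ) (tw : ℤ → ℤ) :
    Iso A (dcfg n c) (dblG n tw c l) (dblG n tw c r) := by
  obtain ⟨d, h1, h2⟩ := h.same.ex
  refine ⟨⟨by rw [run_dblG h1]; rfl, by rw [run_dblG h1, run_dblG h2], ?_⟩, ?_⟩
  · rw [skel_dblG h1, skel_dblG h2, h.same.skel_eq]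
  · rw [← dblT_cls, ← dblT_cls, h.eq]

theorem loopn_nat (h : run c z = some c') :
    Iso A c (z ++ loopn c'.length) (loopn c.length ++ z) := by
  have e1 := IT.far (A := A) (c1 := []) (x := [(cup none, 0)]) rfl h (Or.inl rfl)
  have e2 := (IT.npass (A := A) true none h (Or.inl rfl)).one none
  have e3 := (IT.npass (A := A) false none h (Or.inl rfl)).right [none]
  have e4 := IT.far (A := A) h (c2 := [none, none]) (y := [(cap, 0)]) rfl (Or.inr rfl)
  have r1 : ∀ d : Config, run (none :: none :: d) (shift 1 (pass true d.length)) =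
      some (none :: (d ++ [none])) := fun d => run_one (run_pass true none d) none
  have r2 : ∀ d : Config, run (none :: (d ++ [none])) (pass false d.length) =
      some (d ++ [none, none]) := fun d => run_pass' false none d [none]
  have r3 : run (c' ++ [none, none]) (shift c'.length [(cap, 0)]) = some (c' ++ []) :=
    run_left rfl c'
  have r0 : run c [(cup none, 0)] = some (none :: none :: c) := rfl
  have a1 := ((e1.symm.app (r1 c')).app (r2 c')).app r3
  have a2 := ((IT.pre r0 e2.symm).app (r2 c')).app r3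
  have a3 := (IT.pre r0 (IT.pre (r1 c) (e3.symm.cfg rfl (List.append_assoc _ _ _)))).app r3
  have a4 := IT.pre r0 (IT.pre (r1 c) (IT.pre (r2 c) e4))
  have := a1.trans ((a2.cast ?_ ?_).trans ((a3.cast rfl ?_).trans a4))
  · simpa [loopn] using this.iso
  all_goals simp [shift_shift]

theorem blk_at {a : Option ℕ} (ha : (c)[t]? = some a)
    (hB : run (dcfg n [a]) B = some (dcfg n [a])) :
    run (dcfg n c) (shift (dcfg n (c.take t)).length B) = some (dcfg n c) ∧
      (skel (dcfg n [a]) B = [] → skel (dcfg n c) (shift (dcfg n (c.take t)).length B) = []) := by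
  obtain ⟨hl, rfl⟩ := List.getElem?_eq_some_iff.mp ha
  have e : dcfg n c = dcfg n (c.take t) ++ dcfg n [(c)[t]] ++ dcfg n (c.drop (t + 1)) := by
    rw [← dcfg_append, ← dcfg_append]
    simp
  rw [e]
  exact ⟨run_whisk hB _ _, fun h => by rw [skel_whisk hB, h]; rfl⟩

theorem slide_letter {a : Option ℕ} {x : Kind} {i : ℕ} (h : step x i c = some c')
    (ht : x.trk i t = some t') (ha : (c)[t]? = some a)
    (hB : run (dcfg n [a]) B = some (dcfg n [a]))
    (hs : skel (dcfg n [a]) B = [] ∨ (a.isSome = true ∧ skl c x i = [])) (tw : ℤ → ℤ) :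
    Iso A (dcfg n c) (shift (dcfg n (c.take t)).length B ++ dblG n tw c [(x, i)])
      (dblG n tw c [(x, i)] ++ shift (dcfg n (c'.take t')).length B) := by
  obtain ⟨cl, c0, c0', cr, rfl, rfl, rfl, h1, h1', h0⟩ := step_decomp h
  have r0 : run c0 [(x, 0)] = some c0' := by rw [run_single]; exact h0
  have k0 : skl (cl ++ c0 ++ cr) x cl.length = [] →
      skel (dcfg n c0) (dblG n tw c0 [(x, 0)]) = [] := fun e => by
    rw [skel_dblG r0, skel_cons_of (x := x) (i := 0) h0, skl_zero (skl_eq_nil h0 e)]; rfl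
  have rD := run_dblG r0 n tw
  have eD : dblG n tw (cl ++ c0 ++ cr) [(x, cl.length)] =
      shift (dcfg n cl).length (dblG n tw c0 [(x, 0)]) := by
    simpa using dblG_whisk r0 n tw cl cr
  rw [eD, dcfg_append, dcfg_append]
  by_cases t1 : t < cl.length
  · obtain rfl : t = t' := by
      cases x <;> simp only [Kind.trk] at ht <;> split_ifs at ht <;>
        first | omega | exact Option.some.inj ht
    rw [List.append_assoc, List.getElem?_append_left t1] at ha
    obtain ⟨b1, b2⟩ := blk_at ha hB
    simp only [List.append_assoc, List.take_append_of_le_length t1.le]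
    exact far_block b1 (run_right rD _) (hs.imp b2 fun e => by rw [skel_right rD, k0 e.2])
  by_cases t2 : cl.length + x.inp ≤ t
  · obtain ⟨s, rfl⟩ : ∃ s, t = (cl ++ c0).length + s :=
      ⟨t - (cl ++ c0).length, by simp [h1]; omega⟩
    obtain rfl : t' = (cl ++ c0').length + s := by
      simp only [List.length_append, h1, h1'] at ht ⊢
      cases x <;> simp only [Kind.trk, Kind.inp, Kind.out] at ht ⊢ <;> split_ifs at ht <;>
        first | omega | (have := Option.some.inj ht; omega)
    rw [List.getElem?_append_right (Nat.le_add_right _ _), Nat.add_sub_cancel_left] at ha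
    obtain ⟨b1, b2⟩ := blk_at ha hB
    have := (far_block (A := A) (run_left rD (dcfg n cl)) b1
      (hs.symm.imp (fun e => by rw [skel_left rD, k0 e.2]; rfl) b2)).symm
    rw [List.take_length_add_append, List.take_length_add_append]
    rw [shift_shift, shift_shift, Nat.add_comm _ (dcfg n cl ++ _).length,
      Nat.add_comm _ (dcfg n cl ++ _).length] at this
    simpa [dcfg_append, Nat.add_assoc] using this
  cases x with
  | cup k => simp [Kind.inp] at t2; omega
  | cap =>
    simp only [Kind.inp, Kind.trk] at ht t2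
    rw [if_neg t1, if_pos (by omega)] at ht
    cases ht
  | cr b =>
    match c0, h1, h0 with
    | [u, v], _, h0 =>
      cases h0
      have su : skl (cl ++ [u, v] ++ cr) (Kind.cr b) cl.length = [] →
          u.isSome = false ∨ v.isSome = false := fun e => by
        have := skl_eq_nil (x := Kind.cr b) (c0 := [u, v]) rfl e
        cases u <;> cases v <;> simp [Kind.surg] at this ⊢
      rw [dblG_letter (x := Kind.cr b) rfl, dblG_cr, dcfg_cons n u [v]]
      simp only [Kind.inp, Kind.trk] at ht t2
      by_cases t3 : t = cl.length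
      · subst t3
        rw [if_pos rfl] at ht
        cases ht
        obtain rfl : u = a := by simpa using ha
        have := (cable_ride (A := A) b n v hB (hs.symm.imp (fun e => by
          have := su e.2
          cases v <;> simp_all) id)).whisk (dcfg n cl) (dcfg n cr)
        have e1 : (cl ++ [v, u] ++ cr).take (cl.length + 1) = cl ++ [v] := by
          rw [List.append_assoc, List.take_length_add_append]; rfl
        rw [e1]
        simpa [dcfg_append, shift_shift, Nat.add_comm] using this.iso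
      · obtain rfl : t = cl.length + 1 := by omega
        rw [if_neg t3, if_pos rfl] at ht
        cases ht
        obtain rfl : v = a := by simpa using ha
        have := (cable_pass (A := A) b n u hB (hs.symm.imp (fun e => by
          have := su e.2
          cases u <;> simp_all) id)).symm.whisk (dcfg n cl) (dcfg n cr)
        have e1 : (cl ++ [u, v] ++ cr).take (cl.length + 1) = cl ++ [u] := by
          rw [List.append_assoc, List.take_length_add_append]; rfl
        rw [e1]
        simpa [dcfg_append, shift_shift, Nat.add_comm] using this.iso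

/-- A block slides along a (possibly doubled) strand. -/
theorem slide_word {a : Option ℕ} (h : run c z = some c') (ht : trk z t = some t')
    (ha : (c)[t]? = some a) (hB : run (dcfg n [a]) B = some (dcfg n [a]))
    (hs : skel (dcfg n [a]) B = [] ∨ (a.isSome = true ∧ skel c z = [])) (tw : ℤ → ℤ) :
    Iso A (dcfg n c) (shift (dcfg n (c.take t)).length B ++ dblG n tw c z)
      (dblG n tw c z ++ shift (dcfg n (c'.take t')).length B) := by
  induction z generalizing c t with
  | nil =>
    cases h
    cases ht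
    simpa [dblG_nil] using Iso.refl (blk_at ha hB).1
  | cons x w ih =>
    obtain ⟨x, i⟩ := x
    obtain ⟨d, hd, hw⟩ := run_cons_some h
    obtain ⟨t1, k1, k2⟩ := Option.bind_eq_some_iff.mp ht
    have r1 : run c [(x, i)] = some d := by rw [run_single, hd]
    have ha' : (d)[t1]? = some a := by
      rw [← ha]
      exact trk_get r1 (by simp [trk, k1]) (List.getElem?_eq_some_iff.mp ha).1
    have e1 := slide_letter (A := A) hd k1 ha hB
      (hs.imp id fun e => ⟨e.1, (skel_cons_nil hd e.2).1⟩) tw
    have e2 := ih hw k2 ha' (hs.imp id fun e => ⟨e.1, (skel_cons_nil hd e.2).2⟩)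
    have e3 := e1.app (s := dblG n tw d w) (c' := dcfg n c') (by
      rw [List.append_assoc, run_append_of (blk_at ha hB).1, run_append_of (run_dblG r1 n tw)]
      exact run_dblG hw n tw)
    have e4 := e2.pre (run_dblG r1 n tw)
    rw [show (x, i) :: w = [(x, i)] ++ w from rfl, dblG_append r1]
    simpa using (e3.trans (by simpa using e4) :)

theorem exists_fresh (c : Config) (z : Word) : ∃ n, some n ∉ c ∧ NoCol n z := by
  let col : Kind × ℕ → Option ℕ := fun x =>
    match x.1 with
    | cup k => k.map Prod.fst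
    | _ => none
  obtain ⟨n, hn⟩ := Infinite.exists_notMem_finset ((c ++ z.map col).filterMap id).toFinset
  simp only [List.mem_toFinset, List.mem_filterMap, id, exists_eq_right, List.mem_append,
    not_or] at hn
  refine ⟨n, hn.1, fun f hf => hn.2 ?_⟩
  obtain ⟨x, hx, e⟩ := List.mem_map.mp hf
  exact List.mem_map.mpr ⟨x, hx, by simp [col, e]⟩

theorem slide_word' {a : Option ℕ} (h : run c z = some c') (ht : trk z t = some t')
    (ha : (c)[t]? = some a) (hB : run [a] B = some [a])
    (hs : skel [a] B = [] ∨ (a.isSome = true ∧ skel c z = [])) :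
    Iso A c (shift t B ++ z) (z ++ shift t' B) := by
  obtain ⟨n, h1, h2⟩ := exists_fresh c z
  have h3 := notMem_run h1 h2 h
  have hl := (List.getElem?_eq_some_iff.mp ha).1
  have hl' := (List.getElem?_eq_some_iff.mp ((trk_get h ht hl).trans ha)).1
  have ea : dcfg n [a] = [a] := dcfg_of_notMem fun e =>
    h1 (List.mem_singleton.mp e ▸ List.mem_of_getElem? ha)
  have := slide_word (A := A) (n := n) h ht ha (ea.symm ▸ hB) (ea.symm ▸ hs) id
  rwa [dblG_of_noCol h1 h2 h, dcfg_of_notMem h1,
    dcfg_of_notMem fun e => h1 (List.mem_of_mem_take e),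
    dcfg_of_notMem fun e => h3 (List.mem_of_mem_take e), List.length_take, List.length_take,
    Nat.min_eq_left hl.le, Nat.min_eq_left hl'.le] at this

end Dbl

end Pool.Agent.Lib.MP_5b31c3_gt
end

-- part Pool.Agent.Lib.MP_5b31c3_gt.AlgPull
section

/-
Pulling the operators of the last level back along the crossings of a word.
-/

namespace Pool.Agent.Lib.MP_5b31c3_gt

universe v

variable {R : Type*} [CommRing R] {A : Rˣ}

section Pull
variable {U : Type*} [AddCommGroup U] [Module R U]

/-- The crossings intertwine the operators of a level as prescribed by `Step`. -/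
structure Inter (A : Rˣ) (M : (Module.End R U)ˣ) (L : Lvl R U) (σ : Bool → Module.End R U) :
    Prop where
  cm : ∀ x, σ x * M = M * σ x
  ta : L.a * σ true = σ true * L.c
  tb : L.b * σ true = σ true * L.b
  tp : L.p * σ true = σ true * L.a
  tal : ∀ e, L.al e * σ true = σ true * L.G e
  tbe : ∀ e, L.be e * σ true = σ true * (sc A (-1) • (mp M e (-1) * L.be e))
  tP : ∀ e, L.P e * σ true = σ true * L.al e
  fa : L.a * σ false = σ false * L.a
  fb : L.b * σ false = σ false * L.c
  fp : L.p * σ false = σ false * L.b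
  fal : ∀ e, L.al e * σ false = σ false * (sc A 1 • (mp M e 1 * L.al e))
  fbe : ∀ e, L.be e * σ false = σ false * L.G e
  fP : ∀ e, L.P e * σ false = σ false * L.be e

/-- The values at the generating vector. -/
structure Top0 (A : Rˣ) (M : (Module.End R U)ˣ) (L : Lvl R U) (v : U) : Prop where
  a : L.a v = dl A • v
  p : L.p v = -(sc A (-4) • L.b v) - sc A (-2) • tau M v
  al : ∀ e, L.al e v = sc A 6 • mp M e 2 v - (2 * sc A 2) • v + sc A (-2) • mp M e (-2) v
  be : ∀ e, L.be e v = -(sc A 2 • L.b v) - sc A 4 • mp M e 2 v - mp M e (-2) v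
  P : ∀ e, L.P e v = -(sc A 1 • mp M e (-1) (L.p v)) - sc A 3 • mp M e 1 v -
    sc A (-1) • mp M e (-3) v

/-- The composite of the crossings along a word; the first letter acts first. -/
def sig (σ : Bool → Module.End R U) : List Bool → Module.End R U
  | [] => 1
  | x :: w => sig σ w * σ x

namespace Pull

variable {W : Type*} [AddCommGroup W] [Module R W] {ι : W →ₗ[R] U} {g : Module.End R U}
  {S S' : Module.End R U} {T T' : Module.End R W} {M : (Module.End R U)ˣ}
  {M' : (Module.End R W)ˣ} {L : Lvl R U} {L' : Lvl R W}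

/-- The operator `T` corresponds to the operator `S`. -/
def Rl (ι : W →ₗ[R] U) (g S : Module.End R U) (T : Module.End R W) : Prop :=
  ∀ x y, ι x = g y → ι (T x) = g (S y)

theorem Rl.one : Rl ι g 1 1 := fun _ _ h => h

theorem Rl.add (h : Rl ι g S T) (h' : Rl ι g S' T') : Rl ι g (S + S') (T + T') :=
  fun x y e => by simp only [LinearMap.add_apply, map_add, h x y e, h' x y e]

theorem Rl.sub (h : Rl ι g S T) (h' : Rl ι g S' T') : Rl ι g (S - S') (T - T') :=
  fun x y e => by simp only [LinearMap.sub_apply, map_sub, h x y e, h' x y e]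

theorem Rl.smul (r : R) (h : Rl ι g S T) : Rl ι g (r • S) (r • T) :=
  fun x y e => by simp only [LinearMap.smul_apply, map_smul, h x y e]

theorem Rl.mul (h : Rl ι g S T) (h' : Rl ι g S' T') : Rl ι g (S * S') (T * T') :=
  fun x y e => h _ _ (h' x y e)

theorem Rl.pow (h : Rl ι g S T) (n : ℕ) : Rl ι g (S ^ n) (T ^ n) := by
  induction n with
  | zero => simpa using Rl.one
  | succ n ih => rw [pow_succ, pow_succ]; exact ih.mul h

theorem Rl.cast (h : Rl ι g S T) (e : S = S') : Rl ι g S' T := e ▸ h

theorem Rl.eq (hi : Function.Injective ι) (hs : ∀ x, ∃ y, ι x = g y) (e : S = S')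
    (h : Rl ι g S T) (h' : Rl ι g S' T') : T = T' := LinearMap.ext fun x => by
  obtain ⟨y, hy⟩ := hs x
  exact hi (by rw [h x y hy, h' x y hy, e])

theorem Rl.comp {S'' : Module.End R U} (h : Rl ι 1 S'' T) (h' : Rl LinearMap.id g S S'') :
    Rl ι g S T := fun x y e => (h x (g y) e).trans (h' (g y) y rfl)

theorem Rl.step {S'' σ : Module.End R U} (h : Rl LinearMap.id g S' S'') (e : S' * σ = σ * S) :
    Rl LinearMap.id (g * σ) S S'' := fun x y h1 =>
  (h x (σ y) h1).trans (congrArg g (LinearMap.congr_fun e y))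

/-- Corresponding levels. -/
structure LRl (ι : W →ₗ[R] U) (g : Module.End R U) (M : (Module.End R U)ˣ)
    (M' : (Module.End R W)ˣ) (L : Lvl R U) (L' : Lvl R W) : Prop where
  m : ∀ e k, Rl ι g (mp M e k) (mp M' e k)
  a : Rl ι g L.a L'.a
  b : Rl ι g L.b L'.b
  c : Rl ι g L.c L'.c
  p : Rl ι g L.p L'.p
  al : ∀ e, Rl ι g (L.al e) (L'.al e)
  be : ∀ e, Rl ι g (L.be e) (L'.be e)
  G : ∀ e, Rl ι g (L.G e) (L'.G e)
  P : ∀ e, Rl ι g (L.P e) (L'.P e)

theorem rl_tau (h : ∀ e k, Rl ι g (mp M e k) (mp M' e k)) : Rl ι g (tau M) (tau M') :=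
  ((h true 1).add (h true (-1))).pow 2

theorem LRl.rel (h : LRl ι g M M' L L') (hi : Function.Injective ι) (hs : ∀ x, ∃ y, ι x = g y)
    (hR : Rel A M L) : Rel A M' L' := by
  have u := fun {S S' T T'} => Rl.eq (S := S) (S' := S') (T := T) (T' := T') hi hs
  have t := rl_tau h.m
  have m : Rl ι g (M : Module.End R U) (M' : Module.End R W) := by
    simpa only [mp_true_one] using h.m true 1
  refine ⟨u hR.ca ?_ ?_, u hR.cb ?_ ?_, u hR.cc ?_ ?_, u hR.cp ?_ ?_,
    fun e => u (hR.sal e) ?_ ?_, fun e => u (hR.sbe e) ?_ ?_, fun e => u (hR.sG e) ?_ ?_,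
    fun e => u (hR.sP e) ?_ ?_, u hR.L1 ?_ ?_, u hR.L2 ?_ ?_, u hR.L3 ?_ ?_, u hR.L4 ?_ ?_,
    u hR.cub ?_ ?_, fun e => u (hR.K1 e) ?_ ?_, fun e => u (hR.K1L e) ?_ ?_,
    fun e => u (hR.K2 e) ?_ ?_, fun e => u (hR.K2L e) ?_ ?_, fun e => u (hR.K3a e) ?_ ?_,
    fun e => u (hR.K3b e) ?_ ?_, fun e => u (hR.K4a e) ?_ ?_, fun e => u (hR.K4b e) ?_ ?_,
    fun e => u (hR.K5a e) ?_ ?_, fun e => u (hR.K5b e) ?_ ?_⟩ <;>
  repeat' with_reducible first
    | apply Rl.add | apply Rl.sub | apply Rl.smul | apply Rl.mul | exact t | exact m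
    | exact h.m _ _ | exact h.a | exact h.b | exact h.c | exact h.p | exact h.al _ | exact h.be _
    | exact h.G _ | exact h.P _ | exact Rl.one

theorem LRl.comp {L'' : Lvl R U} (h : LRl ι 1 M M' L'' L') (h' : LRl LinearMap.id g M M L L'') :
    LRl ι g M M' L L' :=
  ⟨fun e k => (h.m e k).comp (h'.m e k), h.a.comp h'.a, h.b.comp h'.b, h.c.comp h'.c,
    h.p.comp h'.p, fun e => (h.al e).comp (h'.al e), fun e => (h.be e).comp (h'.be e),
    fun e => (h.G e).comp (h'.G e), fun e => (h.P e).comp (h'.P e)⟩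

theorem cancel (M : (Module.End R U)ˣ) (e : Bool) (i j : ℤ) (S : Module.End R U) :
    sc A (-i) • (mp M e (-j) * (sc A i • (mp M e j * S))) = S := by
  rw [mul_smul_comm, smul_smul, sc_neg_mul, one_smul, ← mul_assoc, mp_mul_mp, neg_add_cancel,
    mp_zero, one_mul]

theorem cancel' (M : (Module.End R U)ˣ) (e : Bool) (i j : ℤ) (S : Module.End R U) :
    sc A i • (mp M e j * (sc A (-i) • (mp M e (-j) * S))) = S := by
  simpa only [neg_neg] using cancel (A := A) M e (-i) (-j) S

/-- A level whose operators `p` and `P` are computed from the others. -/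
def fill (A : Rˣ) (M : (Module.End R U)ˣ) (a b c : Module.End R U)
    (al be G : Bool → Module.End R U) : Lvl R U where
  a := a
  b := b
  c := c
  p := sc A 2 • (a * b - sc A 2 • c - (2 : R) • tau M)
  al := al
  be := be
  G := G
  P e := sc A (-3) • (mp M e (-1) * (be e * a - sc A (-3) • (mp M e (-1) * G e) - (2 : R) • al e))

theorem p_eq (h : Rel A M L) : sc A 2 • (L.a * L.b - sc A 2 • L.c - (2 : R) • tau M) = L.p := by
  rw [h.L1, add_sub_right_comm, add_sub_cancel_left, add_sub_cancel_right, smul_smul, sc_mul_neg,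
    one_smul]

theorem P_eq (h : Rel A M L) (e : Bool) : sc A (-3) • (mp M e (-1) *
    (L.be e * L.a - sc A (-3) • (mp M e (-1) * L.G e) - (2 : R) • L.al e)) = L.P e := by
  rw [h.K1, add_sub_right_comm, add_sub_cancel_left, add_sub_cancel_right, cancel]

theorem G_eq (h : Rel A M L) (e : Bool) : L.G e = sc A 3 • (mp M e 1 *
    (L.be e * L.a - sc A 3 • (mp M e 1 * L.P e) - (2 : R) • L.al e)) := by
  rw [h.K1, add_sub_right_comm, add_sub_cancel_right, add_sub_cancel_right, cancel']

theorem fill_rl (hR : Rel A M L) {a b c : Module.End R U} {al be G : Bool → Module.End R U}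
    (m : ∀ e k, Rl LinearMap.id g (mp M e k) (mp M e k)) (ha : Rl LinearMap.id g L.a a)
    (hb : Rl LinearMap.id g L.b b) (hc : Rl LinearMap.id g L.c c)
    (hal : ∀ e, Rl LinearMap.id g (L.al e) (al e)) (hbe : ∀ e, Rl LinearMap.id g (L.be e) (be e))
    (hG : ∀ e, Rl LinearMap.id g (L.G e) (G e)) :
    LRl LinearMap.id g M M L (fill A M a b c al be G) :=
  ⟨m, ha, hb, hc, ((((ha.mul hb).sub (hc.smul _)).sub ((rl_tau m).smul _)).smul _).cast (p_eq hR),
    hal, hbe, hG, fun e => (((m e _).mul ((((hbe e).mul ha).sub (((m e _).mul (hG e)).smul _)).sub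
      ((hal e).smul _))).smul _).cast (P_eq hR e)⟩

/-- The level before a crossing. -/
def up (A : Rˣ) (M : (Module.End R U)ˣ) : Bool → Lvl R U → Lvl R U
  | true, L => fill A M L.p L.b L.a L.P (fun e => sc A 1 • (mp M e 1 * L.be e)) L.al
  | false, L => fill A M L.a L.p L.b (fun e => sc A (-1) • (mp M e (-1) * L.al e)) L.P L.be

/-- The level before a word. -/
def pull (A : Rˣ) (M : (Module.End R U)ˣ) (L : Lvl R U) : List Bool → Lvl R U
  | [] => L
  | x :: s => up A M x (pull A M L s)

variable {σ : Bool → Module.End R U}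

theorem pull_rl (hR : Rel A M L) (hI : Inter A M L σ) (s : List Bool) :
    LRl LinearMap.id (sig σ s) M M L (pull A M L s) := by
  induction s with
  | nil =>
    have r : ∀ S : Module.End R U, Rl LinearMap.id 1 S S := fun S x y e => congrArg S e
    exact ⟨fun _ _ => r _, r _, r _, r _, r _, fun _ => r _, fun _ => r _, fun _ => r _,
      fun _ => r _⟩
  | cons x s ih =>
    have m : ∀ e k, Rl LinearMap.id (sig σ s * σ x) (mp M e k) (mp M e k) := fun e k =>
      (ih.m e k).step (commute_mp (hI.cm x) e k).symm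
    cases x
    · exact fill_rl hR m (ih.a.step hI.fa) (ih.p.step hI.fp) (ih.b.step hI.fb)
        (fun e => (((m e _).mul ((ih.al e).step (hI.fal e))).smul _).cast (cancel M e 1 1 _))
        (fun e => (ih.P e).step (hI.fP e)) fun e => (ih.be e).step (hI.fbe e)
    · exact fill_rl hR m (ih.p.step hI.tp) (ih.b.step hI.tb) (ih.a.step hI.ta)
        (fun e => (ih.P e).step (hI.tP e))
        (fun e => (((m e _).mul ((ih.be e).step (hI.tbe e))).smul _).cast (cancel' M e 1 1 _))
        fun e => (ih.al e).step (hI.tal e)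

/-- A submodule that is stable under all operators of a level. -/
structure Stab (M : (Module.End R U)ˣ) (L : Lvl R U) (Λ : Submodule R U) : Prop where
  m : ∀ e k, Pres (mp M e k) Λ
  a : Pres L.a Λ
  b : Pres L.b Λ
  c : Pres L.c Λ
  p : Pres L.p Λ
  al : ∀ e, Pres (L.al e) Λ
  be : ∀ e, Pres (L.be e) Λ
  G : ∀ e, Pres (L.G e) Λ
  P : ∀ e, Pres (L.P e) Λ

variable {Λ : Submodule R U}

theorem pres_tau (h : ∀ e k, Pres (mp M e k) Λ) : Pres (tau M) Λ :=
  ((h true 1).add (h true (-1))).pow 2

theorem Stab.of (hR : Rel A M L) (m : ∀ e k, Pres (mp M e k) Λ) (a : Pres L.a Λ) (b : Pres L.b Λ)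
    (p : Pres L.p Λ) (al : ∀ e, Pres (L.al e) Λ) (be : ∀ e, Pres (L.be e) Λ)
    (P : ∀ e, Pres (L.P e) Λ) : Stab M L Λ :=
  ⟨m, a, b, hR.c_eq ▸ (((a.mul b).smul _).sub (p.smul _)).sub ((pres_tau m).smul _), p, al, be,
    fun e => G_eq hR e ▸ ((m e _).mul ((((be e).mul a).sub (((m e _).mul (P e)).smul _)).sub
      ((al e).smul _))).smul _, P⟩

theorem pres_map (e : S' * g = g * S) (h : Pres S Λ) : Pres S' (Λ.map g) := by
  rintro _ ⟨y, hy, rfl⟩
  exact ⟨S y, h y hy, (LinearMap.congr_fun e y).symm⟩

theorem Rl.pres (e : Rl LinearMap.id g S S') (h : Pres S Λ) : Pres S' (Λ.map g) :=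
  pres_map (LinearMap.ext fun y => e (g y) y rfl) h

theorem Stab.map (hR : Rel A M L) (hI : Inter A M L σ) (h : Stab M L Λ) (x : Bool) :
    Stab M L (Λ.map (σ x)) := by
  have m : ∀ e k, Pres (mp M e k) (Λ.map (σ x)) := fun e k =>
    pres_map (commute_mp (hI.cm x) e k).symm (h.m e k)
  cases x
  · exact Stab.of hR m (pres_map hI.fa h.a) (pres_map hI.fb h.c) (pres_map hI.fp h.b)
      (fun e => pres_map (hI.fal e) (((h.m e _).mul (h.al e)).smul _))
      (fun e => pres_map (hI.fbe e) (h.G e)) fun e => pres_map (hI.fP e) (h.be e)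
  · exact Stab.of hR m (pres_map hI.ta h.c) (pres_map hI.tb h.b) (pres_map hI.tp h.a)
      (fun e => pres_map (hI.tal e) (h.G e))
      (fun e => pres_map (hI.tbe e) (((h.m e _).mul (h.be e)).smul _))
      fun e => pres_map (hI.tP e) (h.al e)

theorem LRl.stab {L'' : Lvl R U} (e : LRl LinearMap.id g M M L L'') (h : Stab M L Λ) :
    Stab M L'' (Λ.map g) :=
  ⟨fun x k => (e.m x k).pres (h.m x k), e.a.pres h.a, e.b.pres h.b, e.c.pres h.c, e.p.pres h.p,
    fun x => (e.al x).pres (h.al x), fun x => (e.be x).pres (h.be x),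
    fun x => (e.G x).pres (h.G x), fun x => (e.P x).pres (h.P x)⟩

theorem stab_top {v : U} (hR : Rel A M L) (ht : Top0 A M L v) :
    Stab M L (Submodule.span R {x | ∃ (i : ℤ) (k : ℕ), x = mp M true i ((L.b ^ k) v)}) := by
  set Λ := Submodule.span R {x | ∃ (i : ℤ) (k : ℕ), x = mp M true i ((L.b ^ k) v)}
  have sp : ∀ T : Module.End R U, (∀ i k, T (mp M true i ((L.b ^ k) v)) ∈ Λ) → Pres T Λ :=
    fun T hT x hx => (Submodule.span_le (p := Λ.comap T)).2 (by
      rintro _ ⟨i, k, rfl⟩
      exact hT i k) hx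
  have m1 : ∀ k, Pres (mp M true k) Λ := fun k => sp _ fun i j =>
    Submodule.subset_span ⟨k + i, j, mp_mp M true k i _⟩
  have m : ∀ e k, Pres (mp M e k) Λ := fun e k => by
    cases e
    · rw [← Bool.not_true, mp_not]
      exact m1 _
    · exact m1 k
  have t := pres_tau m
  have gn : ∀ k, (L.b ^ k) v ∈ Λ := fun k => Submodule.subset_span ⟨0, k, by simp⟩
  have lin : ∀ T : Module.End R U, T * M = M * T → (∀ k, T ((L.b ^ k) v) ∈ Λ) → Pres T Λ :=
    fun T hT h => sp T fun i k => by
      rw [← Module.End.mul_apply, (commute_mp hT true i).eq]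
      exact m true i _ (h k)
  have sem : ∀ X, Semi A M X → ∀ e, (∀ k, X e ((L.b ^ k) v) ∈ Λ) → Pres (X e) Λ :=
    fun X hX e h => sp _ fun i k => by
      obtain ⟨u, hu⟩ := hX.exists_mp e true i
      rw [← Module.End.mul_apply, hu]
      exact Λ.smul_mem _ (m true i _ (h k))
  have b : Pres L.b Λ := lin _ hR.cb fun k => by
    rw [← Module.End.mul_apply, ← pow_succ']
    exact gn _
  have key : ∀ k, L.a ((L.b ^ k) v) ∈ Λ ∧ L.p ((L.b ^ k) v) ∈ Λ ∧ (∀ e, L.al e ((L.b ^ k) v) ∈ Λ) ∧
      (∀ e, L.be e ((L.b ^ k) v) ∈ Λ) ∧ ∀ e, L.P e ((L.b ^ k) v) ∈ Λ := fun k => by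
    induction k with
    | zero =>
      have v0 : v ∈ Λ := gn 0
      have p0 : L.p v ∈ Λ := ht.p ▸ sub_mem (neg_mem (Λ.smul_mem _ (b v v0)))
        (Λ.smul_mem _ (t v v0))
      exact ⟨ht.a ▸ Λ.smul_mem _ v0, p0,
        fun e => ht.al e ▸ add_mem (sub_mem (Λ.smul_mem _ (m e _ v v0)) (Λ.smul_mem _ v0))
          (Λ.smul_mem _ (m e _ v v0)),
        fun e => ht.be e ▸ sub_mem (sub_mem (neg_mem (Λ.smul_mem _ (b v v0)))
          (Λ.smul_mem _ (m e _ v v0))) (m e _ v v0),
        fun e => ht.P e ▸ sub_mem (sub_mem (neg_mem (Λ.smul_mem _ (m e _ _ p0)))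
          (Λ.smul_mem _ (m e _ v v0))) (Λ.smul_mem _ (m e _ v v0))⟩
    | succ k ih =>
      obtain ⟨a, p, al, be, P⟩ := ih
      have y := gn k
      simp only [pow_succ', Module.End.mul_apply]
      generalize (L.b ^ k) v = z at *
      refine ⟨?_, ?_, fun e => ?_, fun e => ?_, fun e => ?_⟩ <;> rw [← Module.End.mul_apply]
      · rw [hR.ab]
        exact add_mem (add_mem (Λ.smul_mem _ (b _ a)) (Λ.smul_mem _ p)) (Λ.smul_mem _ (t z y))
      · rw [hR.L4]
        exact add_mem (add_mem (Λ.smul_mem _ (b _ p)) (Λ.smul_mem _ a)) (Λ.smul_mem _ (t z y))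
      · rw [hR.alb]
        exact add_mem (add_mem (Λ.smul_mem _ (b _ (al e))) (Λ.smul_mem _ (m e _ _ (P e))))
          (Λ.smul_mem _ (be e))
      · rw [hR.K5b]
        exact b _ (be e)
      · rw [hR.K3b]
        exact add_mem (add_mem (Λ.smul_mem _ (b _ (P e))) (Λ.smul_mem _ (m e _ _ (al e))))
          (Λ.smul_mem _ (m e _ _ (be e)))
  exact Stab.of hR m (lin _ hR.ca fun k => (key k).1) b (lin _ hR.cp fun k => (key k).2.1)
    (fun e => sem _ hR.sal e fun k => (key k).2.2.1 e)
    (fun e => sem _ hR.sbe e fun k => (key k).2.2.2.1 e)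
    fun e => sem _ hR.sP e fun k => (key k).2.2.2.2 e

open Classical in
/-- The restriction of an operator to a submodule. -/
noncomputable def resE (S : Module.End R U) (Λ : Submodule R U) : Module.End R Λ :=
  if h : Pres S Λ then S.restrict h else 0

theorem rl_res (h : Pres S Λ) : Rl Λ.subtype 1 S (resE S Λ) := fun x y e => by
  rw [resE, dif_pos h]
  exact congrArg S e

/-- The restriction of a level to a submodule. -/
noncomputable def res (L : Lvl R U) (Λ : Submodule R U) : Lvl R Λ :=
  ⟨resE L.a Λ, resE L.b Λ, resE L.c Λ, resE L.p Λ, fun e => resE (L.al e) Λ,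
    fun e => resE (L.be e) Λ, fun e => resE (L.G e) Λ, fun e => resE (L.P e) Λ⟩

theorem exists_unit (h : ∀ e k, Pres (mp M e k) Λ) :
    ∃ M' : (Module.End R Λ)ˣ, ∀ e k, Rl Λ.subtype 1 (mp M e k) (mp M' e k) := by
  have u := fun {S S' T T'} => Rl.eq (S := S) (S' := S') (T := T) (T' := T') (g := 1)
    Λ.injective_subtype fun x => ⟨x, rfl⟩
  have r1 := rl_res (h true 1)
  have r2 := rl_res (h true (-1))
  refine ⟨⟨_, _, u (by rw [mp_mul_mp]; simp) (r1.mul r2) Rl.one,
    u (by rw [mp_mul_mp]; simp) (r2.mul r1) Rl.one⟩, fun e k x y hy => ?_⟩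
  rw [mp, tc_zpow (m' := M) (fun z => (r1 z z rfl).trans (by rw [mp_true_one]; rfl)), hy]
  rfl

theorem Stab.rl (h : Stab M L Λ) {M' : (Module.End R Λ)ˣ}
    (m : ∀ e k, Rl Λ.subtype 1 (mp M e k) (mp M' e k)) : LRl Λ.subtype 1 M M' L (res L Λ) :=
  ⟨m, rl_res h.a, rl_res h.b, rl_res h.c, rl_res h.p, fun e => rl_res (h.al e),
    fun e => rl_res (h.be e), fun e => rl_res (h.G e), fun e => rl_res (h.P e)⟩

theorem levels (hR : Rel A M L) (hI : Inter A M L σ) {Γ : Submodule R U} {M' : (Module.End R Γ)ˣ}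
    (m : ∀ e k, Rl Γ.subtype 1 (mp M e k) (mp M' e k)) (s : List Bool) :
    ∀ Λ, Stab M L Λ → Γ = Λ.map (sig σ s) →
      Levels A M' (res (pull A M L s) Γ) s (res L Γ) := by
  have r : ∀ s Λ, Stab M L Λ → Γ = Λ.map (sig σ s) → Stab M (pull A M L s) Γ ∧
      Rel A M' (res (pull A M L s) Γ) := fun s Λ h e => by
    have h1 : Stab M (pull A M L s) Γ := e ▸ (pull_rl hR hI s).stab h
    refine ⟨h1, ((h1.rl m).comp (pull_rl hR hI s)).rel Γ.injective_subtype (fun x => ?_) hR⟩
    obtain ⟨y, -, hy⟩ : x.1 ∈ Λ.map (sig σ s) := e ▸ x.2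
    exact ⟨y, hy.symm⟩
  have u := fun {S S' T T'} => Rl.eq (S := S) (S' := S') (T := T) (T' := T') (g := 1)
    Γ.injective_subtype fun x => ⟨x, rfl⟩
  induction s with
  | nil => exact fun Λ h e => Levels.nil (r [] Λ h e).2
  | cons x s ih =>
    intro Λ h e
    have e' : Γ = (Λ.map (σ x)).map (sig σ s) := e.trans (Submodule.map_comp _ _ _)
    have h1 := (r _ Λ h e).1
    have h2 := (r s _ (h.map hR hI x) e').1
    refine Levels.cons (r _ Λ h e).2 ?_ (ih _ (h.map hR hI x) e')
    cases x
    · exact ⟨rfl, rfl, rfl, fun e => ⟨u (cancel' M e 1 1 _).symm (rl_res (h2.al e))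
        (((m e _).mul (rl_res (h1.al e))).smul _), rfl, rfl⟩⟩
    · exact ⟨rfl, rfl, rfl, fun e => ⟨rfl, u (cancel M e 1 1 _).symm (rl_res (h2.be e))
        (((m e _).mul (rl_res (h1.be e))).smul _), rfl⟩⟩

theorem LRl.top (h : LRl ι g M M' L L') (hi : Function.Injective ι) {v : U} {v' : W}
    (hv : ι v' = g v) (ht : Top0 A M L v)
    (hs : LinearMap.range ι =
      (Submodule.span R {x | ∃ (i : ℤ) (k : ℕ), x = mp M true i ((L.b ^ k) v)}).map g) :
    Top A M' L' v' := by
  have m := fun e k => h.m e k _ _ hv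
  have b := h.b _ _ hv
  have p := h.p _ _ hv
  refine ⟨hi ?_, hi ?_, fun e => hi ?_, fun e => hi ?_, fun e => hi ?_,
    Submodule.map_injective_of_injective hi ?_⟩
  · rw [h.a _ _ hv, ht.a, map_smul, map_smul, hv]
  · rw [p, ht.p]
    simp only [map_sub, map_neg, map_smul, b, rl_tau h.m _ _ hv]
  · rw [h.al e _ _ hv, ht.al]
    simp only [map_add, map_sub, map_smul, m, hv]
  · rw [h.be e _ _ hv, ht.be]
    simp only [map_sub, map_neg, map_smul, m, b]
  · rw [h.P e _ _ hv, ht.P]
    simp only [map_sub, map_neg, map_smul, m, h.m e _ _ _ p]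
  · rw [Submodule.map_top, hs, Submodule.map_span, Submodule.map_span]
    congr 1
    ext x
    constructor
    · rintro ⟨_, ⟨i, k, rfl⟩, rfl⟩
      exact ⟨_, ⟨i, k, rfl⟩, (h.m true i _ _ (h.b.pow k _ _ hv)).symm⟩
    · rintro ⟨_, ⟨i, k, rfl⟩, rfl⟩
      exact ⟨_, ⟨i, k, rfl⟩, h.m true i _ _ (h.b.pow k _ _ hv)⟩

end Pull

theorem truncateU [IsNoetherianRing R] {M : (Module.End R U)ˣ} {L : Lvl R U}
    {σ : Bool → Module.End R U} {v : U} (hR : Rel A M L) (hI : Inter A M L σ)
    (ht : Top0 A M L v) (w : List Bool) {X Y : Sh R} (hX : 0 < X.d) (hXY : TorusPair A X Y)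
    (hY : ∀ D ∈ bad true false 0 (true :: w), Y.d ≠ D * X.d) :
    ∃ n k : ℕ, ∀ (Q : Type v) [AddCommGroup Q] [Module R Q] (Φ : U →ₗ[R] (ℤ → Q)),
      Fn A M L X Y Φ →
      (∀ j < n, ∀ i : ℤ, |i| ≤ k → Φ (sig σ (true :: w) ((L.b ^ j) v)) i = 0) →
      (∀ j < n, ∀ i : ℤ, Φ (sig σ (true :: w) ((L.b ^ j) v)) (-i - 2) =
        -Φ (sig σ (true :: w) ((L.b ^ j) v)) i) →
      ∀ (i : ℤ) (j : ℕ), Φ (sig σ (true :: w) (mp M true i ((L.b ^ j) v))) = 0 := by
  have h0 := Pull.stab_top hR ht
  have hp := Pull.pull_rl hR hI (true :: w)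
  have h1 := hp.stab h0
  obtain ⟨M', m⟩ := Pull.exists_unit h1.m
  have hl := Pull.levels hR hI m (true :: w) _ h0 rfl
  have h2 : ∀ (s : List Bool) (Λ : Submodule R U),
      Pull.Stab M L Λ → Pull.Stab M L (Λ.map (sig σ s)) := by
    intro s
    induction s with
    | nil => intro Λ h; simpa [sig, Module.End.one_eq_id] using h
    | cons x s ih =>
      intro Λ h
      have := ih _ (h.map hR hI x)
      rwa [← Submodule.map_comp] at this
  have h3 := (h2 (true :: w) _ h0).rl m
  have h4 := (h1.rl m).comp hp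
  set Γ := (Submodule.span R {x | ∃ (i : ℤ) (k : ℕ), x = mp M true i ((L.b ^ k) v)}).map
    (sig σ (true :: w))
  have mem : ∀ (i : ℤ) (j : ℕ), sig σ (true :: w) (mp M true i ((L.b ^ j) v)) ∈ Γ := fun i j =>
    Submodule.mem_map_of_mem (Submodule.subset_span ⟨i, j, rfl⟩)
  have hv : Γ.subtype ⟨_, by simpa using mem 0 0⟩ = sig σ (true :: w) v := rfl
  obtain ⟨n, k, H⟩ := truncate.{v} hl
    (h4.top Γ.injective_subtype hv ht Γ.range_subtype) hX hXY hY
  refine ⟨n, k, fun Q _ _ Φ hΦ k1 k2 i j => ?_⟩
  have e := fun j => h4.b.pow j _ _ hv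
  have z := H Q (Φ.comp Γ.subtype) ⟨fun x => ?_, fun x => ?_, fun e x => ?_⟩
    (fun j hj i hi => by rw [LinearMap.comp_apply, e]; exact k1 j hj i hi)
    fun j hj i => by rw [LinearMap.comp_apply, e]; exact k2 j hj i
  · exact LinearMap.congr_fun z ⟨_, mem i j⟩
  · have := m true 1 x x rfl
    rw [mp_true_one, mp_true_one] at this
    rw [LinearMap.comp_apply, this]
    exact hΦ.mer _
  · rw [LinearMap.comp_apply, h3.a x x rfl]
    exact hΦ.loop _
  · rw [LinearMap.comp_apply, h3.al e x x rfl]
    exact hΦ.arc e _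

end Pull

end Pool.Agent.Lib.MP_5b31c3_gt
end
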