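import Pool.Agent.Lib.MP_5b31c3_gt.AlgInv

/-
A checker for isotopy certificates between explicit words.
-/

namespace Pool.Agent.Lib.MP_5b31c3_gt

open Kind

variable {R : Type*} [CommRing R] {A : Rˣ}

theorem step_left_some {y : Kind} {j : ℕ} {cl cr d : Config}
    (h : step y (j + cl.length) (cl ++ cr) = some d) :
    ∃ cr', step y j cr = some cr' ∧ d = cl ++ cr' := by
  rw [step_left] at h
  obtain ⟨cr', h1, h2⟩ := Option.map_eq_some_iff.mp h
  exact ⟨cr', h1, h2.symm⟩

theorem shift_eq_nil {k : ℕ} {w : Word} (h : shift k w = []) : w = [] := by
  simpa [shift] using h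

/-- Exchange of two distant letters in a typed context. -/
theorem far2 {x y : Kind} {i j : ℕ} {c c1 c2 : Config} (hx : step x i c = some c1)
    (hy : step y (j + x.out) c1 = some c2) (hij : i ≤ j)
    (h : skl c x i = [] ∨ skl c1 y (j + x.out) = []) :
    Iso A c [(x, i), (y, j + x.out)] [(y, j + x.inp), (x, i)] := by
  obtain ⟨cl, c0, c0', cr, rfl, rfl, rfl, h1, h1', h0⟩ := step_decomp hx
  obtain ⟨j, rfl⟩ := Nat.exists_eq_add_of_le hij
  have q1 : cl.length + j + x.out = j + (cl ++ c0').length := by simp [h1']; omega
  have q2 : cl.length + j + x.inp = j + (cl ++ c0).length := by simp [h1]; omega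
  rw [q1] at hy h ⊢
  rw [q2]
  obtain ⟨cr', hr, rfl⟩ := step_left_some hy
  have hx' : step x cl.length (cl ++ c0) = some (cl ++ c0') := by
    simpa using step_whisk (x := x) (i := 0) h0 cl []
  refine far_letter hx' hr (h.imp (fun h => ?_) fun h => ?_)
  · have := skl_whisk hx' [] cr
    simp only [List.nil_append, List.length_nil, Nat.add_zero, np_nil, shift_zero] at this
    rw [← this]; exact h
  · have := skl_whisk hr (cl ++ c0') []
    rw [List.append_nil] at this
    exact shift_eq_nil (this ▸ h)

/-- The elementary rules of a certificate. -/
inductive Rule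
  | zig
  | zag
  | cupS (k : Option (ℕ × ℤ)) (b : Bool)
  | capS (b : Bool)
  | two (b : Bool)
  | three (x y z : Bool)

/-- The move described by a rule at the far left of a configuration. -/
def Rule.core : Rule → Config → Option (Config × Word × Word)
  | .zig, _ => some ([none], [(cup none, 1), (cap, 0)], [])
  | .zag, _ => some ([none], [(cup none, 0), (cap, 1)], [])
  | .cupS k b, a :: _ =>
      if a = none ∨ k = none then some ([a], [(cup k, 1), (cr b, 0)], [(cup k, 0), (cr !b, 1)])
      else none
  | .capS b, a :: x :: _ =>
      if a = none ∨ x = none then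
        some ([a, x, a], [(cr b, 0), (cap, 1)], [(cr !b, 1), (cap, 0)])
      else none
  | .two b, x :: y :: _ =>
      if x = none ∨ y = none then some ([x, y], [(cr b, 0), (cr !b, 0)], []) else none
  | .three x y z, a :: b :: c :: _ =>
      if (y = x ∨ y = z) ∧ (a = none ∨ b = none ∨ c = none) then
        some ([a, b, c], [(cr x, 0), (cr y, 1), (cr z, 0)], [(cr z, 1), (cr y, 0), (cr x, 1)])
      else none
  | _, _ => none

theorem Rule.core_sound {ρ : Rule} {c c0 : Config} {l r : Word}
    (h : ρ.core c = some (c0, l, r)) : BMove c0 l r := by
  unfold Rule.core at h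
  split at h
  · cases h; exact .zig
  · cases h; exact .zag
  · split_ifs at h with h1; cases h; exact .cupSlide _ _ _ h1
  · split_ifs at h with h1; cases h; exact .capSlide _ _ _ h1
  · split_ifs at h with h1; cases h; exact .two _ _ _ h1
  · split_ifs at h with h1; cases h; exact .three _ _ _ h1.1 _ _ _ h1.2
  · cases h

/-- A local rewriting instruction: exchange two letters, or apply a rule at a given strand. -/
inductive Ins
  | sw
  | ap (ρ : Rule) (i : ℕ) (dir : Bool)

/-- The two sides of a local rewriting at the beginning of the word `w`. -/
def Ins.sides : Ins → Config → Word → Option (Word × Word)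
  | .sw, c, (x, i) :: (y, j) :: _ =>
      if i + x.out ≤ j then
        match step x i c with
        | some c1 =>
            if (step y j c1).isSome ∧ (skl c x i = [] ∨ skl c1 y j = []) then
              some ([(x, i), (y, j)], [(y, j - x.out + x.inp), (x, i)])
            else none
        | none => none
      else if j + y.inp ≤ i then
        match step y j c with
        | some c1 =>
            if (step x (i - y.inp + y.out) c1).isSome ∧
                (skl c y j = [] ∨ skl c1 x (i - y.inp + y.out) = []) then
              some ([(x, i), (y, j)], [(y, j), (x, i - y.inp + y.out)])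
            else none
        | none => none
      else none
  | .sw, _, _ => none
  | .ap ρ i dir, c, _ =>
      match ρ.core (c.drop i) with
      | some (c0, l, r) =>
          if c = c.take i ++ c0 ++ c.drop (i + c0.length) ∧ (c.take i).length = i then
            some (if dir then (shift i l, shift i r) else (shift i r, shift i l))
          else none
      | none => none

theorem Ins.sides_sound {s : Ins} {c : Config} {w l r : Word}
    (h : s.sides c w = some (l, r)) : Iso A c l r := by
  unfold Ins.sides at h
  split at h
  · rename_i c x i y j _
    split_ifs at h with h1 h2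
    · split at h
      · rename_i c1 hc
        split_ifs at h with h3
        cases h
        obtain ⟨c2, h4⟩ := Option.isSome_iff_exists.mp h3.1
        obtain ⟨j, rfl⟩ : ∃ j', j = j' + x.out := ⟨j - x.out, by omega⟩
        rw [Nat.add_sub_cancel]
        exact far2 hc h4 (by omega) h3.2
      · cases h
    · split at h
      · rename_i c1 hc
        split_ifs at h with h3
        cases h
        obtain ⟨c2, h4⟩ := Option.isSome_iff_exists.mp h3.1
        obtain ⟨i, rfl⟩ : ∃ i', i = i' + y.inp := ⟨i - y.inp, by omega⟩
        rw [Nat.add_sub_cancel] at h3 h4 ⊢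
        exact (far2 hc h4 (by omega) h3.2).symm
      · cases h
  · cases h
  · split at h
    · rename_i ρ i dir _ c0 l0 r0 hc
      have := ((Rule.core_sound hc).iso (A := A)).whisk (c.take i) (c.drop (i + c0.length))
      split_ifs at h with h1 h2
      · cases h
        rwa [← h1.1, h1.2] at this
      · cases h
        rw [← h1.1, h1.2] at this
        exact this.symm
    · cases h

/-- One step of a certificate. -/
def chkStep (c : Config) (w : Word) (p : ℕ) (s : Ins) : Option Word :=
  match run c (w.take p) with
  | some d =>
      match s.sides d (w.drop p) with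
      | some (l, r) =>
          if w = w.take p ++ l ++ w.drop (p + l.length) then
            some (w.take p ++ r ++ w.drop (p + l.length))
          else none
      | none => none
  | none => none

theorem chkStep_sound {c c' : Config} {w w' : Word} {p : ℕ} {s : Ins}
    (hw : run c w = some c') (h : chkStep c w p s = some w') : Iso A c w w' := by
  unfold chkStep at h
  split at h
  · rename_i d hd
    split at h
    · rename_i l r hs
      split_ifs at h with h1
      cases h
      have := (Ins.sides_sound (A := A) hs).mid hd (s := w.drop (p + l.length)) (h1 ▸ hw)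
      rwa [← h1] at this
    · cases h
  · cases h

/-- Run a certificate. -/
def chk (c : Config) : Word → List (ℕ × Ins) → Option Word
  | w, [] => some w
  | w, (p, s) :: t => (chkStep c w p s).bind fun w' => chk c w' t

theorem chk_sound' {c c' : Config} {w w' : Word} {t : List (ℕ × Ins)}
    (hw : run c w = some c') (h : chk c w t = some w') : Iso A c w w' := by
  induction t generalizing w with
  | nil => cases h; exact Iso.refl hw
  | cons s t ih =>
    obtain ⟨p, s⟩ := s
    obtain ⟨w1, h1, h2⟩ := Option.bind_eq_some_iff.mp h
    have e := chkStep_sound (A := A) hw h1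
    exact e.trans (ih (e.run_eq ▸ hw) h2)

/-- Use as `chk_sound cert (by decide +kernel)`. -/
theorem chk_sound {c : Config} {w w' : Word} (t : List (ℕ × Ins))
    (h : (run c w).isSome ∧ chk c w t = some w') : Iso A c w w' := by
  obtain ⟨c', hw⟩ := Option.isSome_iff_exists.mp h.1
  exact chk_sound' hw h.2

end Pool.Agent.Lib.MP_5b31c3_gt
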