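import Mathlib

/-
Kauffman bracket skein modules of closed 3-manifolds given by surgery diagrams, two-bridge
knots, rational surgery diagrams and Hatcher-Thurston boundary slopes.
-/

namespace Pool.Agent.Lib.MP_5b31c3_gt

/-- The elementary slices of a diagram: a local minimum, a local maximum and a crossing.
`cup none` is a minimum of the link, `cup (some (n, f))` is a minimum of the surgery component
number `n`, carrying `f` full twists of framing on top of the blackboard framing.
In `cr true` the strand running from bottom left to top right is the overpass, in `cr false`
it is the underpass. -/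
inductive Kind
  | cup (k : Option (ℕ × ℤ))
  | cap
  | cr (b : Bool)
  deriving DecidableEq

/-- A sliced diagram read from bottom to top; the letter `(x, i)` is the slice `x` with `i`
vertical strands to its left. -/
abbrev Word : Type := List (Kind × ℕ)

/-- The colours of the strands at one height: `none` for the link, `some n` for the surgery
component number `n`. -/
abbrev Config : Type := List (Option ℕ)

/-- Number of strands a slice uses up at its bottom. -/
def Kind.inp : Kind → ℕ
  | .cup _ => 0
  | _ => 2

/-- Number of strands a slice produces at its top. -/
def Kind.out : Kind → ℕ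
  | .cap => 0
  | _ => 2

/-- The colours above a slice placed at the far left, if the slice fits. -/
def Kind.act : Kind → Config → Option Config
  | .cup k, c => some (k.map Prod.fst :: k.map Prod.fst :: c)
  | .cap, x :: y :: c => if x = y then some c else none
  | .cr _, x :: y :: c => some (y :: x :: c)
  | _, _ => none

/-- The colours above a slice with `i` strands to its left, if the slice fits. -/
def step (x : Kind) : ℕ → Config → Option Config
  | 0, c => x.act c
  | _ + 1, [] => none
  | i + 1, a :: c => (step x i c).map (a :: ·)

/-- The colours at the top of a word, if all slices fit. -/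
def run : Config → Word → Option Config
  | c, [] => some c
  | c, (x, i) :: w => (step x i c).bind fun c' => run c' w

/-- A slice placed at the far left involves surgery strands only. -/
def Kind.surg : Kind → Config → Bool
  | .cup k, _ => k.isSome
  | .cap, x :: _ => x.isSome
  | .cr _, x :: y :: _ => x.isSome && y.isSome
  | _, _ => false

/-- The diagram of the surgery link alone: all link strands are erased. -/
def skel : Config → Word → Word
  | _, [] => []
  | c, (x, i) :: w =>
      (if x.surg (c.drop i) then [(x, (c.take i).countP Option.isSome)] else []) ++
        skel ((step x i c).getD []) w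

/-- Put `k` more strands to the left of a word. -/
def shift (k : ℕ) (w : Word) : Word := w.map fun x => (x.1, x.2 + k)

/-- The link strand at the far left goes once around its right neighbour and gets one curl of
the same sign `b`. -/
def turn (b : Bool) : Word :=
  [(.cr b, 0), (.cr b, 0), (.cup none, 1), (.cr b, 0), (.cap, 1)]

/-- `f` full turns of the link strand at the far left around its right neighbour. -/
def twist (f : ℤ) : Word := (List.replicate f.natAbs (turn (decide (0 ≤ f)))).flatten

/-- A slice at the far left together with a parallel link strand running immediately to the left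
of every strand of the surgery component `n`. The parallel strand passes over the component
next to minima and maxima, and makes the framing twists at minima. -/
def Kind.dbl (n : ℕ) : Kind → Config → Word
  | .cup (some (m, f)), _ =>
      if m = n then [(.cup (some (m, f)), 0), (.cup none, 1), (.cr false, 0)] ++ twist f
      else [(.cup (some (m, f)), 0)]
  | .cap, x :: _ =>
      if x = some n then [(.cr true, 0), (.cap, 1), (.cap, 0)] else [(.cap, 0)]
  | .cr b, x :: y :: _ =>
      if x = some n then
        if y = some n then [(.cr b, 1), (.cr b, 2), (.cr b, 0), (.cr b, 1)]
        else [(.cr b, 1), (.cr b, 0)]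
      else if y = some n then [(.cr b, 0), (.cr b, 1)] else [(.cr b, 0)]
  | x, _ => [(x, 0)]

/-- A word together with the push-off of the surgery component `n` along its framing. -/
def dbl (n : ℕ) : Config → Word → Word
  | _, [] => []
  | c, (x, i) :: w =>
      shift (i + (c.take i).count (some n)) (x.dbl n (c.drop i)) ++
        dbl n ((step x i c).getD []) w

open Kind in
/-- The local moves generating isotopy of blackboard framed links: exchange of heights of distant
slices, straightening of zigzags, sliding a strand past a minimum or a maximum, the Reidemeister
moves II and III, and the framed Reidemeister move I. -/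
inductive Move : Word → Word → Prop
  | far (x y : Kind) (i k : ℕ) :
      Move [(x, i), (y, i + x.out + k)] [(y, i + x.inp + k), (x, i)]
  | zig (i : ℕ) : Move [(cup none, i + 1), (cap, i)] []
  | zag (i : ℕ) : Move [(cup none, i), (cap, i + 1)] []
  | cupSlide (k : Option (ℕ × ℤ)) (b : Bool) (i : ℕ) :
      Move [(cup k, i + 1), (cr b, i)] [(cup k, i), (cr !b, i + 1)]
  | capSlide (b : Bool) (i : ℕ) :
      Move [(cr b, i), (cap, i + 1)] [(cr !b, i + 1), (cap, i)]
  | two (b : Bool) (i : ℕ) : Move [(cr b, i), (cr !b, i)] []
  | three (x y z : Bool) (h : y = x ∨ y = z) (i : ℕ) :
      Move [(cr x, i), (cr y, i + 1), (cr z, i)] [(cr z, i + 1), (cr y, i), (cr x, i + 1)]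
  | curl (b : Bool) (i : ℕ) :
      Move [(cup none, i + 1), (cr b, i), (cap, i + 1)] [(cup none, i), (cr b, i + 1), (cap, i)]

/-- Diagrams of framed links in the complement of the surgery link with the fixed diagram `K`. -/
def Diagram (K : Word) : Type := {w : Word // run [] w = some [] ∧ skel [] w = K}

variable {R : Type*} [CommRing R]

/-- The relations of the Kauffman bracket skein module of the manifold obtained by surgery on
`K`: isotopy in the complement of `K`, the two skein relations, and handle slides (band sum of a
link strand with the framed push-off of a surgery strand lying immediately to its right). -/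
inductive Relation (A : Rˣ) (K : Word) : (Diagram K →₀ R) → Prop
  | move (D D' : Diagram K) (u w l r : Word) (h : Move l r)
      (hD : D.1 = u ++ l ++ w) (hD' : D'.1 = u ++ r ++ w) :
      Relation A K (Finsupp.single D 1 - Finsupp.single D' 1)
  | bracket (D D₀ D₁ : Diagram K) (u w : Word) (b : Bool) (i : ℕ)
      (hD : D.1 = u ++ [(.cr b, i)] ++ w) (hD₀ : D₀.1 = u ++ w)
      (hD₁ : D₁.1 = u ++ [(.cap, i), (.cup none, i)] ++ w) :
      Relation A K (Finsupp.single D 1 - Finsupp.single D₀ ((if b then A else A⁻¹ : Rˣ) : R) -
        Finsupp.single D₁ ((if b then A⁻¹ else A : Rˣ) : R))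
  | circle (D D₀ : Diagram K) (u w : Word) (i : ℕ)
      (hD : D.1 = u ++ [(.cup none, i), (.cap, i)] ++ w) (hD₀ : D₀.1 = u ++ w) :
      Relation A K (Finsupp.single D 1 -
        Finsupp.single D₀ (-(A : R) ^ 2 - ((A⁻¹ : Rˣ) : R) ^ 2))
  | slide (D D' : Diagram K) (u w : Word) (n : ℕ) (c c' : Config)
      (hu : run [] u = some (c ++ none :: some n :: c')) (hD : D.1 = u ++ w)
      (hD' : D'.1 = dbl n [] u ++
        shift (c.length + c.count (some n)) [(.cap, 0), (.cup none, 0)] ++
        dbl n (c ++ none :: some n :: c') w) :
      Relation A K (Finsupp.single D 1 - Finsupp.single D' 1)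

/-- The Kauffman bracket skein module of the manifold obtained by surgery on `K`. -/
abbrev Skein (A : Rˣ) (K : Word) : Type _ :=
  (Diagram K →₀ R) ⧸ Submodule.span R {x | Relation A K x}

/-- The alternating three-strand braid of a two-bridge diagram, on the strands 1, 2, 3. -/
def braid (w : List Bool) : Word := w.map fun b => if b then (.cr true, 2) else (.cr false, 1)

/-- A chain of unknotted circles numbered `n, n + 1, ...` with the given framings; the first one
is a meridian of the strand at the far left and each further one is a meridian of the previous
one. -/
def chain : ℕ → List ℤ → Word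
  | _, [] => []
  | n, a :: l =>
      (.cup (some (n, a)), 0) :: chain (n + 1) l ++ [(.cr true, 1), (.cr true, 1), (.cap, 0)]

/-- The two-bridge diagram in Conway normal form with braid `w` (component `0`, framing `f`
relative to the blackboard) together with a chain of meridian circles with framings `l`. -/
def surgery (w : List Bool) (f : ℤ) (l : List ℤ) : Word :=
  (.cup (some (0, f)), 0) :: chain 1 l ++
    (.cup (some (0, 0)), 1) :: braid w ++ [(.cap, 1), (.cap, 0)]

/-- The permutation of the data attached to the strands 1, 2, 3 by the braid. -/
def perm {α : Type} : List Bool → α × α × α → α × α × α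
  | [], o => o
  | true :: w, (x, y, z) => perm w (x, z, y)
  | false :: w, (x, y, z) => perm w (y, x, z)

/-- The two-bridge diagram has one component: the strand starting at position 3, which belongs
to the outer minimum, does not end at position 3. -/
def IsKnot (w : List Bool) : Prop := (perm w (false, false, true)).2.2 = false

/-- The directions `(x, !x, true)` of the strands 1, 2, 3 at the bottom of the braid come from an
orientation of the diagram. -/
def Oriented (w : List Bool) (x : Bool) : Prop :=
  (perm w (x, !x, true)).1 ≠ (perm w (x, !x, true)).2.1

/-- The sum of the signs of the crossings of the braid for given directions of the strands. -/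
def writhe : List Bool → Bool × Bool × Bool → ℤ
  | [], _ => 0
  | true :: w, (x, y, z) => (if y = z then 1 else -1) + writhe w (x, z, y)
  | false :: w, (x, y, z) => (if x = y then -1 else 1) + writhe w (y, x, z)

/-- Numerator and denominator of the fraction of the two-bridge diagram. -/
def frac : List Bool → ℕ × ℕ
  | [] => (1, 0)
  | true :: w => ((frac w).1, (frac w).1 + (frac w).2)
  | false :: w => ((frac w).1 + (frac w).2, (frac w).2)

/-- Numerator and denominator of the surgery coefficient `a₀ - 1 / (a₁ - 1 / (a₂ - ...))`. -/
def coeff : List ℤ → ℤ × ℤ
  | [] => (1, 0)
  | a :: l => (a * (coeff l).1 - (coeff l).2, (coeff l).1)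

/-- The continued fraction `1 / (b₁ - 1 / (b₂ - ...))`. -/
def cf : List ℤ → ℚ
  | [] => 0
  | b :: l => 1 / (b - cf l)

/-- The Hatcher-Thurston boundary slopes of the two-bridge knot with fraction `s`: for
expansions `s = r + cf l` with all terms of absolute value at least two and `s = r₀ + cf l₀` with
even terms, twice the difference of the sums of the signs of the terms. -/
def BoundarySlope (s m : ℚ) : Prop :=
  ∃ (r r₀ : ℤ) (l l₀ : List ℤ), (∀ b ∈ l, 2 ≤ |b|) ∧ (∀ b ∈ l₀, 2 ≤ |b| ∧ Even b) ∧
    s = r + cf l ∧ s = r₀ + cf l₀ ∧
    m = 2 * (((l.map Int.sign).sum : ℤ) - ((l₀.map Int.sign).sum : ℤ))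

end Pool.Agent.Lib.MP_5b31c3_gt
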