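import Pool.Agent.Lib.MP_5b31c3_gt.TL

/-
Hook normal forms.
-/

namespace Pool.Agent.Lib.MP_5b31c3_gt

open Kind

variable {R : Type*} [CommRing R] {A : Rˣ}

theorem bump_length (f : List ℕ) (j : ℕ) : (bump f j).length = f.length := by
  induction f generalizing j with
  | nil => rfl
  | cons a l ih => cases j <;> simp [bump, ih]

theorem bump_sum {f : List ℕ} {j : ℕ} (hj : j < f.length) : (bump f j).sum = f.sum + 1 := by
  induction f generalizing j with
  | nil => simp at hj
  | cons a l ih =>
    cases j with
    | zero => simp [bump]; omega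
    | succ j => simp [bump, ih (Nat.lt_of_succ_lt_succ hj)]; omega

namespace G1

theorem nn_add (a b : ℕ) : nn (a + b) = nn a ++ nn b := List.replicate_add _ _ _

theorem nn_length (a : ℕ) : (nn a).length = a := List.length_replicate

theorem nn_succ (a : ℕ) : nn (a + 1) = none :: nn a := rfl

theorem nn_snoc (a : ℕ) (t : Config) : nn a ++ none :: t = none :: (nn a ++ t) := by
  induction a with
  | zero => rfl
  | succ a ih => rw [nn_succ, List.cons_append, ih]; rfl

theorem nn_two (a : ℕ) (t : Config) : nn (2 * (a + 1)) ++ t = none :: (nn (2 * a) ++ none :: t) := by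
  rw [nn_snoc]; rfl

theorem Rw.cfg {c c' : Config} {l r : Word} (h : Rw A c l r) (e : c' = c) : Rw A c' l r := e ▸ h

theorem Rw.symm {c c' : Config} {l r : Word} (h : Rw A c l r) (hl : Fr c l c') : Rw A c r l :=
  ofIso (h _ hl.ty).symm

/-- Rewriting after a typed initial part. -/
theorem Fr.rw {c c' d : Config} {p l r : Word} (hp : Fr c p c') (h : Rw A d l r)
    (e : c' = d) : Rw A c (p ++ l) (p ++ r) := Rw.pre hp.ty (e ▸ h)

/-- The way back of a hook. -/
def ret (r : ℕ) : Word := (cr false, 0) :: shift 1 (pass true r)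

theorem N0_succ (r f : ℕ) : N0 r (f + 1) =
    back true (r + 1) ++ shift 1 (N0 r f) ++ ret r ++ [(cap, r + 1)] := rfl

theorem hook_zero (r : ℕ) : hook (r + 1) 0 false = back true (r + 1) ++ ret r := by
  simp [hook, back, ret]

theorem hook_succ (k j : ℕ) (b : Bool) : hook (k + 1) (j + 1) b = shift 1 (hook k j b) := by
  simp only [hook, shift_shift, Nat.add_sub_add_right]

section Types
variable (x : Option ℕ) (b t : Config) {r : ℕ}

theorem fr_ret (h : b.length = r) : Fr (none :: x :: (b ++ t)) (ret r) (x :: (b ++ none :: t)) :=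
  (fr_cr false x _).append ((fr_pass true b t h).one x)

theorem fr_back1 (h : b.length = r) :
    Fr (x :: (b ++ none :: t)) (back true (r + 1)) (none :: x :: (b ++ t)) :=
  fr_back true (x :: b) t (by simp [h])

theorem fr_capK (h : b.length = r) :
    Fr (x :: (b ++ none :: none :: t)) [(cap, r + 1)] (x :: (b ++ t)) :=
  ((fr_cap t).left (x :: b) (k := r + 1) (by simp [h])).cast rfl (by simp) rfl

theorem fr_cupAt (h : b.length = r) : Fr (b ++ t) [(cup none, r)] (b ++ none :: none :: t) :=
  ((fr_cup t).left b h).cast rfl (by simp) rfl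

theorem fr_N0 (h : b.length = r) (f : ℕ) :
    Fr (x :: (b ++ (nn (2 * f) ++ t))) (N0 r f) (x :: (b ++ t)) := by
  induction f generalizing t with
  | zero => exact Fr.nil _
  | succ f ih =>
    rw [nn_two, N0_succ]
    exact (((fr_back1 x b _ h).append ((ih (none :: t)).one none)).append
      (fr_ret x b _ h)).append (fr_capK x b t h)

theorem fr_Ns {base : Config} {f : List ℕ} (h : base.length = f.length) :
    Fr (base ++ (nn (2 * f.sum) ++ t)) (Ns f) (base ++ t) := by
  induction f generalizing base with
  | nil => obtain rfl := List.length_eq_zero_iff.mp h; exact Fr.nil _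
  | cons f fs ih =>
    match base, h with
    | x :: b, h =>
      have h' : b.length = fs.length := Nat.succ.inj h
      rw [List.sum_cons, Nat.mul_add, nn_add, List.append_assoc]
      exact (fr_N0 x b _ h' f).append ((ih h').one x)

theorem fr_loop : Fr (x :: t) loop (x :: t) := ⟨rfl, by cases x <;> rfl⟩

theorem lp_cons (n : ℕ) : lp (n + 1) = loop ++ lp n := rfl

theorem lp_snoc (n : ℕ) : lp (n + 1) = lp n ++ loop := by
  simp [lp, List.replicate_succ']

theorem fr_lp (n : ℕ) : Fr (x :: t) (lp n) (x :: t) := by
  induction n with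
  | zero => exact Fr.nil _
  | succ n ih => exact (fr_loop x t).append ih

theorem fr_Ts {base : Config} {n : List ℕ} (h : base.length = n.length) :
    Fr (base ++ t) (Ts n) (base ++ t) := by
  induction n generalizing base with
  | nil => exact Fr.nil _
  | cons a ns ih =>
    match base, h with
    | x :: b, h => exact (fr_lp x _ a).append ((ih (Nat.succ.inj h)).one x)

theorem fr_hook {base : Config} {j : ℕ} (hj : j < base.length) (s : Bool) :
    Fr (base ++ none :: t) (hook base.length j s) (base ++ none :: t) := by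
  induction j generalizing base with
  | zero =>
    match base, hj with
    | x :: b, _ =>
      refine ((((fr_back true b t rfl).one x).append ((fr_cr' s x _).append (fr_cr s x _))).append
        ((fr_pass true b t rfl).one x)).cast rfl ?_ rfl
      simp [hook]
  | succ j ih =>
    match base, hj with
    | x :: b, hj =>
      rw [List.length_cons, hook_succ]
      exact (ih (Nat.lt_of_succ_lt_succ hj)).one x

theorem fr_back_nn (s : Bool) (a n m : ℕ) :
    Fr (nn (a + n + 1 + m)) (shift a (back s n)) (nn (a + n + 1 + m)) := by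
  refine ((fr_back s (nn n) (nn m) (nn_length n)).left (nn a) (nn_length a)).cast ?_ rfl ?_
  · rw [← nn_succ, ← nn_add, ← nn_add]; congr 1; omega
  · rw [← nn_add, ← nn_succ, ← nn_add]; congr 1; omega

end Types

section Moves
variable (s : Bool) (c t : Config) {n : ℕ}

theorem pb (h : c.length = n) : Rw A (none :: (c ++ t)) (pass s n ++ back s n) [] :=
  h ▸ ofIso ((pass_back s c).right t)

theorem bp (h : c.length = n) : Rw A (c ++ none :: t) (back s n ++ pass s n) [] := by
  subst h
  exact (ofIso ((back_pass s c).right t)).cfg (by simp)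

theorem natP {c c' : Config} {w : Word} {n' : ℕ} (hw : Fr c w c') (h : c.length = n)
    (h' : c'.length = n') :
    Rw A (none :: (c ++ t)) (shift 1 w ++ pass s n') (pass s n ++ w) := by
  subst h h'
  exact ofIso ((nat_pass s none hw.ty (Or.inl rfl)).symm.right t)

theorem natB {c c' : Config} {w : Word} {n' : ℕ} (hw : Fr c w c') (h : c.length = n)
    (h' : c'.length = n') :
    Rw A (c ++ none :: t) (w ++ back s n') (back s n ++ shift 1 w) := by
  subst h h'
  exact (ofIso ((nat_back s hw.ty).right t)).cfg (by simp)

theorem capS (h : c.length = n) : Rw A (none :: (c ++ none :: t)) (pass s n ++ [(cap, n)])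
    (shift 1 (back s n) ++ [(cap, 0)]) := by
  subst h
  induction c with
  | nil => exact Rw.refl _ _
  | cons d c ih =>
    refine ((fr_cr s d _).rw (ih.one d) (by simp)).st (by simp [pass]) ?_
    refine (((fr_cr s d []).up rfl rfl _ (back s c.length)).app [(cap, 1)]).st
      (by simp [shift_shift]) ?_
    refine (((fr_back s c t rfl).left [none, d] rfl).rw
      (ofIso (((BMove.capSlide s none d (Or.inl rfl)).iso).right (c ++ t))) (by simp)).st (by simp) ?_
    exact Rw.of_eq (by simp [back, shift_shift])

theorem cupS (h : c.length = n) : Rw A (c ++ t) ((cup none, n) :: back s n)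
    ((cup none, 0) :: shift 1 (pass s n)) := by
  subst h
  induction c with
  | nil => exact Rw.refl _ _
  | cons d c ih =>
    refine ((ih.one d).app [(cr !s, 0)]).st (by simp [back]) ?_
    refine (((fr_cup (c ++ t)).one d).rw
      ((fr_cr' (!s) d []).down rfl rfl (none :: (c ++ t)) (pass s c.length)) (by simp)).st
      (by simp [shift_shift]) ?_
    refine ((ofIso (((BMove.cupSlide none (!s) d (Or.inr rfl)).iso).right (c ++ t))).app
      (shift 2 (pass s c.length))).st (by simp) ?_
    exact Rw.of_eq (by simp [pass, shift_shift])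

theorem cupBB (h : c.length = n) : Rw A (c ++ t)
    ((cup none, n) :: back s n ++ shift 1 (back s n)) [(cup none, 0)] := by
  refine ((cupS s c t h).app _).st rfl ?_
  exact ((fr_cup (c ++ t)).rw ((pb s c t h).one none) (by simp)).st (by simp) (Rw.refl _ _)

theorem fr_pc (h : c.length = n) :
    Fr (none :: (c ++ none :: t)) (pass s n ++ [(cap, n)]) (c ++ t) :=
  (fr_pass s c _ h).append (((fr_cap t).left c h).cast rfl (by simp) rfl)

theorem capBB (h : c.length = n) : Rw A (c ++ none :: none :: t)
    (back s n ++ shift 1 (back s n) ++ [(cap, 0)]) [(cap, n)] := by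
  refine ((fr_back s c _ h).rw ((capS s c t h).symm (fr_pc s c t h)) (by simp)).st (by simp) ?_
  exact ((bp s c _ h).app [(cap, n)]).st (by simp) (Rw.refl _ _)

theorem passZ (h : c.length = n) : Rw A (none :: (c ++ t)) (pass s n)
    ((cup none, n + 1) :: shift 1 (back s n) ++ [(cap, 0)]) := by
  have h0 := fr_cupAt (none :: c) t (r := n + 1) (by simp [h])
  have h1 : Rw A (none :: (c ++ t)) ([(cup none, n + 1)] ++ (pass s n ++ [(cap, n)]))
      (pass s n) := by
    refine (((((fr_pass s c [] h).down (k := n + 1) (k' := n + 1) (by simp [h]) (by simp [h]) t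
      [(cup none, 0)]).app [(cap, n)]).cfg (by simp))).st (by simp) ?_
    exact (Rw.pre' (p := pass s n) fun d _ => zigR n d).st (by simp) (Rw.of_eq (by simp))
  exact (h1.symm (h0.append (fr_pc s c _ h))).trans (h0.rw (capS s c (none :: t) h) (by simp))

end Moves

theorem natRet {x : Option ℕ} {b b' : Config} {u v : Word} {r r' : ℕ} (hu : Fr [x] u [x])
    (hv : Fr b v b') (h : b.length = r) (h' : b'.length = r') (t : Config) :
    Rw A (none :: x :: (b ++ t)) (shift 1 (u ++ shift 1 v) ++ ret r')
      (ret r ++ (u ++ shift 1 v)) := by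
  have hu' := hu.right (b ++ t)
  refine (((hu'.one none).rw ((fr_cr false x []).down rfl rfl (b ++ t) v) (by simp)).app
    (shift 1 (pass true r'))).st (by simp [ret, shift_shift]) ?_
  refine ((natP false (b ++ t) hu rfl rfl).app (shift 2 v ++ shift 1 (pass true r'))).st
    (by simp [pass]) ?_
  refine (((fr_cr false x (b ++ t)).append (hu.right _)).rw
    ((natP true t hv h h').one x) (by simp)).st (by simp [pass, shift_shift]) ?_
  refine (((fr_cr false x (b ++ t)).rw (hu.up rfl rfl (none :: (b ++ t)) (pass true r)) (by simp)).app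
    (shift 1 v)).st (by simp) ?_
  exact Rw.of_eq (by simp [ret])

theorem hookTs {base : Config} {n : List ℕ} {j : ℕ} (hn : base.length = n.length)
    (hj : j < base.length) (t : Config) :
    Rw A (base ++ none :: t) (Ts n ++ hook base.length j false)
      (hook base.length j false ++ Ts n) := by
  induction j generalizing base n with
  | zero =>
    match base, n, hn, hj with
    | x :: b, a :: ns, hn, _ =>
      have h1 := (fr_Ts [] hn).cast (List.append_nil _) rfl (List.append_nil _)
      have h2 := (fr_Ts [] (Nat.succ.inj hn)).cast (List.append_nil _) rfl (List.append_nil _)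
      rw [List.length_cons, hook_zero]
      refine ((natB true t h1 rfl rfl).app (ret b.length)).st (by simp) ?_
      refine ((fr_back1 x b t rfl).rw (natRet (fr_lp x [] a) h2 rfl rfl t) (by simp)).st
        (by simp [Ts]) ?_
      exact Rw.of_eq (by simp [Ts])
  | succ j ih =>
    match base, n, hn, hj with
    | x :: b, a :: ns, hn, hj =>
      rw [List.length_cons, hook_succ]
      refine ((fr_lp x _ a).rw ((ih (Nat.succ.inj hn) (Nat.lt_of_succ_lt_succ hj)).one x) (by simp)).st
        (by simp [Ts]) ?_
      refine (((fr_lp x [] a).up rfl rfl _ (hook b.length j false)).app (shift 1 (Ts ns))).st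
        (by simp) ?_
      exact Rw.of_eq (by simp [Ts])

theorem fr_N0' (x : Option ℕ) (b : Config) (f : ℕ) :
    Fr (x :: (b ++ nn (2 * f))) (N0 b.length f) (x :: b) :=
  (fr_N0 x b [] rfl f).cast (by simp) rfl (by simp)

theorem upN0 (x : Option ℕ) (b t : Config) (f : ℕ) (y : Word) :
    Rw A (x :: (b ++ (nn (2 * f) ++ t))) (N0 b.length f ++ shift (b.length + 1) y)
      (shift (b.length + 1 + 2 * f) y ++ N0 b.length f) :=
  ((fr_N0' x b f).up (by simp [nn_length]; omega) rfl t y).cfg (by simp)

theorem downN0 (x : Option ℕ) (b t : Config) (f : ℕ) (y : Word) :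
    Rw A (x :: (b ++ (nn (2 * f) ++ t))) (shift (b.length + 1 + 2 * f) y ++ N0 b.length f)
      (N0 b.length f ++ shift (b.length + 1) y) :=
  ((fr_N0' x b f).down (by simp [nn_length]; omega) rfl t y).cfg (by simp)

theorem hookNs0 (x : Option ℕ) (b t : Config) (f : ℕ) {fs : List ℕ} (h : b.length = fs.length) :
    Rw A (x :: (b ++ (nn (2 * f) ++ (nn (2 * fs.sum) ++ none :: t))))
      (Ns (f :: fs) ++ hook (b.length + 1) 0 false)
      (shift (b.length + 1) ((cup none, 2 * (f :: fs).sum + 1) :: beta (f :: fs) 0) ++
        Ns (bump (f :: fs) 0)) := by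
  have hZ : Fr (b ++ nn (2 * fs.sum)) (Ns fs) b := (fr_Ns [] h).cast (by simp) rfl (by simp)
  have hN : Fr (x :: (b ++ (nn (2 * f) ++ nn (2 * fs.sum)))) (Ns (f :: fs)) (x :: b) := by
    have := (fr_N0 x b _ h f).append (hZ.one x)
    exact this
  have hB := fr_back true (x :: (b ++ (nn (2 * f) ++ nn (2 * fs.sum)))) t
    (n := b.length + 1 + 2 * f + 2 * fs.sum) (by simp [nn_length]; omega)
  have hH := (fr_N0 x b (nn (2 * fs.sum) ++ t) rfl f).one none
  have hB' : Fr (x :: (b ++ (nn (2 * f) ++ (nn (2 * fs.sum) ++ none :: t))))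
      (back true (b.length + 1 + 2 * f + 2 * fs.sum))
      (none :: x :: (b ++ (nn (2 * f) ++ (nn (2 * fs.sum) ++ t)))) :=
    hB.cast (by simp) rfl (by simp)
  have hC : Fr (x :: (b ++ (nn (2 * f) ++ (nn (2 * fs.sum) ++ none :: t))))
      (shift (b.length + 1 + 2 * f) (back true (2 * fs.sum)))
      (x :: (b ++ (nn (2 * f) ++ none :: (nn (2 * fs.sum) ++ t)))) :=
    ((fr_back true _ t (nn_length _)).left (x :: (b ++ nn (2 * f)))
      (by simp [nn_length]; omega)).cast (by simp) rfl (by simp)
  rw [hook_zero]
  refine (((natB true t hN (n := b.length + 1 + 2 * f + 2 * fs.sum) (by simp [nn_length]; omega)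
    rfl).app (ret b.length)).cfg (by simp)).st (by simp) ?_
  refine ((hB'.append hH).rw (natRet (Fr.nil [x]) hZ (r := b.length + 2 * fs.sum)
    (by simp [nn_length]) rfl t) (by simp)).st (by simp [Ns, h]) ?_
  refine ((((hB'.append hH).append (fr_ret x b _ rfl)).rw
    ((passZ true _ t (nn_length (2 * fs.sum))).left (x :: b) rfl) (by simp)).app (shift 1 (Ns fs))).st
    (by simp [ret, pass_add, shift_shift]) ?_
  refine ((hB'.rw ((((fr_N0 x b [] rfl f).one none).append (fr_ret x b [] rfl)).up
    (k := b.length + 1 + 2 * f + 1) (k' := b.length + 2) (by simp [nn_length]; omega) (by simp)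
    (nn (2 * fs.sum) ++ t) ((cup none, 2 * fs.sum) :: back true (2 * fs.sum))) (by simp)).app
    ((cap, b.length + 1) :: shift 1 (Ns fs))).st
    (by simp [shift_shift, Nat.add_assoc, Nat.add_comm, Nat.add_left_comm]; omega) ?_
  refine ((hC.rw ((fr_back true (x :: (b ++ nn (2 * f))) [] (n := b.length + 1 + 2 * f)
    (by simp [nn_length]; omega)).up (k := b.length + 1 + 2 * f + 1)
    (k' := b.length + 1 + 2 * f + 1) (by simp [nn_length]; omega) (by simp [nn_length]; omega)
    (nn (2 * fs.sum) ++ t) ((cup none, 2 * fs.sum) :: back true (2 * fs.sum))) (by simp)).app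
    (shift 1 (N0 b.length f) ++ ret b.length ++ (cap, b.length + 1) :: shift 1 (Ns fs))).st
    (by simp [back_add _ (b.length + 1 + 2 * f)]) ?_
  refine (((((fr_back true (nn (2 * fs.sum)) [] (nn_length _)).up (k := 2 * fs.sum + 1)
    (k' := 2 * fs.sum + 1) (by simp [nn_length]) (by simp [nn_length]) t [(cup none, 0)]).left
    (x :: (b ++ nn (2 * f))) (k := b.length + 1 + 2 * f) (by simp [nn_length]; omega)).app
    (shift (b.length + 1 + 2 * f + 1) (back true (2 * fs.sum)) ++
      back true (b.length + 1 + 2 * f) ++ shift 1 (N0 b.length f) ++ ret b.length ++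
      (cap, b.length + 1) :: shift 1 (Ns fs))).cfg (by simp)).st
    (by simp [Nat.add_assoc, Nat.add_comm, Nat.add_left_comm]) ?_
  refine Rw.of_eq ?_
  simp only [bump, Ns, N0_succ, beta, back_add _ (b.length + 1), ← h, shift_append, shift_cons,
    shift_shift, shift_nil, List.sum_cons, List.append_assoc, List.cons_append, List.nil_append]
  congr 2
  · omega
  · rw [Nat.add_comm (2 * f)]
  · rw [show 2 * f + 1 + (b.length + 1) = b.length + 1 + 2 * f + 1 by omega]

theorem hookNs {base : Config} {f : List ℕ} {j : ℕ} (hf : base.length = f.length)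
    (hj : j < base.length) (t : Config) :
    Rw A (base ++ (nn (2 * f.sum) ++ none :: t)) (Ns f ++ hook base.length j false)
      (shift base.length ((cup none, 2 * f.sum + 1) :: beta f j) ++ Ns (bump f j)) := by
  induction j generalizing base f with
  | zero =>
    match base, f, hf, hj with
    | x :: b, f :: fs, hf, _ =>
      exact (hookNs0 x b t f (Nat.succ.inj hf)).cfg (by simp [Nat.mul_add, nn_add])
  | succ j ih =>
    match base, f, hf, hj with
    | x :: b, f :: fs, hf, hj =>
      have h : b.length = fs.length := Nat.succ.inj hf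
      have hl := bump_length fs j
      rw [List.length_cons, hook_succ]
      refine Rw.cfg (c := x :: (b ++ (nn (2 * f) ++ (nn (2 * fs.sum) ++ none :: t)))) ?_
        (by simp [Nat.mul_add, nn_add])
      refine ((fr_N0 x b _ rfl f).rw ((ih h (Nat.lt_of_succ_lt_succ hj)).one x) (by simp)).st
        (by simp [Ns, h]) ?_
      refine ((upN0 x b _ f ((cup none, 2 * fs.sum + 1) :: beta fs j)).app
        (shift 1 (Ns (bump fs j)))).st (by simp [shift_shift, Nat.add_assoc]) ?_
      refine Rw.of_eq ?_
      simp only [bump, Ns, beta, hl, ← h, shift_cons, shift_shift, List.sum_cons,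
        List.append_assoc, List.cons_append]
      congr 2
      · omega
      · rw [Nat.add_comm (2 * f)]

section Red
variable (x : Option ℕ) (b : Config)

theorem peel (t : Config) (y : Kind) (i : ℕ) : Rw A (x :: (b ++ none :: t))
    ((y, i + 1 + (b.length + 1)) :: back true (b.length + 1))
    (back true (b.length + 1) ++ [(y, i + (b.length + 1) + 1)]) := by
  refine (((fr_back1 x b [] rfl).down (k := b.length + 2) (k' := b.length + 2) (by simp) (by simp)
    t [(y, i)]).cfg (by simp)).st (by simp; omega) (Rw.of_eq (by simp; omega))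

theorem peel' (t : Config) (y : Kind) (i : ℕ) : Rw A (x :: (b ++ none :: t))
    (back true (b.length + 1) ++ [(y, i + (b.length + 1) + 1)])
    ((y, i + 1 + (b.length + 1)) :: back true (b.length + 1)) := by
  refine (((fr_back1 x b [] rfl).up (k := b.length + 2) (k' := b.length + 2) (by simp) (by simp)
    t [(y, i)]).cfg (by simp)).st (by simp; omega) (Rw.of_eq (by simp; omega))

theorem redStep {t : Config} {y z : Kind} {i j f f' : ℕ}
    (h : Rw A (x :: (b ++ t)) ((y, i + (b.length + 1)) :: N0 b.length f)
      ((z, j + (b.length + 1)) :: N0 b.length f')) :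
    Rw A (x :: (b ++ none :: t)) ((y, i + 1 + (b.length + 1)) :: N0 b.length (f + 1))
      ((z, j + 1 + (b.length + 1)) :: N0 b.length (f' + 1)) := by
  refine ((peel x b t y i).app (shift 1 (N0 b.length f) ++ ret b.length ++
    [(cap, b.length + 1)])).st (by simp [N0_succ]) ?_
  refine (((fr_back1 x b t rfl).rw (h.one none) (by simp)).app (ret b.length ++ [(cap, b.length + 1)])).st
    (by simp) ?_
  refine ((peel' x b t z j).app (shift 1 (N0 b.length f') ++ ret b.length ++
    [(cap, b.length + 1)])).st (by simp) ?_
  exact Rw.of_eq (by simp [N0_succ])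

theorem loop0 (t : Config) :
    Rw A (x :: (b ++ t)) ((cup none, b.length + 1) :: N0 b.length 1) loop := by
  have h0 := ((fr_cupAt b t rfl).append (fr_back true b _ rfl)).one x
  have h1 := (fr_cr' false x (b ++ none :: t)).append (fr_cr false x _)
  refine ((h0.append h1).rw ((capS true b t rfl).one x) (by simp)).st (by simp [N0, back]) ?_
  refine ((h0.rw (((fr_cr' false x []).append (fr_cr false x [])).up rfl rfl (b ++ none :: t)
    (back true b.length)) (by simp)).app [(cap, 1)]).st (by simp [shift_shift]) ?_
  refine (((cupBB true b t rfl).one x).app [(cr false, 0), (cr false, 0), (cap, 1)]).st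
    (by simp [shift_shift]) ?_
  exact ((ofIso (((BMove.cupSlide none false x (Or.inr rfl)).iso).right (b ++ t))).app
    [(cr false, 0), (cap, 1)]).st (by simp) (Rw.refl _ _)

theorem loopG (g : ℕ) (t : Config) : Rw A (x :: (b ++ (nn (2 * g) ++ t)))
    ((cup none, g + (b.length + 1)) :: N0 b.length (g + 1)) (N0 b.length g ++ loop) := by
  induction g generalizing t with
  | zero => exact (loop0 x b t).st (by simp) (Rw.refl _ _)
  | succ g ih =>
    rw [nn_two]
    have h1 := fr_back1 x b (nn (2 * g) ++ none :: t) rfl
    have h2 := h1.append ((fr_N0 x b (none :: t) rfl g).one none)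
    refine ((peel x b _ (cup none) g).app (shift 1 (N0 b.length (g + 1)) ++ ret b.length ++
      [(cap, b.length + 1)])).st (by simp [N0_succ _ (g + 1)]) ?_
    refine ((h1.rw ((ih (none :: t)).one none) (by simp)).app (ret b.length ++ [(cap, b.length + 1)])).st
      (by simp) ?_
    refine ((h2.rw (natRet (fr_loop x []) (Fr.nil b) rfl rfl (none :: t)) (by simp)).app
      [(cap, b.length + 1)]).st (by simp) ?_
    refine ((h2.append (fr_ret x b _ rfl)).rw ((fr_loop x []).up rfl rfl (b ++ none :: none :: t)
      [(cap, b.length)]) (by simp)).st (by simp) ?_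
    exact Rw.of_eq (by simp [N0_succ])

theorem retRet (t : Config) : Rw A (x :: (b ++ none :: none :: t))
    ((cup none, 0) :: shift 1 (ret b.length ++ [(cap, b.length + 1)]) ++ ret b.length ++
      [(cap, b.length + 1)]) [(cap, b.length + 1)] := by
  have h0 := (fr_cup (b ++ none :: none :: t)).one x
  have h1 := (fr_cup (b ++ none :: none :: t)).append ((fr_pc true b (none :: t) rfl).one none)
  refine ((ofIso (((BMove.cupSlide none true x (Or.inr rfl)).iso).symm.right
    (b ++ none :: none :: t))).app (shift 2 (pass true b.length ++ [(cap, b.length)]) ++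
      ret b.length ++ [(cap, b.length + 1)])).st (by simp [ret, shift_shift]) ?_
  refine ((h0.rw ((fr_cr' true x []).up rfl rfl (none :: (b ++ none :: none :: t))
    (pass true b.length ++ [(cap, b.length)])) (by simp)).app (ret b.length ++ [(cap, b.length + 1)])).st
    (by simp) ?_
  refine (((h1.one x).rw (ofIso (((BMove.two true x none (Or.inr rfl)).iso).right
    (b ++ none :: t))) (by simp)).app (shift 1 (pass true b.length ++ [(cap, b.length)]))).st
    (by simp [ret, shift_shift]) ?_
  refine Rw.st (Rw.one (r := [(cap, b.length)]) (l := (cup none, 0) :: shift 1 (pass true b.length)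
    ++ ((cap, b.length + 1) :: pass true b.length ++ [(cap, b.length)])) ?_ x)
    (by simp [shift_shift]) (Rw.refl _ _)
  refine (((cupS true b _ rfl).symm ((fr_cupAt b _ rfl).append (fr_back true b _ rfl))).app _).st
    rfl ?_
  refine (((fr_cupAt b _ rfl).rw ((fr_back true b [] rfl).up (k := b.length + 1)
    (k' := b.length + 1) (by simp) (by simp) (none :: none :: none :: t) [(cap, 0)]) (by simp)).app
    (pass true b.length ++ [(cap, b.length)])).st (by simp) ?_
  refine ((zagR b.length _).app (back true b.length ++ pass true b.length ++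
    [(cap, b.length)])).st (by simp) ?_
  exact ((bp true b _ rfl).app [(cap, b.length)]).st (by simp) (Rw.refl _ _)

theorem retRet' (t : Config) : Rw A (none :: none :: x :: (b ++ t))
    ((cup none, b.length + 3) :: shift 1 (ret b.length ++ [(cap, b.length + 1)]) ++
      ret b.length ++ [(cap, b.length + 1)]) [(cap, 0)] := by
  have h0 := (fr_cr false x (b ++ t)).one none
  have h1 := h0.append (fr_cr false x _)
  refine (((((fr_ret x b [] rfl).one none).down (k := b.length + 3) (k' := b.length + 3) (by simp)
    (by simp) t [(cup none, 0)]).app ((cap, b.length + 2) :: ret b.length ++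
      [(cap, b.length + 1)])).cfg (by simp)).st (by simp) ?_
  refine ((Rw.pre' (p := shift 1 (ret b.length)) fun d _ => zigR (b.length + 2) d).app
    (ret b.length ++ [(cap, b.length + 1)])).st (by simp) ?_
  refine ((h0.rw ((fr_cr false x []).down rfl rfl (none :: (b ++ t)) (pass true b.length)) (by simp)).app
    (shift 1 (pass true b.length ++ [(cap, b.length)]))).st (by simp [ret, shift_shift]) ?_
  refine ((h1.append ((fr_pass true b t rfl).left [x, none] rfl)).rw
    ((capS true b t rfl).one x) (by simp)).st (by simp) ?_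
  refine ((h1.rw ((pb true b t rfl).left [x, none] rfl) (by simp)).app [(cap, 1)]).st
    (by simp [shift_shift]) ?_
  refine (h0.rw (ofIso (((BMove.capSlide false none x (Or.inl rfl)).iso).right (b ++ t))) (by simp)).st
    (by simp) ?_
  exact (((ofIso (((BMove.two false none x (Or.inl rfl)).iso).right (b ++ t))).one none).app
    [(cap, 0)]).st (by simp) (Rw.refl _ _)

theorem N0_two (r e : ℕ) : N0 r (e + 2) = back true (r + 1) ++ shift 1 (back true (r + 1)) ++
    shift 2 (N0 r e) ++ (shift 1 (ret r ++ [(cap, r + 1)]) ++ ret r ++ [(cap, r + 1)]) := by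
  simp [N0_succ, shift_shift]

theorem capIn (i e : ℕ) (t : Config) :
    Rw A (x :: (b ++ (nn i ++ (nn (2 * e) ++ none :: none :: t))))
      ((cup none, i + (b.length + 1)) :: N0 b.length (i + e + 2))
      ((cap, i + 2 * e + (b.length + 1)) :: N0 b.length (i + e)) := by
  induction i with
  | zero =>
    simp only [Nat.zero_add, N0_two]
    refine ((cupBB true (x :: b) _ rfl).app (shift 2 (N0 b.length e) ++
      (shift 1 (ret b.length ++ [(cap, b.length + 1)]) ++ ret b.length ++
        [(cap, b.length + 1)]))).st (by simp) ?_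
    refine (((fr_cup []).up rfl rfl _ (N0 b.length e)).app
      (shift 1 (ret b.length ++ [(cap, b.length + 1)]) ++ ret b.length ++
        [(cap, b.length + 1)])).st (by simp) ?_
    refine ((fr_N0 x b _ rfl e).rw (retRet x b t) (by simp)).st (by simp) ?_
    exact (upN0 x b _ e [(cap, 0)]).st (by simp) (Rw.of_eq (by simp; omega))
  | succ i ih =>
    have := redStep x b ih
    rwa [show i + e + 2 + 1 = i + 1 + e + 2 by omega, show i + e + 1 = i + 1 + e by omega,
      show i + 2 * e + 1 = i + 1 + 2 * e by omega] at this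

theorem capOut (q e : ℕ) (t : Config) :
    Rw A (x :: (b ++ (nn q ++ none :: none :: (nn (2 * e) ++ t))))
      ((cup none, q + 2 * e + 2 + (b.length + 1)) :: N0 b.length (q + e + 2))
      ((cap, q + (b.length + 1)) :: N0 b.length (q + e)) := by
  induction q with
  | zero =>
    simp only [Nat.zero_add, N0_two]
    have h0 : ∀ t, Fr (x :: (b ++ none :: none :: t)) _ (none :: none :: x :: (b ++ t)) :=
      fun t => (fr_back1 x b _ rfl).append ((fr_back1 x b t rfl).one none)
    have h1 : ∀ t, Fr _ _ (none :: none :: x :: (b ++ t)) :=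
      fun t => (h0 _).append ((fr_N0 x b t rfl e).left [none, none] rfl)
    refine ((((h1 []).down (k := 2 * e + 2 + (b.length + 1)) (k' := b.length + 3)
      (by simp [nn_length]; omega) (by simp) t [(cup none, 0)]).app
      (shift 1 (ret b.length ++ [(cap, b.length + 1)]) ++ ret b.length ++
        [(cap, b.length + 1)])).cfg (by simp [nn])).st (by simp) ?_
    refine ((h1 t).rw (retRet' x b t) (by simp)).st (by simp) ?_
    refine ((h0 _).rw ((fr_cap []).down rfl rfl (x :: (b ++ (nn (2 * e) ++ t)))
      (N0 b.length e)) (by simp)).st (by simp) ?_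
    exact ((capBB true (x :: b) _ rfl).app (N0 b.length e)).st (by simp) (Rw.refl _ _)
  | succ q ih =>
    have := redStep x b ih
    rwa [show q + e + 2 + 1 = q + 1 + e + 2 by omega, show q + e + 1 = q + 1 + e by omega,
      show q + 2 * e + 2 + 1 = q + 1 + 2 * e + 2 by omega] at this

end Red

theorem redCap {base : Config} {f f' : List ℕ} {i q : ℕ} (hf : base.length = f.length)
    (h : redNs f i = some (false, q, f')) (m : ℕ) :
    f'.sum + 2 = f.sum ∧ f'.length = f.length ∧ i + 2 ≤ 2 * f.sum ∧
    Rw A (base ++ nn (2 * f'.sum + 2 + m)) ((cup none, i + base.length) :: Ns f)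
      ((cap, q + base.length) :: Ns f') := by
  induction f generalizing base i q f' with
  | nil => cases h
  | cons f fs ih =>
    match base, hf with
    | x :: b, hf =>
      have hb : b.length = fs.length := Nat.succ.inj hf
      simp only [redNs] at h
      split_ifs at h with h1 h2 h3 h4
      · obtain ⟨⟨s, q', fs'⟩, hr, he⟩ := Option.map_eq_some_iff.mp h
        simp only [Prod.mk.injEq] at he
        obtain ⟨rfl, rfl, rfl⟩ := he
        obtain ⟨a1, a2, a3, a4⟩ := ih hb hr
        refine ⟨by simp; omega, by simp [a2], by simp; omega, ?_⟩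
        refine Rw.cfg (c := x :: (b ++ (nn (2 * f) ++ nn (2 * fs'.sum + 2 + m)))) ?_
          (by rw [← nn_add, List.sum_cons, List.cons_append]; congr 3; omega)
        refine ((downN0 x b _ f [(cup none, i - 2 * f)]).app (shift 1 (Ns fs))).st
          (by simp [Ns, hb]; omega) ?_
        refine ((fr_N0 x b _ rfl f).rw (a4.one x) (by simp)).st (by simp [Nat.add_assoc]) ?_
        refine ((upN0 x b _ f [(cap, q')]).app (shift 1 (Ns fs'))).st (by simp [Nat.add_assoc]) ?_
        exact Rw.of_eq (by simp [Ns, hb, a2]; omega)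
      · cases h
      · cases h
        obtain ⟨e, rfl⟩ : ∃ e, f = i + e + 2 := ⟨f - i - 2, by omega⟩
        refine ⟨by simp; omega, rfl, by simp; omega, ?_⟩
        refine (((capIn x b i e (nn (i + 2 * fs.sum + m))).app (shift 1 (Ns fs))).cfg ?_).st
          (by simp [Ns, hb]) (Rw.of_eq (by simp [Ns, hb]; omega))
        rw [← nn_succ, ← nn_succ, ← nn_add, ← nn_add, List.sum_cons, List.cons_append]
        congr 3; omega
      · cases h
        obtain ⟨q, e, rfl, rfl⟩ : ∃ q e, f = q + e + 2 ∧ i = q + 2 * e + 2 :=
          ⟨2 * f - 2 - i, i - f, by omega, by omega⟩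
        refine ⟨by simp; omega, rfl, by simp; omega, ?_⟩
        refine (((capOut x b q e (nn (q + 2 * fs.sum + m))).app (shift 1 (Ns fs))).cfg ?_).st
          (by simp [Ns, hb]) (Rw.of_eq (by simp [Ns, hb]; omega))
        rw [← nn_add, ← nn_succ, ← nn_succ, ← nn_add, List.sum_cons, List.cons_append]
        congr 3; omega

theorem redLoop {base : Config} {f f' : List ℕ} {i j : ℕ} (hf : base.length = f.length)
    (h : redNs f i = some (true, j, f')) (m : ℕ) :
    f'.sum + 1 = f.sum ∧ f'.length = f.length ∧ j < f.length ∧ i + 2 ≤ 2 * f.sum ∧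
    Rw A (base ++ nn (2 * f'.sum + m)) ((cup none, i + base.length) :: Ns f)
      (Ns f' ++ shift j loop) := by
  induction f generalizing base i j f' with
  | nil => cases h
  | cons f fs ih =>
    match base, hf with
    | x :: b, hf =>
      have hb : b.length = fs.length := Nat.succ.inj hf
      simp only [redNs] at h
      split_ifs at h with h1 h2 h3 h4
      · obtain ⟨⟨s, j', fs'⟩, hr, he⟩ := Option.map_eq_some_iff.mp h
        simp only [Prod.mk.injEq] at he
        obtain ⟨rfl, rfl, rfl⟩ := he
        obtain ⟨a1, a2, a3, a4, a5⟩ := ih hb hr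
        refine ⟨by simp; omega, by simp [a2], by simpa using a3, by simp; omega, ?_⟩
        refine Rw.cfg (c := x :: (b ++ (nn (2 * f) ++ nn (2 * fs'.sum + m)))) ?_
          (by rw [← nn_add, List.sum_cons, List.cons_append]; congr 3; omega)
        refine ((downN0 x b _ f [(cup none, i - 2 * f)]).app (shift 1 (Ns fs))).st
          (by simp [Ns, hb]; omega) ?_
        refine ((fr_N0 x b _ rfl f).rw (a5.one x) (by simp)).st (by simp [Nat.add_assoc]) ?_
        exact Rw.of_eq (by simp [Ns, hb, a2, shift_shift])
      · cases h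
        subst h3
        refine ⟨by simp; omega, rfl, by simp, by simp; omega, ?_⟩
        refine Rw.cfg (c := x :: (b ++ (nn (2 * i) ++ nn (2 * fs.sum + m)))) ?_
          (by rw [← nn_add, List.sum_cons, List.cons_append]; congr 3; omega)
        refine ((loopG x b i _).app (shift 1 (Ns fs))).st (by simp [Ns, hb]) ?_
        refine ((fr_N0 x b _ rfl i).rw ((fr_loop x []).up rfl rfl (b ++ nn (2 * fs.sum + m))
          (Ns fs)) (by simp)).st (by simp) ?_
        exact Rw.of_eq (by simp [Ns, hb])
      · cases h
      · cases h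

theorem fr_cupNs {base : Config} {f : List ℕ} {i M : ℕ} (hf : base.length = f.length)
    (hi : i + 2 ≤ 2 * f.sum) (hM : 2 * f.sum ≤ M + 2) :
    ∃ d, Fr (base ++ nn M) ((cup none, i + base.length) :: Ns f) d := by
  obtain ⟨k, rfl⟩ : ∃ k, M = i + k := ⟨M - i, by omega⟩
  obtain ⟨l, hl⟩ : ∃ l, i + (k + 1 + 1) = 2 * f.sum + l := ⟨i + k + 2 - 2 * f.sum, by omega⟩
  have h1 := fr_cupAt (base ++ nn i) (nn k) (r := i + base.length) (by simp [nn_length]; omega)
  rw [List.append_assoc, List.append_assoc, ← nn_add, ← nn_succ, ← nn_succ, ← nn_add, hl,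
    nn_add (2 * f.sum)] at h1
  exact ⟨_, h1.append (fr_Ns _ hf)⟩

theorem tsLoop {base : Config} {n : List ℕ} {j : ℕ} (hb : base.length = n.length)
    (hj : j < n.length) (c : Config) :
    Rw A (base ++ c) (Ts n ++ shift j loop) (Ts (bump n j)) ∧
    Rw A (base ++ c) (shift j loop ++ Ts n) (Ts (bump n j)) ∧
    Fr (base ++ c) (shift j loop) (base ++ c) := by
  induction n generalizing base j with
  | nil => simp at hj
  | cons a ns ih =>
    match base, hb with
    | x :: b, hb =>
      cases j with
      | zero =>
        refine ⟨?_, Rw.of_eq (by simp [Ts, bump, lp_cons]), by simpa using fr_loop x (b ++ c)⟩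
        refine ((fr_lp x _ a).rw ((fr_loop x []).down rfl rfl (b ++ c) (Ts ns)) (by simp)).st
          (by simp [Ts]) ?_
        exact Rw.of_eq (by simp [Ts, bump, lp_snoc])
      | succ j =>
        obtain ⟨h1, h2, h3⟩ := ih (Nat.succ.inj hb) (Nat.lt_of_succ_lt_succ hj)
        refine ⟨?_, ?_, (h3.one x).cast rfl (shift_shift _ _ _) rfl⟩
        · exact ((fr_lp x _ a).rw (h1.one x) (by simp)).st (by simp [Ts, shift_shift]) (Rw.refl _ _)
        · refine (((fr_lp x [] a).down rfl rfl (b ++ c) (shift j loop)).app (shift 1 (Ts ns))).st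
            (by simp [Ts, shift_shift]) ?_
          exact ((fr_lp x _ a).rw (h2.one x) (by simp)).st (by simp) (Rw.refl _ _)

theorem claspA (x : Option ℕ) : Iso A [x, none]
    [(cup none, 1), (cr true, 2), (cr false, 0), (cr false, 0), (cap, 1)]
    [(cr true, 0), (cup none, 0), (cr true, 1), (cap, 0), (cr true, 0)] := by
  have h : ∀ y ∈ [none, some 0], Iso A [y, none]
      [(cup none, 1), (cr true, 2), (cr false, 0), (cr false, 0), (cap, 1)]
      [(cr true, 0), (cup none, 0), (cr true, 1), (cap, 0), (cr true, 0)] := fun y hy =>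
    chk_sound [(1, .sw), (2, .sw), (0, .ap (.cupS none false) 0 true), (2, .sw),
      (3, .ap (.capS false) 0 true), (1, .ap (.three true true true) 1 true), (3, .sw), (0, .sw)]
      (by revert y; decide +kernel)
  cases x with
  | none => exact h none (by simp)
  | some n => exact (h (some 0) (by simp)).recol (fun _ => n) fun _ f => f

theorem claspB (x : Option ℕ) : Rw A [x, none]
    [(cup none, 1), (cap, 2), (cup none, 2), (cr false, 0), (cr false, 0), (cap, 1)]
    [(cr false, 0), (cr false, 0)] := by
  refine ((zagR 1 _).app [(cup none, 2), (cr false, 0), (cr false, 0), (cap, 1)]).st rfl ?_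
  refine ((((fr_cr' false x []).append (fr_cr false x [])).down rfl rfl []
    [(cup none, 0)]).app [(cap, 1)]).st rfl ?_
  exact (Rw.pre' (p := [(cr false, 0), (cr false, 0)]) fun d _ => zigR 1 d).st rfl (Rw.refl _ _)

theorem clasp (x : Option ℕ) : cls A [x, none] [(cr true, 0), (cr true, 0)] =
    -sc A (-2) • cls A [x, none] loop - sc A (-4) • cls A [x, none] [(cr false, 0), (cr false, 0)] := by
  have h1 := bracket_ctx (A := A) (c := [x, none]) (p := [(cup none, 1)]) (cl := [x, none])
    (cr := []) rfl true [(cr false, 0), (cr false, 0), (cap, 1)]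
  have hp : run [x, none] [(cr true, 0)] = some ([] ++ [none] ++ [x]) := rfl
  have h2 := (emb_cls (A := A) [(cr true, 0)] [] [none] [x] [(cr true, 0)] hp
    [(cup none, 0), (cr true, 1), (cap, 0)]).symm
  have h3 := (((BMove.cupSlide none false x (Or.inr rfl)).iso (A := A)).right [none]).cls_app
    [(cr false, 0), (cap, 1)]
  have h4 := (claspB (A := A) x [x, none] rfl).eq
  rw [curl_left, map_smul, emb_cls] at h2
  have h5 := (claspA (A := A) x).eq
  simp only [List.length_cons, List.length_nil, List.cons_append, List.nil_append, shift_zero,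
    Nat.zero_add, Nat.reduceAdd, Bool.not_false, sg, if_true, mul_one] at h1 h2 h3
  rw [h5, h2, h3, h4] at h1
  have h6 := congrArg (fun z => -sc A (-3) • z) h1
  simp only [smul_add, smul_smul, neg_mul, mul_neg, neg_neg, sc_mul] at h6
  rw [show sc A (-3 + 3) = 1 by simp [sc], one_smul] at h6
  rw [h6, sub_eq_add_neg, ← neg_smul]
  rfl

end G1

open G1

variable {c c' base : Config} {a u u' f f' n : List ℕ} {i j q m : ℕ}

theorem run_Ns (hb : base.length = f.length) (m : ℕ) :
    run (base ++ nn (2 * f.sum + m)) (Ns f) = some (base ++ nn m) :=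
  nn_add _ _ ▸ (fr_Ns (nn m) hb).ty

theorem skel_Ns (hb : base.length = f.length) (m : ℕ) :
    skel (base ++ nn (2 * f.sum + m)) (Ns f) = [] :=
  nn_add _ _ ▸ (fr_Ns (nn m) hb).sk

theorem run_Ts (hb : base.length = n.length) (c : Config) :
    run (base ++ c) (Ts n) = some (base ++ c) := (fr_Ts c hb).ty

theorem skel_Ts (hb : base.length = n.length) (c : Config) : skel (base ++ c) (Ts n) = [] :=
  (fr_Ts c hb).sk

theorem run_beta (hj : j < f.length) (m : ℕ) :
    run (nn (2 * f.sum + 2 + m)) (beta f j) = some (nn (2 * f.sum + 2 + m)) := by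
  induction j generalizing f with
  | zero =>
    match f, hj with
    | f :: fs, _ =>
      have h1 := fr_back_nn true (2 * f) (2 * fs.sum) (m + 1)
      have h2 := fr_back_nn true (2 * f + 1) (2 * fs.sum) m
      have h3 := fr_back_nn true 0 (2 * f) (2 * fs.sum + 1 + m)
      rw [show 2 * f + 2 * fs.sum + 1 + (m + 1) = 2 * (f :: fs).sum + 2 + m by simp; omega] at h1
      rw [show 2 * f + 1 + 2 * fs.sum + 1 + m = 2 * (f :: fs).sum + 2 + m by simp; omega] at h2
      rw [show 0 + 2 * f + 1 + (2 * fs.sum + 1 + m) = 2 * (f :: fs).sum + 2 + m by simp; omega,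
        shift_zero] at h3
      exact ((h1.append h2).append h3).ty
  | succ j ih =>
    match f, hj with
    | f :: fs, hj =>
      have := run_left (ih (Nat.lt_of_succ_lt_succ hj)) (nn (2 * f))
      rwa [nn_length, ← nn_add,
        show 2 * f + (2 * fs.sum + 2 + m) = 2 * (f :: fs).sum + 2 + m by simp; omega] at this

theorem Ts_loop (hb : base.length = n.length) (hj : j < n.length) (c : Config) :
    Iso A (base ++ c) (Ts n ++ shift j loop) (Ts (bump n j)) :=
  (tsLoop hb hj c).1 _ ((fr_Ts c hb).append (tsLoop (A := A) hb hj c).2.2).ty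

theorem loop_Ts (hb : base.length = n.length) (hj : j < n.length) (c : Config) :
    Iso A (base ++ c) (shift j loop ++ Ts n) (Ts (bump n j)) :=
  (tsLoop hb hj c).2.1 _ ((tsLoop (A := A) hb hj c).2.2.append (fr_Ts c hb)).ty

theorem tl_comm {x : Kind} {m' : ℕ} (hf : base.length = f.length) (hn : base.length = n.length)
    (hx : step x i (nn m) = some (nn m')) :
    Iso A (base ++ nn (2 * f.sum + m)) (Ns f ++ Ts n ++ [(x, i + base.length)])
      ((x, i + 2 * f.sum + base.length) :: Ns f ++ Ts n) := by
  have h := (fr_Ns [] hf).append (fr_Ts [] hn)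
  have := far_block (A := A) h.ty (y := [(x, i)]) (by rw [run_single, hx]) (Or.inl h.sk)
  simpa [nn_add, nn_length, Nat.add_assoc, Nat.add_comm base.length] using this

theorem hook_false (hf : base.length = f.length) (hn : base.length = n.length)
    (hj : j < base.length) (m : ℕ) :
    Iso A (base ++ nn (2 * f.sum + (m + 1))) (Ns f ++ Ts n ++ hook base.length j false)
      (shift base.length ((cup none, 2 * f.sum + 1) :: beta f j) ++ Ns (bump f j) ++ Ts n) := by
  rw [nn_add, nn_succ]
  have h0 := fr_Ns (none :: nn m) hf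
  refine Rw.st (h0.rw (hookTs hn hj (nn m)) (by simp)) (List.append_assoc _ _ _) ?_ _
    ((h0.append (fr_Ts _ hn)).append (fr_hook _ hj false)).ty
  exact ((hookNs hf hj (nn m)).app (Ts n)).st (by simp) (Rw.refl _ _)

theorem hook_true (hj : j < base.length) (m : ℕ) :
    cls A (base ++ nn (m + 1)) (hook base.length j true) =
      -sc A (-2) • cls A (base ++ nn (m + 1)) (shift j loop) -
        sc A (-4) • cls A (base ++ nn (m + 1)) (hook base.length j false) := by
  obtain ⟨bl, x, br, rfl, rfl⟩ : ∃ bl x br, base = bl ++ x :: br ∧ bl.length = j :=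
    ⟨base.take j, base[j], base.drop (j + 1), by simp, by simp; omega⟩
  have e : (bl ++ x :: br).length - bl.length - 1 = br.length := by simp
  have hp := ((fr_back true br (nn m) rfl).one x).left bl rfl
  have h := congrArg (emb A (c := bl ++ x :: (br ++ none :: nn m))
    (shift bl.length (shift 1 (back true br.length))) bl [x, none] (br ++ nn m)
    (shift bl.length (shift 1 (pass true br.length))) (by simpa using hp.ty)) (clasp (A := A) x)
  have hl : Rw A (x :: (br ++ none :: nn m))
      (shift 1 (back true br.length) ++ loop ++ shift 1 (pass true br.length)) loop := by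
    refine (((fr_loop x []).down rfl rfl _ (back true br.length)).app _).st rfl ?_
    exact ((fr_loop x _).rw ((bp true br (nn m) rfl).one x) (by simp)).st (by simp) (Rw.of_eq (by simp))
  have hl' := ((hl _ ((((fr_back true br (nn m) rfl).one x).append (fr_loop x _)).append
    ((fr_pass true br (nn m) rfl).one x)).ty).left bl).eq
  rw [map_sub, map_smul, map_smul, emb_cls, emb_cls, emb_cls] at h
  simp only [shift_append] at hl'
  rw [hl'] at h
  rw [show bl ++ x :: br ++ nn (m + 1) = bl ++ x :: (br ++ none :: nn m) by simp [nn_succ]]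
  simpa only [hook, e, shift_append] using h

theorem red_cap (hf : base.length = f.length) (h : redNs f i = some (false, q, f')) (m : ℕ) :
    f'.sum + 2 = f.sum ∧ f'.length = f.length ∧
    Iso A (base ++ nn (2 * f'.sum + 2 + m)) ((cup none, i + base.length) :: Ns f)
      ((cap, q + base.length) :: Ns f') := by
  obtain ⟨h1, h2, h3, h4⟩ := redCap (A := A) hf h m
  obtain ⟨d, hd⟩ := fr_cupNs (M := 2 * f'.sum + 2 + m) hf h3 (by omega)
  exact ⟨h1, h2, h4 d hd.ty⟩

theorem red_loop (hf : base.length = f.length) (h : redNs f i = some (true, j, f')) (m : ℕ) :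
    f'.sum + 1 = f.sum ∧ f'.length = f.length ∧ j < f.length ∧
    Iso A (base ++ nn (2 * f'.sum + m)) ((cup none, i + base.length) :: Ns f)
      (Ns f' ++ shift j loop) := by
  obtain ⟨h1, h2, h3, h4, h5⟩ := redLoop (A := A) hf h m
  obtain ⟨d, hd⟩ := fr_cupNs (M := 2 * f'.sum + m) hf h4 (by omega)
  exact ⟨h1, h2, h3, h5 d hd.ty⟩

end Pool.Agent.Lib.MP_5b31c3_gt
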