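import Pool.Agent.Lib.MP_5b31c3_gt.Gath

/-
Gathered normal form of words.
-/

namespace Pool.Agent.Lib.MP_5b31c3_gt

open Kind

variable {R : Type*} [CommRing R] {A : Rˣ}

attribute [local simp] gf_poles_nil gf_poles_none gf_poles_some gf_nl_nil gf_nl_none gf_nl_some
  gf_nn_zero gf_nn_length

section Peel
variable {c c' base bl b0 b0' br : Config} {g : List Gl} {k m m' i s : ℕ} {z y β : Word}

theorem gf_pass_succ' (b : Bool) (k : ℕ) : pass b (k + 1) = pass b k ++ [(cr b, k)] := by
  rw [pass_add]
  simp [pass]

theorem gf_lift_letter {x : Gl} (h : x.ty base.length m = some m') :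
    runG base.length (m + 1) x.lift = some (m' + 1) ∧
    GfIs A (none :: (base ++ nn m)) (shift 1 (x.w base.length) ++ pass true base.length)
      (pass true base.length ++ interp base.length x.lift) (base ++ nn (m' + 1)) := by
  rcases gf_ty_cases h with ⟨y, i, t⟩ | ⟨j, b, m0, rfl, hj, rfl, rfl⟩
  · refine ⟨t.lty _, ?_⟩
    have := (GfIs.far (A := A) (run_pass true none base) t.st (Or.inr t.sk)).symm
    rw [t.w, t.lift, shift_shift]
    simpa [gf_nn_succ] using this
  · refine ⟨by simp [Gl.lift, runG, Gl.ty, hj], ?_⟩
    obtain ⟨h1, -, -⟩ := gf_hook_facts hj b []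
    have r2 : run (base ++ [none] ++ [none]) [(cr false, base.length)] =
        some (base ++ [none, none]) := by
      simpa using run_left (c := [none, none]) (w := [(cr false, 0)]) rfl base
    have h2 := (GfIs.npass (A := A) h1).app r2
    have h3 := (((GfIs.two (A := A) true none none (Or.inl rfl)).left base).pre
      (by simpa using run_right (run_pass true none base) [none])).pre (run_one h1 none)
    simp only [List.length_append, List.length_cons, List.length_nil, Nat.zero_add, gf_pass_succ',
      List.append_assoc, shift_cons, shift_nil, Bool.not_true, List.cons_append,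
      List.nil_append, List.append_nil] at h2 h3
    simpa [Gl.lift, interp, Gl.w, gf_nn_succ] using (h2.trans h3).symm.right (nn m0)

theorem gf_lift_iso (h : runG base.length m g = some m') :
    runG base.length (m + 1) (g.flatMap Gl.lift) = some (m' + 1) ∧
    GfIs A (none :: (base ++ nn m)) (shift 1 (interp base.length g) ++ pass true base.length)
      (pass true base.length ++ interp base.length (g.flatMap Gl.lift))
      (base ++ nn (m' + 1)) := by
  induction g generalizing m with
  | nil =>
    cases h
    exact ⟨rfl, by simpa [interp, gf_nn_succ] using GfIs.rf (A := A) (run_pass' true none base _)⟩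
  | cons x g ih =>
    obtain ⟨m1, h1, h2⟩ := gf_runG_cons_some h
    obtain ⟨a1, a2⟩ := gf_lift_letter (A := A) h1
    obtain ⟨b1, b2⟩ := ih h2
    refine ⟨by rw [List.flatMap_cons]; exact gf_runG_app a1 b1, ?_⟩
    have e1 := b2.pre (run_one (gf_letter_facts h1 rfl).1 none)
    have e2 := a2.app (run_interp b1 rfl)
    simp only [List.append_assoc] at e2
    simpa [interp, interp_append] using e1.trans e2

theorem gf_cup_pass (base : Config) :
    GfIs A base ((cup none, 0) :: shift 1 (pass true base.length))
      ((cup none, base.length) :: back true base.length) (none :: (base ++ [none])) := by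
  induction base with
  | nil => exact GfIs.rf rfl
  | cons a d ih =>
    have r1 := run_pass true none d
    have e1 := ((GfIs.of' ((BMove.cupSlide none false a (Or.inr rfl)).iso (A := A))
      (d := [none, a, none]) rfl).symm.right d).app
      (run_left r1 [none, a])
    have e2 := (GfIs.far (A := A) (c1 := [a, none]) (x := [(cr false, 0)]) rfl r1
      (Or.inl (by cases a <;> rfl))).pre (c := a :: d) (l := [(cup none, 1)]) rfl
    have e3 := (ih.one a).app (s := [(cr false, 0)]) (e := none :: a :: (d ++ [none])) rfl
    simp only [List.length_cons, List.length_nil, Nat.zero_add, List.cons_append,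
      List.nil_append, shift_cons, shift_shift, Bool.not_false] at e1 e2 e3
    simpa [pass, back, shift_shift] using (e1.trans e2).trans e3

theorem gf_pass_cap (base : Config) :
    GfIs A (none :: (base ++ [none])) (pass true base.length ++ [(cap, base.length)])
      (shift 1 (back true base.length) ++ [(cap, 0)]) base := by
  induction base with
  | nil => exact GfIs.rf rfl
  | cons a d ih =>
    have r1 := run_back true none d
    have e1 := (ih.one a).pre (c := none :: a :: (d ++ [none])) (l := [(cr true, 0)]) rfl
    have e2 := (GfIs.far (A := A) (c1 := [none, a]) (x := [(cr true, 0)]) rfl r1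
      (Or.inl rfl)).app (s := [(cap, 1)]) (e := a :: d) rfl
    have e3 := ((GfIs.of' ((BMove.capSlide true none a (Or.inl rfl)).iso (A := A))
      (d := [a]) rfl).right d).pre (run_left r1 [none, a])
    simp only [List.length_cons, List.length_nil, Nat.zero_add, List.cons_append,
      List.nil_append, shift_cons, shift_shift, Bool.not_true, shift_append, shift_nil,
      List.append_assoc] at e1 e2 e3
    simpa [pass, back, shift_shift] using (e1.trans e2).trans e3

theorem gf_run_mp2 (base : Config) : run (none :: none :: base)
    (shift 1 (pass true base.length) ++ pass true base.length) = some (base ++ [none, none]) := by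
  rw [run_append_of (run_one (run_pass _ _ _) none), run_pass']

theorem gf_two_cup (base : Config) :
    GfIs A base ((cup none, 0) :: (shift 1 (pass true base.length) ++ pass true base.length))
      [(cup none, base.length)] (base ++ [none, none]) := by
  have e1 := (gf_cup_pass (A := A) base).app (run_pass' true none base [none])
  have e2 := ((GfIs.bp (A := A) base).right [none]).pre (c := base) (l := [(cup none, base.length)])
    (by simpa using run_left (c := []) (w := [(cup none, 0)]) rfl base)
  simpa using e1.trans (by simpa using e2)

theorem gf_two_cap (base : Config) :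
    GfIs A (none :: none :: base) [(cap, 0)]
      (shift 1 (pass true base.length) ++ pass true base.length ++ [(cap, base.length)]) base := by
  have e1 := (gf_pass_cap (A := A) base).pre (run_one (run_pass true none base) none)
  have e2 := ((GfIs.pb (A := A) base).one none).app (s := [(cap, 0)]) (e := base) rfl
  simpa using (e1.trans (by simpa using e2)).symm

theorem gf_two_cr (base : Config) (b : Bool) :
    GfIs A (none :: none :: base)
      ((cr b, 0) :: (shift 1 (pass true base.length) ++ pass true base.length))
      (shift 1 (pass true base.length) ++ pass true base.length ++ [(cr b, base.length)])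
      (base ++ [none, none]) := by
  have e0 : GfIs A (none :: none :: base)
      ((cr true, 0) :: (shift 1 (pass true base.length) ++ pass true base.length))
      (shift 1 (pass true base.length) ++ pass true base.length ++ [(cr true, base.length)])
      (base ++ [none, none]) := by
    have := GfIs.npass (A := A) (run_pass true none base)
    rw [List.length_append, List.length_singleton, gf_pass_succ', List.length_cons, pass] at this
    simpa using this
  cases b
  · have r2 : run (base ++ [none, none]) [(cr false, base.length)] =
        some (base ++ [none, none]) := by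
      simpa using run_left (c := [none, none]) (w := [(cr false, 0)]) rfl base
    have e1 := (e0.app r2).pre (c := none :: none :: base) (l := [(cr false, 0)]) rfl
    have e2 := (((GfIs.two (A := A) true none none (Or.inl rfl)).left base).pre (gf_run_mp2 base)).pre
      (c := none :: none :: base) (l := [(cr false, 0)]) rfl
    have e3 := (((GfIs.two (A := A) false none none (Or.inl rfl)).right base).app
      (gf_run_mp2 base)).app r2
    simp only [List.cons_append, List.nil_append, shift_cons, Bool.not_true, Bool.not_false,
      shift_nil, List.append_assoc, Nat.zero_add, List.append_nil] at e1 e2 e3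
    simpa using (e2.symm.trans e1.symm).trans e3
  · exact e0

/-- A slice at the far left commutes with the gathering of the strands to its right. -/
theorem gf_core_far {x : Kind} {c0 c0' : Config} (h : run c0 [(x, 0)] = some c0') (d : Config) :
    GfIs A (c0 ++ d) ((x, 0) :: shift c0'.length (gather d))
      (shift c0.length (gather d) ++ [(x, 0)]) (c0' ++ (poles d ++ nn (nl d))) :=
  GfIs.far h (run_gather d) (Or.inr (skel_gather d))

theorem gf_gam_zero {x : Kind} (h : step x 0 c = some c') (hs : x.surg c = false) :
    poles c' = poles c ∧ runG (np c) (nl c) (gam x 0 c) = some (nl c') ∧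
    GfIs A c ((x, 0) :: gather c') (gather c ++ interp (np c) (gam x 0 c))
      (poles c' ++ nn (nl c')) := by
  cases x with
  | cup q =>
    obtain rfl : q = none := by simpa [Kind.surg] using hs
    cases h
    refine ⟨rfl, by simp [gam, runG, Gl.ty], ?_⟩
    have e1 := (gf_core_far (A := A) (x := cup none) (c0 := []) rfl c).app
      (run_right (gf_run_mp2 (poles c)) (nn (nl c)))
    have e2 := ((gf_two_cup (A := A) (poles c)).right (nn (nl c))).pre (run_gather c)
    simp only [poles_length, List.length_cons, List.length_nil, shift_zero, List.append_assoc,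
      List.cons_append, List.nil_append] at e1 e2
    simpa [gam, gather, interp, Gl.w, shift_shift, gf_nn_succ] using e1.trans e2
  | cap =>
    match c, h, hs with
    | none :: none :: d, h, _ =>
      cases h
      refine ⟨rfl, by simp [gam, runG, Gl.ty], ?_⟩
      have e1 := gf_core_far (A := A) (x := cap) (c0 := [none, none]) rfl c'
      have e2 := ((gf_two_cap (A := A) (poles c')).right (nn (nl c'))).pre
        (run_left (run_gather c') [none, none])
      simp only [poles_length, List.length_cons, List.length_nil, shift_zero, List.append_assoc,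
        List.cons_append, List.nil_append] at e1 e2
      simpa [gam, gather, interp, Gl.w, shift_shift, gf_nn_succ] using e1.trans e2
    | none :: some _ :: d, h, _ => simp [step, Kind.act] at h
    | some _ :: _ :: d, _, hs => simp [Kind.surg] at hs
  | cr b =>
    match c, h, hs with
    | none :: none :: d, h, _ =>
      cases h
      refine ⟨rfl, by simp [gam, runG, Gl.ty], ?_⟩
      have e1 := (gf_core_far (A := A) (x := cr b) (c0 := [none, none]) rfl d).app
        (run_right (gf_run_mp2 (poles d)) (nn (nl d)))
      have e2 := ((gf_two_cr (A := A) (poles d) b).right (nn (nl d))).pre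
        (run_left (run_gather d) [none, none])
      simp only [poles_length, List.length_cons, List.length_nil, List.append_assoc,
        List.cons_append, List.nil_append] at e1 e2
      simpa [gam, gather, interp, Gl.w, shift_shift, gf_nn_succ] using e1.trans e2
    | none :: some n :: d, h, _ =>
      cases h
      have rp := run_one (run_pass' true none (poles d) (nn (nl d))) (some n)
      have e1 := (gf_core_far (A := A) (x := cr b) (c0 := [none, some n]) rfl d).app rp
      refine ⟨rfl, by cases b <;> simp [gam, runG, Gl.ty], ?_⟩
      cases b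
      · have rg := run_left (run_gather d) [none, some n]
        have e2 := ((((GfIs.two (A := A) true none (some n) (Or.inl rfl)).right _).app
          (s := [(cr false, 0)]) rfl).app rp).pre rg
        have e3 := (((((GfIs.pb (A := A) (poles d)).right (nn (nl d))).one (some n)).app
          (s := [(cr false, 0), (cr false, 0)]) rfl).app rp).pre
          (c := none :: some n :: (poles d ++ nn (nl d))) (l := [(cr true, 0)]) rfl |>.pre rg
        simp only [poles_length, List.length_cons, List.length_nil, List.append_assoc,
          List.cons_append, List.nil_append, shift_append, shift_nil, Bool.not_true] at e1 e2 e3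
        simpa [gam, gather, interp, Gl.w, shift_shift, gf_nn_succ, hook, pass] using
          (e1.trans e2.symm).trans e3.symm
      · simpa [gam, gather, interp, shift_shift, gf_nn_succ, pass, poles_length] using e1
    | some n :: none :: d, h, _ =>
      cases h
      have rp := run_one (run_pass' true none (poles d) (nn (nl d))) (some n)
      have rg := run_left (run_gather d) [some n, none]
      have e1 := ((gf_core_far (A := A) (x := cr b) (c0 := [some n, none]) rfl d).app
        (s := [(cr true, 0)]) rfl).app rp
      refine ⟨rfl, by cases b <;> simp [gam, runG, Gl.ty], ?_⟩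
      cases b
      · have e2 := (((GfIs.two (A := A) false (some n) none (Or.inr rfl)).right _).app rp).pre rg
        simp only [poles_length, List.length_cons, List.length_nil, List.append_assoc,
          List.cons_append, List.nil_append, Bool.not_false] at e1 e2
        simpa [gam, gather, interp, shift_shift, gf_nn_succ, pass] using e1.trans e2
      · have e3 := (((((GfIs.pb (A := A) (poles d)).right (nn (nl d))).one (some n)).app
          (s := [(cr true, 0), (cr true, 0)]) rfl).app rp).pre rg
        simp only [poles_length, List.length_cons, List.length_nil, List.append_assoc,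
          List.cons_append, List.nil_append, shift_append, shift_nil] at e1 e3
        simpa [gam, gather, interp, Gl.w, shift_shift, gf_nn_succ, hook, pass] using
          e1.trans e3.symm
    | some _ :: some _ :: d, _, hs => simp [Kind.surg] at hs

theorem gf_np_of_poles (h : poles c' = poles c) : np c' = np c := by
  rw [← poles_length, h, poles_length]

theorem gf_gam_iso {x : Kind} (h : step x i c = some c') (hs : x.surg (c.drop i) = false) :
    poles c' = poles c ∧ runG (np c) (nl c) (gam x i c) = some (nl c') ∧
    GfIs A c ((x, i) :: gather c') (gather c ++ interp (np c) (gam x i c))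
      (poles c' ++ nn (nl c')) := by
  induction i generalizing c c' with
  | zero => exact gf_gam_zero h hs
  | succ i ih =>
    match c, h, hs with
    | a :: d, h, hs =>
      simp only [step, Option.map_eq_some_iff] at h
      obtain ⟨d', hd, rfl⟩ := h
      obtain ⟨h1, h2, h3⟩ := ih hd hs
      cases a with
      | some n =>
        refine ⟨by simp [h1], ?_, ?_⟩
        · simpa [gam, gf_up_eq] using runG_rx (Nat.zero_le _) h2 1
        · simpa [gam, gather, interp_up h2] using h3.one (some n)
      | none =>
        rw [← poles_length] at h2
        obtain ⟨a1, a2⟩ := gf_lift_iso (A := A) h2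
        refine ⟨h1, by simpa [gam, poles_length] using a1, ?_⟩
        have e1 := (h3.one none).app (run_pass' true none (poles d') (nn (nl d')))
        have e2 := a2.pre (run_one (run_gather d) none)
        simp only [poles_length, gf_np_of_poles h1, shift_append, List.append_assoc] at e1 e2
        simpa [gam, gather, gf_np_of_poles h1, gf_nn_succ] using e1.trans e2

theorem gf_surg_zero {x : Kind} (h : step x 0 c = some c') (hs : x.surg c = true) :
    ∃ c0 c0' d, c = c0 ++ d ∧ c' = c0' ++ d ∧ run c0 [(x, 0)] = some c0' ∧
      gather c = shift c0.length (gather d) ∧ gather c' = shift c0'.length (gather d) ∧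
      poles c = c0 ++ poles d ∧ poles c' = c0' ++ poles d ∧ nl c = nl d ∧ nl c' = nl d := by
  cases x with
  | cup q =>
    match q, h, hs with
    | some q, h, _ =>
      cases h
      exact ⟨[], [some q.1, some q.1], c, rfl, rfl, rfl, by simp, by simp [gather, shift_shift],
        rfl, rfl, rfl, by simp⟩
  | cap =>
    match c, h, hs with
    | some n :: a :: d, h, _ =>
      simp only [step, Kind.act] at h
      split_ifs at h with ha
      cases h
      subst ha
      exact ⟨[some n, some n], [], c', rfl, rfl, by simp [run, step, Kind.act],
        by simp [gather, shift_shift], by simp, rfl, rfl, by simp, rfl⟩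
  | cr b =>
    match c, h, hs with
    | some n :: some q :: d, h, _ =>
      cases h
      exact ⟨[some n, some q], [some q, some n], d, rfl, rfl, rfl, by simp [gather, shift_shift],
        by simp [gather, shift_shift], rfl, rfl, by simp, by simp⟩
    | some n :: none :: d, _, hs => simp [Kind.surg] at hs
    | none :: _ :: d, _, hs => simp [Kind.surg] at hs

theorem gf_surg_iso {x : Kind} (h : step x i c = some c') (hs : x.surg (c.drop i) = true) :
    nl c' = nl c ∧ step x (np (c.take i)) (poles c) = some (poles c') ∧
    x.surg ((poles c).drop (np (c.take i))) = true ∧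
    GfIs A c ((x, i) :: gather c') (gather c ++ [(x, np (c.take i))]) (poles c' ++ nn (nl c')) := by
  induction i generalizing c c' with
  | zero =>
    obtain ⟨c0, c0', d, rfl, rfl, h0, a1, a2, a3, a4, a5, a6⟩ := gf_surg_zero h hs
    rw [a1, a2, a3, a4, a5, a6]
    rw [run_single] at h0
    refine ⟨rfl, step_right h0 _, ?_, by simpa using gf_core_far (by rwa [run_single]) d⟩
    simpa [surg_append (x := x) h0] using hs
  | succ i ih =>
    match c, h, hs with
    | a :: d, h, hs =>
      simp only [step, Option.map_eq_some_iff] at h
      obtain ⟨d', hd, rfl⟩ := h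
      obtain ⟨h1, h2, h3, h4⟩ := ih hd hs
      cases a with
      | some n =>
        exact ⟨by simp [h1], by simp [step, h2], by simpa using h3,
          by simpa [gather] using h4.one (some n)⟩
      | none =>
        refine ⟨by simp [h1], by simpa using h2, by simpa using h3, ?_⟩
        have e1 := (h4.one none).app (run_pass' true none (poles d') (nn (nl d')))
        have e2 := ((GfIs.npass (A := A) (w := [(x, np (d.take i))])
          (by rw [run_single]; exact h2)).symm.right (nn (nl d))).pre (run_one (run_gather d) none)
        simp only [poles_length, shift_append, List.append_assoc] at e1 e2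
        simpa [gather, gf_nn_succ] using e1.trans e2

theorem gconj_t0t : Iso A [some 0, some 1, none]
    [(cr true, 0), (cr false, 1), (cr true, 0), (cr true, 0), (cr true, 1)]
    [(cr false, 1), (cr false, 0), (cr false, 0), (cr true, 1), (cr true, 1), (cr true, 1),
    (cr false, 1), (cr true, 0), (cr true, 0), (cr true, 1), (cr true, 0)] :=
  chk_sound
    [(2, .ap (.two false) 0 false), (0, .ap (.three true false false) 0 true),
    (4, .ap (.two false) 1 false), (2, .ap (.three false true true) 0 false),
    (4, .ap (.three true true true) 0 true), (6, .ap (.three true true true) 0 false),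
    (5, .ap (.two true) 1 false)]
    (by decide +kernel)

theorem gconj_t0f : Iso A [some 0, some 1, none]
    [(cr true, 0), (cr false, 1), (cr false, 0), (cr false, 0), (cr true, 1)]
    [(cr false, 1), (cr false, 0), (cr false, 0), (cr true, 1), (cr false, 1), (cr false, 1),
    (cr false, 1), (cr true, 0), (cr true, 0), (cr true, 1), (cr true, 0)] :=
  chk_sound
    [(0, .ap (.three true false false) 0 true), (4, .ap (.two false) 1 false),
    (2, .ap (.three false false true) 0 false), (6, .ap (.two false) 0 false),
    (4, .ap (.three true true false) 0 true), (6, .ap (.three true true true) 0 false),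
    (3, .ap (.two true) 1 false)]
    (by decide +kernel)

theorem gconj_t1t : Iso A [some 0, some 1, none]
    [(cr true, 0), (cr true, 1), (cr true, 1)]
    [(cr false, 1), (cr true, 0), (cr true, 0), (cr true, 1), (cr true, 0)] :=
  chk_sound
    [(2, .ap (.two false) 0 false), (0, .ap (.three true true false) 0 true),
    (2, .ap (.three true true true) 0 false)]
    (by decide +kernel)

theorem gconj_t1f : Iso A [some 0, some 1, none]
    [(cr true, 0), (cr false, 1), (cr false, 1)]
    [(cr false, 1), (cr false, 0), (cr false, 0), (cr true, 1), (cr true, 0)] :=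
  chk_sound
    [(2, .ap (.two false) 0 false), (0, .ap (.three true false false) 0 true),
    (2, .ap (.three false true true) 0 false)]
    (by decide +kernel)

theorem gconj_f0t : Iso A [some 0, some 1, none]
    [(cr false, 0), (cr false, 1), (cr true, 0), (cr true, 0), (cr true, 1)]
    [(cr true, 1), (cr true, 1), (cr false, 0)] :=
  chk_sound
    [(0, .ap (.three false false true) 0 true), (1, .ap (.three false false true) 0 true),
    (3, .ap (.two false) 1 true)]
    (by decide +kernel)

theorem gconj_f0f : Iso A [some 0, some 1, none]
    [(cr false, 0), (cr false, 1), (cr false, 0), (cr false, 0), (cr true, 1)]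
    [(cr false, 1), (cr false, 1), (cr false, 0)] :=
  chk_sound
    [(0, .ap (.three false false false) 0 true), (1, .ap (.three false false false) 0 true),
    (3, .ap (.two false) 1 true)]
    (by decide +kernel)

theorem gconj_f1t : Iso A [some 0, some 1, none]
    [(cr false, 0), (cr true, 1), (cr true, 1)]
    [(cr true, 1), (cr true, 1), (cr false, 1), (cr true, 0), (cr true, 0), (cr true, 1),
    (cr false, 1), (cr false, 1), (cr false, 0)] :=
  chk_sound
    [(2, .ap (.two true) 0 false), (0, .ap (.three false true true) 0 true),
    (2, .ap (.three true false false) 0 false), (3, .ap (.two true) 1 false),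
    (1, .ap (.two true) 1 false)]
    (by decide +kernel)

theorem gconj_f1f : Iso A [some 0, some 1, none]
    [(cr false, 0), (cr false, 1), (cr false, 1)]
    [(cr true, 1), (cr true, 1), (cr false, 1), (cr false, 0), (cr false, 0), (cr true, 1),
    (cr false, 1), (cr false, 1), (cr false, 0)] :=
  chk_sound
    [(2, .ap (.two true) 0 false), (0, .ap (.three false false true) 0 true),
    (2, .ap (.three false false false) 0 false), (3, .ap (.two true) 1 false),
    (1, .ap (.two true) 1 false)]
    (by decide +kernel)


theorem gf_conj_base (p q : ℕ) (b s : Bool) (hi : i < 2) :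
    Iso A [some p, some q, none] ((cr b, 0) :: hook 2 i s)
      (interp 2 (Gl.conj b 0 (.hk i s)) ++ [(cr b, 0)]) := by
  have key : Iso A [some 0, some 1, none] ((cr b, 0) :: hook 2 i s)
      (interp 2 (Gl.conj b 0 (.hk i s)) ++ [(cr b, 0)]) := by
    obtain rfl | rfl : i = 0 ∨ i = 1 := by omega
    · cases b <;> cases s
      exacts [gconj_f0f, gconj_f0t, gconj_t0f, gconj_t0t]
    · cases b <;> cases s
      exacts [gconj_f1f, gconj_f1t, gconj_t1f, gconj_t1t]
  have := key.recol (fun i => if i = 0 then p else q) fun _ x => x
  obtain rfl | rfl : i = 0 ∨ i = 1 := by omega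
  · cases b <;> cases s <;> exact this
  · cases b <;> cases s <;> exact this

theorem gf_hook_two (r : ℕ) (s : Bool) (hi : i < 2) :
    hook (2 + r) i s = shift 2 (back true r) ++ hook 2 i s ++ shift 2 (pass true r) := by
  obtain rfl | rfl : i = 0 ∨ i = 1 := by omega
  · simp [hook, show 2 + r - 1 = r + 1 by omega, back, pass, shift_shift]
  · simp [hook, back, pass, shift_shift]

theorem gf_wrapG (p q : Option ℕ) (br : Config) (hg : ∀ x ∈ g, ∃ i s, x = Gl.hk i s ∧ i < 2) :
    runG 2 1 g = some 1 ∧ runG (2 + br.length) 1 g = some 1 ∧
    GfIs A (p :: q :: (br ++ [none])) (interp (2 + br.length) g)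
      (shift 2 (back true br.length) ++ interp 2 g ++ shift 2 (pass true br.length))
      (p :: q :: (br ++ [none])) := by
  induction g with
  | nil => exact ⟨rfl, rfl, by simpa [interp] using ((GfIs.bp (A := A) br).left [p, q]).symm⟩
  | cons x g ih =>
    obtain ⟨i, s, rfl, hi⟩ := hg x (by simp)
    obtain ⟨a1, a2, a3⟩ := ih fun y hy => hg y (by simp [hy])
    have t1 : (Gl.hk i s).ty 2 1 = some 1 := by simp [Gl.ty, hi]
    have t2 : (Gl.hk i s).ty (2 + br.length) 1 = some 1 := by
      simp only [Gl.ty]; rw [if_pos ⟨by omega, le_rfl⟩]
    refine ⟨by rw [gf_runG_cons_of t1, a1], by rw [gf_runG_cons_of t2, a2], ?_⟩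
    have r0 := (gf_letter_facts (base := p :: q :: br) t2 (by simp; omega)).1
    have r1 := run_left (run_back true none br) [p, q]
    have r2 := run_right (gf_letter_facts (base := [p, q]) t1 rfl).1 br
    have r3 := run_right (run_interp (base := [p, q]) a1 rfl) br
    have r4 := run_left (run_pass true none br) [p, q]
    have e1 := a3.pre r0
    have e2 := ((((((GfIs.pb (A := A) br).left [p, q]).app r3).app r4).pre r2).pre r1)
    simp only [Gl.w, gf_hook_two _ _ hi, List.append_assoc, shift_append, shift_nil,
      List.nil_append, List.length_cons, List.length_nil] at e1 e2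
    simpa [interp, Gl.w, gf_hook_two _ _ hi, gf_nn_succ] using e1.trans e2

theorem gf_conj_hk (b s : Bool) (hi : i < 2) :
    ∀ x ∈ Gl.conj b 0 (.hk i s), ∃ i s, x = Gl.hk i s ∧ i < 2 := by
  obtain rfl | rfl : i = 0 ∨ i = 1 := by omega
  all_goals cases b <;> cases s <;> simp [Gl.conj]

theorem gf_conj_shift (b s : Bool) (i j : ℕ) :
    Gl.conj b j (.hk (i + j) s) = (Gl.conj b 0 (.hk i s)).map (Gl.rx 0 j) := by
  have e1 : (i + j = j + 1) = (i = 0 + 1) := propext (by omega)
  have e2 : (i + j = j) = (i = 0) := propext (by omega)
  simp only [Gl.conj, e1, e2]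
  split_ifs <;> simp [Gl.rx, Nat.add_comm]

theorem gf_conj_letter {x : Gl} (p q : ℕ) (b : Bool)
    (hx : x.ty (bl.length + 2 + br.length) m = some m') :
    runG (bl.length + 2 + br.length) m (x.conj b bl.length) = some m' ∧
    GfIs A (bl ++ [some p, some q] ++ br ++ nn m)
      ((cr b, bl.length) :: x.w (bl.length + 2 + br.length))
      (interp (bl.length + 2 + br.length) (x.conj b bl.length) ++ [(cr b, bl.length)])
      (bl ++ [some q, some p] ++ br ++ nn m') := by
  have hβ : run [some p, some q] [(cr b, 0)] = some [some q, some p] := rfl
  have far : ∀ x0 : Gl, x0.ty (bl.length + br.length) m = some m' → x0.rx bl.length 2 = x →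
      x.conj b bl.length = [x] → runG (bl.length + 2 + br.length) m (x.conj b bl.length) = some m' ∧
      GfIs A (bl ++ [some p, some q] ++ br ++ nn m)
        ((cr b, bl.length) :: x.w (bl.length + 2 + br.length))
        (interp (bl.length + 2 + br.length) (x.conj b bl.length) ++ [(cr b, bl.length)])
        (bl ++ [some q, some p] ++ br ++ nn m') := fun x0 h0 h1 h2 => by
    have := (gf_block_letter (A := A) hβ h0).symm
    simp only [List.length_cons, List.length_nil, Nat.zero_add, Nat.reduceAdd, h1] at this
    rw [h2]
    exact ⟨by rw [gf_runG_cons_of hx]; rfl, by simpa [interp] using this⟩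
  rcases gf_ty_cases hx with ⟨y, i, t⟩ | ⟨j, s, m0, rfl, hj, rfl, rfl⟩
  · exact far x (t.ty _) (t.rx _ _) (t.conj _ _)
  by_cases h1 : j < bl.length
  · refine far (.hk j s) ?_ (by simp [Gl.rx, h1]) ?_
    · simp only [Gl.ty]; rw [if_pos ⟨by omega, by omega⟩]
    · simp only [Gl.conj]; split_ifs <;> first | rfl | omega
  by_cases h2 : bl.length + 2 ≤ j
  · refine far (.hk (j - 2) s) ?_ ?_ ?_
    · simp only [Gl.ty]; rw [if_pos ⟨by omega, by omega⟩]
    · simp only [Gl.rx]; rw [if_neg (by omega)]; congr 1; omega
    · simp only [Gl.conj]; split_ifs <;> first | rfl | omega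
  obtain ⟨i, rfl⟩ : ∃ i, j = i + bl.length := ⟨j - bl.length, by omega⟩
  have hi : i < 2 := by omega
  obtain ⟨a1, a2, a3⟩ := gf_wrapG (A := A) (some p) (some q) br (gf_conj_hk b s hi)
  have t1 : (Gl.hk i s).ty 2 1 = some 1 := by simp [Gl.ty, hi]
  have r1 := run_back true none br
  have r4 := run_pass true none br
  have r2 := run_right (gf_letter_facts (base := [some q, some p]) t1 rfl).1 br
  have r3 := run_right (run_interp (base := [some p, some q]) a1 rfl) br
  have e1 := ((GfIs.far (A := A) hβ r1 (Or.inr (skel_back _ _))).app r2).app
    (run_left r4 [some q, some p])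
  have e2 := (((GfIs.mk (gf_conj_base (A := A) p q b s hi) (d := [some q, some p, none])
    (gf_letter_facts (base := [some q, some p]) t1 rfl).1).right br).app
    (run_left r4 [some q, some p])).pre (run_left r1 [some p, some q])
  have e3 := ((GfIs.far (A := A) hβ r4 (Or.inr (skel_pass _ _))).pre r3).pre
    (run_left r1 [some p, some q])
  have e4 := a3.symm.app (s := [(cr b, 0)]) (e := some q :: some p :: (br ++ [none])) rfl
  simp only [Gl.w, List.append_assoc, List.cons_append, List.nil_append, List.length_cons,
    List.length_nil] at e1 e2 e3 e4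
  have e5 := (((e1.trans e2).trans e3).trans e4).whisk bl (nn m0)
  rw [gf_conj_shift, show bl.length + 2 + br.length = 2 + br.length + bl.length by omega, gf_interp_rx0,
    Gl.w, gf_hook_shift, gf_hook_two _ _ hi]
  refine ⟨runG_rx (Nat.zero_le _) ?_ _, by simpa [gf_nn_succ] using e5⟩
  clear e1 e2 e3 e4 e5 a3
  obtain rfl | rfl : i = 0 ∨ i = 1 := by omega
  all_goals cases b <;> simp [Gl.conj, runG, Gl.ty, show 1 < 2 + br.length by omega]

theorem gf_conj_iso (p q : ℕ) (b : Bool) (hg : runG (bl.length + 2 + br.length) m g = some m') :
    runG (bl.length + 2 + br.length) m (g.flatMap (Gl.conj b bl.length)) = some m' ∧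
    GfIs A (bl ++ [some p, some q] ++ br ++ nn m)
      ((cr b, bl.length) :: interp (bl.length + 2 + br.length) g)
      (interp (bl.length + 2 + br.length) (g.flatMap (Gl.conj b bl.length)) ++ [(cr b, bl.length)])
      (bl ++ [some q, some p] ++ br ++ nn m') := by
  induction g generalizing m with
  | nil =>
    cases hg
    refine ⟨rfl, ?_⟩
    have hβ : run [some p, some q] [(cr b, 0)] = some [some q, some p] := rfl
    simpa [interp] using GfIs.rf (A := A) (run_right (run_whisk hβ bl br) (nn m'))
  | cons x g ih =>
    obtain ⟨m1, h1, h2⟩ := gf_runG_cons_some hg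
    obtain ⟨a1, a2⟩ := gf_conj_letter (A := A) p q b h1
    obtain ⟨b1, b2⟩ := ih h2
    refine ⟨by rw [List.flatMap_cons]; exact gf_runG_app a1 b1, ?_⟩
    have e1 := a2.app (run_interp h2 (by simp; omega))
    have e2 := b2.pre (run_interp a1 (by simp; omega))
    simp only [List.append_assoc, List.cons_append, List.nil_append] at e1 e2
    simpa [interp, interp_append] using e1.trans e2

theorem gf_down_iso {x : Kind} {j : ℕ} {base' : Config} (h : step x j base = some base')
    (hs : x.surg (base.drop j) = true) (hx : ∀ k, x ≠ cup k)
    (hg : runG base'.length m g = some m') :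
    runG base.length m (down x j g) = some m' ∧
    GfIs A (base ++ nn m) ((x, j) :: interp base'.length g)
      (interp base.length (down x j g) ++ [(x, j)]) (base' ++ nn m') := by
  obtain ⟨cl, c0, c0', cr', rfl, rfl, rfl, h1, -, h0⟩ := step_decomp h
  rw [List.append_assoc, List.drop_left, surg_append h0] at hs
  cases x with
  | cup k => exact absurd rfl (hx k)
  | cap =>
    match c0, h1, h0 with
    | [u, v], _, h0 =>
      have hβ : run [u, v] [(cap, 0)] = some c0' := by rw [run_single]; exact h0
      simp only [Kind.act] at h0
      split_ifs at h0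
      cases h0
      simp only [List.append_nil, List.length_append] at hg
      have := (gf_blockG' (A := A) hβ hg).symm
      simp only [List.length_append, List.length_cons, List.length_nil, Nat.zero_add,
        Nat.reduceAdd, Nat.add_zero, map_rx_zero] at this ⊢
      refine ⟨?_, by simpa [down] using this⟩
      rw [Nat.add_right_comm]
      exact runG_rx (by omega) hg 2
  | cr b =>
    match c0, h1, h0, hs with
    | [some p, some q], _, h0, _ =>
      cases h0
      simp only [List.length_append, List.length_cons, List.length_nil] at hg ⊢
      exact gf_conj_iso p q b hg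
    | [some p, none], _, _, hs => simp [Kind.surg] at hs
    | [none, _], _, _, hs => simp [Kind.surg] at hs

theorem gf_dnG_iso' (h : run c z = some c') (hs : ∀ x ∈ skel c z, ∀ k, x.1 ≠ cup k) :
    runG (np c) (nl c) (dnG c z) = some (nl c') ∧
    GfIs A c (z ++ gather c') (gather c ++ interp (np c) (dnG c z) ++ skel c z)
      (poles c' ++ nn (nl c')) := by
  induction z generalizing c with
  | nil =>
    cases h
    exact ⟨rfl, by simpa [dnG, interp] using GfIs.rf (A := A) (run_gather c')⟩
  | cons x w ih =>
    obtain ⟨x, i⟩ := x
    obtain ⟨d, hd, hw⟩ := run_cons_some h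
    rw [skel_cons_of hd] at hs ⊢
    obtain ⟨a1, a2⟩ := ih hw fun y hy => hs y (by simp [hy])
    have e1 := a2.pre (c := c) (l := [(x, i)]) (by rwa [run_single])
    have rS := run_right (run_skel hw) (nn (nl c'))
    have rI := run_interp a1 (poles_length d)
    simp only [dnG, hd, Option.getD_some, skl] at hs ⊢
    cases hx : x.surg (c.drop i) with
    | true =>
      obtain ⟨b1, b2, b3, b4⟩ := gf_surg_iso (A := A) hd hx
      obtain ⟨c1, c2⟩ := gf_down_iso (A := A) b2 b3 (hs (x, np (c.take i)) (by simp [hx]))
        (poles_length d ▸ a1)
      rw [poles_length, b1] at c1 c2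
      rw [poles_length] at c2
      have e2 := (b4.app rI).app rS
      have e3 := (c2.pre (run_gather c)).app rS
      simp only [List.append_assoc, List.cons_append, List.nil_append] at e1 e2 e3
      exact ⟨by simpa using c1, by simpa using (e1.trans e2).trans e3⟩
    | false =>
      obtain ⟨b1, b2, b3⟩ := gf_gam_iso (A := A) hd hx
      have e2 := (b3.app rI).app rS
      rw [gf_np_of_poles b1] at a1 e1 e2
      simp only [List.append_assoc, List.cons_append, List.nil_append] at e1 e2
      exact ⟨by simpa using gf_runG_app b2 a1, by simpa [interp_append] using e1.trans e2⟩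

theorem dnG_iso (h : run c z = some c') (hs : ∀ x ∈ skel c z, ∀ k, x.1 ≠ cup k) :
    runG (np c) (nl c) (dnG c z) = some (nl c') ∧
    Iso A c (z ++ gather c') (gather c ++ interp (np c) (dnG c z) ++ skel c z) :=
  (gf_dnG_iso' h hs).imp id GfIs.iso

theorem gf_upThru_iso {S : Word} {base' : Config} (h : run base S = some base')
    (hs : ∀ x ∈ S, ∃ k, x.1 = cup k) (hg : runG base.length m g = some m') :
    runG base'.length m (upThru S g) = some m' ∧
    GfIs A (base ++ nn m) (interp base.length g ++ S) (S ++ interp base'.length (upThru S g))
      (base' ++ nn m') := by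
  induction S generalizing base g with
  | nil =>
    cases h
    exact ⟨hg, by simpa [upThru] using GfIs.rf (A := A) (run_interp hg rfl)⟩
  | cons x S ih =>
    obtain ⟨x, j⟩ := x
    obtain ⟨d, hd, hw⟩ := run_cons_some h
    obtain ⟨q, rfl : x = cup q⟩ := hs (x, j) (by simp)
    obtain ⟨cl, c0, c0', cr', rfl, rfl, rfl, h1, h1', h0⟩ := step_decomp hd
    obtain rfl : c0 = [] := List.length_eq_zero_iff.mp h1
    have hβ : run [] [(cup q, 0)] = some c0' := by rw [run_single]; exact h0
    simp only [List.append_nil, List.length_append] at hg
    have h2 : c0'.length = 2 := h1'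
    have e1 := (gf_blockG' (A := A) hβ hg).app (run_right hw (nn m'))
    obtain ⟨a1, a2⟩ := ih hw (fun y hy => hs y (by simp [hy])) (g := g.map (Gl.rx cl.length 2)) (by
      rw [List.length_append, List.length_append, h2, Nat.add_right_comm]
      exact runG_rx (by omega) hg 2)
    have e2 := a2.pre (run_right (run_whisk hβ cl cr') (nn m))
    simp only [List.length_append, h2, List.length_nil, Nat.add_zero, map_rx_zero] at e1 e2
    simp only [List.append_assoc] at e1 e2
    exact ⟨a1, by simpa [upThru] using e1.trans e2⟩

theorem gf_upG_iso' (h : run c z = some c') (hs : ∀ x ∈ skel c z, ∃ k, x.1 = cup k) :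
    runG (np c') (nl c) (upG c z) = some (nl c') ∧
    GfIs A c (z ++ gather c') (gather c ++ skel c z ++ interp (np c') (upG c z))
      (poles c' ++ nn (nl c')) := by
  induction z generalizing c with
  | nil =>
    cases h
    exact ⟨rfl, by simpa [upG, interp] using GfIs.rf (A := A) (run_gather c')⟩
  | cons x w ih =>
    obtain ⟨x, i⟩ := x
    obtain ⟨d, hd, hw⟩ := run_cons_some h
    rw [skel_cons_of hd] at hs ⊢
    have hs' : ∀ y ∈ skel d w, ∃ k, y.1 = cup k := fun y hy => hs y (by simp [hy])
    obtain ⟨a1, a2⟩ := ih hw hs'
    have e1 := a2.pre (c := c) (l := [(x, i)]) (by rwa [run_single])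
    have rS := run_right (run_skel hw) (nn (nl d))
    have rI := run_interp a1 (poles_length c')
    simp only [upG, hd, Option.getD_some, skl]
    cases hx : x.surg (c.drop i) with
    | true =>
      obtain ⟨b1, -, -, b4⟩ := gf_surg_iso (A := A) hd hx
      have e2 := (b4.app rS).app rI
      simp only [List.append_assoc, List.cons_append, List.nil_append] at e1 e2
      exact ⟨by simpa [b1] using a1, by simpa using e1.trans e2⟩
    | false =>
      obtain ⟨b1, b2, b3⟩ := gf_gam_iso (A := A) hd hx
      obtain ⟨c1, c2⟩ := gf_upThru_iso (A := A) (b1 ▸ run_skel hw) hs' (poles_length c ▸ b2)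
      rw [poles_length] at c1 c2
      rw [poles_length] at c2
      have e2 := (b3.app rS).app rI
      have e3 := (c2.pre (run_gather c)).app rI
      simp only [List.append_assoc, List.cons_append, List.nil_append] at e1 e2 e3
      exact ⟨by simpa using gf_runG_app c1 a1,
        by simpa [interp_append] using (e1.trans e2).trans e3⟩

theorem upG_iso (h : run c z = some c') (hs : ∀ x ∈ skel c z, ∃ k, x.1 = cup k) :
    runG (np c') (nl c) (upG c z) = some (nl c') ∧
    Iso A c (z ++ gather c') (gather c ++ skel c z ++ interp (np c') (upG c z)) :=
  (gf_upG_iso' h hs).imp id GfIs.iso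

theorem gf_cntH_up (P : ℕ → Bool) (g : List Gl) :
    cntH P (g.map Gl.up) = cntH (fun j => P (j + 1)) g := by
  induction g with
  | nil => rfl
  | cons x g ih => cases x <;> simp [Gl.up, cntH, ih]

theorem gf_cntH_lift (P : ℕ → Bool) (g : List Gl) : cntH P (g.flatMap Gl.lift) = cntH P g := by
  induction g with
  | nil => rfl
  | cons x g ih => cases x <;> simp [Gl.lift, cntH, ih]

theorem gf_cntH_gam (P : ℕ → Bool) (x : Kind) (i : ℕ) (c : Config) :
    cntH P (gam x i c) = if x.under (c.drop i) && P (np (c.take i)) then 1 else 0 := by
  induction i generalizing P c with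
  | zero =>
    cases x with
    | cup q => simp [gam, cntH, Kind.under]
    | cap => simp [gam, cntH, Kind.under]
    | cr b =>
      match c with
      | [] => cases b <;> simp [gam, cntH, Kind.under]
      | [a] => cases a <;> cases b <;> simp [gam, cntH, Kind.under]
      | a :: a' :: d => cases a <;> cases a' <;> cases b <;> simp [gam, cntH, Kind.under]
  | succ i ih =>
    match c with
    | [] =>
      cases x with
      | cr b => cases b <;> simp [gam, cntH, Kind.under]
      | _ => simp [gam, cntH, Kind.under]
    | some n :: d => simp [gam, gf_cntH_up, ih]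
    | none :: d => simp [gam, gf_cntH_lift, ih]

theorem cntH_dnG (P : ℕ → Bool) (h : run c z = some c') (hs : skel c z = []) :
    cntH P (dnG c z) = und P c z := by
  induction z generalizing c with
  | nil => rfl
  | cons x w ih =>
    obtain ⟨x, i⟩ := x
    obtain ⟨d, hd, hw⟩ := run_cons_some h
    obtain ⟨h1, h2⟩ := skel_cons_nil hd hs
    have hx : x.surg (c.drop i) = false := by simpa [skl] using h1
    simp only [dnG, und, hx, hd, Option.getD_some, Bool.false_eq_true, if_false, cntH_append,
      gf_cntH_gam, ih hw h2]

theorem gf_nf_aux {S : Word} (h : run [] y = some c') (hs : skel [] y = cups ++ S)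
    (hS : ∀ x ∈ S, ∀ k, x.1 ≠ cup k) (hg : gather c' = []) (hn : nl c' = 0) :
    ∃ ν, run c4 ν = some c4 ∧ skel c4 ν = [] ∧ Iso A [] y (cups ++ ν ++ S) := by
  obtain ⟨u, i, w, c₁, c₂, rfl, h1, h2, h3, h4, h5, h6, h7⟩ :=
    skel_split (S₁ := [(cup (some (0, 1)), 0)]) (x := cup (some (0, 0))) (j := 1) (S₂ := S) h hs
  have r1 : run [] (u ++ [(cup (some (0, 0)), i)]) = some c₂ := by
    rw [run_append_of h1, run_single, h2]
  have s1 : skel [] (u ++ [(cup (some (0, 0)), i)]) = cups := by
    rw [skel_append_of h1, skel_cons_of h2, h4, skl, h6, h7]
    rfl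
  have p1 : poles c₂ = c4 := by
    have := run_skel r1
    rw [s1] at this
    exact (Option.some.inj this).symm
  have n1 : np c₂ = 4 := by rw [← poles_length, p1]; rfl
  obtain ⟨a1, a2⟩ := gf_upG_iso' (A := A) r1 (by rw [s1]; simp [cups])
  obtain ⟨b1, b2⟩ := gf_dnG_iso' (A := A) h3 (h5 ▸ hS)
  have g1 := gf_runG_app a1 b1
  rw [hn, n1] at g1
  refine ⟨_, by simpa using run_interp (base := c4) g1 rfl,
    by simpa using skel_interp (base := c4) g1 rfl, ?_⟩
  have e1 := b2.pre r1
  have e2 := (a2.app (run_interp b1 (poles_length c₂))).app (run_right (run_skel h3) _)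
  rw [s1, h5, n1] at e2
  rw [hg, h5, n1] at e1
  simp only [List.append_assoc, List.cons_append, List.nil_append, List.append_nil] at e1 e2
  simpa [gather, interp_append] using (e1.trans e2).iso

theorem gf_braid_no_cup (v : List Bool) : ∀ x ∈ braid v, ∀ k, x.1 ≠ cup k := by
  intro x hx k
  obtain ⟨b, -, rfl⟩ := List.mem_map.mp hx
  cases b <;> simp

theorem Good.nf (h : Good y) : ∃ ν v, run c4 ν = some c4 ∧ skel c4 ν = [] ∧
    skel [] y = cups ++ braid v ∧ Iso A [] y (cups ++ ν ++ braid v) := by
  obtain ⟨h1, v, h2⟩ := h
  obtain ⟨ν, a1, a2, a3⟩ := gf_nf_aux (A := A) h1 h2 (gf_braid_no_cup v) rfl rfl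
  exact ⟨ν, v, a1, a2, h2, a3⟩

theorem Cl.nf {v : List Bool} (h : Cl (cups ++ braid v ++ caps) y) :
    ∃ ν, run c4 ν = some c4 ∧ skel c4 ν = [] ∧ Iso A [] y (cups ++ ν ++ braid v ++ caps) := by
  obtain ⟨ν, a1, a2, a3⟩ := gf_nf_aux (A := A) (S := braid v ++ caps) h.1
    (h.2.trans (List.append_assoc _ _ _)) (fun x hx k => by
      rcases List.mem_append.mp hx with hx | hx
      · exact gf_braid_no_cup v x hx k
      · simp only [caps, List.mem_cons, List.not_mem_nil, or_false] at hx
        rcases hx with rfl | rfl <;> simp) rfl rfl
  exact ⟨ν, a1, a2, by simpa using a3⟩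

end Peel

end Pool.Agent.Lib.MP_5b31c3_gt
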