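import Pool.Agent.Lib.MP_5b31c3_gt.Words0
import Pool.Agent.Lib.MP_5b31c3_gt.Peel
import Pool.Agent.Lib.MP_5b31c3_gt.Hooks

-- part Pool.Agent.Lib.MP_5b31c3_gt.EvSem
section

/-
A verified evaluator for linear combinations of words: soundness of the letters.
-/

namespace Pool.Agent.Lib.MP_5b31c3_gt

open Kind

namespace Ev

variable {R : Type*} [CommRing R] {A : Rˣ}

theorem nn_succ (m : ℕ) : nn (m + 1) = none :: nn m := rfl

theorem nn_add (m n : ℕ) : nn (m + n) = nn m ++ nn n := List.replicate_add _ _ _

theorem nn_length (m : ℕ) : (nn m).length = m := List.length_replicate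

theorem st_cup {i M : ℕ} (h : i ≤ M) : step (cup none) i (nn M) = some (nn (M + 2)) := by
  induction i generalizing M with
  | zero => rfl
  | succ i ih =>
    obtain ⟨M, rfl⟩ : ∃ M', M = M' + 1 := ⟨M - 1, by omega⟩
    rw [nn_succ, step, ih (by omega)]; rfl

theorem st_cap {i M : ℕ} (h : i ≤ M) : step cap i (nn (M + 2)) = some (nn M) := by
  induction i generalizing M with
  | zero => rfl
  | succ i ih =>
    obtain ⟨M, rfl⟩ : ∃ M', M = M' + 1 := ⟨M - 1, by omega⟩
    rw [show M + 1 + 2 = M + 2 + 1 from rfl, nn_succ, step, ih (by omega)]; rfl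

theorem st_cr {i M : ℕ} (b : Bool) (h : i ≤ M) :
    step (cr b) i (nn (M + 2)) = some (nn (M + 2)) := by
  induction i generalizing M with
  | zero => rfl
  | succ i ih =>
    obtain ⟨M, rfl⟩ : ∃ M', M = M' + 1 := ⟨M - 1, by omega⟩
    rw [show M + 1 + 2 = M + 2 + 1 from rfl, nn_succ, step, ih (by omega)]; rfl

theorem step_le {x : Kind} {i : ℕ} {c d : Config} (h : step x i c = some d) :
    i + x.inp ≤ c.length := by
  obtain ⟨cl, c0, c0', cr, rfl, rfl, rfl, h1, -, -⟩ := step_decomp h
  simp [h1]

theorem cup_inv {i M : ℕ} {c : Config} (h : step (cup none) i c = some (nn (M + 2))) :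
    c = nn M := by
  induction i generalizing M c with
  | zero => simpa [step, Kind.act, nn_succ] using h
  | succ i ih =>
    match c, h with
    | a :: c, h =>
      simp only [step, Option.map_eq_some_iff, nn_succ, List.cons.injEq] at h
      obtain ⟨d, hd, rfl, rfl⟩ := h
      cases M with
      | zero =>
        obtain ⟨cl, c0, c0', cr, -, h2, -, -, h3, -⟩ := step_decomp hd
        have := congrArg List.length h2
        simp [h3, Kind.out, nn] at this
        omega
      | succ M => rw [ih (M := M) hd]; rfl

/-- Typed pairs of maxima and minima. -/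
def TT (m0 : ℕ) (a u : List ℕ) (M : ℕ) : Prop := run (nn m0) (capsW a ++ cupsW u) = some (nn M)

variable {m0 M m : ℕ} {a u f n : List ℕ} {base : Config}

theorem cupL (h : TT m0 a u M) {j : ℕ} (hj : j ≤ M) : TT m0 a (inscup u j) (M + 2) ∧
    Iso A (nn m0) (capsW a ++ cupsW u ++ [(cup none, j)]) (capsW a ++ cupsW (inscup u j)) := by
  obtain ⟨c1, h1, h2⟩ := run_append_some h
  have h3 : run c1 (cupsW u ++ [(cup none, j)]) = some (nn (M + 2)) := by
    rw [run_append_of h2, run_single, st_cup hj]
  have h4 := (inscup_iso (A := A) h3).pre h1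
  rw [← List.append_assoc] at h4
  refine ⟨?_, h4⟩
  rw [TT, ← h4.run_eq, List.append_assoc, run_append_of h1, h3]

theorem capL (h : TT m0 a u (M + 2)) {j : ℕ} (hj : j ≤ M) :
    TT m0 (captl a u j).2.1 (captl a u j).2.2 M ∧
    cls A (nn m0) (capsW a ++ cupsW u ++ [(cap, j)]) =
      dl A ^ (if (captl a u j).1 then 1 else 0) •
        cls A (nn m0) (capsW (captl a u j).2.1 ++ cupsW (captl a u j).2.2) := by
  have h3 : run (nn m0) (capsW a ++ cupsW u ++ [(cap, j)]) = some (nn M) := by
    rw [run_append_of h, run_single, st_cap hj]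
  obtain ⟨h1, h2⟩ := captl_eq (A := A) h3
  refine ⟨h1, h2.trans ?_⟩
  split_ifs <;> simp

theorem crL' {c : Config} {z : Word} (h : run c z = some (nn (M + 2))) {j : ℕ} (hj : j ≤ M)
    (b : Bool) (s : Word) : cls A c (z ++ (cr b, j) :: s) = sc A (sg b) • cls A c (z ++ s) +
      sc A (-sg b) • cls A c (z ++ (cap, j) :: (cup none, j) :: s) := by
  have e : nn (M + 2) = nn j ++ [none, none] ++ nn (M - j) := by
    rw [show M + 2 = j + 2 + (M - j) by omega, nn_add, nn_add]; rfl
  rw [e] at h
  have := congrArg (emb A z (nn j) [none, none] (nn (M - j)) s h) (cls_bracket (A := A) b)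
  simpa [nn_length] using this

/-- The word of a state, with pending letters `l`. -/
def wd (k : ℕ) (l : Word) : Fn4 Word := fun a f n u =>
  shift k (capsW a ++ cupsW u ++ l) ++ (Ns f ++ Ts n)

/-- The value of a state. -/
noncomputable def Il (A : Rˣ) (base : Config) (m0 : ℕ) (l : Word) : Fn4 (Tan A (base ++ nn m0)) :=
  fun a f n u => cls A _ (wd base.length l a f n u)

/-- Typed states. -/
def PP (base : Config) (m0 m : ℕ) : Fn4 Prop := fun a f n u =>
  base.length = f.length ∧ base.length = n.length ∧ TT m0 a u (2 * f.sum + m)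

/-- Put a tangle of link strands below the hooks. -/
noncomputable def low (A : Rˣ) (base : Config) (m0 : ℕ) (l : Word) (f n : List ℕ) :
    Tan A (nn m0) →ₗ[R] Tan A (base ++ nn m0) :=
  emb A [] base (nn m0) [] (shift base.length l ++ (Ns f ++ Ts n)) (by simp)

theorem low_cls (l z : Word) : low A base m0 l f n (cls A _ z) =
    cls A _ (shift base.length (z ++ l) ++ (Ns f ++ Ts n)) := by
  rw [low, emb_cls]; simp

theorem run_low (h : TT m0 a u M) :
    run (base ++ nn m0) (shift base.length (capsW a ++ cupsW u)) = some (base ++ nn M) :=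
  run_left h base

theorem run_wd (h : PP base m0 m a f n u) :
    run (base ++ nn m0) (wd base.length [] a f n u) = some (base ++ nn m) := by
  rw [wd, List.append_nil, run_append_of (run_low h.2.2), run_append_of (run_Ns h.1 m),
    run_Ts h.2.1]

theorem Il_cup (h : TT m0 a u M) {j : ℕ} (hj : j ≤ M) (l : Word) :
    Il A base m0 ((cup none, j) :: l) a f n u = Il A base m0 l a f n (inscup u j) := by
  have := congrArg (low A base m0 l f n) (cupL (A := A) h hj).2.eq
  rw [low_cls, low_cls] at this
  simpa [Il, wd] using this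

theorem Il_cap (h : TT m0 a u (M + 2)) {j : ℕ} (hj : j ≤ M) (l : Word) :
    Il A base m0 ((cap, j) :: l) a f n u = dl A ^ (if (captl a u j).1 then 1 else 0) •
      Il A base m0 l (captl a u j).2.1 f n (captl a u j).2.2 := by
  have := congrArg (low A base m0 l f n) (capL (A := A) h hj).2
  rw [map_smul, low_cls, low_cls] at this
  simpa [Il, wd] using this

theorem Il_cr (h : TT m0 a u (M + 2)) {j : ℕ} (hj : j ≤ M) (b : Bool) (l : Word) :
    Il A base m0 ((cr b, j) :: l) a f n u = sc A (sg b) • (Il A base m0 l a f n u +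
      sc A (-2 * sg b) • Il A base m0 ((cap, j) :: (cup none, j) :: l) a f n u) := by
  have := congrArg (low A base m0 [] f n) (crL' (A := A) h hj b l)
  rw [map_add, map_smul, map_smul, low_cls, low_cls, low_cls] at this
  rw [smul_add, smul_smul, sc_mul_sc, show sg b + -2 * sg b = -sg b by ring]
  simpa [Il, wd] using this

theorem app_tl (h : PP base m0 m a f n u) {x : Kind} {i m' : ℕ}
    (hx : step x i (nn m) = some (nn m')) :
    app A _ [(x, i + base.length)] (Il A base m0 [] a f n u) =
      Il A base m0 [(x, i + 2 * f.sum)] a f n u := by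
  have := ((tl_comm (A := A) h.1 h.2.1 hx).pre (run_low h.2.2)).eq
  rw [Il, app_cls]
  simpa [Il, wd] using this

theorem red_ok {fuel : ℕ} {p : Par} {d : ℕ} {e c : ℤ} {t : Tr} {k : Tr → Bool} (hp : WF p)
    (hP : PP base m0 m p.a p.f p.n u) (ht : OkT (PP base m0 m) t)
    (hk : red fuel p u d e c t k = true) :
    Res A (PP base m0 m) (Il A base m0 [])
      (den A (Il A base m0 []) t + (co A e c * dl A ^ d) • Il A base m0 [] p.a p.f p.n u) k := by
  induction fuel generalizing p u d with
  | zero => exact put_ok hp hP ht hk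
  | succ fuel ih =>
    have e1 : red (fuel + 1) p u d e c t k = (Bool.rec (scan u p.f (put p u d e c t k)
      (fun u' b q f' => Bool.rec
        (mkP p.a f' p.n fun p' => capP p' u' q fun p'' u'' d' =>
          red fuel p'' u'' (Nat.add d d') e c t k)
        (mkP p.a f' (bump p.n q) fun p' => red fuel p' u' d e c t k) b) p.o)
      (put p u d e c t k) (List.rec true (fun x _ _ => Nat.ble p.o x) u) : Bool) := rfl
    rw [e1] at hk
    cases hb : (List.rec true (fun x _ _ => Nat.ble p.o x) u : Bool) with
    | true => rw [hb] at hk; exact put_ok hp hP ht hk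
    | false =>
      rw [hb] at hk
      rcases scan_ok hk with h | ⟨j, u', b, q, f', h1, h2, h3⟩
      · exact put_ok hp hP ht h
      obtain ⟨c1, r1, r2⟩ := run_append_some hP.2.2
      have i1 := (extract_iso (A := A) r2 h1).pre r1
      rw [← List.append_assoc] at i1
      have r3 := i1.run_eq.symm.trans hP.2.2
      obtain ⟨c2, r4, r5⟩ := run_append_some r3
      rw [run_single] at r5
      have v1 : Il A base m0 [] p.a p.f p.n u = Il A base m0 [(cup none, j)] p.a p.f p.n u' := by
        have := congrArg (low A base m0 [] p.f p.n) i1.eq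
        rw [low_cls, low_cls] at this
        simpa [Il, wd] using this
      cases b with
      | true =>
        obtain ⟨s1, s2, s3, s4⟩ := red_loop (A := A) hP.1 h2 m
        rw [show 2 * p.f.sum + m = 2 * f'.sum + m + 2 by omega] at r5
        obtain rfl := cup_inv r5
        obtain ⟨p', q1, q2, q3, q4, q5⟩ := mkP_ok h3
        have hq : q < p.n.length := by rw [← hP.2.1, hP.1]; exact s3
        have hP' : PP base m0 m p'.a p'.f p'.n u' := by
          rw [q2, q3, q4]
          exact ⟨hP.1.trans s2.symm, hP.2.1.trans (bump_length _ _).symm, r4⟩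
        have v2 : Il A base m0 [(cup none, j)] p.a p.f p.n u' =
            Il A base m0 [] p'.a p'.f p'.n u' := by
          have w1 := (s4.pre (run_low (base := base) r4)).cls_app (Ts p.n)
          have w2 := ((loop_Ts (A := A) hP.2.1 hq (nn m)).pre
            (run_Ns (hP.1.trans s2.symm) m)).pre (run_low (base := base) r4)
          rw [q2, q3, q4]
          simpa [Il, wd] using w1.trans (by simpa using w2.eq)
        rw [v1, v2]
        exact ih q1 hP' q5
      | false =>
        obtain ⟨s1, s2, s4⟩ := red_cap (A := A) hP.1 h2 m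
        rw [show 2 * p.f.sum + m = 2 * f'.sum + 2 + m + 2 by omega] at r5
        obtain rfl := cup_inv r5
        obtain ⟨p', q1, q2, q3, q4, q5⟩ := mkP_ok h3
        obtain ⟨p'', d', o1, o2, o3, o4, o5, o6⟩ := capP_ok q1 q5
        obtain ⟨x1, -, x2⟩ := s4.same.ex
        obtain ⟨x3, x4, -⟩ := run_cons_some x2
        have hq := step_le x4
        simp only [Kind.inp, List.length_append, nn_length] at hq
        have r6 : TT m0 p.a u' (2 * f'.sum + m + 2) := by
          rw [show 2 * f'.sum + m + 2 = 2 * f'.sum + 2 + m by omega]; exact r4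
        have hP' : PP base m0 m p''.a p''.f p''.n (captl p'.a u' q).2.2 := by
          rw [o2, o3, o4, q2, q3, q4]
          exact ⟨hP.1.trans s2.symm, hP.2.1, (capL (A := A) r6 (by omega)).1⟩
        have v2 : Il A base m0 [(cup none, j)] p.a p.f p.n u' =
            Il A base m0 [(cap, q)] p.a f' p.n u' := by
          have w1 := (s4.pre (run_low (base := base) r4)).cls_app (Ts p.n)
          simpa [Il, wd] using w1
        have := ih o1 hP' o6
        rw [o2, o3, o4, q2, q3, q4] at this
        rw [v1, v2, Il_cap r6 (by omega), smul_smul, mul_assoc, ← pow_add, ← q2, ← o5, q2]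
        exact this

/-- Crossings at the given positions. -/
def crW (l : List ℕ) : Word := l.map fun j => (cr false, j)

theorem crT_ok {j : ℕ} {f0 : List ℕ} {t : Tr} {k : Tr → Bool} (l : Word)
    (hj : j + 2 ≤ 2 * f0.sum + m)
    (ht : OkT (fun a f n u => PP base m0 m a f n u ∧ f = f0) t) (hk : crT j t k = true) :
    ∃ t', OkT (fun a f n u => PP base m0 m a f n u ∧ f = f0) t' ∧
      den A (Il A base m0 ((cr false, j) :: l)) t = sc A (-1) • den A (Il A base m0 l) t' ∧
      k t' = true := by
  obtain ⟨M, hM⟩ : ∃ M, 2 * f0.sum + m = M + 2 := ⟨2 * f0.sum + m - 2, by omega⟩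
  obtain ⟨t', q1, q2, q3⟩ := fold_ok (A := A) (I := Il A base m0 l)
    (J := fun a f n u => sc A 2 • Il A base m0 ((cap, j) :: (cup none, j) :: l) a f n u)
    (fun p u e c acc k hp hP ha hg => by
      obtain ⟨p', d, o1, o2, o3, o4, o5, o6⟩ := capP_ok hp hg
      have h1 : TT m0 p.a u (M + 2) := by rw [← hM, ← hP.2]; exact hP.1.2.2
      have h2 := (capL (A := A) h1 (j := j) (by omega)).1
      have h3 := (cupL (A := A) h2 (j := j) (by omega)).1
      rw [icup_eq] at o6
      have := put_ok (A := A) (I := Il A base m0 l) o1 (by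
        rw [o2, o3, o4]
        exact ⟨⟨hP.1.1, hP.1.2.1, by rw [hP.2, hM]; exact h3⟩, hP.2⟩) ha o6
      rw [o2, o3, o4, co_shift] at this
      rw [Il_cap h1 (by omega), Il_cup h2 (by omega), smul_smul, smul_smul, ← o5]
      exact this) ht ht hk
  refine ⟨t', q1, ?_, q3⟩
  rw [q2]
  exact den_lin LinearMap.id _ (fun a f n u hP => by
    have h1 : TT m0 a u (M + 2) := by rw [← hM, ← hP.2]; exact hP.1.2.2
    exact Il_cr h1 (by omega) false l) ht

theorem crL_ok {l f0 : List ℕ} {t : Tr} {k : Tr → Bool} (hl : ∀ j ∈ l, j + 2 ≤ 2 * f0.sum + m)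
    (ht : OkT (fun a f n u => PP base m0 m a f n u ∧ f = f0) t) (hk : crL l t k = true) :
    ∃ t', OkT (fun a f n u => PP base m0 m a f n u ∧ f = f0) t' ∧
      den A (Il A base m0 (crW l)) t = sc A (-l.length) • den A (Il A base m0 []) t' ∧
      k t' = true := by
  induction l generalizing t with
  | nil => exact ⟨t, ht, by simp [crW], hk⟩
  | cons j l ih =>
    obtain ⟨t1, q1, q2, q3⟩ := crT_ok (A := A) (crW l) (hl j List.mem_cons_self) ht hk
    obtain ⟨t2, r1, r2, r3⟩ := ih (fun i hi => hl i (List.mem_cons_of_mem _ hi)) q1 q3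
    refine ⟨t2, r1, ?_, r3⟩
    change den A (Il A base m0 ((cr false, j) :: crW l)) t = _
    rw [q2, r2, smul_smul, sc_mul_sc, List.length_cons]
    congr 2
    push_cast; ring

theorem back_kind (n : ℕ) : ∀ x ∈ back true n, x.1 = cr false := by
  induction n with
  | zero => simp [back]
  | succ n ih =>
    intro x hx
    simp only [back, shift, List.mem_append, List.mem_map, List.mem_singleton] at hx
    rcases hx with ⟨y, hy, rfl⟩ | rfl
    · exact ih y hy
    · rfl

theorem shift_kind {w : Word} (h : ∀ x ∈ w, x.1 = cr false) (k : ℕ) :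
    ∀ x ∈ shift k w, x.1 = cr false := by
  intro x hx
  obtain ⟨y, hy, rfl⟩ := List.mem_map.1 hx
  exact h y hy

theorem beta_kind (f : List ℕ) (j : ℕ) : ∀ x ∈ beta f j, x.1 = cr false := by
  induction f generalizing j with
  | nil => simp [beta]
  | cons a f ih =>
    cases j with
    | zero =>
      intro x hx
      simp only [beta, List.mem_append] at hx
      rcases hx with (hx | hx) | hx
      · exact shift_kind (back_kind _) _ x hx
      · exact shift_kind (back_kind _) _ x hx
      · exact back_kind _ x hx
    | succ j => exact shift_kind (ih j) _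

theorem crW_map {w : Word} (h : ∀ x ∈ w, x.1 = cr false) : crW (w.map Prod.snd) = w := by
  rw [crW, List.map_map]
  conv_rhs => rw [← List.map_id w]
  exact List.map_congr_left fun x hx => Prod.ext (h x hx).symm rfl

theorem crW_le {l : List ℕ} {d : Config} (h : run (nn M) (crW l) = some d) :
    ∀ j ∈ l, j + 2 ≤ M := by
  induction l with
  | nil => simp
  | cons j l ih =>
    obtain ⟨c1, h1, h2⟩ := run_cons_some (x := cr false) (i := j) (w := crW l) h
    have h3 := step_le h1
    simp only [Kind.inp, nn_length] at h3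
    obtain ⟨M, rfl⟩ : ∃ M', M = M' + 2 := ⟨M - 2, by omega⟩
    rw [st_cr false (by omega)] at h1
    cases h1
    intro i hi
    rcases List.mem_cons.1 hi with rfl | hi
    · exact h3
    · exact ih h2 i hi

theorem hkF_ok {j : ℕ} (hj : j < base.length) {p : Par} {e c : ℤ} {acc : Tr} {k : Tr → Bool}
    (hp : WF p) (hP : PP base m0 (m + 1) p.a p.f p.n u) (ha : OkT (PP base m0 (m + 1)) acc)
    (hk : hkF j p u e c acc k = true) :
    Res A (PP base m0 (m + 1)) (Il A base m0 []) (den A (Il A base m0 []) acc +
      co A e c • app A _ (hook base.length j false) (Il A base m0 [] p.a p.f p.n u)) k := by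
  rw [hkF, fL_eq] at hk
  obtain ⟨p0, q1, q2, q3, q4, q5⟩ := mkP_ok hk
  have hj' : j < p.f.length := hP.1 ▸ hj
  have hs := bump_sum hj'
  rw [icup_eq, hp.1] at q5
  have hb := crW_map (beta_kind p.f j)
  have h1 := (cupL (A := A) hP.2.2 (j := 2 * p.f.sum + 1) (by omega)).1
  obtain ⟨t0, r1, r2, r3⟩ := put_ok (A := A) (I := Il A base m0 (beta p.f j))
    (P := fun a f n u => PP base m0 (m + 1) a f n u ∧ f = bump p.f j) (t := .nil) q1 (by
      rw [q2, q3, q4]
      refine ⟨⟨hP.1.trans (bump_length _ _).symm, hP.2.1, ?_⟩, rfl⟩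
      rw [hs, show 2 * (p.f.sum + 1) + (m + 1) = 2 * p.f.sum + (m + 1) + 2 by ring]
      exact h1) trivial q5
  obtain ⟨t1, s1, s2, s3⟩ := crL_ok (A := A) (f0 := bump p.f j) (fun i hi => by
    have := crW_le (M := 2 * p.f.sum + 2 + (m + 1)) (by rw [hb]; exact run_beta hj' _) i hi
    omega) r1 r3
  obtain ⟨t2, u1, u2, u3⟩ := fold_ok (A := A) (I := Il A base m0 []) (J := Il A base m0 [])
    (fun p u e c acc k hp hP ha hg => by simpa using red_ok (A := A) hp hP ha hg)
    (s1.mono fun _ _ _ _ h => h.1) ha s3
  refine ⟨t2, u1, ?_, u3⟩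
  rw [hb, r2, q2, q3, q4] at s2
  have v1 : app A _ (hook base.length j false) (Il A base m0 [] p.a p.f p.n u) =
      Il A base m0 (beta p.f j) p.a (bump p.f j) p.n (inscup u (2 * p.f.sum + 1)) := by
    rw [← Il_cup hP.2.2 (by omega), Il, app_cls]
    have := ((hook_false (A := A) hP.1 hP.2.1 hj m).pre (run_low hP.2.2)).eq
    simpa [Il, wd] using this
  rw [u2, v1]
  congr 1
  have e1 : co A (Int.sub e (Int.ofNat ((beta p.f j).map Prod.snd).length)) c =
      sc A (-((beta p.f j).map Prod.snd).length) * co A e c := by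
    rw [mul_comm, ← co_shift]; rfl
  rw [den, zero_add, pow_zero, mul_one, e1, mul_smul] at s2
  exact ((sc_isUnit A _).smul_left_cancel.1 s2).symm

end Ev

end Pool.Agent.Lib.MP_5b31c3_gt
end

-- part Pool.Agent.Lib.MP_5b31c3_gt.Eval
section

/-
A verified evaluator for linear combinations of words: soundness.
-/

namespace Pool.Agent.Lib.MP_5b31c3_gt

open Kind

variable {R : Type*} [CommRing R] {A : Rˣ}

namespace Ev

variable {m0 m m' : ℕ} {base : Config}

theorem letter_ok {x : Gl} {t : Tr} {k : Tr → Bool} (hx : x.ty base.length m = some m')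
    (ht : OkT (PP base m0 m) t) (hk : letter x t k = true) :
    ∃ t', OkT (PP base m0 m') t' ∧ app A _ (x.w base.length) (den A (Il A base m0 []) t) =
      sc A (offG [x]) • den A (Il A base m0 []) t' ∧ k t' = true := by
  cases x with
  | cup i =>
    simp only [Gl.ty] at hx
    split_ifs at hx with hi
    cases hx
    obtain ⟨t', q1, q2, q3⟩ := fold_ok (A := A) (I := Il A base m0 []) (P' := PP base m0 (m + 2))
      (J := fun a f n u => Il A base m0 [(cup none, i + 2 * f.sum)] a f n u)
      (g := fun p u e c acc k => put p (icup u (Nat.add i p.o)) 0 e c acc k) (acc := .nil)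
      (fun p u e c acc k hp hP ha hg => by
        rw [icup_eq, hp.1] at hg
        have := put_ok (A := A) (I := Il A base m0 []) hp
          ⟨hP.1, hP.2.1, (cupL (A := A) hP.2.2 (by omega : i + 2 * p.f.sum ≤ _)).1⟩ ha hg
        rw [pow_zero, mul_one] at this
        rw [Il_cup hP.2.2 (by omega)]
        exact this) ht trivial hk
    refine ⟨t', q1, ?_, q3⟩
    rw [q2, den, zero_add, show offG [.cup i] = 0 from rfl, sc_zero, one_smul]
    exact den_map (A := A) _ (fun a f n u hP => app_tl hP (st_cup hi)) ht
  | cap i =>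
    simp only [Gl.ty] at hx
    split_ifs at hx with hi
    cases hx
    obtain ⟨m, rfl⟩ : ∃ m', m = m' + 2 := ⟨m - 2, by omega⟩
    obtain ⟨t', q1, q2, q3⟩ := fold_ok (A := A) (I := Il A base m0 []) (P' := PP base m0 m)
      (J := fun a f n u => Il A base m0 [(cap, i + 2 * f.sum)] a f n u)
      (g := fun p u e c acc k => capP p u (Nat.add i p.o) fun p' u' d => red 50 p' u' d e c acc k)
      (acc := .nil)
      (fun p u e c acc k hp hP ha hg => by
        rw [hp.1] at hg
        obtain ⟨p', d, o1, o2, o3, o4, o5, o6⟩ := capP_ok hp hg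
        have h1 : TT m0 p.a u (2 * p.f.sum + m + 2) := hP.2.2
        have := red_ok (A := A) o1 (by
          rw [o2, o3, o4]
          exact ⟨hP.1, hP.2.1, (capL (A := A) h1 (by omega : i + 2 * p.f.sum ≤ _)).1⟩) ha o6
        rw [o2, o3, o4, o5] at this
        rw [Il_cap h1 (by omega), smul_smul]
        exact this) ht trivial hk
    refine ⟨t', q1, ?_, q3⟩
    rw [q2, den, zero_add, show offG [.cap i] = 0 from rfl, sc_zero, one_smul]
    exact den_map (A := A) _ (fun a f n u hP => app_tl hP (st_cap (by omega))) ht
  | cr b i =>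
    simp only [Gl.ty] at hx
    split_ifs at hx with hi
    cases hx
    obtain ⟨m, rfl⟩ : ∃ m', m = m' + 2 := ⟨m - 2, by omega⟩
    have e1 : letter (.cr b i) t k = fI (Bool.rec 2 (-2) b) fun s =>
      fold (fun p u e c acc k => fN (Nat.add i p.o) fun j => capP p u j fun p' u' d =>
        red 50 p' (icup u' j) d (Int.add e s) c acc k) t t k := rfl
    have e2 : (Bool.rec 2 (-2) b : ℤ) = -2 * sg b := by cases b <;> rfl
    rw [e1, fI_eq, e2] at hk
    obtain ⟨t', q1, q2, q3⟩ := fold_ok (A := A) (I := Il A base m0 [])
      (J := fun a f n u => sc A (-2 * sg b) •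
        Il A base m0 [(cap, i + 2 * f.sum), (cup none, i + 2 * f.sum)] a f n u)
      (fun p u e c acc k hp hP ha hg => by
        rw [fN_eq, hp.1] at hg
        obtain ⟨p', d, o1, o2, o3, o4, o5, o6⟩ := capP_ok hp hg
        have h1 : TT m0 p.a u (2 * p.f.sum + m + 2) := hP.2.2
        have h2 := (capL (A := A) h1 (by omega : i + 2 * p.f.sum ≤ _)).1
        rw [icup_eq] at o6
        have := red_ok (A := A) o1 (by
          rw [o2, o3, o4]
          exact ⟨hP.1, hP.2.1, (cupL (A := A) h2 (by omega : i + 2 * p.f.sum ≤ _)).1⟩) ha o6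
        rw [o2, o3, o4, o5, co_shift] at this
        rw [Il_cap h1 (by omega), Il_cup h2 (by omega), smul_smul, smul_smul]
        exact this) ht ht hk
    refine ⟨t', q1, ?_, q3⟩
    rw [q2, show offG [.cr b i] = sg b from add_zero _]
    exact den_lin _ _ (fun a f n u hP => by
      have h1 : TT m0 a u (2 * f.sum + m + 2) := hP.2.2
      exact (app_tl hP (st_cr b (by omega))).trans (Il_cr h1 (by omega) b [])) ht
  | hk j b =>
    simp only [Gl.ty] at hx
    split_ifs at hx with hi
    cases hx
    obtain ⟨m, rfl⟩ : ∃ m', m = m' + 1 := ⟨m - 1, by omega⟩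
    have key : Res A (PP base m0 (m + 1)) (Il A base m0 []) (den A (Il A base m0 []) .nil +
        den A (fun a f n u => app A _ (hook base.length j b) (Il A base m0 [] a f n u)) t) k := by
      cases b with
      | false => exact fold_ok (fun p u e c acc k hp hP ha hg => hkF_ok hi.1 hp hP ha hg) ht trivial hk
      | true =>
        refine fold_ok (g := fun p u e c acc k => mkP p.a p.f (bump p.n j) fun p' =>
          put p' u 0 (Int.add e (-2)) (Int.neg c) acc fun acc' =>
            hkF j p u (Int.add e (-4)) (Int.neg c) acc' k)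
          (fun p u e c acc k hp hP ha hg => ?_) ht trivial hk
        obtain ⟨p', q1, q2, q3, q4, q5⟩ := mkP_ok hg
        obtain ⟨t1, r1, r2, r3⟩ := put_ok (A := A) (I := Il A base m0 []) q1 (by
          rw [q2, q3, q4]
          exact ⟨hP.1, hP.2.1.trans (bump_length _ _).symm, hP.2.2⟩) ha q5
        have := hkF_ok (A := A) hi.1 hp hP r1 r3
        rw [r2, q2, q3, q4, pow_zero, mul_one, co_neg, co_neg, co_shift, co_shift] at this
        have v1 := congrArg (pre A _ (run_wd hP)) (hook_true (A := A) hi.1 m)
        rw [map_sub, map_smul, map_smul, pre_cls, pre_cls, pre_cls] at v1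
        have v2 : cls A _ (wd base.length [] p.a p.f p.n u ++ shift j loop) =
            Il A base m0 [] p.a p.f (bump p.n j) u := by
          have := (((Ts_loop (A := A) hP.2.1 (hP.2.1 ▸ hi.1) (nn (m + 1))).pre
            (run_Ns hP.1 (m + 1))).pre (run_low hP.2.2)).eq
          simpa [Il, wd] using this
        rw [Il, app_cls, v1, v2, ← app_cls]
        convert this using 1
        simp only [Il]
        module
    obtain ⟨t', q1, q2, q3⟩ := key
    refine ⟨t', q1, ?_, q3⟩
    rw [q2, den, zero_add, show offG [.hk j b] = 0 from rfl, sc_zero, one_smul]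
    exact den_map (A := A) _ (fun a f n u _ => rfl) ht

theorem app_append (c : Config) (u w : Word) (v : Tan A c) :
    app A c (u ++ w) v = app A c w (app A c u v) := by
  have : app A c (u ++ w) = (app A c w).comp (app A c u) := Tan.ext fun z => by simp
  rw [this]; rfl

theorem app_nil (c : Config) (v : Tan A c) : app A c [] v = v := by
  have : app A c [] = LinearMap.id := Tan.ext fun z => by simp
  rw [this]; rfl

theorem offG_cons (x : Gl) (g : List Gl) : offG (x :: g) = offG [x] + offG g := by
  cases x <;> simp [offG]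

theorem evalG_ok {g : List Gl} {t : Tr} {k : Tr → Bool} (hg : runG base.length m g = some m')
    (ht : OkT (PP base m0 m) t) (hk : evalG g t k = true) :
    ∃ t', OkT (PP base m0 m') t' ∧ app A _ (interp base.length g) (den A (Il A base m0 []) t) =
      sc A (offG g) • den A (Il A base m0 []) t' ∧ k t' = true := by
  induction g generalizing m t with
  | nil =>
    cases hg
    exact ⟨t, ht, by simp [interp, offG, app_nil], hk⟩
  | cons x g ih =>
    obtain ⟨m1, h1, h2⟩ := Option.bind_eq_some_iff.mp hg
    obtain ⟨t1, q1, q2, q3⟩ := letter_ok (A := A) h1 ht hk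
    obtain ⟨t2, r1, r2, r3⟩ := ih h2 q1 q3
    refine ⟨t2, r1, ?_, r3⟩
    rw [interp, app_append, q2, map_smul, r2, smul_smul, sc_mul_sc, ← offG_cons]

theorem Ns_zero (k : ℕ) : Ns (List.replicate k 0) = [] := by
  induction k with
  | zero => rfl
  | succ k ih => rw [List.replicate_succ, Ns, ih]; rfl

theorem Ts_zero (k : ℕ) : Ts (List.replicate k 0) = [] := by
  induction k with
  | zero => rfl
  | succ k ih => rw [List.replicate_succ, Ts, ih]; rfl

theorem gform_ok {c c' : Config} {S₁ S₂ w : Word} {g : List Gl}
    (h1 : S₁.all (fun x => isCup x.1) = true) (h2 : S₂.all (fun x => !isCup x.1) = true)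
    (h : gform c c' base S₁ S₂ w = some g) :
    runG base.length (nl c) g = some (nl c') ∧ run c (gather c ++ S₁) = some (base ++ nn (nl c)) ∧
      cls A c w = cls A c (gather c ++ S₁ ++ interp base.length g ++ (S₂ ++ spread c')) := by
  obtain ⟨c1, r1, h⟩ := Option.bind_eq_some_iff.mp h
  split_ifs at h with hc
  cases h
  obtain ⟨r2, rfl, rfl, rfl⟩ := hc
  obtain ⟨a1, a2⟩ := upG_iso (A := A) r1 fun x hx => by
    have := List.all_eq_true.1 h1 x hx
    cases hx1 : x.1 <;> simp_all [isCup]
  obtain ⟨b1, b2⟩ := dnG_iso (A := A) r2 fun x hx k hk => by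
    have := List.all_eq_true.1 h2 x hx
    simp [hk, isCup] at this
  rw [poles_length]
  refine ⟨by rw [runG_append, a1]; exact b1, ?_, ?_⟩
  · rw [run_append_of (run_gather c)]
    exact run_right (run_skel r1) _
  · have r3 : run c w = some c' := by rw [← splitW_append w, run_append_of r1, r2]
    have e1 := ((gather_spread (A := A) c').pre r3).eq
    have e2 := (b2.pre r1).cls_app (spread c')
    have e3 := a2.cls_app (interp (np c1) (dnG c1 (splitW w).2) ++ skel c1 (splitW w).2 ++ spread c')
    rw [List.append_nil] at e1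
    rw [← List.append_assoc, splitW_append] at e2
    rw [← e1, ← List.append_assoc, e2, interp_append]
    simpa using e3

theorem total_ok {c c' : Config} {S₁ S₂ : Word} {ts : List (ℤ × ℤ × Word)} {acc : Tr}
    (h1 : S₁.all (fun x => isCup x.1) = true) (h2 : S₂.all (fun x => !isCup x.1) = true)
    (hp : run c (gather c ++ S₁) = some ([] ++ (base ++ nn (nl c)) ++ []))
    (ha : OkT (PP base (nl c) (nl c')) acc) (h : total c c' base S₁ S₂ ts acc = true) :
    emb A _ [] _ [] (S₂ ++ spread c') hp (den A (Il A base (nl c) []) acc) + wcmb A c [] ts = 0 := by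
  induction ts generalizing acc with
  | nil => rw [den_isZ h]; simp [wcmb]
  | cons t ts ih =>
    have e1 : total c c' base S₁ S₂ (t :: ts) acc = (Option.rec false (fun g =>
      mkP [] (List.replicate base.length 0) (List.replicate base.length 0) fun p0 =>
      put p0 [] 0 (t.2.1 + offG g) t.1 .nil fun t0 => evalG g t0 fun t1 =>
        fold (fun p u e c acc' k => put p u 0 e c acc' k) t1 acc (total c c' base S₁ S₂ ts))
      (gform c c' base S₁ S₂ t.2.2) : Bool) := rfl
    rw [e1] at h
    cases hg : gform c c' base S₁ S₂ t.2.2 with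
    | none => rw [hg] at h; cases h
    | some g =>
      rw [hg] at h
      obtain ⟨g1, -, g3⟩ := gform_ok (A := A) h1 h2 hg
      obtain ⟨p0, q1, q2, q3, q4, q5⟩ := mkP_ok h
      obtain ⟨t0, r1, r2, r3⟩ := put_ok (A := A) (I := Il A base (nl c) [])
        (P := PP base (nl c) (nl c)) (t := .nil) q1 (by
          rw [q2, q3, q4]
          exact ⟨by simp, by simp, by simp [TT, capsW, cupsW]⟩) trivial q5
      obtain ⟨t1, s1, s2, s3⟩ := evalG_ok (A := A) g1 r1 r3
      obtain ⟨t2, u1, u2, u3⟩ := fold_ok (A := A) (I := Il A base (nl c) [])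
        (J := Il A base (nl c) [])
        (fun p u e c acc k hp hP ha hg => by simpa using put_ok (A := A) hp hP ha hg) s1 ha s3
      have := ih u1 u3
      have v1 : den A (Il A base (nl c) []) t1 =
          co A t.2.1 t.1 • cls A _ (interp base.length g) := by
        refine (sc_isUnit A (offG g)).smul_left_cancel.1 ?_
        rw [← s2, r2, q2, q3, q4, den, zero_add, pow_zero, mul_one, map_smul, Il, app_cls,
          smul_smul, mul_comm, ← co_shift]
        simp [wd, Ns_zero, Ts_zero, capsW, cupsW]
      rw [u2, v1, map_add, map_smul, emb_cls] at this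
      rw [← this, wcmb, List.map_cons, List.sum_cons, List.nil_append, g3, add_assoc]
      simp [co, wcmb]

end Ev

theorem check_sound {c : Config} {ts : List (ℤ × ℤ × Word)} (h : Ev.check c ts = true) :
    wcmb A c [] ts = 0 := by
  unfold Ev.check at h
  split at h
  · simp [wcmb]
  · split at h
    · cases h
    · rename_i c1 r1
      split at h
      · cases h
      · simp only [Bool.and_eq_true] at h
        have := Ev.total_ok (A := A) (acc := .nil) h.1.1 h.1.2 (by
          rw [run_append_of (run_gather c), List.nil_append, List.append_nil]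
          exact run_right (run_skel r1) _) trivial h.2
        simpa [Ev.den] using this

theorem swing6 {u : Word} {c : Config} (hu : run [] u = some (none :: c)) (s : Word) :
    cls A [] (u ++ pass false c.length ++ s) = sc A 6 • cls A [] (u ++ pass true c.length ++ s) := by
  have key : ∀ b, cls A [] ((cup none, 0) :: shift 1 u ++ (cap, 0) :: s) =
      -sc A (3 * sg b) • cls A [] (u ++ pass b c.length ++ s) := fun b => by
    have h1 := (swing (A := A) u _ hu b).cls_app ((cap, 0) :: s)
    have h2 := far_letter_block (A := A) (x := cap) (i := 0) (c1 := [none, none]) (c1' := [])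
      rfl (run_pass b none c) (Or.inl rfl)
    have r1 : run [] (u ++ [(cup none, 0), (cr b, 1)]) = some ([none, none] ++ none :: c) := by
      rw [run_append_of hu]; rfl
    have h3 := (h2.pre r1).cls_app s
    have h4 := congrArg (emb A u [] [none] c (pass b c.length ++ s) hu) (curl_left (A := A) b)
    rw [map_smul, emb_cls, emb_cls] at h4
    simp only [List.length_cons, pass, shift_cons, shift_shift, List.length_nil, shift_zero,
      List.append_assoc, List.cons_append, List.nil_append, Nat.reduceAdd] at h1 h3 h4 ⊢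
    rw [← h1, ← h3, h4]
  have h1 := (key false).symm.trans (key true)
  refine (sc_isUnit A (-3)).smul_left_cancel.1 ?_
  rw [smul_smul, sc_mul_sc]
  simpa [sg] using h1

namespace Ev

theorem swl_ok {u : Word} {c d : Config} (hu : run [] u = some c) {x : Kind × ℕ}
    (hx : step x.1 x.2 c = some d) : run c (swl x c).2 = some d ∧
      ∀ s, cls A [] (u ++ x :: s) = sc A (swl x c).1 • cls A [] (u ++ (swl x c).2 ++ s) := by
  unfold swl
  split
  · rename_i q c
    cases hx
    have i1 := fun b => ((pass_back (A := A) b c).one (some q))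
    refine ⟨?_, fun s => ?_⟩
    · rw [run_cons_of (c' := some q :: none :: c) rfl]
      refine run_one ?_ _
      rw [run_append_of (run_pass _ _ _), run_back]
    · have r1 : run [] (u ++ [(cr false, 0)]) = some (some q :: none :: c) := by
        rw [run_append_of hu]; rfl
      have h1 := ((i1 false).pre r1).cls_app s
      have h2 := swing6 (A := A) hu (shift 1 (back false c.length) ++ s)
      simp only [List.length_cons, pass, shift_append, List.append_assoc, List.cons_append,
        List.nil_append, shift_nil] at h1 h2 ⊢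
      rw [← h1, h2]
  · rename_i q c
    cases hx
    have r0 : ∀ b, run (some q :: none :: c) (shift 1 (pass false c.length ++ back b c.length)) =
        some (some q :: none :: c) := fun b => by
      refine run_one ?_ _
      rw [run_append_of (run_pass _ _ _), run_back]
    refine ⟨by rw [run_append_of (r0 true)]; rfl, fun s => ?_⟩
    have r1 : run [] (u ++ shift 1 (pass false c.length)) = some ((some q :: c) ++ [none]) := by
      rw [run_append_of hu]; exact run_one (run_pass _ _ _) _
    have r2 : run [] (u ++ shift 1 (pass false c.length) ++ back false (some q :: c).length) =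
        some (none :: some q :: c) := by rw [run_append_of r1, run_back]
    have h1 := (((pass_back (A := A) false c).one (some q)).pre hu).cls_app ((cr true, 0) :: s)
    have h2 := swing6 (A := A) r2 (back true (some q :: c).length ++ s)
    have h3 := ((back_pass (A := A) false (some q :: c)).pre r1).cls_app
      (back true (some q :: c).length ++ s)
    have h4 := ((pass_back (A := A) true (some q :: c)).pre r2).cls_app s
    simp only [List.length_cons, back, shift_append, List.append_assoc, List.cons_append,
      List.nil_append, shift_nil, Bool.not_true, Bool.not_false] at h1 h2 h3 h4 ⊢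
    rw [← h1, ← h3, h2, h4, smul_smul, sc_mul_sc]
    simp
  · exact ⟨by rw [run_single, hx], fun s => by simp⟩

theorem sw0_ok {u w : Word} {c d : Config} (hu : run [] u = some c) (hw : run c w = some d) :
    cls A [] (u ++ w) = sc A (sw0 c w).1 • cls A [] (u ++ (sw0 c w).2) := by
  induction w generalizing u c with
  | nil => simp [sw0]
  | cons x w ih =>
    obtain ⟨c1, h1, h2⟩ := run_cons_some (x := x.1) (i := x.2) hw
    obtain ⟨q1, q2⟩ := swl_ok (A := A) hu h1
    rw [q2, ih (by rw [run_append_of hu, q1]) h2, sw0, h1, smul_smul, sc_mul_sc]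
    simp

end Ev

theorem checkU_sound {c : Config} {ts : List (ℤ × ℤ × Word)} (h : Ev.checkU c ts = true) :
    Van A c ts := by
  intro u hu
  simp only [Ev.checkU, Bool.and_eq_true, List.all_eq_true] at h
  have h1 := congrArg (pre A u hu) (check_sound (A := A) h.2)
  rw [map_zero, wcmb, map_list_sum, List.map_map, List.map_map] at h1
  rw [← h1, wcmb]
  congr 1
  refine List.map_congr_left fun t ht => ?_
  obtain ⟨d, hd⟩ := Option.isSome_iff_exists.mp (h.1 t ht)
  simp [Ev.sw0_ok (A := A) hu hd, smul_smul, sc_add, mul_assoc]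

/-- `l = n * A ^ e * r`. -/
theorem check_eq {c : Config} {l r : Word} (n e : ℤ)
    (h : Ev.check c [(1, 0, l), (-n, e, r)] = true) :
    cls A c l = ((n : R) * sc A e) • cls A c r := by
  have := check_sound (A := A) h
  simpa [wcmb, add_neg_eq_zero] using this

theorem check_iso {c : Config} {l r : Word}
    (h : Same c l r ∧ Ev.check c [(1, 0, l), (-1, 0, r)] = true) : Iso A c l r :=
  ⟨h.1, by simpa using check_eq (A := A) 1 0 h.2⟩

end Pool.Agent.Lib.MP_5b31c3_gt
end
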