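import Pool.Agent.Lib.MP_5b31c3_gt.Lev1

-- part Pool.Agent.Lib.MP_5b31c3_gt.Lev2
section

/-
The relations between the operators of a level.
-/

namespace Pool.Agent.Lib.MP_5b31c3_gt

open Kind

variable {R : Type*} [CommRing R] {A : Rˣ}

theorem lw_a : Lw wa := ⟨by decide, [], by decide⟩
theorem lw_b : Lw wb := ⟨by decide, [], by decide⟩
theorem lw_13 (b : Bool) : Lw (w13 b) := by cases b <;> exact ⟨by decide, [], by decide⟩
theorem lw_br (v : List Bool) : Lw (braid v) := ⟨run_braid v, v, skel_braid v⟩
theorem lw_t0 : Lw (wt 0) := lw_wt (by norm_num)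
theorem lw_t1 : Lw (wt 1) := lw_wt (by norm_num)
theorem lw_t2 : Lw (wt 2) := lw_wt (by norm_num)
theorem lw_t3 : Lw (wt 3) := lw_wt (by norm_num)
theorem aw_al (a b c d : ℤ) : Aw (arcw kal a b c d) := (ok_al.arcw (A := (1 : ℤˣ)) a b c d).1
theorem aw_be (a b c d : ℤ) : Aw (arcw kbe a b c d) := (ok_be.arcw (A := (1 : ℤˣ)) a b c d).1
theorem aw_G (a b c d : ℤ) : Aw (arcw kG a b c d) := (ok_G.arcw (A := (1 : ℤˣ)) a b c d).1
theorem aw_P (a b c d : ℤ) : Aw (arcw kP a b c d) := (ok_P.arcw (A := (1 : ℤˣ)) a b c d).1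

/-- The operators of a level. -/
noncomputable def LL (A : Rˣ) : Lvl R (UU A) where
  a := opL A wa
  b := opL A wb
  c := opL A (w13 false)
  p := opL A (w13 true)
  al := opA A (kal.1 ++ kal.2)
  be := opA A (kbe.1 ++ kbe.2)
  G := opA A (kG.1 ++ kG.2)
  P := opA A (kP.1 ++ kP.2)

/-- The crossings. -/
noncomputable def sX (A : Rˣ) (x : Bool) : Module.End R (UU A) := opL A (braid [x])

theorem ev_a : opL A wa = (LL A).a := rfl
theorem ev_b : opL A wb = (LL A).b := rfl
theorem ev_c : opL A (w13 false) = (LL A).c := rfl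
theorem ev_p : opL A (w13 true) = (LL A).p := rfl
theorem ev_s (x : Bool) : opL A (braid [x]) = sX A x := rfl
theorem ev_t0 : opL A (wt 0) = tm A := opL_wt (by norm_num)
theorem ev_t1 : opL A (wt 1) = tm A := opL_wt (by norm_num)
theorem ev_t2 : opL A (wt 2) = tm A := opL_wt (by norm_num)
theorem ev_t3 : opL A (wt 3) = tm A := opL_wt (by norm_num)

theorem ev_al (a b c d : ℤ) (e : Bool) : opA A (arcw kal a b c d) e =
    sc A (a + b + c + d) • (mp (MM A) e (a + b + c + d) * (LL A).al e) := by
  rw [(ok_al.arcw a b c d).2, arcw_zero]; rfl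

theorem ev_be (a b c d : ℤ) (e : Bool) : opA A (arcw kbe a b c d) e =
    sc A (a + b + c + d) • (mp (MM A) e (a + b + c + d) * (LL A).be e) := by
  rw [(ok_be.arcw a b c d).2, arcw_zero]; rfl

theorem ev_G (a b c d : ℤ) (e : Bool) : opA A (arcw kG a b c d) e =
    sc A (a + b + c + d) • (mp (MM A) e (a + b + c + d) * (LL A).G e) := by
  rw [(ok_G.arcw a b c d).2, arcw_zero]; rfl

theorem ev_P (a b c d : ℤ) (e : Bool) : opA A (arcw kP a b c d) e =
    sc A (a + b + c + d) • (mp (MM A) e (a + b + c + d) * (LL A).P e) := by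
  rw [(ok_P.arcw a b c d).2, arcw_zero]; rfl

theorem tm_mul : tm A * tm A = tau (MM A) := by rw [tau, sq]; rfl

theorem tm_mul' (X : Module.End R (UU A)) : tm A * (tm A * X) = tau (MM A) * X := by
  rw [← mul_assoc, tm_mul]

theorem opL_mp (z : Word) (e : Bool) (k : ℤ) (X : Module.End R (UU A)) :
    opL A z * (mp (MM A) e k * X) = mp (MM A) e k * (opL A z * X) := by
  rw [← mul_assoc, (commute_mp (opL_M z) e k).eq, mul_assoc]

theorem p_mp (e : Bool) (k : ℤ) (X : Module.End R (UU A)) :
    (LL A).p * (mp (MM A) e k * X) = mp (MM A) e k * ((LL A).p * X) := opL_mp _ _ _ _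

theorem dl_sq : dl A ^ 2 = sc A 4 + 2 + sc A (-4) := by
  have h1 := sc_mul_sc A 2 2
  have h2 := sc_mul_sc A (-2) (-2)
  have h3 := sc_mul_neg A 2
  norm_num at h1 h2
  rw [dl]
  linear_combination h1 + h2 + 2 * h3

theorem okW : Lw wa ∧ Lw wb ∧ Lw (w13 true) ∧ Lw (w13 false) ∧ Lw (wt 0) ∧ Lw (wt 1) ∧
    Lw (wt 2) ∧ Lw (wt 3) ∧ Lw (braid [true]) ∧ Lw (braid [false]) ∧ Lw [] ∧
    (∀ a b c d, Aw (arcw kal a b c d)) ∧ (∀ a b c d, Aw (arcw kbe a b c d)) ∧
    (∀ a b c d, Aw (arcw kG a b c d)) ∧ ∀ a b c d, Aw (arcw kP a b c d) :=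
  ⟨lw_a, lw_b, lw_13 _, lw_13 _, lw_t0, lw_t1, lw_t2, lw_t3, lw_br _, lw_br _, lw_nil, aw_al,
    aw_be, aw_G, aw_P⟩

theorem evW : opL A wa = (LL A).a ∧ opL A wb = (LL A).b ∧ opL A (w13 false) = (LL A).c ∧
    opL A (w13 true) = (LL A).p ∧ (∀ x, opL A (braid [x]) = sX A x) ∧ opL A (wt 0) = tm A ∧
    opL A (wt 1) = tm A ∧ opL A (wt 2) = tm A ∧ opL A (wt 3) = tm A ∧ opL A [] = 1 ∧
    tm A * tm A = tau (MM A) ∧ ∀ X, tm A * (tm A * X) = tau (MM A) * X :=
  ⟨rfl, rfl, rfl, rfl, fun _ => rfl, ev_t0, ev_t1, ev_t2, ev_t3, opL_nil, tm_mul, tm_mul'⟩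

set_option linter.unusedSimpArgs false

theorem rel_L1 : (LL A).a * (LL A).b = sc A 2 • (LL A).c + sc A (-2) • (LL A).p +
    (2 : R) • tau (MM A) := by
  have h := opL_van (by simp [okW, Lw.append]) (id_L1 (A := A))
  simp only [List.map_cons, List.map_nil, List.sum_cons, List.sum_nil, opL_append, okW,
    Lw.append, evW, mul_assoc, sc_zero] at h
  linear_combination (norm := module) h

theorem rel_L2 : (LL A).b * (LL A).a = sc A (-2) • (LL A).c + sc A 2 • (LL A).p +
    (2 : R) • tau (MM A) := by
  have h := opL_van (by simp [okW, Lw.append]) (id_L2 (A := A))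
  simp only [List.map_cons, List.map_nil, List.sum_cons, List.sum_nil, opL_append, okW,
    Lw.append, evW, mul_assoc, sc_zero] at h
  linear_combination (norm := module) h

theorem rel_L3 : (LL A).p * (LL A).a = sc A 4 • ((LL A).a * (LL A).p) + (sc A (-2)
    - sc A 6) • (LL A).b + (2 * (1 - sc A 4)) • tau (MM A) := by
  have h := opL_van (by simp [okW, Lw.append]) (id_L3 (A := A))
  simp only [List.map_cons, List.map_nil, List.sum_cons, List.sum_nil, opL_append, okW,
    Lw.append, evW, mul_assoc, sc_zero] at h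
  linear_combination (norm := module) h

theorem rel_L4 : (LL A).p * (LL A).b = sc A (-4) • ((LL A).b * (LL A).p) + (sc A 2
    - sc A (-6)) • (LL A).a + (2 * (1 - sc A (-4))) • tau (MM A) := by
  have h := opL_van (by simp [okW, Lw.append]) (id_L4 (A := A))
  simp only [List.map_cons, List.map_nil, List.sum_cons, List.sum_nil, opL_append, okW,
    Lw.append, evW, mul_assoc, sc_zero] at h
  linear_combination (norm := module) h

theorem rel_cub : (LL A).c * (LL A).p = sc A (-4) • ((LL A).a * (LL A).a) + sc A 4 •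
    ((LL A).b * (LL A).b) + (2 * sc A (-2)) • (tau (MM A) * (LL A).a) + (2 * sc A 2) • (tau (MM
    A) * (LL A).b) + (tau (MM A) * tau (MM A) + (4 : R) • tau (MM A) - (dl A ^ 2) • 1) := by
  have l4 : Lw (wt 0 ++ (wt 1 ++ (wt 2 ++ wt 3))) :=
    lw_t0.append (lw_t1.append (lw_t2.append lw_t3))
  have e4 : opL A (wt 0 ++ wt 1 ++ wt 2 ++ wt 3) = tau (MM A) * tau (MM A) := by
    rw [opL_append ((lw_t0.append lw_t1).append lw_t2) lw_t3,
      opL_append (lw_t0.append lw_t1) lw_t2, opL_append lw_t0 lw_t1, ev_t0, ev_t1, ev_t2, ev_t3,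
      tm_mul, tm_mul']
  have h := opL_van (by simp [okW, Lw.append, l4]) (id_cub (A := A))
  simp only [List.map_cons, List.map_nil, List.sum_cons, List.sum_nil, opL_append, okW,
    Lw.append, evW, mul_assoc, sc_zero, e4] at h
  rw [dl_sq]
  linear_combination (norm := module) h

theorem rel_K1 (e : Bool) : (LL A).be e * (LL A).a = sc A (-3) • (mp (MM A) e (-1) * (LL A).G
    e) + sc A 3 • (mp (MM A) e 1 * (LL A).P e) + (2 : R) • (LL A).al e := by
  have h := opA_van (by simp [okW, Aw.post, Aw.pre]) (id_K1 (A := A)) e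
  simp only [List.map_cons, List.map_nil, List.sum_cons, List.sum_nil, opA_pre, opA_post, okW,
    evW, ev_al, ev_be, ev_G, ev_P, mul_smul_comm, smul_mul_assoc, smul_smul, mul_assoc,
    sc_mul_sc, Int.reduceAdd, Int.reduceNeg, add_zero, zero_add, neg_add_cancel, add_neg_cancel,
    mp_zero, one_mul, sc_zero, p_mp] at h
  linear_combination (norm := module) h

theorem rel_K1L (e : Bool) : (LL A).a * (LL A).be e = sc A 1 • (mp (MM A) e (-1) * (LL A).G e)
    + sc A (-1) • (mp (MM A) e 1 * (LL A).P e) + (2 : R) • (LL A).al e := by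
  have h := opA_van (by simp [okW, Aw.post, Aw.pre]) (id_K1L (A := A)) e
  simp only [List.map_cons, List.map_nil, List.sum_cons, List.sum_nil, opA_pre, opA_post, okW,
    evW, ev_al, ev_be, ev_G, ev_P, mul_smul_comm, smul_mul_assoc, smul_smul, mul_assoc,
    sc_mul_sc, Int.reduceAdd, Int.reduceNeg, add_zero, zero_add, neg_add_cancel, add_neg_cancel,
    mp_zero, one_mul, sc_zero, p_mp] at h
  linear_combination (norm := module) h

theorem rel_K2 (e : Bool) : (LL A).al e * (LL A).b = sc A 3 • (mp (MM A) e 1 * (LL A).G e) +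
    sc A (-3) • (mp (MM A) e (-1) * (LL A).P e) + (2 : R) • (LL A).be e := by
  have h := opA_van (by simp [okW, Aw.post, Aw.pre]) (id_K2 (A := A)) e
  simp only [List.map_cons, List.map_nil, List.sum_cons, List.sum_nil, opA_pre, opA_post, okW,
    evW, ev_al, ev_be, ev_G, ev_P, mul_smul_comm, smul_mul_assoc, smul_smul, mul_assoc,
    sc_mul_sc, Int.reduceAdd, Int.reduceNeg, add_zero, zero_add, neg_add_cancel, add_neg_cancel,
    mp_zero, one_mul, sc_zero, p_mp] at h
  linear_combination (norm := module) h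

theorem rel_K2L (e : Bool) : (LL A).b * (LL A).al e = sc A (-1) • (mp (MM A) e 1 * (LL A).G e)
    + sc A 1 • (mp (MM A) e (-1) * (LL A).P e) + (2 : R) • (LL A).be e := by
  have h := opA_van (by simp [okW, Aw.post, Aw.pre]) (id_K2L (A := A)) e
  simp only [List.map_cons, List.map_nil, List.sum_cons, List.sum_nil, opA_pre, opA_post, okW,
    evW, ev_al, ev_be, ev_G, ev_P, mul_smul_comm, smul_mul_assoc, smul_smul, mul_assoc,
    sc_mul_sc, Int.reduceAdd, Int.reduceNeg, add_zero, zero_add, neg_add_cancel, add_neg_cancel,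
    mp_zero, one_mul, sc_zero, p_mp] at h
  linear_combination (norm := module) h

theorem rel_K3a (e : Bool) : (LL A).P e * (LL A).a = sc A 4 • ((LL A).a * (LL A).P e) + (sc A
    (-3) - sc A 5) • (mp (MM A) e (-1) * (LL A).be e) + (2 * (sc A (-1) - sc A 3)) • (mp (MM A)
    e (-1) * (LL A).al e) := by
  have h := opA_van (by simp [okW, Aw.post, Aw.pre]) (id_K3a (A := A)) e
  simp only [List.map_cons, List.map_nil, List.sum_cons, List.sum_nil, opA_pre, opA_post, okW,
    evW, ev_al, ev_be, ev_G, ev_P, mul_smul_comm, smul_mul_assoc, smul_smul, mul_assoc,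
    sc_mul_sc, Int.reduceAdd, Int.reduceNeg, add_zero, zero_add, neg_add_cancel, add_neg_cancel,
    mp_zero, one_mul, sc_zero, p_mp] at h
  linear_combination (norm := module) h

theorem rel_K3b (e : Bool) : (LL A).P e * (LL A).b = sc A (-4) • ((LL A).b * (LL A).P e) + (sc
    A 3 - sc A (-5)) • (mp (MM A) e 1 * (LL A).al e) + (2 * (sc A 1 - sc A (-3))) • (mp (MM A) e
    1 * (LL A).be e) := by
  have h := opA_van (by simp [okW, Aw.post, Aw.pre]) (id_K3b (A := A)) e
  simp only [List.map_cons, List.map_nil, List.sum_cons, List.sum_nil, opA_pre, opA_post, okW,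
    evW, ev_al, ev_be, ev_G, ev_P, mul_smul_comm, smul_mul_assoc, smul_smul, mul_assoc,
    sc_mul_sc, Int.reduceAdd, Int.reduceNeg, add_zero, zero_add, neg_add_cancel, add_neg_cancel,
    mp_zero, one_mul, sc_zero, p_mp] at h
  linear_combination (norm := module) h

theorem rel_K4a (e : Bool) : (LL A).a * (LL A).P e = sc A (-3) • (mp (MM A) e 1 * (LL A).p *
    (LL A).al e) + sc A 1 • (mp (MM A) e (-1) * (LL A).be e) - sc A (-3) • (mp (MM A) e 3 * (LL
    A).be e) + (2 * sc A (-1)) • (mp (MM A) e (-1) * (LL A).al e) - (2 * sc A (-2)) • (mp (MM A)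
    e 2 * (LL A).P e) := by
  have h := opA_van (by simp [okW, Aw.post, Aw.pre]) (id_K4a (A := A)) e
  simp only [List.map_cons, List.map_nil, List.sum_cons, List.sum_nil, opA_pre, opA_post, okW,
    evW, ev_al, ev_be, ev_G, ev_P, mul_smul_comm, smul_mul_assoc, smul_smul, mul_assoc,
    sc_mul_sc, Int.reduceAdd, Int.reduceNeg, add_zero, zero_add, neg_add_cancel, add_neg_cancel,
    mp_zero, one_mul, sc_zero, p_mp] at h
  rw [mul_assoc]
  linear_combination (norm := module) h

theorem rel_K4b (e : Bool) : (LL A).b * (LL A).P e = sc A 3 • (mp (MM A) e (-1) * (LL A).p *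
    (LL A).be e) + sc A (-1) • (mp (MM A) e 1 * (LL A).al e) - sc A 3 • (mp (MM A) e (-3) * (LL
    A).al e) + (2 * sc A 1) • (mp (MM A) e 1 * (LL A).be e) - (2 * sc A 2) • (mp (MM A) e (-2) *
    (LL A).P e) := by
  have h := opA_van (by simp [okW, Aw.post, Aw.pre]) (id_K4b (A := A)) e
  simp only [List.map_cons, List.map_nil, List.sum_cons, List.sum_nil, opA_pre, opA_post, okW,
    evW, ev_al, ev_be, ev_G, ev_P, mul_smul_comm, smul_mul_assoc, smul_smul, mul_assoc,
    sc_mul_sc, Int.reduceAdd, Int.reduceNeg, add_zero, zero_add, neg_add_cancel, add_neg_cancel,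
    mp_zero, one_mul, sc_zero, p_mp] at h
  rw [mul_assoc]
  linear_combination (norm := module) h

theorem rel_K5a (e : Bool) : (LL A).al e * (LL A).a = (LL A).a * (LL A).al e := by
  have h := opA_van (by simp [okW, Aw.post, Aw.pre]) (id_K5a (A := A)) e
  simp only [List.map_cons, List.map_nil, List.sum_cons, List.sum_nil, opA_pre, opA_post, okW,
    evW, ev_al, ev_be, ev_G, ev_P, mul_smul_comm, smul_mul_assoc, smul_smul, mul_assoc,
    sc_mul_sc, Int.reduceAdd, Int.reduceNeg, add_zero, zero_add, neg_add_cancel, add_neg_cancel,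
    mp_zero, one_mul, sc_zero, p_mp] at h
  linear_combination (norm := module) h

theorem rel_K5b (e : Bool) : (LL A).be e * (LL A).b = (LL A).b * (LL A).be e := by
  have h := opA_van (by simp [okW, Aw.post, Aw.pre]) (id_K5b (A := A)) e
  simp only [List.map_cons, List.map_nil, List.sum_cons, List.sum_nil, opA_pre, opA_post, okW,
    evW, ev_al, ev_be, ev_G, ev_P, mul_smul_comm, smul_mul_assoc, smul_smul, mul_assoc,
    sc_mul_sc, Int.reduceAdd, Int.reduceNeg, add_zero, zero_add, neg_add_cancel, add_neg_cancel,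
    mp_zero, one_mul, sc_zero, p_mp] at h
  linear_combination (norm := module) h

theorem rel_ta : (LL A).a * sX A true = sX A true * (LL A).c := by
  have h := opL_van (by simp [okW, Lw.append]) (id_ta (A := A))
  simp only [List.map_cons, List.map_nil, List.sum_cons, List.sum_nil, opL_append, okW,
    Lw.append, evW, mul_assoc, sc_zero] at h
  linear_combination (norm := module) h

theorem rel_tb : (LL A).b * sX A true = sX A true * (LL A).b := by
  have h := opL_van (by simp [okW, Lw.append]) (id_tb (A := A))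
  simp only [List.map_cons, List.map_nil, List.sum_cons, List.sum_nil, opL_append, okW,
    Lw.append, evW, mul_assoc, sc_zero] at h
  linear_combination (norm := module) h

theorem rel_tp : (LL A).p * sX A true = sX A true * (LL A).a := by
  have h := opL_van (by simp [okW, Lw.append]) (id_tp (A := A))
  simp only [List.map_cons, List.map_nil, List.sum_cons, List.sum_nil, opL_append, okW,
    Lw.append, evW, mul_assoc, sc_zero] at h
  linear_combination (norm := module) h

theorem rel_fa : (LL A).a * sX A false = sX A false * (LL A).a := by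
  have h := opL_van (by simp [okW, Lw.append]) (id_fa (A := A))
  simp only [List.map_cons, List.map_nil, List.sum_cons, List.sum_nil, opL_append, okW,
    Lw.append, evW, mul_assoc, sc_zero] at h
  linear_combination (norm := module) h

theorem rel_fb : (LL A).b * sX A false = sX A false * (LL A).c := by
  have h := opL_van (by simp [okW, Lw.append]) (id_fb (A := A))
  simp only [List.map_cons, List.map_nil, List.sum_cons, List.sum_nil, opL_append, okW,
    Lw.append, evW, mul_assoc, sc_zero] at h
  linear_combination (norm := module) h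

theorem rel_fp : (LL A).p * sX A false = sX A false * (LL A).b := by
  have h := opL_van (by simp [okW, Lw.append]) (id_fp (A := A))
  simp only [List.map_cons, List.map_nil, List.sum_cons, List.sum_nil, opL_append, okW,
    Lw.append, evW, mul_assoc, sc_zero] at h
  linear_combination (norm := module) h

theorem rel_tal (e : Bool) : (LL A).al e * sX A true = sX A true * (LL A).G e := by
  have h := opA_van (by simp [okW, Aw.post, Aw.pre]) (id_tal (A := A)) e
  simp only [List.map_cons, List.map_nil, List.sum_cons, List.sum_nil, opA_pre, opA_post, okW,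
    evW, ev_al, ev_be, ev_G, ev_P, mul_smul_comm, smul_mul_assoc, smul_smul, mul_assoc,
    sc_mul_sc, Int.reduceAdd, Int.reduceNeg, add_zero, zero_add, neg_add_cancel, add_neg_cancel,
    mp_zero, one_mul, sc_zero, p_mp] at h
  linear_combination (norm := module) h

theorem rel_tbe (e : Bool) : (LL A).be e * sX A true = sX A true * (sc A (-1) • (mp (MM A) e
    (-1) * (LL A).be e)) := by
  have h := opA_van (by simp [okW, Aw.post, Aw.pre]) (id_tbe (A := A)) e
  simp only [List.map_cons, List.map_nil, List.sum_cons, List.sum_nil, opA_pre, opA_post, okW,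
    evW, ev_al, ev_be, ev_G, ev_P, mul_smul_comm, smul_mul_assoc, smul_smul, mul_assoc,
    sc_mul_sc, Int.reduceAdd, Int.reduceNeg, add_zero, zero_add, neg_add_cancel, add_neg_cancel,
    mp_zero, one_mul, sc_zero, p_mp] at h
  rw [mul_smul_comm]
  linear_combination (norm := module) h

theorem rel_tP (e : Bool) : (LL A).P e * sX A true = sX A true * (LL A).al e := by
  have h := opA_van (by simp [okW, Aw.post, Aw.pre]) (id_tP (A := A)) e
  simp only [List.map_cons, List.map_nil, List.sum_cons, List.sum_nil, opA_pre, opA_post, okW,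
    evW, ev_al, ev_be, ev_G, ev_P, mul_smul_comm, smul_mul_assoc, smul_smul, mul_assoc,
    sc_mul_sc, Int.reduceAdd, Int.reduceNeg, add_zero, zero_add, neg_add_cancel, add_neg_cancel,
    mp_zero, one_mul, sc_zero, p_mp] at h
  linear_combination (norm := module) h

theorem rel_fal (e : Bool) : (LL A).al e * sX A false = sX A false * (sc A 1 • (mp (MM A) e 1 *
    (LL A).al e)) := by
  have h := opA_van (by simp [okW, Aw.post, Aw.pre]) (id_fal (A := A)) e
  simp only [List.map_cons, List.map_nil, List.sum_cons, List.sum_nil, opA_pre, opA_post, okW,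
    evW, ev_al, ev_be, ev_G, ev_P, mul_smul_comm, smul_mul_assoc, smul_smul, mul_assoc,
    sc_mul_sc, Int.reduceAdd, Int.reduceNeg, add_zero, zero_add, neg_add_cancel, add_neg_cancel,
    mp_zero, one_mul, sc_zero, p_mp] at h
  rw [mul_smul_comm]
  linear_combination (norm := module) h

theorem rel_fbe (e : Bool) : (LL A).be e * sX A false = sX A false * (LL A).G e := by
  have h := opA_van (by simp [okW, Aw.post, Aw.pre]) (id_fbe (A := A)) e
  simp only [List.map_cons, List.map_nil, List.sum_cons, List.sum_nil, opA_pre, opA_post, okW,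
    evW, ev_al, ev_be, ev_G, ev_P, mul_smul_comm, smul_mul_assoc, smul_smul, mul_assoc,
    sc_mul_sc, Int.reduceAdd, Int.reduceNeg, add_zero, zero_add, neg_add_cancel, add_neg_cancel,
    mp_zero, one_mul, sc_zero, p_mp] at h
  linear_combination (norm := module) h

theorem rel_fP (e : Bool) : (LL A).P e * sX A false = sX A false * (LL A).be e := by
  have h := opA_van (by simp [okW, Aw.post, Aw.pre]) (id_fP (A := A)) e
  simp only [List.map_cons, List.map_nil, List.sum_cons, List.sum_nil, opA_pre, opA_post, okW,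
    evW, ev_al, ev_be, ev_G, ev_P, mul_smul_comm, smul_mul_assoc, smul_smul, mul_assoc,
    sc_mul_sc, Int.reduceAdd, Int.reduceNeg, add_zero, zero_add, neg_add_cancel, add_neg_cancel,
    mp_zero, one_mul, sc_zero, p_mp] at h
  linear_combination (norm := module) h

theorem rel_LL : Rel A (MM A) (LL A) :=
  ⟨opL_M _, opL_M _, opL_M _, opL_M _, opA_semi _, opA_semi _, opA_semi _, opA_semi _,
    rel_L1, rel_L2, rel_L3, rel_L4, rel_cub, rel_K1, rel_K1L, rel_K2, rel_K2L, rel_K3a, rel_K3b,
    rel_K4a, rel_K4b, rel_K5a, rel_K5b⟩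

theorem inter_LL : Inter A (MM A) (LL A) (sX A) :=
  ⟨fun _ => opL_M _, rel_ta, rel_tb, rel_tp, rel_tal, rel_tbe, rel_tP, rel_fa, rel_fb, rel_fp,
    rel_fal, rel_fbe, rel_fP⟩

theorem good_cups : Good cups := ⟨by decide, [], by decide⟩

/-- The generating vector. -/
noncomputable def v0 (A : Rˣ) : UU A := ig A cups good_cups

open Classical in
/-- The image of a word, if it is good. -/
noncomputable def iw (A : Rˣ) (y : Word) : UU A := if h : Good y then ig A y h else 0

theorem iw_eq {y : Word} (h : Good y) : iw A y = ig A y h := dif_pos h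

open Classical in
theorem iw_van {ts : List (ℤ × ℤ × Word)} (hw : ∀ t ∈ ts, Good t.2.2)
    (h : wcmb A [] [] ts = 0) :
    (ts.map fun t => ((t.1 : R) * sc A t.2.1) • iw A t.2.2).sum = 0 := by
  have := congrArg (hι (TV A)) (sum_gen ts [] hw
    (fun t => if ht : t ∈ ts then gen A _ (hw t ht) else 0) (fun t ht => dif_pos ht) h)
  rw [sum_map_apply, map_zero] at this
  rw [← this]
  congr 1
  refine List.map_congr_left fun t ht => ?_
  rw [dif_pos ht, iw_eq (hw t ht)]; rfl

theorem iw_cups {z : Word} (h : Lw z) : iw A (cups ++ z) = opL A z (v0 A) := by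
  rw [iw_eq (good_cups.app h), v0, opL_ig h]

theorem opA_v0 {κ : Word × Word} (h : ArcOk κ) (e : Bool) : opA A (κ.1 ++ κ.2) e (v0 A) =
    iw A (dblG 0 (tw2 1 1) [] cups ++ arcw κ 0 0 0 0) -
      sc A 1 • mp (MM A) e (-1) (iw A (dblG 0 (tw2 1 0) [] cups ++ arcw κ 0 0 0 0)) -
      sc A 1 • mp (MM A) e (-1) (iw A (dblG 0 (tw2 0 1) [] cups ++ arcw κ 0 0 0 0)) +
      sc A 2 • mp (MM A) e (-2) (iw A (dblG 0 (tw2 0 0) [] cups ++ arcw κ 0 0 0 0)) := by
  rw [v0, opA_ig h.aw, arcw_zero]
  simp only [piE, EV_gen, zero_add, iw_eq (good_cups.arc h.aw _)]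
  rfl

theorem tm_eq (e : Bool) : tm A = mp (MM A) e 1 + mp (MM A) e (-1) := by
  cases e
  · rw [tm, add_comm]; simp [mp]
  · rfl

theorem okG : (∀ z, Lw z → Good (cups ++ z)) ∧ Good cups ∧
    ∀ κ tw, Aw κ → Good (dblG 0 tw [] cups ++ κ) :=
  ⟨fun _ h => good_cups.app h, good_cups, fun _ _ h => good_cups.arc h _⟩

theorem top_a : (LL A).a (v0 A) =
    -(sc A 2 • v0 A) - sc A (-2) • v0 A := by
  have h := iw_van (by simp [okG, okW, Lw.append]) (id_top_a (A := A))
  simp only [List.map_cons, List.map_nil, List.sum_cons, List.sum_nil, iw_cups, opL_append, okW,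
    Lw.append, evW, sc_zero, Module.End.one_apply] at h
  linear_combination (norm := module) h

theorem top_p : (LL A).p (v0 A) =
    -(sc A (-4) • (LL A).b (v0 A)) - sc A (-2) • tau (MM A) (v0 A) := by
  have h := iw_van (by simp [okG, okW, Lw.append]) (id_top_p (A := A))
  simp only [List.map_cons, List.map_nil, List.sum_cons, List.sum_nil, iw_cups, opL_append, okW,
    Lw.append, evW, sc_zero, Module.End.one_apply] at h
  linear_combination (norm := module) h

theorem top_kal00 : iw A (dblG 0 (tw2 0 0) [] cups ++ arcw kal 0 0 0 0) =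
    (sc A 4 + 2 + sc A (-4)) • v0 A := by
  have h := iw_van (by simp [okG, okW, Lw.append]) (id_top_kal00 (A := A))
  simp only [List.map_cons, List.map_nil, List.sum_cons, List.sum_nil, iw_cups, opL_append, okW,
    Lw.append, evW, sc_zero, Module.End.one_apply] at h
  linear_combination (norm := module) h

theorem top_kal01 : iw A (dblG 0 (tw2 0 1) [] cups ++ arcw kal 0 0 0 0) =
    (sc A 5 + sc A 1) • tm A (v0 A) := by
  have h := iw_van (by simp [okG, okW, Lw.append]) (id_top_kal01 (A := A))
  simp only [List.map_cons, List.map_nil, List.sum_cons, List.sum_nil, iw_cups, opL_append, okW,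
    Lw.append, evW, sc_zero, Module.End.one_apply] at h
  linear_combination (norm := module) h

theorem top_kal10 : iw A (dblG 0 (tw2 1 0) [] cups ++ arcw kal 0 0 0 0) =
    (sc A 5 + sc A 1) • tm A (v0 A) := by
  have h := iw_van (by simp [okG, okW, Lw.append]) (id_top_kal10 (A := A))
  simp only [List.map_cons, List.map_nil, List.sum_cons, List.sum_nil, iw_cups, opL_append, okW,
    Lw.append, evW, sc_zero, Module.End.one_apply] at h
  linear_combination (norm := module) h

theorem top_kal11 : iw A (dblG 0 (tw2 1 1) [] cups ++ arcw kal 0 0 0 0) =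
    sc A 6 • tau (MM A) (v0 A) := by
  have h := iw_van (by simp [okG, okW, Lw.append]) (id_top_kal11 (A := A))
  simp only [List.map_cons, List.map_nil, List.sum_cons, List.sum_nil, iw_cups, opL_append, okW,
    Lw.append, evW, sc_zero, Module.End.one_apply] at h
  linear_combination (norm := module) h

theorem top_kbe00 : iw A (dblG 0 (tw2 0 0) [] cups ++ arcw kbe 0 0 0 0) =
    (-sc A 2 - sc A (-2)) • v0 A := by
  have h := iw_van (by simp [okG, okW, Lw.append]) (id_top_kbe00 (A := A))
  simp only [List.map_cons, List.map_nil, List.sum_cons, List.sum_nil, iw_cups, opL_append, okW,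
    Lw.append, evW, sc_zero, Module.End.one_apply] at h
  linear_combination (norm := module) h

theorem top_kbe01 : iw A (dblG 0 (tw2 0 1) [] cups ++ arcw kbe 0 0 0 0) =
    -(sc A 3 • tm A (v0 A)) := by
  have h := iw_van (by simp [okG, okW, Lw.append]) (id_top_kbe01 (A := A))
  simp only [List.map_cons, List.map_nil, List.sum_cons, List.sum_nil, iw_cups, opL_append, okW,
    Lw.append, evW, sc_zero, Module.End.one_apply] at h
  linear_combination (norm := module) h

theorem top_kbe10 : iw A (dblG 0 (tw2 1 0) [] cups ++ arcw kbe 0 0 0 0) =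
    -(sc A 3 • tm A (v0 A)) := by
  have h := iw_van (by simp [okG, okW, Lw.append]) (id_top_kbe10 (A := A))
  simp only [List.map_cons, List.map_nil, List.sum_cons, List.sum_nil, iw_cups, opL_append, okW,
    Lw.append, evW, sc_zero, Module.End.one_apply] at h
  linear_combination (norm := module) h

theorem top_kbe11 : iw A (dblG 0 (tw2 1 1) [] cups ++ arcw kbe 0 0 0 0) =
    -(sc A 4 • tau (MM A) (v0 A)) - sc A 2 • (LL A).b (v0 A) := by
  have h := iw_van (by simp [okG, okW, Lw.append]) (id_top_kbe11 (A := A))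
  simp only [List.map_cons, List.map_nil, List.sum_cons, List.sum_nil, iw_cups, opL_append, okW,
    Lw.append, evW, sc_zero, Module.End.one_apply] at h
  linear_combination (norm := module) h

theorem top_kP00 : iw A (dblG 0 (tw2 0 0) [] cups ++ arcw kP 0 0 0 0) =
    -(sc A (-3) • tm A (v0 A)) := by
  have h := iw_van (by simp [okG, okW, Lw.append]) (id_top_kP00 (A := A))
  simp only [List.map_cons, List.map_nil, List.sum_cons, List.sum_nil, iw_cups, opL_append, okW,
    Lw.append, evW, sc_zero, Module.End.one_apply] at h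
  linear_combination (norm := module) h

theorem top_kP01 : iw A (dblG 0 (tw2 0 1) [] cups ++ arcw kP 0 0 0 0) =
    -(sc A (-4) • (LL A).b (v0 A)) - sc A (-2) • tau (MM A) (v0 A) := by
  have h := iw_van (by simp [okG, okW, Lw.append]) (id_top_kP01 (A := A))
  simp only [List.map_cons, List.map_nil, List.sum_cons, List.sum_nil, iw_cups, opL_append, okW,
    Lw.append, evW, sc_zero, Module.End.one_apply] at h
  linear_combination (norm := module) h

theorem top_kP10 : iw A (dblG 0 (tw2 1 0) [] cups ++ arcw kP 0 0 0 0) =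
    (-sc A 2 - sc A (-2)) • v0 A := by
  have h := iw_van (by simp [okG, okW, Lw.append]) (id_top_kP10 (A := A))
  simp only [List.map_cons, List.map_nil, List.sum_cons, List.sum_nil, iw_cups, opL_append, okW,
    Lw.append, evW, sc_zero, Module.End.one_apply] at h
  linear_combination (norm := module) h

theorem top_kP11 : iw A (dblG 0 (tw2 1 1) [] cups ++ arcw kP 0 0 0 0) =
    -(sc A 3 • tm A (v0 A)) := by
  have h := iw_van (by simp [okG, okW, Lw.append]) (id_top_kP11 (A := A))
  simp only [List.map_cons, List.map_nil, List.sum_cons, List.sum_nil, iw_cups, opL_append, okW,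
    Lw.append, evW, sc_zero, Module.End.one_apply] at h
  linear_combination (norm := module) h

theorem top_LL : Top0 A (MM A) (LL A) (v0 A) := by
  refine ⟨?_, top_p, fun e => ?_, fun e => ?_, fun e => ?_⟩
  · rw [top_a, dl]; module
  · change opA A _ e _ = _
    rw [opA_v0 ok_al, top_kal00, top_kal01, top_kal10, top_kal11, tau_eq_mp _ e, tm_eq e]
    simp only [map_add, map_smul, LinearMap.add_apply, LinearMap.smul_apply, mp_mp,
      Module.End.one_apply, smul_add, smul_smul, add_mul, mul_add, add_smul, sc_mul_sc,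
      Int.reduceAdd, Int.reduceNeg, neg_add_cancel, mp_zero]
    module
  · change opA A _ e _ = _
    rw [opA_v0 ok_be, top_kbe00, top_kbe01, top_kbe10, top_kbe11, tau_eq_mp _ e, tm_eq e]
    simp only [map_add, map_smul, map_neg, LinearMap.add_apply, LinearMap.smul_apply, mp_mp,
      Module.End.one_apply, smul_add, smul_neg, smul_smul, mul_sub, mul_neg, sc_mul_sc,
      Int.reduceAdd, Int.reduceNeg, neg_add_cancel, add_neg_cancel, mp_zero, sc_zero]
    module
  · change opA A _ e _ = _
    rw [opA_v0 ok_P, top_kP00, top_kP01, top_kP10, top_kP11, ← top_p, tm_eq e]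
    simp only [map_add, map_smul, map_neg, LinearMap.add_apply, mp_mp,
      smul_add, smul_neg, smul_smul, mul_sub, mul_neg, sc_mul_sc,
      Int.reduceAdd, Int.reduceNeg]
    module

end Pool.Agent.Lib.MP_5b31c3_gt
end

-- part Pool.Agent.Lib.MP_5b31c3_gt.Knot
section

/-
Finiteness for functionals on the exterior of a two-bridge knot.
-/

namespace Pool.Agent.Lib.MP_5b31c3_gt

open Kind

universe v

variable {R : Type*} [CommRing R] {A : Rˣ}

/-- Projection to the words with a given skeleton. -/
noncomputable def projS (A : Rˣ) (S : Word) : Tan A [] →ₗ[R] Tan A [] :=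
  Tan.lift [] (fun w => if skel [] w = S then cls A [] w else 0) (by
    intro p s cl c0 cr x hp hx
    have key : ∀ l r, Same c0 l r → skel [] (p ++ shift cl.length l ++ s) =
        skel [] (p ++ shift cl.length r ++ s) := fun l r h => ((h.whisk cl cr).pre hp).skel_app s
    have z := base_zero (A := A) s hp hx
    rw [← comb_cls] at z
    cases hx with
    | move h =>
      simp only [map_sub, Finsupp.linearCombination_single, key _ _ h.same] at z ⊢
      split_ifs
      · exact z
      · simp
    | bracket b =>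
      simp only [map_sub, Finsupp.linearCombination_single,
        key [(Kind.cr b, 0)] [] (by cases b <;> decide),
        key [(cap, 0), (cup none, 0)] [] (by decide)] at z ⊢
      split_ifs
      · exact z
      · simp
    | circle =>
      simp only [map_sub, Finsupp.linearCombination_single,
        key [(cup none, 0), (cap, 0)] [] (by decide)] at z ⊢
      split_ifs
      · exact z
      · simp)

theorem projS_cls (S w : Word) :
    projS A S (cls A [] w) = if skel [] w = S then cls A [] w else 0 := Tan.lift_cls _ _ _ _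

theorem cl_caps {y S : Word} (h : run [] y = some c4) (hs : skel [] y = S) :
    Cl (S ++ caps) (y ++ caps) :=
  ⟨by rw [run_append_of h]; decide, by rw [skel_append_of h, hs]; rfl⟩


theorem lw_rep (j : ℕ) : Lw (List.replicate j wb).flatten := by
  induction j with
  | zero => exact lw_nil
  | succ j ih => rw [List.replicate_succ, List.flatten_cons]; exact lw_b.append ih

theorem skel_repb (j : ℕ) : skel c4 (List.replicate j wb).flatten = [] := by
  induction j with
  | zero => rfl
  | succ j ih =>
    rw [List.replicate_succ, List.flatten_cons, skel_append_of lw_b.1, ih]; decide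

theorem opL_rep (j : ℕ) : opL A (List.replicate j wb).flatten = (LL A).b ^ j := by
  induction j with
  | zero => exact opL_nil
  | succ j ih =>
    rw [List.replicate_succ, List.flatten_cons, opL_append lw_b (lw_rep j), ih, pow_succ]; rfl

theorem opL_braid (v : List Bool) : opL A (braid v) = sig (sX A) v := by
  induction v with
  | nil => exact opL_nil
  | cons x v ih =>
    rw [← List.singleton_append, braid_append, opL_append (lw_br _) (lw_br _), ih]; rfl

theorem lp_facts {t : ℕ} (ht : t < 4) (n : ℕ) : Lw (shift t (lp n)) ∧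
    skel c4 (shift t (lp n)) = [] ∧ opL A (shift t (lp n)) = tm A ^ n := by
  induction n with
  | zero => exact ⟨lw_nil, rfl, opL_nil⟩
  | succ n ih =>
    rw [lp_succ, shift_append]
    refine ⟨ih.1.append (lw_wt ht), ?_, ?_⟩
    · rw [skel_append_of ih.1.1, ih.2.1]
      interval_cases t <;> decide
    · rw [pow_succ', ← ih.2.2, ← opL_wt ht]
      exact opL_append ih.1 (lw_wt ht)

theorem knot_fin [IsNoetherianRing R] (w : List Bool) (hk : IsKnot (true :: w)) {X Y : Sh R}
    (hX : 0 < X.d) (hXY : TorusPair A X Y)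
    (hY : ∀ D ∈ bad true false 0 (true :: w), Y.d ≠ D * X.d) :
    ∃ n k : ℕ, ∀ (Q : Type v) [AddCommGroup Q] [Module R Q] (Φ : Tan A [] →ₗ[R] (ℤ → Q)),
      (∀ y, Cl (cups ++ braid (true :: w) ++ caps) y →
        Φ (cls A [] (ins (0, 1) loop y)) = mer X Q (Φ (cls A [] y)) ∧
        ∀ k', Φ (cls A [] (dblG 0 (· * k') [] y)) = lam A X Y k' Q (Φ (cls A [] y))) →
      (∀ j < n, ∀ i : ℤ, |i| ≤ k → Φ (cls A [] (std (true :: w) j)) i = 0) →
      (∀ x i, Φ x (-i - 2) = -Φ x i) →
      ∀ y, Cl (cups ++ braid (true :: w) ++ caps) y → Φ (cls A [] y) = 0 := by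
  obtain ⟨n, k, H⟩ := truncateU.{v} (rel_LL (A := A)) inter_LL top_LL w hX hXY hY
  refine ⟨n, k, fun Q _ _ Φ h1 h2 h3 y hy => ?_⟩
  set v := true :: w with hv
  let Ψ : Vg A →ₗ[R] (ℤ → Q) :=
    (Φ.comp ((app A [] caps).comp (projS A (cups ++ braid v)))).comp (Vg A).subtype
  have Ψ1 : ∀ z hz, skel [] z = cups ++ braid v → Ψ (gen A z hz) = Φ (cls A [] (z ++ caps)) := by
    intro z hz e
    change Φ (app A [] caps (projS A _ (cls A [] z))) = _
    rw [projS_cls, if_pos e, app_cls]
  have Ψ0 : ∀ z hz, skel [] z ≠ cups ++ braid v → Ψ (gen A z hz) = 0 := by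
    intro z hz e
    change Φ (app A [] caps (projS A _ (cls A [] z))) = _
    rw [projS_cls, if_neg e, map_zero, map_zero]
  have hT : ∀ s x, Ψ (TV A s x) = mer X Q (Ψ x) := by
    intro s x
    refine LinearMap.congr_fun (Vg.ext (f := Ψ.comp (TV A s)) (g := (mer X Q).comp Ψ)
      fun z hz => ?_) x
    simp only [LinearMap.comp_apply, TV_gen]
    have e0 := skel_ins_loop hz.1 (0, lbl s)
    by_cases e : skel [] z = cups ++ braid v
    · rw [Ψ1 _ _ (e0.trans e), Ψ1 _ _ e, ← (h1 _ (cl_caps hz.1 e)).1,
        ← ins_of_noKey (noKey_caps (0, lbl s)) loop, ← ins_append,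
        ins_of_noKey (noKey_caps (0, lbl s)) loop]
      cases s
      · exact congrArg Φ (knot_loop hk (cl_caps hz.1 e))
      · rfl
    · rw [Ψ0 _ _ (e0 ▸ e), Ψ0 _ _ e, map_zero]
  have ha : ∀ x, Ψ (apV A wa lw_a x) = dl A • Ψ x := by
    intro x
    refine LinearMap.congr_fun (Vg.ext (f := Ψ.comp (apV A wa lw_a)) (g := dl A • Ψ)
      fun z hz => ?_) x
    simp only [LinearMap.comp_apply, apV_gen, LinearMap.smul_apply]
    have e0 : skel [] (z ++ wa) = skel [] z := by
      rw [skel_append_of hz.1, show skel c4 wa = [] by decide, List.append_nil]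
    by_cases e : skel [] z = cups ++ braid v
    · rw [Ψ1 _ _ (e0.trans e), Ψ1 _ _ e, ← map_smul, List.append_assoc]
      have := congrArg (pre A z hz.1) (id_cap_a (A := A))
      rw [map_smul, pre_cls, pre_cls] at this
      rw [this]
    · rw [Ψ0 _ _ (e0 ▸ e), Ψ0 _ _ e, smul_zero]
  have hE : ∀ i j x, Ψ (EV A _ ok_al.aw i j x) = lam A X Y (i + j) Q (Ψ x) := by
    intro i j x
    refine LinearMap.congr_fun (Vg.ext (f := Ψ.comp (EV A _ ok_al.aw i j))
      (g := (lam A X Y (i + j) Q).comp Ψ) fun z hz => ?_) x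
    simp only [LinearMap.comp_apply, EV_gen]
    have e0 : skel [] (dblG 0 (tw2 i j) [] z ++ (kal.1 ++ kal.2)) = skel [] z := by
      rw [skel_append_of (hz.run8 _), show skel c8 (kal.1 ++ kal.2) = [] by decide,
        List.append_nil]
      exact skel_dblG hz.1 0 _
    by_cases e : skel [] z = cups ++ braid v
    · rw [Ψ1 _ _ (e0.trans e), Ψ1 _ _ e, ← (h1 _ (cl_caps hz.1 e)).2,
        ← knot_twist hk (cl_caps hz.1 e), dblG_append hz.1, List.append_assoc]
      have := ((id_al_caps (A := A)).pre (hz.run8 (tw2 i j))).eq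
      rw [arcw_zero] at this
      rw [this]
      rfl
    · rw [Ψ0 _ _ (e0 ▸ e), Ψ0 _ _ e, map_zero]
  have hF : Fn A (MM A) (LL A) X Y (hlift Ψ X hT) :=
    hlift_fn Ψ hXY hT (ha := apV_comm wa lw_a) (dif_pos lw_a) (hE := EV_fam _ ok_al.aw)
      (fun _ => dif_pos ok_al.aw) ha hE
  have val : ∀ z (hz : Lw z), skel c4 z = [] → hlift Ψ X hT (sig (sX A) v (opL A z (v0 A))) =
      Φ (cls A [] (cups ++ z ++ braid v ++ caps)) := by
    intro z hz e
    rw [← opL_braid, v0, opL_ig hz, opL_ig (lw_br v), ig, hlift_ι, Ψ1]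
    rw [skel_append_of (good_cups.app hz).1, skel_append_of good_cups.1, e, skel_braid]
    rfl
  have vb : ∀ j, hlift Ψ X hT (sig (sX A) v (((LL A).b ^ j) (v0 A))) = Φ (cls A [] (std v j)) :=
    fun j => by rw [← opL_rep, val _ (lw_rep j) (skel_repb j)]; rfl
  have H1 := H Q (hlift Ψ X hT) hF (fun j hj i hi => by rw [vb]; exact h2 j hj i hi)
    (fun j _ i => by rw [vb]; exact h3 _ i)
  have H2 : ∀ (m j : ℕ) (i : ℤ), hlift Ψ X hT (sig (sX A) v
      (mp (MM A) true i ((tm A ^ m) (((LL A).b ^ j) (v0 A))))) = 0 := by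
    intro m j
    induction m with
    | zero => exact fun i => H1 i j
    | succ m ih =>
      intro i
      rw [pow_succ', Module.End.mul_apply, tm, LinearMap.add_apply, map_add, mp_mp, mp_mp,
        map_add, map_add]
      exact (congrArg₂ (· + ·) (ih _) (ih _)).trans (add_zero _)
  obtain ⟨ν, n1, n2, n3⟩ := Cl.nf (A := A) hy
  have hle : Submodule.span R {z | ∃ k i j : ℕ, z = cls A []
      (cups ++ (List.replicate k wb).flatten ++ shift 2 (lp i) ++ shift 3 (lp j))} ≤
      LinearMap.ker (Φ.comp ((app A [] caps).comp (app A [] (braid v)))) := by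
    rw [Submodule.span_le]
    rintro _ ⟨j, a, b, rfl⟩
    obtain ⟨a1, a2, a3⟩ := lp_facts (A := A) (t := 2) (by norm_num) a
    obtain ⟨b1, b2, b3⟩ := lp_facts (A := A) (t := 3) (by norm_num) b
    have := val _ (((lw_rep j).append a1).append b1) (by
      rw [skel_append_of ((lw_rep j).append a1).1, skel_append_of (lw_rep j).1, skel_repb, a2, b2]
      rfl)
    rw [opL_append ((lw_rep j).append a1) b1, opL_append (lw_rep j) a1, a3, b3, opL_rep,
      ← mul_assoc, ← pow_add, Module.End.mul_apply] at this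
    have h0 := H2 (b + a) j 0
    rw [mp_zero, Module.End.one_apply, this] at h0
    simpa only [SetLike.mem_coe, LinearMap.mem_ker, LinearMap.comp_apply, app_cls,
      List.append_assoc] using h0
  have := hle (span0 n1 n2)
  rw [n3.eq]
  simpa only [LinearMap.mem_ker, LinearMap.comp_apply, app_cls] using this

end Pool.Agent.Lib.MP_5b31c3_gt
end

-- part Pool.Agent.Lib.MP_5b31c3_gt.Final
section

/-
Finite generation of the skein modules of surgeries on two-bridge knots.
-/

namespace Pool.Agent.Lib.MP_5b31c3_gt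

open Kind

universe u

theorem adm_knot (v : List Bool) : Adm 0 (cups ++ braid v ++ caps) := by
  constructor
  · rw [Solo, List.map_append, List.map_append, List.count_append, List.count_append,
      List.count_eq_zero_of_not_mem (noKey_braid _ v)]
    decide
  · intro κ h
    rw [List.map_append, List.map_append, List.mem_append, List.mem_append] at h
    rcases h with (h | h) | h
    · simp only [cups, List.map_cons, List.map_nil, List.mem_cons, cup.injEq, Option.some.injEq,
        List.not_mem_nil, or_false] at h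
      rcases h with rfl | rfl
      · exact Or.inr (Or.inr rfl)
      · exact Or.inr (Or.inl rfl)
    · exact absurd h (noKey_braid _ v)
    · exact absurd h (noKey_caps _)

theorem recol_braid (φ : ℕ → ℤ → ℤ) (v : List Bool) : recol id φ (braid v) = braid v := by
  induction v with
  | nil => rfl
  | cons x v ih =>
    rw [← List.singleton_append, braid_append, recol_append, ih]
    cases x <;> rfl

theorem recol_knot (v : List Bool) (f : ℤ) (l : List ℤ) :
    recol id (fun j g => g * (f :: l).getD j 0)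
      (ins (0, 1) (blk 1 l.length 0) (cups ++ braid v ++ caps)) = surgery v f l := by
  have h := recol_blk (fun j => (f :: l).getD j 0) 1 l (fun i hi => by
    rw [Nat.add_comm]; simp [hi])
  rw [ins_append, ins_append, ins_of_noKey (noKey_braid _ v), ins_of_noKey (noKey_caps _)]
  have e : ins (0, 1) (blk 1 l.length 0) cups =
      (cup (some (0, 1)), 0) :: blk 1 l.length 0 ++ [(cup (some (0, 0)), 1)] := by
    simp [cups, ins]
  rw [e]
  simp only [recol_append, recol_cons, h, recol_braid, surgery]
  simp [Kind.recol, caps]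

variable {R : Type u} [CommRing R]

theorem chain_fin [IsNoetherianRing R] (A : Rˣ) (w : List Bool) (hk : IsKnot (true :: w))
    (f : ℤ) (l : List ℤ) {X Y : Sh R} (hX : 0 < X.d) (hXY : TorusPair A X Y)
    (hY : ∀ D ∈ bad true false 0 (true :: w), Y.d ≠ D * X.d)
    (hm : ∀ (Q : Type u) [AddCommGroup Q] [Module R Q],
      mer (chainPair A f l).1 Q = mer X Q ∧
      ∀ k, lam A (chainPair A f l).1 (chainPair A f l).2 k Q = lam A X Y k Q) :
    ∃ n k : ℕ, ∀ (Q : Type u) [AddCommGroup Q] [Module R Q] (F : Tan A [] →ₗ[R] Q),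
      (∀ i (hi : i < (f :: l).length), Slides A F
        (ins (0, 1) (blk 1 l.length 0) (cups ++ braid (true :: w) ++ caps)) (0 + i) (f :: l)[i]) →
      (∀ j < n, ∀ m ≤ k, F (cls A [] (ins (0, 1) (blk 1 l.length m) (std (true :: w) j))) = 0) →
      ∀ y, Cl (ins (0, 1) (blk 1 l.length 0) (cups ++ braid (true :: w) ++ caps)) y →
        F (cls A [] y) = 0 := by
  obtain ⟨n, k, H⟩ := knot_fin.{u} (A := A) w hk hX hXY hY
  refine ⟨n, k, fun Q _ _ F hF h0 y hy => ?_⟩
  let Φ : Tan A [] →ₗ[R] (ℤ → Q) := (cheb R).comp (LinearMap.pi fun m =>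
    F.comp (insT A (0, 1) (blk 1 l.length m) (run_blk _ _ _ _) []))
  have hΦ : ∀ z, Φ (cls A [] z) =
      cheb R fun m => F (cls A [] (ins (0, 1) (blk (0 + 1) l.length m) z)) := by
    intro z
    change cheb R _ = _
    congr 1
    funext m
    simp only [LinearMap.pi_apply, LinearMap.comp_apply, insT_cls]
  have H1 := H Q Φ (fun y hy => by
      have := stage l 0 f _ (adm_knot _) hF (fun z => Φ (cls A [] z)) hΦ y hy
      rw [(hm Q).1] at this
      simpa only [(hm Q).2] using this)
    (fun j hj i hi => by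
      rw [hΦ]
      exact (Submodule.mem_bot R).mp (cheb_mem _ ⊥ k (fun m hm => h0 j hj m hm) i hi))
    (fun x i => cheb_anti _ i)
  have h2 : Submodule.span R {z | ∃ x, Cl (cups ++ braid (true :: w) ++ caps) x ∧
      z = F (cls A [] (ins (0, 1) (blk (0 + 1) l.length 0) x))} ≤ ⊥ := by
    rw [Submodule.span_le]
    rintro _ ⟨x, hx, rfl⟩
    have := congrFun (H1 x hx) 0
    rw [hΦ, cheb_zero] at this
    exact this
  exact h2 (clear_all l 0 f _ (adm_knot _) hF hy)

theorem finite_of_pair [IsNoetherianRing R] (A : Rˣ) (w : List Bool) (hk : IsKnot (true :: w))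
    (f : ℤ) (l : List ℤ) {X Y : Sh R} (hX : 0 < X.d) (hXY : TorusPair A X Y)
    (hY : ∀ D ∈ bad true false 0 (true :: w), Y.d ≠ D * X.d)
    (hm : ∀ (Q : Type u) [AddCommGroup Q] [Module R Q],
      mer (chainPair A f l).1 Q = mer X Q ∧
      ∀ k, lam A (chainPair A f l).1 (chainPair A f l).2 k Q = lam A X Y k Q) :
    Module.Finite R (Skein A (surgery (true :: w) f l)) := by
  obtain ⟨n, k, H⟩ := chain_fin A w hk f l hX hXY hY hm
  rw [← recol_knot]
  set K := ins (0, 1) (blk 1 l.length 0) (cups ++ braid (true :: w) ++ caps) with hK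
  let fr : ℕ → ℤ := fun j => (f :: l).getD j 0
  let g : Fin n × Fin (k + 1) → Skein A (recol id (fun j f => f * fr j) K) := fun p =>
    prI A fr K (cls A [] (ins (0, 1) (blk 1 l.length p.2) (std (true :: w) p.1)))
  let N := Submodule.span R (Set.range g)
  have H2 := H _ (N.mkQ.comp (prI A fr K)) (fun i hi => by
      have := (prI_slides (A := A) fr K (0 + i)).comp N.mkQ
      rwa [show fr (0 + i) = (f :: l)[i] by
        rw [Nat.zero_add]; exact List.getD_eq_getElem _ _ hi] at this)
    (fun j hj m hm => (Submodule.Quotient.mk_eq_zero N).mpr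
      (Submodule.subset_span ⟨(⟨j, hj⟩, ⟨m, Nat.lt_succ_of_le hm⟩), rfl⟩))
  have hN : N = ⊤ := by
    rw [eq_top_iff, ← prI_span (A := A) fr K, Submodule.span_le]
    rintro _ ⟨y, hy, rfl⟩
    exact (Submodule.Quotient.mk_eq_zero N).mp (H2 y hy)
  exact ⟨hN ▸ Submodule.fg_span (Set.finite_range g)⟩

theorem two_bridge [IsNoetherianRing R] (A : Rˣ) (w : List Bool) (x : Bool)
    (hk : IsKnot (true :: w)) (hx : Oriented (true :: w) x) (a : ℤ) (l : List ℤ)
    (hden : (coeff (a :: l)).2 ≠ 0)
    (hs : ¬BoundarySlope (((frac (true :: w)).1 : ℚ) / (frac (true :: w)).2)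
      (((coeff (a :: l)).1 : ℚ) / (coeff (a :: l)).2)) :
    Module.Finite R (Skein A (surgery (true :: w) (a - writhe (true :: w) (x, !x, true)) l)) := by
  set f := a - writhe (true :: w) (x, !x, true) with hf
  obtain ⟨s, hs1, h1, h2⟩ := chainPair_d A f l
  have e1 : (coeff (f :: l)).2 = (coeff (a :: l)).2 := rfl
  have e2 : (coeff (f :: l)).1 =
      (coeff (a :: l)).1 - writhe (true :: w) (x, !x, true) * (coeff (a :: l)).2 := by
    simp only [coeff, hf]; ring
  have key : ∀ D ∈ bad true false 0 (true :: w),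
      (chainPair A f l).2.d ≠ D * (chainPair A f l).1.d := by
    intro D hD h
    apply hs
    have h3 : (coeff (a :: l)).1 =
        (writhe (true :: w) (x, !x, true) - D) * (coeff (a :: l)).2 := by
      rw [h1, h2, e1, e2] at h
      rcases hs1 with rfl | rfl
      · linear_combination -h
      · linear_combination h
    have h4 : ((coeff (a :: l)).2 : ℚ) ≠ 0 := by exact_mod_cast hden
    rw [h3, Int.cast_mul, mul_div_cancel_right₀ _ h4]
    exact bad_slope w x hx hD
  have hne : (chainPair A f l).1.d ≠ 0 := by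
    rw [h1, e1]
    rcases hs1 with rfl | rfl <;> simpa using hden
  rcases lt_or_gt_of_ne hne with h | h
  · refine finite_of_pair A w hk f l (X := (chainPair A f l).1⁻¹) (Y := (chainPair A f l).2⁻¹)
      (by simpa using h) (chainPair_torus A f l).inv (fun D hD h' => key D hD ?_)
      fun Q _ _ => ⟨(mer_inv _).symm, fun k => (lam_inv _ _ k).symm⟩
    simp only [Sh.inv_d] at h'
    linear_combination -h'
  · exact finite_of_pair A w hk f l h (chainPair_torus A f l) key fun Q _ _ => ⟨rfl, fun _ => rfl⟩

end Pool.Agent.Lib.MP_5b31c3_gt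
end
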