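import Pool.Agent.Lib.MP_5b31c3_gt.Words0

-- part Pool.Agent.Lib.MP_5b31c3_gt.Words
section

/-
Combinatorics of words, second part: doubling, tracking of strands, loops, underpasses.
-/

namespace Pool.Agent.Lib.MP_5b31c3_gt

open Kind

variable {κ κ' : ℕ × ℤ} {B B' u w y z : Word} {c c' cl cr : Config} {n : ℕ} {tw tw' : ℤ → ℤ}

/-! Doubling -/

theorem dcfg_append (n : ℕ) (c d : Config) : dcfg n (c ++ d) = dcfg n c ++ dcfg n d := by
  induction c with
  | nil => rfl
  | cons a c ih => simp only [List.cons_append, dcfg, ih]; split_ifs <;> rfl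

theorem dcfg_length (n : ℕ) (c : Config) :
    (dcfg n c).length = c.length + c.count (some n) := by
  induction c with
  | nil => rfl
  | cons a c ih =>
    simp only [dcfg, List.count_cons, beq_iff_eq]
    split_ifs <;> simp only [List.length_cons, ih] <;> omega

theorem poles_dcfg (n : ℕ) (c : Config) : poles (dcfg n c) = poles c := by
  induction c with
  | nil => rfl
  | cons a c ih =>
    simp only [poles] at ih ⊢
    simp only [dcfg]
    split_ifs <;> simp [List.filter_cons, ih]

theorem np_dcfg (n : ℕ) (c : Config) : np (dcfg n c) = np c := by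
  rw [← poles_length, poles_dcfg, poles_length]

theorem dcfg_of_notMem (h : some n ∉ c) : dcfg n c = c := by
  induction c with
  | nil => rfl
  | cons a c ih =>
    simp only [List.mem_cons, not_or] at h
    simp only [dcfg, if_neg (Ne.symm h.1), ih h.2]

theorem run_turn (a : Option ℕ) (b : Bool) : run [none, a] (turn b) = some [none, a] := rfl

theorem skel_turn (a : Option ℕ) (b : Bool) : skel [none, a] (turn b) = [] := by
  cases a <;> rfl

theorem run_twist (a : Option ℕ) (k : ℤ) : run [none, a] (twist k) = some [none, a] :=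
  run_rep (run_turn a _) _

theorem skel_twist (a : Option ℕ) (k : ℤ) : skel [none, a] (twist k) = [] :=
  skel_rep (run_turn a _) (skel_turn a _) _

theorem noKey_twist (κ : ℕ × ℤ) (k : ℤ) : NoKey κ (twist k) :=
  noKey_of_skel_nil (run_twist none k) (skel_twist none k) κ

theorem run_dcup (κ : ℕ × ℤ) (k : ℤ) :
    run [] (dcup κ k) = some [none, some κ.1, none, some κ.1] := by
  rw [dcup, run_append_of (c' := [none, some κ.1, none, some κ.1]) rfl]
  exact run_right (run_twist (some κ.1) k) [none, some κ.1]

theorem skel_dcup (κ : ℕ × ℤ) (k : ℤ) : skel [] (dcup κ k) = [(cup (some κ), 0)] := by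
  rw [dcup, skel_append_of (c' := [none, some κ.1] ++ [none, some κ.1]) rfl,
    skel_right (run_twist (some κ.1) k), skel_twist]
  rfl

theorem dblG_cons {x : Kind} {i : ℕ} {d : Config} (h : step x i c = some d)
    (n : ℕ) (tw : ℤ → ℤ) (w : Word) :
    dblG n tw c ((x, i) :: w) =
      shift (dcfg n (c.take i)).length (x.dblG n tw (c.drop i)) ++ dblG n tw d w := by
  have : (c.take i).length = i := by
    obtain ⟨cl, c0, c0', cr, rfl, -, rfl, -⟩ := step_decomp h
    simp
  rw [dblG, h, dcfg_length, this]
  rfl

theorem dblG_act_append {x : Kind} {c0 c0' : Config} (h : x.act c0 = some c0')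
    (hl : c0.length = x.inp) (n : ℕ) (tw : ℤ → ℤ) (cr : Config) :
    x.dblG n tw (c0 ++ cr) = x.dblG n tw c0 := by
  rcases core_cases h hl with ⟨k, rfl, rfl, rfl⟩ | ⟨a, rfl, rfl, rfl⟩ | ⟨b, a, a', rfl, rfl, rfl⟩
  · rcases k with _ | ⟨m, f⟩ <;> rfl
  · rfl
  · rfl

theorem dblG_core {x : Kind} {c0 c0' : Config} (h : x.act c0 = some c0')
    (hl : c0.length = x.inp) (n : ℕ) (tw : ℤ → ℤ) (cl cr : Config) (w : Word) :
    dblG n tw (cl ++ c0 ++ cr) ((x, cl.length) :: w) =
      shift (dcfg n cl).length (x.dblG n tw c0) ++ dblG n tw (cl ++ c0' ++ cr) w := by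
  rw [dblG_cons (step_core h cl cr), List.append_assoc, List.take_left', List.drop_left',
    dblG_act_append h hl] <;> rfl

theorem dblG_act {x : Kind} {c0 c0' : Config} (h : x.act c0 = some c0')
    (hl : c0.length = x.inp) (n : ℕ) (tw : ℤ → ℤ) :
    run (dcfg n c0) (x.dblG n tw c0) = some (dcfg n c0') ∧
      skel (dcfg n c0) (x.dblG n tw c0) = if x.surg c0 then [(x, 0)] else [] := by
  rcases core_cases h hl with ⟨k, rfl, rfl, rfl⟩ | ⟨a, rfl, rfl, rfl⟩ | ⟨b, a, a', rfl, rfl, rfl⟩
  · rcases k with _ | ⟨m, f⟩
    · exact ⟨rfl, rfl⟩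
    · by_cases hm : m = n
      · subst hm
        simp [Kind.dblG, dcfg, run_dcup, skel_dcup, Kind.surg]
      · simp [Kind.dblG, dcfg, hm, run, step, Kind.act, skel, Kind.surg]
  · by_cases ha : a = some n
    · subst ha
      simp [Kind.dblG, dcfg, dcap, run, step, Kind.act, skel, Kind.surg]
    · simp [Kind.dblG, dcfg, ha, run, step, Kind.act, skel, Kind.surg]
  · by_cases ha : a = some n <;> by_cases ha' : a' = some n <;>
      simp [Kind.dblG, dcfg, ha, ha', run, step, Kind.act, skel, Kind.surg]

theorem dblG_append (h : run c u = some c') (n : ℕ) (tw : ℤ → ℤ) (w : Word) :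
    dblG n tw c (u ++ w) = dblG n tw c u ++ dblG n tw c' w := by
  induction u generalizing c with
  | nil => obtain rfl := Option.some.inj h; rfl
  | cons x u ih =>
    obtain ⟨x, i⟩ := x
    obtain ⟨d, hd, hu⟩ := run_cons_some h
    rw [List.cons_append, dblG_cons hd, dblG_cons hd, ih hu, List.append_assoc]

theorem run_dblG (h : run c w = some c') (n : ℕ) (tw : ℤ → ℤ) :
    run (dcfg n c) (dblG n tw c w) = some (dcfg n c') := by
  induction w generalizing c with
  | nil => obtain rfl := Option.some.inj h; rfl
  | cons x w ih =>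
    obtain ⟨x, i⟩ := x
    obtain ⟨d, hd, hw⟩ := run_cons_some h
    obtain ⟨cl, c0, c0', cr, rfl, rfl, rfl, h1, -, h0⟩ := step_decomp hd
    rw [dblG_core h0 h1, dcfg_append, dcfg_append,
      run_append_of (run_whisk (dblG_act h0 h1 n tw).1 _ _), ← dcfg_append, ← dcfg_append]
    exact ih hw

theorem skel_dblG (h : run c w = some c') (n : ℕ) (tw : ℤ → ℤ) :
    skel (dcfg n c) (dblG n tw c w) = skel c w := by
  induction w generalizing c with
  | nil => rfl
  | cons x w ih =>
    obtain ⟨x, i⟩ := x
    obtain ⟨d, hd, hw⟩ := run_cons_some h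
    rw [skel_cons_of hd]
    obtain ⟨cl, c0, c0', cr, rfl, rfl, rfl, h1, -, h0⟩ := step_decomp hd
    rw [dblG_core h0 h1, dcfg_append, dcfg_append,
      skel_append_of (run_whisk (dblG_act h0 h1 n tw).1 _ _), skel_whisk (dblG_act h0 h1 n tw).1,
      (dblG_act h0 h1 n tw).2, ← dcfg_append, ← dcfg_append, ih hw, skl_core h0, np_dcfg]
    split_ifs <;> simp

theorem dblG_whisk (h : run c w = some c') (n : ℕ) (tw : ℤ → ℤ) (cl cr : Config) :
    dblG n tw (cl ++ c ++ cr) (shift cl.length w) =
      shift (dcfg n cl).length (dblG n tw c w) := by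
  induction w generalizing c with
  | nil => rfl
  | cons x w ih =>
    obtain ⟨x, i⟩ := x
    obtain ⟨d, hd, hw⟩ := run_cons_some h
    have ih' := ih hw
    obtain ⟨dl, c0, c0', dr, rfl, rfl, rfl, h1, -, h0⟩ := step_decomp hd
    have := dblG_core h0 h1 n tw (cl ++ dl) (dr ++ cr) (shift cl.length w)
    rw [dblG_core h0 h1, shift_append, shift_shift, ← ih']
    simpa [dcfg_append, Nat.add_comm] using this

theorem dblG_congr (h : ∀ f, cup (some (n, f)) ∈ w.map Prod.fst → tw f = tw' f) (c : Config) :
    dblG n tw c w = dblG n tw' c w := by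
  induction w generalizing c with
  | nil => rfl
  | cons x w ih =>
    obtain ⟨x, i⟩ := x
    rw [dblG, dblG, ih fun f hf => h f (List.mem_cons_of_mem _ hf)]
    congr 2
    rcases x with (_ | ⟨m, f⟩) | _ | b
    · rfl
    · simp only [Kind.dblG]
      split_ifs with hm
      · subst hm; rw [h f (by simp)]
      · rfl
    · cases c.drop i <;> rfl
    · rcases c.drop i with _ | ⟨a, _ | ⟨a', d⟩⟩ <;> rfl

theorem notMem_step {x : Kind} {i : ℕ} (hc : some n ∉ c) (hx : ∀ f, x ≠ cup (some (n, f)))
    (h : step x i c = some c') : some n ∉ c' := by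
  obtain ⟨cl, c0, c0', cr, rfl, rfl, rfl, h1, -, h0⟩ := step_decomp h
  rcases core_cases h0 h1 with ⟨k, rfl, rfl, rfl⟩ | ⟨a, rfl, rfl, rfl⟩ | ⟨b, a, a', rfl, rfl, rfl⟩
  · have : some n ≠ k.map Prod.fst := by
      rcases k with _ | ⟨m, f⟩
      · simp
      · rintro ⟨rfl⟩; exact hx f rfl
    simpa [this] using hc
  · simp only [List.mem_append] at hc ⊢; tauto
  · simp only [List.mem_append, List.mem_cons] at hc ⊢; tauto

theorem noCol_cons {x : Kind} {i : ℕ} (h : NoCol n ((x, i) :: w)) :
    (∀ f, x ≠ cup (some (n, f))) ∧ NoCol n w :=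
  ⟨fun f => (noKey_cons.1 (h f)).1, fun f => (noKey_cons.1 (h f)).2⟩

theorem notMem_run (hc : some n ∉ c) (hw : NoCol n w) (h : run c w = some c') :
    some n ∉ c' := by
  induction w generalizing c with
  | nil => obtain rfl := Option.some.inj h; exact hc
  | cons x w ih =>
    obtain ⟨x, i⟩ := x
    obtain ⟨d, hd, hw'⟩ := run_cons_some h
    exact ih (notMem_step hc (noCol_cons hw).1 hd) (noCol_cons hw).2 hw'

theorem dblG_of_noCol (hc : some n ∉ c) (hw : NoCol n w) (h : run c w = some c')
    (tw : ℤ → ℤ) : dblG n tw c w = w := by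
  induction w generalizing c with
  | nil => rfl
  | cons x w ih =>
    obtain ⟨x, i⟩ := x
    obtain ⟨d, hd, hw'⟩ := run_cons_some h
    have ih' := ih (notMem_step hc (noCol_cons hw).1 hd) (noCol_cons hw).2 hw'
    have hx := (noCol_cons hw).1
    obtain ⟨cl, c0, c0', cr, rfl, rfl, rfl, h1, -, h0⟩ := step_decomp hd
    simp only [List.mem_append, not_or] at hc
    have : x.dblG n tw c0 = [(x, 0)] := by
      have h2 := hc.1.2
      rcases core_cases h0 h1 with ⟨k, rfl, rfl, rfl⟩ | ⟨a, rfl, rfl, rfl⟩ |
        ⟨b, a, a', rfl, rfl, rfl⟩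
      · rcases k with _ | ⟨m, f⟩
        · rfl
        · exact if_neg fun hm => hx f (by rw [hm])
      · exact if_neg fun ha => h2 (by simp [ha])
      · simp only [List.mem_cons, not_or] at h2
        simp only [Kind.dblG, if_neg (Ne.symm h2.1), if_neg (Ne.symm h2.2.1)]
    rw [dblG_core h0 h1, ih', dcfg_of_notMem hc.1.1, this]
    simp

theorem count_dblG_act (n : ℕ) (tw : ℤ → ℤ) (x : Kind) (d : Config) (κ : ℕ × ℤ) :
    ((x.dblG n tw d).map Prod.fst).count (cup (some κ)) = [x].count (cup (some κ)) := by
  rcases x with (_ | ⟨m, f⟩) | _ | b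
  · rfl
  · simp only [Kind.dblG]
    split_ifs
    · simp [dcup, List.count_cons, List.count_eq_zero.2 (noKey_twist κ _)]
    · rfl
  · rcases d with _ | ⟨a, d⟩
    · rfl
    · simp only [Kind.dblG]
      split_ifs <;> simp [dcap]
  · rcases d with _ | ⟨a, _ | ⟨a', d⟩⟩
    · rfl
    · rfl
    · simp only [Kind.dblG]
      split_ifs <;> simp

theorem count_dblG (n : ℕ) (tw : ℤ → ℤ) (c : Config) (w : Word) (κ : ℕ × ℤ) :
    ((dblG n tw c w).map Prod.fst).count (cup (some κ)) =
      (w.map Prod.fst).count (cup (some κ)) := by
  induction w generalizing c with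
  | nil => rfl
  | cons x w ih =>
    obtain ⟨x, i⟩ := x
    rw [dblG, List.map_append, List.count_append, ih, map_fst_shift, count_dblG_act,
      ← List.count_append]
    rfl

theorem noKey_dblG (n : ℕ) (tw : ℤ → ℤ) (c : Config) : NoKey κ (dblG n tw c w) ↔ NoKey κ w := by
  simp only [NoKey, ← List.count_eq_zero, count_dblG]

theorem dblG_ins (hκ : κ.1 ≠ n) (hB : run [some κ.1] B = some [some κ.1]) (hn : NoCol n B)
    (h : run c w = some c') (tw : ℤ → ℤ) :
    dblG n tw c (ins κ B w) = ins κ B (dblG n tw c w) := by
  induction w generalizing c with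
  | nil => rfl
  | cons x w ih =>
    obtain ⟨x, i⟩ := x
    obtain ⟨d, hd, hw⟩ := run_cons_some h
    by_cases hx : x = cup (some κ)
    · subst hx
      rw [ins_cons_key, dblG_cons hd, dblG_cons hd]
      obtain ⟨cl, cr, rfl, rfl, rfl⟩ := step_key hd
      have e : ∀ d, (cup (some κ)).dblG n tw d = [(cup (some κ), 0)] := fun d => if_neg hκ
      rw [dblG_append (run_whisk hB _ _), dblG_whisk hB, ih hw, e,
        dblG_of_noCol (by simpa using hκ.symm) hn hB]
      simp [ins_cons_key]
    · rw [ins_cons_ne hx, dblG_cons hd, dblG_cons hd, ih hw, ins_append,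
        ins_of_noKey (w := shift _ _)]
      rw [noKey_shift, NoKey, ← List.count_eq_zero, count_dblG_act]
      simp [hx]

theorem rec'_id (c : Config) : rec' id c = c := by simp [rec']

theorem step_recol_id (φ : ℕ → ℤ → ℤ) (x : Kind) (i : ℕ) (c : Config) :
    step (x.recol id φ) i c = step x i c := by
  induction i generalizing c with
  | zero => rcases x with (_ | ⟨m, f⟩) | _ | b <;> rfl
  | succ i ih => cases c <;> simp [step, ih]

theorem recol_twist (ρ : ℕ → ℕ) (φ : ℕ → ℤ → ℤ) (k : ℤ) : recol ρ φ (twist k) = twist k :=
  recol_rep rfl _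

theorem dbl_recol (fr : ℕ → ℤ) (n : ℕ) (c : Config) (w : Word) :
    dbl n c (recol id (fun j f => f * fr j) w) =
      recol id (fun j f => f * fr j) (dblG n (· * fr n) c w) := by
  induction w generalizing c with
  | nil => rfl
  | cons x w ih =>
    obtain ⟨x, i⟩ := x
    rw [recol_cons, dbl, dblG, step_recol_id, ih, recol_append, recol_shift]
    congr 2
    rcases x with (_ | ⟨m, f⟩) | _ | b
    · rfl
    · simp only [Kind.dblG, Kind.recol, Option.map_some, id, Kind.dbl]
      split_ifs with hm
      · subst hm; rw [dcup, recol_append, recol_twist]; rfl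
      · rfl
    · rcases c.drop i with _ | ⟨a, d⟩
      · rfl
      · simp only [Kind.dblG, Kind.recol, Kind.dbl]
        split_ifs <;> rfl
    · rcases c.drop i with _ | ⟨a, _ | ⟨a', d⟩⟩
      · rfl
      · rfl
      · simp only [Kind.dblG, Kind.recol, Kind.dbl]
        split_ifs <;> rfl

/-! Tracking -/

theorem trk_cons (x : Kind) (i : ℕ) (w : Word) (t : ℕ) :
    trk ((x, i) :: w) t = (x.trk i t).bind (trk w) := rfl

theorem trk_append (u w : Word) (t : ℕ) : trk (u ++ w) t = (trk u t).bind (trk w) := by
  induction u generalizing t with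
  | nil => rfl
  | cons x u ih =>
    obtain ⟨x, i⟩ := x
    rw [List.cons_append, trk_cons, trk_cons]
    cases x.trk i t with
    | none => rfl
    | some s => exact ih s

theorem lt_or_add (a t : ℕ) : t < a ∨ t = a ∨ t = a + 1 ∨ ∃ s, t = a + (s + 2) := by
  by_cases h : t < a + 2
  · omega
  · exact Or.inr (Or.inr (Or.inr ⟨t - a - 2, by omega⟩))

theorem trk_get_step {x : Kind} {i t t' : ℕ} (h : step x i c = some c')
    (ht : x.trk i t = some t') : c'[t']? = (c)[t]? := by
  obtain ⟨cl, c0, c0', cr, rfl, rfl, rfl, h1, -, h0⟩ := step_decomp h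
  rcases core_cases h0 h1 with ⟨k, rfl, rfl, rfl⟩ | ⟨a, rfl, rfl, rfl⟩ | ⟨b, a, a', rfl, rfl, rfl⟩
  · obtain rfl := Option.some.inj ht
    rcases Nat.lt_or_ge t cl.length with h | h
    · simp [h, List.getElem?_append_left]
    · obtain ⟨s, rfl⟩ := Nat.exists_eq_add_of_le h
      simp [List.getElem?_append_right, Nat.add_assoc]
  · simp only [Kind.trk] at ht
    rcases lt_or_add cl.length t with h | rfl | rfl | ⟨s, rfl⟩
    · rw [if_pos h] at ht
      obtain rfl := Option.some.inj ht
      simp [h, List.getElem?_append_left]
    · simp at ht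
    · simp at ht
    · rw [if_neg (by omega), if_neg (by omega)] at ht
      obtain rfl := Option.some.inj ht
      rw [show cl.length + (s + 2) - 2 = cl.length + s from rfl]
      simp [List.getElem?_append_right]
  · obtain rfl := Option.some.inj ht
    rcases lt_or_add cl.length t with h | rfl | rfl | ⟨s, rfl⟩
    · rw [if_neg (by omega), if_neg (by omega)]
      simp [h, List.getElem?_append_left]
    · simp
    · simp
    · simp [List.getElem?_append_right]

theorem trk_get' {t t' : ℕ} (h : run c z = some c') (ht : trk z t = some t') :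
    c'[t']? = (c)[t]? := by
  induction z generalizing c t with
  | nil => obtain rfl := Option.some.inj h; obtain rfl := Option.some.inj ht; rfl
  | cons x w ih =>
    obtain ⟨x, i⟩ := x
    obtain ⟨d, hd, hw⟩ := run_cons_some h
    obtain ⟨s, h1, h2⟩ := Option.bind_eq_some_iff.1 ht
    rw [ih hw h2, trk_get_step hd h1]

theorem trk_get {t t' : ℕ} (h : run c z = some c') (ht : trk z t = some t') (hl : t < c.length) :
    c'[t']? = (c)[t]? :=
  (fun _ => trk_get' h ht) hl

theorem trk_free_step {x : Kind} {i t : ℕ} (h : step x i c = some c') (hs : skl c x i = [])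
    (ht : (c)[t]? = some (some n)) :
    ∃ t', x.trk i t = some t' ∧ np (c'.take t') = np (c.take t) := by
  obtain ⟨cl, c0, c0', cr, rfl, rfl, rfl, h1, -, h0⟩ := step_decomp h
  rw [skl_core h0] at hs
  have hs' : x.surg c0 = false := by simpa using hs
  rcases core_cases h0 h1 with ⟨k, rfl, rfl, rfl⟩ | ⟨a, rfl, rfl, rfl⟩ | ⟨b, a, a', rfl, rfl, rfl⟩
  · obtain rfl : k = none := by simpa [Kind.surg] using hs'
    refine ⟨_, rfl, ?_⟩
    rcases Nat.lt_or_ge t cl.length with h | h
    · simp [h, List.take_append_of_le_length h.le]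
    · obtain ⟨s, rfl⟩ := Nat.exists_eq_add_of_le h
      simp [List.take_append, Nat.add_assoc, List.take_of_length_le]
  · obtain rfl : a = none := by simpa [Kind.surg] using hs'
    rcases lt_or_add cl.length t with h | rfl | rfl | ⟨s, rfl⟩
    · exact ⟨t, if_pos h, by simp [List.take_append_of_le_length h.le]⟩
    · simp at ht
    · simp at ht
    · refine ⟨cl.length + s, ?_, ?_⟩
      · simp only [Kind.trk]
        rw [if_neg (by omega), if_neg (by omega)]; rfl
      · simp [List.take_append, List.take_of_length_le]
  · refine ⟨_, rfl, ?_⟩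
    rcases lt_or_add cl.length t with h | rfl | rfl | ⟨s, rfl⟩
    · rw [if_neg (by omega), if_neg (by omega)]
      simp [List.take_append_of_le_length h.le]
    · obtain rfl : a = some n := by simpa using ht
      obtain rfl : a' = none := by simpa [Kind.surg] using hs'
      simp [List.take_append, List.take_of_length_le]
    · obtain rfl : a' = some n := by simpa [List.getElem?_append_right] using ht
      obtain rfl : a = none := by simpa [Kind.surg] using hs'
      simp [List.take_append, List.take_of_length_le]
    · cases a <;> cases a' <;> simp [List.take_append, List.take_of_length_le]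

theorem trk_free {t : ℕ} (h : run c z = some c') (hs : skel c z = [])
    (ht : (c)[t]? = some (some n)) :
    ∃ t', trk z t = some t' ∧ c'[t']? = some (some n) ∧ np (c'.take t') = np (c.take t) := by
  induction z generalizing c t with
  | nil => obtain rfl := Option.some.inj h; exact ⟨t, rfl, ht, rfl⟩
  | cons x w ih =>
    obtain ⟨x, i⟩ := x
    obtain ⟨d, hd, hw⟩ := run_cons_some h
    rw [skel_cons_of hd, List.append_eq_nil_iff] at hs
    obtain ⟨s, h1, h2⟩ := trk_free_step hd hs.1 ht
    obtain ⟨t', a1, a2, a3⟩ := ih hw hs.2 ((trk_get_step hd h1).trans ht)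
    exact ⟨t', by rw [trk_cons, h1]; exact a1, a2, a3.trans h2⟩

theorem trk_c4 {t : ℕ} (h : run c4 z = some c4) (hs : skel c4 z = []) (ht : t < 4) :
    trk z t = some t := by
  obtain ⟨t', a1, a2, a3⟩ := trk_free (n := 0) (t := t) h hs (by interval_cases t <;> rfl)
  have h4 : t' < 4 := (List.getElem?_eq_some_iff.1 a2).1
  have e : ∀ s < 4, np (c4.take s) = s := by decide
  rw [a1, ← e t ht, ← a3, e t' h4]

theorem braid_true (v : List Bool) : braid (true :: v) = (Kind.cr true, 2) :: braid v := rfl

theorem braid_false (v : List Bool) : braid (false :: v) = (Kind.cr false, 1) :: braid v := rfl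

theorem trk_braid (v : List Bool) {t : ℕ} (ht : t < 4) :
    ∃ s, s < 4 ∧ trk (braid v) s = some t := by
  induction v with
  | nil => exact ⟨t, ht, rfl⟩
  | cons b v ih =>
    obtain ⟨s, hs, h⟩ := ih
    cases b
    · interval_cases s
      exacts [⟨0, by omega, h⟩, ⟨2, by omega, h⟩, ⟨1, by omega, h⟩, ⟨3, by omega, h⟩]
    · interval_cases s
      exacts [⟨0, by omega, h⟩, ⟨1, by omega, h⟩, ⟨3, by omega, h⟩, ⟨2, by omega, h⟩]

theorem trk_braid_zero (v : List Bool) : trk (braid v) 0 = some 0 := by
  induction v with
  | nil => rfl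
  | cons b v ih => cases b <;> exact ih

theorem trk_braid_perm {α : Type} (v : List Bool) (x y z : α) :
    (trk (braid v) 1 = some 3 ∧ (perm v (x, y, z)).2.2 = x) ∨
    (trk (braid v) 2 = some 3 ∧ (perm v (x, y, z)).2.2 = y) ∨
    (trk (braid v) 3 = some 3 ∧ (perm v (x, y, z)).2.2 = z) := by
  induction v generalizing x y z with
  | nil => exact Or.inr (Or.inr ⟨rfl, rfl⟩)
  | cons b v ih =>
    cases b
    · rcases ih y x z with h | h | h
      exacts [Or.inr (Or.inl h), Or.inl h, Or.inr (Or.inr h)]
    · rcases ih x z y with h | h | h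
      exacts [Or.inl h, Or.inr (Or.inr h), Or.inr (Or.inl h)]

theorem trk_braid_knot {v : List Bool} (h : IsKnot v) :
    trk (braid v) 1 = some 3 ∨ trk (braid v) 2 = some 3 := by
  rcases trk_braid_perm v false false true with h' | h' | h'
  · exact Or.inl h'.1
  · exact Or.inr h'.1
  · exact absurd (h'.2.symm.trans h) (by simp)

theorem run_braid (v : List Bool) : run c4 (braid v) = some c4 := by
  induction v with
  | nil => rfl
  | cons b v ih => cases b <;> exact ih

theorem skel_braid (v : List Bool) : skel c4 (braid v) = braid v := by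
  induction v with
  | nil => rfl
  | cons b v ih =>
    cases b
    · rw [braid_false, skel_cons_of (c' := c4) rfl, ih]; rfl
    · rw [braid_true, skel_cons_of (c' := c4) rfl, ih]; rfl

theorem braid_append (v v' : List Bool) : braid (v ++ v') = braid v ++ braid v' :=
  List.map_append

theorem noKey_braid (κ : ℕ × ℤ) (v : List Bool) : NoKey κ (braid v) := by
  induction v with
  | nil => exact noKey_nil κ
  | cons b v ih => cases b <;> exact noKey_cons.2 ⟨by simp, ih⟩

/-! Loops and chains -/

theorem run_loop (a : Option ℕ) : run [a] loop = some [a] := rfl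

theorem skel_loop (a : Option ℕ) : skel [a] loop = [] := by cases a <;> rfl

theorem loopn_aux (c : Config) :
    run c ((cup none, 0) :: shift 1 (pass true c.length)) = some (none :: (c ++ [none])) ∧
    step cap c.length (c ++ [none, none] ++ []) = some (c ++ [] ++ []) :=
  ⟨(run_cons_of (c' := none :: none :: c) rfl _).trans (run_one (run_pass true none c) none),
    step_core (x := cap) (c0 := [none, none]) rfl c []⟩

theorem run_loopn (c : Config) : run c (loopn c.length) = some c := by
  obtain ⟨h1, h2⟩ := loopn_aux c
  rw [loopn, List.append_assoc, run_append_of h1, run_append_of (run_pass' false none c [none]),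
    run_single]
  simpa using h2

theorem skel_loopn (c : Config) : skel c (loopn c.length) = [] := by
  obtain ⟨h1, h2⟩ := loopn_aux c
  have h3 := skel_right (run_pass false none c) [none]
  have h4 := skl_core (x := cap) (c0 := [none, none]) rfl c []
  simp only [List.append_nil] at h2 h4
  rw [loopn, List.append_assoc, skel_append_of h1, skel_append_of (run_pass' false none c [none]),
    skel_cons_of (c' := none :: none :: c) rfl, skel_one (run_pass true none c), skel_pass,
    skel_cons_of h2, h4, ← List.cons_append, h3, skel_pass]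
  rfl

theorem lp_succ (m : ℕ) : lp (m + 1) = lp m ++ loop := by
  simp [lp, List.replicate_succ']

theorem run_lp (a : Option ℕ) (m : ℕ) : run [a] (lp m) = some [a] := run_rep (run_loop a) m

theorem skel_lp (a : Option ℕ) (m : ℕ) : skel [a] (lp m) = [] :=
  skel_rep (run_loop a) (skel_loop a) m

theorem noKey_lp (κ : ℕ × ℤ) (m : ℕ) : NoKey κ (lp m) :=
  noKey_of_skel_nil (run_lp none m) (skel_lp none m) κ

theorem blk_succ' (n r m : ℕ) :
    blk n (r + 1) m = (cup (some (n, 1)), 0) :: (blk (n + 1) r m ++ bottom) := rfl

theorem run_blk (a : Option ℕ) (n r m : ℕ) : run [a] (blk n r m) = some [a] := by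
  induction r generalizing a n with
  | zero => exact run_lp a m
  | succ r ih =>
    rw [blk_succ', run_cons_of (c' := [some n] ++ [some n, a]) rfl,
      run_append_of (run_right (ih (some n) (n + 1)) _)]
    simp [bottom, run, step, Kind.act]

theorem skel_blk (p n r m : ℕ) : skel [some p] (blk n r m) = blk n r 0 := by
  induction r generalizing p n with
  | zero => exact skel_lp _ m
  | succ r ih =>
    rw [blk_succ', blk_succ', skel_cons_of (c' := [some n] ++ [some n, some p]) rfl,
      skel_append_of (run_right (run_blk (some n) (n + 1) r m) _),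
      skel_right (run_blk (some n) (n + 1) r m), ih]
    rfl

theorem noKey_blk (h : κ.1 < n) (r m : ℕ) : NoKey κ (blk n r m) := by
  induction r generalizing n with
  | zero => exact noKey_lp κ m
  | succ r ih =>
    refine noKey_cons.2 ⟨?_, noKey_append.2 ⟨ih (by omega), by simp [NoKey, bottom]⟩⟩
    rintro ⟨rfl⟩
    exact lt_irrefl _ h

theorem blk_succ (n r m : ℕ) :
    blk n (r + 1) m = ins (n, 1) (blk (n + 1) r m) (circle n) := by
  rw [circle, ins_cons_key, ins_of_noKey (w := bottom) (by simp [NoKey, bottom]), shift_zero]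
  rfl

theorem recol_blk (fr : ℕ → ℤ) (n : ℕ) (l : List ℤ)
    (h : ∀ i (hi : i < l.length), fr (n + i) = l[i]) :
    recol id (fun j f => f * fr j) (blk n l.length 0) = chain n l := by
  induction l generalizing n with
  | nil => rfl
  | cons a l ih =>
    have h0 : fr n = a := h 0 (by simp)
    rw [List.length_cons, blk_succ', recol_cons, recol_append, ih (n + 1) fun i hi => by
      rw [Nat.add_assoc, Nat.add_comm 1 i]; exact h (i + 1) (by simpa using hi)]
    simp [chain, Kind.recol, h0, bottom]

/-! Underpasses -/

theorem und_cons (P : ℕ → Bool) {x : Kind} {i : ℕ} (h : step x i c = some c') (w : Word) :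
    und P c ((x, i) :: w) =
      (if x.under (c.drop i) && P (np (c.take i)) then 1 else 0) + und P c' w := by
  rw [und, h]; rfl

theorem und_append (P : ℕ → Bool) (h : run c u = some c') (w : Word) :
    und P c (u ++ w) = und P c u + und P c' w := by
  induction u generalizing c with
  | nil => obtain rfl := Option.some.inj h; simp [und]
  | cons x u ih =>
    obtain ⟨x, i⟩ := x
    obtain ⟨d, hd, hu⟩ := run_cons_some h
    rw [List.cons_append, und_cons P hd, und_cons P hd, ih hu, Nat.add_assoc]

theorem under_append {x : Kind} {c0 c0' : Config} (h : x.act c0 = some c0')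
    (hl : c0.length = x.inp) (cr : Config) : x.under (c0 ++ cr) = x.under c0 := by
  rcases core_cases h hl with ⟨k, rfl, rfl, rfl⟩ | ⟨a, rfl, rfl, rfl⟩ | ⟨b, a, a', rfl, rfl, rfl⟩
  · rfl
  · rfl
  · cases a <;> cases a' <;> cases b <;> rfl

theorem und_core (P : ℕ → Bool) {x : Kind} {c0 c0' : Config} (h : x.act c0 = some c0')
    (hl : c0.length = x.inp) (cl cr : Config) (w : Word) :
    und P (cl ++ c0 ++ cr) ((x, cl.length) :: w) =
      (if x.under c0 && P (np cl) then 1 else 0) + und P (cl ++ c0' ++ cr) w := by
  rw [und_cons P (step_core h cl cr), List.append_assoc, List.take_left', List.drop_left',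
    under_append h hl] <;> rfl

theorem und_whisk (P : ℕ → Bool) (h : run c w = some c') (cl cr : Config) :
    und P (cl ++ c ++ cr) (shift cl.length w) = und (fun j => P (j + np cl)) c w := by
  induction w generalizing c with
  | nil => rfl
  | cons x w ih =>
    obtain ⟨x, i⟩ := x
    obtain ⟨d, hd, hw⟩ := run_cons_some h
    have ih' := ih hw
    obtain ⟨dl, c0, c0', dr, rfl, rfl, rfl, h1, -, h0⟩ := step_decomp hd
    have := und_core P h0 h1 (cl ++ dl) (dr ++ cr) (shift cl.length w)
    rw [und_core _ h0 h1, ← ih']
    simpa [Nat.add_comm] using this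

theorem und_dblG_act (P : ℕ → Bool) {x : Kind} {c0 c0' : Config} (h : x.act c0 = some c0')
    (hl : c0.length = x.inp) (hs : x.surg c0 = false) (n : ℕ) (tw : ℤ → ℤ) :
    und P (dcfg n c0) (x.dblG n tw c0) = if x.under c0 && P 0 then 1 else 0 := by
  rcases core_cases h hl with ⟨k, rfl, rfl, rfl⟩ | ⟨a, rfl, rfl, rfl⟩ | ⟨b, a, a', rfl, rfl, rfl⟩
  · obtain rfl : k = none := by simpa [Kind.surg] using hs
    rfl
  · obtain rfl : a = none := by simpa [Kind.surg] using hs
    rfl
  · rcases a with _ | m <;> rcases a' with _ | m'
    · cases b <;> rfl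
    · by_cases hm : m' = n <;> cases b <;>
        simp [Kind.dblG, dcfg, hm, und, step, Kind.act, Kind.under]
    · by_cases hm : m = n <;> cases b <;>
        simp [Kind.dblG, dcfg, hm, und, step, Kind.act, Kind.under]
    · simp [Kind.surg] at hs

theorem und_dblG' (P : ℕ → Bool) (h : run c w = some c') (hs : skel c w = []) (n : ℕ)
    (tw : ℤ → ℤ) : und P (dcfg n c) (dblG n tw c w) = und P c w := by
  induction w generalizing c with
  | nil => rfl
  | cons x w ih =>
    obtain ⟨x, i⟩ := x
    obtain ⟨d, hd, hw⟩ := run_cons_some h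
    rw [skel_cons_of hd, List.append_eq_nil_iff] at hs
    have ih' := ih hw hs.2
    obtain ⟨cl, c0, c0', cr, rfl, rfl, rfl, h1, -, h0⟩ := step_decomp hd
    rw [skl_core h0] at hs
    have hs' : x.surg c0 = false := by simpa using hs.1
    rw [dblG_core h0 h1, und_core P h0 h1, ← ih', dcfg_append, dcfg_append,
      und_append P (run_whisk (dblG_act h0 h1 n tw).1 _ _), und_whisk P (dblG_act h0 h1 n tw).1,
      und_dblG_act _ h0 h1 hs', ← dcfg_append, ← dcfg_append, np_dcfg, Nat.zero_add]

theorem und_dblG (P : ℕ → Bool) (h : run c w = some c') (hs : skel c w = [])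
    (hP : ∀ j, P j = true → (poles c)[j]? ≠ some (some n)) (tw : ℤ → ℤ) :
    und P (dcfg n c) (dblG n tw c w) = und P c w :=
  (fun _ => und_dblG' P h hs n tw) hP

theorem und_one (P : ℕ → Bool) (h : run c w = some c') (a : Option ℕ) :
    und P (a :: c) (shift 1 w) = und (fun j => P (j + np [a])) c w := by
  simpa using und_whisk P h [a] []

theorem und_pass_true (P : ℕ → Bool) (c : Config) :
    und P (none :: c) (pass true c.length) = 0 := by
  induction c generalizing P with
  | nil => rfl
  | cons d c ih =>
    rw [List.length_cons, pass, und_cons P (c' := d :: none :: c) rfl,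
      und_one P (run_pass true none c), ih]
    rfl

theorem und_back_true (P : ℕ → Bool) (c : Config) :
    und P (c ++ [none]) (back true c.length) = 0 := by
  induction c generalizing P with
  | nil => rfl
  | cons d c ih =>
    rw [List.length_cons, back, List.cons_append,
      und_append P (run_one (run_back true none c) d), und_one P (run_back true none c), ih]
    cases d <;> rfl

end Pool.Agent.Lib.MP_5b31c3_gt
end

-- part Pool.Agent.Lib.MP_5b31c3_gt.Gath
section

/-
Gathered words: typing, counting and blocks on the base.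
-/

namespace Pool.Agent.Lib.MP_5b31c3_gt

open Kind

variable {R : Type*} [CommRing R] {A : Rˣ}

/-- Isotopic words together with their common target. -/
structure GfIs (A : Rˣ) (c : Config) (l r : Word) (d : Config) : Prop where
  iso : Iso A c l r
  run : run c l = some d

namespace GfIs

variable {c d e : Config} {l r s l' r' : Word}

theorem rf (h : Pool.Agent.Lib.MP_5b31c3_gt.run c l = some d) : GfIs A c l l d := ⟨Iso.refl h, h⟩

theorem run' (h : GfIs A c l r d) : Pool.Agent.Lib.MP_5b31c3_gt.run c r = some d :=
  h.iso.run_eq ▸ h.run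

theorem of' (h : Iso A c l r) (hr : Pool.Agent.Lib.MP_5b31c3_gt.run c r = some d) :
    GfIs A c l r d := ⟨h, h.run_eq.trans hr⟩

theorem symm (h : GfIs A c l r d) : GfIs A c r l d := ⟨h.iso.symm, h.run'⟩

theorem trans (h : GfIs A c l r d) (h' : GfIs A c r s e) : GfIs A c l s d := ⟨h.iso.trans h'.iso, h.run⟩

theorem comp (h : GfIs A c l r d) (h' : GfIs A d l' r' e) : GfIs A c (l ++ l') (r ++ r') e :=
  ⟨h.iso.comp h.run h'.iso, by rw [run_append_of h.run]; exact h'.run⟩

theorem pre (h : GfIs A d l' r' e) (hp : Pool.Agent.Lib.MP_5b31c3_gt.run c l = some d) :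
    GfIs A c (l ++ l') (l ++ r') e := (rf hp).comp h

theorem app (h : GfIs A c l r d) (hs : Pool.Agent.Lib.MP_5b31c3_gt.run d s = some e) :
    GfIs A c (l ++ s) (r ++ s) e := h.comp (rf hs)

theorem whisk (h : GfIs A c l r d) (cl cr : Config) :
    GfIs A (cl ++ c ++ cr) (shift cl.length l) (shift cl.length r) (cl ++ d ++ cr) :=
  ⟨h.iso.whisk cl cr, run_whisk h.run cl cr⟩

theorem right (h : GfIs A c l r d) (cr : Config) : GfIs A (c ++ cr) l r (d ++ cr) :=
  ⟨h.iso.right cr, run_right h.run cr⟩

theorem left (h : GfIs A c l r d) (cl : Config) :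
    GfIs A (cl ++ c) (shift cl.length l) (shift cl.length r) (cl ++ d) :=
  ⟨h.iso.left cl, run_left h.run cl⟩

theorem one (h : GfIs A c l r d) (a : Option ℕ) :
    GfIs A (a :: c) (shift 1 l) (shift 1 r) (a :: d) := ⟨h.iso.one a, run_one h.run a⟩

theorem far {x y : Word} {c1 c1' c2 c2' : Config}
    (hx : Pool.Agent.Lib.MP_5b31c3_gt.run c1 x = some c1')
    (hy : Pool.Agent.Lib.MP_5b31c3_gt.run c2 y = some c2') (h : skel c1 x = [] ∨ skel c2 y = []) :
    GfIs A (c1 ++ c2) (x ++ shift c1'.length y) (shift c1.length y ++ x) (c1' ++ c2') :=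
  ⟨far_block hx hy h, by rw [run_append_of (run_right hx c2)]; exact run_left hy c1'⟩

theorem two (b : Bool) (x y : Option ℕ) (h : x = none ∨ y = none) :
    GfIs A [x, y] [(cr b, 0), (cr !b, 0)] [] [x, y] := ⟨(BMove.two b x y h).iso, rfl⟩

theorem pb (c : Config) : GfIs A (none :: c) (pass true c.length ++ back true c.length) []
    (none :: c) := of' (pass_back true c) rfl

theorem bp (c : Config) : GfIs A (c ++ [none]) (back true c.length ++ pass true c.length) []
    (c ++ [none]) := of' (back_pass true c) rfl

theorem npass {w : Word} {c c' : Config} (h : Pool.Agent.Lib.MP_5b31c3_gt.run c w = some c') :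
    GfIs A (none :: c) (pass true c.length ++ w) (shift 1 w ++ pass true c'.length)
      (c' ++ [none]) :=
  ⟨nat_pass true none h (Or.inl rfl), by
    rw [run_append_of (run_pass true none c)]; exact run_right h _⟩

theorem nback {w : Word} {c c' : Config} (h : Pool.Agent.Lib.MP_5b31c3_gt.run c w = some c') :
    GfIs A (c ++ [none]) (w ++ back true c'.length) (back true c.length ++ shift 1 w)
      (none :: c') :=
  ⟨nat_back true h, by rw [run_append_of (run_right h _)]; exact run_back _ _ _⟩

end GfIs

theorem gf_poles_nil : poles [] = [] := rfl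
theorem gf_poles_none (c : Config) : poles (none :: c) = poles c := rfl
theorem gf_poles_some (n : ℕ) (c : Config) : poles (some n :: c) = some n :: poles c := rfl
theorem gf_nl_nil : nl [] = 0 := rfl
theorem gf_nl_none (c : Config) : nl (none :: c) = nl c + 1 := by simp [nl]
theorem gf_nl_some (n : ℕ) (c : Config) : nl (some n :: c) = nl c := by simp [nl]
theorem gf_nn_zero : nn 0 = [] := rfl
theorem gf_nn_succ (m : ℕ) : nn (m + 1) = none :: nn m := rfl
theorem gf_nn_add (m n : ℕ) : nn (m + n) = nn m ++ nn n := List.replicate_add _ _ _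
theorem gf_nn_length (m : ℕ) : (nn m).length = m := List.length_replicate

attribute [local simp] gf_poles_nil gf_poles_none gf_poles_some gf_nl_nil gf_nl_none gf_nl_some
  gf_nn_zero gf_nn_length

theorem gf_skel_pass' (b : Bool) (c d : Config) : skel (none :: (c ++ d)) (pass b c.length) = [] :=
  (skel_right (run_pass b none c) d).trans (skel_pass b c)

theorem gf_skel_back' (b : Bool) (c d : Config) : skel (c ++ none :: d) (back b c.length) = [] := by
  simpa using (skel_right (run_back b none c) d).trans (skel_back b c)

theorem gf_und_one {w : Word} {c c' : Config} (P : ℕ → Bool) (h : run c w = some c')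
    (a : Option ℕ) : und P (a :: c) (shift 1 w) = und (fun j => P (j + np [a])) c w := by
  simpa using und_whisk P h [a] []

theorem gf_und_right {w : Word} {c c' : Config} (P : ℕ → Bool) (h : run c w = some c')
    (d : Config) : und P (c ++ d) w = und P c w := by
  simpa using und_whisk P h [] d

section Gath
variable {c c' base bl b0 b0' br : Config} {g : List Gl} {k m m' i s : ℕ} {z y β : Word}

theorem run_gather (c : Config) : run c (gather c) = some (poles c ++ nn (nl c)) := by
  induction c with
  | nil => rfl
  | cons a c ih =>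
    cases a with
    | some n => simpa [gather] using run_one ih (some n)
    | none =>
      rw [gather, run_append_of (run_one ih none), ← poles_length, run_pass', gf_poles_none, gf_nl_none,
        gf_nn_succ]

theorem skel_gather (c : Config) : skel c (gather c) = [] := by
  induction c with
  | nil => rfl
  | cons a c ih =>
    cases a with
    | some n => rw [gather, skel_one (run_gather c), ih, shift_nil]
    | none =>
      rw [gather, skel_append_of (run_one (run_gather c) none), skel_one (run_gather c), ih,
        ← poles_length c, gf_skel_pass']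
      rfl

theorem run_spread (c : Config) : run (poles c ++ nn (nl c)) (spread c) = some c := by
  induction c with
  | nil => rfl
  | cons a c ih =>
    cases a with
    | some n => simpa [spread] using run_one ih (some n)
    | none =>
      rw [spread, ← poles_length, gf_poles_none, gf_nl_none, gf_nn_succ,
        run_append_of (run_back' _ _ _ _)]
      exact run_one ih none

theorem skel_spread (c : Config) : skel (poles c ++ nn (nl c)) (spread c) = [] := by
  induction c with
  | nil => rfl
  | cons a c ih =>
    cases a with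
    | some n =>
      rw [spread, gf_poles_some, gf_nl_some, List.cons_append, skel_one (run_spread c), ih, shift_nil]
    | none =>
      rw [spread, ← poles_length, gf_poles_none, gf_nl_none, gf_nn_succ,
        skel_append_of (run_back' _ _ _ _), gf_skel_back', skel_one (run_spread c), ih]
      rfl

theorem gather_spread (c : Config) : Iso A c (gather c ++ spread c) [] := by
  induction c with
  | nil => exact Iso.refl rfl
  | cons a c ih =>
    cases a with
    | some n => simpa [gather, spread] using ih.one (some n)
    | none =>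
      have h1 := (((GfIs.pb (A := A) (poles c)).right (nn (nl c))).pre
        (run_one (run_gather c) none)).app (run_one (run_spread c) none)
      have h2 := ih.one none
      simp only [poles_length, List.append_nil, shift_append, shift_nil, List.append_assoc] at h1 h2
      simpa [gather, spread] using h1.iso.trans h2

theorem spread_gather (c : Config) :
    Iso A (poles c ++ nn (nl c)) (spread c ++ gather c) [] := by
  induction c with
  | nil => exact Iso.refl rfl
  | cons a c ih =>
    cases a with
    | some n => simpa [gather, spread] using ih.one (some n)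
    | none =>
      have h1 := (((GfIs.of' ih rfl).one none).pre (run_back' true none (poles c) _)).app
        (run_pass' true none (poles c) _)
      have h2 := (GfIs.bp (A := A) (poles c)).right (nn (nl c))
      simp only [poles_length, List.append_nil, shift_append, shift_nil, List.append_assoc,
        List.singleton_append] at h1 h2
      simpa [gather, spread, gf_nn_succ] using (h1.trans h2).iso

theorem und_gather (P : ℕ → Bool) (c : Config) : und P c (gather c) = 0 := by
  induction c generalizing P with
  | nil => rfl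
  | cons a c ih =>
    cases a with
    | some n => rw [gather, gf_und_one P (run_gather c), ih]
    | none =>
      rw [gather, und_append P (run_one (run_gather c) none), gf_und_one P (run_gather c), ih,
        ← poles_length, ← List.cons_append, gf_und_right P (run_pass _ _ _), und_pass_true]

theorem und_spread (P : ℕ → Bool) (c : Config) :
    und P (poles c ++ nn (nl c)) (spread c) = 0 := by
  induction c generalizing P with
  | nil => rfl
  | cons a c ih =>
    cases a with
    | some n =>
      rw [spread, gf_poles_some, gf_nl_some, List.cons_append, gf_und_one P (run_spread c), ih]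
    | none =>
      rw [spread, ← poles_length, gf_poles_none, gf_nl_none, gf_nn_succ,
        und_append P (run_back' _ _ _ _), gf_und_one P (run_spread c), ih, ← List.singleton_append,
        ← List.append_assoc, gf_und_right P (run_back _ _ _), und_back_true]

theorem interp_append (k : ℕ) (g g' : List Gl) :
    interp k (g ++ g') = interp k g ++ interp k g' := by
  induction g with
  | nil => rfl
  | cons x g ih => simp [interp, ih]

theorem runG_append (k m : ℕ) (g g' : List Gl) :
    runG k m (g ++ g') = (runG k m g).bind fun m' => runG k m' g' := by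
  induction g generalizing m with
  | nil => rfl
  | cons x g ih =>
    simp only [List.cons_append, runG]
    cases x.ty k m with
    | none => rfl
    | some m1 => simp [ih]

theorem cntH_append (P : ℕ → Bool) (g g' : List Gl) :
    cntH P (g ++ g') = cntH P g + cntH P g' := by
  induction g with
  | nil => simp [cntH]
  | cons x g ih => cases x <;> simp [cntH, ih, Nat.add_assoc]

theorem gf_runG_cons_some {x : Gl} (h : runG k m (x :: g) = some m') :
    ∃ m1, x.ty k m = some m1 ∧ runG k m1 g = some m' := Option.bind_eq_some_iff.mp h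

theorem gf_runG_cons_of {x : Gl} {m1 : ℕ} (h : x.ty k m = some m1) (g : List Gl) :
    runG k m (x :: g) = runG k m1 g := by simp [runG, h]

theorem gf_runG_app {g' : List Gl} {m'' : ℕ} (h : runG k m g = some m')
    (h' : runG k m' g' = some m'') : runG k m (g ++ g') = some m'' := by
  rw [runG_append, h]; exact h'

/-- A letter among the link strands. -/
structure GfTL (x : Gl) (y : Kind) (i m m' : ℕ) : Prop where
  st : run (nn m) [(y, i)] = some (nn m')
  sk : skel (nn m) [(y, i)] = []
  un : ∀ P, und P (nn m) [(y, i)] = 0
  w : ∀ k, x.w k = shift k [(y, i)]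
  ty : ∀ k, x.ty k m = some m'
  rx : ∀ i s, x.rx i s = x
  conj : ∀ b j, x.conj b j = [x]
  cnt : ∀ P g, cntH P (x :: g) = cntH P g
  lift : ∀ k, interp k x.lift = shift (k + 1) [(y, i)]
  lty : ∀ k, runG k (m + 1) x.lift = some (m' + 1)

theorem gf_drop_nn (m i : ℕ) : (nn m).drop i = nn (m - i) := List.drop_replicate

theorem gf_ty_cases {x : Gl} (h : x.ty k m = some m') : (∃ y i, GfTL x y i m m') ∨
    ∃ j b m0, x = .hk j b ∧ j < k ∧ m = m0 + 1 ∧ m' = m0 + 1 := by
  cases x with
  | cup i =>
    simp only [Gl.ty] at h
    split_ifs at h with h1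
    cases h
    obtain ⟨n, rfl⟩ := Nat.exists_eq_add_of_le h1
    refine Or.inl ⟨Kind.cup none, i, ?_, rfl, fun _ => rfl, fun k => by simp [Gl.w, shift],
      fun _ => by simp [Gl.ty], fun _ _ => rfl, fun _ _ => rfl, fun _ _ => rfl,
      fun k => by simp [Gl.lift, interp, Gl.w]; omega, fun _ => ?_⟩
    · have := step_left (Kind.cup none) 0 (nn i) (nn n)
      rw [Nat.zero_add, gf_nn_length] at this
      rw [run_single, gf_nn_add, Nat.add_assoc, gf_nn_add i, this]
      rfl
    · simp [Gl.lift, runG, Gl.ty]
  | cap i =>
    simp only [Gl.ty] at h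
    split_ifs at h with h1
    cases h
    obtain ⟨n, rfl⟩ : ∃ n, m = i + (n + 2) := ⟨m - i - 2, by omega⟩
    have e : (nn (i + (n + 2))).drop i = none :: none :: nn n := by
      rw [gf_drop_nn, Nat.add_sub_cancel_left]; rfl
    refine Or.inl ⟨Kind.cap, i, ?_, by simp [skel, e, Kind.surg], fun _ => by simp [und, Kind.under],
      fun k => by simp [Gl.w, shift], fun _ => by simp [Gl.ty], fun _ _ => rfl, fun _ _ => rfl,
      fun _ _ => rfl, fun k => by simp [Gl.lift, interp, Gl.w]; omega, fun _ => ?_⟩
    · have := step_left Kind.cap 0 (nn i) (nn (n + 2))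
      rw [Nat.zero_add, gf_nn_length] at this
      rw [run_single, gf_nn_add, show i + (n + 2) - 2 = i + n by omega, gf_nn_add i, this]
      rfl
    · simp only [Gl.lift, runG, Gl.ty]
      rw [if_pos (by omega)]
      simp only [Option.bind_some, Option.some.injEq]
      omega
  | cr b i =>
    simp only [Gl.ty] at h
    split_ifs at h with h1
    cases h
    obtain ⟨n, rfl⟩ : ∃ n, m = i + (n + 2) := ⟨m - i - 2, by omega⟩
    have e : (nn (i + (n + 2))).drop i = none :: none :: nn n := by
      rw [gf_drop_nn, Nat.add_sub_cancel_left]; rfl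
    refine Or.inl ⟨Kind.cr b, i, ?_, by simp [skel, e, Kind.surg],
      fun _ => by cases b <;> simp [und, e, Kind.under],
      fun k => by simp [Gl.w, shift], fun _ => by simp [Gl.ty], fun _ _ => rfl, fun _ _ => rfl,
      fun _ _ => rfl, fun k => by simp [Gl.lift, interp, Gl.w]; omega, fun _ => ?_⟩
    · have := step_left (Kind.cr b) 0 (nn i) (nn (n + 2))
      rw [Nat.zero_add, gf_nn_length] at this
      rw [run_single, gf_nn_add, this]
      rfl
    · simp only [Gl.lift, runG, Gl.ty]
      rw [if_pos (by omega)]
      simp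
  | hk j b =>
    simp only [Gl.ty] at h
    split_ifs at h with h1
    cases h
    exact Or.inr ⟨j, b, m - 1, rfl, h1.1, by omega, by omega⟩

/-- The hook around the first strand. -/
def gf_hk0 (r : ℕ) (b : Bool) : Word :=
  shift 1 (back true r) ++ [(cr b, 0), (cr b, 0)] ++ shift 1 (pass true r)

theorem gf_hook_eq (j r : ℕ) (b : Bool) : hook (j + (r + 1)) j b = shift j (gf_hk0 r b) := by
  rw [hook, show j + (r + 1) - j - 1 = r by omega, gf_hk0]

theorem gf_hook_shift (k j t : ℕ) (b : Bool) : hook (k + t) (j + t) b = shift t (hook k j b) := by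
  rw [hook, hook, shift_shift, show k + t - (j + t) = k - j by omega]

theorem gf_run_hk0 (a : Option ℕ) (br : Config) (b : Bool) :
    run (a :: (br ++ [none])) (gf_hk0 br.length b) = some (a :: (br ++ [none])) := by
  rw [gf_hk0, List.append_assoc, run_append_of (run_one (run_back _ _ _) a),
    run_append_of (c' := a :: none :: br) rfl]
  exact run_one (run_pass _ _ _) a

theorem gf_skel_hk0 (a : Option ℕ) (br : Config) (b : Bool) :
    skel (a :: (br ++ [none])) (gf_hk0 br.length b) = [] := by
  rw [gf_hk0, List.append_assoc, skel_append_of (run_one (run_back _ _ _) a),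
    skel_append_of (c' := a :: none :: br) rfl, skel_one (run_back _ _ _), skel_back,
    skel_one (run_pass _ _ _), skel_pass]
  cases a <;> rfl

theorem gf_und_hk0 (P : ℕ → Bool) (a : Option ℕ) (br : Config) (b : Bool) :
    und P (a :: (br ++ [none])) (gf_hk0 br.length b) = if a.isSome && P 0 then 1 else 0 := by
  rw [gf_hk0, List.append_assoc, und_append P (run_one (run_back _ _ _) a),
    und_append P (c' := a :: none :: br) rfl, gf_und_one P (run_back _ _ _), und_back_true,
    gf_und_one P (run_pass _ _ _), und_pass_true]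
  cases a <;> cases b <;> simp [und, Kind.under, step, Kind.act]

theorem gf_base_split {j : ℕ} (hj : j < base.length) :
    ∃ bl a br, base = bl ++ a :: br ∧ bl.length = j :=
  ⟨base.take j, base[j], base.drop (j + 1), by simp, by simp; omega⟩

theorem gf_hook_facts {j : ℕ} (hj : j < base.length) (b : Bool) (d : Config) :
    run (base ++ none :: d) (hook base.length j b) = some (base ++ none :: d) ∧
    skel (base ++ none :: d) (hook base.length j b) = [] ∧
    ∀ P, und P (base ++ none :: d) (hook base.length j b) =
      if (base[j]?.bind id).isSome && P (np (base.take j)) then 1 else 0 := by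
  obtain ⟨bl, a, br, rfl, rfl⟩ := gf_base_split hj
  rw [List.length_append, List.length_cons, gf_hook_eq]
  have e : bl ++ a :: br ++ none :: d = bl ++ a :: (br ++ [none]) ++ d := by simp
  rw [e]
  refine ⟨run_whisk (gf_run_hk0 a br b) bl d, ?_, fun P => ?_⟩
  · rw [skel_whisk (gf_run_hk0 a br b), gf_skel_hk0, shift_nil]
  · rw [und_whisk P (gf_run_hk0 a br b), gf_und_hk0]
    simp

theorem gf_letter_facts {x : Gl} (h : x.ty k m = some m') (hb : base.length = k) :
    run (base ++ nn m) (x.w k) = some (base ++ nn m') ∧ skel (base ++ nn m) (x.w k) = [] ∧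
    ∀ P g, und P (base ++ nn m) (x.w k) +
      cntH (fun j => (base[j]?.bind id).isSome && P (np (base.take j))) g =
      cntH (fun j => (base[j]?.bind id).isSome && P (np (base.take j))) (x :: g) := by
  subst hb
  rcases gf_ty_cases h with ⟨y, i, t⟩ | ⟨j, b, m0, rfl, hj, rfl, rfl⟩
  · rw [t.w]
    refine ⟨run_left t.st base, by rw [skel_left t.st, t.sk, shift_nil], fun P g => ?_⟩
    have := und_whisk P t.st base []
    rw [List.append_nil] at this
    rw [this, t.un, t.cnt, Nat.zero_add]
  · obtain ⟨h1, h2, h3⟩ := gf_hook_facts hj b (nn m0)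
    exact ⟨h1, h2, fun P g => by rw [gf_nn_succ, Gl.w, h3, cntH]⟩

theorem run_interp (h : runG k m g = some m') (hb : base.length = k) :
    run (base ++ nn m) (interp k g) = some (base ++ nn m') := by
  induction g generalizing m with
  | nil => cases h; rfl
  | cons x g ih =>
    obtain ⟨m1, h1, h2⟩ := gf_runG_cons_some h
    rw [interp, run_append_of (gf_letter_facts h1 hb).1, ih h2]

theorem skel_interp (h : runG k m g = some m') (hb : base.length = k) :
    skel (base ++ nn m) (interp k g) = [] := by
  induction g generalizing m with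
  | nil => rfl
  | cons x g ih =>
    obtain ⟨m1, h1, h2⟩ := gf_runG_cons_some h
    rw [interp, skel_append_of (gf_letter_facts h1 hb).1, ih h2, (gf_letter_facts h1 hb).2.1]
    rfl

theorem und_interp (P : ℕ → Bool) (h : runG k m g = some m') (hb : base.length = k) :
    und P (base ++ nn m) (interp k g) =
      cntH (fun j => (base[j]?.bind id).isSome && P (np (base.take j))) g := by
  induction g generalizing m with
  | nil => rfl
  | cons x g ih =>
    obtain ⟨m1, h1, h2⟩ := gf_runG_cons_some h
    rw [interp, und_append P (gf_letter_facts h1 hb).1, ih h2, (gf_letter_facts h1 hb).2.2]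

theorem gf_interp_rx0 (k t : ℕ) (g : List Gl) :
    interp (k + t) (g.map (Gl.rx 0 t)) = shift t (interp k g) := by
  induction g with
  | nil => rfl
  | cons x g ih =>
    rw [List.map_cons, interp, interp, ih, shift_append]
    cases x <;> simp [Gl.rx, Gl.w, gf_hook_shift, Nat.add_assoc]

theorem gf_up_eq : Gl.up = Gl.rx 0 1 := by
  funext x
  cases x <;> simp [Gl.up, Gl.rx]

theorem interp_up (h : runG k m g = some m') :
    interp (k + 1) (g.map Gl.up) = shift 1 (interp k g) := by
  have _ := h
  rw [gf_up_eq, gf_interp_rx0]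

theorem runG_rx (hi : i ≤ k) (h : runG k m g = some m') (s : ℕ) :
    runG (k + s) m (g.map (Gl.rx i s)) = some m' := by
  have _ := hi
  induction g generalizing m with
  | nil => exact h
  | cons x g ih =>
    obtain ⟨m1, h1, h2⟩ := gf_runG_cons_some h
    rw [List.map_cons, gf_runG_cons_of (m1 := m1), ih h2]
    rcases gf_ty_cases h1 with ⟨y, i, t⟩ | ⟨j, b, m0, rfl, hj, rfl, rfl⟩
    · rw [t.rx, t.ty]
    · simp only [Gl.rx, Gl.ty]
      rw [if_pos ⟨by split_ifs <;> omega, by omega⟩]

theorem map_rx_zero (i : ℕ) (g : List Gl) : g.map (Gl.rx i 0) = g := by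
  induction g with
  | nil => rfl
  | cons x g ih => rw [List.map_cons, ih]; cases x <;> simp [Gl.rx]

theorem exists_rx (h : runG (k + s) m g = some m') (hi : i ≤ k)
    (hc : cntH (fun j => decide (i ≤ j ∧ j < i + s)) g = 0) :
    ∃ g₀, runG k m g₀ = some m' ∧ g = g₀.map (Gl.rx i s) := by
  induction g generalizing m with
  | nil => exact ⟨[], h, rfl⟩
  | cons x g ih =>
    obtain ⟨m1, h1, h2⟩ := gf_runG_cons_some h
    rcases gf_ty_cases h1 with ⟨y, i', t⟩ | ⟨j, b, m0, rfl, hj, rfl, rfl⟩
    · obtain ⟨g0, a1, a2⟩ := ih h2 (t.cnt _ _ ▸ hc)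
      exact ⟨x :: g0, by rw [gf_runG_cons_of (t.ty k), a1], by rw [List.map_cons, t.rx, a2]⟩
    · simp only [cntH, Nat.add_eq_zero_iff, ite_eq_right_iff, decide_eq_true_eq, one_ne_zero,
        imp_false] at hc
      obtain ⟨g0, a1, a2⟩ := ih h2 hc.2
      have hc1 := hc.1
      refine ⟨.hk (if j < i then j else j - s) b :: g0, ?_, ?_⟩
      · rw [gf_runG_cons_of (m1 := m0 + 1), a1]
        simp only [Gl.ty]
        rw [if_pos ⟨by split_ifs <;> omega, by omega⟩]
      · rw [List.map_cons, ← a2, Gl.rx]
        congr 2
        split_ifs <;> omega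

/-- A hook commutes with whatever happens on the strands it passes over. -/
theorem gf_hk0_nat {X X' : Config} {w : Word} (h : run X w = some X') (a : Option ℕ) (b : Bool) :
    GfIs A (a :: (X ++ [none])) (gf_hk0 X.length b ++ shift 1 w) (shift 1 w ++ gf_hk0 X'.length b)
      (a :: (X' ++ [none])) := by
  have r0 := run_one (run_back true none X) a
  have rc : ∀ Y : Config, run (a :: none :: Y) [(cr b, 0), (cr b, 0)] = some (a :: none :: Y) :=
    fun _ => rfl
  have h1 := (((GfIs.npass (A := A) h).one a).pre (rc X)).pre r0
  have h2 := ((GfIs.far (A := A) (c1 := [a, none]) (rc []) h (Or.inl (by cases a <;> rfl))).app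
    (run_one (run_pass true none X') a)).pre r0
  have h3 := (((GfIs.nback (A := A) h).one a).app (rc X')).app (run_one (run_pass true none X') a)
  simp only [shift_append, shift_shift, List.append_assoc, List.length_cons, List.length_nil,
    Nat.zero_add] at h1 h2 h3
  simpa [gf_hk0] using (h1.trans h2).trans h3.symm

theorem gf_block_letter {x : Gl} (hβ : run b0 β = some b0')
    (hx : x.ty (bl.length + br.length) m = some m') :
    GfIs A (bl ++ b0 ++ br ++ nn m)
      ((x.rx bl.length b0.length).w (bl.length + b0.length + br.length) ++ shift bl.length β)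
      (shift bl.length β ++ (x.rx bl.length b0'.length).w (bl.length + b0'.length + br.length))
      (bl ++ b0' ++ br ++ nn m') := by
  rcases gf_ty_cases hx with ⟨y, i, t⟩ | ⟨j, b, m0, rfl, hj, rfl, rfl⟩
  · rw [t.rx, t.rx, t.w, t.w]
    simpa only [List.length_append] using
      (GfIs.far (A := A) (run_whisk hβ bl br) t.st (Or.inr t.sk)).symm
  by_cases hl : j < bl.length
  · obtain ⟨b1, a, b2, rfl, rfl⟩ := gf_base_split hl
    have := (gf_hk0_nat (A := A) (run_whisk hβ b2 br) a b).whisk b1 (nn m0)
    simp only [Gl.rx, if_pos hl, Gl.w]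
    simp only [List.length_append, List.length_cons, shift_append, shift_shift] at this ⊢
    rw [show b1.length + (b2.length + 1) + b0.length + br.length =
        b1.length + (b2.length + b0.length + br.length + 1) by omega,
      show b1.length + (b2.length + 1) + b0'.length + br.length =
        b1.length + (b2.length + b0'.length + br.length + 1) by omega, gf_hook_eq, gf_hook_eq,
      show b1.length + (b2.length + 1) = b2.length + 1 + b1.length by omega]
    simpa [gf_nn_succ] using this
  · obtain ⟨j, rfl⟩ := Nat.exists_eq_add_of_le (Nat.le_of_not_lt hl)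
    obtain ⟨h1, h2, -⟩ := gf_hook_facts (base := br) (j := j) (by omega) b (nn m0)
    have := (GfIs.far (A := A) (run_left hβ bl) h1 (Or.inr h2)).symm
    simp only [Gl.rx, if_neg hl, Gl.w]
    rw [show bl.length + b0.length + br.length = br.length + (bl.length + b0.length) by omega,
      show bl.length + b0'.length + br.length = br.length + (bl.length + b0'.length) by omega,
      show bl.length + j + b0.length = j + (bl.length + b0.length) by omega,
      show bl.length + j + b0'.length = j + (bl.length + b0'.length) by omega, gf_hook_shift,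
      gf_hook_shift]
    simpa [gf_nn_succ] using this

theorem gf_blockG' (hβ : run b0 β = some b0') (hg : runG (bl.length + br.length) m g = some m') :
    GfIs A (bl ++ b0 ++ br ++ nn m)
      (interp (bl.length + b0.length + br.length) (g.map (Gl.rx bl.length b0.length)) ++
        shift bl.length β)
      (shift bl.length β ++
        interp (bl.length + b0'.length + br.length) (g.map (Gl.rx bl.length b0'.length)))
      (bl ++ b0' ++ br ++ nn m') := by
  induction g generalizing m with
  | nil =>
    cases hg
    simpa [interp] using GfIs.rf (A := A) (run_right (run_whisk hβ bl br) (nn m'))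
  | cons x g ih =>
    obtain ⟨m1, h1, h2⟩ := gf_runG_cons_some hg
    have q : ∀ {X : Config} {m m' : ℕ} {g : List Gl},
        runG (bl.length + br.length) m g = some m' → run (bl ++ X ++ br ++ nn m)
          (interp (bl.length + X.length + br.length) (g.map (Gl.rx bl.length X.length))) =
          some (bl ++ X ++ br ++ nn m') := fun {X _ _ _} h =>
      run_interp (by rw [Nat.add_right_comm]; exact runG_rx (by omega) h _) (by simp; omega)
    have r1 := q (X := b0) (g := [x]) (m := m) (m' := m1) (by rw [gf_runG_cons_of h1]; rfl)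
    simp only [List.map_cons, List.map_nil, interp, List.append_nil] at r1
    have := ((ih h2).pre r1).trans
      (by simpa only [List.append_assoc] using (gf_block_letter (A := A) hβ h1).app (q h2))
    simpa only [List.map_cons, interp, List.append_assoc] using this

/-- A block on base strands that are not hooked commutes with a gathered word. -/
theorem blockG (hβ : run b0 β = some b0') (hg : runG (bl.length + br.length) m g = some m') :
    Iso A (bl ++ b0 ++ br ++ nn m)
      (interp (bl.length + b0.length + br.length) (g.map (Gl.rx bl.length b0.length)) ++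
        shift bl.length β)
      (shift bl.length β ++
        interp (bl.length + b0'.length + br.length) (g.map (Gl.rx bl.length b0'.length))) :=
  (gf_blockG' hβ hg).iso

end Gath

end Pool.Agent.Lib.MP_5b31c3_gt
end
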