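import Pool.Agent.Lib.MP_5b31c3_gt.Eval

/-
Small identities between tangles with at most two surgery colours.
-/

namespace Pool.Agent.Lib.MP_5b31c3_gt

open Kind

variable {R : Type*} [CommRing R] {A : Rˣ}

/-- The doubled circle with `k` turns. -/
def dcirc (q : ℕ) (k : ℤ) : Word :=
  dcup (q, 1) k ++ [(cr true, 3), (cr true, 2), (cr true, 2), (cr true, 3)] ++ dcap

/-- Rename the colours `0` and `1`. -/
def rc2 (n q : ℕ) (i : ℕ) : ℕ := if i = 0 then n else q

/-- Rename the colours `0` and `1` in a word. -/
def rcw (n q : ℕ) (w : Word) : Word := recol (rc2 n q) (fun _ x => x) w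

theorem Iso.rc {c : Config} {l r : Word} (h : Iso A c l r) (n q : ℕ) :
    Iso A (rec' (rc2 n q) c) (rcw n q l) (rcw n q r) := h.recol _ _

theorem check_rc {c : Config} {l r : Word} (e : ℤ)
    (h : Ev.check c [(1, 0, l), (-(-1), e, r)] = true) (n q : ℕ) :
    cls A (rec' (rc2 n q) c) (recol (rc2 n q) (fun _ x => x) l) =
      -sc A e • cls A (rec' (rc2 n q) c) (recol (rc2 n q) (fun _ x => x) r) := by
  have := congrArg (recT A (rc2 n q) (fun _ x => x) c) (check_eq (A := A) (-1) e h)
  simpa using this

theorem check_rc3 {c : Config} {l r s : Word} (e f : ℤ)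
    (h : Ev.check c [(1, 0, l), (-1, e, r), (-1, f, s)] = true) (n q : ℕ) :
    cls A (rec' (rc2 n q) c) (recol (rc2 n q) (fun _ x => x) l) =
      sc A e • cls A (rec' (rc2 n q) c) (recol (rc2 n q) (fun _ x => x) r) +
        sc A f • cls A (rec' (rc2 n q) c) (recol (rc2 n q) (fun _ x => x) s) := by
  have h1 := congrArg (recT A (rc2 n q) (fun _ x => x) c) (check_sound (A := A) h)
  simp only [wcmb, List.map_cons, List.map_nil, List.sum_cons, List.sum_nil, map_add, map_smul,
    recT_cls, List.nil_append, map_zero, add_zero, Int.cast_one, Int.cast_neg, sc_zero, one_mul,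
    one_smul, neg_mul, neg_smul, map_neg] at h1
  rw [← neg_add, add_neg_eq_zero] at h1
  exact h1

theorem id_cap_a : cls A c4 (wa ++ caps) = dl A • cls A c4 caps := by
  have h1 : Iso A c4 (wa ++ caps) (caps ++ [(cup none, 0), (cap, 0)]) := chk_sound
    [(2, .sw), (5, .sw), (4, .ap (.capS true) 1 false), (3, .sw),
    (2, .ap (.two false) 1 true), (2, .ap (.capS false) 2 false), (3, .sw),
    (1, .ap (.two true) 2 true), (1, .sw), (0, .sw), (2, .ap (.two true) 2 false),
    (1, .ap (.cupS none false) 1 false), (3, .ap (.capS true) 1 false), (4, .sw),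
    (2, .ap (.two false) 1 true), (1, .sw)] (by decide +kernel)
  have h2 := congrArg (pre A caps (c := c4) (c' := []) (by decide)) (cls_circle (A := A))
  rw [h1.eq]
  simpa using h2

theorem id_al_caps : Iso A c8 (arcw kal 0 0 0 0 ++ caps) (d4 caps) :=
  check_iso (by decide +kernel)

theorem id_in (n : ℕ) : cls A [none, some n] (shift 1 loop) =
    sc A (-1) • cls A [none, some n] (turn true) + sc A 1 • cls A [none, some n] (turn false) :=
  check_rc3 (c := [none, some 0]) (l := shift 1 loop) (r := turn true) (s := turn false) (-1) 1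
    (by decide +kernel) n 0

theorem id_out (n : ℕ) : cls A [none, some n] (loopn 2) =
    sc A 1 • cls A [none, some n] (turn true) + sc A (-1) • cls A [none, some n] (turn false) :=
  check_rc3 (c := [none, some 0]) (l := loopn 2) (r := turn true) (s := turn false) 1 (-1)
    (by decide +kernel) n 0

theorem turn_turn (n : ℕ) (b : Bool) : Iso A [none, some n] (turn b ++ turn !b) [] := by
  cases b
  · exact (check_iso (A := A) (c := [none, some 0]) (l := turn false ++ turn true) (r := [])
      (by decide +kernel)).rc n 0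
  · exact (check_iso (A := A) (c := [none, some 0]) (l := turn true ++ turn false) (r := [])
      (by decide +kernel)).rc n 0

theorem loop_loop' (n : ℕ) : Iso A [some n] loop loop' :=
  (check_iso (A := A) (c := [some 0]) (l := loop) (r := loop') (by decide +kernel)).rc n 0

theorem loop_cup (κ : ℕ × ℤ) :
    Iso A [] ((cup (some κ), 0) :: shift 1 loop) ((cup (some κ), 0) :: loop) := by
  have h1 : Iso A [] ((cup (some (0, 1)), 0) :: shift 1 loop) ((cup (some (0, 1)), 0) :: loop') :=
    chk_sound [(1, .ap (.cupS none false) 1 false), (3, .ap (.capS false) 1 true), (0, .sw),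
      (1, .ap (.cupS (some (0, 1)) true) 0 false), (2, .sw),
      (1, .ap (.cupS (some (0, 1)) false) 1 false), (0, .sw)] (by decide +kernel)
  have h2 : Iso A [] ((cup (some (0, 1)), 0) :: loop') ((cup (some (0, 1)), 0) :: loop) :=
    ((loop_loop' 0).symm.right [some 0]).pre (p := [(cup (some (0, 1)), 0)]) rfl
  exact (h1.trans h2).recol (fun _ => κ.1) fun _ _ => κ.2

theorem loop_cap (n : ℕ) :
    Iso A [some n, some n] (loop ++ [(cap, 0)]) (shift 1 loop ++ [(cap, 0)]) := by
  have h1 : Iso A [some 0, some 0] (loop' ++ [(cap, 0)]) (shift 1 loop ++ [(cap, 0)]) :=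
    chk_sound [(0, .ap (.cupS none true) 0 false), (2, .ap (.capS true) 0 true), (3, .sw),
      (2, .ap (.capS false) 1 true), (1, .sw), (2, .ap (.capS true) 0 true), (3, .sw)]
      (by decide +kernel)
  have h2 : Iso A [some 0, some 0] (loop ++ [(cap, 0)]) (loop' ++ [(cap, 0)]) :=
    ((loop_loop' 0).right [some 0]).app (c' := []) (by decide)
  exact (h2.trans h1).rc n 0

theorem turn_ctx {c cl cr' : Config} {a : Option ℕ} {p : Word}
    (hp : run c p = some (cl ++ [none, a] ++ cr')) (b : Bool) (s : Word) :
    cls A c (p ++ shift cl.length (turn b) ++ s) =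
      -sc A (3 * sg b) • cls A c (p ++ shift cl.length [(cr b, 0), (cr b, 0)] ++ s) := by
  have h0 : run [none, a] [(cr b, 0), (cr b, 0)] = some ([] ++ [none] ++ [a]) := rfl
  have h1 := congrArg (emb A [(cr b, 0), (cr b, 0)] [] [none] [a] [] h0) (curl_right (A := A) b)
  rw [map_smul, emb_cls, emb_cls] at h1
  have h2 := congrArg (emb A p cl [none, a] cr' s hp) h1
  rw [map_smul, emb_cls, emb_cls] at h2
  simpa [turn] using h2

theorem turn_cup (κ : ℕ × ℤ) (b : Bool) :
    Iso A [] (dcup κ 0 ++ shift 2 (turn b)) (dcup κ 0 ++ turn b) := by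
  have h0 : run [] (dcup (0, 1) 0) = some [none, some 0, none, some 0] := by decide
  have h1 := turn_ctx (A := A) (cl := [none, some 0]) (cr' := []) h0 b []
  have h2 := turn_ctx (A := A) (cl := []) (cr' := [none, some 0]) h0 b []
  have h3 : Iso A [] (dcup (0, 1) 0 ++ shift 2 [(cr b, 0), (cr b, 0)])
      (dcup (0, 1) 0 ++ [(cr b, 0), (cr b, 0)]) := by
    cases b
    · exact chk_sound [(2, .sw), (1, .ap (.cupS none true) 1 false), (0, .sw),
        (1, .ap (.cupS (some (0, 1)) false) 0 false), (3, .sw), (2, .sw),
        (1, .ap (.cupS (some (0, 1)) true) 1 false), (0, .sw),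
        (1, .ap (.cupS none false) 0 false)] (by decide +kernel)
    · exact chk_sound [(1, .ap (.cupS none false) 0 true), (0, .sw),
        (1, .ap (.cupS (some (0, 1)) true) 1 true), (2, .ap (.two false) 2 true),
        (1, .ap (.cupS (some (0, 1)) false) 1 false), (0, .sw),
        (1, .ap (.cupS none true) 0 false), (2, .ap (.two false) 0 false)] (by decide +kernel)
  simp only [List.append_nil, List.length_cons, List.length_nil, shift_zero, Nat.reduceAdd,
    Nat.zero_add] at h1 h2
  have h4 : Iso A [] (dcup (0, 1) 0 ++ shift 2 (turn b)) (dcup (0, 1) 0 ++ turn b) :=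
    ⟨by cases b <;> decide, by rw [h1, h2, h3.eq]⟩
  have h5 := h4.recol (fun _ => κ.1) fun _ _ => κ.2
  cases b <;> exact h5

theorem turn_cap (n : ℕ) (b : Bool) :
    Iso A [none, some n, none, some n] (turn b ++ dcap) (shift 2 (turn b) ++ dcap) := by
  have h1 := turn_ctx (A := A) (cl := [none, some 0]) (cr' := []) (a := some 0) (run_nil _) b dcap
  have h2 := turn_ctx (A := A) (cl := []) (cr' := [none, some 0]) (a := some 0) (run_nil _) b dcap
  have h3 : Iso A [none, some 0, none, some 0] ([(cr b, 0), (cr b, 0)] ++ dcap)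
      (shift 2 [(cr b, 0), (cr b, 0)] ++ dcap) := by
    cases b
    · exact chk_sound [(1, .ap (.two false) 0 true), (0, .ap (.capS false) 0 true), (1, .sw),
        (0, .ap (.capS true) 1 true), (1, .ap (.two false) 2 false),
        (2, .ap (.capS false) 1 false), (3, .sw), (2, .ap (.capS true) 0 false)]
        (by decide +kernel)
    · exact chk_sound [(2, .ap (.capS true) 0 true), (3, .sw), (2, .ap (.capS false) 1 true),
        (1, .sw), (2, .ap (.capS true) 0 true), (3, .sw), (2, .ap (.capS false) 1 true),
        (0, .sw), (1, .sw)] (by decide +kernel)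
  simp only [List.length_cons, List.length_nil, shift_zero, Nat.reduceAdd,
    Nat.zero_add, List.nil_append, List.cons_append] at h1 h2
  have h4 : Iso A [none, some 0, none, some 0] (turn b ++ dcap) (shift 2 (turn b) ++ dcap) :=
    ⟨by cases b <;> decide, by rw [h1, h2]; exact congrArg _ h3.eq⟩
  have h5 := h4.rc n 0
  cases b <;> exact h5

theorem id_S1 (n q : ℕ) : Iso A [some q, some q, none, none, none, some n]
    [(cr false, 1), (cr true, 2), (cr true, 3), (cr true, 4), (cap, 2), (cup none, 2), (cap, 1),
      (cr true, 2), (cr true, 1), (cap, 0)]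
    ([(cap, 3), (cr true, 2)] ++ bottom ++ [(cr false, 0)]) := by
  have := (check_iso (A := A) (c := [some 1, some 1, none, none, none, some 0])
    (l := [(cr false, 1), (cr true, 2), (cr true, 3), (cr true, 4), (cap, 2), (cup none, 2),
      (cap, 1), (cr true, 2), (cr true, 1), (cap, 0)])
    (r := [(cap, 3), (cr true, 2)] ++ bottom ++ [(cr false, 0)]) (by decide +kernel)).rc n q
  exact this

theorem id_C1 (n q : ℕ) : Iso A [some n] (dcirc q 0) (circle q ++ loop) := by
  have := (check_iso (A := A) (c := [some 0]) (l := dcirc 1 0) (r := circle 1 ++ loop)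
    (by decide +kernel)).rc n q
  exact this

theorem id_T (n q : ℕ) : Iso A [some n] ((cup (some (q, 1)), 0) :: loop ++ bottom)
    ([(cup (some (q, 1)), 0), (cup none, 2)] ++ thru ++ bottom) := by
  have h1 : Iso A [some 0] ((cup (some (1, 1)), 0) :: loop ++ bottom)
      ((cup (some (1, 1)), 0) :: shift 1 loop ++ bottom) :=
    ((loop_cup (1, 1)).symm.right [some 0]).app (c' := [some 0]) (by decide)
  have h2 : Iso A [some 0] ((cup (some (1, 1)), 0) :: shift 1 loop ++ bottom)
      ([(cup (some (1, 1)), 0), (cup none, 2)] ++ thru ++ bottom) := check_iso (by decide +kernel)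
  exact (h1.trans h2).rc n q

theorem id_C3 (n q : ℕ) : cls A [some n]
    ([(cup (some (q, 1)), 0), (cup none, 2), (cr false, 3), (cr false, 3)] ++ thru ++ bottom) =
    -sc A 3 • cls A [some n] (dcirc q (-1)) := by
  have h1 := check_rc (A := A) (c := [some 0])
    (l := [(cup (some (1, 1)), 0), (cup none, 2), (cr false, 3), (cr false, 3)] ++ thru ++ bottom)
    (r := dcup (1, 1) 0 ++ shift 2 (turn false) ++
      ([(cr true, 3), (cr true, 2), (cr true, 2), (cr true, 3)] ++ dcap)) 3 (by decide +kernel) n q
  have h2 := ((turn_cup (A := A) (q, 1) false).right [some n]).cls_app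
    ([(cr true, 3), (cr true, 2), (cr true, 2), (cr true, 3)] ++ dcap)
  exact h1.trans (congrArg _ h2)

theorem id_C3' (n : ℕ) : cls A [none, some n]
    [(cup none, 0), (cr false, 1), (cr false, 2), (cr false, 2), (cr false, 1), (cap, 1)] =
    -sc A 3 • cls A [none, some n] (turn true) :=
  check_rc (c := [none, some 0])
    (l := [(cup none, 0), (cr false, 1), (cr false, 2), (cr false, 2), (cr false, 1), (cap, 1)])
    (r := turn true) 3 (by decide +kernel) n 0

theorem id_h1 (n : ℕ) : cls A [none, some n]
    [(cup none, 0), (cap, 1), (cup none, 1), (cr false, 1), (cr false, 2), (cr true, 0),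
      (cr true, 1), (cap, 2)] = -sc A 3 • cls A [none, some n] (turn true) :=
  check_rc (c := [none, some 0])
    (l := [(cup none, 0), (cap, 1), (cup none, 1), (cr false, 1), (cr false, 2), (cr true, 0),
      (cr true, 1), (cap, 2)]) (r := turn true) 3 (by decide +kernel) n 0

theorem id_hk1F (n q : ℕ) : Iso A [some q, some q, none, none, some n]
    ([(cr false, 1), (cr false, 1), (cap, 2)] ++ bottom) (thru ++ bottom) := by
  have := (check_iso (A := A) (c := [some 1, some 1, none, none, some 0])
    (l := [(cr false, 1), (cr false, 1), (cap, 2)] ++ bottom) (r := thru ++ bottom)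
    (by decide +kernel)).rc n q
  exact this

theorem id_hk1T (n q : ℕ) : cls A [some q, some q, none, none, some n]
    ([(cr true, 1), (cr true, 1), (cap, 2)] ++ bottom) =
    -sc A (-3) • cls A [some q, some q, none, none, some n] ((cr false, 2) :: thru ++ bottom) :=
  check_rc (c := [some 1, some 1, none, none, some 0])
    (l := [(cr true, 1), (cr true, 1), (cap, 2)] ++ bottom) (r := (cr false, 2) :: thru ++ bottom)
    (-3) (by decide +kernel) n q

theorem hk0_aux : Iso A [none, some 1, some 1, some 0, none]
    (pass false 3 ++ bottom ++ [(cap, 1)]) (shift 1 bottom ++ [(cr false, 0), (cap, 1)]) :=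
  ((nat_pass false none (w := bottom) (c := [some 1, some 1, some 0]) (c' := [some 0])
    (by decide) (Or.inl rfl)).right [none]).app (s := [(cap, 1)]) (c' := [some 0]) (by decide)

theorem id_hk0F (n q : ℕ) : Iso A [some q, some q, none, none, some n]
    ([(cr false, 1), (cr false, 0), (cr false, 0), (cr true, 1), (cap, 2)] ++ bottom)
    ([(cr false, 1), (cr false, 0), (cup none, 4), (cr false, 5)] ++ shift 1 (thru ++ bottom) ++
      [(cr false, 0), (cap, 1)]) := by
  have h1 : Iso A [some 1, some 1, none, none, some 0]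
      ([(cr false, 1), (cr false, 0), (cr false, 0), (cr true, 1), (cap, 2)] ++ bottom)
      (([(cr false, 1), (cr false, 0), (cup none, 4), (cr false, 5)] ++ shift 1 thru) ++
        (pass false 3 ++ bottom ++ [(cap, 1)])) := check_iso (by decide +kernel)
  exact (h1.trans (hk0_aux.pre (by decide))).rc n q

theorem id_hk0T (n q : ℕ) : cls A [some q, some q, none, none, some n]
    ([(cr false, 1), (cr true, 0), (cr true, 0), (cr true, 1), (cap, 2)] ++ bottom) =
    -sc A (-3) • cls A [some q, some q, none, none, some n]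
      ([(cr false, 2), (cr false, 1), (cr false, 0), (cup none, 4), (cr false, 5)] ++
        shift 1 (thru ++ bottom) ++ [(cr false, 0), (cap, 1)]) := by
  have h1 := check_rc (A := A) (c := [some 1, some 1, none, none, some 0])
    (l := [(cr false, 1), (cr true, 0), (cr true, 0), (cr true, 1), (cap, 2)] ++ bottom)
    (r := ([(cr false, 2), (cr false, 1), (cr false, 0), (cup none, 4), (cr false, 5)] ++
      shift 1 thru) ++ (pass false 3 ++ bottom ++ [(cap, 1)])) (-3) (by decide +kernel) n q
  have h2 := ((hk0_aux (A := A)).pre (c := [some 1, some 1, none, none, some 0])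
    (p := [(cr false, 2), (cr false, 1), (cr false, 0), (cup none, 4), (cr false, 5)] ++
      shift 1 thru) (by decide)).rc n q
  exact h1.trans (congrArg _ h2.eq)

end Pool.Agent.Lib.MP_5b31c3_gt
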