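import Pool.Agent.Lib.MP_5b31c3_gt.IdsG

/-
Identities at the two minima of the knot.
-/

namespace Pool.Agent.Lib.MP_5b31c3_gt

open Kind

variable {R : Type*} [CommRing R] {A : Rˣ}

theorem top_of {W W' : Word} {ts : List (ℤ × ℤ × Word)} (h : Iso A [] W W')
    (hc : Ev.check [] ((1, 0, W') :: ts) = true) : wcmb A [] [] ((1, 0, W) :: ts) = 0 := by
  have := check_sound (A := A) hc
  simp only [wcmb, List.map_cons, List.sum_cons, List.nil_append] at this ⊢
  rw [h.eq, this]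

/-- The doubled minima. -/
def dcups : Word := dblG 0 (tw2 0 0) [] cups

/-- Turns at the right legs. -/
def rtw (i j : ℤ) : Word := shift 4 (twist i) ++ shift 6 (twist j)

theorem top00 : Iso A [] (dblG 0 (tw2 0 0) [] cups) (dcups ++ rtw 0 0) :=
  Iso.refl (c' := c8) (by decide +kernel)

theorem top01 : Iso A [] (dblG 0 (tw2 0 1) [] cups) (dcups ++ rtw 0 1) := by
  have h1 : Iso A [] (dcup (0, 1) 0 ++ turn true ++ shift 2 (dcup (0, 0) 0))
      (dcup (0, 1) 0 ++ shift 2 (turn true) ++ shift 2 (dcup (0, 0) 0)) :=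
    (turn_cup (0, 1) true).symm.app (c' := c8) (by decide +kernel)
  exact h1.trans (chk_sound
    [(7, .sw), (6, .sw), (5, .sw), (4, .sw), (3, .sw), (8, .sw), (7, .sw), (6, .sw), (5, .sw),
    (4, .sw), (9, .sw), (8, .sw), (7, .sw), (6, .sw), (5, .sw)] (by decide +kernel))

theorem top_in : Iso A [none, some 0, none, some 0] (shift 2 (dcup (0, 0) 0 ++ turn true))
    (shift 2 (dcup (0, 0) 0 ++ shift 2 (turn true))) :=
  (turn_cup (0, 0) true).symm.whisk [none, some 0] [none, some 0]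

theorem top10 : Iso A [] (dblG 0 (tw2 1 0) [] cups) (dcups ++ rtw 1 0) :=
  top_in.pre (p := dcup (0, 1) 0) (by decide +kernel)

theorem top11 : Iso A [] (dblG 0 (tw2 1 1) [] cups) (dcups ++ rtw 1 1) := by
  have h1 : Iso A [] (dcup (0, 1) 0 ++ turn true ++ shift 2 (dcup (0, 0) 0 ++ turn true))
      (dcup (0, 1) 0 ++ shift 2 (turn true) ++ shift 2 (dcup (0, 0) 0 ++ shift 2 (turn true))) :=
    (turn_cup (0, 1) true).symm.comp (by decide +kernel) top_in
  exact h1.trans (chk_sound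
    [(7, .sw), (6, .sw), (5, .sw), (4, .sw), (3, .sw), (8, .sw), (7, .sw), (6, .sw), (5, .sw),
    (4, .sw), (9, .sw), (8, .sw), (7, .sw), (6, .sw), (5, .sw), (10, .sw), (9, .sw), (8, .sw),
    (7, .sw), (6, .sw), (11, .sw), (10, .sw), (9, .sw), (8, .sw), (7, .sw), (12, .sw),
    (11, .sw), (10, .sw), (9, .sw), (8, .sw), (13, .sw), (12, .sw), (11, .sw), (10, .sw),
    (9, .sw), (14, .sw), (13, .sw), (12, .sw), (11, .sw), (10, .sw)] (by decide +kernel))

theorem topP {z : Word} {i j : ℤ} (h : Iso A [] z (dcups ++ rtw i j))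
    (h1 : Iso A c8 (rtw i j ++ arcw kP 0 0 0 0) ([(cr true, 2), (cr true, 0), (cr false, 1)] ++
      (rtw i j ++ [(cr true, 3), (cr true, 4), (cap, 5), (cap, 2)]))) :
    Iso A [] (z ++ arcw kP 0 0 0 0) (cups ++ [(cup none, 2), (cr false, 3), (cup none, 3)] ++
      (rtw i j ++ [(cr true, 3), (cr true, 4), (cap, 5), (cap, 2)])) := by
  have r0 : run [] dcups = some c8 := by decide +kernel
  have h2 : Iso A [] (dcups ++ [(cr true, 2), (cr true, 0), (cr false, 1)])
      (cups ++ [(cup none, 2), (cr false, 3), (cup none, 3)]) := chk_sound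
    [(6, .sw), (5, .sw), (4, .sw), (3, .sw), (2, .ap (.two false) 0 true),
    (4, .ap (.two false) 2 true), (3, .sw), (2, .ap (.cupS (some (0, 0)) false) 1 true),
    (1, .sw), (2, .ap (.cupS none true) 2 true)] (by decide +kernel)
  have h3 := h1.pre r0
  obtain ⟨d, hd1, hd2⟩ := h3.same.ex
  rw [← List.append_assoc] at h3 hd1
  rw [← List.append_assoc] at h3 hd2
  have hz : run [] (z ++ arcw kP 0 0 0 0) = some d := by rw [h.same.run_app, hd1]
  exact ((h.app hz).trans h3).trans (h2.app hd2)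

theorem id_top_kal00 : wcmb A [] []
    [(1, 0, dblG 0 (tw2 0 0) [] cups ++ arcw kal 0 0 0 0), (-1, 4, cups ++ []),
     (-2, 0, cups ++ []), (-1, -4, cups ++ [])] = 0 :=
  top_of (top00.app (c' := c4) (by decide +kernel)) (by decide +kernel)

theorem id_top_kal01 : wcmb A [] []
    [(1, 0, dblG 0 (tw2 0 1) [] cups ++ arcw kal 0 0 0 0), (-1, 5, cups ++ wt 3),
     (-1, 1, cups ++ wt 3)] = 0 :=
  top_of (top01.app (c' := c4) (by decide +kernel)) (by decide +kernel)

theorem id_top_kal10 : wcmb A [] []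
    [(1, 0, dblG 0 (tw2 1 0) [] cups ++ arcw kal 0 0 0 0), (-1, 5, cups ++ wt 2),
     (-1, 1, cups ++ wt 2)] = 0 :=
  top_of (top10.app (c' := c4) (by decide +kernel)) (by decide +kernel)

theorem id_top_kal11 : wcmb A [] []
    [(1, 0, dblG 0 (tw2 1 1) [] cups ++ arcw kal 0 0 0 0), (-1, 6, cups ++ (wt 2 ++ wt 3))] = 0 :=
  top_of (top11.app (c' := c4) (by decide +kernel)) (by decide +kernel)

theorem id_top_kbe00 : wcmb A [] []
    [(1, 0, dblG 0 (tw2 0 0) [] cups ++ arcw kbe 0 0 0 0), (1, 2, cups ++ []),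
     (1, -2, cups ++ [])] = 0 :=
  top_of (top00.app (c' := c4) (by decide +kernel)) (by decide +kernel)

theorem id_top_kbe01 : wcmb A [] []
    [(1, 0, dblG 0 (tw2 0 1) [] cups ++ arcw kbe 0 0 0 0), (1, 3, cups ++ wt 3)] = 0 :=
  top_of (top01.app (c' := c4) (by decide +kernel)) (by decide +kernel)

theorem id_top_kbe10 : wcmb A [] []
    [(1, 0, dblG 0 (tw2 1 0) [] cups ++ arcw kbe 0 0 0 0), (1, 3, cups ++ wt 2)] = 0 :=
  top_of (top10.app (c' := c4) (by decide +kernel)) (by decide +kernel)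

theorem id_top_kbe11 : wcmb A [] []
    [(1, 0, dblG 0 (tw2 1 1) [] cups ++ arcw kbe 0 0 0 0), (1, 4, cups ++ (wt 2 ++ wt 3)),
     (1, 2, cups ++ wb)] = 0 :=
  top_of (top11.app (c' := c4) (by decide +kernel)) (by decide +kernel)

theorem id_top_kP00 : wcmb A [] []
    [(1, 0, dblG 0 (tw2 0 0) [] cups ++ arcw kP 0 0 0 0), (1, -3, cups ++ wt 2)] = 0 :=
  top_of (topP top00 (chk_sound
    [(3, .sw), (2, .sw), (1, .sw), (0, .sw), (4, .sw), (3, .sw), (2, .sw), (0, .sw)] (by decide +kernel))) (by decide +kernel)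

theorem id_top_kP01 : wcmb A [] []
    [(1, 0, dblG 0 (tw2 0 1) [] cups ++ arcw kP 0 0 0 0), (1, -2, cups ++ (wt 2 ++ wt 3)),
     (1, -4, cups ++ wb)] = 0 :=
  top_of (topP top01 (chk_sound
    [(8, .sw), (7, .sw), (6, .sw), (5, .sw), (4, .sw), (3, .sw), (2, .sw), (1, .sw), (0, .sw),
    (5, .sw), (4, .sw), (3, .sw), (2, .sw), (1, .sw), (9, .sw), (8, .sw), (7, .sw), (6, .sw),
    (5, .sw), (4, .sw), (3, .sw), (2, .sw), (0, .sw)] (by decide +kernel))) (by decide +kernel)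

theorem id_top_kP10 : wcmb A [] []
    [(1, 0, dblG 0 (tw2 1 0) [] cups ++ arcw kP 0 0 0 0), (1, 2, cups ++ []), (1, -2, cups ++ [])] = 0 :=
  top_of (topP top10 (chk_sound
    [(8, .sw), (7, .sw), (6, .sw), (5, .sw), (4, .sw), (3, .sw), (2, .sw), (1, .sw), (0, .sw),
    (5, .sw), (4, .sw), (3, .sw), (2, .sw), (1, .sw), (9, .sw), (8, .sw), (7, .sw), (6, .sw),
    (5, .sw), (4, .sw), (3, .sw), (2, .sw), (0, .sw)] (by decide +kernel))) (by decide +kernel)

theorem id_top_kP11 : wcmb A [] []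
    [(1, 0, dblG 0 (tw2 1 1) [] cups ++ arcw kP 0 0 0 0), (1, 3, cups ++ wt 3)] = 0 :=
  top_of (topP top11 (chk_sound
    [(13, .sw), (12, .sw), (11, .sw), (10, .sw), (9, .sw), (8, .sw), (7, .sw), (6, .sw),
    (5, .sw), (4, .sw), (3, .sw), (2, .sw), (1, .sw), (0, .sw), (10, .sw), (9, .sw), (8, .sw),
    (7, .sw), (6, .sw), (5, .sw), (4, .sw), (3, .sw), (2, .sw), (1, .sw), (14, .sw),
    (13, .sw), (12, .sw), (11, .sw), (10, .sw), (9, .sw), (8, .sw), (7, .sw), (6, .sw),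
    (5, .sw), (4, .sw), (3, .sw), (2, .sw), (0, .sw)] (by decide +kernel))) (by decide +kernel)

theorem id_top_a : wcmb A [] []
    [(1, 0, cups ++ wa), (1, 2, cups ++ []), (1, -2, cups ++ [])] = 0 :=
  top_of (W' := cups ++ [(cup none, 0), (cap, 0)]) (chk_sound
    [(4, .sw), (1, .sw), (2, .ap (.cupS (some (0, 0)) true) 2 true), (3, .sw),
    (4, .ap (.two false) 3 true), (4, .ap (.capS false) 2 true), (3, .sw),
    (2, .ap (.cupS (some (0, 0)) false) 2 false), (1, .sw), (4, .ap (.capS false) 1 true),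
    (3, .ap (.two false) 2 true), (3, .ap (.two false) 0 false), (4, .ap (.capS true) 0 true),
    (1, .sw), (2, .sw), (3, .sw), (4, .sw), (1, .ap (.cupS none false) 0 true),
    (2, .ap (.two true) 1 true), (2, .sw), (1, .sw)] (by decide +kernel)) (by decide +kernel)

theorem id_top_p : wcmb A [] []
    [(1, 0, cups ++ w13 true), (1, -4, cups ++ wb), (1, -2, cups ++ (wt 2 ++ wt 3))] = 0 :=
  top_of (W' := cups ++ [(cup none, 3), (cr true, 2), (cr true, 2), (cr true, 4), (cr false, 3),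
    (cap, 4)]) (chk_sound
    [(5, .sw), (4, .sw), (6, .sw), (1, .sw), (2, .ap (.cupS (some (0, 0)) true) 2 true),
    (3, .sw), (4, .ap (.two false) 3 true), (2, .ap (.cupS (some (0, 0)) false) 1 true),
    (1, .sw)] (by decide +kernel)) (by decide +kernel)

end Pool.Agent.Lib.MP_5b31c3_gt
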