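import Pool.Agent.Lib.MP_5b31c3_gt.Eval

/-
Identities checked by the evaluator, part 1. The checks are bundled in one theorem so that
they run one after the other.
-/

namespace Pool.Agent.Lib.MP_5b31c3_gt

open Kind

variable {R : Type*} [CommRing R] {A : Rˣ}

theorem idsV1 :
    Ev.checkU c4
    [(1, 0, wb ++ wa), (-1, 2, w13 false), (-1, -2, w13 true), (-1, 0, wt 1 ++ wt 3),
     (-1, 0, wt 0 ++ wt 2)] = true ∧
    Ev.checkU c4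
    [(1, 0, wa ++ wb), (-1, -2, w13 false), (-1, 2, w13 true), (-1, 0, wt 1 ++ wt 3),
     (-1, 0, wt 0 ++ wt 2)] = true ∧
    Ev.checkU c4
    [(1, 0, wa ++ w13 true), (-1, 4, w13 true ++ wa), (-1, -2, wb), (1, 6, wb),
     (-1, 0, wt 0 ++ wt 1), (1, 4, wt 0 ++ wt 1), (-1, 0, wt 2 ++ wt 3), (1, 4, wt 2 ++ wt 3)] = true ∧
    Ev.checkU c4
    [(1, 0, wb ++ w13 true), (-1, -4, w13 true ++ wb), (-1, 2, wa), (1, -6, wa),
     (-1, 0, wt 0 ++ wt 3), (1, -4, wt 0 ++ wt 3), (-1, 0, wt 1 ++ wt 2), (1, -4, wt 1 ++ wt 2)] = true ∧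
    Ev.checkU c4
    [(1, 0, w13 true ++ w13 false), (-1, -4, wa ++ wa), (-1, 4, wb ++ wb),
     (-1, -2, wa ++ wt 0 ++ wt 3), (-1, -2, wa ++ wt 1 ++ wt 2), (-1, 2, wb ++ wt 0 ++ wt 1),
     (-1, 2, wb ++ wt 2 ++ wt 3), (-1, 0, wt 0 ++ wt 1 ++ wt 2 ++ wt 3), (-1, 0, wt 0 ++ wt 0),
     (-1, 0, wt 1 ++ wt 1), (-1, 0, wt 2 ++ wt 2), (-1, 0, wt 3 ++ wt 3), (1, 4, []), (2, 0, []),
     (1, -4, [])] = true ∧
    Ev.checkU c4
    [(1, 0, braid [true] ++ wa), (-1, 0, w13 false ++ braid [true])] = true ∧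
    Ev.checkU c4
    [(1, 0, braid [true] ++ wb), (-1, 0, wb ++ braid [true])] = true ∧
    Ev.checkU c4
    [(1, 0, braid [true] ++ w13 true), (-1, 0, wa ++ braid [true])] = true ∧
    Ev.checkU c4
    [(1, 0, braid [false] ++ wa), (-1, 0, wa ++ braid [false])] = true ∧
    Ev.checkU c4
    [(1, 0, braid [false] ++ wb), (-1, 0, w13 false ++ braid [false])] = true ∧
    Ev.checkU c4
    [(1, 0, braid [false] ++ w13 true), (-1, 0, wb ++ braid [false])] = true ∧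
    Ev.checkU c8
    [(1, 0, arcw kP 0 0 0 0 ++ wb), (-1, 4, arcw kbe 0 0 (-1) 0 ++ w13 true),
     (1, 6, arcw kal 0 (-1) (-1) (-1)), (-1, -2, arcw kal 1 0 0 0), (-1, 0, arcw kbe 0 1 (-1) 1),
     (-1, 0, arcw kbe 1 0 0 0), (1, 4, arcw kP (-1) (-1) 0 0), (1, 4, arcw kP 0 0 (-1) (-1))] = true ∧
    Ev.checkU c8
    [(1, 0, d4 wa ++ arcw kal 0 0 0 0), (-1, 0, arcw kal 0 0 0 0 ++ wa)] = true ∧
    Ev.checkU c8
    [(1, 0, d4 wb ++ arcw kbe 0 0 0 0), (-1, 0, arcw kbe 0 0 0 0 ++ wb)] = true := by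
  refine ⟨?_, ?_, ?_, ?_, ?_, ?_, ?_, ?_, ?_, ?_, ?_, ?_, ?_, ?_⟩ <;> decide +kernel

theorem id_L1 : Van A c4
    [(1, 0, wb ++ wa), (-1, 2, w13 false), (-1, -2, w13 true), (-1, 0, wt 1 ++ wt 3),
     (-1, 0, wt 0 ++ wt 2)] :=
  checkU_sound idsV1.1

theorem id_L2 : Van A c4
    [(1, 0, wa ++ wb), (-1, -2, w13 false), (-1, 2, w13 true), (-1, 0, wt 1 ++ wt 3),
     (-1, 0, wt 0 ++ wt 2)] :=
  checkU_sound idsV1.2.1

theorem id_L3 : Van A c4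
    [(1, 0, wa ++ w13 true), (-1, 4, w13 true ++ wa), (-1, -2, wb), (1, 6, wb),
     (-1, 0, wt 0 ++ wt 1), (1, 4, wt 0 ++ wt 1), (-1, 0, wt 2 ++ wt 3), (1, 4, wt 2 ++ wt 3)] :=
  checkU_sound idsV1.2.2.1

theorem id_L4 : Van A c4
    [(1, 0, wb ++ w13 true), (-1, -4, w13 true ++ wb), (-1, 2, wa), (1, -6, wa),
     (-1, 0, wt 0 ++ wt 3), (1, -4, wt 0 ++ wt 3), (-1, 0, wt 1 ++ wt 2), (1, -4, wt 1 ++ wt 2)] :=
  checkU_sound idsV1.2.2.2.1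

theorem id_cub : Van A c4
    [(1, 0, w13 true ++ w13 false), (-1, -4, wa ++ wa), (-1, 4, wb ++ wb),
     (-1, -2, wa ++ wt 0 ++ wt 3), (-1, -2, wa ++ wt 1 ++ wt 2), (-1, 2, wb ++ wt 0 ++ wt 1),
     (-1, 2, wb ++ wt 2 ++ wt 3), (-1, 0, wt 0 ++ wt 1 ++ wt 2 ++ wt 3), (-1, 0, wt 0 ++ wt 0),
     (-1, 0, wt 1 ++ wt 1), (-1, 0, wt 2 ++ wt 2), (-1, 0, wt 3 ++ wt 3), (1, 4, []), (2, 0, []),
     (1, -4, [])] :=
  checkU_sound idsV1.2.2.2.2.1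

theorem id_ta : Van A c4
    [(1, 0, braid [true] ++ wa), (-1, 0, w13 false ++ braid [true])] :=
  checkU_sound idsV1.2.2.2.2.2.1

theorem id_tb : Van A c4
    [(1, 0, braid [true] ++ wb), (-1, 0, wb ++ braid [true])] :=
  checkU_sound idsV1.2.2.2.2.2.2.1

theorem id_tp : Van A c4
    [(1, 0, braid [true] ++ w13 true), (-1, 0, wa ++ braid [true])] :=
  checkU_sound idsV1.2.2.2.2.2.2.2.1

theorem id_fa : Van A c4
    [(1, 0, braid [false] ++ wa), (-1, 0, wa ++ braid [false])] :=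
  checkU_sound idsV1.2.2.2.2.2.2.2.2.1

theorem id_fb : Van A c4
    [(1, 0, braid [false] ++ wb), (-1, 0, w13 false ++ braid [false])] :=
  checkU_sound idsV1.2.2.2.2.2.2.2.2.2.1

theorem id_fp : Van A c4
    [(1, 0, braid [false] ++ w13 true), (-1, 0, wb ++ braid [false])] :=
  checkU_sound idsV1.2.2.2.2.2.2.2.2.2.2.1

theorem id_K4b : Van A c8
    [(1, 0, arcw kP 0 0 0 0 ++ wb), (-1, 4, arcw kbe 0 0 (-1) 0 ++ w13 true),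
     (1, 6, arcw kal 0 (-1) (-1) (-1)), (-1, -2, arcw kal 1 0 0 0), (-1, 0, arcw kbe 0 1 (-1) 1),
     (-1, 0, arcw kbe 1 0 0 0), (1, 4, arcw kP (-1) (-1) 0 0), (1, 4, arcw kP 0 0 (-1) (-1))] :=
  checkU_sound idsV1.2.2.2.2.2.2.2.2.2.2.2.1

theorem id_K5a : Van A c8
    [(1, 0, d4 wa ++ arcw kal 0 0 0 0), (-1, 0, arcw kal 0 0 0 0 ++ wa)] :=
  checkU_sound idsV1.2.2.2.2.2.2.2.2.2.2.2.2.1

theorem id_K5b : Van A c8
    [(1, 0, d4 wb ++ arcw kbe 0 0 0 0), (-1, 0, arcw kbe 0 0 0 0 ++ wb)] :=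
  checkU_sound idsV1.2.2.2.2.2.2.2.2.2.2.2.2.2

end Pool.Agent.Lib.MP_5b31c3_gt
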