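import Pool.Agent.Lib.MP_5b31c3_gt.Eval

/-
Identities checked by the evaluator, part 2. The checks are bundled in one theorem so that
they run one after the other.
-/

namespace Pool.Agent.Lib.MP_5b31c3_gt

open Kind

variable {R : Type*} [CommRing R] {A : Rˣ}

theorem idsV2 :
    Ev.checkU c8
    [(1, 0, d4 wa ++ arcw kbe 0 0 0 0), (-1, 0, arcw kal 0 (-1) 1 0),
     (-1, 0, arcw kal 1 0 0 (-1)), (-1, -2, arcw kG 0 (-1) 0 0), (-1, 2, arcw kP 0 0 1 0)] = true ∧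
    Ev.checkU c8
    [(1, 0, arcw kbe 0 0 0 0 ++ wa), (-1, 0, arcw kal 0 (-1) 1 0), (-1, 0, arcw kal 1 0 0 (-1)),
     (-1, 2, arcw kG 0 (-1) 0 0), (-1, -2, arcw kP 0 0 1 0)] = true ∧
    Ev.checkU c8
    [(1, 0, d4 wb ++ arcw kal 0 0 0 0), (-1, 0, arcw kbe (-1) 1 0 0),
     (-1, 0, arcw kbe 0 0 (-1) 1), (-1, 2, arcw kG 0 0 0 1), (-1, -2, arcw kP (-1) 0 0 0)] = true ∧
    Ev.checkU c8
    [(1, 0, arcw kal 0 0 0 0 ++ wb), (-1, 0, arcw kbe (-1) 1 0 0), (-1, 0, arcw kbe 0 0 (-1) 1),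
     (-1, -2, arcw kG 0 0 0 1), (-1, 2, arcw kP (-1) 0 0 0)] = true ∧
    Ev.checkU c8
    [(1, 0, d4 wb ++ arcw kP 0 0 0 0), (-1, -4, arcw kP 0 0 0 0 ++ wb),
     (1, -6, arcw kal 1 0 0 0), (-1, 2, arcw kal 1 0 0 0), (-1, 0, arcw kbe 0 1 (-1) 1),
     (1, -4, arcw kbe 0 1 (-1) 1), (-1, 0, arcw kbe 1 0 0 0), (1, -4, arcw kbe 1 0 0 0)] = true ∧
    Ev.checkU c8
    [(1, 0, d4 (braid [true]) ++ arcw kal 0 0 0 0), (-1, 0, arcw kG 0 0 0 0 ++ braid [true])] = true ∧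
    Ev.checkU c8
    [(1, 0, d4 (braid [true]) ++ arcw kbe 0 0 0 0), (-1, 0, arcw kbe 0 0 (-1) 0 ++ braid [true])] = true ∧
    Ev.checkU c8
    [(1, 0, d4 (braid [true]) ++ arcw kP 0 0 0 0), (-1, 0, arcw kal 1 0 0 (-1) ++ braid [true])] = true := by
  refine ⟨?_, ?_, ?_, ?_, ?_, ?_, ?_, ?_⟩ <;> decide +kernel

theorem id_K1 : Van A c8
    [(1, 0, d4 wa ++ arcw kbe 0 0 0 0), (-1, 0, arcw kal 0 (-1) 1 0),
     (-1, 0, arcw kal 1 0 0 (-1)), (-1, -2, arcw kG 0 (-1) 0 0), (-1, 2, arcw kP 0 0 1 0)] :=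
  checkU_sound idsV2.1

theorem id_K1L : Van A c8
    [(1, 0, arcw kbe 0 0 0 0 ++ wa), (-1, 0, arcw kal 0 (-1) 1 0), (-1, 0, arcw kal 1 0 0 (-1)),
     (-1, 2, arcw kG 0 (-1) 0 0), (-1, -2, arcw kP 0 0 1 0)] :=
  checkU_sound idsV2.2.1

theorem id_K2 : Van A c8
    [(1, 0, d4 wb ++ arcw kal 0 0 0 0), (-1, 0, arcw kbe (-1) 1 0 0),
     (-1, 0, arcw kbe 0 0 (-1) 1), (-1, 2, arcw kG 0 0 0 1), (-1, -2, arcw kP (-1) 0 0 0)] :=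
  checkU_sound idsV2.2.2.1

theorem id_K2L : Van A c8
    [(1, 0, arcw kal 0 0 0 0 ++ wb), (-1, 0, arcw kbe (-1) 1 0 0), (-1, 0, arcw kbe 0 0 (-1) 1),
     (-1, -2, arcw kG 0 0 0 1), (-1, 2, arcw kP (-1) 0 0 0)] :=
  checkU_sound idsV2.2.2.2.1

theorem id_K3b : Van A c8
    [(1, 0, d4 wb ++ arcw kP 0 0 0 0), (-1, -4, arcw kP 0 0 0 0 ++ wb),
     (1, -6, arcw kal 1 0 0 0), (-1, 2, arcw kal 1 0 0 0), (-1, 0, arcw kbe 0 1 (-1) 1),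
     (1, -4, arcw kbe 0 1 (-1) 1), (-1, 0, arcw kbe 1 0 0 0), (1, -4, arcw kbe 1 0 0 0)] :=
  checkU_sound idsV2.2.2.2.2.1

theorem id_tal : Van A c8
    [(1, 0, d4 (braid [true]) ++ arcw kal 0 0 0 0), (-1, 0, arcw kG 0 0 0 0 ++ braid [true])] :=
  checkU_sound idsV2.2.2.2.2.2.1

theorem id_tbe : Van A c8
    [(1, 0, d4 (braid [true]) ++ arcw kbe 0 0 0 0), (-1, 0, arcw kbe 0 0 (-1) 0 ++ braid [true])] :=
  checkU_sound idsV2.2.2.2.2.2.2.1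

theorem id_tP : Van A c8
    [(1, 0, d4 (braid [true]) ++ arcw kP 0 0 0 0), (-1, 0, arcw kal 1 0 0 (-1) ++ braid [true])] :=
  checkU_sound idsV2.2.2.2.2.2.2.2

end Pool.Agent.Lib.MP_5b31c3_gt
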