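import Pool.Agent.Lib.MP_5b31c3_gt.Eval

/-
Identities checked by the evaluator, part 3. The checks are bundled in one theorem so that
they run one after the other.
-/

namespace Pool.Agent.Lib.MP_5b31c3_gt

open Kind

variable {R : Type*} [CommRing R] {A : Rˣ}

theorem idsV3 :
    Ev.checkU c8
    [(1, 0, d4 wa ++ arcw kP 0 0 0 0), (-1, 4, arcw kP 0 0 0 0 ++ wa),
     (-1, 0, arcw kal 0 0 (-1) 0), (1, 4, arcw kal 0 0 (-1) 0), (-1, 0, arcw kal 1 (-1) 0 (-1)),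
     (1, 4, arcw kal 1 (-1) 0 (-1)), (-1, -2, arcw kbe 0 0 (-1) 0), (1, 6, arcw kbe 0 0 (-1) 0)] = true ∧
    Ev.checkU c8
    [(1, 0, arcw kP 0 0 0 0 ++ wa), (-1, -4, arcw kal 1 0 0 0 ++ w13 true),
     (-1, 0, arcw kal 0 0 (-1) 0), (-1, 0, arcw kal 1 (-1) 0 (-1)), (-1, 2, arcw kbe 0 0 (-1) 0),
     (1, -6, arcw kbe 1 1 0 1), (1, -4, arcw kP 0 1 1 0), (1, -4, arcw kP 1 0 0 1)] = true ∧
    Ev.checkU c8
    [(1, 0, d4 (braid [false]) ++ arcw kal 0 0 0 0), (-1, 0, arcw kal 0 0 1 0 ++ braid [false])] = true ∧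
    Ev.checkU c8
    [(1, 0, d4 (braid [false]) ++ arcw kbe 0 0 0 0), (-1, 0, arcw kG 0 0 0 0 ++ braid [false])] = true ∧
    Ev.checkU c8
    [(1, 0, d4 (braid [false]) ++ arcw kP 0 0 0 0), (-1, 0, arcw kbe 0 0 0 0 ++ braid [false])] = true := by
  refine ⟨?_, ?_, ?_, ?_, ?_⟩ <;> decide +kernel

theorem id_K3a : Van A c8
    [(1, 0, d4 wa ++ arcw kP 0 0 0 0), (-1, 4, arcw kP 0 0 0 0 ++ wa),
     (-1, 0, arcw kal 0 0 (-1) 0), (1, 4, arcw kal 0 0 (-1) 0), (-1, 0, arcw kal 1 (-1) 0 (-1)),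
     (1, 4, arcw kal 1 (-1) 0 (-1)), (-1, -2, arcw kbe 0 0 (-1) 0), (1, 6, arcw kbe 0 0 (-1) 0)] :=
  checkU_sound idsV3.1

theorem id_K4a : Van A c8
    [(1, 0, arcw kP 0 0 0 0 ++ wa), (-1, -4, arcw kal 1 0 0 0 ++ w13 true),
     (-1, 0, arcw kal 0 0 (-1) 0), (-1, 0, arcw kal 1 (-1) 0 (-1)), (-1, 2, arcw kbe 0 0 (-1) 0),
     (1, -6, arcw kbe 1 1 0 1), (1, -4, arcw kP 0 1 1 0), (1, -4, arcw kP 1 0 0 1)] :=
  checkU_sound idsV3.2.1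

theorem id_fal : Van A c8
    [(1, 0, d4 (braid [false]) ++ arcw kal 0 0 0 0), (-1, 0, arcw kal 0 0 1 0 ++ braid [false])] :=
  checkU_sound idsV3.2.2.1

theorem id_fbe : Van A c8
    [(1, 0, d4 (braid [false]) ++ arcw kbe 0 0 0 0), (-1, 0, arcw kG 0 0 0 0 ++ braid [false])] :=
  checkU_sound idsV3.2.2.2.1

theorem id_fP : Van A c8
    [(1, 0, d4 (braid [false]) ++ arcw kP 0 0 0 0), (-1, 0, arcw kbe 0 0 0 0 ++ braid [false])] :=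
  checkU_sound idsV3.2.2.2.2

end Pool.Agent.Lib.MP_5b31c3_gt
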