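import Pool.Agent.Lib.MP_5b31c3_gt.Span2
import Pool.Agent.Lib.MP_5b31c3_gt.Gath
import Pool.Agent.Lib.MP_5b31c3_gt.Peel

/-
A spanning set for the skein module of the exterior of two nested minima.
-/

namespace Pool.Agent.Lib.MP_5b31c3_gt

open Kind

variable {R : Type*} [CommRing R] {A : Rˣ}

theorem s0_park0t : Iso A [some 0, some 0, some 0, some 0, none]
    [(cup none, 1), (cr true, 0), (cr true, 0), (cr false, 5), (cr false, 4), (cr false, 3),
    (cap, 2), (cr true, 1), (cr true, 2), (cr true, 3)]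
    [(cr false, 3), (cr false, 2), (cr false, 1), (cr true, 0), (cr true, 0), (cr true, 1),
    (cr true, 2), (cr true, 3)] :=
  chk_sound
    [(2, .sw), (1, .sw), (0, .sw), (3, .sw), (2, .sw), (1, .sw), (4, .sw), (3, .sw), (2, .sw),
    (5, .sw), (4, .sw), (3, .ap .zag 1 true)]
    (by decide +kernel)

theorem s0_park1t : Iso A [some 0, some 0, some 0, some 0, none]
    [(cup none, 2), (cr true, 1), (cr true, 1), (cr false, 5), (cr false, 4), (cap, 3),
    (cr true, 2), (cr true, 3)]
    [(cr false, 3), (cr false, 2), (cr true, 1), (cr true, 1), (cr true, 2), (cr true, 3)] :=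
  chk_sound
    [(2, .sw), (1, .sw), (0, .sw), (3, .sw), (2, .sw), (1, .sw), (4, .sw), (3, .sw),
    (2, .ap .zag 2 true)]
    (by decide +kernel)

theorem s0_move1t : Iso A []
    [(cup (some (0, 1)), 0), (cup (some (0, 0)), 1), (cup none, 2), (cr true, 1),
    (cr true, 1)]
    [(cup (some (0, 1)), 0), (cup (some (0, 0)), 1), (cup none, 2), (cr true, 3),
    (cr true, 3)] :=
  chk_sound
    [(2, .ap (.cupS none true) 1 true), (1, .sw), (2, .ap (.cupS (some (0, 0)) false) 2 true),
    (3, .sw), (2, .ap (.cupS (some (0, 0)) true) 1 true), (1, .sw),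
    (2, .ap (.cupS none false) 2 true)]
    (by decide +kernel)

theorem s0_move0t : Iso A []
    [(cup (some (0, 1)), 0), (cup (some (0, 0)), 1), (cup none, 1), (cr true, 0),
    (cr true, 0)]
    [(cup (some (0, 1)), 0), (cup (some (0, 0)), 1), (cup none, 1), (cr true, 2),
    (cr true, 3), (cr true, 4), (cr true, 4), (cr false, 3), (cr false, 2)] :=
  chk_sound
    [(2, .ap (.cupS none true) 0 true), (1, .sw), (2, .sw), (3, .sw), (0, .sw),
    (1, .ap (.cupS (some (0, 1)) false) 1 true), (2, .sw),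
    (1, .ap (.cupS (some (0, 1)) true) 0 true), (0, .sw), (1, .ap (.cupS none false) 1 true),
    (5, .ap (.two true) 2 false), (4, .ap (.cupS (some (0, 0)) true) 2 true), (3, .sw),
    (2, .sw), (3, .ap (.two false) 3 false), (2, .ap (.cupS (some (0, 0)) true) 2 false),
    (1, .sw)]
    (by decide +kernel)

theorem s0_park0f : Iso A [some 0, some 0, some 0, some 0, none]
    [(cup none, 1), (cr false, 0), (cr false, 0), (cr false, 5), (cr false, 4), (cr false, 3),
    (cap, 2), (cr true, 1), (cr true, 2), (cr true, 3)]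
    [(cr false, 3), (cr false, 2), (cr false, 1), (cr false, 0), (cr false, 0), (cr true, 1),
    (cr true, 2), (cr true, 3)] :=
  chk_sound
    [(2, .sw), (1, .sw), (0, .sw), (3, .sw), (2, .sw), (1, .sw), (4, .sw), (3, .sw), (2, .sw),
    (5, .sw), (4, .sw), (3, .ap .zag 1 true)]
    (by decide +kernel)

theorem s0_park1f : Iso A [some 0, some 0, some 0, some 0, none]
    [(cup none, 2), (cr false, 1), (cr false, 1), (cr false, 5), (cr false, 4), (cap, 3),
    (cr true, 2), (cr true, 3)]
    [(cr false, 3), (cr false, 2), (cr false, 1), (cr false, 1), (cr true, 2), (cr true, 3)] :=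
  chk_sound
    [(2, .sw), (1, .sw), (0, .sw), (3, .sw), (2, .sw), (1, .sw), (4, .sw), (3, .sw),
    (2, .ap .zag 2 true)]
    (by decide +kernel)

theorem s0_move1f : Iso A []
    [(cup (some (0, 1)), 0), (cup (some (0, 0)), 1), (cup none, 2), (cr false, 1),
    (cr false, 1)]
    [(cup (some (0, 1)), 0), (cup (some (0, 0)), 1), (cup none, 2), (cr false, 3),
    (cr false, 3)] :=
  chk_sound
    [(2, .ap (.cupS none false) 1 true), (1, .sw), (2, .ap (.cupS (some (0, 0)) true) 2 true),
    (3, .sw), (2, .ap (.cupS (some (0, 0)) false) 1 true), (1, .sw),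
    (2, .ap (.cupS none true) 2 true)]
    (by decide +kernel)

theorem s0_move0f : Iso A []
    [(cup (some (0, 1)), 0), (cup (some (0, 0)), 1), (cup none, 1), (cr false, 0),
    (cr false, 0)]
    [(cup (some (0, 1)), 0), (cup (some (0, 0)), 1), (cup none, 1), (cr true, 2),
    (cr true, 3), (cr false, 4), (cr false, 4), (cr false, 3), (cr false, 2)] :=
  chk_sound
    [(2, .ap (.cupS none false) 0 true), (1, .sw), (2, .sw), (3, .sw), (0, .sw),
    (1, .ap (.cupS (some (0, 1)) true) 1 true), (2, .sw),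
    (1, .ap (.cupS (some (0, 1)) false) 0 true), (0, .sw), (1, .ap (.cupS none true) 1 true),
    (5, .ap (.two true) 2 false), (4, .ap (.cupS (some (0, 0)) true) 2 true), (3, .sw),
    (2, .sw), (3, .ap (.two false) 3 false), (2, .ap (.cupS (some (0, 0)) true) 2 false),
    (1, .sw)]
    (by decide +kernel)

/-- The two strands on the left. -/
def s0P (j : ℕ) : Bool := decide (0 ≤ j ∧ j < 0 + 2)

/-- The pieces of a hook around one of the two strands on the left. -/
structure Park (A : Rˣ) (h β β' μ : Word) (d : Config) : Prop where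
  len : d.length = 4
  pol : np d = 2
  r1 : run [some 0, some 0] β = some d
  k1 : skel [some 0, some 0] β = []
  park : Iso A (c4 ++ [none]) (β ++ μ) h
  move : Iso A [] (cups ++ β) (cups ++ β')
  r2 : run c4 β' = some (d ++ [some 0, some 0])
  k2 : skel c4 β' = []
  u2 : und s0P c4 β' = 0
  r3 : run (d ++ [some 0, some 0] ++ [none]) μ = some (c4 ++ [none])
  k3 : skel (d ++ [some 0, some 0] ++ [none]) μ = []
  u3 : und s0P (d ++ [some 0, some 0] ++ [none]) μ = 0

theorem s0_park {j : ℕ} (hj : j < 2) (b : Bool) :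
    ∃ β β' μ d, Park A (hook 4 j b) β β' μ d := by
  obtain rfl | rfl : j = 0 ∨ j = 1 := by omega
  · refine ⟨[(cup none, 1), (cr b, 0), (cr b, 0)],
      [(cup none, 1), (cr true, 2), (cr true, 3), (cr b, 4), (cr b, 4), (cr false, 3),
        (cr false, 2)],
      [(cr false, 5), (cr false, 4), (cr false, 3), (cap, 2), (cr true, 1), (cr true, 2),
        (cr true, 3)], [some 0, none, none, some 0], ?_⟩
    cases b
    · exact ⟨rfl, rfl, rfl, rfl, s0_park0f, s0_move0f, rfl, rfl, rfl, rfl, rfl, rfl⟩
    · exact ⟨rfl, rfl, rfl, rfl, s0_park0t, s0_move0t, rfl, rfl, rfl, rfl, rfl, rfl⟩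
  · refine ⟨[(cup none, 2), (cr b, 1), (cr b, 1)], [(cup none, 2), (cr b, 3), (cr b, 3)],
      [(cr false, 5), (cr false, 4), (cap, 3), (cr true, 2), (cr true, 3)],
      [some 0, some 0, none, none], ?_⟩
    cases b
    · exact ⟨rfl, rfl, rfl, rfl, s0_park1f, s0_move1f, rfl, rfl, rfl, rfl, rfl, rfl⟩
    · exact ⟨rfl, rfl, rfl, rfl, s0_park1t, s0_move1t, rfl, rfl, rfl, rfl, rfl, rfl⟩

theorem s0_interp_rx (k s : ℕ) (g : List Gl) :
    interp (k + s) (g.map (Gl.rx 0 s)) = shift s (interp k g) := by
  induction g with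
  | nil => rfl
  | cons γ g ih =>
    rw [List.map_cons, interp, interp, ih, shift_append]
    congr 1
    cases γ with
    | hk j b =>
      simp only [Gl.rx, Gl.w, hook, Nat.not_lt_zero, if_false, shift_shift]
      rw [show k + s - (j + s) - 1 = k - j - 1 by omega]
    | _ => simp [Gl.rx, Gl.w, Nat.add_assoc]

theorem s0_split {P : ℕ → Bool} {g : List Gl} (h : cntH P g ≠ 0) :
    ∃ g1 j b g2, g = g1 ++ Gl.hk j b :: g2 ∧ cntH P g1 = 0 ∧ P j = true ∧
      cntH P g = cntH P g2 + 1 := by
  induction g with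
  | nil => exact absurd rfl h
  | cons γ g ih =>
    have key : cntH P (γ :: g) = cntH P g → (∀ g', cntH P (γ :: g') = cntH P g') →
        ∃ g1 j b g2, γ :: g = g1 ++ Gl.hk j b :: g2 ∧ cntH P g1 = 0 ∧ P j = true ∧
          cntH P (γ :: g) = cntH P g2 + 1 := by
      intro e e'
      obtain ⟨g1, j, b, g2, rfl, h1, h2, h3⟩ := ih (e ▸ h)
      exact ⟨γ :: g1, j, b, g2, rfl, (e' g1).trans h1, h2, e.trans h3⟩
    cases γ with
    | hk j b =>
      cases hP : P j with
      | true => exact ⟨[], j, b, g, rfl, rfl, hP, by simp [cntH, hP, Nat.add_comm]⟩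
      | false => exact key (by simp [cntH, hP]) fun _ => by simp [cntH, hP]
    | _ => exact key rfl fun _ => rfl

theorem s0_und_false {P : ℕ → Bool} (h : ∀ j, P j = false) (c : Config) (w : Word) :
    und P c w = 0 := by
  induction w generalizing c with
  | nil => rfl
  | cons l w ih =>
    obtain ⟨x, i⟩ := l
    simp [und, h, ih]

theorem s0_shift_rep (s k : ℕ) (w : Word) :
    shift s (List.replicate k w).flatten = (List.replicate k (shift s w)).flatten := by
  induction k with
  | zero => rfl
  | succ k ih => simp [List.replicate_succ, ih]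

theorem s0_c4P : (fun j => ((c4)[j]?.bind id).isSome && s0P (np (c4.take j))) = s0P := by
  funext j
  match j with
  | 0 => rfl
  | 1 => rfl
  | 2 => rfl
  | 3 => rfl
  | j + 4 => simp [c4, s0P]

/-- A hook around one of the strands on the left is moved across the minimum. -/
theorem s0_step {g : List Gl} (hg : runG 4 0 g = some 0) (hc : cntH s0P g ≠ 0) :
    ∃ ν, run c4 ν = some c4 ∧ skel c4 ν = [] ∧ und s0P c4 ν < cntH s0P g ∧
      cls A [] (cups ++ interp 4 g) = cls A [] (cups ++ ν) := by
  obtain ⟨g1, j, b, g2, rfl, h1, h2, h3⟩ := s0_split hc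
  rw [runG_append] at hg
  obtain ⟨m1, hg1, hg2⟩ := Option.bind_eq_some_iff.mp hg
  obtain ⟨m2, hg3, hg4⟩ := Option.bind_eq_some_iff.mp hg2
  simp only [Gl.ty] at hg3
  split_ifs at hg3 with h4
  cases hg3
  obtain ⟨m, rfl⟩ : ∃ k, m1 = k + 1 := ⟨m1 - 1, by omega⟩
  obtain ⟨g0, hg0, rfl⟩ := exists_rx (k := 2) (s := 2) (i := 0) hg1 (by omega) h1
  obtain ⟨β, β', μ, d, hp⟩ := s0_park (A := A) (j := j) (by simpa [s0P] using h2) b
  have rG : run [some 0, some 0] (interp 2 g0) = some ([some 0, some 0] ++ nn (m + 1)) :=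
    run_interp (base := [some 0, some 0]) hg0 rfl
  have kG : skel [some 0, some 0] (interp 2 g0) = [] :=
    skel_interp (base := [some 0, some 0]) hg0 rfl
  have r1 : run (d ++ [some 0, some 0]) (shift 4 (interp 2 g0)) =
      some (d ++ [some 0, some 0] ++ [none] ++ nn m) := by
    have := run_left rG d
    rw [hp.len] at this
    rw [this]
    simp [nn, List.replicate_succ]
  have k1 : skel (d ++ [some 0, some 0]) (shift 4 (interp 2 g0)) = [] := by
    have := skel_left rG d
    rw [hp.len, kG] at this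
    exact this
  have u1 : und s0P (d ++ [some 0, some 0]) (shift 4 (interp 2 g0)) = 0 := by
    have := und_whisk s0P rG d []
    rw [hp.len, hp.pol, List.append_nil] at this
    rw [this]
    exact s0_und_false (fun j => by simp [s0P]) _ _
  have r2 : run (d ++ [some 0, some 0] ++ [none] ++ nn m) μ = some (c4 ++ nn (m + 1)) :=
    run_right hp.r3 (nn m)
  have k2 : skel (d ++ [some 0, some 0] ++ [none] ++ nn m) μ = [] :=
    (skel_right hp.r3 (nn m)).trans hp.k3
  have u2 : und s0P (d ++ [some 0, some 0] ++ [none] ++ nn m) μ = 0 := by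
    have := und_whisk s0P hp.r3 [] (nn m)
    simp only [List.nil_append, List.length_nil, shift_zero, np_nil, Nat.add_zero] at this
    rw [this]
    exact hp.u3
  have r3 : run (c4 ++ nn (m + 1)) (interp 4 g2) = some c4 := run_interp (base := c4) hg4 rfl
  have k3 : skel (c4 ++ nn (m + 1)) (interp 4 g2) = [] := skel_interp (base := c4) hg4 rfl
  have u3 : und s0P (c4 ++ nn (m + 1)) (interp 4 g2) = cntH s0P g2 := by
    rw [und_interp s0P (base := c4) hg4 rfl, s0_c4P]
  refine ⟨β' ++ (shift 4 (interp 2 g0) ++ (μ ++ interp 4 g2)), ?_, ?_, ?_, ?_⟩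
  · rw [run_append_of hp.r2, run_append_of r1, run_append_of r2, r3]
  · rw [skel_append_of hp.r2, skel_append_of r1, skel_append_of r2, hp.k2, k1, k2, k3]
    rfl
  · rw [und_append _ hp.r2, und_append _ r1, und_append _ r2, hp.u2, u1, u2, u3, h3]
    omega
  · have r0 : run [] (cups ++ shift 2 (interp 2 g0)) = some (c4 ++ [none] ++ nn m) := by
      rw [run_append_of (c' := [some 0, some 0] ++ [some 0, some 0]) rfl]
      exact run_left rG [some 0, some 0]
    have e1 := ((hp.park.right (nn m)).pre r0).cls_app (interp 4 g2)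
    have e2 := ((far_block (A := A) hp.r1 rG (Or.inl hp.k1)).pre (c := []) (p := cups)
      rfl).cls_app (μ ++ interp 4 g2)
    have e3 := hp.move.cls_app (shift 4 (interp 2 g0) ++ (μ ++ interp 4 g2))
    rw [interp_append, s0_interp_rx 2 2, interp, Gl.w]
    simp only [List.append_assoc, hp.len, List.length_cons, List.length_nil, Nat.reduceAdd,
      Nat.zero_add] at e1 e2 e3
    rw [← e1, ← e2, e3]

theorem span0 {ν : Word} (h : run c4 ν = some c4) (hs : skel c4 ν = []) :
    cls A [] (cups ++ ν) ∈ Submodule.span R {z | ∃ k i j : ℕ, z = cls A []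
      (cups ++ (List.replicate k wb).flatten ++ shift 2 (lp i) ++ shift 3 (lp j))} := by
  induction hN : und s0P c4 ν using Nat.strong_induction_on generalizing ν with
  | _ N ih =>
  obtain ⟨hg, e⟩ := dnG_iso (A := A) h (by simp [hs])
  have hc := cntH_dnG s0P h hs
  have e0 : cls A [] (cups ++ ν) = cls A [] (cups ++ interp 4 (dnG c4 ν)) := by
    have := (e.pre (c := []) (p := cups) rfl).eq
    rw [hs] at this
    simpa [show gather c4 = [] from rfl, show np c4 = 4 from rfl] using this
  rw [e0]
  by_cases h0 : cntH s0P (dnG c4 ν) = 0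
  · obtain ⟨g0, hg0, e1⟩ := exists_rx (k := 2) (s := 2) (i := 0) hg (by omega) h0
    have hE : ∀ v, cls A [] (cups ++ shift 2 v) =
        emb A cups [some 0, some 0] [some 0, some 0] [] [] rfl (cls A _ v) := fun v =>
      ((emb_cls (c := []) cups [some 0, some 0] [some 0, some 0] [] [] rfl v).trans
        (by simp)).symm
    rw [e1, s0_interp_rx 2 2, hE]
    refine sp_map_mem _ ?_ (span2 (A := A) (some 0) (some 0) hg0)
    rintro _ ⟨k, i, j, rfl⟩
    rw [← hE]
    exact Submodule.subset_span ⟨k, i, j, by simp [s0_shift_rep, wb, shift_shift]⟩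
  · obtain ⟨ν', h1, h2, h3, e1⟩ := s0_step (A := A) hg h0
    rw [e1]
    exact ih _ (by omega) h1 h2 rfl

end Pool.Agent.Lib.MP_5b31c3_gt
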