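import Pool.Agent.Lib.MP_5b31c3_gt.Stage
import Pool.Agent.Lib.MP_5b31c3_gt.Peel
import Pool.Agent.Lib.MP_5b31c3_gt.AlgPull
import Pool.Agent.Lib.MP_5b31c3_gt.Hat
import Pool.Agent.Lib.MP_5b31c3_gt.Span0
import Pool.Agent.Lib.MP_5b31c3_gt.HT
import Pool.Agent.Lib.MP_5b31c3_gt.Gath

-- part Pool.Agent.Lib.MP_5b31c3_gt.Clear
section

/-
Links can be moved off a chain of surgery circles.
-/

namespace Pool.Agent.Lib.MP_5b31c3_gt

open Kind

variable {R : Type*} [CommRing R] {A : Rˣ}

/-- The positions of the two legs of a circle among the surgery strands. -/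
def clrP (i : ℕ) : ℕ → Bool := fun t => decide (i ≤ t ∧ t < i + 2)

theorem clrP_shift (i : ℕ) : (fun t => clrP i (t + i)) = clrP 0 := by
  funext t
  simp only [clrP]
  congr 1
  apply propext
  omega

theorem clr_poles_append (c d : Config) : poles (c ++ d) = poles c ++ poles d :=
  List.filter_append _ _

theorem clr_poles_some (n : ℕ) (c : Config) : poles (some n :: c) = some n :: poles c := by
  simp [poles]

theorem clr_np_poles (c : Config) : np (poles c) = (poles c).length :=
  List.countP_eq_length.mpr (by simp [poles])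

theorem clr_np_nn (m : ℕ) : np (nn m) = 0 := by
  induction m with
  | zero => rfl
  | succ m ih => simpa [nn, List.replicate_succ] using ih

theorem clr_np_le (c : Config) : np c ≤ c.length := List.countP_le_length

theorem clr_np_take {c : Config} (h : np c = c.length) {t : ℕ} (ht : t ≤ c.length) :
    np (c.take t) = t := by
  have h1 : np (c.take t) + np (c.drop t) = c.length := by
    rw [← np_append, List.take_append_drop, h]
  have h2 := clr_np_le (c.take t)
  have h3 := clr_np_le (c.drop t)
  simp only [List.length_take, List.length_drop] at h2 h3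
  omega

theorem clr_poles_of {c : Config} (h : np c = c.length) : poles c = c :=
  List.filter_eq_self.mpr (List.countP_eq_length.mp h)

theorem clr_np_take_mono (c : Config) {s t : ℕ} (h : s ≤ t) : np (c.take s) ≤ np (c.take t) := by
  have : c.take s = (c.take t).take s := by rw [List.take_take, Nat.min_eq_left h]
  rw [this]
  conv_rhs => rw [← List.take_append_drop s (c.take t), np_append]
  omega

theorem clr_nn_succ (m : ℕ) : nn (m + 1) = none :: nn m := rfl

theorem clr_cntH_rx (P : ℕ → Bool) (i s : ℕ) (g : List Gl) :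
    cntH P (g.map (Gl.rx i s)) = cntH (fun t => P (if t < i then t else t + s)) g := by
  induction g with
  | nil => rfl
  | cons x g ih => cases x <;> simp [cntH, Gl.rx, ih]

theorem clr_cntH_false {P : ℕ → Bool} (h : ∀ t, P t = false) (g : List Gl) : cntH P g = 0 := by
  induction g with
  | nil => rfl
  | cons x g ih => cases x <;> simp [cntH, ih, h]

theorem clr_cntH_cons (P : ℕ → Bool) (x : Gl) (g : List Gl) :
    cntH P (x :: g) = cntH P [x] + cntH P g := cntH_append P [x] g

theorem clr_split {P : ℕ → Bool} {g : List Gl} {N : ℕ} (h : cntH P g = N + 1) :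
    ∃ g1 t b g2, g = g1 ++ Gl.hk t b :: g2 ∧ P t = true ∧ cntH P g1 = N ∧ cntH P g2 = 0 := by
  induction g generalizing N with
  | nil => simp [cntH] at h
  | cons x g ih =>
    cases hg : cntH P g with
    | zero =>
      cases x with
      | hk t b =>
        simp only [cntH, hg] at h
        split_ifs at h with hP
        · exact ⟨[], t, b, g, rfl, hP, by simp only [cntH]; omega, hg⟩
        · omega
      | cup i => simp [cntH, hg] at h
      | cap i => simp [cntH, hg] at h
      | cr b i => simp [cntH, hg] at h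
    | succ N' =>
      obtain ⟨g1, t, b, g2, rfl, h1, h2, h3⟩ := ih hg
      refine ⟨x :: g1, t, b, g2, rfl, h1, ?_, h3⟩
      rw [clr_cntH_cons, hg] at h
      rw [clr_cntH_cons, h2]
      omega

theorem clr_emb {c cl c0 cr : Config} {p l r : Word} {e : R}
    (hp : run c p = some (cl ++ c0 ++ cr)) (h : cls A c0 l = e • cls A c0 r) (s : Word) :
    cls A c (p ++ shift cl.length l ++ s) = e • cls A c (p ++ shift cl.length r ++ s) := by
  simpa only [emb_cls, map_smul] using congrArg (emb A p cl c0 cr s hp) h

theorem clr_rw {c c' : Config} {p l r : Word} (hp : run c p = some c') (h : Iso A c' l r)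
    (s : Word) : cls A c (p ++ l ++ s) = cls A c (p ++ r ++ s) := (h.pre hp).cls_app s

/-- A typed word without skeleton and the number of its passages under selected strands. -/
structure ClrF (P : ℕ → Bool) (c : Config) (w : Word) (c' : Config) (N : ℕ) : Prop where
  r : run c w = some c'
  s : skel c w = []
  u : und P c w = N

theorem ClrF.append {P : ℕ → Bool} {c c' c'' : Config} {u w : Word} {N N' : ℕ}
    (h : ClrF P c u c' N) (h' : ClrF P c' w c'' N') : ClrF P c (u ++ w) c'' (N + N') :=
  ⟨by rw [run_append_of h.r, h'.r], by rw [skel_append_of h.r, h.s, h'.s]; rfl,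
    by rw [und_append P h.r, h.u, h'.u]⟩

theorem ClrF.whisk {P : ℕ → Bool} {c c' : Config} {w : Word} {N : ℕ} (cl cr : Config)
    (h : ClrF (fun t => P (t + np cl)) c w c' N) :
    ClrF P (cl ++ c ++ cr) (shift cl.length w) (cl ++ c' ++ cr) N :=
  ⟨run_whisk h.r cl cr, by rw [skel_whisk h.r, h.s]; rfl, by rw [und_whisk P h.r, h.u]⟩

theorem ClrF.dbl {P : ℕ → Bool} {c c' : Config} {w : Word} {N n : ℕ} (h : ClrF P c w c' N)
    (hP : ∀ j, P j = true → (poles c)[j]? ≠ some (some n)) (tw : ℤ → ℤ) :
    ClrF P (dcfg n c) (dblG n tw c w) (dcfg n c') N :=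
  ⟨run_dblG h.r n tw, by rw [skel_dblG h.r, h.s], by rw [und_dblG P h.r h.s hP, h.u]⟩

theorem ClrF.cast {P : ℕ → Bool} {c c' d d' : Config} {w w' : Word} {N N' : ℕ}
    (h : ClrF P c w c' N) (e1 : c = d) (e2 : w = w') (e3 : c' = d') (e4 : N = N') :
    ClrF P d w' d' N' := by
  subst e1 e2 e3 e4; exact h

/-- The parts of a word below the minimum and above the upper part of the circle. -/
structure ClrD (j j0 : ℕ) (K1 K2 u : Word) (al ar cl cr : Config) (w : Word) : Prop where
  hu : run [] u = some (al ++ ar)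
  su : skel [] u = K1 ++ [(cup (some (j, 1)), j0)]
  na : np al = j0
  nc : np cl = j0
  hw : run (cl ++ some j :: cr) w = some []
  sw : skel (cl ++ some j :: cr) w = K2

theorem clr_step_cup (κ : ℕ × ℤ) (al ar : Config) :
    step (cup (some κ)) al.length (al ++ ar) = some (al ++ [some κ.1, some κ.1] ++ ar) := by
  simpa using step_whisk (x := cup (some κ)) (i := 0) (c := []) rfl al ar

theorem clr_skl_cup (κ : ℕ × ℤ) (al ar : Config) :
    skl (al ++ ar) (cup (some κ)) al.length = [(cup (some κ), np al)] := by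
  simpa [Kind.surg] using skl_core (x := cup (some κ)) (c0 := []) rfl al ar

theorem clr_run_bottom (q n : ℕ) : run [some q, some q, some n] bottom = some [some n] := by
  simp [bottom, run, step, Kind.act]

theorem clr_skel_bottom (q n : ℕ) : skel [some q, some q, some n] bottom = bottom := by
  simp [bottom, skel, step, Kind.act, Kind.surg]

theorem clr_run_circle (q n : ℕ) : run [some n] (circle q) = some [some n] := by
  simp [circle, bottom, run, step, Kind.act]

section
variable {j j0 : ℕ} {K1 K2 u w : Word} {al ar cl cr : Config}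

theorem ClrD.closed (D : ClrD j j0 K1 K2 u al ar cl cr w) {z : Word}
    (hz : run (al ++ [some (j + 1), some (j + 1)] ++ ar) z = some (cl ++ some j :: cr))
    (sz : skel (al ++ [some (j + 1), some (j + 1)] ++ ar) z = shift j0 bottom) :
    Cl (K1 ++ (cup (some (j, 1)), j0) :: shift j0 (circle (j + 1)) ++ K2)
      (u ++ (cup (some (j + 1, 1)), al.length) :: z ++ w) := by
  have hs := clr_step_cup (j + 1, 1) al ar
  constructor
  · rw [List.append_assoc, run_append_of D.hu, List.cons_append, run_cons_of hs, run_append_of hz,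
      D.hw]
  · rw [List.append_assoc, skel_append_of D.hu, List.cons_append, skel_cons_of hs,
      skel_append_of hz, clr_skl_cup, D.su, sz, D.sw, D.na]
    simp [circle]

theorem clr_dnG_bottom (q n : ℕ) (cl cr : Config) :
    dnG (cl ++ [some q, some q, some n] ++ cr) (shift cl.length bottom) = [] := by
  have s1 : step (Kind.cr true) (1 + cl.length) (cl ++ [some q, some q, some n] ++ cr) =
      some (cl ++ [some q, some n, some q] ++ cr) := step_whisk rfl cl cr
  have s2 : step (Kind.cr true) (1 + cl.length) (cl ++ [some q, some n, some q] ++ cr) =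
      some (cl ++ [some q, some q, some n] ++ cr) := step_whisk rfl cl cr
  have d1 : ∀ x y z : Option ℕ, (cl ++ [x, y, z] ++ cr).drop (1 + cl.length) = y :: z :: cr := by
    intro x y z
    rw [List.append_assoc, Nat.add_comm, List.drop_append]
    simp
  have d0 : ∀ x y z : Option ℕ, (cl ++ [x, y, z] ++ cr).drop (0 + cl.length) = x :: y :: z :: cr := by
    intro x y z
    simp
  simp only [bottom, shift_cons, shift_nil, dnG, s1, s2, d1, d0, Option.getD_some, Kind.surg,
    Option.isSome_some, Bool.and_self, if_true, down, List.map_nil, List.flatMap_nil]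

theorem clr_nf (D : ClrD j j0 K1 K2 u al ar cl cr w) {mu : Word} {N : ℕ}
    (hm : ClrF (clrP j0) (al ++ [some (j + 1), some (j + 1)] ++ ar) mu
      (cl ++ [some (j + 1), some (j + 1), some j] ++ cr) N) :
    ∃ U W bl br m m' g, ClrD j j0 K1 K2 U bl (some j :: br ++ nn m) bl (br ++ nn m') W ∧
      bl.length = j0 ∧ np br = br.length ∧ runG (j0 + 2 + (br.length + 1)) m g = some m' ∧
      cntH (clrP j0) g = N ∧
      cls A [] (u ++ (cup (some (j + 1, 1)), al.length) :: (mu ++ shift cl.length bottom) ++ w) =
        cls A [] (U ++ (cup (some (j + 1, 1)), j0) ::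
          (interp (j0 + 2 + (br.length + 1)) g ++ shift j0 bottom) ++ W) := by
  have hp := run_skel hm.r
  rw [hm.s, run_nil, Option.some.injEq] at hp
  simp only [clr_poles_append, clr_poles_some, List.append_assoc, List.cons_append,
    List.nil_append] at hp
  have la : (poles al).length = j0 := by rw [poles_length, D.na]
  have lc : (poles cl).length = j0 := by rw [poles_length, D.nc]
  obtain ⟨e1, e2⟩ := List.append_inj hp (la.trans lc.symm)
  simp only [List.cons.injEq, true_and] at e2
  have hs := clr_step_cup (j + 1, 1) al ar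
  have p1 : poles (al ++ ar) = poles cl ++ some j :: poles cr := by
    rw [clr_poles_append, e1, e2]
  have p4 : poles (cl ++ some j :: cr) = poles cl ++ some j :: poles cr := by
    rw [clr_poles_append, clr_poles_some]
  have n2 : np (al ++ [some (j + 1), some (j + 1)] ++ ar) = j0 + 2 + ((poles cr).length + 1) := by
    have : np ar = (poles cr).length + 1 := by rw [← poles_length, e2, List.length_cons]
    simp only [np_append, np_some, np_nil, this, D.na]
  have rb : run (cl ++ [some (j + 1), some (j + 1), some j] ++ cr) (shift cl.length bottom) =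
      some (cl ++ some j :: cr) := by
    simpa using run_whisk (clr_run_bottom (j + 1) j) cl cr
  have sb : skel (cl ++ [some (j + 1), some (j + 1), some j] ++ cr) (shift cl.length bottom) =
      shift j0 bottom := by
    rw [skel_whisk (clr_run_bottom (j + 1) j), clr_skel_bottom, D.nc]
  have r1 : run (al ++ ar) [(cup (some (j + 1, 1)), al.length)] =
      some (al ++ [some (j + 1), some (j + 1)] ++ ar) := by rw [run_single, hs]
  have s1 : skel (al ++ ar) [(cup (some (j + 1, 1)), al.length)] =
      [(cup (some (j + 1, 1)), j0)] := by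
    rw [skel_cons_of hs, clr_skl_cup, D.na]; rfl
  have I1 := (upG_iso (A := A) r1 (by rw [s1]; simp)).2
  have I2 := dnG_iso (A := A) hm.r (by rw [hm.s]; simp)
  have I3 := (dnG_iso (A := A) rb (by rw [sb]; simp [bottom])).2
  have I4 := gather_spread (A := A) (cl ++ some j :: cr)
  have u1 : upG (al ++ ar) [(cup (some (j + 1, 1)), al.length)] = [] := by simp [upG, Kind.surg]
  rw [u1, s1] at I1
  rw [hm.s, n2] at I2
  rw [clr_dnG_bottom, sb] at I3
  have m1 : nl (al ++ [some (j + 1), some (j + 1)] ++ ar) = nl (al ++ ar) := by simp [nl]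
  have m2 : nl (cl ++ [some (j + 1), some (j + 1), some j] ++ cr) = nl (cl ++ some j :: cr) := by
    simp [nl]
  have g1 := run_gather (al ++ ar)
  have g4 := run_spread (cl ++ some j :: cr)
  have g5 := skel_spread (cl ++ some j :: cr)
  rw [p1] at g1
  rw [p4] at g4 g5
  simp only [List.append_assoc, List.cons_append] at g1 g4 g5
  refine ⟨u ++ gather (al ++ ar), spread (cl ++ some j :: cr) ++ w, poles cl, poles cr,
    nl (al ++ ar), nl (cl ++ some j :: cr), _, ⟨?_, ?_, ?_, ?_, ?_, ?_⟩, lc, clr_np_poles cr,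
    m1 ▸ m2 ▸ I2.1, (cntH_dnG _ hm.r hm.s).trans hm.u, ?_⟩
  · rw [run_append_of D.hu, g1]; rfl
  · rw [skel_append_of D.hu, skel_gather, D.su, List.append_nil]
  · rw [clr_np_poles, lc]
  · rw [clr_np_poles, lc]
  · rw [run_append_of g4, D.hw]
  · rw [skel_append_of g4, g5, D.sw]; rfl
  · have a1 : run [] (u ++ [(cup (some (j + 1, 1)), al.length)]) = _ :=
      (run_append_of D.hu _).trans r1
    have a2 : run [] (u ++ [(cup (some (j + 1, 1)), al.length)] ++ mu) = _ :=
      (run_append_of a1 _).trans hm.r
    have a3 : run [] (u ++ [(cup (some (j + 1, 1)), al.length)] ++ mu ++ shift cl.length bottom) =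
        _ := (run_append_of a2 _).trans rb
    have b1 := clr_rw a3 I4 w
    have b2 := clr_rw a2 I3 (spread (cl ++ some j :: cr) ++ w)
    have b3 := clr_rw a1 I2.2 (shift j0 bottom ++ (spread (cl ++ some j :: cr) ++ w))
    have b4 := clr_rw D.hu I1 (interp (j0 + 2 + ((poles cr).length + 1))
      (dnG (al ++ [some (j + 1), some (j + 1)] ++ ar) mu) ++
        (shift j0 bottom ++ (spread (cl ++ some j :: cr) ++ w)))
    simp only [interp, List.append_assoc, List.cons_append, List.nil_append,
      List.append_nil] at b1 b2 b3 b4 ⊢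
    rw [← b1, b2, b3, b4]

/-- The case without hooks at the circle. -/
theorem clr_zero {bl br : Config} {m m' : ℕ} {g : List Gl}
    (D : ClrD j j0 K1 K2 u bl (some j :: br ++ nn m) bl (br ++ nn m') w)
    (h1 : NoKey (j, 1) K1) (h2 : NoKey (j, 1) K2) (lb : bl.length = j0)
    (hg : runG (j0 + 2 + (br.length + 1)) m g = some m') (hc : cntH (clrP j0) g = 0) :
    ∃ x, Cl (K1 ++ (cup (some (j, 1)), j0) :: K2) x ∧
      cls A [] (u ++ (cup (some (j + 1, 1)), j0) ::
        (interp (j0 + 2 + (br.length + 1)) g ++ shift j0 bottom) ++ w) =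
      cls A [] (ins (j, 1) (circle (j + 1)) x) := by
  subst lb
  obtain ⟨g0, hg0, rfl⟩ := exists_rx (k := bl.length + (br.length + 1)) (s := 2) (i := bl.length)
    (by rw [← hg]; congr 1; omega) (by omega) hc
  have B := blockG (A := A) (bl := bl) (br := some j :: br) (b0 := [])
    (b0' := [some (j + 1), some (j + 1)]) (β := [(cup (some (j + 1, 1)), 0)]) rfl hg0
  rw [List.length_nil, map_rx_zero] at B
  have hu : run [] u = some (bl ++ [] ++ some j :: br ++ nn m) := by simpa using D.hu
  have b1 := clr_rw hu B (shift bl.length bottom ++ w)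
  have lk : (bl ++ some j :: br).length = bl.length + 0 + (some j :: br).length := by simp
  have ri := run_interp (base := bl ++ some j :: br) (by simpa using hg0) lk
  have si := skel_interp (base := bl ++ some j :: br) (by simpa using hg0) lk
  have hu' : run [] u = some (bl ++ some j :: br ++ nn m) := by simpa using D.hu
  have rU := (run_append_of hu' _).trans ri
  have sU : skel [] (u ++ interp (bl.length + 0 + (some j :: br).length) g0) =
      K1 ++ (cup (some (j, 1)), bl.length) :: [] := by
    rw [skel_append_of hu', si, D.su, List.append_nil]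
  obtain ⟨u1, i1, z1, c1, c2, eU, r1, st, r2, s1, s2, -, n1⟩ := skel_split rU sU
  obtain ⟨dl, c0, c0', dr, rfl, rfl, rfl, l0, -, h0⟩ := step_decomp st
  obtain rfl : c0 = [] := List.length_eq_zero_iff.mp l0
  obtain rfl : [some j, some j] = c0' := by simpa [Kind.act] using h0
  have ga : (dl ++ [some j, some j] ++ dr)[dl.length]? = some (some j) := by simp
  obtain ⟨t', ht, gt, nt⟩ := trk_free r2 s2 ga
  have nt' : np ((bl ++ some j :: br ++ nn m').take t') = bl.length := by
    rw [nt, ← n1]; simp
  obtain rfl : t' = bl.length := by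
    rcases lt_trichotomy t' bl.length with h | h | h
    · have := clr_np_le ((bl ++ some j :: br ++ nn m').take t')
      rw [List.length_take] at this
      omega
    · exact h
    · have := clr_np_take_mono (bl ++ some j :: br ++ nn m') (show bl.length + 1 ≤ t' from h)
      rw [nt', List.append_assoc, List.take_append, List.take_of_length_le (by omega)] at this
      simp [D.na] at this
  have S := slide_word' (A := A) r2 ht ga (clr_run_circle (j + 1) j) (Or.inr ⟨rfl, s2⟩)
  have hw : run (bl ++ some j :: br ++ nn m') w = some [] := by simpa using D.hw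
  have sw : skel (bl ++ some j :: br ++ nn m') w = K2 := by simpa using D.sw
  have r3 : run (dl ++ [some j, some j] ++ dr) (z1 ++ w) = some [] := by rw [run_append_of r2, hw]
  have s3 : skel (dl ++ [some j, some j] ++ dr) (z1 ++ w) = K2 := by
    rw [skel_append_of r2, s2, sw]; rfl
  have a1 : run [] (u1 ++ [(cup (some (j, 1)), dl.length)]) =
      some (dl ++ [some j, some j] ++ dr) := by rw [run_append_of r1, run_single, st]
  have b2 := clr_rw a1 S w
  refine ⟨u1 ++ (cup (some (j, 1)), dl.length) :: (z1 ++ w), ⟨?_, ?_⟩, ?_⟩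
  · rw [run_append_of r1, run_cons_of st, r3]
  · rw [skel_append_of r1, skel_cons_of st, s1, s3, List.append_nil, clr_skl_cup, ← n1]
    simp
  · rw [ins_split ((noKey_skel r1).mp (s1 ▸ h1)) ((noKey_skel r3).mp (s3 ▸ h2))]
    rw [← List.append_assoc u, eU] at b1
    simp only [circle, List.append_assoc, List.cons_append, List.nil_append, shift_cons,
      shift_nil, List.length_cons, List.length_nil, Nat.zero_add] at b1 b2 ⊢
    rw [b2, b1]

end

/-- The part of a hook that links the circle. -/
def clrC (s b : Bool) : Word :=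
  if s then [(cr b, 1), (cr b, 1)] else [(cr false, 1), (cr b, 0), (cr b, 0), (cr true, 1)]

theorem clr_run_clasp (s b : Bool) (q : ℕ) :
    run [some q, some q, none] (clrC s b) = some [some q, some q, none] := by
  cases s <;> rfl

theorem clr_skel_clasp (s b : Bool) (q : ℕ) : skel [some q, some q, none] (clrC s b) = [] := by
  cases s <;> rfl

theorem clr_hook {i t : ℕ} (h : clrP i t = true) (r : ℕ) (b : Bool) :
    ∃ s, hook (i + 2 + r) t b = shift (i + 2) (back true r) ++ shift i (clrC s b) ++
      shift (i + 2) (pass true r) := by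
  simp only [clrP, decide_eq_true_eq] at h
  obtain rfl | rfl : t = i ∨ t = i + 1 := by omega
  · refine ⟨false, ?_⟩
    have e : t + 2 + r - t - 1 = r + 1 := by omega
    rw [hook, e]
    simp [back, pass, clrC, shift_shift, Nat.add_comm]
  · refine ⟨true, ?_⟩
    have e : i + 2 + r - (i + 1) - 1 = r := by omega
    rw [hook, e]
    simp [clrC, shift_shift, Nat.add_comm, Nat.add_left_comm]

theorem clr_park (s b : Bool) (q : ℕ) (br : Config) :
    cls A ([some q, some q, none] ++ br) (clrC s b ++ shift 2 (pass true br.length)) =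
      (1 : R) • cls A ([some q, some q, none] ++ br) ((cup none, 3) ::
        shift 4 (pass true br.length) ++ (clrC s b ++ [(cap, 2)])) := by
  have rc := clr_run_clasp s b q
  have h1 := clr_rw (run_right rc br) ((BMove.zig.iso (A := A)).whisk [some q, some q] br)
    (shift 2 (pass true br.length))
  have h2 := (far_block (A := A) (y := [(cup none, 0)]) (c2 := br) rc rfl
    (Or.inl (clr_skel_clasp s b q))).cls_app ((cap, 2) :: shift 2 (pass true br.length))
  have rb : run [some q, some q, none, none] (clrC s b ++ [(cap, 2)]) = some [some q, some q] := by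
    cases s <;> rfl
  have h3 := clr_rw (c := [some q, some q, none] ++ br) (p := [(cup none, 3)]) rfl
    (far_block (A := A) rb (run_pass true none br) (Or.inr (skel_pass true br))) []
  simp only [List.append_assoc, List.cons_append, List.nil_append, shift_cons,
      shift_nil, List.length_cons, List.length_nil, Nat.zero_add, List.append_nil,
      Nat.reduceAdd] at h1 h2 h3 ⊢
  rw [one_smul, ← h1, h2, h3]

theorem clr_id (s b : Bool) (n q : ℕ) :
    ∃ (e : R) (mu0 nu0 : Word) (dl dr : Config),
      ClrF (clrP 0) [some q, some q, none, none, some n] mu0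
        (dl ++ [some q, some q, none, none, some n] ++ dr) 0 ∧ np dl = 0 ∧
      run (dl ++ some n :: dr) nu0 = some [some n] ∧ skel (dl ++ some n :: dr) nu0 = [] ∧
      cls A [some q, some q, none, none, some n] (clrC s b ++ [(cap, 2)] ++ bottom) =
        e • cls A [some q, some q, none, none, some n]
          (mu0 ++ shift dl.length (thru ++ bottom) ++ nu0) := by
  cases s <;> cases b
  · exact ⟨1, [(cr false, 1), (cr false, 0), (cup none, 4), (cr false, 5)],
      [(cr false, 0), (cap, 1)], [none], [none], ⟨rfl, rfl, rfl⟩, rfl, rfl, rfl,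
      by rw [one_smul]; exact (id_hk0F n q).eq⟩
  · exact ⟨_, [(cr false, 2), (cr false, 1), (cr false, 0), (cup none, 4), (cr false, 5)],
      [(cr false, 0), (cap, 1)], [none], [none], ⟨rfl, rfl, rfl⟩, rfl, rfl, rfl, id_hk0T n q⟩
  · exact ⟨1, [], [], [], [], ⟨rfl, rfl, rfl⟩, rfl, rfl, rfl,
      by rw [one_smul]; exact (id_hk1F n q).eq⟩
  · exact ⟨_, [(cr false, 2)], [], [], [], ⟨rfl, rfl, rfl⟩, rfl, rfl, rfl, id_hk1T n q⟩

/-- The last hook at the circle is moved up to the upper part of the circle. -/
theorem clr_lift {bl br : Config} {q m m' N : ℕ} {g : List Gl} (lb : np bl = bl.length)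
    (lr : np br = br.length) (hg : runG (bl.length + 2 + br.length) m g = some m')
    (hc : cntH (clrP bl.length) g = N + 1) :
    ∃ s b M, ClrF (clrP bl.length) (bl ++ [some q, some q] ++ (br ++ nn m)) M
        (bl ++ [some q, some q, none, none] ++ (br ++ nn m')) N ∧
      cls A (bl ++ [some q, some q] ++ (br ++ nn m)) (interp (bl.length + 2 + br.length) g) =
        cls A (bl ++ [some q, some q] ++ (br ++ nn m))
          (M ++ shift bl.length (clrC s b ++ [(cap, 2)])) := by
  obtain ⟨g1, t, b, g2, rfl, ht, c1, c2⟩ := clr_split hc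
  rw [runG_append] at hg
  obtain ⟨m1, hg1, hg2⟩ := Option.bind_eq_some_iff.mp hg
  simp only [runG, Gl.ty] at hg2
  split_ifs at hg2 with hk
  swap
  · simp at hg2
  obtain ⟨m1, rfl⟩ : ∃ k, m1 = k + 1 := ⟨m1 - 1, by omega⟩
  rw [Option.bind_some] at hg2
  obtain ⟨s, hs⟩ := clr_hook ht br.length b
  obtain ⟨g3, hg3, rfl⟩ := exists_rx (k := bl.length + br.length) (s := 2) (i := bl.length)
    (by rw [← hg2]; congr 1; omega) (by omega) c2
  have l2 : (bl ++ [some q, some q] ++ br).length = bl.length + 2 + br.length := by simp; omega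
  have l4 : (bl ++ [some q, some q, none, none] ++ br).length = bl.length + 4 + br.length := by
    simp; omega
  have n2 : np (bl ++ [some q, some q] ++ br) = (bl ++ [some q, some q] ++ br).length := by
    simp [lb, lr]
  have F1 : ClrF (clrP bl.length) (bl ++ [some q, some q] ++ br ++ nn m)
      (interp (bl.length + 2 + br.length) g1) (bl ++ [some q, some q] ++ br ++ nn (m1 + 1)) N := by
    refine ⟨run_interp hg1 l2, skel_interp hg1 l2, ?_⟩
    rw [und_interp _ hg1 l2, ← c1]
    congr 1
    funext i
    by_cases hi : i < (bl ++ [some q, some q] ++ br).length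
    · have := List.countP_eq_length.mp n2 _ (List.getElem_mem hi)
      rw [clr_np_take n2 hi.le, List.getElem?_eq_getElem hi]
      simp only [Option.bind_some, id, this, Bool.true_and]
    · rw [List.getElem?_eq_none (by omega)]
      simp only [clrP, Option.bind_none, Option.isSome_none, Bool.false_and]
      symm
      rw [decide_eq_false_iff_not]
      omega
  have F2 := ClrF.whisk (P := clrP bl.length) (bl ++ [some q, some q]) (nn m1)
    ⟨run_back true none br, skel_back true br, und_back_true _ br⟩
  have F3 := ClrF.whisk (P := clrP bl.length) (c := []) (w := [(cup none, 0)]) (N := 0)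
    (bl ++ [some q, some q, none]) (br ++ nn m1) ⟨rfl, rfl, rfl⟩
  have F4 := ClrF.whisk (P := clrP bl.length) (bl ++ [some q, some q, none, none]) (nn m1)
    ⟨run_pass true none br, skel_pass true br, und_pass_true _ br⟩
  have hg4 : runG (bl.length + 4 + br.length) (m1 + 1) (g3.map (Gl.rx bl.length 4)) = some m' := by
    rw [← runG_rx (i := bl.length) (by omega) hg3 4]; congr 1; omega
  have F5 : ClrF (clrP bl.length) (bl ++ [some q, some q, none, none] ++ br ++ nn (m1 + 1))
      (interp (bl.length + 4 + br.length) (g3.map (Gl.rx bl.length 4)))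
      (bl ++ [some q, some q, none, none] ++ br ++ nn m') 0 := by
    refine ⟨run_interp hg4 l4, skel_interp hg4 l4, ?_⟩
    rw [und_interp _ hg4 l4, clr_cntH_rx]
    refine clr_cntH_false (fun i => ?_) _
    rw [Bool.and_eq_false_iff]
    right
    simp only [clrP, decide_eq_false_iff_not]
    split_ifs with hi
    · have := clr_np_le ((bl ++ [some q, some q, none, none] ++ br).take i)
      rw [List.length_take] at this
      omega
    · have := clr_np_take_mono (bl ++ [some q, some q, none, none] ++ br)
        (show (bl ++ [some q, some q, none, none]).length ≤ i + 4 by simp; omega)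
      rw [List.take_left' rfl] at this
      simp only [np_append, np_some, np_none, np_nil, lb] at this
      omega
  have G2 := F1.append (F2.cast (by simp [clr_nn_succ]) rfl rfl rfl)
  have G3 := G2.append (F3.cast (by simp) rfl rfl rfl)
  have G4 := G3.append (F4.cast (by simp) rfl rfl rfl)
  have G5 := G4.append (F5.cast (by simp [clr_nn_succ]) rfl rfl rfl)
  refine ⟨s, b, _, G5.cast (by simp) rfl (by simp) (by simp), ?_⟩
  have rb : run [some q, some q, none, none] (clrC s b ++ [(cap, 2)]) = some [some q, some q] := by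
    cases s <;> rfl
  have b1 := clr_emb (A := A) (c := bl ++ [some q, some q] ++ (br ++ nn m)) (cl := bl)
    (cr := nn m1) (c0 := [some q, some q, none] ++ br) (by simpa using G2.r) (clr_park s b q br)
    (interp (bl.length + 2 + br.length) (g3.map (Gl.rx bl.length 2)))
  have b2 := clr_rw (c := bl ++ [some q, some q] ++ (br ++ nn m))
    (by simpa [clr_nn_succ] using G4.r) (blockG (A := A) (bl := bl) (br := br) rb hg3) []
  rw [one_smul] at b1
  rw [interp_append, interp, Gl.w, hs]
  simp only [List.append_assoc, List.cons_append, List.nil_append,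
    shift_cons, shift_nil, List.length_cons, List.length_nil, Nat.zero_add, List.append_nil,
    Nat.reduceAdd, shift_append, shift_shift, List.length_append, Nat.add_comm] at b1 b2 ⊢
  rw [b1, b2]

variable {Q : Type*} [AddCommGroup Q] [Module R Q] {F : Tan A [] →ₗ[R] Q} {K : Word}

theorem clr_main {j j0 : ℕ} {a : ℤ} {K1 K2 : Word} (h1 : NoKey (j, 1) K1) (h2 : NoKey (j, 1) K2)
    (hF : Slides A F (K1 ++ (cup (some (j, 1)), j0) :: shift j0 (circle (j + 1)) ++ K2) j a)
    (N : ℕ) : ∀ {u w mu : Word} {al ar cl cr : Config}, ClrD j j0 K1 K2 u al ar cl cr w →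
      ClrF (clrP j0) (al ++ [some (j + 1), some (j + 1)] ++ ar) mu
        (cl ++ [some (j + 1), some (j + 1), some j] ++ cr) N →
      F (cls A [] (u ++ (cup (some (j + 1, 1)), al.length) ::
        (mu ++ shift cl.length bottom) ++ w)) ∈ Submodule.span R
        {z | ∃ x, Cl (K1 ++ (cup (some (j, 1)), j0) :: K2) x ∧
          z = F (cls A [] (ins (j, 1) (circle (j + 1)) x))} := by
  induction N with
  | zero =>
    intro u w mu al ar cl cr D hm
    obtain ⟨U, W, bl, br, m, m', g, D', lb, -, hg, hc, e⟩ := clr_nf (A := A) D hm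
    obtain ⟨x, hx, e'⟩ := clr_zero (A := A) D' h1 h2 lb hg hc
    exact Submodule.subset_span ⟨x, hx, by rw [e, e']⟩
  | succ N ih =>
    intro u w mu al ar cl cz D hm
    obtain ⟨U, W, bl, br, m, m', g, D', lb, lr, hg, hc, e⟩ := clr_nf (A := A) D hm
    subst lb
    obtain ⟨s, b, M, hM, e1⟩ := clr_lift (A := A) (q := j + 1) (br := some j :: br) D'.na
      (by simp [lr]) hg hc
    obtain ⟨r, mu0, nu0, dl, dr, h0, nd, rn, sn, e2⟩ := clr_id (A := A) s b j (j + 1)
    have hs := clr_step_cup (j + 1, 1) bl (some j :: br ++ nn m)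
    have a1 : run [] (U ++ [(cup (some (j + 1, 1)), bl.length)]) =
        some (bl ++ [some (j + 1), some (j + 1)] ++ (some j :: br ++ nn m)) := by
      rw [run_append_of D'.hu, run_single, hs]
    have b1 := clr_emb (c := []) (cl := []) (cr := []) (e := 1) (by simpa using a1)
      (e1.trans (one_smul R _).symm) (shift bl.length bottom ++ W)
    have a2 := (run_append_of a1 M).trans hM.r
    have b2 := clr_emb (c := []) (cl := bl) (cr := br ++ nn m') (by simpa using a2) e2 W
    have h0' := ClrF.whisk (P := clrP bl.length) bl (br ++ nn m')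
      (by rw [D'.na, clrP_shift]; exact h0)
    have G := hM.append (h0'.cast (by simp) rfl rfl rfl)
    have a3 : run [] (U ++ [(cup (some (j + 1, 1)), bl.length)] ++ (M ++ shift bl.length mu0)) =
        some ((bl ++ dl) ++ [some (j + 1), some (j + 1), none, none, some j] ++
          (dr ++ (br ++ nn m'))) := by
      rw [run_append_of a1, G.r]; simp
    have rn' : run ((bl ++ dl) ++ some j :: (dr ++ (br ++ nn m'))) (shift bl.length nu0) =
        some (bl ++ some j :: (br ++ nn m')) := by simpa using run_whisk rn bl (br ++ nn m')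
    have sn' : skel ((bl ++ dl) ++ some j :: (dr ++ (br ++ nn m'))) (shift bl.length nu0) = [] := by
      simpa [sn] using skel_whisk rn bl (br ++ nn m')
    have D2 : ClrD j bl.length K1 K2 U bl (some j :: br ++ nn m) (bl ++ dl) (dr ++ (br ++ nn m'))
        (shift bl.length nu0 ++ W) :=
      ⟨D'.hu, D'.su, D'.na, by rw [np_append, nd, D'.na]; rfl, by rw [run_append_of rn', D'.hw],
        by rw [skel_append_of rn', sn', D'.sw]; rfl⟩
    have rt : run [some (j + 1), some (j + 1), none, none, some j] (thru ++ bottom) =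
        some [some j] := by simp [thru, bottom, run, step, Kind.act]
    have st : skel [some (j + 1), some (j + 1), none, none, some j] (thru ++ bottom) = bottom := by
      simp [thru, bottom, skel, step, Kind.act, Kind.surg]
    have G' := G.cast rfl rfl (show _ = (bl ++ dl) ++
      [some (j + 1), some (j + 1), none, none, some j] ++ (dr ++ (br ++ nn m')) by simp) rfl
    have C := D2.closed (z := M ++ shift bl.length mu0 ++ shift (bl ++ dl).length (thru ++ bottom))
      (by rw [run_append_of G'.r]; simpa using run_whisk rt (bl ++ dl) (dr ++ (br ++ nn m')))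
      (by rw [skel_append_of G'.r, G'.s, skel_whisk rt, st, D2.nc]; rfl)
    have b3 := slide_thru hF (Nat.succ_ne_self j) a3 (w := shift bl.length nu0 ++ W)
      (by simpa using C)
    have hq : (some (j + 1) : Option ℕ) ≠ some j := by simp
    have D3 : ClrD j bl.length K1 K2 (dblG j (· * a) [] U) (dcfg j bl)
        (dcfg j (some j :: br ++ nn m)) (dcfg j (bl ++ dl)) (none :: dcfg j (dr ++ (br ++ nn m')))
        (shift (dcfg j (bl ++ dl)).length [(cr false, 0)] ++
          dblG j (· * a) ((bl ++ dl) ++ some j :: (dr ++ (br ++ nn m')))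
            (shift bl.length nu0 ++ W)) := by
      have x1 : run (dcfg j (bl ++ dl) ++ some j :: none :: dcfg j (dr ++ (br ++ nn m')))
          (shift (dcfg j (bl ++ dl)).length [(cr false, 0)]) =
          some (dcfg j ((bl ++ dl) ++ some j :: (dr ++ (br ++ nn m')))) := by
        have := run_whisk (c := [some j, none]) (w := [(cr false, 0)]) rfl (dcfg j (bl ++ dl))
          (dcfg j (dr ++ (br ++ nn m')))
        rw [dcfg_append j (bl ++ dl), dcfg, if_pos rfl]
        simpa using this
      have x2 : skel (dcfg j (bl ++ dl) ++ some j :: none :: dcfg j (dr ++ (br ++ nn m')))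
          (shift (dcfg j (bl ++ dl)).length [(cr false, 0)]) = [] := by
        have := skel_whisk (c := [some j, none]) (w := [(cr false, 0)]) rfl (dcfg j (bl ++ dl))
          (dcfg j (dr ++ (br ++ nn m')))
        rw [show skel [some j, none] [(cr false, 0)] = [] from rfl] at this
        simpa using this
      refine ⟨?_, ?_, ?_, ?_, ?_, ?_⟩
      · rw [← dcfg_append]; exact run_dblG D'.hu j _
      · rw [← D'.su]; exact skel_dblG D'.hu j _
      · rw [np_dcfg, D'.na]
      · rw [np_dcfg, D2.nc]
      · rw [run_append_of x1]; exact run_dblG D2.hw j _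
      · rw [skel_append_of x1, x2, skel_dblG D2.hw, D2.sw]; rfl
    have H1 := G'.dbl (n := j) (fun t ht => by
      simp only [clrP, decide_eq_true_eq] at ht
      rw [clr_poles_append, clr_poles_append, clr_poles_of D'.na, List.append_assoc]
      obtain rfl | rfl : t = bl.length ∨ t = bl.length + 1 := by omega
      · simp [poles]
      · simp [poles]) (· * a)
    have H2 := ClrF.whisk (P := clrP bl.length)
      (c := [some (j + 1), some (j + 1), none, none, none, some j])
      (w := [(cap, 3), (cr true, 2)]) (N := 0) (dcfg j (bl ++ dl)) (dcfg j (dr ++ (br ++ nn m')))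
      ⟨rfl, rfl, rfl⟩
    have H3 := H1.append (H2.cast (by simp [dcfg_append, dcfg]) rfl rfl rfl)
    have I := ih D3 (H3.cast (by simp [dcfg_append, dcfg]) rfl (by simp) rfl)
    rw [dblG_append a1, dblG_append D'.hu, dblG_cons hs, List.take_left' rfl] at b3
    simp only [Kind.dblG, Nat.succ_ne_self, if_false, dblG] at b3
    rw [one_smul] at b1
    rw [e]
    simp only [List.append_assoc, List.cons_append, List.nil_append, shift_cons, shift_nil,
      List.length_cons, List.length_nil, Nat.zero_add, List.append_nil, shift_append,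
      shift_shift, shift_zero, List.length_append, Nat.add_comm, Nat.add_zero] at b1 b2 b3 I ⊢
    rw [b1, b2, map_smul, b3]
    exact Submodule.smul_mem _ _ I

theorem clear {j : ℕ} {a : ℤ} (hK : Adm j K)
    (hF : Slides A F (ins (j, 1) (circle (j + 1)) K) j a) {y : Word}
    (hy : Cl (ins (j, 1) (circle (j + 1)) K) y) :
    F (cls A [] y) ∈ Submodule.span R
      {z | ∃ x, Cl K x ∧ z = F (cls A [] (ins (j, 1) (circle (j + 1)) x))} := by
  obtain ⟨K1, j0, K2, rfl, h1, h2⟩ := hK.1.split
  rw [ins_split h1 h2] at hF hy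
  have sy : skel [] y = (K1 ++ [(cup (some (j, 1)), j0)]) ++ (cup (some (j + 1, 1)), j0) ::
      ([(cr true, 1 + j0), (cr true, 1 + j0)] ++ (cap, j0) :: K2) := by
    rw [hy.2]; simp [circle, bottom]
  obtain ⟨u, i, v, c1, c2, rfl, r1, st, r2, s1, s2, -, n1⟩ := skel_split hy.1 sy
  obtain ⟨z, i', w, c3, c4, rfl, r3, st', r4, s3, s4, sg', n2⟩ := skel_split r2 s2
  obtain ⟨al, c0, c0', ar, rfl, rfl, rfl, l0, -, h0⟩ := step_decomp st
  obtain rfl : c0 = [] := List.length_eq_zero_iff.mp l0
  obtain rfl : [some (j + 1), some (j + 1)] = c0' := by simpa [Kind.act] using h0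
  have na : np al = j0 := by simpa using n1
  have rz : run (al ++ [some (j + 1), some (j + 1)] ++ ar) (z ++ [(cap, i')]) = some c4 := by
    rw [run_append_of r3, run_single, st']
  have sz : skel (al ++ [some (j + 1), some (j + 1)] ++ ar) (z ++ [(cap, i')]) =
      shift j0 bottom := by
    rw [skel_append_of r3, s3, skel_cons_of st', skl, if_pos sg', n2]; simp [bottom]
  have p1 := run_skel r1
  rw [s1] at p1
  obtain ⟨d0, -, p1⟩ := run_append_some p1
  rw [run_single] at p1
  obtain ⟨bl, e0, e0', br, -, p2, lb, l1, -, h1'⟩ := step_decomp p1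
  obtain rfl : e0 = [] := List.length_eq_zero_iff.mp l1
  obtain rfl : [some j, some j] = e0' := by simpa [Kind.act] using h1'
  rw [List.append_nil, clr_poles_append, List.append_assoc] at p2
  obtain ⟨e1, e2⟩ := List.append_inj p2 (by rw [poles_length, na, lb])
  have p3 : poles (al ++ [some (j + 1), some (j + 1)] ++ ar) =
      bl ++ [some (j + 1), some (j + 1), some j] ++ some j :: br := by
    rw [clr_poles_append, clr_poles_append, e1, e2]; simp [poles]
  have p4 := run_skel rz
  rw [p3, sz, ← lb, run_whisk (clr_run_bottom (j + 1) j), Option.some.injEq] at p4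
  have nb : np bl = bl.length := by rw [← e1, clr_np_poles]
  obtain ⟨I1, I2⟩ := dnG_iso (A := A) rz (by rw [sz]; simp [bottom])
  have g4 := run_spread c4
  have g5 := skel_spread c4
  rw [← p4] at g4 g5
  have D : ClrD j j0 K1 K2 u al ar bl (some j :: br ++ nn (nl c4)) (spread c4 ++ w) := by
    refine ⟨by simpa using r1, s1, na, nb.trans lb, ?_, ?_⟩
    · rw [run_append_of (by simpa using g4), r4]
    · rw [skel_append_of (by simpa using g4), s4]
      simpa using g5
  have ri := run_interp I1 (poles_length _)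
  have si := skel_interp I1 (poles_length _)
  have rg := run_gather (al ++ [some (j + 1), some (j + 1)] ++ ar)
  have M := clr_main h1 h2 hF _ D (mu := gather _ ++ interp _ _)
    ⟨by rw [run_append_of rg, ri, p3]; simp, by rw [skel_append_of rg, si, skel_gather]; rfl, rfl⟩
  have a1 : run [] (u ++ [(cup (some (j + 1, 1)), al.length)]) =
      some (al ++ [some (j + 1), some (j + 1)] ++ ar) := by rw [run_append_of r1, run_single, st]
  have b1 := clr_rw ((run_append_of a1 _).trans rz) (gather_spread (A := A) c4) w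
  have b2 := clr_rw a1 I2 (spread c4 ++ w)
  rw [sz, ← lb] at b2
  simp only [List.append_assoc, List.cons_append, List.nil_append, List.append_nil] at b1 b2 M ⊢
  rw [← b1, b2]
  exact M

theorem clear_all (l : List ℤ) (j : ℕ) (a : ℤ) (K : Word) (hK : Adm j K)
    (hF : ∀ i (hi : i < (a :: l).length),
      Slides A F (ins (j, 1) (blk (j + 1) l.length 0) K) (j + i) ((a :: l)[i]))
    {y : Word} (hy : Cl (ins (j, 1) (blk (j + 1) l.length 0) K) y) :
    F (cls A [] y) ∈ Submodule.span R
      {z | ∃ x, Cl K x ∧ z = F (cls A [] (ins (j, 1) (blk (j + 1) l.length 0) x))} := by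
  induction l generalizing j a K with
  | nil =>
    have e : blk (j + 1) ([] : List ℤ).length 0 = [] := rfl
    rw [e, ins_nil] at hy
    exact Submodule.subset_span ⟨y, hy, by rw [e, ins_nil]⟩
  | cons b l ih =>
    have nk : NoKey (j + 1, 1) K := hK.noCol (Nat.lt_succ_self j) 1
    have e : ∀ x, NoKey (j + 1, 1) x → ins (j, 1) (blk (j + 1) (b :: l).length 0) x =
        ins (j + 1, 1) (blk (j + 1 + 1) l.length 0) (ins (j, 1) (circle (j + 1)) x) := by
      intro x hx
      rw [List.length_cons, blk_succ, ins_ins_in hx]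
    rw [e K nk] at hy hF
    have I := ih (j + 1) b _ hK.circle (fun i hi => by
      have := hF (i + 1) (by simpa using hi)
      rwa [show j + (i + 1) = j + 1 + i by omega] at this) hy
    refine Submodule.span_le.mpr ?_ I
    rintro _ ⟨x', hx', rfl⟩
    have hB := run_blk (some (j + 1)) (j + 1 + 1) l.length 0
    have S := Slides.ins (κ := (j + 1, 1)) hB (Nat.succ_ne_self j)
      (fun f => noKey_blk (by simp) _ _) (by rw [skel_blk]; exact hF 0 (by simp))
    have J := clear hK S hx'
    rw [LinearMap.comp_apply, insT_cls] at J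
    refine Submodule.span_mono ?_ J
    rintro _ ⟨x, hx, rfl⟩
    refine ⟨x, hx, ?_⟩
    rw [LinearMap.comp_apply, insT_cls, e x ((noKey_skel hx.1).mp (hx.2 ▸ nk))]

end Pool.Agent.Lib.MP_5b31c3_gt
end

-- part Pool.Agent.Lib.MP_5b31c3_gt.Lev1
section

/-
The operators of a level, acting on the module spanned by words that end at four knot strands.
-/

namespace Pool.Agent.Lib.MP_5b31c3_gt

open Kind

variable {R : Type*} [CommRing R] {A : Rˣ}

/-- The module spanned by the good words. -/
noncomputable def Vg (A : Rˣ) : Submodule R (Tan A []) :=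
  Submodule.span R {x | ∃ y, Good y ∧ x = cls A [] y}

/-- The class of a good word. -/
noncomputable def gen (A : Rˣ) (y : Word) (h : Good y) : Vg A :=
  ⟨cls A [] y, Submodule.subset_span ⟨y, h, rfl⟩⟩

theorem gen_eq {y y' : Word} (h : Good y) (h' : Good y') (e : cls A [] y = cls A [] y') :
    gen A y h = gen A y' h' := Subtype.ext e

theorem Vg.ext {Z : Type*} [AddCommGroup Z] [Module R Z] {f g : Vg A →ₗ[R] Z}
    (h : ∀ y hy, f (gen A y hy) = g (gen A y hy)) : f = g := by
  ext ⟨x, hx⟩
  induction hx using Submodule.span_induction with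
  | mem x hx => obtain ⟨y, hy, rfl⟩ := hx; exact h y hy
  | zero => exact (map_zero f).trans (map_zero g).symm
  | add x y hx hy ihx ihy =>
    exact (map_add f ⟨x, hx⟩ ⟨y, hy⟩).trans
      ((congrArg₂ (· + ·) ihx ihy).trans (map_add g ⟨x, hx⟩ ⟨y, hy⟩).symm)
  | smul r x hx ih =>
    exact (map_smul f r ⟨x, hx⟩).trans ((congrArg (r • ·) ih).trans (map_smul g r ⟨x, hx⟩).symm)

/-- Restriction of an operator that is given on words. -/
noncomputable def res (f : Tan A [] →ₗ[R] Tan A []) (φ : Word → Word)
    (hf : ∀ y, f (cls A [] y) = cls A [] (φ y)) (hg : ∀ y, Good y → Good (φ y)) :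
    Module.End R (Vg A) :=
  f.restrict (p := Vg A) (q := Vg A) (by
    intro x hx
    have : Vg A ≤ (Vg A).comap f := by
      rw [Vg, Submodule.span_le]
      rintro _ ⟨y, hy, rfl⟩
      exact Submodule.subset_span ⟨φ y, hg y hy, hf y⟩
    exact this hx)

theorem res_gen (f : Tan A [] →ₗ[R] Tan A []) (φ : Word → Word) (hf) (hg) (y : Word)
    (hy : Good y) : res f φ hf hg (gen A y hy) = gen A (φ y) (hg y hy) :=
  Subtype.ext (hf y)

/-- Words from four strands to four strands. -/
def Lw (z : Word) : Prop := run c4 z = some c4 ∧ ∃ v, skel c4 z = braid v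

/-- Words from the doubled configuration to four strands. -/
def Aw (κ : Word) : Prop := run c8 κ = some c4 ∧ ∃ v, skel c8 κ = braid v

theorem Lw.noKey {z : Word} (h : Lw z) (κ : ℕ × ℤ) : NoKey κ z := by
  obtain ⟨h1, v, h2⟩ := h
  rw [← noKey_skel h1, h2]; exact noKey_braid κ v

theorem Aw.noKey {z : Word} (h : Aw z) (κ : ℕ × ℤ) : NoKey κ z := by
  obtain ⟨h1, v, h2⟩ := h
  rw [← noKey_skel h1, h2]; exact noKey_braid κ v

theorem Lw.append {z z' : Word} (h : Lw z) (h' : Lw z') : Lw (z ++ z') := by
  obtain ⟨h1, v, h2⟩ := h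
  obtain ⟨h3, v', h4⟩ := h'
  exact ⟨by rw [run_append_of h1, h3], v ++ v', by rw [skel_append_of h1, h2, h4, braid_append]⟩

theorem Aw.post {κ z : Word} (h : Aw κ) (h' : Lw z) : Aw (κ ++ z) := by
  obtain ⟨h1, v, h2⟩ := h
  obtain ⟨h3, v', h4⟩ := h'
  exact ⟨by rw [run_append_of h1, h3], v ++ v', by rw [skel_append_of h1, h2, h4, braid_append]⟩

theorem Aw.pre {κ z : Word} (h : Aw κ) (h' : Lw z) : Aw (d4 z ++ κ) := by
  obtain ⟨h1, v, h2⟩ := h
  obtain ⟨h3, v', h4⟩ := h'
  have e1 : run c8 (d4 z) = some c8 := run_dblG h3 0 _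
  have e2 : skel c8 (d4 z) = skel c4 z := skel_dblG h3 0 _
  exact ⟨by rw [run_append_of e1, h1], v' ++ v, by
    rw [skel_append_of e1, e2, h2, h4, braid_append]⟩

theorem Aw.free {κ z : Word} (h : Aw κ) (h1 : run c8 z = some c8) (h2 : skel c8 z = []) :
    Aw (z ++ κ) := by
  obtain ⟨h3, v, h4⟩ := h
  exact ⟨by rw [run_append_of h1, h3], v, by rw [skel_append_of h1, h2, h4, List.nil_append]⟩

theorem Good.app {y z : Word} (h : Good y) (h' : Lw z) : Good (y ++ z) := by
  obtain ⟨h1, v, h2⟩ := h
  obtain ⟨h3, v', h4⟩ := h'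
  exact ⟨by rw [run_append_of h1, h3], v ++ v', by
    rw [skel_append_of h1, h2, h4, braid_append, List.append_assoc]⟩

theorem Good.run8 {y : Word} (h : Good y) (tw : ℤ → ℤ) : run [] (dblG 0 tw [] y) = some c8 :=
  run_dblG h.1 0 tw

theorem Good.arc {y κ : Word} (h : Good y) (h' : Aw κ) (tw : ℤ → ℤ) :
    Good (dblG 0 tw [] y ++ κ) := by
  have e1 := h.run8 tw
  obtain ⟨h1, v, h2⟩ := h
  obtain ⟨h3, v', h4⟩ := h'
  have e2 : skel [] (dblG 0 tw [] y) = skel [] y := skel_dblG h1 0 tw
  exact ⟨by rw [run_append_of e1, h3], v ++ v', by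
    rw [skel_append_of e1, e2, h2, h4, braid_append, List.append_assoc]⟩

theorem skel_ins_loop {c c' : Config} {y : Word} (h : run c y = some c') (κ : ℕ × ℤ) :
    skel c (ins κ loop y) = skel c y := by
  rw [skel_ins (run_loop _) h, skel_loop, ins_nil]

theorem Good.ins {y : Word} (h : Good y) (κ : ℕ × ℤ) : Good (ins κ loop y) :=
  ⟨run_ins (run_loop _) h.1, by rw [skel_ins_loop h.1]; exact h.2⟩

/-- The label of one of the two minima. -/
def lbl (s : Bool) : ℤ := if s then 1 else 0

theorem Good.solo {y : Word} (h : Good y) (s : Bool) : Solo (0, lbl s) y := by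
  obtain ⟨h1, v, h2⟩ := h
  rw [← solo_skel h1, h2, Solo, List.map_append, List.count_append,
    List.count_eq_zero_of_not_mem (noKey_braid _ v)]
  cases s <;> decide

/-- Meridian loops at the two minima. -/
noncomputable def TV (A : Rˣ) (s : Bool) : Module.End R (Vg A) :=
  res (insT A (0, lbl s) loop (run_loop _) []) (ins (0, lbl s) loop)
    (insT_cls _ _ _ _) fun _ h => h.ins _

/-- Appending a word. -/
noncomputable def apV (A : Rˣ) (z : Word) (h : Lw z) : Module.End R (Vg A) :=
  res (app A [] z) (· ++ z) (app_cls _ _) fun _ hy => hy.app h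

/-- Doubling and closing up by arcs. -/
noncomputable def EV (A : Rˣ) (κ : Word) (h : Aw κ) (i j : ℤ) : Module.End R (Vg A) :=
  res ((app A [] κ).comp (dblT A 0 (tw2 i j) [])) (fun y => dblG 0 (tw2 i j) [] y ++ κ)
    (fun y => (congrArg (app A [] κ) (dblT_cls 0 (tw2 i j) [] y)).trans (app_cls _ _ _))
    fun _ hy => hy.arc h _

theorem TV_gen (s : Bool) (y : Word) (hy : Good y) :
    TV A s (gen A y hy) = gen A (ins (0, lbl s) loop y) (hy.ins _) := res_gen _ _ _ _ _ _

theorem apV_gen (z : Word) (h : Lw z) (y : Word) (hy : Good y) :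
    apV A z h (gen A y hy) = gen A (y ++ z) (hy.app h) := res_gen _ _ _ _ _ _

theorem EV_gen (κ : Word) (h : Aw κ) (i j : ℤ) (y : Word) (hy : Good y) :
    EV A κ h i j (gen A y hy) = gen A (dblG 0 (tw2 i j) [] y ++ κ) (hy.arc h _) :=
  res_gen _ _ _ _ _ _

theorem apV_comm (z : Word) (h : Lw z) (s : Bool) : apV A z h * TV A s = TV A s * apV A z h := by
  refine Vg.ext fun y hy => ?_
  simp only [Module.End.mul_apply, TV_gen, apV_gen]
  exact gen_eq _ _ (by rw [ins_append, ins_of_noKey (h.noKey _)])

theorem tw2_up0 (i j k : ℤ) : Function.update (tw2 i j) (lbl false) k = tw2 k j := by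
  funext l
  by_cases h : l = 0
  · subst h; simp [tw2, lbl]
  · simp [tw2, lbl, h]

theorem good_congr {y : Word} (hy : Good y) {tw tw' : ℤ → ℤ} (h0 : tw 0 = tw' 0)
    (h1 : tw 1 = tw' 1) : dblG 0 tw [] y = dblG 0 tw' [] y := by
  refine dblG_congr (fun f hf => ?_) []
  obtain ⟨g1, v, g2⟩ := hy
  rw [← key_mem_skel g1, g2, List.map_append, List.mem_append] at hf
  rcases hf with hf | hf
  · simp only [cups, List.map_cons, List.map_nil, List.mem_cons, cup.injEq, Option.some.injEq,
      Prod.mk.injEq, true_and, List.not_mem_nil, or_false] at hf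
    rcases hf with rfl | rfl
    · exact h1
    · exact h0
  · exact absurd hf (noKey_braid _ v)

theorem tw2_up1 {y : Word} (hy : Good y) (i j k : ℤ) :
    dblG 0 (Function.update (tw2 i j) (lbl true) k) [] y = dblG 0 (tw2 i k) [] y :=
  good_congr hy (by simp [tw2, lbl]) (by simp [tw2, lbl])

theorem EV_fam (κ : Word) (h : Aw κ) : Fam A (TV A) (EV A κ h) := by
  refine ⟨fun i j => ?_, fun i j => ?_, fun i j => ?_, fun i j => ?_⟩ <;>
    refine Vg.ext fun y hy => Subtype.ext ?_ <;>
    simp only [Module.End.mul_apply, TV_gen, EV_gen, LinearMap.add_apply, LinearMap.smul_apply,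
      Submodule.coe_add, Submodule.coe_smul] <;> simp only [gen]
  · have := congrArg (app A [] κ) (dbl_in (A := A) hy.1 (hy.solo false) (tw2 i j))
    simp only [map_add, map_smul, app_cls, tw2_up0] at this
    rw [ins_append, ins_of_noKey (h.noKey _)]
    exact this
  · have := congrArg (app A [] κ) (dbl_in (A := A) hy.1 (hy.solo true) (tw2 i j))
    simp only [map_add, map_smul, app_cls, tw2_up1 hy] at this
    rw [ins_append, ins_of_noKey (h.noKey _)]
    exact this
  · have := congrArg (app A [] κ) (dbl_out (A := A) hy.1 (hy.solo false) (tw2 i j))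
    simp only [map_add, map_smul, app_cls, tw2_up0] at this
    exact this
  · have := congrArg (app A [] κ) (dbl_out (A := A) hy.1 (hy.solo true) (tw2 i j))
    simp only [map_add, map_smul, app_cls, tw2_up1 hy] at this
    exact this

/-- The module on which all operators act. -/
abbrev UU (A : Rˣ) : Type _ := Hat (TV A)

/-- The meridian eigenvalue operator. -/
noncomputable abbrev MM (A : Rˣ) : (Module.End R (UU A))ˣ := hM (TV A)

/-- The image of a good word. -/
noncomputable def ig (A : Rˣ) (y : Word) (h : Good y) : UU A := hι (TV A) (gen A y h)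

theorem ig_eq {y y' : Word} (h : Good y) (h' : Good y') (e : cls A [] y = cls A [] y') :
    ig A y h = ig A y' h' := congrArg _ (gen_eq h h' e)

open Classical in
/-- The operator of a word on four strands. -/
noncomputable def opL (A : Rˣ) (z : Word) : Module.End R (UU A) :=
  if h : Lw z then hext (apV A z h) (apV_comm z h) else 0

open Classical in
/-- The operator of a system of arcs. -/
noncomputable def opA (A : Rˣ) (κ : Word) (e : Bool) : Module.End R (UU A) :=
  if h : Aw κ then harc e (EV A κ h) (EV_fam κ h) else 0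

theorem opL_ig {z : Word} (h : Lw z) (y : Word) (hy : Good y) :
    opL A z (ig A y hy) = ig A (y ++ z) (hy.app h) := by
  rw [opL, dif_pos h, ig, hext_ι, apV_gen]; rfl

theorem opL_M (z : Word) : opL A z * MM A = MM A * opL A z := by
  rw [opL]
  split_ifs with h
  · exact hext_M _ _
  · simp

theorem opA_M (κ : Word) (e : Bool) :
    opA A κ e * MM A = sc A (2 * sg e) • (MM A * opA A κ e) := by
  rw [opA]
  split_ifs with h
  · exact harc_M _ _ _
  · simp

theorem opA_semi (κ : Word) : Semi A (MM A) (opA A κ) := by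
  by_cases h : Aw κ
  · have : opA A κ = fun e => harc e (EV A κ h) (EV_fam κ h) := funext fun e => dif_pos h
    rw [this]
    exact harc_semi _ _
  · intro e
    simp [opA, h]

theorem opA_ig {κ : Word} (h : Aw κ) (e : Bool) (y : Word) (hy : Good y) :
    opA A κ e (ig A y hy) = piE A (TV A) e (EV A κ h) 0 0 (gen A y hy) := by
  rw [opA, dif_pos h, ig, harc_ι]

theorem UU.ext {f g : Module.End R (UU A)} (k : ℤ)
    (hf : f * MM A = sc A k • (MM A * f)) (hg : g * MM A = sc A k • (MM A * g))
    (h : ∀ y hy, f (ig A y hy) = g (ig A y hy)) : f = g := by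
  refine Hat.ext_semi k hf hg fun x => ?_
  have : f.comp (hι (TV A)) = g.comp (hι (TV A)) := Vg.ext h
  exact LinearMap.congr_fun this x

theorem UU.ext0 {f g : Module.End R (UU A)} (hf : f * MM A = MM A * f)
    (hg : g * MM A = MM A * g) (h : ∀ y hy, f (ig A y hy) = g (ig A y hy)) : f = g :=
  UU.ext 0 (by simpa using hf) (by simpa using hg) h

theorem lw_nil : Lw [] := ⟨rfl, [], rfl⟩

theorem opL_nil : opL A [] = 1 :=
  UU.ext0 (opL_M _) (by simp) fun y hy => by
    rw [opL_ig lw_nil]; exact ig_eq _ _ (by rw [List.append_nil])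

theorem opL_append {z z' : Word} (h : Lw z) (h' : Lw z') :
    opL A (z ++ z') = opL A z' * opL A z :=
  UU.ext0 (opL_M _) (by rw [mul_assoc, opL_M, ← mul_assoc, opL_M, mul_assoc]) fun y hy => by
    rw [Module.End.mul_apply, opL_ig h, opL_ig h', opL_ig (h.append h')]
    exact ig_eq _ _ (by rw [List.append_assoc])

theorem lw_wt {t : ℕ} (ht : t < 4) : Lw (wt t) := by
  interval_cases t <;> exact ⟨by decide, [], by decide⟩

/-- The meridian. -/
noncomputable def tm (A : Rˣ) : Module.End R (UU A) := mp (MM A) true 1 + mp (MM A) true (-1)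

theorem opL_wt {t : ℕ} (ht : t < 4) : opL A (wt t) = tm A :=
  UU.ext0 (opL_M _) (by rw [tm, add_mul, mul_add, mp_comm_M, mp_comm_M]) fun y hy => by
    rw [opL_ig (lw_wt ht)]
    rcases good_loop (A := A) hy ht with h | h
    · rw [ig_eq _ (hy.ins (0, lbl false)) h, ig, ← TV_gen, hι_T]; rfl
    · rw [ig_eq _ (hy.ins (0, lbl true)) h, ig, ← TV_gen, hι_T]; rfl

theorem sum_semi {ι : Type*} (ts : List ι) (r : ι → R) (f : ι → Module.End R (UU A)) (k : ℤ)
    (h : ∀ t, f t * MM A = sc A k • (MM A * f t)) :
    (ts.map fun t => r t • f t).sum * MM A =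
      sc A k • (MM A * (ts.map fun t => r t • f t).sum) := by
  induction ts with
  | nil => simp
  | cons t ts ih =>
    simp only [List.map_cons, List.sum_cons, add_mul, mul_add, smul_add, ih, smul_mul_assoc,
      mul_smul_comm, h, smul_comm (r t)]

theorem sum_gen (ts : List (ℤ × ℤ × Word)) (u : Word) (hg : ∀ t ∈ ts, Good (u ++ t.2.2))
    (f : ℤ × ℤ × Word → Vg A) (hf : ∀ t (ht : t ∈ ts), f t = gen A _ (hg t ht))
    (h : wcmb A [] u ts = 0) : (ts.map fun t => ((t.1 : R) * sc A t.2.1) • f t).sum = 0 := by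
  apply Subtype.ext
  rw [Submodule.coe_zero, ← h, wcmb]
  change (Vg A).subtype _ = _
  rw [map_list_sum, List.map_map]
  congr 1
  refine List.map_congr_left fun t ht => ?_
  simp only [Function.comp, map_smul, hf t ht]
  rfl

theorem sum_map_apply {ι V Z : Type*} [AddCommGroup V] [Module R V] [AddCommGroup Z] [Module R Z]
    (ts : List ι) (r : ι → R) (f : ι → V) (g : V →ₗ[R] Z) :
    g (ts.map fun t => r t • f t).sum = (ts.map fun t => r t • g (f t)).sum := by
  induction ts with
  | nil => simp
  | cons t ts ih => simp [ih]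

theorem sum_end_apply {ι V : Type*} [AddCommGroup V] [Module R V]
    (ts : List ι) (r : ι → R) (f : ι → Module.End R V) (x : V) :
    (ts.map fun t => r t • f t).sum x = (ts.map fun t => r t • f t x).sum := by
  induction ts with
  | nil => simp
  | cons t ts ih => simp [ih]

open Classical in
theorem opL_van {ts : List (ℤ × ℤ × Word)} (hw : ∀ t ∈ ts, Lw t.2.2) (h : Van A c4 ts) :
    (ts.map fun t => ((t.1 : R) * sc A t.2.1) • opL A t.2.2).sum = 0 := by
  refine UU.ext 0 (sum_semi _ _ _ _ fun t => by simpa using opL_M _) (by simp) fun y hy => ?_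
  have := congrArg (hι (TV A)) (sum_gen ts y (fun t ht => hy.app (hw t ht))
    (fun t => if ht : t ∈ ts then gen A _ (hy.app (hw t ht)) else 0) (fun t ht => dif_pos ht)
    (h y hy.1))
  rw [sum_map_apply, map_zero] at this
  rw [sum_end_apply, LinearMap.zero_apply, ← this]
  congr 1
  refine List.map_congr_left fun t ht => ?_
  rw [dif_pos ht, opL_ig (hw t ht)]; rfl

open Classical in
theorem opA_van {ts : List (ℤ × ℤ × Word)} (hw : ∀ t ∈ ts, Aw t.2.2) (h : Van A c8 ts)
    (e : Bool) : (ts.map fun t => ((t.1 : R) * sc A t.2.1) • opA A t.2.2 e).sum = 0 := by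
  refine UU.ext (2 * sg e) (sum_semi _ _ _ _ fun t => opA_M _ _) (by simp) fun y hy => ?_
  let f : ℤ → ℤ → ℤ × ℤ × Word → Vg A := fun i j t =>
    if ht : t ∈ ts then gen A _ (hy.arc (hw t ht) (tw2 i j)) else 0
  have key : ∀ i j, (ts.map fun t => ((t.1 : R) * sc A t.2.1) • f i j t).sum = 0 := fun i j =>
    sum_gen ts _ (fun t ht => hy.arc (hw t ht) _) _ (fun t ht => dif_pos ht) (h _ (hy.run8 _))
  have k2 : ∀ i j (g : Module.End R (UU A)),
      (ts.map fun t => ((t.1 : R) * sc A t.2.1) • g (hι (TV A) (f i j t))).sum = 0 := by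
    intro i j g
    have := congrArg (g.comp (hι (TV A))) (key i j)
    rwa [sum_map_apply, map_zero] at this
  have k3 : (ts.map fun t => ((t.1 : R) * sc A t.2.1) • opA A t.2.2 e (ig A y hy)) =
      ts.map fun t => ((t.1 : R) * sc A t.2.1) • (1 : Module.End R (UU A)) (hι (TV A) (f 1 1 t)) +
        (((t.1 : R) * sc A t.2.1) • (-(sc A 1 • mp (MM A) e (-1))) (hι (TV A) (f 1 0 t)) +
        (((t.1 : R) * sc A t.2.1) • (-(sc A 1 • mp (MM A) e (-1))) (hι (TV A) (f 0 1 t)) +
        ((t.1 : R) * sc A t.2.1) • (sc A 2 • mp (MM A) e (-2)) (hι (TV A) (f 0 0 t)))) := by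
    refine List.map_congr_left fun t ht => ?_
    rw [opA_ig (hw t ht), piE]
    simp only [f, dif_pos ht, EV_gen, zero_add, Module.End.one_apply, LinearMap.neg_apply,
      LinearMap.smul_apply]
    module
  rw [sum_end_apply, LinearMap.zero_apply, k3]
  simp only [List.sum_map_add, k2, add_zero]

theorem opA_post {κ z : Word} (h : Aw κ) (h' : Lw z) (e : Bool) :
    opA A (κ ++ z) e = opL A z * opA A κ e := by
  refine UU.ext (2 * sg e) (opA_M _ _) (by
    rw [mul_assoc, opA_M, mul_smul_comm, ← mul_assoc, opL_M, mul_assoc]) fun y hy => ?_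
  have c : ∀ k (x : UU A), opL A z (mp (MM A) e k x) = mp (MM A) e k (opL A z x) := fun k x =>
    LinearMap.congr_fun (commute_mp (opL_M z) e k).eq x
  have d : ∀ i j, opL A z (hι (TV A) (EV A κ h i j (gen A y hy))) =
      hι (TV A) (EV A _ (h.post h') i j (gen A y hy)) := by
    intro i j
    rw [EV_gen, EV_gen]
    exact (opL_ig h' _ _).trans (ig_eq _ _ (by rw [List.append_assoc]))
  rw [Module.End.mul_apply, opA_ig h, opA_ig (h.post h')]
  simp only [piE, map_add, map_sub, map_smul, c, d]

theorem opA_pre {κ z : Word} (h : Aw κ) (h' : Lw z) (e : Bool) :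
    opA A (d4 z ++ κ) e = opA A κ e * opL A z := by
  refine UU.ext (2 * sg e) (opA_M _ _) (by
    rw [mul_assoc, opL_M, ← mul_assoc, opA_M, smul_mul_assoc, mul_assoc]) fun y hy => ?_
  have d : ∀ i j, EV A κ h i j (gen A _ (hy.app h')) = EV A _ (h.pre h') i j (gen A y hy) := by
    intro i j
    rw [EV_gen, EV_gen]
    refine gen_eq _ _ ?_
    rw [dblG_append hy.1, List.append_assoc, d4,
      dblG_congr (tw' := fun _ => 0) (fun f hf => absurd hf (h'.noKey _)) c4]
  rw [Module.End.mul_apply, opL_ig h', opA_ig h, opA_ig (h.pre h')]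
  simp only [piE, d]

theorem run_tw8 {t : ℕ} (ht : t < 4) (k : ℤ) :
    run c8 (shift (2 * t) (twist k)) = some c8 ∧ skel c8 (shift (2 * t) (twist k)) = [] := by
  have h1 := run_twist (some 0) k
  have h2 := skel_twist (some 0) k
  have key : ∀ cl cr : Config, cl ++ [none, some 0] ++ cr = c8 →
      run c8 (shift cl.length (twist k)) = some c8 ∧ skel c8 (shift cl.length (twist k)) = [] := by
    intro cl cr e
    rw [← e]
    exact ⟨run_whisk h1 cl cr, by rw [skel_whisk h1, h2, shift_nil]⟩
  interval_cases t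
  · exact key [] (c8.drop 2) rfl
  · exact key (c8.take 2) (c8.drop 4) rfl
  · exact key (c8.take 4) (c8.drop 6) rfl
  · exact key (c8.take 6) [] rfl

theorem Aw.tw {κ : Word} (h : Aw κ) {t : ℕ} (ht : t < 4) (k : ℤ) :
    Aw (shift (2 * t) (twist k) ++ κ) := h.free (run_tw8 ht k).1 (run_tw8 ht k).2

theorem opA_tw {κ : Word} (h : Aw κ) {t : ℕ} (ht : t < 4) (k : ℤ) (e : Bool) :
    opA A (shift (2 * t) (twist k) ++ κ) e = sc A k • (mp (MM A) e k * opA A κ e) := by
  refine UU.ext (2 * sg e) (opA_M _ _) (by
    rw [smul_mul_assoc, mul_assoc, opA_M, mul_smul_comm, mul_smul_comm, ← mul_assoc, mp_comm_M,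
      mul_assoc, smul_comm]) fun y hy => ?_
  rw [LinearMap.smul_apply, Module.End.mul_apply, opA_ig h, opA_ig (h.tw ht k)]
  rcases good_twist (A := A) hy ht with g | g
  · have d : ∀ i j, EV A _ (h.tw ht k) i j (gen A y hy) = EV A κ h (i + k) j (gen A y hy) := by
      intro i j
      rw [EV_gen, EV_gen]
      refine gen_eq _ _ ?_
      simpa only [app_cls, List.append_assoc] using congrArg (app A [] κ) (g i j k)
    have := piE_eq (EV_fam (A := A) κ h) e k 0 (gen A y hy)
    rw [add_zero] at this
    rw [← this]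
    simp only [piE, d, zero_add, add_comm (1 : ℤ) k]
  · have d : ∀ i j, EV A _ (h.tw ht k) i j (gen A y hy) = EV A κ h i (j + k) (gen A y hy) := by
      intro i j
      rw [EV_gen, EV_gen]
      refine gen_eq _ _ ?_
      simpa only [app_cls, List.append_assoc] using congrArg (app A [] κ) (g i j k)
    have := piE_eq (EV_fam (A := A) κ h) e 0 k (gen A y hy)
    rw [zero_add] at this
    rw [← this]
    simp only [piE, d, zero_add, add_comm (1 : ℤ) k]

theorem opA_iso {κ κ' : Word} (h : Aw κ) (hi : Iso A c8 κ κ') (e : Bool) :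
    opA A κ e = opA A κ' e := by
  have h' : Aw κ' := ⟨hi.run_eq ▸ h.1, hi.same.skel_eq ▸ h.2⟩
  refine UU.ext (2 * sg e) (opA_M _ _) (opA_M _ _) fun y hy => ?_
  have d : ∀ i j, EV A κ h i j (gen A y hy) = EV A κ' h' i j (gen A y hy) := by
    intro i j
    rw [EV_gen, EV_gen]
    exact gen_eq _ _ (hi.pre (hy.run8 _)).eq
  rw [opA_ig h, opA_ig h']
  simp only [piE, d]

/-- The first part of a system of arcs stays away from the first doubled strand. -/
structure ArcOk (κ : Word × Word) : Prop where
  fst : ∃ κ' c, κ.1 = shift 2 κ' ∧ run (c8.drop 2) κ' = some c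
  aw : Aw (κ.1 ++ κ.2)

theorem arcw_zero (κ : Word × Word) : arcw κ 0 0 0 0 = κ.1 ++ κ.2 := by
  simp [arcw, twist]

theorem ArcOk.iso {κ : Word × Word} (h : ArcOk κ) (k : ℤ) :
    Iso A c8 (shift (2 * 0) (twist k) ++ (κ.1 ++ κ.2)) (κ.1 ++ twist k ++ κ.2) := by
  obtain ⟨κ', c, h1, h2⟩ := h.fst
  have := (far_block (A := A) (run_twist (some 0) k) h2 (Or.inl (skel_twist _ _))).app
    (s := κ.2) (c' := c4) (by
      have := (h.aw.tw (t := 0) (by norm_num) k).1
      rw [h1, Nat.mul_zero, shift_zero, ← List.append_assoc] at this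
      exact this)
  rw [h1, Nat.mul_zero, shift_zero, ← List.append_assoc]
  exact this

theorem ArcOk.arcw {κ : Word × Word} (h : ArcOk κ) (e0 e1 e2 e3 : ℤ) :
    Aw (arcw κ e0 e1 e2 e3) ∧ ∀ e, opA A (arcw κ e0 e1 e2 e3) e =
      sc A (e0 + e1 + e2 + e3) • (mp (MM A) e (e0 + e1 + e2 + e3) * opA A (arcw κ 0 0 0 0) e) := by
  have i0 := h.iso (A := A) e0
  have a0 := h.aw.tw (t := 0) (by norm_num) e0
  have a1 : Aw (κ.1 ++ twist e0 ++ κ.2) := ⟨i0.run_eq ▸ a0.1, i0.same.skel_eq ▸ a0.2⟩
  have a2 := a1.tw (t := 3) (by norm_num) e3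
  have a3 := a2.tw (t := 2) (by norm_num) e2
  have a4 := a3.tw (t := 1) (by norm_num) e1
  have q : MP_5b31c3_gt.arcw κ e0 e1 e2 e3 = shift (2 * 1) (twist e1) ++ (shift (2 * 2) (twist e2) ++
      (shift (2 * 3) (twist e3) ++ (κ.1 ++ twist e0 ++ κ.2))) := by
    simp [MP_5b31c3_gt.arcw]
  rw [q]
  refine ⟨a4, fun e => ?_⟩
  rw [opA_tw a3 (by norm_num), opA_tw a2 (by norm_num), opA_tw a1 (by norm_num),
    ← opA_iso a0 i0, opA_tw h.aw (by norm_num), arcw_zero]
  simp only [mul_smul_comm, smul_smul, ← mul_assoc, mp_mul_mp, sc_mul_sc]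
  rw [show e1 + (e2 + (e3 + e0)) = e0 + e1 + e2 + e3 by ring]

theorem ok_al : ArcOk kal :=
  ⟨⟨[(cr true, 0), (cap, 1)], _, rfl, rfl⟩, by decide, [], by decide⟩

theorem ok_be : ArcOk kbe :=
  ⟨⟨[(cr true, 2), (cap, 3)], _, rfl, rfl⟩, by decide, [], by decide⟩

theorem ok_G : ArcOk kG :=
  ⟨⟨[(cr true, 0), (cr false, 1), (cr false, 2), (cap, 3)], _, rfl, rfl⟩, by decide, [], by decide⟩

theorem ok_P : ArcOk kP :=
  ⟨⟨[(cr true, 0), (cr true, 1), (cr true, 2), (cap, 3)], _, rfl, rfl⟩, by decide, [], by decide⟩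

end Pool.Agent.Lib.MP_5b31c3_gt
end
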