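import Pool.Agent.Lib.MP_5b31c3_gt.TL
import Pool.Agent.Lib.MP_5b31c3_gt.Hooks

/-
A spanning set for the skein module of the exterior of two vertical strands.
-/

namespace Pool.Agent.Lib.MP_5b31c3_gt

open Kind

variable {R : Type*} [CommRing R] {A : Rˣ}

/-! Words made of link slices -/

/-- The word has no surgery minimum. -/
def Lk (w : Word) : Prop := ∀ l ∈ w, ∀ κ, l.1 ≠ cup (some κ)

theorem lk_nil : Lk [] := fun _ h => absurd h List.not_mem_nil

theorem lk_append {u w : Word} : Lk (u ++ w) ↔ Lk u ∧ Lk w := by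
  simp only [Lk, List.mem_append]
  exact ⟨fun h => ⟨fun l hl => h l (Or.inl hl), fun l hl => h l (Or.inr hl)⟩,
    fun h l hl => hl.elim (h.1 l) (h.2 l)⟩

theorem lk_cons {x : Kind} {i : ℕ} {w : Word} :
    Lk ((x, i) :: w) ↔ (∀ κ, x ≠ cup (some κ)) ∧ Lk w := by
  simp only [Lk, List.mem_cons]
  exact ⟨fun h => ⟨h (x, i) (Or.inl rfl), fun l hl => h l (Or.inr hl)⟩,
    fun h l hl => hl.elim (fun e => e ▸ h.1) (h.2 l)⟩

theorem lk_single {x : Kind} (i : ℕ) (h : ∀ κ, x ≠ cup (some κ)) : Lk [(x, i)] :=
  lk_cons.mpr ⟨h, lk_nil⟩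

theorem Lk.shift {w : Word} (h : Lk w) (k : ℕ) : Lk (shift k w) := by
  induction w with
  | nil => exact lk_nil
  | cons l w ih =>
    obtain ⟨x, i⟩ := l
    rw [lk_cons] at h
    rw [shift_cons, lk_cons]
    exact ⟨h.1, ih h.2⟩

theorem lk_back (b : Bool) (n : ℕ) : Lk (back b n) := by
  induction n with
  | zero => exact lk_nil
  | succ n ih => exact lk_append.mpr ⟨ih.shift 1, lk_single _ fun _ h => by cases h⟩

theorem lk_beta (f : List ℕ) (j : ℕ) : Lk (beta f j) := by
  induction f generalizing j with
  | nil => exact lk_nil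
  | cons a f ih =>
    cases j with
    | zero =>
      exact lk_append.mpr ⟨lk_append.mpr ⟨(lk_back _ _).shift _, (lk_back _ _).shift _⟩,
        lk_back _ _⟩
    | succ j => exact (ih j).shift _

theorem lk_cupsW (p : List ℕ) : Lk (cupsW p) := by
  induction p with
  | nil => exact lk_nil
  | cons a p ih => exact lk_append.mpr ⟨ih, lk_single _ fun _ h => by cases h⟩

theorem sp_nn_add (a b : ℕ) : nn (a + b) = nn a ++ nn b := List.replicate_add a b none

theorem sp_nn_length (a : ℕ) : (nn a).length = a := List.length_replicate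

theorem sp_step_cup {i m : ℕ} (h : i ≤ m) : step (cup none) i (nn m) = some (nn (m + 2)) := by
  induction i generalizing m with
  | zero => rfl
  | succ i ih =>
    obtain ⟨m, rfl⟩ : ∃ k, m = k + 1 := ⟨m - 1, by omega⟩
    change (step (cup none) i (nn m)).map (none :: ·) = _
    rw [ih (by omega)]
    rfl

theorem sp_step_cap {i m : ℕ} (h : i ≤ m) : step cap i (nn (m + 2)) = some (nn m) := by
  induction i generalizing m with
  | zero => rfl
  | succ i ih =>
    obtain ⟨m, rfl⟩ : ∃ k, m = k + 1 := ⟨m - 1, by omega⟩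
    change (step cap i (nn (m + 2))).map (none :: ·) = _
    rw [ih (by omega)]
    rfl

theorem sp_step_cr (b : Bool) {i m : ℕ} (h : i ≤ m) :
    step (cr b) i (nn (m + 2)) = some (nn (m + 2)) := by
  induction i generalizing m with
  | zero => rfl
  | succ i ih =>
    obtain ⟨m, rfl⟩ : ∃ k, m = k + 1 := ⟨m - 1, by omega⟩
    change (step (cr b) i (nn (m + 2))).map (none :: ·) = _
    rw [ih (by omega)]
    rfl

theorem sp_step_le {x : Kind} {i : ℕ} {c c' : Config} (h : step x i c = some c') :
    i + x.inp ≤ c.length ∧ c'.length + x.inp = c.length + x.out := by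
  obtain ⟨cl, c0, c0', cr, rfl, rfl, rfl, h1, h2, -⟩ := step_decomp h
  simp only [List.length_append]
  omega

theorem sp_step_nn {x : Kind} {i m : ℕ} {c : Config} (hx : ∀ κ, x ≠ cup (some κ))
    (h : step x i (nn m) = some c) : c = nn c.length := by
  have hl := sp_step_le h
  rw [sp_nn_length] at hl
  cases x with
  | cup k =>
    cases k with
    | some κ => exact absurd rfl (hx κ)
    | none =>
      rw [sp_step_cup (by simpa [Kind.inp] using hl.1)] at h
      cases h
      rw [sp_nn_length]
  | cap =>
    obtain ⟨m, rfl⟩ : ∃ k, m = k + 2 := ⟨m - 2, by simp only [Kind.inp] at hl; omega⟩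
    rw [sp_step_cap (by simp only [Kind.inp] at hl; omega)] at h
    cases h
    rw [sp_nn_length]
  | cr b =>
    obtain ⟨m, rfl⟩ : ∃ k, m = k + 2 := ⟨m - 2, by simp only [Kind.inp] at hl; omega⟩
    rw [sp_step_cr b (by simp only [Kind.inp] at hl; omega)] at h
    cases h
    rw [sp_nn_length]

theorem sp_run_nn {w : Word} {m : ℕ} {c : Config} (hw : Lk w) (h : run (nn m) w = some c) :
    c = nn c.length := by
  induction w generalizing m with
  | nil => cases h; rw [sp_nn_length]
  | cons l w ih =>
    obtain ⟨x, i⟩ := l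
    obtain ⟨d, hd, hr⟩ := run_cons_some h
    rw [lk_cons] at hw
    rw [sp_step_nn hw.1 hd] at hr
    exact ih hw.2 hr

theorem sp_app_append (c : Config) (u w : Word) (z : Tan A c) :
    app A c (u ++ w) z = app A c w (app A c u z) := by
  have : app A c (u ++ w) = (app A c w).comp (app A c u) := Tan.ext fun v => by simp
  rw [this]; rfl

theorem sp_app_nil (c : Config) (z : Tan A c) : app A c [] z = z := by
  have : app A c [] = LinearMap.id := Tan.ext fun v => by simp
  rw [this]; rfl

theorem sp_map_mem {V W : Type*} [AddCommGroup V] [Module R V] [AddCommGroup W] [Module R W]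
    (f : V →ₗ[R] W) {s : Set V} {T : Submodule R W} (h : ∀ z ∈ s, f z ∈ T) {z : V}
    (hz : z ∈ Submodule.span R s) : f z ∈ T :=
  (Submodule.span_le (p := T.comap f)).mpr h hz

/-! Temperley-Lieb reduction -/

/-- The span of the words of minima with a given target. -/
noncomputable def TLs (A : Rˣ) (c : Config) : Submodule R (Tan A []) :=
  Submodule.span R {z | ∃ p, run [] (cupsW p) = some c ∧ z = cls A [] (cupsW p)}

theorem sp_caps_nil {a : List ℕ} {w : Word} {c : Config} (h : run [] (capsW a ++ w) = some c) :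
    a = [] := by
  induction a generalizing w with
  | nil => rfl
  | cons i a ih =>
    rw [capsW, List.append_assoc] at h
    obtain rfl := ih h
    obtain ⟨d, hd, -⟩ := run_cons_some (c := []) (x := cap) (i := i) (w := w) h
    have := (sp_step_le hd).1
    simp [Kind.inp] at this

theorem tls_cup {c c' : Config} {i : ℕ} (h : step (cup none) i c = some c') {z : Tan A []}
    (hz : z ∈ TLs A c) : app A [] [(cup none, i)] z ∈ TLs A c' := by
  refine sp_map_mem _ ?_ hz
  rintro _ ⟨p, hp, rfl⟩
  rw [app_cls]
  exact Submodule.subset_span ⟨i :: p, by rw [cupsW, run_append_of hp, run_single, h], rfl⟩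

theorem tls_cap {c c' : Config} {i : ℕ} (h : step cap i c = some c') {z : Tan A []}
    (hz : z ∈ TLs A c) : app A [] [(cap, i)] z ∈ TLs A c' := by
  refine sp_map_mem _ ?_ hz
  rintro _ ⟨p, hp, rfl⟩
  rw [app_cls]
  have h1 : run (nn 0) (capsW [] ++ cupsW p ++ [(cap, i)]) = some c' := by
    change run [] (cupsW p ++ [(cap, i)]) = _
    rw [run_append_of hp, run_single, h]
  obtain ⟨h2, h3⟩ := captl_eq (A := A) h1
  have h4 : (captl [] p i).2.1 = [] := sp_caps_nil h2
  rw [h4] at h2 h3
  have h5 : cls A [] (cupsW p ++ [(cap, i)]) =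
    (if (captl [] p i).1 then dl A else 1) • cls A [] (cupsW (captl [] p i).2.2) := h3
  rw [h5]
  exact Submodule.smul_mem _ _ (Submodule.subset_span ⟨_, h2, rfl⟩)

theorem sp_bracket {c d d' : Config} {u : Word} {b : Bool} {i : ℕ} (hu : run c u = some d)
    (hd : ∀ a ∈ d, a = none) (h : step (cr b) i d = some d') :
    d' = d ∧ (∃ e, step cap i d = some e ∧ step (cup none) i e = some d) ∧
      cls A c (u ++ [(cr b, i)]) = sc A (sg b) • cls A c u +
        sc A (-sg b) • cls A c (u ++ [(cap, i)] ++ [(cup none, i)]) := by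
  obtain ⟨cl, c0, c0', cr', rfl, rfl, rfl, h1, h2, h3⟩ := step_decomp h
  match c0, h1, h3 with
  | [a, a'], _, h3 =>
    obtain rfl : a = none := hd a (by simp)
    obtain rfl : a' = none := hd a' (by simp)
    cases h3
    refine ⟨rfl, ⟨cl ++ [] ++ cr', ?_, ?_⟩, ?_⟩
    · simpa using step_whisk (x := cap) (i := 0) (c := [none, none]) (c' := []) rfl cl cr'
    · simpa using step_whisk (x := cup none) (i := 0) (c := []) (c' := [none, none]) rfl cl cr'
    · have := congrArg (emb A u cl [none, none] cr' [] hu) (cls_bracket (A := A) b)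
      simpa using this

theorem tls_mem {w : Word} {c : Config} (hw : Lk w) (h : run [] w = some c) :
    cls A [] w ∈ TLs A c := by
  induction w using List.reverseRecOn generalizing c with
  | nil => exact Submodule.subset_span ⟨[], h, rfl⟩
  | append_singleton w l ih =>
    obtain ⟨x, i⟩ := l
    obtain ⟨d, hd, hs⟩ := run_append_some h
    rw [run_single] at hs
    obtain ⟨hw1, hw2⟩ := lk_append.mp hw
    have ih' := ih hw1 hd
    rw [← app_cls]
    cases x with
    | cup k =>
      cases k with
      | some κ => exact absurd rfl ((lk_cons.mp hw2).1 κ)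
      | none => exact tls_cup hs ih'
    | cap => exact tls_cap hs ih'
    | cr b =>
      have hn : ∀ a ∈ d, a = none := by
        intro a ha
        rw [sp_run_nn (m := 0) hw1 hd] at ha
        exact List.eq_of_mem_replicate ha
      obtain ⟨rfl, ⟨e, he1, he2⟩, h3⟩ := sp_bracket (A := A) hd hn hs
      rw [app_cls, h3]
      refine add_mem (Submodule.smul_mem _ _ ih') (Submodule.smul_mem _ _ ?_)
      rw [← app_cls, ← app_cls]
      exact tls_cup he2 (tls_cap he1 ih')

/-! The normal forms with hooks span everything -/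

/-- The span of the normal forms with `m` free link strands. -/
noncomputable def GS (A : Rˣ) (base : Config) (m : ℕ) : Submodule R (Tan A base) :=
  Submodule.span R {z | ∃ w f n, Lk w ∧ run [] w = some (nn (2 * List.sum f + m)) ∧
    base.length = f.length ∧ base.length = List.length n ∧
    z = cls A base (shift base.length w ++ Ns f ++ Ts n)}

theorem sp_run_left {w : Word} {c : Config} (h : run [] w = some c) (base : Config) :
    run base (shift base.length w) = some (base ++ c) := by
  simpa using run_left h base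

theorem gs_tl {base : Config} {x : Kind} {i m m' : ℕ} (hx : ∀ κ, x ≠ cup (some κ))
    (h : step x i (nn m) = some (nn m')) {z : Tan A base} (hz : z ∈ GS A base m) :
    app A base [(x, i + base.length)] z ∈ GS A base m' := by
  refine sp_map_mem _ ?_ hz
  rintro _ ⟨w, f, n, hw, hr, hf, hn, rfl⟩
  have e := (tl_comm (A := A) hf hn h).pre (sp_run_left hr base)
  refine Submodule.subset_span ⟨w ++ [(x, i + 2 * f.sum)], f, n,
    lk_append.mpr ⟨hw, lk_single _ hx⟩, ?_, hf, hn, ?_⟩
  · rw [run_append_of hr, run_single, sp_nn_add, sp_nn_add]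
    have := step_left x i (nn (2 * f.sum)) (nn m)
    rw [sp_nn_length, h] at this
    exact this
  · rw [app_cls]
    simpa using e.eq

theorem gs_false {base : Config} {j m : ℕ} (hj : j < base.length) {w : Word} {f n : List ℕ}
    (hw : Lk w) (hr : run [] w = some (nn (2 * f.sum + (m + 1)))) (hf : base.length = f.length)
    (hn : base.length = n.length) :
    cls A base (shift base.length w ++ Ns f ++ Ts n ++ hook base.length j false) ∈
      GS A base (m + 1) := by
  have e := (hook_false (A := A) hf hn hj m).pre (sp_run_left hr base)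
  refine Submodule.subset_span ⟨w ++ (cup none, 2 * f.sum + 1) :: beta f j, bump f j, n,
    lk_append.mpr ⟨hw, lk_cons.mpr ⟨fun _ h => (by cases h), lk_beta f j⟩⟩, ?_,
    by rw [bump_length, hf], hn, ?_⟩
  · rw [run_append_of hr, run_cons_of (sp_step_cup (by omega)), bump_sum (hf ▸ hj)]
    have := run_beta (f := f) (j := j) (hf ▸ hj) (m + 1)
    rw [show 2 * f.sum + (m + 1) + 2 = 2 * f.sum + 2 + (m + 1) by omega,
      show 2 * (f.sum + 1) + (m + 1) = 2 * f.sum + 2 + (m + 1) by omega]
    exact this
  · simpa using e.eq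

theorem gs_hook {base : Config} {j m : ℕ} (b : Bool) (hj : j < base.length) {z : Tan A base}
    (hz : z ∈ GS A base (m + 1)) : app A base (hook base.length j b) z ∈ GS A base (m + 1) := by
  refine sp_map_mem _ ?_ hz
  rintro _ ⟨w, f, n, hw, hr, hf, hn, rfl⟩
  rw [app_cls]
  cases b with
  | false => exact gs_false hj hw hr hf hn
  | true =>
    have r1 : run base (shift base.length w ++ Ns f) = some (base ++ nn (m + 1)) := by
      rw [run_append_of (sp_run_left hr base), run_Ns hf]
    have r2 : run base (shift base.length w ++ Ns f ++ Ts n) = some (base ++ nn (m + 1)) := by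
      rw [run_append_of r1, run_Ts hn]
    have e := congrArg (pre A _ r2) (hook_true (A := A) hj m)
    simp only [map_sub, map_smul, pre_cls] at e
    rw [e]
    refine sub_mem (Submodule.smul_mem _ _ ?_) (Submodule.smul_mem _ _ (gs_false hj hw hr hf hn))
    have e2 := (Ts_loop (A := A) hn (hn ▸ hj) (nn (m + 1))).pre r1
    refine Submodule.subset_span ⟨w, f, bump n j, hw, hr, hf, by rw [bump_length, hn], ?_⟩
    simpa using e2.eq

theorem gs_letter {base : Config} {γ : Gl} {m m' : ℕ} (h : γ.ty base.length m = some m')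
    {z : Tan A base} (hz : z ∈ GS A base m) : app A base (γ.w base.length) z ∈ GS A base m' := by
  cases γ with
  | cup i =>
    simp only [Gl.ty] at h
    split_ifs at h with h1
    cases h
    exact gs_tl (fun _ h => by cases h) (sp_step_cup h1) hz
  | cap i =>
    simp only [Gl.ty] at h
    split_ifs at h with h1
    cases h
    obtain ⟨m, rfl⟩ : ∃ k, m = k + 2 := ⟨m - 2, by omega⟩
    exact gs_tl (fun _ h => by cases h) (sp_step_cap (by omega)) hz
  | cr b i =>
    simp only [Gl.ty] at h
    split_ifs at h with h1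
    cases h
    obtain ⟨m, rfl⟩ : ∃ k, m = k + 2 := ⟨m - 2, by omega⟩
    exact gs_tl (fun _ h => by cases h) (sp_step_cr b (by omega)) hz
  | hk j b =>
    simp only [Gl.ty] at h
    split_ifs at h with h1
    cases h
    obtain ⟨m, rfl⟩ : ∃ k, m = k + 1 := ⟨m - 1, by omega⟩
    exact gs_hook b h1.1 hz

theorem gs_interp {base : Config} {g : List Gl} {m m' : ℕ} (h : runG base.length m g = some m')
    {z : Tan A base} (hz : z ∈ GS A base m) :
    app A base (interp base.length g) z ∈ GS A base m' := by
  induction g generalizing m z with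
  | nil =>
    cases h
    rw [interp, sp_app_nil]
    exact hz
  | cons γ g ih =>
    obtain ⟨m1, h1, h2⟩ := Option.bind_eq_some_iff.mp h
    rw [interp, sp_app_append]
    exact ih h2 (gs_letter h1 hz)

/-! Nested minima -/

/-- `s` nested minima. -/
def rain : ℕ → Word
  | 0 => []
  | s + 1 => rain s ++ [(cup none, s)]

theorem rain_succ (s : ℕ) : rain (s + 1) = (cup none, 0) :: shift 1 (rain s) := by
  induction s with
  | zero => rfl
  | succ s ih =>
    rw [rain]
    conv_lhs => rw [ih]
    simp [rain]

theorem run_rain (s : ℕ) : run [] (rain s) = some (nn (2 * s)) := by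
  induction s with
  | zero => rfl
  | succ s ih => rw [rain, run_append_of ih, run_single, sp_step_cup (by omega)]; rfl

theorem lk_rain (s : ℕ) : Lk (rain s) := by
  induction s with
  | zero => exact lk_nil
  | succ s ih => exact lk_append.mpr ⟨ih, lk_single _ fun _ h => by cases h⟩

theorem run_cupsW {p : List ℕ} {c : Config} (h : run [] (cupsW p) = some c) :
    c = nn (2 * p.length) := by
  induction p generalizing c with
  | nil => cases h; rfl
  | cons a p ih =>
    obtain ⟨d, hd, hs⟩ := run_append_some (u := cupsW p) h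
    rw [run_single, ih hd] at hs
    have := (sp_step_le hs).1
    rw [sp_nn_length] at this
    rw [sp_step_cup (by simpa [Kind.inp] using this)] at hs
    cases hs
    rfl

theorem cups_case {p : List ℕ} {c : Config} (h : run [] (cupsW p) = some c) (hp : p ≠ [])
    (t : ℕ) : (∃ i p', i + 1 ≠ t ∧ Iso A [] (cupsW p) (cupsW (i :: p'))) ∨
      (cupsW p = rain p.length ∧ t = p.length) := by
  induction p generalizing c t with
  | nil => exact absurd rfl hp
  | cons a p ih =>
    by_cases ha : a + 1 = t
    swap
    · exact Or.inl ⟨a, p, ha, Iso.refl h⟩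
    subst ha
    obtain ⟨d, hd, hs⟩ := run_append_some (u := cupsW p) h
    rw [run_single] at hs
    by_cases hp' : p = []
    · subst hp'
      cases hd
      have := (sp_step_le hs).1
      obtain rfl : a = 0 := by simpa [Kind.inp] using this
      exact Or.inr ⟨rfl, rfl⟩
    rcases ih hd hp' a with ⟨j, q, hj, e⟩ | ⟨e, rfl⟩
    · left
      have e1 : Iso A [] (cupsW (a :: p)) (cupsW q ++ [(cup none, j), (cup none, a)]) := by
        simpa [cupsW] using e.app (s := [(cup none, a)]) h
      obtain ⟨d1, hd1, hs1⟩ := run_append_some (u := cupsW q) (e.run_eq ▸ hd)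
      rw [run_single] at hs1
      have l1 := sp_step_le hs1
      have l2 := sp_step_le hs
      obtain rfl := run_cupsW hd1
      simp only [Kind.inp, Kind.out, sp_nn_length] at l1 l2
      rcases Nat.lt_or_ge j a with hja | hja
      · obtain ⟨a, rfl⟩ : ∃ k, a = k + 2 := ⟨a - 2, by omega⟩
        have e2 := far2 (A := A) (x := cup none) (y := cup none) (i := j) (j := a) hs1 hs
          (by omega) (Or.inl rfl)
        refine ⟨j, a :: q, by omega, e1.trans ?_⟩
        simpa [cupsW, Kind.inp, Kind.out] using e2.pre hd1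
      · have e2 := far2 (A := A) (x := cup none) (y := cup none) (i := a) (j := j)
          (sp_step_cup (m := 2 * q.length) (by omega)) (sp_step_cup (by simp [Kind.out]; omega))
          hja (Or.inl rfl)
        refine ⟨j + 2, a :: q, by omega, e1.trans ?_⟩
        simpa [cupsW, Kind.inp, Kind.out] using (e2.pre hd1).symm
    · exact Or.inr ⟨by rw [cupsW, e]; rfl, rfl⟩

/-- Nested loops around two strands. -/
def rbw (f : ℕ) : Word := shift 2 (rain (2 * f)) ++ Ns [f, f]

theorem run_rbw (x y : Option ℕ) (f : ℕ) : run [x, y] (rbw f) = some [x, y] := by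
  have h1 := sp_run_left (run_rain (2 * f)) [x, y]
  have h2 := run_Ns (base := [x, y]) (f := [f, f]) rfl 0
  rw [show 2 * [f, f].sum + 0 = 2 * (2 * f) by simp; omega] at h2
  exact (run_append_of h1 _).trans h2

theorem sp_finger (x y : Option ℕ) : Iso A [none, x, y]
    [(cup none, 3), (cr false, 0), (cr true, 1), (cap, 2), (cr false, 1)] [(cr false, 0)] := by
  have s1 := far2 (A := A) (x := cr false) (y := cup none) (i := 0) (j := 1) (c := [none, x, y])
    rfl rfl (by omega) (Or.inr rfl)
  have s2 := far2 (A := A) (x := cr true) (y := cup none) (i := 1) (j := 1) (c := [x, none, y])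
    rfl rfl (by omega) (Or.inr rfl)
  have s3 := (BMove.zig.iso (A := A)).whisk [x, y] []
  have s4 := ((BMove.two true none y (Or.inl rfl)).iso (A := A)).whisk [x] []
  have t1 := s1.symm.app (s := [(cr true, 1), (cap, 2), (cr false, 1)]) (c' := [x, none, y]) rfl
  have t2 := s2.symm.mid (c := [none, x, y]) (p := [(cr false, 0)])
    (s := [(cap, 2), (cr false, 1)]) (d := [x, none, y]) rfl rfl
  have t3 := s3.mid (c := [none, x, y]) (p := [(cr false, 0), (cr true, 1)])
    (s := [(cr false, 1)]) (d := [x, none, y]) rfl rfl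
  have t4 := s4.pre (c := [none, x, y]) (p := [(cr false, 0)]) rfl
  exact t1.trans (t2.trans (t3.trans t4))

theorem sp_loop2 (x y : Option ℕ) : Iso A [x, y]
    [(cup none, 2), (cr false, 1), (cr false, 0), (cr false, 0), (cr false, 1), (cap, 2)]
    (loopn 2) := by
  have s1 := ((BMove.cupSlide none false y (Or.inr rfl)).iso (A := A)).whisk [x] []
  have s2 := far2 (A := A) (x := cr false) (y := cr true) (i := 0) (j := 0)
    (c := [x, none, none, y]) rfl rfl (by omega) (Or.inr rfl)
  have s3 := ((BMove.cupSlide none false x (Or.inr rfl)).iso (A := A)).right [y]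
  have t1 := s1.app (s := [(cr false, 0), (cr false, 0), (cr false, 1), (cap, 2)])
    (c' := [x, y]) rfl
  have t2 := s2.symm.mid (c := [x, y]) (p := [(cup none, 1)])
    (s := [(cr false, 0), (cr false, 1), (cap, 2)]) (d := [x, y]) rfl rfl
  have t3 := s3.app (s := [(cr true, 2), (cr false, 0), (cr false, 1), (cap, 2)])
    (c' := [x, y]) rfl
  exact t1.trans (t2.trans t3)

theorem rbw_succ (x y : Option ℕ) (f : ℕ) (s : Word) :
    cls A [x, y] (rbw (f + 1) ++ s) = cls A [x, y] (loopn 2 ++ (rbw f ++ s)) := by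
  have ra : run ([x, y] ++ nn (2 * f)) (N0 1 f) = some [x, y] := by
    simpa [Ns, N0, nn] using run_Ns (base := [x, y]) (f := [f, 0]) rfl 0
  have rb : run ([y] ++ nn (2 * f)) (N0 0 f) = some [y] := by
    simpa [Ns, nn] using run_Ns (base := [y]) (f := [f]) rfl 0
  have rr := run_rain (2 * f)
  have rw' := run_rbw x y f
  have hW : rbw f = shift 2 (rain (2 * f)) ++ (N0 1 f ++ shift 1 (N0 0 f)) := by simp [rbw, Ns]
  have hW' : rbw (f + 1) = (cup none, 2) :: (shift 3 (rain (2 * f)) ++
      (cup none, 2 * f + 3) :: (cr false, 1) :: (cr false, 0) :: (shift 1 (N0 1 f) ++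
      (cr false, 0) :: (cr true, 1) :: (cap, 2) :: (cr false, 1) :: (shift 2 (N0 0 f) ++
      [(cr false, 1), (cap, 2)]))) := by
    rw [rbw, show 2 * (f + 1) = 2 * f + 1 + 1 by omega, rain, rain_succ]
    simp [Ns, N0, back, pass, shift_shift]
  have rP : run [x, y] ((cup none, 2) :: shift 3 (rain (2 * f))) =
      some ([x, y, none] ++ nn (2 * f) ++ [] ++ (nn (2 * f) ++ [none])) := by
    rw [run_cons_of (c' := [x, y, none] ++ [] ++ [none]) rfl]
    have := run_whisk rr [x, y, none] [none]
    rw [show 2 * (2 * f) = 2 * f + 2 * f by omega, sp_nn_add] at this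
    simpa using this
  have rX : run ([x, y, none] ++ nn (2 * f)) ([(cr false, 1), (cr false, 0)] ++ shift 1 (N0 1 f)) =
      some [none, x, y] := by
    rw [run_append_of (c' := none :: ([x, y] ++ nn (2 * f))) rfl]
    exact run_one ra none
  have rPX : run [x, y] ((cup none, 2) :: shift 3 (rain (2 * f)) ++
      ([(cr false, 1), (cr false, 0)] ++ shift 1 (N0 1 f))) =
      some ([none, x, y] ++ (nn (2 * f) ++ [none])) := by
    rw [run_append_of rP, List.append_nil]
    exact run_right rX _
  have e1 := (((far_block (A := A) (y := [(cup none, 0)]) (c2 := []) rX rfl (Or.inr rfl)).right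
    (nn (2 * f) ++ [none])).pre rP).cls_app ((cr false, 0) :: (cr true, 1) :: (cap, 2) ::
      (cr false, 1) :: (shift 2 (N0 0 f) ++ (cr false, 1) :: (cap, 2) :: s))
  have e2 := (((sp_finger (A := A) x y).right (nn (2 * f) ++ [none])).pre rPX).cls_app
    (shift 2 (N0 0 f) ++ (cr false, 1) :: (cap, 2) :: s)
  have e3 := (((far_block (A := A) (x := [(cr false, 0)]) (c1 := [none, x]) rfl rb
    (Or.inl rfl)).right [none]).pre (p := (cup none, 2) :: shift 3 (rain (2 * f)) ++
      ([(cr false, 1), (cr false, 0)] ++ shift 1 (N0 1 f))) (by simpa using rPX)).cls_app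
    ((cr false, 1) :: (cap, 2) :: s)
  have e4 := (((far_block (A := A) (x := [(cr false, 1), (cr false, 0)]) (c1 := [x, y, none]) rfl
    rr (Or.inl (by cases x <;> cases y <;> rfl))).right [none]).pre (c := [x, y])
    (p := [(cup none, 2)]) rfl).cls_app (shift 1 (N0 1 f) ++ (shift 2 (N0 0 f) ++
      (cr false, 0) :: (cr false, 1) :: (cap, 2) :: s))
  have e5 := (((nat_pass (A := A) false none rw' (Or.inl rfl)).right [none]).pre (c := [x, y])
    (p := [(cup none, 2), (cr false, 1), (cr false, 0)]) rfl).cls_app ((cap, 2) :: s)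
  have e6 := ((far_block (A := A) (y := [(cap, 0)]) (c2 := [none, none]) rw' rfl
    (Or.inr rfl)).pre (c := [x, y])
    (p := [(cup none, 2), (cr false, 1), (cr false, 0), (cr false, 0), (cr false, 1)])
    rfl).cls_app s
  have e7 := (sp_loop2 (A := A) x y).cls_app (rbw f ++ s)
  rw [hW']
  rw [hW] at e5
  simp only [List.append_assoc, List.cons_append, List.nil_append, shift_cons, shift_nil,
    shift_append, shift_shift, List.length_cons, List.length_nil,
    sp_nn_length, pass, Nat.reduceAdd, Nat.zero_add] at e1 e2 e3 e4 e5 e6 e7 ⊢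
  rw [show 2 * f + 1 + 1 + 1 = 2 * f + 3 by omega] at e1
  rw [← e1, e2, e3, ← e4, ← e5, ← e7, ← e6, hW]
  simp only [List.append_assoc]

/-- The target of the spanning theorem. -/
noncomputable def SP2 (A : Rˣ) (x y : Option ℕ) : Submodule R (Tan A [x, y]) :=
  Submodule.span R {z | ∃ k i j : ℕ, z = cls A [x, y]
    ((List.replicate k (loopn 2)).flatten ++ lp i ++ shift 1 (lp j))}

theorem sp2_loop (x y : Option ℕ) {w : Word} (h : cls A [x, y] w ∈ SP2 A x y) :
    cls A [x, y] (loopn 2 ++ w) ∈ SP2 A x y := by
  rw [← pre_cls (A := A) (c := [x, y]) (c' := [x, y]) (loopn 2) rfl]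
  refine sp_map_mem _ ?_ h
  rintro _ ⟨k, i, j, rfl⟩
  rw [pre_cls]
  exact Submodule.subset_span ⟨k + 1, i, j, by simp [List.replicate_succ]⟩

theorem sp_two {α : Type} {l : List α} (h : 2 = l.length) : ∃ a b, l = [a, b] :=
  List.length_eq_two.mp h.symm

theorem sp_red {f0 f1 i : ℕ} (h1 : i + 2 ≤ 2 * (f0 + f1)) (h2 : i + 1 ≠ 2 * f0) :
    ∃ r, redNs [f0, f1] i = some r := by
  simp only [redNs]
  split_ifs <;> first | omega | exact ⟨_, rfl⟩

theorem sp2_nf (x y : Option ℕ) (s : ℕ) : ∀ (f n : List ℕ) (w : Word), f.sum = s →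
    2 = f.length → 2 = n.length → Lk w → run [] w = some (nn (2 * s)) →
    cls A [x, y] (shift 2 w ++ Ns f ++ Ts n) ∈ SP2 A x y := by
  induction s using Nat.strong_induction_on with
  | _ s ih =>
  intro f n w hs hf hn hw hr
  have hE : ∀ v, cls A [x, y] (shift 2 v ++ Ns f ++ Ts n) =
      emb A [] [x, y] [] [] (Ns f ++ Ts n) rfl (cls A [] v) := fun v =>
    ((emb_cls (c := [x, y]) [] [x, y] [] [] (Ns f ++ Ts n) rfl v).trans (by simp)).symm
  rw [hE]
  refine sp_map_mem _ ?_ (tls_mem hw hr)
  rintro _ ⟨p, hp, rfl⟩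
  obtain ⟨f0, f1, rfl⟩ := sp_two hf
  have hs' : f0 + f1 = s := by simpa using hs
  have hl : p.length = s := by
    have := congrArg List.length (run_cupsW hp)
    simp only [sp_nn_length] at this
    omega
  by_cases hp0 : p = []
  · subst hp0
    obtain ⟨a, b, rfl⟩ := sp_two hn
    obtain rfl : f0 = 0 := by simp at hl; omega
    obtain rfl : f1 = 0 := by simp at hl; omega
    rw [← hE]
    exact Submodule.subset_span ⟨0, a, b, by simp [cupsW, Ns, N0, Ts]⟩
  rcases cups_case (A := A) hp hp0 (2 * f0) with ⟨i, q, hi, e⟩ | ⟨e, ht⟩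
  · rw [e.eq, ← hE]
    obtain ⟨d, hd, hc⟩ := run_append_some (u := cupsW q) (e.run_eq ▸ hp)
    rw [run_single] at hc
    have l1 := sp_step_le hc
    obtain rfl := run_cupsW hd
    simp only [Kind.inp, Kind.out, sp_nn_length] at l1
    obtain ⟨⟨b, j, f'⟩, hred⟩ := sp_red (f0 := f0) (f1 := f1) (i := i) (by omega) hi
    have r0 := sp_run_left hd [x, y]
    cases b with
    | false =>
      obtain ⟨h1, h2, e1⟩ := red_cap (A := A) (base := [x, y]) hf hred 0
      rw [show 2 * f'.sum + 2 + 0 = 2 * q.length by omega] at e1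
      obtain ⟨d1, -, hd1⟩ := e1.same.ex
      obtain ⟨d2, hd2, -⟩ := run_cons_some hd1
      have l2 := (sp_step_le hd2).1
      simp only [Kind.inp, List.length_append, sp_nn_length] at l2
      have e2 := (e1.pre r0).cls_app (Ts n)
      have := ih f'.sum (by omega) f' n (cupsW q ++ [(cap, j)]) rfl (hf.trans h2.symm) hn
        (lk_append.mpr ⟨lk_cupsW q, lk_single _ fun _ h => by cases h⟩) (by
          rw [run_append_of hd, run_single, show 2 * q.length = 2 * f'.sum + 2 by omega,
            sp_step_cap (by omega)])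
      simp only [cupsW, List.append_assoc, List.cons_append, List.nil_append, shift_cons,
        shift_nil, shift_append, List.length_cons, List.length_nil, Nat.reduceAdd,
        Nat.zero_add] at e2 this ⊢
      rwa [e2]
    | true =>
      obtain ⟨h1, h2, hj, e1⟩ := red_loop (A := A) (base := [x, y]) hf hred 0
      have r1 := run_Ns (base := [x, y]) (hf.trans h2.symm) 0
      rw [show 2 * f'.sum + 0 = 2 * q.length by omega] at e1 r1
      have e2 := (e1.pre r0).cls_app (Ts n)
      have e3 := ((loop_Ts (A := A) (base := [x, y]) (j := j) hn (by omega) (nn 0)).pre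
        ((run_append_of r0 _).trans r1)).eq
      have := ih f'.sum (by omega) f' (bump n j) (cupsW q) rfl (hf.trans h2.symm)
        (by rw [bump_length]; exact hn) (lk_cupsW q)
        (by rw [hd, show 2 * q.length = 2 * f'.sum by omega])
      simp only [cupsW, List.append_assoc, List.cons_append, List.nil_append, shift_cons,
        shift_nil, shift_append, List.length_cons, List.length_nil, Nat.reduceAdd,
        Nat.zero_add] at e2 e3 this ⊢
      rwa [e2, e3]
  · obtain rfl : f1 = f0 := by omega
    have : p.length ≠ 0 := by simpa using hp0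
    obtain ⟨f, rfl⟩ : ∃ k, f1 = k + 1 := ⟨f1 - 1, by omega⟩
    rw [← hE, e, ← ht]
    have e1 := rbw_succ (A := A) x y f (Ts n)
    rw [rbw] at e1
    rw [e1]
    refine sp2_loop x y ?_
    have := ih (2 * f) (by omega) [f, f] n (rain (2 * f)) (by simp; omega) rfl hn (lk_rain _)
      (run_rain _)
    simpa [rbw] using this

theorem span2 (x y : Option ℕ) {g : List Gl} (h : runG 2 0 g = some 0) :
    cls A [x, y] (interp 2 g) ∈ Submodule.span R {z | ∃ k i j : ℕ, z = cls A [x, y]
      ((List.replicate k (loopn 2)).flatten ++ lp i ++ shift 1 (lp j))} := by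
  have h0 : cls A [x, y] [] ∈ GS A [x, y] 0 :=
    Submodule.subset_span ⟨[], [0, 0], [0, 0], lk_nil, rfl, rfl, rfl, rfl⟩
  have h1 := gs_interp (base := [x, y]) h h0
  rw [app_cls] at h1
  refine sp_map_mem LinearMap.id ?_ h1
  rintro _ ⟨w, f, n, hw, hr, hf, hn, rfl⟩
  exact sp2_nf x y f.sum f n w rfl hf hn hw hr

end Pool.Agent.Lib.MP_5b31c3_gt
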