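import Pool.Agent.Lib.MP_5b31c3_gt.IdsT
import Pool.Agent.Lib.MP_5b31c3_gt.IdsV1
import Pool.Agent.Lib.MP_5b31c3_gt.IdsV2
import Pool.Agent.Lib.MP_5b31c3_gt.IdsV3
import Pool.Agent.Lib.MP_5b31c3_gt.AlgPull
import Pool.Agent.Lib.MP_5b31c3_gt.Peel
import Pool.Agent.Lib.MP_5b31c3_gt.AlgSplit

-- part Pool.Agent.Lib.MP_5b31c3_gt.Ids
section

end

-- part Pool.Agent.Lib.MP_5b31c3_gt.Pr
section

/-
The projection to the skein module and handle slides.
-/

namespace Pool.Agent.Lib.MP_5b31c3_gt

open Kind

variable {R : Type*} [CommRing R] {A : Rˣ}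

theorem BMove.pr_move {c : Config} {l r : Word} (h : BMove c l r) (i : ℕ) :
    Move (shift i l) (shift i r) := by
  cases h with
  | far x y c1 c1' cm c2 c2' h1 h2 hx hy h =>
    have := Move.far x y i cm.length
    simp only [shift_cons, shift_nil, Nat.zero_add]
    rwa [Nat.add_assoc, Nat.add_assoc, Nat.add_comm i, Nat.add_comm i] at this
  | zig => simpa [Nat.add_comm] using Move.zig i
  | zag => simpa [Nat.add_comm] using Move.zag i
  | cupSlide k b a h => simpa [Nat.add_comm] using Move.cupSlide k b i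
  | capSlide b a x h => simpa [Nat.add_comm] using Move.capSlide b i
  | two b x y h => simpa using Move.two b i
  | three x y z h a b c h' => simpa [Nat.add_comm] using Move.three x y z h i

theorem Same.pr_cl {c cl cr : Config} {l r p : Word} (h : Same c l r)
    (hp : run [] p = some (cl ++ c ++ cr)) (K s : Word) :
    Cl K (p ++ shift cl.length l ++ s) ↔ Cl K (p ++ shift cl.length r ++ s) := by
  have := (h.whisk cl cr).pre hp
  rw [Cl, Cl, this.run_app s, this.skel_app s]

/-- A closed word as a diagram. -/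
def Cl.pr_dia {K y : Word} (h : Cl K y) : Diagram K := ⟨y, h⟩

open Classical in
/-- The class of a word in the skein module, zero for words that are not diagrams. -/
noncomputable def prW (A : Rˣ) (K y : Word) : Skein A K :=
  if h : Cl K y then Submodule.Quotient.mk (Finsupp.single h.pr_dia 1) else 0

theorem prW_pos {K y : Word} (h : Cl K y) :
    prW A K y = (Submodule.span R {x | Relation A K x}).mkQ (Finsupp.single h.pr_dia 1) := dif_pos h

theorem prW_neg {K y : Word} (h : ¬ Cl K y) : prW A K y = 0 := dif_neg h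

theorem pr_rel {K : Word} {x : Diagram K →₀ R} (h : Relation A K x) :
    (Submodule.span R {x | Relation A K x}).mkQ x = 0 :=
  (Submodule.Quotient.mk_eq_zero _).mpr (Submodule.subset_span h)

theorem pr_single {K : Word} (D : Diagram K) (r : R) :
    (Submodule.span R {x | Relation A K x}).mkQ (Finsupp.single D r) =
      r • (Submodule.span R {x | Relation A K x}).mkQ (Finsupp.single D 1) := by
  rw [← map_smul, Finsupp.smul_single_one]

theorem prW_base (K p s : Word) (cl c0 cr : Config) (x : Word →₀ R)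
    (hp : run [] p = some (cl ++ c0 ++ cr)) (hx : Base A c0 x) :
    Finsupp.linearCombination R (fun w => prW A K (p ++ shift cl.length w ++ s)) x = 0 := by
  cases hx with
  | @move c l r h =>
    simp only [map_sub, Finsupp.linearCombination_single, one_smul]
    have e := h.same.pr_cl hp K s
    by_cases h1 : Cl K (p ++ shift cl.length l ++ s)
    · rw [prW_pos h1, prW_pos (e.1 h1), ← map_sub]
      exact pr_rel (Relation.move _ _ p s _ _ (h.pr_move cl.length) rfl rfl)
    · rw [prW_neg h1, prW_neg (e.not.1 h1), sub_zero]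
  | bracket b =>
    simp only [map_sub, Finsupp.linearCombination_single, one_smul]
    have e0 := (show Same [none, none] [(Kind.cr b, 0)] [] from ⟨rfl, rfl, rfl⟩).pr_cl hp K s
    have e1 := (show Same [none, none] [(Kind.cr b, 0)] [(cap, 0), (cup none, 0)] from
      ⟨rfl, rfl, rfl⟩).pr_cl hp K s
    by_cases h1 : Cl K (p ++ shift cl.length [(Kind.cr b, 0)] ++ s)
    · rw [prW_pos h1, prW_pos (e0.1 h1), prW_pos (e1.1 h1), ← pr_single, ← pr_single, ← map_sub,
        ← map_sub]
      have := pr_rel (Relation.bracket (A := A) h1.pr_dia (e0.1 h1).pr_dia (e1.1 h1).pr_dia p s b cl.length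
        (by simp [Cl.pr_dia]) (by simp [Cl.pr_dia]) (by simp [Cl.pr_dia]))
      cases b <;> simpa [sc, sg] using this
    · rw [prW_neg h1, prW_neg (e0.not.1 h1), prW_neg (e1.not.1 h1)]
      simp
  | circle =>
    simp only [map_sub, Finsupp.linearCombination_single, one_smul]
    have e0 := (show Same [] [(cup none, 0), (cap, 0)] [] from ⟨rfl, rfl, rfl⟩).pr_cl hp K s
    by_cases h1 : Cl K (p ++ shift cl.length [(cup none, 0), (cap, 0)] ++ s)
    · rw [prW_pos h1, prW_pos (e0.1 h1), ← pr_single, ← map_sub]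
      have := pr_rel (Relation.circle (A := A) h1.pr_dia (e0.1 h1).pr_dia p s cl.length
        (by simp [Cl.pr_dia]) (by simp [Cl.pr_dia]))
      have e : dl A = -(A : R) ^ 2 - ((A⁻¹ : Rˣ) : R) ^ 2 := by
        rw [dl, sc, sc, zpow_neg, ← inv_zpow, zpow_two, zpow_two, Units.val_mul, Units.val_mul,
          pow_two, pow_two]
      rw [e]
      exact this
    · rw [prW_neg h1, prW_neg (e0.not.1 h1)]
      simp

section Stage

variable {Q : Type*} [AddCommGroup Q] [Module R Q] {F : Tan A [] →ₗ[R] Q} {K : Word}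

/-- The projection to the skein module. -/
noncomputable def pr (A : Rˣ) (K : Word) : Tan A [] →ₗ[R] Skein A K :=
  Tan.lift [] (prW A K) (prW_base K)

theorem pr_cls (K y : Word) : pr A K (cls A [] y) = prW A K y := Tan.lift_cls _ _ _ _

theorem pr_span (K : Word) :
    Submodule.span R {x | ∃ y, Cl K y ∧ x = pr A K (cls A [] y)} = ⊤ := by
  rw [eq_top_iff]
  rintro v -
  obtain ⟨x, rfl⟩ := (Submodule.span R {x | Relation A K x}).mkQ_surjective v
  induction x using Finsupp.induction_linear with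
  | zero => simp
  | add f g hf hg => rw [map_add]; exact add_mem hf hg
  | single D r =>
    rw [pr_single]
    exact Submodule.smul_mem _ _ (Submodule.subset_span
      ⟨D.1, D.2, ((pr_cls K D.1).trans (prW_pos D.2)).symm⟩)

/-- The projection from words with internal labels. -/
noncomputable def prI (A : Rˣ) (fr : ℕ → ℤ) (K : Word) :
    Tan A [] →ₗ[R] Skein A (recol id (fun j f => f * fr j) K) :=
  (pr A _).comp (recT A id (fun j f => f * fr j) [])

theorem prI_cls (fr : ℕ → ℤ) (K y : Word) : prI A fr K (cls A [] y) =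
    prW A (recol id (fun j f => f * fr j) K) (recol id (fun j f => f * fr j) y) :=
  (congrArg (pr A _) (recT_cls id _ [] y)).trans (pr_cls _ _)

theorem Cl.pr_recol {y : Word} (h : Cl K y) (ρ : ℕ → ℕ) (φ : ℕ → ℤ → ℤ) :
    Cl (recol ρ φ K) (recol ρ φ y) :=
  ⟨run_recol h.1, (skel_recol h.1).trans (congrArg _ h.2)⟩

theorem pr_dcfg (n : ℕ) (c c' : Config) :
    dcfg n (c ++ none :: some n :: c') = dcfg n c ++ [none, none] ++ some n :: dcfg n c' := by
  simp [dcfg_append, dcfg]

/-- The result of a handle slide is again a diagram. -/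
theorem Cl.pr_slide {u w : Word} {c c' : Config} {n : ℕ}
    (hu : run [] u = some (c ++ none :: some n :: c')) (h : Cl K (u ++ w)) (tw : ℤ → ℤ) :
    Cl K (dblG n tw [] u ++ shift (dcfg n c).length [(cap, 0), (cup none, 0)] ++
      dblG n tw (c ++ none :: some n :: c') w) := by
  have h1 := run_dblG hu n tw
  have e := (show Same [none, none] [(cap, 0), (cup none, 0)] [] from ⟨rfl, rfl, rfl⟩).pr_cl
    (h1.trans (congrArg some (pr_dcfg n c c'))) K (dblG n tw (c ++ none :: some n :: c') w)
  rw [e, shift_nil, List.append_nil, ← dblG_append hu]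
  exact ⟨run_dblG h.1 n tw, (skel_dblG h.1 n tw).trans h.2⟩

theorem prI_slides (fr : ℕ → ℤ) (K : Word) (n : ℕ) : Slides A (prI A fr K) K n (fr n) := by
  intro u w c c' hu h
  rw [prI_cls, prI_cls, prW_pos (h.pr_recol _ _), prW_pos ((h.pr_slide hu _).pr_recol _ _), ← sub_eq_zero,
    ← map_sub]
  have h1 := run_recol (ρ := id) (φ := fun j f => f * fr j) hu
  rw [rec'_id (c ++ none :: some n :: c')] at h1
  refine pr_rel (Relation.slide _ _ _ (recol id (fun j f => f * fr j) w) n c c' h1
    (recol_append _ _) ?_)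
  change recol _ _ _ = _
  rw [dbl_recol, dbl_recol, recol_append, recol_append, recol_shift, dcfg_length]
  rfl

theorem pr_step (φ : ℕ → ℤ → ℤ) (x : Kind) (i : ℕ) (c : Config) :
    step (x.recol id φ) i c = step x i c := by
  induction i generalizing c with
  | zero =>
    rcases x with (_ | k) | _ | b <;> rfl
  | succ i ih =>
    cases c with
    | nil => rfl
    | cons a c => simp only [step, ih]

theorem pr_surg (φ : ℕ → ℤ → ℤ) (x : Kind) (c : Config) : (x.recol id φ).surg c = x.surg c := by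
  rcases x with (_ | k) | _ | b <;> rfl

theorem pr_relabel (φ : ℕ → ℤ → ℤ) {y' S : Word} {c c' : Config} (h : run c y' = some c')
    (hs : skel c y' = recol id φ S) :
    ∃ y, recol id φ y = y' ∧ run c y = some c' ∧ skel c y = S := by
  induction y' generalizing c S with
  | nil =>
    refine ⟨[], rfl, h, ?_⟩
    cases S with
    | nil => rfl
    | cons s S => simp [recol] at hs
  | cons x w ih =>
    obtain ⟨x, i⟩ := x
    obtain ⟨d, hd, hw⟩ := run_cons_some h
    rw [skel_cons_of hd, skl] at hs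
    split_ifs at hs with hx
    · obtain _ | ⟨⟨x', j⟩, S⟩ := S
      · simp at hs
      simp only [List.singleton_append, recol_cons, List.cons.injEq, Prod.mk.injEq] at hs
      obtain ⟨⟨rfl, rfl⟩, hs⟩ := hs
      obtain ⟨y, h1, h2, h3⟩ := ih hw hs
      rw [pr_step] at hd
      rw [pr_surg] at hx
      exact ⟨(x', i) :: y, by rw [recol_cons, h1], by rwa [run_cons_of hd],
        by rw [skel_cons_of hd, skl, if_pos hx, h3]; rfl⟩
    · obtain ⟨y, h1, h2, h3⟩ := ih hw hs
      have e : x.recol id φ = x := by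
        rcases x with (_ | k) | _ | b
        · rfl
        · simp [Kind.surg] at hx
        · rfl
        · rfl
      exact ⟨(x, i) :: y, by rw [recol_cons, h1, e], by rwa [run_cons_of hd],
        by rw [skel_cons_of hd, skl, if_neg hx, h3]; rfl⟩

theorem prI_span (fr : ℕ → ℤ) (K : Word) :
    Submodule.span R {x | ∃ y, Cl K y ∧ x = prI A fr K (cls A [] y)} = ⊤ := by
  rw [eq_top_iff, ← pr_span]
  refine Submodule.span_mono ?_
  rintro _ ⟨y', h, rfl⟩
  obtain ⟨y, rfl, h2, h3⟩ := pr_relabel _ h.1 h.2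
  exact ⟨y, ⟨h2, h3⟩, by rw [prI_cls, pr_cls]⟩

theorem Slides.comp {n : ℕ} {a : ℤ} (h : Slides A F K n a) {Q' : Type*} [AddCommGroup Q']
    [Module R Q'] (f : Q →ₗ[R] Q') : Slides A (f.comp F) K n a :=
  fun u w c c' hu hy => congrArg f (h u w c c' hu hy)

theorem Cl.pr_ins {y B : Word} {κ : ℕ × ℤ} (h : Cl K y) (hB : run [some κ.1] B = some [some κ.1]) :
    Cl (ins κ (skel [some κ.1] B) K) (ins κ B y) :=
  ⟨run_ins hB h.1, (skel_ins hB h.1).trans (congrArg _ h.2)⟩

theorem Cl.pr_dbl {y : Word} (h : Cl K y) (n : ℕ) (tw : ℤ → ℤ) : Cl K (dblG n tw [] y) :=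
  ⟨run_dblG h.1 n tw, (skel_dblG h.1 n tw).trans h.2⟩

theorem Slides.ins {n : ℕ} {a : ℤ} {κ : ℕ × ℤ} {B : Word}
    (hB : run [some κ.1] B = some [some κ.1]) (hκ : κ.1 ≠ n) (hn : NoCol n B)
    (h : Slides A F (ins κ (skel [some κ.1] B) K) n a) :
    Slides A (F.comp (insT A κ B hB [])) K n a := by
  intro u w c c' hu hy
  have hw : run (c ++ none :: some n :: c') w = some [] := by rw [← run_append_of hu]; exact hy.1
  have := h (Pool.Agent.Lib.MP_5b31c3_gt.ins κ B u) (Pool.Agent.Lib.MP_5b31c3_gt.ins κ B w) c c'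
    (run_ins hB hu) (ins_append κ B u w ▸ hy.pr_ins hB)
  rw [dblG_ins hκ hB hn hu, dblG_ins hκ hB hn hw] at this
  rw [LinearMap.comp_apply, LinearMap.comp_apply, insT_cls, insT_cls, ins_append, this, ins_append,
    ins_append, ins_shift]
  rfl

/-- Rewriting inside a context. -/
theorem Iso.pr_ctx {c cl cr : Config} {l r u : Word} (h : Iso A c l r)
    (hu : run [] u = some (cl ++ c ++ cr)) (w : Word) :
    cls A [] (u ++ shift cl.length l ++ w) = cls A [] (u ++ shift cl.length r ++ w) :=
  ((h.whisk cl cr).pre hu).cls_app w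

theorem pr_far (n q : ℕ) : Iso A [some q, some q, none, none, some n] (thru ++ bottom)
    ([(cr false, 1), (cr true, 2), (cr true, 3)] ++ [(cap, 1), (cr true, 1), (cap, 0)]) :=
  (far2 (x := cap) (y := cr true) (i := 1) (j := 1) (c := [some q, none, none, some q, some n])
    (c1 := [some q, some q, some n]) (c2 := [some q, some n, some q]) rfl rfl le_rfl
    (Or.inl rfl)).mid (p := [(cr false, 1), (cr true, 2)]) (s := [(cr true, 1), (cap, 0)])
    (d := [some n]) rfl (by simp [run, step, Kind.act, Kind.out])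

/-- An arc through a circle is removed by a slide over the component that the circle links. -/
theorem slide_thru {n q : ℕ} {a : ℤ} (h : Slides A F K n a) (hq : q ≠ n) {u w : Word}
    {cl cr : Config} (hu : run [] u = some (cl ++ [some q, some q, none, none, some n] ++ cr))
    (hy : Cl K (u ++ shift cl.length (thru ++ bottom) ++ w)) :
    F (cls A [] (u ++ shift cl.length (thru ++ bottom) ++ w)) =
      F (cls A [] (dblG n (· * a) [] u ++
        shift (dcfg n cl).length ([(cap, 3), (Kind.cr true, 2)] ++ bottom ++ [(Kind.cr false, 0)]) ++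
        dblG n (· * a) (cl ++ some n :: cr) w)) := by
  have e1 := pr_far (A := A) n q
  rw [e1.same.pr_cl hu] at hy
  rw [e1.pr_ctx hu]
  have r1 : run [some q, some q, none, none, some n]
      [(Kind.cr false, 1), (Kind.cr true, 2), (Kind.cr true, 3)] =
      some [some q, none, none, some n, some q] := rfl
  have r2 : run [some q, none, none, some n, some q] [(cap, 1), (Kind.cr true, 1), (cap, 0)] =
      some [some n] := by simp [run, step, Kind.act]
  have c1 : cl ++ [some q, none] ++ none :: some n :: (some q :: cr) =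
      cl ++ [some q, none, none, some n, some q] ++ cr := by simp
  rw [shift_append, ← List.append_assoc, List.append_assoc _ _ w] at hy ⊢
  rw [h _ _ (cl ++ [some q, none]) (some q :: cr)
    (by rw [run_append_of hu, c1]; exact run_whisk r1 cl cr) hy, c1, dblG_append hu,
    dblG_append (run_whisk r2 cl cr), dblG_whisk r1, dblG_whisk r2]
  have r3 := run_dblG hu n (· * a)
  rw [dcfg_append, dcfg_append] at r3
  have d1 : dcfg n [some q, some q, none, none, some n] =
      [some q, some q, none, none, none, some n] := by simp [dcfg, hq]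
  rw [d1] at r3
  rw [← (id_S1 (A := A) n q).pr_ctx r3]
  congr 2
  simp [dblG, Kind.dblG, step, Kind.act, hq, dcfg_append, dcfg, Nat.add_comm]

end Stage

end Pool.Agent.Lib.MP_5b31c3_gt
end

-- part Pool.Agent.Lib.MP_5b31c3_gt.Slide
section

/-
Turns and loops slide along the knot.
-/

namespace Pool.Agent.Lib.MP_5b31c3_gt

open Kind

variable {R : Type*} [CommRing R] {A : Rˣ}

/-! Turns -/

/-- `m` turns of the same sign. -/
def tpow (b : Bool) (m : ℕ) : Word := (List.replicate m (turn b)).flatten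

theorem tpow_succ (b : Bool) (m : ℕ) : tpow b (m + 1) = turn b ++ tpow b m := rfl

theorem tpow_succ' (b : Bool) (m : ℕ) : tpow b (m + 1) = tpow b m ++ turn b := by
  simp [tpow, List.replicate_succ']

theorem twist_nat (m : ℕ) : twist m = tpow true m := by simp [twist, tpow]

theorem twist_neg (m : ℕ) : twist (-m) = tpow false m := by
  cases m with
  | zero => rfl
  | succ m =>
    have h : decide (0 ≤ -((m + 1 : ℕ) : ℤ)) = false := by
      rw [decide_eq_false_iff_not]; omega
    rw [twist, h, Int.natAbs_neg, Int.natAbs_natCast, tpow]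

theorem run_tpow (a : Option ℕ) (b : Bool) (m : ℕ) :
    run [none, a] (tpow b m) = some [none, a] := by
  cases b
  · rw [← twist_neg]; exact run_twist a _
  · rw [← twist_nat]; exact run_twist a _

theorem turn_turnT (n : ℕ) (b : Bool) :
    IT A [none, some n] [none, some n] (turn b ++ turn !b) [] :=
  IT.symm ⟨(turn_turn n b).symm, rfl⟩

theorem twist_succ (n : ℕ) (k : ℤ) :
    IT A [none, some n] [none, some n] (twist k ++ turn true) (twist (k + 1)) := by
  rcases k with m | m
  · have : twist (Int.ofNat m + 1) = twist (Int.ofNat m) ++ turn true :=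
      (twist_nat (m + 1)).trans ((tpow_succ' _ _).trans (by rw [← twist_nat]; rfl))
    rw [← this]
    exact IT.refl (run_twist _ _)
  · have e1 : twist (Int.negSucc m) = tpow false m ++ turn false :=
      (twist_neg (m + 1)).trans (tpow_succ' _ _)
    have e2 : twist (Int.negSucc m + 1) = tpow false m := by
      rw [← twist_neg]; congr 1; omega
    rw [e1, e2]
    exact (IT.pre (run_tpow _ false m) (turn_turnT n false)).cast (by simp) (by simp)

theorem twist_pred (n : ℕ) (k : ℤ) :
    IT A [none, some n] [none, some n] (twist k ++ turn false) (twist (k - 1)) := by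
  have e1 := (twist_succ (A := A) n (k - 1)).symm.app (run_turn _ false)
  have e2 := IT.pre (run_twist _ (k - 1)) (turn_turnT (A := A) n true)
  rw [sub_add_cancel] at e1
  exact e1.trans (e2.cast (by simp) (by simp))

theorem twist_addT (n : ℕ) (j k : ℤ) :
    IT A [none, some n] [none, some n] (twist j ++ twist k) (twist (j + k)) := by
  induction k using Int.induction_on with
  | zero => exact (IT.refl (run_twist _ j)).cast (by simp [twist]) (by simp)
  | succ i ih =>
    refine IT.trans (c'' := [none, some n]) (IT.pre (run_twist _ j) (twist_succ n i).symm) ?_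
    rw [← List.append_assoc, ← add_assoc]
    exact (ih.app (run_turn _ true)).trans (twist_succ n _)
  | pred i ih =>
    refine IT.trans (c'' := [none, some n]) (IT.pre (run_twist _ j) (twist_pred n (-i)).symm) ?_
    rw [← List.append_assoc, ← add_sub_assoc]
    exact (ih.app (run_turn _ false)).trans (twist_pred n _)

theorem twist_add (n : ℕ) (j k : ℤ) :
    Iso A [none, some n] (twist j ++ twist k) (twist (j + k)) := (twist_addT n j k).iso

theorem twist_far (a a' : Option ℕ) (j k : ℤ) :
    IT A [none, a, none, a'] [none, a, none, a'] (twist j ++ shift 2 (twist k))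
      (shift 2 (twist k) ++ twist j) :=
  IT.far (run_twist a j) (run_twist a' k) (Or.inl (skel_twist a j))

theorem turn_far (a a' : Option ℕ) (b b' : Bool) (m : ℕ) :
    IT A [none, a, none, a'] [none, a, none, a'] (turn b ++ shift 2 (tpow b' m))
      (shift 2 (tpow b' m) ++ turn b) :=
  IT.far (run_turn a b) (run_tpow a' b' m) (Or.inl (skel_turn a b))

theorem tpow_cup (κ : ℕ × ℤ) (b : Bool) (m : ℕ) :
    IT A [] [none, some κ.1, none, some κ.1] (dcup κ 0 ++ shift 2 (tpow b m))
      (dcup κ 0 ++ tpow b m) := by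
  induction m with
  | zero => exact IT.refl (by simpa [tpow] using run_dcup κ 0)
  | succ m ih =>
    have r1 := run_right (run_turn (some κ.1) b) [none, some κ.1]
    have e0 : IT A [] [none, some κ.1, none, some κ.1] _ _ := IT.symm ⟨(turn_cup κ b).symm, by
      rw [run_append_of (run_dcup κ 0)]; exact r1⟩
    have e1 := e0.app (run_left (run_tpow (some κ.1) b m) [none, some κ.1])
    have e2 := IT.pre (run_dcup κ 0) (turn_far (A := A) (some κ.1) (some κ.1) b b m)
    have e3 := ih.app r1
    refine (e1.cast ?_ ?_).trans (e2.trans (e3.cast ?_ ?_)) <;> simp [tpow_succ, ← tpow_succ']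

theorem dcup_eq (κ : ℕ × ℤ) (j : ℤ) : dcup κ j = dcup κ 0 ++ twist j := rfl

theorem dcup_twist (κ : ℕ × ℤ) (j k : ℤ) :
    IT A [] [none, some κ.1, none, some κ.1] (dcup κ j ++ twist k) (dcup κ (j + k)) := by
  rw [dcup_eq κ j, dcup_eq κ (j + k), List.append_assoc]
  exact IT.pre (run_dcup κ 0) ((twist_addT κ.1 j k).right [none, some κ.1])

theorem twist_cupT (κ : ℕ × ℤ) (j k : ℤ) :
    IT A [] [none, some κ.1, none, some κ.1] (dcup κ j ++ shift 2 (twist k)) (dcup κ (j + k)) := by
  have e1 := IT.pre (run_dcup κ 0) (twist_far (A := A) (some κ.1) (some κ.1) j k)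
  have e2 := (tpow_cup (A := A) κ (decide (0 ≤ k)) k.natAbs).app
    (run_right (run_twist (some κ.1) j) [none, some κ.1])
  have e3 := dcup_twist (A := A) κ k j
  rw [add_comm j k, dcup_eq κ j, List.append_assoc]
  exact e1.trans ((e2.cast (List.append_assoc _ _ _) rfl).trans e3)

theorem twist_cup (κ : ℕ × ℤ) (j k : ℤ) :
    Iso A [] (dcup κ j ++ shift 2 (twist k)) (dcup κ (j + k)) := (twist_cupT κ j k).iso

theorem run_dcap (n : ℕ) : run [none, some n, none, some n] dcap = some [] := by
  simp [dcap, run, step, Kind.act]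

theorem tpow_cap (n : ℕ) (b : Bool) (m : ℕ) :
    IT A [none, some n, none, some n] [] (tpow b m ++ dcap) (shift 2 (tpow b m) ++ dcap) := by
  induction m with
  | zero => exact IT.refl (run_dcap n)
  | succ m ih =>
    have r1 := run_right (run_turn (some n) b) [none, some n]
    have e0 : IT A [none, some n, none, some n] [] _ _ := ⟨turn_cap n b,
      (run_append_of r1 _).trans (run_dcap n)⟩
    have e1 := IT.pre r1 ih
    have e2 := (turn_far (A := A) (some n) (some n) b b m).app (run_dcap n)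
    have e3 := IT.pre (run_left (run_tpow (some n) b m) [none, some n]) e0
    refine (e1.cast ?_ ?_).trans (e2.trans (e3.cast ?_ ?_))
    · simp [tpow_succ]
    · simp
    · simp
    · simp [tpow_succ']

theorem twist_cap (n : ℕ) (k : ℤ) :
    Iso A [none, some n, none, some n] (twist k ++ dcap) (shift 2 (twist k) ++ dcap) :=
  (tpow_cap n _ _).iso

/-! A loop next to a doubled minimum -/

theorem in_local (κ : ℕ × ℤ) (j : ℤ) :
    cls A [] (ins κ loop (dcup κ j)) =
      sc A (-1) • cls A [] (dcup κ (j + 1)) + sc A 1 • cls A [] (dcup κ (j - 1)) := by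
  have e1 := IT.far (A := A) (run_loop (some κ.1)) (c2 := [some κ.1]) (y := [(cup none, 0)]) rfl
    (Or.inl (skel_loop _))
  have e2 := (IT.nback (A := A) true none (run_loop (some κ.1)) (Or.inl rfl)).right
    [none, some κ.1]
  have r0 : run [] [(cup (some κ), 0)] = some [some κ.1, some κ.1] := rfl
  have e3 := IT.pre r0 ((e1.app (s := [(cr false, 0)]) (c'' := [none, some κ.1, none, some κ.1])
    rfl).trans (IT.pre (s := [(cup none, 1)]) rfl e2))
  have e4 : cls A [] (ins κ loop (dcup κ j)) =
      cls A [] (dcup κ 0 ++ shift 0 (shift 1 loop) ++ twist j) := by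
    have : ins κ loop (dcup κ j) =
        [(cup (some κ), 0)] ++ (loop ++ shift 1 [(cup none, 0)] ++ [(cr false, 0)]) ++ twist j := by
      rw [dcup, ins_append, ins_of_noKey (noKey_twist κ j)]
      simp [ins]
    rw [this, shift_zero]
    exact e3.iso.cls_app _
  have e5 := congrArg (emb A (dcup κ 0) [] [none, some κ.1] [none, some κ.1] (twist j)
    (run_dcup κ 0)) (id_in (A := A) κ.1)
  simp only [map_add, map_smul, emb_cls, List.length_nil] at e5
  have e6 : ∀ (b : Bool) (k : ℤ), twist k = turn b →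
      cls A [] (dcup κ 0 ++ shift 0 (turn b) ++ twist j) = cls A [] (dcup κ (k + j)) :=
    fun b k e => by
      rw [shift_zero, ← e]
      exact (dcup_twist κ k j).iso.eq
  rw [e4, e5, e6 true 1 rfl, e6 false (-1) rfl, add_comm 1 j, neg_add_eq_sub]

theorem out_local (κ : ℕ × ℤ) (j : ℤ) :
    cls A [] (dcup κ j ++ loopn 2) =
      sc A 1 • cls A [] (dcup κ (j + 1)) + sc A (-1) • cls A [] (dcup κ (j - 1)) := by
  have e5 := congrArg (emb A (dcup κ j) [] [none, some κ.1] [none, some κ.1] []
    (run_dcup κ j)) (id_out (A := A) κ.1)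
  simp only [map_add, map_smul, emb_cls, List.length_nil, shift_zero, List.append_nil] at e5
  rw [e5, ← (dcup_twist κ j 1).iso.eq, sub_eq_add_neg, ← (dcup_twist κ j (-1)).iso.eq]
  rfl

section Dbl
variable {c c' : Config} {n t t' : ℕ} {y z B : Word} {tw : ℤ → ℤ}

theorem solo_ctx {l : ℤ} (h : run [] y = some c) (hs : Solo (n, l) y) (tw : ℤ → ℤ) :
    ∃ (p s : Word) (k : ℕ) (E : Tan A [] →ₗ[R] Tan A []), NoKey (n, l) p ∧ NoKey (n, l) s ∧
      (∀ v, dblG n (Function.update tw l v) [] y = p ++ shift k (dcup (n, l) v) ++ s) ∧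
      dblG n tw [] (ins (n, l) loop y) = p ++ shift k (dcup (n, l) (tw l) ++ loopn 2) ++ s ∧
      ∀ w, E (cls A [] w) = cls A [] (p ++ shift k w ++ s) := by
  obtain ⟨u, i, w, rfl, hu, hw⟩ := hs.split
  obtain ⟨c1, r1, r2⟩ := run_append_some h
  obtain ⟨c2, r3, r4⟩ := run_cons_some r2
  obtain ⟨cl, c0, c0', cr, rfl, rfl, rfl, h1, -, h0⟩ := step_decomp r3
  obtain rfl : c0 = [] := List.length_eq_zero_iff.mp h1
  cases h0
  have key : ∀ (tw' : ℤ → ℤ) (w' : Word), dblG n tw' [] (u ++ (cup (some (n, l)), cl.length) :: w') =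
      dblG n tw' [] u ++ (shift (dcfg n cl).length (dcup (n, l) (tw' l)) ++
        dblG n tw' (cl ++ [some n, some n] ++ cr) w') := fun tw' w' => by
    rw [dblG_append r1, dblG_cons r3]
    simp [Kind.dblG]
  have up : ∀ (v : ℤ) (d : Config) (x : Word), NoKey (n, l) x →
      dblG n (Function.update tw l v) d x = dblG n tw d x := fun v d x hx =>
    dblG_congr (fun f hf => Function.update_of_ne (by rintro rfl; exact hx hf) _ _) d
  refine ⟨dblG n tw [] u, dblG n tw (cl ++ [some n, some n] ++ cr) w, (dcfg n cl).length,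
    emb A (dblG n tw [] u) (dcfg n cl) [] (dcfg n cr) (dblG n tw (cl ++ [some n, some n] ++ cr) w)
      (by simpa [dcfg_append, dcfg_nil] using run_dblG r1 n tw),
    (noKey_dblG _ _ _).2 hu, (noKey_dblG _ _ _).2 hw, fun v => ?_, ?_, fun w => emb_cls ..⟩
  · rw [key, up v _ u hu, up v _ w hw, Function.update_self, ← List.append_assoc]
  · have r5 := run_whisk (run_loop (some n)) cl (some n :: cr)
    have e1 := dblG_whisk (run_loop (some n)) n tw cl (some n :: cr)
    have e2 : dblG n tw [some n] loop = loopn 2 := by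
      simp [dblG, loop, loopn, pass, Kind.dblG, step, Kind.act]
    have e3 : cl ++ [some n] ++ some n :: cr = cl ++ [some n, some n] ++ cr := by simp
    rw [e3] at r5 e1
    rw [ins_split hu hw, List.append_assoc, List.cons_append, key, dblG_append r5, e1, e2]
    simp

theorem dbl_in {l : ℤ} (h : run [] y = some c) (hs : Solo (n, l) y) (tw : ℤ → ℤ) :
    cls A [] (ins (n, l) loop (dblG n tw [] y)) =
      sc A (-1) • cls A [] (dblG n (Function.update tw l (tw l + 1)) [] y) +
      sc A 1 • cls A [] (dblG n (Function.update tw l (tw l - 1)) [] y) := by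
  obtain ⟨p, s, k, E, hp, hs', h1, -, hE⟩ := solo_ctx (A := A) h hs tw
  have := h1 (tw l)
  rw [Function.update_eq_self] at this
  rw [this, h1, h1, ins_append, ins_append, ins_of_noKey hp, ins_of_noKey hs', ins_shift, ← hE,
    ← hE, ← hE, in_local, map_add, map_smul, map_smul]

theorem dbl_out {l : ℤ} (h : run [] y = some c) (hs : Solo (n, l) y) (tw : ℤ → ℤ) :
    cls A [] (dblG n tw [] (ins (n, l) loop y)) =
      sc A 1 • cls A [] (dblG n (Function.update tw l (tw l + 1)) [] y) +
      sc A (-1) • cls A [] (dblG n (Function.update tw l (tw l - 1)) [] y) := by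
  obtain ⟨p, s, k, E, -, -, h1, h2, hE⟩ := solo_ctx (A := A) h hs tw
  rw [h2, h1, h1, ← hE, ← hE, ← hE, out_local, map_add, map_smul, map_smul]

/-! The legs of the two minima -/

theorem run_cups : run [] cups = some c4 := rfl

theorem loop_cupT (κ : ℕ × ℤ) : IT A [] [some κ.1, some κ.1]
    ((cup (some κ), 0) :: shift 1 loop) ((cup (some κ), 0) :: loop) :=
  ⟨loop_cup κ, rfl⟩

theorem loop_in {s : ℕ} (hs : s = 1 ∨ s = 2) :
    IT A [] c4 (cups ++ shift s loop) (ins (0, 0) loop cups) := by
  rcases hs with rfl | rfl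
  · exact IT.refl rfl
  · exact IT.pre (s := [(cup (some (0, 1)), 0)]) rfl
      ((loop_cupT (0, 0)).whisk [some 0] [some 0])

theorem loop_out {s : ℕ} (hs : s = 0 ∨ s = 3) :
    IT A [] c4 (cups ++ shift s loop) (ins (0, 1) loop cups) := by
  have r0 : run [] [(cup (some (0, 1)), 0)] = some [some 0, some 0] := rfl
  rcases hs with rfl | rfl
  · exact IT.pre r0 (IT.far (run_loop (some 0)) (c2 := [some 0])
      (y := [(cup (some (0, 0)), 0)]) rfl (Or.inl rfl)).symm
  · exact (IT.pre r0 (IT.far (c1 := [some 0]) (x := [(cup (some (0, 0)), 1)]) rfl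
      (run_loop (some 0)) (Or.inr rfl))).trans
      ((loop_cupT (0, 1)).app (s := [(cup (some (0, 0)), 1)]) (c'' := c4) rfl)

theorem dbl_cups (tw : ℤ → ℤ) :
    dblG 0 tw [] cups = dcup (0, 1) (tw 1) ++ shift 2 (dcup (0, 0) (tw 0)) := by
  simp [cups, dblG, Kind.dblG, step, Kind.act]

theorem dbl_cups2 (i j : ℤ) :
    dblG 0 (tw2 i j) [] cups = dcup (0, 1) j ++ shift 2 (dcup (0, 0) i) := dbl_cups _

theorem twist_in {s : ℕ} (hs : s = 1 ∨ s = 2) (i j e : ℤ) :
    IT A [] c8 (dblG 0 (tw2 i j) [] cups ++ shift (2 * s) (twist e))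
      (dblG 0 (tw2 (i + e) j) [] cups) := by
  rw [dbl_cups2, dbl_cups2]
  rcases hs with rfl | rfl
  · exact (IT.pre (run_dcup (0, 1) j) ((dcup_twist (0, 0) i e).whisk [none, some 0]
      [none, some 0])).cast (by simp) rfl
  · exact (IT.pre (run_dcup (0, 1) j) ((twist_cupT (0, 0) i e).whisk [none, some 0]
      [none, some 0])).cast (by simp [shift_shift]) rfl

theorem twist_out {s : ℕ} (hs : s = 0 ∨ s = 3) (i j e : ℤ) :
    IT A [] c8 (dblG 0 (tw2 i j) [] cups ++ shift (2 * s) (twist e))
      (dblG 0 (tw2 i (j + e)) [] cups) := by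
  rw [dbl_cups2, dbl_cups2]
  have r1 := run_whisk (run_dcup (0, 0) i) [none, some 0] [none, some 0]
  rcases hs with rfl | rfl
  · have e1 := IT.pre (run_dcup (0, 1) j) (IT.far (A := A) (run_twist (some 0) e)
      (run_right (run_dcup (0, 0) i) [none, some 0]) (Or.inl (skel_twist _ e))).symm
    exact (e1.cast (by simp) (by simp)).trans ((dcup_twist (0, 1) j e).app r1)
  · have e1 := IT.pre (run_dcup (0, 1) j) (IT.far (A := A)
      (run_left (run_dcup (0, 0) i) [none, some 0]) (run_twist (some 0) e)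
      (Or.inr (skel_twist _ e)))
    exact (e1.cast (by simp) (by simp)).trans ((twist_cupT (0, 1) j e).app r1)

theorem c4_get {s : ℕ} (hs : s < 4) : (c4)[s]? = some (some 0) := by
  interval_cases s <;> rfl

theorem c4_take {s : ℕ} (hs : s < 4) : (dcfg 0 (c4.take s)).length = 2 * s := by
  interval_cases s <;> rfl

theorem lt_of_trk {s : ℕ} (hz : run c4 z = some c4) (hs : s < 4) (ht : trk z s = some t) :
    t < 4 := (List.getElem?_eq_some_iff.mp ((trk_get hz ht hs).trans (c4_get hs))).1

theorem slide_loop {s : ℕ} (hz : run c4 z = some c4) (hs : s < 4) (ht : trk z s = some t) :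
    IT A c4 c4 (z ++ shift t loop) (shift s loop ++ z) := by
  have h := slide_word' (A := A) hz ht (c4_get hs) (run_loop _) (Or.inl (skel_loop _))
  refine IT.symm ⟨h, ?_⟩
  have : run c4 (shift s loop) = some c4 := by interval_cases s <;> rfl
  rw [run_append_of this, hz]

theorem slide_twist {s : ℕ} (hz : run c4 z = some c4) (hs : s < 4) (ht : trk z s = some t)
    (tw : ℤ → ℤ) (e : ℤ) :
    IT A c8 c8 (dblG 0 tw c4 z ++ shift (2 * t) (twist e))
      (shift (2 * s) (twist e) ++ dblG 0 tw c4 z) := by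
  have h := slide_word (A := A) (n := 0) hz ht (c4_get hs) (run_twist _ e)
    (Or.inl (skel_twist _ e)) tw
  have r := (blk_at (n := 0) (c4_get hs) (run_twist _ e)).1
  rw [c4_take hs] at h r
  rw [c4_take (lt_of_trk hz hs ht)] at h
  refine IT.symm ⟨h, ?_⟩
  change run (dcfg 0 c4) _ = _
  rw [run_append_of r]
  exact run_dblG hz 0 tw

theorem mid_facts {ν : Word} (h1 : run c4 ν = some c4) (h2 : skel c4 ν = []) (v : List Bool) :
    run c4 (ν ++ braid v) = some c4 ∧ (∀ κ, NoKey κ (ν ++ braid v)) ∧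
      ∀ s t, s < 4 → trk (braid v) s = some t → trk (ν ++ braid v) s = some t :=
  ⟨by rw [run_append_of h1, run_braid],
    fun κ => noKey_append.2 ⟨noKey_of_skel_nil h1 h2 κ, noKey_braid κ v⟩,
    fun s t hs ht => by rw [trk_append, trk_c4 h1 h2 hs]; exact ht⟩

theorem good_nf (h : Good y) (ht : t < 4) : ∃ z s, run c4 z = some c4 ∧ (∀ κ, NoKey κ z) ∧
    s < 4 ∧ trk z s = some t ∧ IT A [] c4 y (cups ++ z) := by
  obtain ⟨ν, v, h1, h2, -, h3⟩ := h.nf (A := A)
  obtain ⟨a1, a2, a3⟩ := mid_facts h1 h2 v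
  obtain ⟨s, hs, hst⟩ := trk_braid v ht
  exact ⟨_, s, a1, a2, hs, a3 s t hs hst, by rwa [List.append_assoc] at h3, h.1⟩

theorem dbl_noKey (hz : ∀ κ, NoKey κ z) (tw tw' : ℤ → ℤ) (c : Config) :
    dblG n tw c z = dblG n tw' c z := dblG_congr (fun f hf => (hz (n, f) hf).elim) c

theorem good_loop (h : Good y) (ht : t < 4) :
    cls A [] (y ++ wt t) = cls A [] (ins (0, 0) loop y) ∨
    cls A [] (y ++ wt t) = cls A [] (ins (0, 1) loop y) := by
  obtain ⟨z, s, hz, hk, hs, hst, e⟩ := good_nf (A := A) h ht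
  have e1 : cls A [] (y ++ wt t) = cls A [] (cups ++ shift s loop ++ z) := by
    rw [e.iso.cls_app, List.append_assoc, List.append_assoc]
    exact (IT.pre run_cups (slide_loop hz hs hst)).iso.eq
  have e2 : ∀ l : ℤ, cls A [] (ins (0, l) loop y) = cls A [] (ins (0, l) loop cups ++ z) :=
    fun l => by rw [(e.iso.ins (κ := (0, l)) (run_loop _)).eq, ins_append, ins_of_noKey (hk _)]
  rw [e1, e2, e2]
  by_cases h12 : s = 1 ∨ s = 2
  · exact Or.inl ((loop_in h12).iso.cls_app z)
  · exact Or.inr ((loop_out (by omega)).iso.cls_app z)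

theorem good_twist (h : Good y) (ht : t < 4) :
    (∀ i j e, cls A [] (dblG 0 (tw2 i j) [] y ++ shift (2 * t) (twist e)) =
      cls A [] (dblG 0 (tw2 (i + e) j) [] y)) ∨
    (∀ i j e, cls A [] (dblG 0 (tw2 i j) [] y ++ shift (2 * t) (twist e)) =
      cls A [] (dblG 0 (tw2 i (j + e)) [] y)) := by
  obtain ⟨z, s, hz, hk, hs, hst, e0⟩ := good_nf (A := A) h ht
  have e1 : ∀ tw, Iso A [] (dblG 0 tw [] y) (dblG 0 tw [] cups ++ dblG 0 id c4 z) := fun tw => by
    rw [dbl_noKey hk id tw, ← dblG_append run_cups]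
    exact e0.iso.dblG 0 tw
  have e2 : ∀ tw e, cls A [] (dblG 0 tw [] y ++ shift (2 * t) (twist e)) =
      cls A [] (dblG 0 tw [] cups ++ shift (2 * s) (twist e) ++ dblG 0 id c4 z) := fun tw e => by
    rw [(e1 tw).cls_app, List.append_assoc, List.append_assoc]
    exact (IT.pre (run_dblG run_cups 0 tw) (slide_twist hz hs hst id e)).iso.eq
  by_cases h12 : s = 1 ∨ s = 2
  · exact Or.inl fun i j e => by rw [e2, (e1 _).eq]; exact (twist_in h12 i j e).iso.cls_app _
  · exact Or.inr fun i j e => by
      rw [e2, (e1 _).eq]; exact (twist_out (by omega) i j e).iso.cls_app _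

theorem knot_nf {v : List Bool} (hk : IsKnot v) (h : Cl (cups ++ braid v ++ caps) y) :
    ∃ z s, run c4 z = some c4 ∧ (∀ κ, NoKey κ z) ∧ (s = 1 ∨ s = 2) ∧ trk z s = some 3 ∧
      trk z 0 = some 0 ∧ Iso A [] y (cups ++ (z ++ caps)) := by
  obtain ⟨ν, h1, h2, h3⟩ := h.nf (A := A)
  obtain ⟨a1, a2, a3⟩ := mid_facts h1 h2 v
  have a4 := a3 0 0 (by omega) (trk_braid_zero v)
  simp only [List.append_assoc] at h3
  rw [← List.append_assoc ν] at h3
  rcases trk_braid_knot hk with a | a
  · exact ⟨_, 1, a1, a2, Or.inl rfl, a3 1 3 (by omega) a, a4, h3⟩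
  · exact ⟨_, 2, a1, a2, Or.inr rfl, a3 2 3 (by omega) a, a4, h3⟩

theorem noKey_caps (κ : ℕ × ℤ) : NoKey κ caps := by simp [NoKey, caps]

theorem loop_caps : IT A c4 [] (shift 3 loop ++ caps) (shift 0 loop ++ caps) := by
  have e1 := (IT.far (A := A) (c1 := [some 0, some 0, some 0]) (x := [(cap, 1)]) rfl
    (run_loop (some 0)) (Or.inr rfl)).symm.app (s := [(cap, 0)]) (c'' := []) rfl
  have e2 : IT A [some 0, some 0] [] _ _ := IT.symm ⟨loop_cap 0, rfl⟩
  have e3 := (IT.far (A := A) (run_loop (some 0)) (c2 := [some 0, some 0, some 0])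
    (y := [(cap, 0)]) rfl (Or.inl rfl)).symm.app (s := [(cap, 0)]) (c'' := []) rfl
  exact e1.trans ((IT.pre (s := [(cap, 1)]) rfl e2).trans e3)

theorem twist_caps (e : ℤ) : IT A c8 [] (shift (2 * 3) (twist e) ++ dblG 0 id c4 caps)
    (shift (2 * 0) (twist e) ++ dblG 0 id c4 caps) := by
  have e0 : dblG 0 id c4 caps = shift 2 dcap ++ dcap := rfl
  have e1 := (IT.far (A := A) (run_left (run_dcap 0) [none, some 0]) (run_twist (some 0) e)
    (Or.inr (skel_twist _ e))).symm.app (run_dcap 0)
  have e2 := IT.pre (run_whisk (run_dcap 0) [none, some 0] [none, some 0])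
    (tpow_cap (A := A) 0 (decide (0 ≤ e)) e.natAbs).symm
  have e3 := (IT.far (A := A) (run_twist (some 0) e) (run_right (run_dcap 0) [none, some 0])
    (Or.inl (skel_twist _ e))).symm.app (run_dcap 0)
  rw [e0]
  exact (e1.cast (by simp) (List.append_assoc _ _ _)).trans
    (e2.trans (e3.cast (List.append_assoc _ _ _) (by simp)))

theorem knot_loop {v : List Bool} (hk : IsKnot v) (h : Cl (cups ++ braid v ++ caps) y) :
    cls A [] (ins (0, 0) loop y) = cls A [] (ins (0, 1) loop y) := by
  obtain ⟨z, s, hz, hn, hs, h3, h0, e⟩ := knot_nf (A := A) hk h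
  have e2 : ∀ l : ℤ, cls A [] (ins (0, l) loop y) =
      cls A [] (ins (0, l) loop cups ++ (z ++ caps)) := fun l => by
    rw [(e.ins (κ := (0, l)) (run_loop _)).eq, ins_append,
      ins_of_noKey (noKey_append.2 ⟨hn _, noKey_caps _⟩)]
  have rc : run c4 caps = some [] := rfl
  have a1 := (slide_loop (A := A) hz (by omega) h3).symm.app rc
  have a2 := IT.pre hz (loop_caps (A := A))
  have a3 := (slide_loop (A := A) hz (by omega) h0).app rc
  have a4 := IT.pre run_cups (a1.trans ((a2.cast (by simp) (by simp)).trans a3))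
  rw [e2, e2, ← (loop_in hs).iso.cls_app, ← (loop_out (Or.inl rfl)).iso.cls_app]
  simpa using a4.iso.eq

theorem knot_twist {v : List Bool} (hk : IsKnot v) (h : Cl (cups ++ braid v ++ caps) y)
    (i j : ℤ) :
    cls A [] (dblG 0 (tw2 i j) [] y) = cls A [] (dblG 0 (· * (i + j)) [] y) := by
  obtain ⟨z, s, hz, hn, hs, h3, h0, e⟩ := knot_nf (A := A) hk h
  have e1 : ∀ tw, cls A [] (dblG 0 tw [] y) =
      cls A [] (dblG 0 tw [] cups ++ (dblG 0 id c4 z ++ dblG 0 id c4 caps)) := fun tw => by
    rw [dbl_noKey hn id tw, dbl_noKey noKey_caps id tw, ← dblG_append hz, ← dblG_append run_cups]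
    exact (e.dblG 0 tw).eq
  have rc : run c8 (dblG 0 id c4 caps) = some [] := rfl
  have a1 := (slide_twist (A := A) hz (by omega) h3 id i).symm.app rc
  have a2 := IT.pre (run_dblG hz 0 id) (twist_caps (A := A) i)
  have a3 := (slide_twist (A := A) hz (by omega) h0 id i).app rc
  have a4 := IT.pre (run_dblG run_cups 0 (tw2 0 j))
    (a1.trans ((a2.cast (by simp) (by simp)).trans a3))
  have b1 := (twist_in (A := A) hs 0 j i).iso
  have b2 := (twist_out (A := A) (Or.inl rfl) 0 j i).iso
  have b3 : dblG 0 (· * (i + j)) [] cups = dblG 0 (tw2 0 (j + i)) [] cups := by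
    rw [dbl_cups, dbl_cups2, zero_mul, one_mul, add_comm]
  rw [zero_add] at b1
  rw [e1, e1, b3, ← b1.cls_app, ← b2.cls_app]
  simpa [dcfg_nil] using a4.iso.eq

end Dbl

end Pool.Agent.Lib.MP_5b31c3_gt
end

-- part Pool.Agent.Lib.MP_5b31c3_gt.Stage
section

/-
The induction along the chain of surgery circles.
-/

namespace Pool.Agent.Lib.MP_5b31c3_gt

open Kind

variable {R : Type*} [CommRing R] {A : Rˣ}

/-- A closed word split at the minimum labelled `(j, 1)`. -/
structure StSpl (j : ℕ) (y u w : Word) (cl cr : Config) : Prop where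
  eq : y = u ++ (cup (some (j, 1)), cl.length) :: w
  ru : run [] u = some (cl ++ [] ++ cr)
  rw : run (cl ++ [some j, some j] ++ cr) w = some []
  zu : ∀ f, cup (some (j, f)) ∈ u.map Prod.fst → f = 0
  zw : ∀ f, cup (some (j, f)) ∈ w.map Prod.fst → f = 0
  nu : ∀ m, j < m → NoCol m u
  nw : ∀ m, j < m → NoCol m w

theorem Adm.st_of_cl {j : ℕ} {K y : Word} (hK : Adm j K) (hy : Cl K y) : Adm j y :=
  ⟨(solo_skel hy.1).1 (hy.2 ▸ hK.1), fun κ h => hK.2 κ (hy.2 ▸ (key_mem_skel hy.1).2 h)⟩

theorem st_exists_spl {j : ℕ} {K y : Word} (hK : Adm j K) (hy : Cl K y) :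
    ∃ u w cl cr, StSpl j y u w cl cr := by
  have ha := hK.st_of_cl hy
  obtain ⟨u, i, w, rfl, ku, kw⟩ := ha.1.split
  obtain ⟨c, h1, h2⟩ := run_append_some hy.1
  obtain ⟨d, h3, h4⟩ := run_cons_some h2
  obtain ⟨cl, c0, c0', cr, rfl, rfl, rfl, h5, -, h6⟩ := step_decomp h3
  obtain rfl : c0 = [] := List.length_eq_zero_iff.mp h5
  obtain rfl : [some j, some j] = c0' := Option.some.inj h6
  have z : ∀ f, cup (some (j, f)) ∈ u.map Prod.fst ∨ cup (some (j, f)) ∈ w.map Prod.fst → f = 0 := by
    intro f hf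
    rcases ha.2 (j, f) (by rcases hf with hf | hf <;> simp only [List.map_append, List.map_cons,
      List.mem_append, List.mem_cons, hf, true_or, or_true]) with h | h | h
    · exact absurd h (lt_irrefl _)
    · exact (Prod.mk.inj h).2
    · obtain rfl := (Prod.mk.inj h).2
      exact (hf.elim ku kw).elim
  refine ⟨u, w, cl, cr, rfl, h1, h4, fun f hf => z f (Or.inl hf), fun f hf => z f (Or.inr hf),
    fun m hm f => (noKey_append.1 (ha.noCol hm f)).1, fun m hm f hf => ?_⟩
  exact (noKey_append.1 (ha.noCol hm f)).2 (List.mem_cons_of_mem _ hf)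

/-- A word put in the place of the minimum. -/
def stE (u w : Word) (cl : Config) (z : Word) : Word := u ++ shift cl.length z ++ w

/-- A word put in the place of the doubled minimum. -/
def stD (j : ℕ) (u w : Word) (cl cr : Config) (z : Word) : Word :=
  dblG j (fun _ => 0) [] u ++ shift (dcfg j cl).length z ++
    dblG j (fun _ => 0) (cl ++ [some j, some j] ++ cr) w

namespace StSpl

variable {j : ℕ} {y u w : Word} {cl cr : Config} (S : StSpl j y u w cl cr)
include S

theorem ku : NoKey (j, 1) u := fun h => one_ne_zero (S.zu 1 h)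
theorem kw : NoKey (j, 1) w := fun h => one_ne_zero (S.zw 1 h)

theorem rd : run [] (dblG j (fun _ => 0) [] u) = some (dcfg j cl ++ [] ++ dcfg j cr) := by
  have := run_dblG S.ru j fun _ => 0
  rwa [dcfg_append, dcfg_append] at this

theorem du (k : ℤ) : dblG j (· * k) [] u = dblG j (fun _ => 0) [] u :=
  dblG_congr (fun f h => by rw [S.zu f h, zero_mul]) _

theorem dw (k : ℤ) (c : Config) : dblG j (· * k) c w = dblG j (fun _ => 0) c w :=
  dblG_congr (fun f h => by rw [S.zw f h, zero_mul]) _

theorem ins_eq (B : Word) : ins (j, 1) B y = stE u w cl ((cup (some (j, 1)), 0) :: B) := by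
  rw [S.eq, ins_split S.ku S.kw]
  simp [stE]

theorem dbl_stE {z : Word} (hz : run [] z = some [some j, some j]) (k : ℤ) :
    dblG j (· * k) [] (stE u w cl z) = stD j u w cl cr (dblG j (· * k) [] z) := by
  rw [stE, List.append_assoc, dblG_append S.ru, dblG_append (run_whisk hz cl cr), dblG_whisk hz,
    S.du, S.dw, stD, List.append_assoc (dblG j _ [] u)]

theorem dbl_eq (k : ℤ) : dblG j (· * k) [] y = stD j u w cl cr (dcup (j, 1) k) := by
  have e : y = stE u w cl [(cup (some (j, 1)), 0)] := by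
    rw [S.eq]
    simp [stE]
  rw [e, S.dbl_stE rfl]
  simp [dblG, Kind.dblG]

theorem ins_stD (B z : Word) :
    ins (j, 1) B (stD j u w cl cr z) = stD j u w cl cr (ins (j, 1) B z) := by
  rw [stD, ins_append, ins_append, ins_shift, ins_of_noKey ((noKey_dblG _ _ _).2 S.ku),
    ins_of_noKey ((noKey_dblG _ _ _).2 S.kw), stD]

theorem dbl_other {m : ℕ} (hm : j < m) {z : Word} (hz : run [] z = some [some j, some j])
    (tw : ℤ → ℤ) : dblG m tw [] (stE u w cl z) = stE u w cl (dblG m tw [] z) := by
  have h1 := notMem_run List.not_mem_nil (S.nu m hm) S.ru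
  simp only [List.append_nil, List.mem_append, not_or] at h1
  rw [stE, List.append_assoc, dblG_append S.ru, dblG_append (run_whisk hz cl cr), dblG_whisk hz,
    dblG_of_noCol List.not_mem_nil (S.nu m hm) S.ru, dcfg_of_notMem h1.1,
    dblG_of_noCol (by simp [h1.1, h1.2, hm.ne']) (S.nw m hm) S.rw, stE, List.append_assoc]

theorem ins_other {m : ℕ} (hm : j < m) (B z : Word) :
    ins (m, 1) B (stE u w cl z) = stE u w cl (ins (m, 1) B z) := by
  rw [stE, ins_append, ins_append, ins_shift, ins_of_noKey (S.nu m hm 1),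
    ins_of_noKey (S.nw m hm 1), stE]

theorem clsE {z z' : Word} {s : R} (h : cls A [] z = s • cls A [] z') :
    cls A [] (stE u w cl z) = s • cls A [] (stE u w cl z') := by
  simpa only [map_smul, emb_cls, stE] using congrArg (emb A u cl [] cr w S.ru) h

theorem clsD {z z' : Word} {s : R} (h : cls A [] z = s • cls A [] z') :
    cls A [] (stD j u w cl cr z) = s • cls A [] (stD j u w cl cr z') := by
  simpa only [map_smul, emb_cls, stD] using congrArg (emb A _ _ [] _
    (dblG j (fun _ => 0) (cl ++ [some j, some j] ++ cr) w) S.rd) h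

theorem isoE {z z' : Word} (h : Iso A [] z z') :
    cls A [] (stE u w cl z) = cls A [] (stE u w cl z') := h.pr_ctx S.ru w

theorem isoD {z z' : Word} (h : Iso A [] z z') :
    cls A [] (stD j u w cl cr z) = cls A [] (stD j u w cl cr z') := h.pr_ctx S.rd _

variable {Q : Type*} [AddCommGroup Q] [Module R Q] {F : Tan A [] →ₗ[R] Q} {K : Word} {a : ℤ}

theorem slide (h : Slides A F K j a) {p s : Word} {c c' : Config}
    (hp : run [] p = some (c ++ none :: some j :: c'))
    (hs : run (c ++ none :: some j :: c') s = some [some j, some j])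
    (hy : Cl K (stE u w cl (p ++ s))) :
    F (cls A [] (stE u w cl (p ++ s))) = F (cls A [] (stD j u w cl cr (dblG j (· * a) [] p ++
      shift (dcfg j c).length [(cap, 0), (cup none, 0)] ++
      dblG j (· * a) (c ++ none :: some j :: c') s))) := by
  have c1 : cl ++ c ++ none :: some j :: (c' ++ cr) = cl ++ (c ++ none :: some j :: c') ++ cr := by
    simp
  rw [stE, shift_append, ← List.append_assoc, List.append_assoc _ _ w] at hy ⊢
  rw [h _ _ (cl ++ c) (c' ++ cr) (by rw [run_append_of S.ru, c1]; exact run_whisk hp cl cr) hy,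
    c1, dblG_append S.ru, dblG_append (run_whisk hs cl cr), dblG_whisk hp, dblG_whisk hs, S.du,
    S.dw]
  congr 2
  simp [stD, dcfg_append, Nat.add_comm]

theorem thru (h : Slides A F K j a) {q : ℕ} (hq : q ≠ j) {p : Word}
    (hp : run [] p = some [some q, some q, none, none, some j, some j])
    (hy : Cl K (stE u w cl (p ++ (thru ++ bottom)))) :
    F (cls A [] (stE u w cl (p ++ (thru ++ bottom)))) = F (cls A [] (stD j u w cl cr
      (dblG j (· * a) [] p ++ ([(cap, 3), (Kind.cr true, 2)] ++ bottom ++ [(Kind.cr false, 0)])))) := by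
  rw [stE, shift_append, ← List.append_assoc] at hy ⊢
  rw [slide_thru h hq (cr := some j :: cr)
    (by rw [run_append_of S.ru, run_whisk hp cl cr]; simp) hy, dblG_append S.ru, dblG_whisk hp,
    S.du, S.dw]
  congr 2
  simp [stD]

end StSpl

/-! Local isotopies -/

theorem st_run_circle (n q : ℕ) : run [some n] (circle q) = some [some n] := by
  simp [circle, bottom, run, step, Kind.act]

theorem st_run_cup (n q : ℕ) :
    run [] ((cup (some (n, 1)), 0) :: circle q) = some [some n, some n] :=
  run_right (st_run_circle n q) [some n]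

theorem st_ctx {c c0 cl cr : Config} {p l r : Word} {x : R} (h : cls A c0 l = x • cls A c0 r)
    (hp : run c p = some (cl ++ c0 ++ cr)) (s : Word) :
    cls A c (p ++ shift cl.length l ++ s) = x • cls A c (p ++ shift cl.length r ++ s) := by
  simpa only [map_smul, emb_cls] using congrArg (emb A p cl c0 cr s hp) h

theorem st_trk (k : ℤ) : trk (twist k) 1 = some 1 := by
  unfold twist
  induction k.natAbs with
  | zero => rfl
  | succ m ih => rw [List.replicate_succ, List.flatten_cons, trk_append]; exact ih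

theorem st_dcup (κ : ℕ × ℤ) (k : ℤ) {B B' : Word} (h : Iso A [none, some κ.1] B B') :
    Iso A [] (dcup κ k ++ B) (dcup κ k ++ B') :=
  (h.right [none, some κ.1]).pre (run_dcup κ k)

/-- A block on the surgery strand passes the doubled minimum. -/
theorem st_block (κ : ℕ × ℤ) (k : ℤ) {B : Word} (hB : run [some κ.1] B = some [some κ.1]) :
    Iso A [] (dcup κ k ++ shift 1 B) (ins κ B (dcup κ k)) := by
  have r0 : run [some κ.1, some κ.1] [(cup none, 1), (Kind.cr false, 0)] =
      some [none, some κ.1, none, some κ.1] := rfl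
  have r1 := run_right (run_twist (some κ.1) k) [none, some κ.1]
  have r2 : run [some κ.1, some κ.1] ([(cup none, 1), (Kind.cr false, 0)] ++ twist k) =
      some [none, some κ.1, none, some κ.1] := by rw [run_append_of r0]; exact r1
  have := slide_word' (A := A) (t := 0) (t' := 1) r2 (by rw [trk_append]; exact st_trk k) rfl hB
    (Or.inr ⟨rfl, by
      rw [skel_append_of r0]
      exact (skel_right (run_twist (some κ.1) k) [none, some κ.1]).trans (skel_twist _ k)⟩)
  have e : ins κ B (dcup κ k) =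
      [(cup (some κ), 0)] ++ (shift 0 B ++ ([(cup none, 1), (Kind.cr false, 0)] ++ twist k)) := by
    rw [dcup, ins_append, ins_of_noKey (noKey_twist κ k)]
    simp [ins]
  rw [e]
  exact (this.pre (c := []) (p := [(cup (some κ), 0)]) rfl).symm

theorem st_nat (n q : ℕ) : Iso A [none, some n]
    ((Kind.cr true, 0) :: circle q ++ [(Kind.cr false, 0)]) (shift 1 (circle q)) := by
  have r := run_one (st_run_circle n q) none
  have h1 := (nat_pass (A := A) true none (st_run_circle n q) (Or.inl rfl)).app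
    (s := [(Kind.cr false, 0)]) (c' := [none, some n]) (by
      simp [circle, bottom, pass, run, step, Kind.act])
  have h2 := ((BMove.two true none (some n) (Or.inl rfl)).iso (A := A)).pre r
  simpa [pass] using h1.trans (by simpa [pass] using h2)

/-- The minimum of the circle moves up past a skeleton-free block. -/
theorem st_cup (n q : ℕ) {z : Word} (hz : run [none, some n] z = some [none, some n])
    (hs : skel [none, some n] z = []) :
    Iso A [none, some n] ((cup (some (q, 1)), 0) :: shift 2 z ++ [(Kind.cr true, 2)] ++ bottom ++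
      [(Kind.cr false, 0)]) (z ++ shift 1 (circle q)) := by
  have r1 : run [none, some n] (z ++ [(Kind.cr true, 0)]) = some [some n, none] := by
    rw [run_append_of hz]; rfl
  have h1 := (far_letter_block (A := A) (x := cup (some (q, 1))) (i := 0) (c1 := [])
    (c1' := [some q, some q]) rfl r1 (Or.inr (by rw [skel_append_of hz, hs]; rfl))).symm.app
    (s := bottom ++ [(Kind.cr false, 0)]) (c' := [none, some n]) (by
      rw [List.length_nil, shift_zero, List.nil_append, List.append_assoc, run_append_of r1]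
      simp [bottom, run, step, Kind.act])
  have h2 := (st_nat (A := A) n q).pre hz
  have := h1.symm.trans (by simpa [circle] using h2)
  simpa [circle] using this

theorem st_turn (κ : ℕ × ℤ) (k : ℤ) : Iso A [] (dcup κ k ++ turn true) (dcup κ (k + 1)) := by
  have := ((twist_add (A := A) κ.1 k 1).right [none, some κ.1]).pre (c := [])
    (p := [(cup (some κ), 0), (cup none, 1), (Kind.cr false, 0)]) rfl
  simpa [dcup, twist] using this

theorem st_zero (j : ℕ) (a : ℤ) : Iso A [] (dblG j (· * a) []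
    [(cup (some (j, 1)), 0), (cup none, 0)] ++ shift (dcfg j [none]).length
      [(cap, 0), (cup none, 0)] ++ dblG j (· * a) ([none] ++ none :: some j :: [some j]) [(cap, 0)])
    (dcup (j, 1) a) := by
  have h1 : Iso A [none] [(cup none, 0), (cap, 1), (cup none, 1), (cap, 0)] [] :=
    (BMove.zag.iso (A := A)).comp rfl BMove.zig.iso
  have := st_dcup (A := A) (j, 1) a (h1.right [some j])
  simpa [dblG, Kind.dblG, dcfg, step, Kind.act] using this

theorem st_one (j : ℕ) (a : ℤ) : cls A [] (dblG j (· * a) []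
    [(cup (some (j, 1)), 0), (cup none, 0)] ++ shift (dcfg j [none]).length
      [(cap, 0), (cup none, 0)] ++ dblG j (· * a) ([none] ++ none :: some j :: [some j])
        [(Kind.cr false, 1), (Kind.cr true, 0), (cap, 1)]) =
    -sc A 3 • cls A [] (dcup (j, 1) (a + 1)) := by
  have := congrArg (emb A (dcup (j, 1) a) [] [none, some j] [none, some j] [] (run_dcup (j, 1) a))
    (id_h1 (A := A) j)
  simp only [map_smul, emb_cls, List.length_nil, shift_zero, List.append_nil] at this
  rw [(st_turn (j, 1) a).eq] at this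
  rw [← this]
  simp [dblG, Kind.dblG, dcfg, step, Kind.act]

theorem st_two (j q : ℕ) (hq : q ≠ j) (a : ℤ) : Iso A [] (dblG j (· * a) []
    [(cup (some (j, 1)), 0), (cup (some (q, 1)), 0), (cup none, 2)] ++
      ([(cap, 3), (Kind.cr true, 2)] ++ bottom ++ [(Kind.cr false, 0)]))
    (ins (j, 1) (circle q) (dcup (j, 1) a)) := by
  have h1 := (((BMove.zag.iso (A := A)).whisk [some q, some q] [some j]).mid (c := [none, some j])
    (p := [(cup (some (q, 1)), 0)]) (s := [(Kind.cr true, 2)] ++ bottom ++ [(Kind.cr false, 0)])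
    (d := [none, some j]) rfl (by simp [bottom, run, step, Kind.act])).trans
    (by simpa using st_cup (A := A) j q (z := []) rfl rfl)
  have := (st_dcup (j, 1) a h1).trans (st_block (j, 1) a (st_run_circle j q))
  simpa [dblG, Kind.dblG, dcfg, step, Kind.act, hq] using this

theorem st_three (j q : ℕ) (hq : q ≠ j) (a : ℤ) : cls A [] (dblG j (· * a) []
    [(cup (some (j, 1)), 0), (cup (some (q, 1)), 0), (cup none, 2), (Kind.cr false, 3),
      (Kind.cr false, 3)] ++ ([(cap, 3), (Kind.cr true, 2)] ++ bottom ++ [(Kind.cr false, 0)])) =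
    -sc A 3 • cls A [] (ins (j, 1) (circle q) (dcup (j, 1) (a + 1))) := by
  have := congrArg (emb A (dcup (j, 1) a ++ [(cup (some (q, 1)), 0)]) [some q, some q]
    [none, some j] [none, some j] ([(Kind.cr true, 2)] ++ bottom ++ [(Kind.cr false, 0)])
    (by rw [run_append_of (run_dcup (j, 1) a)]; rfl)) (id_C3' (A := A) j)
  simp only [map_smul, emb_cls] at this
  have r := run_right (run_one (st_run_circle j q) none) [none, some j]
  have h1 := (st_dcup (j, 1) a (st_cup (A := A) j q (z := turn true) (run_turn _ _) rfl)).trans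
    (List.append_assoc _ _ _ ▸ (st_turn (A := A) (j, 1) a).comp
      (by rw [run_append_of (run_dcup (j, 1) a)]; rfl) (Iso.refl r))
  have h2 := (h1.trans (st_block (j, 1) (a + 1) (st_run_circle j q))).eq
  rw [← h2]
  refine Eq.trans ?_ (this.trans ?_)
  · simp [dblG, Kind.dblG, step, Kind.act, hq]
  · simp

theorem st_dcirc {j q : ℕ} (hq : j ≠ q) (k : ℤ) :
    dblG q (· * k) [] ((cup (some (j, 1)), 0) :: circle q) = (cup (some (j, 1)), 0) :: dcirc q k := by
  simp [dblG, Kind.dblG, circle, bottom, dcirc, step, Kind.act, hq]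

theorem st_pre (κ : ℕ × ℤ) {B B' : Word} (h : Iso A [some κ.1] B B') :
    Iso A [] ((cup (some κ), 0) :: B) ((cup (some κ), 0) :: B') :=
  (h.right [some κ.1]).pre (c := []) (p := [(cup (some κ), 0)]) rfl

theorem st_noKey (κ : ℕ × ℤ) : NoKey κ loop := by simp [NoKey, loop]

section Stage

variable {Q : Type*} [AddCommGroup Q] [Module R Q] {F : Tan A [] →ₗ[R] Q} {K y : Word} {j : ℕ}
  {a : ℤ}

theorem st_upd (hK : Adm j y) (k e : ℤ) :
    dblG j (Function.update (· * k) 1 (1 * k + e)) [] y = dblG j (· * (k + e)) [] y := by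
  refine dblG_congr (fun f h => ?_) _
  rcases hK.2 _ h with h | h | h
  · exact absurd h (lt_irrefl _)
  · obtain rfl := (Prod.mk.inj h).2
    simp
  · obtain rfl := (Prod.mk.inj h).2
    simp

theorem st_in (hK : Adm j K) (hy : Cl K y) (k : ℤ) :
    cls A [] (ins (j, 1) loop (dblG j (· * k) [] y)) =
      sc A (-1) • cls A [] (dblG j (· * (k + 1)) [] y) +
        sc A 1 • cls A [] (dblG j (· * (k - 1)) [] y) := by
  rw [dbl_in hy.1 (hK.st_of_cl hy).1, sub_eq_add_neg, st_upd (hK.st_of_cl hy), st_upd (hK.st_of_cl hy),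
    sub_eq_add_neg]

theorem st_out (hK : Adm j K) (hy : Cl K y) (k : ℤ) :
    cls A [] (dblG j (· * k) [] (ins (j, 1) loop y)) =
      sc A 1 • cls A [] (dblG j (· * (k + 1)) [] y) +
        sc A (-1) • cls A [] (dblG j (· * (k - 1)) [] y) := by
  rw [dbl_out hy.1 (hK.st_of_cl hy).1, sub_eq_add_neg, st_upd (hK.st_of_cl hy), st_upd (hK.st_of_cl hy),
    sub_eq_add_neg]

theorem Cl.st_ins_free {κ : ℕ × ℤ} {B : Word} (hy : Cl K y)
    (hB : run [some κ.1] B = some [some κ.1]) (hs : skel [some κ.1] B = []) :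
    Cl K (Pool.Agent.Lib.MP_5b31c3_gt.ins κ B y) := by
  have := hy.pr_ins hB
  rwa [hs, ins_nil] at this

theorem st_h0 (hK : Adm j K) (hF : Slides A F K j a) (hy : Cl K y) :
    F (cls A [] (dblG j (· * a) [] y)) = dl A • F (cls A [] y) := by
  obtain ⟨u, w, cl, cr, S⟩ := st_exists_spl hK hy
  have h1 := hy.st_ins_free (κ := (j, 1)) (B := [(cup none, 0), (cap, 0)]) rfl rfl
  rw [S.ins_eq] at h1
  have h2 := S.slide hF (p := [(cup (some (j, 1)), 0), (cup none, 0)]) (s := [(cap, 0)])
    (c := [none]) (c' := [some j]) rfl rfl h1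
  rw [S.isoD (st_zero j a), ← S.dbl_eq] at h2
  rw [← h2, ← map_smul]
  have h4 := S.clsE (st_ctx (c := []) (p := [(cup (some (j, 1)), 0)]) (cl := [])
    (cr := [some j, some j]) (cls_circle (A := A)) rfl [])
  rw [← ins_nil (j, 1) y, S.ins_eq]
  exact congrArg F h4

theorem st_h1 (hK : Adm j K) (hF : Slides A F K j a) (hy : Cl K y) :
    F (cls A [] (dblG j (· * (a + 1)) [] y)) =
      -(sc A (-3) • F (cls A [] (ins (j, 1) loop y))) := by
  obtain ⟨u, w, cl, cr, S⟩ := st_exists_spl hK hy
  have h1 := hy.st_ins_free (κ := (j, 1)) (B := loop') rfl rfl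
  rw [S.ins_eq] at h1
  have h2 := S.slide hF (p := [(cup (some (j, 1)), 0), (cup none, 0)])
    (s := [(Kind.cr false, 1), (Kind.cr true, 0), (cap, 1)]) (c := [none]) (c' := [some j])
    rfl rfl h1
  rw [S.clsD (st_one j a), ← S.dbl_eq] at h2
  rw [S.ins_eq, S.isoE (st_pre (j, 1) (loop_loop' j))]
  change _ = -(sc A (-3) • F (cls A [] (stE u w cl ([(cup (some (j, 1)), 0), (cup none, 0)] ++
    [(Kind.cr false, 1), (Kind.cr true, 0), (cap, 1)]))))
  rw [h2, map_smul, neg_smul, smul_neg, neg_neg, tor_sc_smul, neg_add_cancel, tor_sc_zero, one_smul]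

theorem st_i (hK : Adm j K) (hy : Cl K y) :
    cls A [] (ins (j, 1) (circle (j + 1)) (ins (j, 1) loop y)) =
      cls A [] (dblG (j + 1) (· * 0) [] (ins (j, 1) (circle (j + 1)) y)) := by
  obtain ⟨u, w, cl, cr, S⟩ := st_exists_spl hK hy
  rw [ins_ins_same (st_noKey _), S.ins_eq, S.ins_eq, S.dbl_other (Nat.lt_succ_self j)
    (st_run_cup j (j + 1)), st_dcirc (Nat.lt_succ_self j).ne]
  exact (S.isoE (st_pre (j, 1) (id_C1 j (j + 1)))).symm

theorem st_ii (hK : Adm j K) (hF : Slides A F (ins (j, 1) (circle (j + 1)) K) j a) (hy : Cl K y) :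
    F (cls A [] (ins (j, 1) (circle (j + 1)) (dblG j (· * a) [] y))) =
      F (cls A [] (ins (j + 1, 1) loop (ins (j, 1) (circle (j + 1)) y))) := by
  obtain ⟨u, w, cl, cr, S⟩ := st_exists_spl hK hy
  have h1 : Cl (ins (j, 1) (circle (j + 1)) K)
      (ins (j, 1) ([(cup (some (j + 1, 1)), 0), (cup none, 2)] ++ thru ++ bottom) y) :=
    hy.pr_ins (κ := (j, 1)) (by simp [thru, bottom, run, step, Kind.act])
  rw [S.ins_eq] at h1
  have h2 := S.thru hF (q := j + 1) (Nat.succ_ne_self j)
    (p := [(cup (some (j, 1)), 0), (cup (some (j + 1, 1)), 0), (cup none, 2)]) rfl h1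
  rw [S.isoD (st_two j (j + 1) (Nat.succ_ne_self j) a), ← S.ins_stD, ← S.dbl_eq] at h2
  rw [← h2, S.ins_eq, S.ins_other (Nat.lt_succ_self j)]
  have e : ins (j + 1, 1) loop ((cup (some (j, 1)), 0) :: circle (j + 1)) =
      (cup (some (j, 1)), 0) :: ((cup (some (j + 1, 1)), 0) :: loop ++ bottom) := by
    simp [ins, circle, bottom]
  rw [e, S.isoE (st_pre (j, 1) (id_T j (j + 1)))]
  rfl

theorem st_iii (hK : Adm j K) (hF : Slides A F (ins (j, 1) (circle (j + 1)) K) j a)
    (hy : Cl K y) :
    F (cls A [] (ins (j, 1) (circle (j + 1)) (dblG j (· * (a + 1)) [] y))) =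
      F (cls A [] (dblG (j + 1) (· * (-1)) [] (ins (j, 1) (circle (j + 1)) y))) := by
  obtain ⟨u, w, cl, cr, S⟩ := st_exists_spl hK hy
  have h1 : Cl (ins (j, 1) (circle (j + 1)) K) (ins (j, 1) ([(cup (some (j + 1, 1)), 0),
      (cup none, 2), (Kind.cr false, 3), (Kind.cr false, 3)] ++ thru ++ bottom) y) :=
    hy.pr_ins (κ := (j, 1)) (by simp [thru, bottom, run, step, Kind.act])
  rw [S.ins_eq] at h1
  have h2 := S.thru hF (q := j + 1) (Nat.succ_ne_self j)
    (p := [(cup (some (j, 1)), 0), (cup (some (j + 1, 1)), 0), (cup none, 2), (Kind.cr false, 3),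
      (Kind.cr false, 3)]) rfl h1
  rw [S.clsD (st_three j (j + 1) (Nat.succ_ne_self j) a), ← S.ins_stD, ← S.dbl_eq] at h2
  have h3 := st_ctx (c := []) (p := [(cup (some (j, 1)), 0)]) (cl := []) (cr := [some j])
    (id_C3 (A := A) j (j + 1)) rfl []
  simp only [List.length_nil, shift_zero, List.append_nil] at h3
  have h4 := h2.symm.trans (congrArg F (S.clsE h3))
  rw [S.ins_eq, S.dbl_other (Nat.lt_succ_self j) (st_run_cup j (j + 1)),
    st_dcirc (Nat.lt_succ_self j).ne]
  rw [map_smul, map_smul, neg_smul, neg_smul, neg_inj, ← sub_eq_zero, ← smul_sub] at h4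
  exact sub_eq_zero.1 (tor_sc_cancel 3 h4)

theorem st_base (hK : Adm j K) (hF : Slides A F K j a) (hy : Cl K y) :
    (cheb R fun m => F (cls A [] (ins (j, 1) (lp m) (ins (j, 1) loop y)))) =
      mer (chainPair A a []).1 Q (cheb R fun m => F (cls A [] (ins (j, 1) (lp m) y))) ∧
    ∀ k, (cheb R fun m => F (cls A [] (ins (j, 1) (lp m) (dblG j (· * k) [] y)))) =
      lam A (chainPair A a []).1 (chainPair A a []).2 k Q
        (cheb R fun m => F (cls A [] (ins (j, 1) (lp m) y))) := by
  have e0 : ∀ z, ins (j, 1) (lp 0) z = z := fun z => ins_nil _ z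
  have e1 : ∀ m z, ins (j, 1) (lp (m + 1)) z = ins (j, 1) (lp m) (ins (j, 1) loop z) :=
    fun m z => by rw [ins_ins_same (st_noKey _), lp_succ]
  refine base_stage (C := {y // Cl K y}) (fun ξ m => F (cls A [] (ins (j, 1) (lp m) ξ.1)))
    (fun ξ => ⟨_, ξ.2.st_ins_free (κ := (j, 1)) (run_loop _) (skel_loop _)⟩)
    (fun k ξ => ⟨_, ξ.2.pr_dbl j (· * k)⟩) a (fun ξ m => ?_) (fun k ξ m => ?_) (fun k ξ => ?_)
    (fun ξ => ?_) (fun ξ => ?_) ⟨y, hy⟩
  · rw [e1]
  · have := congrArg (F.comp (insT A (j, 1) (lp m) (run_lp _ m) [])) (st_in (A := A) hK ξ.2 k)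
    simpa only [map_add, map_smul, LinearMap.comp_apply, insT_cls, e1] using this
  · simpa only [map_add, map_smul, e0] using congrArg F (st_out (A := A) hK ξ.2 k)
  · simpa only [e0] using st_h0 hK hF ξ.2
  · simpa only [e0, e1, zero_add] using (e1 0 ξ.1 ▸ e0 _ ▸ st_h1 hK hF ξ.2 :
      F (cls A [] (dblG j (· * (a + 1)) [] ξ.1)) =
        -(sc A (-3) • F (cls A [] (ins (j, 1) (lp (0 + 1)) ξ.1))))

theorem stage (l : List ℤ) (j : ℕ) (a : ℤ) (K : Word) (hK : Adm j K)
    (hF : ∀ i (hi : i < (a :: l).length),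
      Slides A F (ins (j, 1) (blk (j + 1) l.length 0) K) (j + i) ((a :: l)[i]))
    (Φ : Word → ℤ → Q)
    (hΦ : ∀ z, Φ z = cheb R fun m => F (cls A [] (ins (j, 1) (blk (j + 1) l.length m) z)))
    (y : Word) (hy : Cl K y) :
    Φ (ins (j, 1) loop y) = mer (chainPair A a l).1 Q (Φ y) ∧
    ∀ k, Φ (dblG j (· * k) [] y) =
      lam A (chainPair A a l).1 (chainPair A a l).2 k Q (Φ y) := by
  induction l generalizing j a K Φ y with
  | nil =>
    have h0 : Slides A F K j a := ins_nil (j, 1) K ▸ hF 0 Nat.zero_lt_one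
    simp only [hΦ]
    exact st_base hK h0 hy
  | cons a' l ih =>
    have eb : ∀ m z, NoKey (j + 1, 1) z → ins (j, 1) (blk (j + 1) (a' :: l).length m) z =
        ins (j + 1, 1) (blk (j + 1 + 1) l.length m) (ins (j, 1) (circle (j + 1)) z) :=
      fun m z hz => by rw [ins_ins_in hz, List.length_cons, blk_succ]
    have nk : ∀ z, Cl K z → NoKey (j + 1, 1) z := fun z hz =>
      (hK.st_of_cl hz).noCol (Nat.lt_succ_self j) 1
    rw [eb 0 K (hK.noCol (Nat.lt_succ_self j) 1)] at hF
    obtain ⟨Φ', hΦ'⟩ : ∃ Φ' : Word → ℤ → Q, ∀ z, Φ' z = cheb R fun m =>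
      F (cls A [] (ins (j + 1, 1) (blk (j + 1 + 1) l.length m) z)) := ⟨_, fun _ => rfl⟩
    have hC : ∀ z, Cl K z → Φ z = Φ' (ins (j, 1) (circle (j + 1)) z) := fun z hz => by
      rw [hΦ, hΦ']
      simp only [eb _ z (nk z hz)]
    have cC : ∀ z, Cl K z → Cl (ins (j, 1) (circle (j + 1)) K) (ins (j, 1) (circle (j + 1)) z) :=
      fun z hz => hz.pr_ins (κ := (j, 1)) (st_run_circle j (j + 1))
    have IH := fun z hz => ih (j + 1) a' _ hK.circle (fun i hi => by
      have := hF (i + 1) (Nat.succ_lt_succ hi)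
      rw [show j + (i + 1) = j + 1 + i by omega] at this
      exact this) Φ' hΦ' _ (cC z hz)
    have hS : ∀ m, Slides A (F.comp (insT A (j + 1, 1) (blk (j + 1 + 1) l.length m)
        (run_blk _ _ _ _) [])) (ins (j, 1) (circle (j + 1)) K) j a := fun m =>
      Slides.ins _ (Nat.succ_ne_self j) (fun f => noKey_blk (by simp only; omega) _ _)
        (by rw [skel_blk]; exact hF 0 (Nat.succ_pos _))
    have ext : ∀ z z', (∀ G : Tan A [] →ₗ[R] Q, Slides A G (ins (j, 1) (circle (j + 1)) K) j a →
        G (cls A [] z) = G (cls A [] z')) → Φ' z = Φ' z' := fun z z' h => by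
      rw [hΦ', hΦ']
      congr 1
      funext m
      simpa only [LinearMap.comp_apply, insT_cls] using h _ (hS m)
    have h1 : ∀ z, Cl K z → Φ (ins (j, 1) loop z) = mer (chainPair A a (a' :: l)).1 Q (Φ z) :=
      fun z hz => by
        rw [hC _ (hz.st_ins_free (κ := (j, 1)) (run_loop _) (skel_loop _)), hC z hz, chain_mer,
          ← (IH z hz).2 0]
        exact ext _ _ fun G _ => congrArg G (st_i hK hz)
    refine ⟨h1 y hy, lam_rec _ _ _ (fun k => Φ (dblG j (· * k) [] y)) a ?_ ?_ fun k => ?_⟩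
    · rw [hC _ (hy.pr_dbl _ _), hC y hy, chain_lam, ← (IH y hy).1]
      exact ext _ _ fun G hG => st_ii hK hG hy
    · rw [hC _ (hy.pr_dbl _ _), hC y hy, chain_lam_succ, ← (IH y hy).2 (-1)]
      exact ext _ _ fun G hG => st_iii hK hG hy
    · rw [← h1 _ (hy.pr_dbl _ _), hΦ, hΦ, hΦ, ← map_smul, ← map_smul, ← map_add]
      congr 1
      funext m
      have := congrArg (F.comp (insT A (j, 1) (blk (j + 1) (a' :: l).length m)
        (run_blk _ _ _ _) [])) (st_in (A := A) hK hy k)
      simpa only [map_add, map_smul, LinearMap.comp_apply, insT_cls, Pi.add_apply,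
        Pi.smul_apply] using this

end Stage

end Pool.Agent.Lib.MP_5b31c3_gt
end
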