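import Pool.Agent.Lib.MP_5b31c3_gt.Words0

/-
Curls and Temperley-Lieb normal forms.
-/

namespace Pool.Agent.Lib.MP_5b31c3_gt

open Kind

variable {R : Type*} [CommRing R] {A : Rˣ}

namespace G1

/-- Rewriting of typed words: if the left side is typed then it is isotopic to the right side. -/
def Rw (A : Rˣ) (c : Config) (l r : Word) : Prop := ∀ d, run c l = some d → Iso A c l r

section Rw
variable {c c' : Config} {l r s p : Word}

theorem Rw.refl (c : Config) (l : Word) : Rw A c l l := fun _ h => Iso.refl h

theorem Rw.of_eq (h : l = r) : Rw A c l r := h ▸ Rw.refl c l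

theorem ofIso (h : Iso A c l r) : Rw A c l r := fun _ _ => h

theorem Rw.trans (h : Rw A c l r) (h' : Rw A c r s) : Rw A c l s := fun d hd =>
  (h d hd).trans (h' d ((h d hd).run_eq ▸ hd))

/-- One step of a chain of rewritings. -/
theorem Rw.st {l' : Word} (h : Rw A c l' r) (e : l = l') (k : Rw A c r s) : Rw A c l s :=
  e ▸ h.trans k

theorem Rw.app (h : Rw A c l r) (s : Word) : Rw A c (l ++ s) (r ++ s) := fun _ hd =>
  let ⟨d', h1, _⟩ := run_append_some hd
  (h d' h1).app hd

theorem Rw.pre' (h : ∀ c', run c p = some c' → Rw A c' l r) : Rw A c (p ++ l) (p ++ r) :=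
  fun d hd =>
    let ⟨d', h1, h2⟩ := run_append_some hd
    (h d' h1 d h2).pre h1

theorem Rw.pre (hp : run c p = some c') (h : Rw A c' l r) : Rw A c (p ++ l) (p ++ r) :=
  Rw.pre' fun _ h1 => Option.some.inj (hp.symm.trans h1) ▸ h

theorem run_left_some {cl t d : Config} {w : Word}
    (h : run (cl ++ t) (shift cl.length w) = some d) : ∃ t', run t w = some t' ∧ d = cl ++ t' := by
  induction w generalizing t with
  | nil => exact ⟨t, rfl, (Option.some.inj h).symm⟩
  | cons x w ih =>
    obtain ⟨x, i⟩ := x
    obtain ⟨e, h1, h2⟩ := run_cons_some h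
    obtain ⟨t1, h3, rfl⟩ := step_left_some h1
    obtain ⟨t', h4, rfl⟩ := ih h2
    exact ⟨t', by rw [run_cons_of h3, h4], rfl⟩

theorem Rw.left (h : Rw A c l r) (cl : Config) {k : ℕ} (hk : cl.length = k) :
    Rw A (cl ++ c) (shift k l) (shift k r) := by
  subst hk
  intro d hd
  obtain ⟨t, h1, -⟩ := run_left_some hd
  exact (h t h1).left cl

theorem Rw.one (h : Rw A c l r) (a : Option ℕ) : Rw A (a :: c) (shift 1 l) (shift 1 r) :=
  h.left [a] rfl

end Rw

/-- Typed words without skeleton. -/
structure Fr (c : Config) (w : Word) (c' : Config) : Prop where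
  ty : run c w = some c'
  sk : skel c w = []

section Fr
variable {c c' c'' : Config} {u w : Word}

theorem Fr.nil (c : Config) : Fr c [] c := ⟨rfl, rfl⟩

theorem Fr.append (h : Fr c u c') (h' : Fr c' w c'') : Fr c (u ++ w) c'' :=
  ⟨by rw [run_append_of h.ty, h'.ty], by rw [skel_append_of h.ty, h.sk, h'.sk]; rfl⟩

theorem Fr.right (h : Fr c w c') (t : Config) : Fr (c ++ t) w (c' ++ t) :=
  ⟨run_right h.ty t, by rw [skel_right h.ty, h.sk]⟩

theorem Fr.left (h : Fr c w c') (cl : Config) {k : ℕ} (hk : cl.length = k) :
    Fr (cl ++ c) (shift k w) (cl ++ c') := by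
  subst hk
  exact ⟨run_left h.ty cl, by rw [skel_left h.ty, h.sk]; rfl⟩

theorem Fr.one (h : Fr c w c') (a : Option ℕ) : Fr (a :: c) (shift 1 w) (a :: c') :=
  h.left [a] rfl

theorem Fr.cast {d d' : Config} {w' : Word} (h : Fr c w c') (h1 : c = d) (h2 : w = w')
    (h3 : c' = d') : Fr d w' d' := h1 ▸ h2 ▸ h3 ▸ h

theorem fr_cup (c : Config) : Fr c [(cup none, 0)] (none :: none :: c) := ⟨rfl, rfl⟩

theorem fr_cap (c : Config) : Fr (none :: none :: c) [(cap, 0)] c := ⟨rfl, rfl⟩

theorem fr_cr (b : Bool) (x : Option ℕ) (c : Config) :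
    Fr (none :: x :: c) [(cr b, 0)] (x :: none :: c) := ⟨rfl, rfl⟩

theorem fr_cr' (b : Bool) (x : Option ℕ) (c : Config) :
    Fr (x :: none :: c) [(cr b, 0)] (none :: x :: c) := ⟨rfl, by cases x <;> rfl⟩

theorem fr_pass (b : Bool) (c t : Config) {n : ℕ} (h : c.length = n) :
    Fr (none :: (c ++ t)) (pass b n) (c ++ none :: t) := by
  subst h
  simpa using (Fr.mk (run_pass b none c) (skel_pass b c)).right t

theorem fr_back (b : Bool) (c t : Config) {n : ℕ} (h : c.length = n) :
    Fr (c ++ none :: t) (back b n) (none :: (c ++ t)) := by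
  subst h
  simpa using (Fr.mk (run_back b none c) (skel_back b c)).right t

/-- A block on the left goes up past a word on the right. -/
theorem Fr.up {x : Word} {k k' : ℕ} (h : Fr c x c') (hk : c.length = k) (hk' : c'.length = k')
    (t : Config) (y : Word) : Rw A (c ++ t) (x ++ shift k' y) (shift k y ++ x) := by
  subst hk hk'
  intro d hd
  rw [run_append_of (run_right h.ty t)] at hd
  obtain ⟨t', h1, -⟩ := run_left_some hd
  exact far_block h.ty h1 (Or.inl h.sk)

/-- A block on the left goes down past a word on the right. -/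
theorem Fr.down {x : Word} {k k' : ℕ} (h : Fr c x c') (hk : c.length = k) (hk' : c'.length = k')
    (t : Config) (y : Word) : Rw A (c ++ t) (shift k y ++ x) (x ++ shift k' y) := by
  subst hk hk'
  intro d hd
  obtain ⟨e, h0, -⟩ := run_append_some hd
  obtain ⟨t', h1, -⟩ := run_left_some h0
  exact (far_block h.ty h1 (Or.inl h.sk)).symm

end Fr

theorem step_of_append {x : Kind} {i : ℕ} {c t d : Config} (h : step x i (c ++ t) = some d)
    (hi : i + x.inp ≤ c.length) :
    ∃ d0, step x i c = some d0 ∧ d = d0 ++ t ∧ d0.length + x.inp = c.length + x.out := by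
  induction i generalizing c d with
  | zero =>
    cases x with
    | cup k => exact ⟨_, rfl, (Option.some.inj h).symm, by simp [Kind.inp, Kind.out]⟩
    | cap =>
      match c, hi, h with
      | a :: b :: c, _, h =>
        simp only [step, Kind.act, List.cons_append] at h
        split_ifs at h with hab
        exact ⟨c, by simp [step, Kind.act, hab], (Option.some.inj h).symm,
          by simp [Kind.inp, Kind.out]⟩
      | [], hi, _ => simp [Kind.inp] at hi
      | [_], hi, _ => simp [Kind.inp] at hi
    | cr b =>
      match c, hi, h with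
      | a :: b :: c, _, h =>
        exact ⟨_, rfl, (Option.some.inj h).symm, by simp [Kind.inp, Kind.out]⟩
      | [], hi, _ => simp [Kind.inp] at hi
      | [_], hi, _ => simp [Kind.inp] at hi
  | succ i ih =>
    match c, hi, h with
    | a :: c, hi, h =>
      simp only [List.cons_append, step, Option.map_eq_some_iff] at h
      obtain ⟨e, he, rfl⟩ := h
      obtain ⟨d0, h1, rfl, h2⟩ := ih he (by simp at hi; omega)
      exact ⟨a :: d0, by simp [step, h1], rfl, by simp; omega⟩
    | [], hi, _ => simp at hi

theorem swR {x y : Kind} {i j j1 j2 : ℕ} {c : Config} (hij : i ≤ j) (e1 : j1 = j + x.out)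
    (e2 : j2 = j + x.inp)
    (h : ∀ c1, step x i c = some c1 → skl c x i = [] ∨ skl c1 y j1 = []) :
    Rw A c [(x, i), (y, j1)] [(y, j2), (x, i)] := by
  subst e1 e2
  intro d hd
  obtain ⟨c1, h1, h2⟩ := run_cons_some hd
  rw [run_single] at h2
  exact far2 h1 h2 hij (h c1 h1)

theorem swL {x y : Kind} {i j j1 j2 : ℕ} {c : Config} (hij : i ≤ j) (e1 : j1 = j + x.out)
    (e2 : j2 = j + x.inp) (h : x = cup none ∨ y = cup none) :
    Rw A c [(y, j2), (x, i)] [(x, i), (y, j1)] := by
  subst e1 e2
  intro d hd
  obtain ⟨c1, h1, h2⟩ := run_cons_some hd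
  rw [run_single] at h2
  obtain ⟨cl, c0, c0', cr, rfl, rfl, hl, -, -, h0⟩ := step_decomp h1
  rw [List.append_assoc] at h2
  obtain ⟨d0, h3, -, h4⟩ := step_of_append h2 (by omega)
  have := far_letter (A := A) h3 (step_right (x := y) (i := 0) h0 cr)
    (by rcases h with rfl | rfl
        · exact Or.inl rfl
        · exact Or.inr rfl)
  rw [Nat.zero_add, Nat.zero_add, hl, show d0.length = j + x.out by omega] at this
  rw [List.append_assoc]
  exact this.symm

theorem skl_cup (c : Config) (i : ℕ) : skl c (cup none) i = [] := rfl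

theorem zagR (i : ℕ) (c : Config) : Rw A c [(cup none, i), (cap, i + 1)] [] := by
  induction i generalizing c with
  | zero =>
    intro d hd
    match c, hd with
    | none :: c, _ => exact (BMove.zag.iso (A := A)).right c
    | some _ :: c, hd => simp [run, step, Kind.act] at hd
    | [], hd => simp [run, step, Kind.act] at hd
  | succ i ih =>
    match c with
    | a :: c => exact (ih c).one a
    | [] => intro d hd; simp [run, step] at hd

theorem zigR (i : ℕ) (c : Config) : Rw A c [(cup none, i + 1), (cap, i)] [] := by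
  induction i generalizing c with
  | zero =>
    intro d hd
    match c, hd with
    | none :: c, _ => exact (BMove.zig.iso (A := A)).right c
    | some _ :: c, hd => simp [run, step, Kind.act] at hd
    | [], hd => simp [run, step, Kind.act] at hd
  | succ i ih =>
    match c with
    | a :: c => exact (ih c).one a
    | [] => intro d hd; simp [run, step] at hd

theorem circ {c c' : Config} {p : Word} {i : ℕ}
    (h : run c (p ++ [(cup none, i), (cap, i)]) = some c') :
    run c p = some c' ∧ cls A c (p ++ [(cup none, i), (cap, i)]) = dl A • cls A c p := by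
  obtain ⟨d, h1, h2⟩ := run_append_some h
  obtain ⟨e, h3, h4⟩ := run_cons_some h2
  obtain ⟨cl, c0, c0', cr, rfl, rfl, rfl, h5, -, h0⟩ := step_decomp h3
  obtain rfl : c0 = [] := List.length_eq_zero_iff.mp h5
  obtain rfl : [none, none] = c0' := Option.some.inj h0
  have h6 := step_whisk (x := cap) (i := 0) (c := [none, none]) (c' := []) rfl cl cr
  rw [run_single, ← Nat.zero_add cl.length, h6] at h4
  obtain rfl := Option.some.inj h4
  refine ⟨h1, ?_⟩
  simpa using congrArg (emb A p cl [] cr [] h1) (cls_circle (A := A))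

theorem sc_mul (A : Rˣ) (i j : ℤ) : sc A i * sc A j = sc A (i + j) := by
  simp only [sc, zpow_add, Units.val_mul]

theorem curl_sc (b : Bool) : sc A (sg b) * dl A + sc A (-sg b) = -sc A (3 * sg b) := by
  cases b <;> simp only [sg, dl, mul_sub, mul_neg, sc_mul] <;> norm_num
  ring

theorem bracket_ctx {c cl cr : Config} {p : Word} (hp : run c p = some (cl ++ [none, none] ++ cr))
    (b : Bool) (s : Word) : cls A c (p ++ (Kind.cr b, cl.length) :: s) =
      sc A (sg b) • cls A c (p ++ s) +
        sc A (-sg b) • cls A c (p ++ (cap, cl.length) :: (cup none, cl.length) :: s) := by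
  simpa using congrArg (emb A p cl [none, none] cr s hp) (cls_bracket (A := A) b)

/-- Configurations of link strands. -/
def AllN (c : Config) : Prop := ∀ a ∈ c, a = none

theorem AllN.cap {c c' : Config} {i : ℕ} (h : AllN c) (hs : step cap i c = some c') :
    AllN c' ∧ skl c cap i = [] := by
  obtain ⟨cl, c0, c0', cr, rfl, rfl, rfl, h1, h2, h0⟩ := step_decomp hs
  obtain rfl : c0' = [] := List.length_eq_zero_iff.mp h2
  refine ⟨fun a ha => h a ?_, ?_⟩
  · simp only [List.append_nil, List.mem_append] at ha ⊢
    tauto
  · rw [skl_core h0]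
    match c0, h1 with
    | [a, b], _ =>
      obtain rfl : a = none := h a (by simp)
      rfl

theorem AllN.capsW {c c' : Config} {p : List ℕ} (h : AllN c) (hs : run c (capsW p) = some c') :
    AllN c' := by
  induction p generalizing c' with
  | nil => exact Option.some.inj hs ▸ h
  | cons i p ih =>
    obtain ⟨d, h1, h2⟩ := run_append_some hs
    rw [run_single] at h2
    exact ((ih h1).cap h2).1

theorem inscupR (c : Config) (u : List ℕ) (i : ℕ) :
    Rw A c (cupsW u ++ [(cup none, i)]) (cupsW (inscup u i)) := by
  induction u generalizing i with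
  | nil => exact Rw.refl _ _
  | cons a p ih =>
    by_cases h : a + 2 ≤ i
    · refine (Rw.pre' (p := cupsW p) fun _ _ => swR (x := cup none) (y := cup none) (i := a)
        (j := i - 2) (j1 := i) (j2 := i - 2) (by omega) (by simp [Kind.out]; omega) rfl
        fun _ _ => Or.inl rfl).st (by simp [cupsW]) ?_
      exact ((ih (i - 2)).app [(cup none, a)]).st (by simp) (Rw.of_eq (by simp [inscup, h, cupsW]))
    · exact Rw.of_eq (by simp [inscup, h, cupsW])

theorem inscapR {c : Config} (hc : AllN c) (u : List ℕ) (j : ℕ) :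
    Rw A c (capsW u ++ [(cap, j)]) (capsW (inscap u j)) := by
  induction u generalizing j with
  | nil => exact Rw.refl _ _
  | cons a p ih =>
    by_cases h : a ≤ j
    · refine (Rw.pre' (p := capsW p) fun _ h1 => swR (x := cap) (y := cap) (j1 := j) (j2 := j + 2)
        h rfl rfl fun _ h2 => Or.inl ((hc.capsW h1).cap h2).2).st (by simp [capsW]) ?_
      exact ((ih (j + 2)).app [(cap, a)]).st (by simp) (Rw.of_eq (by simp [inscap, h, capsW]))
    · exact Rw.of_eq (by simp [inscap, h, capsW])

theorem extractR (c : Config) {u u' : List ℕ} {i : ℕ} (he : extract u i = some u') :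
    Rw A c (cupsW u) (cupsW u' ++ [(cup none, i)]) := by
  induction u generalizing i u' with
  | nil => cases he
  | cons l p ih =>
    simp only [extract] at he
    split_ifs at he with h1 h2 h3
    · cases he; subst h1; exact Rw.refl _ _
    · obtain ⟨p', hp, rfl⟩ := Option.map_eq_some_iff.mp he
      refine ((ih hp).app [(cup none, l)]).st rfl ?_
      refine (Rw.pre' (p := cupsW p') fun _ _ => swR (x := cup none) (y := cup none) (i := i)
        (j := l - 2) (j1 := l) (j2 := l - 2) (by omega) (by simp [Kind.out]; omega) rfl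
        fun _ _ => Or.inl rfl).st (by simp) ?_
      exact ((inscupR c p' _).app [(cup none, i)]).st (by simp) (Rw.refl _ _)
    · obtain ⟨p', hp, rfl⟩ := Option.map_eq_some_iff.mp he
      refine ((ih hp).app [(cup none, l)]).st rfl ?_
      refine (Rw.pre' (p := cupsW p') fun _ _ => swL (x := cup none) (y := cup none) (i := l)
        (j := i - 2) (j1 := i) (j2 := i - 2) (by omega) (by simp [Kind.out]; omega) rfl
        (Or.inl rfl)).st (by simp) ?_
      exact ((inscupR c p' _).app [(cup none, i)]).st (by simp) (Rw.refl _ _)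

end G1

open G1

variable {c c' : Config} {a u u' : List ℕ} {i j m : ℕ}

theorem curl_right (b : Bool) : cls A [none] [(cup none, 1), (cr b, 0), (cap, 1)] =
    -sc A (3 * sg b) • cls A [none] [] := by
  have h1 := bracket_ctx (A := A) (c := [none]) (p := [(cup none, 1)]) (cl := []) (cr := [none])
    rfl b [(cap, 1)]
  have h2 := (circ (A := A) (c := [none]) (p := []) (i := 1) rfl).2
  have h3 : Iso A [none] [(cup none, 1), (cap, 0), (cup none, 0), (cap, 1)] [] :=
    chk_sound [(0, .ap .zig 0 true), (0, .ap .zag 0 true)] (by decide +kernel)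
  simp only [List.length_nil, List.cons_append, List.nil_append] at h1 h2
  rw [h1, h2, h3.eq, smul_smul, ← add_smul, curl_sc]

theorem curl_left (b : Bool) : cls A [none] [(cup none, 0), (cr b, 1), (cap, 0)] =
    -sc A (3 * sg b) • cls A [none] [] := by
  have h1 := bracket_ctx (A := A) (c := [none]) (p := [(cup none, 0)]) (cl := [none]) (cr := [])
    rfl b [(cap, 0)]
  have h2 := (circ (A := A) (c := [none]) (p := []) (i := 0) rfl).2
  have h3 : Iso A [none] [(cup none, 0), (cap, 1), (cup none, 1), (cap, 0)] [] :=
    chk_sound [(0, .ap .zag 0 true), (0, .ap .zig 0 true)] (by decide +kernel)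
  simp only [List.length_singleton, List.cons_append, List.nil_append] at h1 h2
  rw [h1, h2, h3.eq, smul_smul, ← add_smul, curl_sc]

theorem inscup_iso (h : run c (cupsW u ++ [(cup none, i)]) = some c') :
    Iso A c (cupsW u ++ [(cup none, i)]) (cupsW (inscup u i)) := inscupR c u i c' h

theorem captl_eq (h : run (nn m) (capsW a ++ cupsW u ++ [(cap, j)]) = some c') :
    run (nn m) (capsW (captl a u j).2.1 ++ cupsW (captl a u j).2.2) = some c' ∧
    cls A (nn m) (capsW a ++ cupsW u ++ [(cap, j)]) = (if (captl a u j).1 then dl A else 1) •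
      cls A (nn m) (capsW (captl a u j).2.1 ++ cupsW (captl a u j).2.2) := by
  have hn : AllN (nn m) := fun a ha => List.eq_of_mem_replicate ha
  induction u generalizing j c' with
  | nil =>
    simp only [cupsW, List.append_nil, captl] at h ⊢
    have := inscapR (A := A) hn a j c' h
    exact ⟨this.run_eq ▸ h, by simp [this.eq]⟩
  | cons i p ih =>
    have e : capsW a ++ cupsW (i :: p) ++ [(cap, j)] =
        capsW a ++ cupsW p ++ [(cup none, i), (cap, j)] := by simp [cupsW]
    rw [e] at h ⊢
    have key : ∀ j' i', Rw A (nn m) (capsW a ++ cupsW p ++ [(cup none, i), (cap, j)])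
        (capsW a ++ cupsW p ++ [(cap, j'), (cup none, i')]) →
        run (nn m) (capsW (captl a p j').2.1 ++ cupsW (inscup (captl a p j').2.2 i')) = some c' ∧
        cls A (nn m) (capsW a ++ cupsW p ++ [(cup none, i), (cap, j)]) =
          (if (captl a p j').1 then dl A else 1) •
            cls A (nn m) (capsW (captl a p j').2.1 ++ cupsW (inscup (captl a p j').2.2 i')) := by
      intro j' i' hr
      have h1 := hr c' h
      have e1 : capsW a ++ cupsW p ++ [(cap, j'), (cup none, i')] =
          capsW a ++ cupsW p ++ [(cap, j')] ++ [(cup none, i')] := by simp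
      have h2 := h1.run_eq ▸ h
      rw [e1] at h1 h2
      obtain ⟨d, h3, h4⟩ := run_append_some h2
      obtain ⟨h5, h6⟩ := ih h3
      have h7 := (Rw.pre' (A := A) (c := nn m) (p := capsW (captl a p j').2.1)
        fun d' _ => inscupR d' (captl a p j').2.2 i') c' (by
          rw [← List.append_assoc, run_append_of h5, h4])
      refine ⟨h7.run_eq ▸ by rw [← List.append_assoc, run_append_of h5, h4], ?_⟩
      rw [h1.eq, ← h7.eq, ← List.append_assoc]
      simpa only [app_cls, map_smul] using congrArg (app A (nn m) [(cup none, i')]) h6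
    by_cases h1 : j = i
    · subst h1
      simpa only [captl, if_true] using circ (A := A) h
    by_cases h2 : j = i + 1 ∨ j + 1 = i
    · have hr : Rw A (nn m) (capsW a ++ cupsW p ++ [(cup none, i), (cap, j)])
          (capsW a ++ cupsW p ++ []) := Rw.pre' fun d _ => by
        rcases h2 with rfl | rfl
        · exact zagR i d
        · exact zigR j d
      have := hr c' h
      rw [List.append_nil] at this
      simp only [captl, if_neg h1, if_pos h2, Bool.false_eq_true, if_false, one_smul]
      exact ⟨this.run_eq ▸ h, this.eq⟩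
    by_cases h3 : i + 2 ≤ j
    · simp only [captl, if_neg h1, if_neg h2, if_pos h3]
      exact key (j - 2) i (Rw.pre' fun _ _ => swR (j := j - 2) (by omega)
        (by simp [Kind.out]; omega) rfl fun _ _ => Or.inl rfl)
    · simp only [captl, if_neg h1, if_neg h2, if_neg h3]
      exact key j (i - 2) (Rw.pre' fun _ _ => swL (j := i - 2) (by omega) rfl
        (by simp [Kind.inp]; omega) (Or.inr rfl))

theorem extract_iso (h : run c (cupsW u) = some c') (he : extract u i = some u') :
    Iso A c (cupsW u) (cupsW u' ++ [(cup none, i)]) := extractR c he c' h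

end Pool.Agent.Lib.MP_5b31c3_gt
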