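import Pool.Agent.Lib.MP_5b31c3_gt.Chk
import Pool.Agent.Lib.MP_5b31c3_gt.AlgSplit

-- part Pool.Agent.Lib.MP_5b31c3_gt.Geo
section

/-
Definitions used in the geometric part: insertion of blocks, doubling, gathered words,
hook normal forms and the standard words of a level.
-/

namespace Pool.Agent.Lib.MP_5b31c3_gt

open Kind

/-! Loops and circles -/

/-- A loop around the first `n` strands. -/
def loopn (n : ℕ) : Word := (cup none, 0) :: shift 1 (pass true n) ++ pass false n ++ [(cap, n)]

/-- A meridian loop of the first strand. -/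
def loop : Word := [(cup none, 0), (cr true, 1), (cr false, 0), (cap, 1)]

/-- The same loop tilted the other way. -/
def loop' : Word := [(cup none, 0), (cr false, 1), (cr true, 0), (cap, 1)]

/-- `n` meridian loops. -/
def lp (n : ℕ) : Word := (List.replicate n loop).flatten

/-- The upper part of a circle of a chain. -/
def bottom : Word := [(cr true, 1), (cr true, 1), (cap, 0)]

/-- A surgery circle around the first strand. -/
def circle (q : ℕ) : Word := (cup (some (q, 1)), 0) :: bottom

/-- A chain of `r` circles numbered from `n` with `m` meridian loops around the last one. -/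
def blk : ℕ → ℕ → ℕ → Word
  | _, 0, m => lp m
  | n, r + 1, m => (cup (some (n, 1)), 0) :: blk (n + 1) r m ++ bottom

/-- Insert the block `B` on the left leg of every minimum labelled `κ`. -/
def ins (κ : ℕ × ℤ) (B : Word) : Word → Word
  | [] => []
  | (x, i) :: w => (if x = cup (some κ) then (x, i) :: shift i B else [(x, i)]) ++ ins κ B w

/-- The word has exactly one minimum labelled `κ`. -/
def Solo (κ : ℕ × ℤ) (K : Word) : Prop := (K.map Prod.fst).count (cup (some κ)) = 1

/-- The word has no minimum labelled `κ`. -/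
def NoKey (κ : ℕ × ℤ) (K : Word) : Prop := cup (some κ) ∉ K.map Prod.fst

/-- The word has no minimum of colour `n`. -/
def NoCol (n : ℕ) (K : Word) : Prop := ∀ f : ℤ, NoKey (n, f) K

/-- Skeletons admitted at stage `j`. -/
def Adm (j : ℕ) (K : Word) : Prop :=
  Solo (j, 1) K ∧ ∀ κ : ℕ × ℤ, cup (some κ) ∈ K.map Prod.fst → κ.1 < j ∨ κ = (j, 0) ∨ κ = (j, 1)

/-! Doubling -/

/-- The doubled minimum with `k` turns. -/
def dcup (κ : ℕ × ℤ) (k : ℤ) : Word :=
  [(cup (some κ), 0), (cup none, 1), (cr false, 0)] ++ twist k

/-- The doubled maximum. -/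
def dcap : Word := [(cr true, 0), (cap, 1), (cap, 0)]

/-- Doubling of one slice, with the number of turns given by `tw` of the label. -/
def Kind.dblG (n : ℕ) (tw : ℤ → ℤ) : Kind → Config → Word
  | .cup (some (m, f)), _ => if m = n then dcup (m, f) (tw f) else [(.cup (some (m, f)), 0)]
  | .cap, x :: _ => if x = some n then dcap else [(.cap, 0)]
  | .cr b, x :: y :: _ =>
      if x = some n then
        if y = some n then [(.cr b, 1), (.cr b, 2), (.cr b, 0), (.cr b, 1)]
        else [(.cr b, 1), (.cr b, 0)]
      else if y = some n then [(.cr b, 0), (.cr b, 1)] else [(.cr b, 0)]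
  | x, _ => [(x, 0)]

/-- Doubling of a word. -/
def dblG (n : ℕ) (tw : ℤ → ℤ) : Config → Word → Word
  | _, [] => []
  | c, (x, i) :: w =>
      shift (i + (c.take i).count (some n)) (x.dblG n tw (c.drop i)) ++
        dblG n tw ((step x i c).getD []) w

/-- Doubling of a configuration. -/
def dcfg (n : ℕ) : Config → Config
  | [] => []
  | a :: c => if a = some n then none :: a :: dcfg n c else a :: dcfg n c

/-- Turns at the two minima of the knot. -/
def tw2 (i j : ℤ) (l : ℤ) : ℤ := if l = 0 then i else j

/-- Where the strand at position `t` goes through one slice. -/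
def Kind.trk : Kind → ℕ → ℕ → Option ℕ
  | .cup _, i, t => some (if t < i then t else t + 2)
  | .cap, i, t => if t < i then some t else if t < i + 2 then none else some (t - 2)
  | .cr _, i, t => some (if t = i then i + 1 else if t = i + 1 then i else t)

/-- Where the strand at position `t` goes through a word. -/
def trk : Word → ℕ → Option ℕ
  | [], t => some t
  | (x, i) :: w, t => (x.trk i t).bind (trk w)

/-! Gathered words -/

/-- `m` link strands. -/
def nn (m : ℕ) : Config := List.replicate m none

/-- The surgery strands of a configuration. -/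
def poles (c : Config) : Config := c.filter Option.isSome

/-- The number of link strands. -/
def nl (c : Config) : ℕ := c.count none

/-- Move all link strands to the right, over the surgery strands. -/
def gather : Config → Word
  | [] => []
  | some _ :: c => shift 1 (gather c)
  | none :: c => shift 1 (gather c) ++ pass true (np c)

/-- The inverse of `gather`. -/
def spread : Config → Word
  | [] => []
  | some _ :: c => shift 1 (spread c)
  | none :: c => back true (np c) ++ shift 1 (spread c)

/-- Letters of gathered words. -/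
inductive Gl
  | cup (i : ℕ)
  | cap (i : ℕ)
  | cr (b : Bool) (i : ℕ)
  | hk (j : ℕ) (b : Bool)
  deriving DecidableEq

/-- The first link strand goes around the strand `j` of a base of `k` strands. -/
def hook (k j : ℕ) (b : Bool) : Word :=
  shift j (shift 1 (back true (k - j - 1)) ++ [(cr b, 0), (cr b, 0)] ++
    shift 1 (pass true (k - j - 1)))

/-- The word of a letter over a base of `k` strands. -/
def Gl.w (k : ℕ) : Gl → Word
  | .cup i => [(Kind.cup none, i + k)]
  | .cap i => [(Kind.cap, i + k)]
  | .cr b i => [(Kind.cr b, i + k)]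
  | .hk j b => hook k j b

/-- The word of a gathered word over a base of `k` strands. -/
def interp (k : ℕ) : List Gl → Word
  | [] => []
  | x :: g => x.w k ++ interp k g

/-- The number of link strands after a letter. -/
def Gl.ty (k : ℕ) : Gl → ℕ → Option ℕ
  | .cup i, m => if i ≤ m then some (m + 2) else none
  | .cap i, m => if i + 2 ≤ m then some (m - 2) else none
  | .cr _ i, m => if i + 2 ≤ m then some m else none
  | .hk j _, m => if j < k ∧ 1 ≤ m then some m else none

/-- The number of link strands after a gathered word. -/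
def runG (k : ℕ) : ℕ → List Gl → Option ℕ
  | m, [] => some m
  | m, x :: g => (x.ty k m).bind fun m' => runG k m' g

/-- One more base strand at the far left. -/
def Gl.up : Gl → Gl
  | .hk j b => .hk (j + 1) b
  | x => x

/-- One more link strand in front. -/
def Gl.lift : Gl → List Gl
  | .cup i => [.cup (i + 1)]
  | .cap i => [.cap (i + 1)]
  | .cr b i => [.cr b (i + 1)]
  | .hk j b => [.cr true 0, .hk j b, .cr false 0]

/-- The gathered form of a slice that is not in the skeleton. -/
def gam (x : Kind) : ℕ → Config → List Gl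
  | 0, c =>
      match x, c with
      | .cup _, _ => [.cup 0]
      | .cap, _ => [.cap 0]
      | .cr b, none :: none :: _ => [.cr b 0]
      | .cr b, none :: some _ :: _ => if b then [] else [.hk 0 false]
      | .cr b, some _ :: none :: _ => if b then [.hk 0 true] else []
      | .cr _, _ => []
  | _ + 1, [] => []
  | i + 1, some _ :: c => (gam x i c).map Gl.up
  | i + 1, none :: c => (gam x i c).flatMap Gl.lift

/-- Insert `s` base strands at position `i`. -/
def Gl.rx (i s : ℕ) : Gl → Gl
  | .hk j b => .hk (if j < i then j else j + s) b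
  | x => x

/-- Push a letter down through a crossing of the base strands `j` and `j + 1`. -/
def Gl.conj (b : Bool) (j : ℕ) : Gl → List Gl
  | .hk i s =>
      if b then
        if i = j + 1 then [.hk j s]
        else if i = j then [.hk j false, .hk (j + 1) s, .hk j true] else [.hk i s]
      else
        if i = j then [.hk (j + 1) s]
        else if i = j + 1 then [.hk (j + 1) true, .hk j s, .hk (j + 1) false] else [.hk i s]
  | x => [x]

/-- Push a gathered word down through a slice of the skeleton. -/
def down (x : Kind) (j : ℕ) (g : List Gl) : List Gl :=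
  match x with
  | .cr b => g.flatMap (Gl.conj b j)
  | _ => g.map (Gl.rx j 2)

/-- The gathered form of a word without surgery minima, below its skeleton. -/
def dnG : Config → Word → List Gl
  | _, [] => []
  | c, (x, i) :: w =>
      if x.surg (c.drop i) then down x (np (c.take i)) (dnG ((step x i c).getD []) w)
      else gam x i c ++ dnG ((step x i c).getD []) w

/-- Push a gathered word up through a list of surgery minima. -/
def upThru : Word → List Gl → List Gl
  | [], g => g
  | (_, j) :: S, g => upThru S (g.map (Gl.rx j 2))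

/-- The gathered form of a word whose skeleton consists of minima, above its skeleton. -/
def upG : Config → Word → List Gl
  | _, [] => []
  | c, (x, i) :: w =>
      if x.surg (c.drop i) then upG ((step x i c).getD []) w
      else upThru (skel ((step x i c).getD []) w) (gam x i c) ++ upG ((step x i c).getD []) w

/-- The number of hooks at base strands selected by `P`. -/
def cntH (P : ℕ → Bool) : List Gl → ℕ
  | [] => 0
  | .hk j _ :: g => (if P j then 1 else 0) + cntH P g
  | _ :: g => cntH P g

/-- A slice in which a link strand passes under a surgery strand. -/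
def Kind.under : Kind → Config → Bool
  | .cr false, none :: some _ :: _ => true
  | .cr true, some _ :: none :: _ => true
  | _, _ => false

/-- The number of passages of link strands under the surgery strands selected by `P`. -/
def und (P : ℕ → Bool) : Config → Word → ℕ
  | _, [] => 0
  | c, (x, i) :: w =>
      (if x.under (c.drop i) && P (np (c.take i)) then 1 else 0) +
        und P ((step x i c).getD []) w

/-! Hook normal forms -/

/-- `f` nested hooks around the first strand, with `r` more base strands to the right. -/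
def N0 (r : ℕ) : ℕ → Word
  | 0 => []
  | f + 1 => back true (r + 1) ++ shift 1 (N0 r f) ++
      (cr false, 0) :: shift 1 (pass true r) ++ [(cap, r + 1)]

/-- Nested hooks around all base strands. -/
def Ns : List ℕ → Word
  | [] => []
  | f :: fs => N0 fs.length f ++ shift 1 (Ns fs)

/-- Meridian loops around all base strands. -/
def Ts : List ℕ → Word
  | [] => []
  | n :: ns => lp n ++ shift 1 (Ts ns)

/-- A word of minima; the head of the list is the last letter. -/
def cupsW : List ℕ → Word
  | [] => []
  | i :: p => cupsW p ++ [(cup none, i)]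

/-- A word of maxima; the head of the list is the last letter. -/
def capsW : List ℕ → Word
  | [] => []
  | i :: p => capsW p ++ [(cap, i)]

/-- Increase one entry. -/
def bump : List ℕ → ℕ → List ℕ
  | [], _ => []
  | a :: l, 0 => (a + 1) :: l
  | a :: l, j + 1 => a :: bump l j

/-- The braid that brings a new hook into its place. -/
def beta : List ℕ → ℕ → Word
  | [], _ => []
  | f :: fs, 0 => shift (2 * f) (back true (2 * fs.sum)) ++
      shift (2 * f + 1) (back true (2 * fs.sum)) ++ back true (2 * f)
  | f :: fs, j + 1 => shift (2 * f) (beta fs j)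

/-- Append a minimum in normal order. -/
def inscup : List ℕ → ℕ → List ℕ
  | [], i => [i]
  | a :: p, i => if a + 2 ≤ i then a :: inscup p (i - 2) else i :: a :: p

/-- Append a maximum in normal order. -/
def inscap : List ℕ → ℕ → List ℕ
  | [], j => [j]
  | a :: p, j => if a ≤ j then a :: inscap p (j + 2) else j :: a :: p

/-- Append a maximum to maxima followed by minima; the flag records a closed circle. -/
def captl (a : List ℕ) : List ℕ → ℕ → Bool × List ℕ × List ℕ
  | [], j => (false, inscap a j, [])
  | i :: p, j =>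
      if j = i then (true, a, p)
      else if j = i + 1 ∨ j + 1 = i then (false, a, p)
      else if i + 2 ≤ j then
        ((captl a p (j - 2)).1, (captl a p (j - 2)).2.1, inscup (captl a p (j - 2)).2.2 i)
      else ((captl a p j).1, (captl a p j).2.1, inscup (captl a p j).2.2 (i - 2))

/-- Move the minimum that ends at position `i` to the end, if there is one. -/
def extract : List ℕ → ℕ → Option (List ℕ)
  | [], _ => none
  | l :: p, i =>
      if l = i then some p
      else if i + 2 ≤ l then (extract p i).map (inscup · (l - 2))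
      else if l + 2 ≤ i then (extract p (i - 2)).map (inscup · l)
      else none

/-- Reduction of a minimum at position `i` below the hooks: either a maximum at the given
position (flag `false`) or a loop around the given base strand (flag `true`). -/
def redNs : List ℕ → ℕ → Option (Bool × ℕ × List ℕ)
  | [], _ => none
  | f :: fs, i =>
      if 2 * f ≤ i then
        (redNs fs (i - 2 * f)).map fun r =>
          (r.1, if r.1 then r.2.1 + 1 else r.2.1 + 2 * f, f :: r.2.2)
      else if i + 1 = 2 * f then none
      else if i + 1 = f then some (true, 0, (f - 1) :: fs)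
      else if i + 1 < f then some (false, 2 * f - 4 - i, (f - 2) :: fs)
      else some (false, 2 * f - 2 - i, (f - 2) :: fs)

/-! The words of a level -/

/-- Four strands of the knot. -/
def c4 : Config := [some 0, some 0, some 0, some 0]

/-- The doubled configuration. -/
def c8 : Config := [none, some 0, none, some 0, none, some 0, none, some 0]

/-- The two minima of the knot. -/
def cups : Word := [(cup (some (0, 1)), 0), (cup (some (0, 0)), 1)]

/-- The two maxima of the knot. -/
def caps : Word := [(cap, 1), (cap, 0)]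

/-- The loop around strands 1 and 2. -/
def wa : Word := shift 1 (loopn 2)

/-- The loop around strands 2 and 3. -/
def wb : Word := shift 2 (loopn 2)

/-- The loop around strands 1 and 3, in front of strand 2 for `true`. -/
def w13 (b : Bool) : Word :=
  [(cup none, 1), (cr true, 2), (cr b, 3), (cr true, 4), (cr false, 1), (cr b, 2), (cr false, 3),
    (cap, 4)]

/-- The meridian of strand `t`. -/
def wt (t : ℕ) : Word := shift t loop

/-- The four systems of arcs, each in two parts. -/
def kal : Word × Word :=
  ([(cr true, 2), (cap, 3)], [(cr true, 0), (cr true, 1), (cr true, 2), (cap, 3)])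

/-- See `kal`. -/
def kbe : Word × Word := ([(cr true, 4), (cap, 5)], [(cr true, 0), (cap, 1)])

/-- See `kal`. -/
def kG : Word × Word :=
  ([(cr true, 2), (cr false, 3), (cr false, 4), (cap, 5)], [(cr true, 0), (cr true, 1), (cap, 2)])

/-- See `kal`. -/
def kP : Word × Word :=
  ([(cr true, 2), (cr true, 3), (cr true, 4), (cap, 5)], [(cr true, 0), (cr false, 1), (cap, 2)])

/-- A system of arcs with turns at the four doubled strands. -/
def arcw (κ : Word × Word) (e0 e1 e2 e3 : ℤ) : Word :=
  shift 2 (twist e1) ++ shift 4 (twist e2) ++ shift 6 (twist e3) ++ κ.1 ++ twist e0 ++ κ.2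

/-- The doubling of a word on the four strands. -/
def d4 (z : Word) : Word := dblG 0 (fun _ => 0) c4 z

/-- The standard diagrams in the exterior of the knot. -/
def std (w : List Bool) (j : ℕ) : Word :=
  cups ++ (List.replicate j wb).flatten ++ braid w ++ caps

/-- Words that end at some level of a two-bridge diagram. -/
def Good (y : Word) : Prop := run [] y = some c4 ∧ ∃ v, skel [] y = cups ++ braid v

/-- Closed words with a given skeleton. -/
def Cl (K y : Word) : Prop := run [] y = some [] ∧ skel [] y = K

/-- An arc that passes through the circle: over its right leg and back under it. -/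
def thru : Word := [(cr false, 1), (cr true, 2), (cap, 1)]

variable {R : Type*} [CommRing R]

/-- A linear combination of words with coefficients `n * A ^ e`. -/
noncomputable def wcmb (A : Rˣ) (c : Config) (u : Word) (ts : List (ℤ × ℤ × Word)) : Tan A c :=
  (ts.map fun t => ((t.1 : R) * sc A t.2.1) • cls A c (u ++ t.2.2)).sum

/-- The combination vanishes after every word that ends at `c`. -/
def Van (A : Rˣ) (c : Config) (ts : List (ℤ × ℤ × Word)) : Prop :=
  ∀ u, run [] u = some c → wcmb A [] u ts = 0

/-- The functional respects handle slides over the component `n` with framing `a`. -/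
def Slides (A : Rˣ) {Q : Type*} [AddCommGroup Q] [Module R Q] (F : Tan A [] →ₗ[R] Q) (K : Word)
    (n : ℕ) (a : ℤ) : Prop :=
  ∀ (u w : Word) (c c' : Config), run [] u = some (c ++ none :: some n :: c') → Cl K (u ++ w) →
    F (cls A [] (u ++ w)) = F (cls A [] (dblG n (· * a) [] u ++
      shift (dcfg n c).length [(cap, 0), (cup none, 0)] ++
      dblG n (· * a) (c ++ none :: some n :: c') w))

end Pool.Agent.Lib.MP_5b31c3_gt
end

-- part Pool.Agent.Lib.MP_5b31c3_gt.EvDef
section

/-
A verified evaluator for linear combinations of words: definitions.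
-/

namespace Pool.Agent.Lib.MP_5b31c3_gt

open Kind

namespace Ev

/-- Evaluate a number before it is used. -/
noncomputable def fN {β : Type} (n : ℕ) (k : ℕ → β) : β :=
  Nat.rec (k 0) (fun m _ => k (Nat.succ m)) n

noncomputable def fI {β : Type} (z : ℤ) (k : ℤ → β) : β :=
  Int.rec (fun n => fN n fun m => k (Int.ofNat m)) (fun n => fN n fun m => k (Int.negSucc m)) z

noncomputable def fL {β : Type} (l : List ℕ) : (List ℕ → β) → β :=
  List.rec (fun k => k []) (fun x _ ih k => fN x fun y => ih fun l' => k (y :: l')) l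

noncomputable def enc (l : List ℕ) (h : ℕ) : ℕ :=
  List.rec (Nat.succ (Nat.mul 2 h))
    (fun x _ ih => Nat.shiftLeft (Nat.succ (Nat.mul 2 ih)) (Nat.succ x)) l

noncomputable def hI (z : ℤ) : ℕ := Int.rec (fun n => Nat.mul 2 n) (fun n => Nat.succ (Nat.mul 2 n)) z

noncomputable def isz (z : ℤ) : Bool := Int.rec (fun n => Nat.beq n 0) (fun _ => false) z

noncomputable def icup (u : List ℕ) : ℕ → List ℕ :=
  List.rec (fun i => [i])
    (fun a p ih i => Bool.rec (i :: a :: p) (a :: ih (Nat.sub i 2)) (Nat.ble (Nat.add a 2) i)) u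

noncomputable def ctl {β : Type} (u : List ℕ) : ℕ → (ℕ → List ℕ → β) → β :=
  List.rec (fun j k => k (Nat.succ (Nat.succ j)) [])
    (fun i p ih j k => Bool.rec
      (Bool.rec (k (Bool.rec 0 1 (Nat.beq j i)) p)
        (ih j fun d u' => k d (icup u' (Nat.sub i 2))) (Nat.ble (Nat.add j 2) i))
      (ih (Nat.sub j 2) fun d u' => k d (icup u' i)) (Nat.ble (Nat.add i 2) j)) u

noncomputable def ext {β : Type} (u : List ℕ) (z : β) : ℕ → (List ℕ → β) → β :=
  List.rec (fun _ _ => z)
    (fun l p ih i k => Bool.rec
      (Bool.rec (Bool.rec z (k p) (Nat.beq l i))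
        (ih (Nat.sub i 2) fun u' => k (icup u' l)) (Nat.ble (Nat.add l 2) i))
      (ih i fun u' => k (icup u' (Nat.sub l 2))) (Nat.ble (Nat.add i 2) l)) u

noncomputable def sm2 (f : List ℕ) : ℕ := List.rec 0 (fun x _ ih => Nat.add (Nat.mul 2 x) ih) f

structure Par where
  a : List ℕ
  f : List ℕ
  n : List ℕ
  o : ℕ
  k : ℕ

noncomputable def mkP {β : Type} (a f n : List ℕ) (k : Par → β) : β :=
  k ⟨a, f, n, sm2 f, enc a (enc f (enc n 0))⟩

inductive Tr
  | nil
  | leaf (h K : ℕ) (p : Par) (u : List ℕ) (e c : ℤ)
  | node (l : Tr) (h : ℕ) (r : Tr)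

noncomputable def insT {β : Type} (h K : ℕ) (p : Par) (u : List ℕ) (e c : ℤ) (t : Tr) :
    (Tr → β) → β :=
  Tr.rec (fun k => k (.leaf h K p u e c))
    (fun h' K' p' u' e' c' k => Bool.rec
      (Bool.rec (k (.node (.leaf h' K' p' u' e' c') h' (.leaf h K p u e c)))
        (k (.node (.leaf h K p u e c) h (.leaf h' K' p' u' e' c'))) (Nat.ble h h'))
      (k (.leaf h' K' p' u' e' (Int.add c c'))) (Nat.beq K K'))
    (fun l h' r il ir k => Bool.rec (ir fun r' => k (.node l h' r'))
      (il fun l' => k (.node l' h' r)) (Nat.ble h h')) t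

noncomputable def add3 {β : Type} (h K : ℕ) (p : Par) (u : List ℕ) (e c : ℤ) (t : Tr)
    (k : Tr → β) : β := insT h (Nat.add (Nat.shiftLeft K 64) h) p u e c t k

noncomputable def add2 {β : Type} (K : ℕ) (p : Par) (u : List ℕ) (e c : ℤ) (t : Tr)
    (k : Tr → β) : β :=
  add3 (Nat.mod (Nat.mul K 1442695040888963407) 2305843009213693951) K p u e c t k

noncomputable def add1 {β : Type} (p : Par) (u : List ℕ) (e c : ℤ) (t : Tr)
    (k : Tr → β) : β :=
  add2 (enc u (Nat.shiftLeft (Nat.succ (Nat.mul 2 p.k)) (hI e))) p u e c t k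

noncomputable def put {β : Type} (p : Par) (u : List ℕ) (d : ℕ) :
    ℤ → ℤ → Tr → (Tr → β) → β :=
  Nat.rec (fun e c t k => add1 p u e c t k)
    (fun _ ih e c t k => ih (Int.add e (-2)) (Int.neg c) t fun t' =>
      ih (Int.add e 2) (Int.neg c) t' k) d

noncomputable def fold {β : Type} (g : Par → List ℕ → ℤ → ℤ → Tr → (Tr → β) → β) (t : Tr) :
    Tr → (Tr → β) → β :=
  Tr.rec (fun acc k => k acc)
    (fun _ _ p u e c acc k => Bool.rec (g p u e c acc k) (k acc) (isz c))
    (fun _ _ _ il ir acc k => il acc fun a1 => ir a1 k) t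

/-- Append a maximum. -/
noncomputable def capP {β : Type} (p : Par) (u : List ℕ) (j : ℕ)
    (k : Par → List ℕ → ℕ → β) : β :=
  ctl u j fun r u' => Nat.rec (k p u' 0) (fun r1 _ => Nat.rec (k p u' 1)
    (fun r2 _ => mkP (inscap p.a r2) p.f p.n fun p' => k p' u' 0) r1) r

/-- Search for a reduction at a position below `i`. -/
noncomputable def scan {β : Type} (u f : List ℕ) (z : β)
    (k : List ℕ → Bool → ℕ → List ℕ → β) (i : ℕ) : β :=
  Nat.rec z (fun j ih => ext u ih j fun u' =>
    Option.rec ih (fun r => k u' r.1 r.2.1 r.2.2) (redNs f j)) i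

noncomputable def red {β : Type} (fuel : ℕ) :
    Par → List ℕ → ℕ → ℤ → ℤ → Tr → (Tr → β) → β :=
  Nat.rec (fun p u d e c t k => put p u d e c t k)
    (fun _ ih p u d e c t k => Bool.rec (scan u p.f (put p u d e c t k)
      (fun u' b q f' => Bool.rec
        (mkP p.a f' p.n fun p' => capP p' u' q fun p'' u'' d' => ih p'' u'' (Nat.add d d') e c t k)
        (mkP p.a f' (bump p.n q) fun p' => ih p' u' d e c t k) b) p.o)
      (put p u d e c t k) (List.rec true (fun x _ _ => Nat.ble p.o x) u)) fuel

noncomputable def crT {β : Type} (j : ℕ) (t : Tr) (k : Tr → β) : β :=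
  fold (fun p u e c acc k => capP p u j fun p' u' d =>
    put p' (icup u' j) d (Int.add e 2) c acc k) t t k

noncomputable def crL {β : Type} (l : List ℕ) : Tr → (Tr → β) → β :=
  List.rec (fun t k => k t) (fun j _ ih t k => crT j t fun t' => ih t' k) l

noncomputable def hkF {β : Type} (j : ℕ) (p : Par) (u : List ℕ) (e c : ℤ) (acc : Tr)
    (k : Tr → β) : β :=
  fL ((beta p.f j).map Prod.snd) fun l => mkP p.a (bump p.f j) p.n fun p0 =>
    put p0 (icup u (Nat.succ p.o)) 0 (Int.sub e (Int.ofNat l.length)) c .nil fun t0 =>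
      crL l t0 fun t1 => fold (fun p' u' e' c' acc' k' => red 50 p' u' 0 e' c' acc' k') t1 acc k

noncomputable def letter {β : Type} (x : Gl) (t : Tr) (k : Tr → β) : β :=
  Gl.rec
    (fun i => fold (fun p u e c acc k => put p (icup u (Nat.add i p.o)) 0 e c acc k) t .nil k)
    (fun i => fold (fun p u e c acc k => capP p u (Nat.add i p.o) fun p' u' d =>
      red 50 p' u' d e c acc k) t .nil k)
    (fun b i => fI (Bool.rec 2 (-2) b) fun s =>
      fold (fun p u e c acc k => fN (Nat.add i p.o) fun j => capP p u j fun p' u' d =>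
        red 50 p' (icup u' j) d (Int.add e s) c acc k) t t k)
    (fun j b => Bool.rec (fold (hkF j) t .nil k)
      (fold (fun p u e c acc k => mkP p.a p.f (bump p.n j) fun p' =>
        put p' u 0 (Int.add e (-2)) (Int.neg c) acc fun acc' =>
          hkF j p u (Int.add e (-4)) (Int.neg c) acc' k) t .nil k) b) x

noncomputable def evalG {β : Type} (g : List Gl) : Tr → (Tr → β) → β :=
  List.rec (fun t k => k t) (fun x _ ih t k => letter x t fun t' => ih t' k) g

def offG : List Gl → ℤ
  | [] => 0
  | .cr b _ :: g => sg b + offG g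
  | _ :: g => offG g

noncomputable def isZ (t : Tr) : Bool :=
  Tr.rec true (fun _ _ _ _ _ c => isz c) (fun _ _ _ il ir => Bool.rec false ir il) t

def isSC : Kind → Bool
  | .cup (some _) => true
  | _ => false

def splitW : Word → Word × Word
  | [] => ([], [])
  | x :: w => if (splitW w).1 = [] ∧ isSC x.1 = false then ([], x :: (splitW w).2)
      else (x :: (splitW w).1, (splitW w).2)

def isCup : Kind → Bool
  | .cup _ => true
  | _ => false

def gform (c c' base : Config) (S₁ S₂ w : Word) : Option (List Gl) :=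
  (run c (splitW w).1).bind fun c1 =>
    if run c1 (splitW w).2 = some c' ∧ skel c (splitW w).1 = S₁ ∧ skel c1 (splitW w).2 = S₂ ∧
      poles c1 = base then some (upG c (splitW w).1 ++ dnG c1 (splitW w).2) else none

noncomputable def total (c c' base : Config) (S₁ S₂ : Word) (ts : List (ℤ × ℤ × Word)) :
    Tr → Bool :=
  List.rec isZ (fun t _ ih acc => Option.rec false (fun g =>
    mkP [] (List.replicate base.length 0) (List.replicate base.length 0) fun p0 =>
    put p0 [] 0 (t.2.1 + offG g) t.1 .nil fun t0 => evalG g t0 fun t1 =>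
      fold (fun p u e c acc' k => put p u 0 e c acc' k) t1 acc ih)
    (gform c c' base S₁ S₂ t.2.2)) ts

noncomputable def check (c : Config) (ts : List (ℤ × ℤ × Word)) : Bool :=
  match ts with
  | [] => true
  | t :: _ =>
    match run c (splitW t.2.2).1 with
    | none => false
    | some c1 =>
      match run c1 (splitW t.2.2).2 with
      | none => false
      | some c' => (skel c (splitW t.2.2).1).all (fun x => isCup x.1) &&
          (skel c1 (splitW t.2.2).2).all (fun x => !isCup x.1) &&
          total c c' (poles c1) (skel c (splitW t.2.2).1) (skel c1 (splitW t.2.2).2) ts .nil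

def swl : Kind × ℕ → Config → ℤ × Word
  | (.cr false, 0), none :: some _ :: d =>
      (6, (cr true, 0) :: shift 1 (pass true d.length ++ back false d.length))
  | (.cr true, 0), some _ :: none :: d =>
      (-6, shift 1 (pass false d.length ++ back true d.length) ++ [(cr false, 0)])
  | x, _ => (0, [x])

def sw0 : Config → Word → ℤ × Word
  | _, [] => (0, [])
  | c, x :: w => ((swl x c).1 + (sw0 ((step x.1 x.2 c).getD []) w).1,
      (swl x c).2 ++ (sw0 ((step x.1 x.2 c).getD []) w).2)

noncomputable def checkU (c : Config) (ts : List (ℤ × ℤ × Word)) : Bool :=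
  ts.all (fun t => (run c t.2.2).isSome) &&
    check c (ts.map fun t => (t.1, t.2.1 + (sw0 c t.2.2).1, (sw0 c t.2.2).2))

/-! Equations -/

section Eqs
variable {β : Type}

theorem fN_eq (n : ℕ) (k : ℕ → β) : fN n k = k n := by cases n <;> rfl

theorem fI_eq (z : ℤ) (k : ℤ → β) : fI z k = k z := by
  cases z with
  | ofNat n => exact fN_eq n fun m => k (Int.ofNat m)
  | negSucc n => exact fN_eq n fun m => k (Int.negSucc m)

theorem fL_eq (l : List ℕ) (k : List ℕ → β) : fL l k = k l := by
  induction l generalizing k with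
  | nil => rfl
  | cons x l ih => exact (fN_eq x fun y => fL l fun l' => k (y :: l')).trans (ih fun l' => k (x :: l'))

theorem sh_inj {a b x y : ℕ} (h : (2 * a + 1) * 2 ^ x = (2 * b + 1) * 2 ^ y) : x = y ∧ a = b := by
  induction x generalizing y with
  | zero =>
    cases y with
    | zero => omega
    | succ y => rw [pow_succ, ← mul_assoc] at h; omega
  | succ x ih =>
    cases y with
    | zero => rw [pow_succ, ← mul_assoc] at h; omega
    | succ y =>
      rw [pow_succ, pow_succ, ← mul_assoc, ← mul_assoc] at h
      have := ih (y := y) (by omega)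
      omega

theorem sh_eq (a x : ℕ) : Nat.shiftLeft (Nat.succ (Nat.mul 2 a)) x = (2 * a + 1) * 2 ^ x :=
  Nat.shiftLeft_eq _ _

theorem enc_nil (h : ℕ) : enc [] h = (2 * h + 1) * 2 ^ 0 := by
  rw [pow_zero, mul_one]; rfl

theorem enc_cons (x : ℕ) (l : List ℕ) (h : ℕ) :
    enc (x :: l) h = (2 * enc l h + 1) * 2 ^ (x + 1) := sh_eq _ _

theorem enc_inj {l l' : List ℕ} {h h' : ℕ} (e : enc l h = enc l' h') : l = l' ∧ h = h' := by
  induction l generalizing l' with
  | nil =>
    cases l' with
    | nil => rw [enc_nil, enc_nil] at e; exact ⟨rfl, (sh_inj e).2⟩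
    | cons y l' => rw [enc_nil, enc_cons] at e; have := (sh_inj e).1; omega
  | cons x l ih =>
    cases l' with
    | nil => rw [enc_nil, enc_cons] at e; have := (sh_inj e).1; omega
    | cons y l' =>
      rw [enc_cons, enc_cons] at e
      obtain ⟨h1, h2⟩ := sh_inj e
      obtain ⟨rfl, rfl⟩ := ih h2
      obtain rfl : x = y := by omega
      exact ⟨rfl, rfl⟩

theorem hI_inj {x y : ℤ} (h : hI x = hI y) : x = y := by
  cases x with
  | ofNat m =>
    cases y with
    | ofNat n => have : 2 * m = 2 * n := h; congr 1; omega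
    | negSucc n => have : 2 * m = 2 * n + 1 := h; omega
  | negSucc m =>
    cases y with
    | ofNat n => have : 2 * m + 1 = 2 * n := h; omega
    | negSucc n => have : 2 * m + 1 = 2 * n + 1 := h; congr 1; omega

theorem isz_eq {z : ℤ} (h : isz z = true) : z = 0 := by
  cases z with
  | ofNat n => have : n = 0 := Nat.eq_of_beq_eq_true h; subst this; rfl
  | negSucc n => cases h

theorem rec_ble {x y : β} (a b : ℕ) :
    (Bool.rec x y (Nat.ble a b) : β) = if a ≤ b then y else x := by
  split_ifs with h
  · rw [Nat.ble_eq.mpr h]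
  · rw [Bool.eq_false_iff.mpr (fun h' => h (Nat.ble_eq.mp h'))]

theorem rec_beq {x y : β} (a b : ℕ) :
    (Bool.rec x y (Nat.beq a b) : β) = if a = b then y else x := by
  split_ifs with h
  · rw [Nat.beq_eq.mpr h]
  · rw [Bool.eq_false_iff.mpr (fun h' => h (Nat.beq_eq.mp h'))]

theorem icup_eq (u : List ℕ) (i : ℕ) : icup u i = inscup u i := by
  induction u generalizing i with
  | nil => rfl
  | cons a p ih =>
    change (Bool.rec (i :: a :: p) (a :: icup p (i - 2)) (Nat.ble (a + 2) i) : List ℕ) = _
    rw [rec_ble, ih, inscup]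

theorem sm2_eq (f : List ℕ) : sm2 f = 2 * f.sum := by
  induction f with
  | nil => rfl
  | cons x f ih =>
    change 2 * x + sm2 f = _
    rw [ih, List.sum_cons, mul_add]

theorem ctl_eq (a u : List ℕ) (j : ℕ) (k : ℕ → List ℕ → β) :
    ∃ r, ctl u j k = k r (captl a u j).2.2 ∧
      ((r = 0 ∧ (captl a u j).1 = false ∧ (captl a u j).2.1 = a) ∨
        (r = 1 ∧ (captl a u j).1 = true ∧ (captl a u j).2.1 = a) ∨
        ∃ j', r = j' + 2 ∧ (captl a u j).1 = false ∧ (captl a u j).2.1 = inscap a j') := by
  induction u generalizing j k with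
  | nil => exact ⟨j + 2, rfl, Or.inr (Or.inr ⟨j, rfl, rfl, rfl⟩)⟩
  | cons i p ih =>
    have e : ctl (i :: p) j k = (Bool.rec (Bool.rec (k (Bool.rec 0 1 (Nat.beq j i)) p)
        (ctl p j fun d u' => k d (icup u' (i - 2))) (Nat.ble (j + 2) i))
        (ctl p (j - 2) fun d u' => k d (icup u' i)) (Nat.ble (i + 2) j) : β) := rfl
    rw [e, rec_ble, rec_ble, rec_beq, captl]
    by_cases h1 : i + 2 ≤ j
    · obtain ⟨r, hr, h⟩ := ih (j - 2) fun d u' => k d (icup u' i)
      rw [if_pos h1, if_neg (by omega), if_neg (by omega), if_pos h1, hr, icup_eq]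
      exact ⟨r, rfl, h⟩
    · by_cases h2 : j + 2 ≤ i
      · obtain ⟨r, hr, h⟩ := ih j fun d u' => k d (icup u' (i - 2))
        rw [if_neg h1, if_pos h2, if_neg (by omega), if_neg (by omega), if_neg h1, hr, icup_eq]
        exact ⟨r, rfl, h⟩
      · rw [if_neg h1, if_neg h2]
        by_cases h3 : j = i
        · rw [if_pos h3, if_pos h3]
          exact ⟨1, rfl, Or.inr (Or.inl ⟨rfl, rfl, rfl⟩)⟩
        · rw [if_neg h3, if_neg h3, if_pos (by omega)]
          exact ⟨0, rfl, Or.inl ⟨rfl, rfl, rfl⟩⟩

theorem ext_eq (u : List ℕ) (z : β) (i : ℕ) (k : List ℕ → β) :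
    ext u z i k = (extract u i).elim z k := by
  induction u generalizing i k with
  | nil => rfl
  | cons l p ih =>
    have e : ext (l :: p) z i k = (Bool.rec (Bool.rec (Bool.rec z (k p) (Nat.beq l i))
        (ext p z (i - 2) fun u' => k (icup u' l)) (Nat.ble (l + 2) i))
        (ext p z i fun u' => k (icup u' (l - 2))) (Nat.ble (i + 2) l) : β) := rfl
    rw [e, rec_ble, rec_ble, rec_beq, extract, ih, ih]
    by_cases h1 : i + 2 ≤ l
    · rw [if_pos h1, if_neg (by omega), if_pos h1]
      cases extract p i <;> simp [icup_eq]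
    · by_cases h2 : l + 2 ≤ i
      · rw [if_neg h1, if_pos h2, if_neg (by omega), if_neg h1, if_pos h2]
        cases extract p (i - 2) <;> simp [icup_eq]
      · rw [if_neg h1, if_neg h2]
        by_cases h3 : l = i
        · rw [if_pos h3, if_pos h3]; rfl
        · rw [if_neg h3, if_neg h3, if_neg h1, if_neg h2]; rfl

theorem scan_ok {u f : List ℕ} {z : Bool} {k : List ℕ → Bool → ℕ → List ℕ → Bool} {i : ℕ}
    (h : scan u f z k i = true) : z = true ∨ ∃ j u' b q f', extract u j = some u' ∧
      redNs f j = some (b, q, f') ∧ k u' b q f' = true := by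
  induction i with
  | zero => exact Or.inl h
  | succ j ih =>
    have e : scan u f z k (j + 1) = ext u (scan u f z k j) j fun u' =>
      Option.rec (scan u f z k j) (fun r => k u' r.1 r.2.1 r.2.2) (redNs f j) := rfl
    rw [e, ext_eq] at h
    cases h1 : extract u j with
    | none => rw [h1] at h; exact ih h
    | some u' =>
      rw [h1] at h
      cases h2 : redNs f j with
      | none => rw [h2] at h; exact ih h
      | some r =>
        rw [h2] at h
        exact Or.inr ⟨j, u', r.1, r.2.1, r.2.2, h1, h2, h⟩

theorem splitW_append (w : Word) : (splitW w).1 ++ (splitW w).2 = w := by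
  induction w with
  | nil => rfl
  | cons x w ih =>
    rw [splitW]
    split_ifs with h
    · rw [h.1] at ih
      simpa using ih
    · simpa using ih

end Eqs

end Ev

end Pool.Agent.Lib.MP_5b31c3_gt
end

-- part Pool.Agent.Lib.MP_5b31c3_gt.EvTree
section

/-
A verified evaluator for linear combinations of words: formal sums stored in trees.
-/

namespace Pool.Agent.Lib.MP_5b31c3_gt

namespace Ev

variable {R : Type*} [CommRing R] {A : Rˣ} {V W : Type*} [AddCommGroup V] [Module R V]
  [AddCommGroup W] [Module R W]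

/-- Predicates and functions on states. -/
abbrev Fn4 (α : Sort*) := List ℕ → List ℕ → List ℕ → List ℕ → α

/-- The coefficient `c * A ^ e`. -/
def co (A : Rˣ) (e c : ℤ) : R := (c : R) * sc A e

theorem co_add (e c c' : ℤ) : co A e (Int.add c c') = co A e c + co A e c' := by
  change co A e (c + c') = _
  simp [co, add_mul]

theorem co_shift (e s c : ℤ) : co A (Int.add e s) c = co A e c * sc A s := by
  change co A (e + s) c = _
  rw [co, co, sc_add, mul_assoc]

theorem co_neg (e c : ℤ) : co A e (Int.neg c) = -co A e c := by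
  change co A e (-c) = _
  simp [co]

def WF (p : Par) : Prop := p.o = 2 * p.f.sum ∧ p.k = enc p.a (enc p.f (enc p.n 0))

noncomputable def key (p : Par) (u : List ℕ) (e : ℤ) : ℕ :=
  enc u (Nat.shiftLeft (Nat.succ (Nat.mul 2 p.k)) (hI e))

theorem key_inj {p p' : Par} {u u' : List ℕ} {e e' : ℤ} (hp : WF p) (hp' : WF p')
    (h : key p u e = key p' u' e') :
    p.a = p'.a ∧ p.f = p'.f ∧ p.n = p'.n ∧ u = u' ∧ e = e' := by
  obtain ⟨h1, h2⟩ := enc_inj h
  rw [sh_eq, sh_eq] at h2
  obtain ⟨h3, h4⟩ := sh_inj h2
  rw [hp.2, hp'.2] at h4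
  obtain ⟨h5, h6⟩ := enc_inj h4
  obtain ⟨h7, h8⟩ := enc_inj h6
  exact ⟨h5, h7, (enc_inj h8).1, h1, hI_inj h3⟩

def OkT (P : Fn4 Prop) : Tr → Prop
  | .nil => True
  | .leaf _ K p u e _ => WF p ∧ P p.a p.f p.n u ∧ K / 2 ^ 64 = key p u e
  | .node l _ r => OkT P l ∧ OkT P r

def den (A : Rˣ) (I : Fn4 V) : Tr → V
  | .nil => 0
  | .leaf _ _ p u e c => co A e c • I p.a p.f p.n u
  | .node l _ r => den A I l + den A I r

theorem OkT.mono {P Q : Fn4 Prop} (h : ∀ a f n u, P a f n u → Q a f n u) {t : Tr}
    (ht : OkT P t) : OkT Q t := by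
  induction t with
  | nil => trivial
  | leaf => exact ⟨ht.1, h _ _ _ _ ht.2.1, ht.2.2⟩
  | node l _ r il ir => exact ⟨il ht.1, ir ht.2⟩

theorem den_lin {P : Fn4 Prop} {I : Fn4 V} {J J' : Fn4 W} (L : V →ₗ[R] W) (r : R)
    (h : ∀ a f n u, P a f n u → L (I a f n u) = r • (J a f n u + J' a f n u)) {t : Tr}
    (ht : OkT P t) : L (den A I t) = r • (den A J t + den A J' t) := by
  induction t with
  | nil => simp [den]
  | leaf =>
    simp only [den, map_smul, h _ _ _ _ ht.2.1, ← smul_add]
    rw [smul_comm]
  | node l _ r il ir =>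
    simp only [den, map_add, il ht.1, ir ht.2, smul_add]
    abel

theorem den_zero (t : Tr) : den A (fun _ _ _ _ => (0 : V)) t = 0 := by
  induction t with
  | nil => rfl
  | leaf => simp [den]
  | node l _ r il ir => simp [den, il, ir]

theorem den_map {P : Fn4 Prop} {I : Fn4 V} {J : Fn4 W} (L : V →ₗ[R] W)
    (h : ∀ a f n u, P a f n u → L (I a f n u) = J a f n u) {t : Tr} (ht : OkT P t) :
    L (den A I t) = den A J t := by
  have := den_lin (A := A) (J' := fun _ _ _ _ => 0) L 1 (fun a f n u hp => by
    rw [h a f n u hp, add_zero, one_smul]) ht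
  rwa [den_zero, add_zero, one_smul] at this

theorem den_isZ {I : Fn4 V} {t : Tr} (h : isZ t = true) : den A I t = 0 := by
  induction t with
  | nil => rfl
  | leaf _ _ p u e c => rw [den, isz_eq (z := c) h]; simp [co]
  | node l x r il ir =>
    have e : isZ (.node l x r) = (Bool.rec false (isZ r) (isZ l) : Bool) := rfl
    rw [e] at h
    cases hl : isZ l with
    | false => rw [hl] at h; cases h
    | true => rw [hl] at h; rw [den, il hl, ir h, add_zero]

/-- The continuation succeeds on a tree with the value `w`. -/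
def Res (A : Rˣ) (P : Fn4 Prop) (I : Fn4 V) (w : V) (k : Tr → Bool) : Prop :=
  ∃ t', OkT P t' ∧ den A I t' = w ∧ k t' = true

variable {P P' : Fn4 Prop} {I : Fn4 V}

theorem Res.mk' {w : V} {k : Tr → Bool} {t : Tr} (h3 : k t = true) (h1 : OkT P t)
    (h2 : den A I t = w) : Res A P I w k := ⟨t, h1, h2, h3⟩

theorem insT_ok {h K : ℕ} {p : Par} {u : List ℕ} {e c : ℤ} {t : Tr} {k : Tr → Bool}
    (hp : WF p) (hP : P p.a p.f p.n u) (hK : K / 2 ^ 64 = key p u e) (ht : OkT P t)
    (hk : insT h K p u e c t k = true) :
    Res A P I (den A I t + co A e c • I p.a p.f p.n u) k := by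
  induction t generalizing k with
  | nil => exact Res.mk' (t := .leaf h K p u e c) hk ⟨hp, hP, hK⟩ (by simp [den])
  | leaf h' K' p' u' e' c' =>
    have e1 : insT h K p u e c (.leaf h' K' p' u' e' c') k = (Bool.rec
      (Bool.rec (k (.node (.leaf h' K' p' u' e' c') h' (.leaf h K p u e c)))
        (k (.node (.leaf h K p u e c) h (.leaf h' K' p' u' e' c'))) (Nat.ble h h'))
      (k (.leaf h' K' p' u' e' (Int.add c c'))) (Nat.beq K K') : Bool) := rfl
    rw [e1, rec_beq, rec_ble] at hk
    split_ifs at hk with h1 h2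
    · subst h1
      obtain ⟨q1, q2, q3, q4, q5⟩ := key_inj hp ht.1 (hK.symm.trans ht.2.2)
      refine Res.mk' hk ht ?_
      simp only [den, co_add, q1, q2, q3, q4, q5, add_smul]
      abel
    · exact Res.mk' hk ⟨⟨hp, hP, hK⟩, ht⟩ (by simp only [den]; abel)
    · exact Res.mk' hk ⟨ht, ⟨hp, hP, hK⟩⟩ (by simp only [den])
  | node l h' r il ir =>
    have e1 : insT h K p u e c (.node l h' r) k = (Bool.rec
      (insT h K p u e c r fun r' => k (.node l h' r'))
      (insT h K p u e c l fun l' => k (.node l' h' r)) (Nat.ble h h') : Bool) := rfl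
    rw [e1, rec_ble] at hk
    split_ifs at hk with h1
    · obtain ⟨t', q1, q2, q3⟩ := il ht.1 hk
      exact Res.mk' q3 ⟨q1, ht.2⟩ (by simp only [den, q2]; abel)
    · obtain ⟨t', q1, q2, q3⟩ := ir ht.2 hk
      exact Res.mk' q3 ⟨ht.1, q1⟩ (by simp only [den, q2]; abel)

theorem add1_ok {p : Par} {u : List ℕ} {e c : ℤ} {t : Tr} {k : Tr → Bool}
    (hp : WF p) (hP : P p.a p.f p.n u) (ht : OkT P t) (hk : add1 p u e c t k = true) :
    Res A P I (den A I t + co A e c • I p.a p.f p.n u) k := by
  refine insT_ok hp hP ?_ ht hk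
  change (key p u e <<< 64 + key p u e * 1442695040888963407 % 2305843009213693951) / 2 ^ 64 = _
  rw [Nat.shiftLeft_eq]
  omega

theorem put_ok {p : Par} {u : List ℕ} {d : ℕ} {e c : ℤ} {t : Tr} {k : Tr → Bool}
    (hp : WF p) (hP : P p.a p.f p.n u) (ht : OkT P t) (hk : put p u d e c t k = true) :
    Res A P I (den A I t + (co A e c * dl A ^ d) • I p.a p.f p.n u) k := by
  induction d generalizing e c t k with
  | zero => rw [pow_zero, mul_one]; exact add1_ok hp hP ht hk
  | succ d ih =>
    obtain ⟨t1, q1, q2, q3⟩ := ih (e := Int.add e (-2)) (c := Int.neg c) ht hk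
    obtain ⟨t2, r1, r2, r3⟩ := ih (e := Int.add e 2) (c := Int.neg c) q1 q3
    refine ⟨t2, r1, ?_, r3⟩
    rw [r2, q2, add_assoc, ← add_smul, co_neg, co_neg, co_shift, co_shift, pow_succ]
    congr 2
    rw [dl]; ring

theorem fold_ok {J : Fn4 V} {g : Par → List ℕ → ℤ → ℤ → Tr → (Tr → Bool) → Bool}
    (hg : ∀ p u e c acc k, WF p → P p.a p.f p.n u → OkT P' acc → g p u e c acc k = true →
      Res A P' I (den A I acc + co A e c • J p.a p.f p.n u) k)
    {t acc : Tr} {k : Tr → Bool} (ht : OkT P t) (ha : OkT P' acc)
    (hk : fold g t acc k = true) : Res A P' I (den A I acc + den A J t) k := by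
  induction t generalizing acc k with
  | nil => exact ⟨acc, ha, by simp [den], hk⟩
  | leaf x y p u e c =>
    have e1 : fold g (.leaf x y p u e c) acc k =
      (Bool.rec (g p u e c acc k) (k acc) (isz c) : Bool) := rfl
    rw [e1] at hk
    cases hz : isz c with
    | false => rw [hz] at hk; exact hg p u e c acc k ht.1 ht.2.1 ha hk
    | true =>
      rw [hz] at hk
      exact ⟨acc, ha, by simp [den, isz_eq hz, co], hk⟩
  | node l _ r il ir =>
    obtain ⟨t1, q1, q2, q3⟩ := il ht.1 ha hk
    obtain ⟨t2, r1, r2, r3⟩ := ir ht.2 q1 q3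
    exact ⟨t2, r1, by rw [r2, q2, den, add_assoc], r3⟩

theorem mkP_ok {a f n : List ℕ} {k : Par → Bool} (h : mkP a f n k = true) :
    ∃ p, WF p ∧ p.a = a ∧ p.f = f ∧ p.n = n ∧ k p = true :=
  ⟨_, ⟨sm2_eq f, rfl⟩, rfl, rfl, rfl, h⟩

theorem capP_ok {p : Par} {u : List ℕ} {j : ℕ} {k : Par → List ℕ → ℕ → Bool} (hp : WF p)
    (h : capP p u j k = true) : ∃ p' d, WF p' ∧ p'.a = (captl p.a u j).2.1 ∧ p'.f = p.f ∧
      p'.n = p.n ∧ d = (if (captl p.a u j).1 then 1 else 0) ∧
      k p' (captl p.a u j).2.2 d = true := by
  rw [capP] at h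
  obtain ⟨r, hr, h1⟩ := ctl_eq p.a u j fun r u' => (Nat.rec (k p u' 0) (fun r1 _ =>
    Nat.rec (k p u' 1) (fun r2 _ => mkP (inscap p.a r2) p.f p.n fun p' => k p' u' 0) r1) r : Bool)
  rw [hr] at h
  rcases h1 with ⟨rfl, h2, h3⟩ | ⟨rfl, h2, h3⟩ | ⟨j', rfl, h2, h3⟩
  · exact ⟨p, 0, hp, h3.symm, rfl, rfl, by simp [h2], h⟩
  · exact ⟨p, 1, hp, h3.symm, rfl, rfl, by simp [h2], h⟩
  · obtain ⟨p', q1, q2, q3, q4, q5⟩ := mkP_ok h
    exact ⟨p', 0, q1, q2.trans h3.symm, q3, q4, by simp [h2], q5⟩

end Ev

end Pool.Agent.Lib.MP_5b31c3_gt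
end

-- part Pool.Agent.Lib.MP_5b31c3_gt.Words0
section

/-
Combinatorics of words, first part: insertion, keys, skeletons.
-/

namespace Pool.Agent.Lib.MP_5b31c3_gt

open Kind

variable {κ κ' : ℕ × ℤ} {B B' u w y z : Word} {c c' cl cr : Config} {n : ℕ} {tw tw' : ℤ → ℤ}

/-- The three shapes of a core. -/
theorem core_cases {x : Kind} {c0 c0' : Config} (h : x.act c0 = some c0')
    (hl : c0.length = x.inp) :
    (∃ k, x = cup k ∧ c0 = [] ∧ c0' = [k.map Prod.fst, k.map Prod.fst]) ∨
    (∃ a, x = cap ∧ c0 = [a, a] ∧ c0' = []) ∨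
    (∃ b a a', x = Kind.cr b ∧ c0 = [a, a'] ∧ c0' = [a', a]) := by
  cases x with
  | cup k =>
    obtain rfl : c0 = [] := List.length_eq_zero_iff.1 hl
    exact Or.inl ⟨k, rfl, rfl, (Option.some.inj h).symm⟩
  | cap =>
    obtain ⟨a, a', rfl⟩ := List.length_eq_two.1 hl
    simp only [Kind.act] at h
    split_ifs at h with haa
    subst haa
    exact Or.inr (Or.inl ⟨a, rfl, rfl, (Option.some.inj h).symm⟩)
  | cr b =>
    obtain ⟨a, a', rfl⟩ := List.length_eq_two.1 hl
    exact Or.inr (Or.inr ⟨b, a, a', rfl, rfl, (Option.some.inj h).symm⟩)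

theorem step_core {x : Kind} {c0 c0' : Config} (h : x.act c0 = some c0') (cl cr : Config) :
    step x cl.length (cl ++ c0 ++ cr) = some (cl ++ c0' ++ cr) := by
  simpa using step_whisk (x := x) (i := 0) h cl cr

theorem map_fst_shift (k : ℕ) (w : Word) : (shift k w).map Prod.fst = w.map Prod.fst := by
  simp [shift, List.map_map, Function.comp_def]

theorem noKey_nil (κ : ℕ × ℤ) : NoKey κ [] := by simp [NoKey]

theorem noKey_cons {x : Kind} {i : ℕ} :
    NoKey κ ((x, i) :: w) ↔ x ≠ cup (some κ) ∧ NoKey κ w := by
  simp [NoKey, eq_comm]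

theorem noKey_append : NoKey κ (u ++ w) ↔ NoKey κ u ∧ NoKey κ w := by
  simp only [NoKey, List.map_append, List.mem_append, not_or]

theorem noKey_shift (k : ℕ) : NoKey κ (shift k w) ↔ NoKey κ w := by
  simp only [NoKey, map_fst_shift]

theorem ins_cons (κ : ℕ × ℤ) (B : Word) (x : Kind) (i : ℕ) (w : Word) :
    ins κ B ((x, i) :: w) =
      (if x = cup (some κ) then (x, i) :: shift i B else [(x, i)]) ++ ins κ B w := rfl

theorem ins_cons_key (κ : ℕ × ℤ) (B : Word) (i : ℕ) (w : Word) :
    ins κ B ((cup (some κ), i) :: w) = (cup (some κ), i) :: (shift i B ++ ins κ B w) := by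
  simp [ins_cons]

theorem ins_cons_ne {x : Kind} (h : x ≠ cup (some κ)) (B : Word) (i : ℕ) (w : Word) :
    ins κ B ((x, i) :: w) = (x, i) :: ins κ B w := by
  simp [ins_cons, h]

theorem ins_append (κ : ℕ × ℤ) (B u w : Word) : ins κ B (u ++ w) = ins κ B u ++ ins κ B w := by
  induction u with
  | nil => rfl
  | cons x u ih => obtain ⟨x, i⟩ := x; simp only [List.cons_append, ins_cons, ih, List.append_assoc]

theorem ins_shift (κ : ℕ × ℤ) (B : Word) (k : ℕ) (w : Word) :
    ins κ B (shift k w) = shift k (ins κ B w) := by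
  induction w with
  | nil => rfl
  | cons x w ih =>
    obtain ⟨x, i⟩ := x
    simp only [shift_cons, ins_cons, ih, shift_append]
    split_ifs <;> simp [shift_shift]

theorem ins_of_noKey (h : NoKey κ w) (B : Word) : ins κ B w = w := by
  induction w with
  | nil => rfl
  | cons x w ih =>
    obtain ⟨x, i⟩ := x
    rw [ins_cons_ne (noKey_cons.1 h).1, ih (noKey_cons.1 h).2]

theorem ins_nil (κ : ℕ × ℤ) (w : Word) : ins κ [] w = w := by
  induction w with
  | nil => rfl
  | cons x w ih => obtain ⟨x, i⟩ := x; simp [ins_cons, ih]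

theorem ins_split (hu : NoKey κ u) (hw : NoKey κ w) (B : Word) (i : ℕ) :
    ins κ B (u ++ (cup (some κ), i) :: w) = u ++ (cup (some κ), i) :: shift i B ++ w := by
  rw [ins_append, ins_of_noKey hu, ins_cons_key, ins_of_noKey hw]
  simp

/-- A labelled minimum and the block inserted after it. -/
theorem step_key {i : ℕ} {d : Config} (h : step (cup (some κ)) i c = some d) :
    ∃ cl cr, c = cl ++ [] ++ cr ∧ d = cl ++ [some κ.1] ++ some κ.1 :: cr ∧ cl.length = i := by
  obtain ⟨cl, c0, c0', cr, rfl, rfl, rfl, h1, -, h0⟩ := step_decomp h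
  obtain rfl : c0 = [] := List.length_eq_zero_iff.1 h1
  obtain rfl := Option.some.inj h0
  exact ⟨cl, cr, rfl, by simp, rfl⟩

theorem run_ins (hB : run [some κ.1] B = some [some κ.1]) (h : run c w = some c') :
    run c (ins κ B w) = some c' := by
  induction w generalizing c with
  | nil => exact h
  | cons x w ih =>
    obtain ⟨x, i⟩ := x
    obtain ⟨d, hd, hw⟩ := run_cons_some h
    by_cases hx : x = cup (some κ)
    · subst hx
      rw [ins_cons_key, run_cons_of hd]
      obtain ⟨cl, cr, rfl, rfl, rfl⟩ := step_key hd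
      rw [run_append_of (run_whisk hB _ _)]
      exact ih hw
    · rw [ins_cons_ne hx, run_cons_of hd]
      exact ih hw

theorem skel_ins (hB : run [some κ.1] B = some [some κ.1]) (h : run c w = some c') :
    skel c (ins κ B w) = ins κ (skel [some κ.1] B) (skel c w) := by
  induction w generalizing c with
  | nil => rfl
  | cons x w ih =>
    obtain ⟨x, i⟩ := x
    obtain ⟨d, hd, hw⟩ := run_cons_some h
    by_cases hx : x = cup (some κ)
    · subst hx
      rw [ins_cons_key, skel_cons_of hd, skel_cons_of hd]
      obtain ⟨cl, cr, rfl, rfl, rfl⟩ := step_key hd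
      rw [skel_append_of (run_whisk hB _ _), skel_whisk hB, ih hw,
        skl_core (x := cup (some κ)) (c0 := []) rfl]
      simp [Kind.surg, ins_cons_key]
    · rw [ins_cons_ne hx, skel_cons_of hd, skel_cons_of hd, ih hw, ins_append]
      congr 1
      unfold skl
      split_ifs
      · rw [ins_cons_ne hx]; rfl
      · rfl

theorem ins_ins_same (h : NoKey κ B') (B w : Word) :
    ins κ B (ins κ B' w) = ins κ (B ++ B') w := by
  induction w with
  | nil => rfl
  | cons x w ih =>
    obtain ⟨x, i⟩ := x
    by_cases hx : x = cup (some κ)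
    · subst hx
      rw [ins_cons_key, ins_cons_key, ins_cons_key, ins_append, ih,
        ins_of_noKey ((noKey_shift i).2 h), shift_append, List.append_assoc]
    · rw [ins_cons_ne hx, ins_cons_ne hx, ins_cons_ne hx, ih]

theorem ins_ins_in (h : NoKey κ' w) (κ : ℕ × ℤ) (B B' : Word) :
    ins κ' B' (ins κ B w) = ins κ (ins κ' B' B) w := by
  induction w with
  | nil => rfl
  | cons x w ih =>
    obtain ⟨x, i⟩ := x
    obtain ⟨h1, h2⟩ := noKey_cons.1 h
    by_cases hx : x = cup (some κ)
    · subst hx
      rw [ins_cons_key, ins_cons_key, ins_cons_ne h1, ins_append, ih h2, ins_shift]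
    · rw [ins_cons_ne hx, ins_cons_ne hx, ins_cons_ne h1, ih h2]

theorem ins_comm (hk : κ ≠ κ') (h : NoKey κ B') (h' : NoKey κ' B) (w : Word) :
    ins κ B (ins κ' B' w) = ins κ' B' (ins κ B w) := by
  have hne : cup (some κ) ≠ cup (some κ') := by simpa using hk
  induction w with
  | nil => rfl
  | cons x w ih =>
    obtain ⟨x, i⟩ := x
    by_cases hx : x = cup (some κ)
    · subst hx
      rw [ins_cons_ne hne, ins_cons_key, ins_cons_key, ins_cons_ne hne, ins_append, ih,
        ins_of_noKey ((noKey_shift i).2 h')]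
    · by_cases hx' : x = cup (some κ')
      · subst hx'
        rw [ins_cons_ne hx, ins_cons_key, ins_cons_key, ins_cons_ne hx, ins_append, ih,
          ins_of_noKey ((noKey_shift i).2 h)]
      · rw [ins_cons_ne hx', ins_cons_ne hx, ins_cons_ne hx, ins_cons_ne hx', ih]

theorem count_skel' (c : Config) (w : Word) (κ : ℕ × ℤ) :
    ((skel c w).map Prod.fst).count (cup (some κ)) = (w.map Prod.fst).count (cup (some κ)) := by
  induction w generalizing c with
  | nil => rfl
  | cons x w ih =>
    obtain ⟨x, i⟩ := x
    simp only [skel, List.map_append, List.count_append, ih, List.map_cons, List.count_cons]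
    by_cases hx : x = cup (some κ)
    · subst hx; simp [Kind.surg, Nat.add_comm]
    · split_ifs <;> simp_all

theorem count_skel (h : run c w = some c') (κ : ℕ × ℤ) :
    ((skel c w).map Prod.fst).count (cup (some κ)) = (w.map Prod.fst).count (cup (some κ)) :=
  (fun _ => count_skel' c w κ) h

theorem key_mem_skel (h : run c w = some c') :
    cup (some κ) ∈ (skel c w).map Prod.fst ↔ cup (some κ) ∈ w.map Prod.fst := by
  rw [← List.count_pos_iff, ← List.count_pos_iff, count_skel h]

theorem noKey_skel (h : run c w = some c') : NoKey κ (skel c w) ↔ NoKey κ w :=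
  not_congr (key_mem_skel h)

theorem solo_skel (h : run c w = some c') : Solo κ (skel c w) ↔ Solo κ w := by
  simp only [Solo, count_skel h]

theorem noKey_of_skel_nil (h : run c w = some c') (hs : skel c w = []) (κ : ℕ × ℤ) :
    NoKey κ w :=
  (noKey_skel h).1 (hs ▸ noKey_nil κ)

theorem Solo.split (h : Solo κ w) :
    ∃ u i w', w = u ++ (cup (some κ), i) :: w' ∧ NoKey κ u ∧ NoKey κ w' := by
  induction w with
  | nil => simp [Solo] at h
  | cons x w ih =>
    obtain ⟨x, i⟩ := x
    by_cases hx : x = cup (some κ)
    · subst hx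
      refine ⟨[], i, w, rfl, noKey_nil κ, List.count_eq_zero.1 ?_⟩
      simpa [Solo] using h
    · obtain ⟨u, j, w', rfl, hu, hw⟩ := ih (by simpa [Solo, List.count_cons, hx] using h)
      exact ⟨(x, i) :: u, j, w', rfl, noKey_cons.2 ⟨hx, hu⟩, hw⟩

theorem skel_split {S₁ S₂ : Word} {x : Kind} {j : ℕ} (h : run c y = some c')
    (hs : skel c y = S₁ ++ (x, j) :: S₂) :
    ∃ u i w c₁ c₂, y = u ++ (x, i) :: w ∧ run c u = some c₁ ∧ step x i c₁ = some c₂ ∧
      run c₂ w = some c' ∧ skel c u = S₁ ∧ skel c₂ w = S₂ ∧ x.surg (c₁.drop i) = true ∧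
      np (c₁.take i) = j := by
  induction y generalizing c S₁ with
  | nil => simp at hs
  | cons x' y ih =>
    obtain ⟨x', i⟩ := x'
    obtain ⟨d, hd, hy⟩ := run_cons_some h
    rw [skel_cons_of hd] at hs
    by_cases hx : x'.surg (c.drop i) = true
    · have e : skl c x' i = [(x', np (c.take i))] := if_pos hx
      rw [e] at hs
      cases S₁ with
      | nil =>
        simp only [List.nil_append, List.cons_append, List.cons.injEq, Prod.mk.injEq] at hs
        obtain ⟨⟨rfl, h1⟩, h2⟩ := hs
        exact ⟨[], i, y, c, d, rfl, rfl, hd, hy, rfl, h2, hx, h1⟩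
      | cons s S₁ =>
        simp only [List.nil_append, List.cons_append, List.cons.injEq] at hs
        obtain ⟨u, i', w, c₁, c₂, rfl, a1, a2, a3, a4, a5⟩ := ih hy hs.2
        refine ⟨(x', i) :: u, i', w, c₁, c₂, rfl, (run_cons_of hd u).trans a1, a2, a3, ?_, a5⟩
        rw [skel_cons_of hd, e, a4, hs.1]; rfl
    · have e : skl c x' i = [] := if_neg hx
      rw [e] at hs
      obtain ⟨u, i', w, c₁, c₂, rfl, a1, a2, a3, a4, a5⟩ := ih hy hs
      refine ⟨(x', i) :: u, i', w, c₁, c₂, rfl, (run_cons_of hd u).trans a1, a2, a3, ?_, a5⟩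
      rw [skel_cons_of hd, e, a4]; rfl

theorem poles_length (c : Config) : (poles c).length = np c := by
  simp [poles, np, List.countP_eq_length_filter]

theorem poles_append (c d : Config) : poles (c ++ d) = poles c ++ poles d := List.filter_append ..

theorem run_skl {x : Kind} {i : ℕ} (h : step x i c = some c') :
    run (poles c) (skl c x i) = some (poles c') := by
  obtain ⟨cl, c0, c0', cr, rfl, rfl, rfl, h1, -, h0⟩ := step_decomp h
  have key : run (poles c0) (if x.surg c0 then [(x, 0)] else []) = some (poles c0') := by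
    rcases core_cases h0 h1 with ⟨k, rfl, rfl, rfl⟩ | ⟨a, rfl, rfl, rfl⟩ | ⟨b, a, a', rfl, rfl, rfl⟩
    · cases k <;> rfl
    · cases a <;> simp [poles, Kind.surg, run, step, Kind.act]
    · cases a <;> cases a' <;> rfl
  have := run_whisk key (poles cl) (poles cr)
  rw [skl_core h0, poles_append, poles_append, poles_append, poles_append, ← this, poles_length]
  split_ifs <;> simp

theorem run_skel (h : run c w = some c') : run (poles c) (skel c w) = some (poles c') := by
  induction w generalizing c with
  | nil => obtain rfl := Option.some.inj h; rfl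
  | cons x w ih =>
    obtain ⟨x, i⟩ := x
    obtain ⟨d, hd, hw⟩ := run_cons_some h
    rw [skel_cons_of hd, run_append_of (run_skl hd)]
    exact ih hw

theorem Adm.noCol {j m : ℕ} {K : Word} (h : Adm j K) (hm : j < m) : NoCol m K := by
  intro f hf
  rcases h.2 _ hf with h | h | h
  · simp only at h; omega
  · simp only [Prod.mk.injEq] at h; omega
  · simp only [Prod.mk.injEq] at h; omega

theorem Adm.circle {j : ℕ} {K : Word} (h : Adm j K) :
    Adm (j + 1) (ins (j, 1) (circle (j + 1)) K) := by
  have hn := h.noCol (Nat.lt_succ_self j) 1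
  have h2 := h.2
  obtain ⟨u, i, w, rfl, hu, hw⟩ := h.1.split
  rw [ins_split hu hw]
  obtain ⟨n1, n2⟩ := noKey_append.1 hn
  refine ⟨?_, fun κ hκ => ?_⟩
  · simp [Solo, List.count_eq_zero.2 n1, List.count_eq_zero.2 (noKey_cons.1 n2).2,
      MP_5b31c3_gt.circle, bottom]
  · by_cases e : κ = (j + 1, 1)
    · exact Or.inr (Or.inr e)
    · have : cup (some κ) ∈ (u ++ (cup (some (j, 1)), i) :: w).map Prod.fst := by
        simp only [List.map_append, List.map_cons, map_fst_shift, List.mem_append, List.mem_cons,
          MP_5b31c3_gt.circle, bottom, List.map_nil, cup.injEq, Option.some.injEq, e,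
          reduceCtorEq, List.not_mem_nil, or_self, or_false] at hκ ⊢
        tauto
      rcases h2 κ this with h | rfl | rfl
      · exact Or.inl (by omega)
      · exact Or.inl (Nat.lt_succ_self j)
      · exact Or.inl (Nat.lt_succ_self j)

/-! Repeated words -/

theorem run_rep (h : run c w = some c) (m : ℕ) :
    run c (List.replicate m w).flatten = some c := by
  induction m with
  | zero => rfl
  | succ m ih => rw [List.replicate_succ, List.flatten_cons, run_append_of h, ih]

theorem skel_rep (h : run c w = some c) (hs : skel c w = []) (m : ℕ) :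
    skel c (List.replicate m w).flatten = [] := by
  induction m with
  | zero => rfl
  | succ m ih => rw [List.replicate_succ, List.flatten_cons, skel_append_of h, hs, ih]; rfl

theorem recol_rep {ρ : ℕ → ℕ} {φ : ℕ → ℤ → ℤ} (h : recol ρ φ w = w) (m : ℕ) :
    recol ρ φ (List.replicate m w).flatten = (List.replicate m w).flatten := by
  induction m with
  | zero => rfl
  | succ m ih => rw [List.replicate_succ, List.flatten_cons, recol_append, h, ih]

end Pool.Agent.Lib.MP_5b31c3_gt
end
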